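import Pool.Agent.NCG.SLT

/-!
# CYM: the cyclic rotation commutes with `Gam X`, and further identities

`cyc_Gam`.  Write `κ b = sgn (deg (b 0) * ∑_j deg (b j.succ))`, so `cyc a b = κ b` if `a = rot b`.
`rot` is a bijection.  For all `c`, `b` (tuples with `m + 1` entries):
 (0)  `κ c * slot 0 X c b = slot (last m) X (rot c) (rot b) * κ b`;
 (j)  `κ c * slot j.succ X c b = slot j.castSucc X (rot c) (rot b) * κ b` for `j : Fin m`.
Here `rot c (castSucc j) = c (succ j)`, `rot c (last) = c 0`; so `c` and `b` agree outside `0` iff `rot c`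
and `rot b` agree outside `last`, etc.  Signs, writing `c_j` for `deg (c j)`, `s = ∑_j c_{j+1}`:
 (0): `b_{j+1} = c_{j+1}`; left: `sgn (c_0 s)`, right: `sgn ((c_0 - b_0) s) sgn (b_0 s)`.  Equal.
 (j): `c`, `b` agree outside `j + 1`; left: `sgn (c_0 s_c) sgn ((c_{j+1} - b_{j+1}) (c_0 + t))` with
 `t = ∑_{w < j} c_{w+1}`, right: `sgn ((c_{j+1} - b_{j+1}) t) sgn (b_0 s_b)`, `b_0 = c_0`,
 `s_c - s_b = c_{j+1} - b_{j+1}`.  Quotient: `sgn (c_0 (c_{j+1} - b_{j+1})) sgn ((c_{j+1} - b_{j+1}) c_0) = 1`.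
Then `(cyc * Gam X) (rot c) b = κ c * Gam X c b` and `(Gam X * cyc) (rot c) b = Gam X (rot c) (rot b) * κ b`;
sum (0) and (j) over the slots (`Fin.sum_univ_succ` on one side, `Fin.sum_univ_castSucc` on the other).
Integers commute with everything (`Int.cast_comm`).

`gam_slot`: entrywise, `sgn (∑ a) slot u X a b = - slot u X a b sgn (∑ b)` as `∑ a - ∑ b = a_u - b_u` is odd
when `X (a u) (b u) ≠ 0`.
`gam_cyc`: the total degree of `rot b` is the total degree of `b`.
`str_gam`: `∑_a (gam * Z) a a = str Z`.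
-/

open scoped BigOperators

namespace NCG

section

variable {ι : Type} [Fintype ι] [DecidableEq ι] (deg : ι → ℤ) {R R' : Type*} [Ring R] [Ring R']

omit [Fintype ι] [DecidableEq ι] in
private lemma CYM_rot_castSucc {m : ℕ} (b : Fin (m + 1) → ι) (j : Fin m) :
    rot b j.castSucc = b j.succ := by
  simp [rot]

omit [Fintype ι] [DecidableEq ι] in
private lemma CYM_rot_last {m : ℕ} (b : Fin (m + 1) → ι) : rot b (Fin.last m) = b 0 := by
  simp [rot]

omit [Fintype ι] [DecidableEq ι] in
private lemma CYM_rot_inj {m : ℕ} {b c : Fin (m + 1) → ι} (h : rot b = rot c) : b = c := by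
  funext v
  refine Fin.cases ?_ (fun j => ?_) v
  · rw [← CYM_rot_last b, ← CYM_rot_last c, h]
  · rw [← CYM_rot_castSucc b, ← CYM_rot_castSucc c, h]

omit [Fintype ι] [DecidableEq ι] in
private lemma CYM_rot_surj {m : ℕ} (a : Fin (m + 1) → ι) : ∃ c, rot c = a := by
  refine ⟨Fin.cons (α := fun _ => ι) (a (Fin.last m)) (fun j => a j.castSucc), ?_⟩
  funext v
  refine Fin.lastCases ?_ (fun j => ?_) v
  · rw [CYM_rot_last, Fin.cons_zero]
  · rw [CYM_rot_castSucc, Fin.cons_succ]

private lemma CYM_S_castSucc {m : ℕ} (u : Fin m) (f : Fin (m + 1) → ℤ) :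
    ∑ v ∈ Finset.univ.filter (· < u.castSucc), f v =
      ∑ v ∈ Finset.univ.filter (· < u), f v.castSucc := by
  rw [Finset.sum_filter, Finset.sum_filter, Fin.sum_univ_castSucc]
  rw [if_neg (not_lt.2 (Fin.le_last _)), add_zero]
  refine Finset.sum_congr rfl fun w _ => ?_
  simp only [Fin.castSucc_lt_castSucc_iff]

private lemma CYM_S_succ {m : ℕ} (u : Fin m) (f : Fin (m + 1) → ℤ) :
    ∑ v ∈ Finset.univ.filter (· < u.succ), f v =
      f 0 + ∑ v ∈ Finset.univ.filter (· < u), f v.succ := by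
  rw [Finset.sum_filter, Finset.sum_filter, Fin.sum_univ_succ]
  rw [if_pos (Fin.succ_pos u)]
  congr 1
  refine Finset.sum_congr rfl fun w _ => ?_
  simp only [Fin.succ_lt_succ_iff]

private lemma CYM_S_last {m : ℕ} (f : Fin (m + 1) → ℤ) :
    ∑ v ∈ Finset.univ.filter (· < Fin.last m), f v = ∑ v : Fin m, f v.castSucc := by
  rw [Finset.sum_filter, Fin.sum_univ_castSucc]
  rw [if_neg (lt_irrefl _), add_zero]
  refine Finset.sum_congr rfl fun w _ => ?_
  rw [if_pos (Fin.castSucc_lt_last w)]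

private lemma CYM_S_zero {m : ℕ} (f : Fin (m + 1) → ℤ) :
    ∑ v ∈ Finset.univ.filter (· < (0 : Fin (m + 1))), f v = 0 := by
  rw [Finset.sum_filter]
  refine Finset.sum_eq_zero fun w _ => ?_
  rw [if_neg (Fin.not_lt_zero w)]

private lemma CYM_cast (p q : ℤ) (x : R) (r s : ℤ) (h : sgn p * sgn q = sgn r * sgn s) :
    (sgn p : R) * ((sgn q : R) * x) = (sgn r : R) * x * (sgn s : R) := by
  rw [← mul_assoc, ← Int.cast_mul, h, Int.cast_mul, mul_assoc, mul_assoc, Int.cast_comm (sgn s) x]

private lemma CYM_zero (m : ℕ) (X : Matrix ι ι R) (c b : Fin (m + 1) → ι) :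
    (sgn (deg (c 0) * ∑ j : Fin m, deg (c j.succ)) : R) * slot deg 0 X c b =
      slot deg (Fin.last m) X (rot c) (rot b) *
        (sgn (deg (b 0) * ∑ j : Fin m, deg (b j.succ)) : R) := by
  simp only [slot]
  rw [CYM_S_zero, CYM_S_last, CYM_rot_last, CYM_rot_last]
  simp only [CYM_rot_castSucc]
  have hiff : (∀ v, v ≠ Fin.last m → rot c v = rot b v) ↔ ∀ v, v ≠ 0 → c v = b v := by
    constructor
    · intro h v
      refine Fin.cases (fun h0 => absurd rfl h0) (fun j _ => ?_) v
      have := h j.castSucc (Fin.castSucc_lt_last j).ne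
      rwa [CYM_rot_castSucc, CYM_rot_castSucc] at this
    · intro h v
      refine Fin.lastCases (fun h0 => absurd rfl h0) (fun j _ => ?_) v
      rw [CYM_rot_castSucc, CYM_rot_castSucc]
      exact h j.succ (Fin.succ_ne_zero j)
  simp only [hiff]
  split_ifs with h
  · have hs : ∑ j : Fin m, deg (b j.succ) = ∑ j : Fin m, deg (c j.succ) :=
      Finset.sum_congr rfl fun j _ => by rw [h j.succ (Fin.succ_ne_zero j)]
    rw [hs]
    apply CYM_cast
    rw [mul_zero, sgn_zero, mul_one, ← sgn_add]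
    congr 1
    ring
  · rw [mul_zero, zero_mul]

private lemma CYM_succ (m : ℕ) (X : Matrix ι ι R) (c b : Fin (m + 1) → ι) (j : Fin m) :
    (sgn (deg (c 0) * ∑ j : Fin m, deg (c j.succ)) : R) * slot deg j.succ X c b =
      slot deg j.castSucc X (rot c) (rot b) *
        (sgn (deg (b 0) * ∑ j : Fin m, deg (b j.succ)) : R) := by
  simp only [slot]
  rw [CYM_S_succ, CYM_S_castSucc, CYM_rot_castSucc, CYM_rot_castSucc]
  simp only [CYM_rot_castSucc]
  have hiff : (∀ v, v ≠ j.castSucc → rot c v = rot b v) ↔ ∀ v, v ≠ j.succ → c v = b v := by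
    constructor
    · intro h v
      refine Fin.cases (fun _ => ?_) (fun w hw => ?_) v
      · have := h (Fin.last m) (Fin.castSucc_lt_last j).ne'
        rwa [CYM_rot_last, CYM_rot_last] at this
      · have := h w.castSucc (fun h2 => hw (by rw [Fin.castSucc_injective _ h2]))
        rwa [CYM_rot_castSucc, CYM_rot_castSucc] at this
    · intro h v
      refine Fin.lastCases (fun _ => ?_) (fun w hw => ?_) v
      · rw [CYM_rot_last, CYM_rot_last]
        exact h 0 (Fin.succ_ne_zero j).symm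
      · rw [CYM_rot_castSucc, CYM_rot_castSucc]
        exact h w.succ (fun h2 => hw (by rw [Fin.succ_injective _ h2]))
  simp only [hiff]
  split_ifs with h
  · have hs : ∑ w : Fin m, deg (c w.succ) =
        ∑ w : Fin m, deg (b w.succ) + (deg (c j.succ) - deg (b j.succ)) := by
      rw [← Finset.add_sum_erase _ _ (Finset.mem_univ j),
        ← Finset.add_sum_erase _ (fun w : Fin m => deg (b w.succ)) (Finset.mem_univ j)]
      have h1 : ∑ w ∈ Finset.univ.erase j, deg (c w.succ) =
          ∑ w ∈ Finset.univ.erase j, deg (b w.succ) := by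
        refine Finset.sum_congr rfl fun w hw => ?_
        rw [Finset.mem_erase] at hw
        rw [h w.succ (fun h2 => hw.1 (Fin.succ_injective _ h2))]
      rw [h1]
      ring
    have h0 : c 0 = b 0 := h 0 (Fin.succ_ne_zero j).symm
    rw [hs, h0]
    apply CYM_cast
    rw [← sgn_add, ← sgn_add]
    apply sgn_congr
    refine ⟨deg (b 0) * (deg (c j.succ) - deg (b j.succ)), ?_⟩
    ring
  · rw [mul_zero, zero_mul]

private lemma CYM_key (m : ℕ) (X : Matrix ι ι R) (c b : Fin (m + 1) → ι) :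
    (sgn (deg (c 0) * ∑ j : Fin m, deg (c j.succ)) : R) * Gam deg (m + 1) X c b =
      Gam deg (m + 1) X (rot c) (rot b) *
        (sgn (deg (b 0) * ∑ j : Fin m, deg (b j.succ)) : R) := by
  unfold Gam
  rw [Matrix.sum_apply, Matrix.sum_apply, Fin.sum_univ_succ,
    Fin.sum_univ_castSucc (fun u => slot deg u X (rot c) (rot b)), mul_add, add_mul,
    CYM_zero, add_comm, Finset.mul_sum, Finset.sum_mul]
  congr 1
  exact Finset.sum_congr rfl fun j _ => CYM_succ deg m X c b j

theorem cyc_Gam (m : ℕ) (X : Matrix ι ι R) :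
    cyc deg R m * Gam deg (m + 1) X = Gam deg (m + 1) X * cyc deg R m := by
  ext a b
  obtain ⟨c, rfl⟩ := CYM_rot_surj a
  rw [Matrix.mul_apply, Matrix.mul_apply, Finset.sum_eq_single c, Finset.sum_eq_single (rot b)]
  · simp only [cyc, if_true]
    exact CYM_key deg m X c b
  · intro d _ hd
    simp only [cyc]
    rw [if_neg hd, mul_zero]
  · intro h
    exact absurd (Finset.mem_univ _) h
  · intro d _ hd
    simp only [cyc]
    rw [if_neg (fun h => hd (CYM_rot_inj h).symm), zero_mul]
  · intro h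
    exact absurd (Finset.mem_univ _) h

theorem cyc_map (m : ℕ) (f : R →+* R') : (cyc deg R m).map f = cyc deg R' m := by
  ext a b
  simp only [cyc, Matrix.map_apply]
  split_ifs
  · exact map_intCast f _
  · exact map_zero f

theorem cyc_map_int (m : ℕ) : (cyc deg ℤ m).map (Int.cast : ℤ → R) = cyc deg R m := by
  ext a b
  simp only [cyc, Matrix.map_apply]
  split_ifs
  · rw [Int.cast_id]
  · exact Int.cast_zero

theorem gam_map (m : ℕ) (f : R →+* R') : (gam deg R m).map f = gam deg R' m := by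
  ext a b
  simp only [gam, Matrix.map_apply, Matrix.diagonal_apply]
  split_ifs
  · exact map_intCast f _
  · exact map_zero f

theorem gam_map_int (m : ℕ) : (gam deg ℤ m).map (Int.cast : ℤ → R) = gam deg R m := by
  ext a b
  simp only [gam, Matrix.map_apply, Matrix.diagonal_apply]
  split_ifs
  · rw [Int.cast_id]
  · exact Int.cast_zero

theorem gam_slot {m : ℕ} (u : Fin m) (X : Matrix ι ι R)
    (hX : ∀ a b, X a b ≠ 0 → Odd (deg a - deg b)) :
    gam deg R m * slot deg u X = -(slot deg u X * gam deg R m) := by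
  ext a b
  rw [Matrix.neg_apply]
  simp only [gam]
  rw [Matrix.diagonal_mul, Matrix.mul_diagonal]
  simp only [slot]
  split_ifs with h
  · by_cases hx : X (a u) (b u) = 0
    · rw [hx]
      simp
    have ox := hX _ _ hx
    have hs : ∑ w : Fin m, deg (a w) = ∑ w : Fin m, deg (b w) + (deg (a u) - deg (b u)) := by
      rw [← Finset.add_sum_erase _ _ (Finset.mem_univ u),
        ← Finset.add_sum_erase _ (fun w : Fin m => deg (b w)) (Finset.mem_univ u)]
      have h1 : ∑ w ∈ Finset.univ.erase u, deg (a w) =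
          ∑ w ∈ Finset.univ.erase u, deg (b w) := by
        refine Finset.sum_congr rfl fun w hw => ?_
        rw [Finset.mem_erase] at hw
        rw [h w hw.1]
      rw [h1]
      ring
    rw [hs, sgn_add_odd ox, Int.cast_neg, neg_mul]
    congr 1
    exact Int.cast_comm _ _
  · rw [mul_zero, zero_mul, neg_zero]

theorem gam_Gam (m : ℕ) (X : Matrix ι ι R) (hX : ∀ a b, X a b ≠ 0 → Odd (deg a - deg b)) :
    gam deg R m * Gam deg m X = -(Gam deg m X * gam deg R m) := by
  unfold Gam
  rw [Finset.mul_sum, Finset.sum_mul, ← Finset.sum_neg_distrib]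
  exact Finset.sum_congr rfl fun u _ => gam_slot deg u X hX

private lemma CYM_total (m : ℕ) (b : Fin (m + 1) → ι) :
    ∑ j, deg (rot b j) = ∑ j, deg (b j) := by
  rw [Fin.sum_univ_castSucc, Fin.sum_univ_succ, CYM_rot_last, add_comm]
  congr 1
  exact Finset.sum_congr rfl fun j _ => by rw [CYM_rot_castSucc]

theorem gam_cyc (m : ℕ) :
    gam deg R (m + 1) * cyc deg R m = cyc deg R m * gam deg R (m + 1) := by
  ext a b
  simp only [gam]
  rw [Matrix.diagonal_mul, Matrix.mul_diagonal]
  simp only [cyc]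
  split_ifs with h
  · subst h
    rw [CYM_total]
    exact Int.cast_comm _ _
  · rw [mul_zero, zero_mul]

theorem str_gam (m : ℕ) (Z : Matrix (Fin m → ι) (Fin m → ι) R) :
    ∑ a, (gam deg R m * Z) a a = str deg m Z := by
  unfold str gam
  refine Finset.sum_congr rfl fun a _ => ?_
  rw [Matrix.diagonal_mul]

/-- the operator `gam * cyc` anticommutes with `Gam X` for odd `X` -/
theorem gamcyc_Gam (m : ℕ) (X : Matrix ι ι R) (hX : ∀ a b, X a b ≠ 0 → Odd (deg a - deg b)) :
    (gam deg R (m + 1) * cyc deg R m) * Gam deg (m + 1) X =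
      -(Gam deg (m + 1) X * (gam deg R (m + 1) * cyc deg R m)) := by
  rw [Matrix.mul_assoc, cyc_Gam, ← Matrix.mul_assoc, gam_Gam deg (m + 1) X hX, Matrix.neg_mul,
    Matrix.mul_assoc]

/-- a homotopy on the first tensor factor -/
theorem slot_homotopy {A : Type*} [CommRing A] (m : ℕ) (D s : Matrix ι ι A) (w : A)
    (hD : ∀ a b, D a b ≠ 0 → Odd (deg a - deg b)) (hs : ∀ a b, s a b ≠ 0 → Odd (deg a - deg b))
    (h : D * s + s * D = w • (1 : Matrix ι ι A)) :
    Gam deg (m + 1) D * slot deg 0 s + slot deg 0 s * Gam deg (m + 1) D =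
      w • (1 : Matrix (Fin (m + 1) → ι) (Fin (m + 1) → ι) A) := by
  have h1 : slot deg (0 : Fin (m + 1)) (w • (1 : Matrix ι ι A)) =
      w • (1 : Matrix (Fin (m + 1) → ι) (Fin (m + 1) → ι) A) := by
    have e1 : w • (1 : Matrix ι ι A) = (1 : Matrix ι ι A).map (AddMonoidHom.mulLeft w) := by
      ext a b
      rfl
    rw [e1, ← slot_map, slot_one]
    ext a b
    rfl
  have h2 : ∀ j : Fin m, slot deg j.succ D * slot deg 0 s + slot deg 0 s * slot deg j.succ D = 0 := by
    intro j
    rw [slot_anticomm deg (Fin.succ_ne_zero j) D s (fun _ _ _ _ => mul_comm _ _) hD hs,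
      neg_add_cancel]
  unfold Gam
  rw [Fin.sum_univ_succ, add_mul, mul_add, Finset.sum_mul, Finset.mul_sum]
  have e2 : slot deg 0 D * slot deg 0 s + ∑ i : Fin m, slot deg i.succ D * slot deg 0 s +
      (slot deg 0 s * slot deg 0 D + ∑ i : Fin m, slot deg 0 s * slot deg i.succ D) =
      (slot deg 0 D * slot deg 0 s + slot deg 0 s * slot deg 0 D) +
        ∑ i : Fin m, (slot deg i.succ D * slot deg 0 s + slot deg 0 s * slot deg i.succ D) := by
    rw [Finset.sum_add_distrib]
    abel
  rw [e2, Finset.sum_eq_zero (fun i _ => h2 i), add_zero, ← slot_mul, ← slot_mul, ← slot_add, h, h1]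

end

end NCG
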