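import Pool.Agent.NCG.HMB

/-!
# LTA: Hopf trace formula and additivity of traces in exact triangles

`LHT` (Hopf trace formula).  `V` finite-dimensional, `δ ∘ δ = 0`, `G ∘ δ = - δ ∘ G`.  Then the trace of `G`
on `V` is the trace of `G` on the homology of `δ`.
Proof.  For an endomorphism `G` preserving a subspace `W`, `tr (G | V) = tr (G | W) + tr (G | V ⧸ W)`
(search Mathlib for `LinearMap.trace_eq_...` / `LinearMap.trace_restrict`...; otherwise choose a
complement, or prove it with a basis adapted to `W`; state it as a private lemma).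
Let `K = ker δ`, `I = range δ ⊆ K`.  `tr (G|V) = tr (G|K) + tr (G|V/K)`; `δ` induces an isomorphism
`V/K ≃ I` which satisfies `δ G = - G δ`, so `tr (G | V/K) = - tr (G | I)`.  And
`tr (G|K) = tr (G|I) + tr (G | K/I)`.  Hence `tr (G|V) = tr (G | K/I)`.

`LTR` (exact triangle).  `f : V' → V`, `g : V → V''`, `∂ : V'' → V'` with `ker g = range f`,
`ker ∂ = range g`, `ker f = range ∂`, and endomorphisms `G', G, G''` with `G f = f G'`, `G'' g = g G`,
`G' ∂ = - ∂ G''`.  Then `tr G = tr G' + tr G''`.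
Proof.  `tr G = tr (G | range f) + tr (G | V / range f)`, with `V / range f ≃ range g`;
`tr G' = tr (G' | ker f) + tr (G' | V'/ker f)`, with `V'/ker f ≃ range f`;
`tr G'' = tr (G'' | range g) + tr (G'' | V''/range g)`, with `V''/range g = V''/ker ∂ ≃ range ∂ = ker f`
and the isomorphism anticommutes: `tr (G'' | V''/range g) = - tr (G' | ker f)`.
-/

open scoped BigOperators

namespace NCG

section

private theorem LTA_add {k W V Q : Type*} [Field k] [AddCommGroup W] [Module k W]
    [Module.Finite k W] [AddCommGroup V] [Module k V] [Module.Finite k V]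
    [AddCommGroup Q] [Module k Q] [Module.Finite k Q] (i : W →ₗ[k] V) (q : V →ₗ[k] Q)
    (hi : Function.Injective i) (hq : Function.Surjective q)
    (he : LinearMap.range i = LinearMap.ker q) (GW : W →ₗ[k] W) (G : V →ₗ[k] V)
    (GQ : Q →ₗ[k] Q) (h1 : ∀ x, G (i x) = i (GW x)) (h2 : ∀ x, GQ (q x) = q (G x)) :
    LinearMap.trace k V G = LinearMap.trace k W GW + LinearMap.trace k Q GQ := by
  obtain ⟨σ, hσ⟩ := q.exists_rightInverse_of_surjective (LinearMap.range_eq_top.2 hq)
  have hσ' : ∀ y, q (σ y) = y := fun y => LinearMap.congr_fun hσ y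
  have hr : ∀ x : V, (LinearMap.id - σ ∘ₗ q : V →ₗ[k] V) x ∈ LinearMap.range i := by
    intro x
    rw [he, LinearMap.mem_ker]
    show q (x - σ (q x)) = 0
    rw [map_sub, hσ', sub_self]
  let E : W ≃ₗ[k] LinearMap.range i := LinearEquiv.ofInjective i hi
  let p : V →ₗ[k] W := E.symm.toLinearMap ∘ₗ
    ((LinearMap.id - σ ∘ₗ q : V →ₗ[k] V).codRestrict (LinearMap.range i) hr)
  have hp : ∀ x, i (p x) = x - σ (q x) := by
    intro x
    have h : E (p x) = ⟨x - σ (q x), hr x⟩ := E.apply_symm_apply _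
    exact congrArg Subtype.val h
  have hpi : ∀ x, p (i x) = x := by
    intro x
    apply hi
    have h : i x ∈ LinearMap.ker q := he ▸ ⟨x, rfl⟩
    rw [hp, LinearMap.mem_ker.1 h, map_zero, sub_zero]
  have e1 : G = (G ∘ₗ i) ∘ₗ p + (G ∘ₗ σ) ∘ₗ q := by
    refine LinearMap.ext fun x => ?_
    show G x = G (i (p x)) + G (σ (q x))
    rw [← map_add, hp, sub_add_cancel]
  have e2 : p ∘ₗ (G ∘ₗ i) = GW := by
    refine LinearMap.ext fun x => ?_
    show p (G (i x)) = GW x
    rw [h1, hpi]
  have e3 : q ∘ₗ (G ∘ₗ σ) = GQ := by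
    refine LinearMap.ext fun x => ?_
    show q (G (σ x)) = GQ x
    rw [← h2, hσ']
  calc LinearMap.trace k V G
      = LinearMap.trace k V ((G ∘ₗ i) ∘ₗ p) + LinearMap.trace k V ((G ∘ₗ σ) ∘ₗ q) := by
        rw [← map_add, ← e1]
    _ = LinearMap.trace k W (p ∘ₗ (G ∘ₗ i)) + LinearMap.trace k Q (q ∘ₗ (G ∘ₗ σ)) := by
        rw [LinearMap.trace_comp_comm' p (G ∘ₗ i), LinearMap.trace_comp_comm' q (G ∘ₗ σ)]
    _ = LinearMap.trace k W GW + LinearMap.trace k Q GQ := by rw [e2, e3]

variable {k : Type*} {V V' V'' : Type*} [Field k] [AddCommGroup V] [Module k V]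
  [Module.Finite k V] [AddCommGroup V'] [Module k V'] [Module.Finite k V']
  [AddCommGroup V''] [Module k V''] [Module.Finite k V'']

theorem LHT (δ G : V →ₗ[k] V) (h : δ ∘ₗ δ = 0) (hG : G ∘ₗ δ = -(δ ∘ₗ G)) :
    htr δ G = LinearMap.trace k V G := by
  have hc : ∀ x, G (δ x) = -δ (G x) := fun x => LinearMap.congr_fun hG x
  have hd : ∀ x, δ (δ x) = 0 := fun x => LinearMap.congr_fun h x
  have hp : Pres δ G := Pres_of_anticomm hG
  have hle : LinearMap.range δ ≤ LinearMap.ker δ := by
    rintro _ ⟨x, rfl⟩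
    exact hd x
  have t1 := LTA_add (LinearMap.ker δ).subtype δ.rangeRestrict Subtype.val_injective
    δ.surjective_rangeRestrict
    (by rw [Submodule.range_subtype, LinearMap.ker_rangeRestrict])
    (G.restrict hp.1) G (-(G.restrict hp.2)) (fun x => rfl)
    (fun x => Subtype.ext (by
      show -(G (δ x)) = δ (G x)
      rw [hc, neg_neg]))
  have t2 := LTA_add (Submodule.inclusion hle)
    (((LinearMap.range δ).comap (LinearMap.ker δ).subtype).mkQ)
    (Submodule.inclusion_injective hle) (Submodule.mkQ_surjective _)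
    (by
      rw [Submodule.ker_mkQ, Submodule.range_inclusion])
    (G.restrict hp.2) (G.restrict hp.1) (hmap δ G hp) (fun x => rfl) (fun x => rfl)
  rw [htr_eq hp, t1, t2, map_neg]
  ring

theorem LTR (f : V' →ₗ[k] V) (g : V →ₗ[k] V'') (d : V'' →ₗ[k] V')
    (h1 : LinearMap.ker g = LinearMap.range f) (h2 : LinearMap.ker d = LinearMap.range g)
    (h3 : LinearMap.ker f = LinearMap.range d)
    (G' : V' →ₗ[k] V') (G : V →ₗ[k] V) (G'' : V'' →ₗ[k] V'')
    (hf : G ∘ₗ f = f ∘ₗ G') (hg : G'' ∘ₗ g = g ∘ₗ G) (hd : G' ∘ₗ d = -(d ∘ₗ G'')) :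
    LinearMap.trace k V G = LinearMap.trace k V' G' + LinearMap.trace k V'' G'' := by
  have hf' : ∀ x, G (f x) = f (G' x) := fun x => LinearMap.congr_fun hf x
  have hg' : ∀ x, G'' (g x) = g (G x) := fun x => LinearMap.congr_fun hg x
  have hd' : ∀ x, G' (d x) = -d (G'' x) := fun x => LinearMap.congr_fun hd x
  have a1 : ∀ x ∈ LinearMap.range f, G x ∈ LinearMap.range f := by
    rintro _ ⟨x, rfl⟩
    exact ⟨G' x, (hf' x).symm⟩
  have a2 : ∀ x ∈ LinearMap.range g, G'' x ∈ LinearMap.range g := by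
    rintro _ ⟨x, rfl⟩
    exact ⟨G x, (hg' x).symm⟩
  have a3 : ∀ x ∈ LinearMap.range d, G' x ∈ LinearMap.range d := by
    rintro _ ⟨x, rfl⟩
    exact ⟨-G'' x, by rw [map_neg, hd']⟩
  have t1 := LTA_add (LinearMap.range f).subtype g.rangeRestrict Subtype.val_injective
    g.surjective_rangeRestrict
    (by rw [Submodule.range_subtype, LinearMap.ker_rangeRestrict, h1])
    (G.restrict a1) G (G''.restrict a2) (fun x => rfl)
    (fun x => Subtype.ext (hg' x))
  have t2 := LTA_add (LinearMap.range d).subtype f.rangeRestrict Subtype.val_injective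
    f.surjective_rangeRestrict
    (by rw [Submodule.range_subtype, LinearMap.ker_rangeRestrict, h3])
    (G'.restrict a3) G' (G.restrict a1) (fun x => rfl)
    (fun x => Subtype.ext (hf' x))
  have t3 := LTA_add (LinearMap.range g).subtype d.rangeRestrict Subtype.val_injective
    d.surjective_rangeRestrict
    (by rw [Submodule.range_subtype, LinearMap.ker_rangeRestrict, h2])
    (G''.restrict a2) G'' (-(G'.restrict a3)) (fun x => rfl)
    (fun x => Subtype.ext (by
      show -(G' (d x)) = d (G'' x)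
      rw [hd', neg_neg]))
  rw [t1, t2, t3, map_neg]
  ring

end

end NCG
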