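import Pool.Agent.NCG.MVB
import Pool.Agent.NCG.LTA
import Pool.Agent.NCG.CYM

/-!
# ADD: additivity of the trace on homology in the module of coefficients

`ADD`: `0 → M' → M → M'' → 0` exact (`f` injective, `g` surjective, `range f = ker g`), `Δ² = 0`,
`G Δ = - Δ G`, all three homologies finite over `k`.  Then
`htr (on M) = htr (on M') + htr (on M'')`.
Proof.  `0 → (J → M') → (J → M) → (J → M'') → 0` is an exact sequence of complexes (`mv_map`), compatible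
with `G`.  It induces linear maps `f_* : H' → H`, `g_* : H → H''` and the connecting map
`∂ : H'' → H'`: for a cycle `x''` choose `x` with `g x = x''`; `Δ x = f x'` with `x'` a cycle;
`∂ [x''] = [x']`.  (To construct it as a linear map: let `E ⊆ (J → M)` be the `k`-subspace
`{x | g (Δ x) = 0}`; `x ↦ x'` is linear on `E` since `f` is injective; `E → H''` is surjective with kernel
`{x | g x ∈ range Δ} = ker.. = f(J → M') + range Δ`, on which `[x'] = 0`: use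
`LinearMap` factorisation through a surjection (`Submodule.liftQ` or `LinearMap.exists...`).)
The triangle is exact and `f_*`, `g_*` commute with the induced `G`, and
`∂ G = - G ∂`: `Δ (G x) = - G Δ x = - f (G x')`.  Apply `LTR` and `htr_eq`.

`AAM`: the case of `am`.
-/

open scoped BigOperators

namespace NCG

universe u v

variable {k : Type v} {A : Type u} [Field k] [CommRing A] [Algebra k A]
  {M' M M'' : Type u} [AddCommGroup M'] [Module k M'] [Module A M'] [IsScalarTower k A M']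
  [AddCommGroup M] [Module k M] [Module A M] [IsScalarTower k A M]
  [AddCommGroup M''] [Module k M''] [Module A M''] [IsScalarTower k A M'']

section abstr

variable {K : Type*} [Field K] {V₁ V₂ V₃ : Type*} [AddCommGroup V₁] [Module K V₁]
  [AddCommGroup V₂] [Module K V₂] [AddCommGroup V₃] [Module K V₃]

private def ADD_map (δ : V₁ →ₗ[K] V₁) (δ' : V₂ →ₗ[K] V₂) (f : V₁ →ₗ[K] V₂)
    (h1 : ∀ x ∈ LinearMap.ker δ, f x ∈ LinearMap.ker δ')
    (h2 : ∀ x ∈ LinearMap.ker δ, x ∈ LinearMap.range δ → f x ∈ LinearMap.range δ') :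
    Hm δ →ₗ[K] Hm δ' :=
  Submodule.mapQ _ _ (f.restrict h1) (fun x hx => h2 x.1 x.2 hx)

private theorem ADD_eq {δ : V₁ →ₗ[K] V₁} (x y : LinearMap.ker δ) :
    (Submodule.Quotient.mk x : Hm δ) = Submodule.Quotient.mk y ↔ ∃ z, δ z = x.1 - y.1 := by
  rw [Submodule.Quotient.eq]
  rfl

private theorem ADD_abs (δ₁ P₁ : V₁ →ₗ[K] V₁) (δ₂ P₂ : V₂ →ₗ[K] V₂) (δ₃ P₃ : V₃ →ₗ[K] V₃)
    (f : V₁ →ₗ[K] V₂) (g : V₂ →ₗ[K] V₃) (hδ : ∀ x, δ₂ (δ₂ x) = 0)
    (hf : Function.Injective f) (hg : Function.Surjective g)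
    (hfg : ∀ x, g x = 0 ↔ ∃ y, f y = x)
    (hfδ : ∀ x, f (δ₁ x) = δ₂ (f x)) (hgδ : ∀ x, g (δ₂ x) = δ₃ (g x))
    (hP₁ : ∀ x, P₁ (δ₁ x) = -δ₁ (P₁ x)) (hP₂ : ∀ x, P₂ (δ₂ x) = -δ₂ (P₂ x))
    (hP₃ : ∀ x, P₃ (δ₃ x) = -δ₃ (P₃ x))
    (hfP : ∀ x, f (P₁ x) = P₂ (f x)) (hgP : ∀ x, g (P₂ x) = P₃ (g x))
    [Module.Finite K (Hm δ₁)] [Module.Finite K (Hm δ₂)] [Module.Finite K (Hm δ₃)] :
    htr δ₂ P₂ = htr δ₁ P₁ + htr δ₃ P₃ := by
  have hp₁ : Pres δ₁ P₁ := Pres_of_anticomm (LinearMap.ext hP₁)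
  have hp₂ : Pres δ₂ P₂ := Pres_of_anticomm (LinearMap.ext hP₂)
  have hp₃ : Pres δ₃ P₃ := Pres_of_anticomm (LinearMap.ext hP₃)
  obtain ⟨σ, hσ⟩ := LinearMap.exists_rightInverse_of_surjective g (LinearMap.range_eq_top.2 hg)
  obtain ⟨ρ, hρ⟩ := LinearMap.exists_leftInverse_of_injective f (LinearMap.ker_eq_bot.2 hf)
  have hσ' : ∀ x, g (σ x) = x := fun x => LinearMap.congr_fun hσ x
  have hρ' : ∀ x, ρ (f x) = x := fun x => LinearMap.congr_fun hρ x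
  have hgf : ∀ x, g (f x) = 0 := fun x => (hfg _).2 ⟨x, rfl⟩
  -- the fundamental property of the retraction
  have hρf : ∀ x, δ₃ (g x) = 0 → f (ρ (δ₂ x)) = δ₂ x := by
    intro x hx
    rw [← hgδ] at hx
    obtain ⟨y, hy⟩ := (hfg _).1 hx
    rw [← hy, hρ']
  have hρδ : ∀ x, δ₃ (g x) = 0 → δ₁ (ρ (δ₂ x)) = 0 := by
    intro x hx
    apply hf
    rw [hfδ, hρf x hx, hδ, map_zero]
  let fs : Hm δ₁ →ₗ[K] Hm δ₂ := ADD_map δ₁ δ₂ f
    (fun x hx => by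
      rw [LinearMap.mem_ker] at hx ⊢
      rw [← hfδ, hx, map_zero])
    (fun x _ => by
      rintro ⟨y, rfl⟩
      exact ⟨f y, (hfδ y).symm⟩)
  let gs : Hm δ₂ →ₗ[K] Hm δ₃ := ADD_map δ₂ δ₃ g
    (fun x hx => by
      rw [LinearMap.mem_ker] at hx ⊢
      rw [← hgδ, hx, map_zero])
    (fun x _ => by
      rintro ⟨y, rfl⟩
      exact ⟨g y, (hgδ y).symm⟩)
  let ds : Hm δ₃ →ₗ[K] Hm δ₁ := ADD_map δ₃ δ₁ (ρ ∘ₗ δ₂ ∘ₗ σ)
    (fun x hx => by
      rw [LinearMap.mem_ker] at hx ⊢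
      exact hρδ (σ x) (by rw [hσ', hx]))
    (fun x _ => by
      rintro ⟨y, rfl⟩
      have h1 : g (σ (δ₃ y) - δ₂ (σ y)) = 0 := by
        rw [map_sub, hσ', hgδ, hσ', sub_self]
      obtain ⟨w, hw⟩ := (hfg _).1 h1
      refine ⟨w, ?_⟩
      have h2 : σ (δ₃ y) = f w + δ₂ (σ y) := by rw [hw]; abel
      show δ₁ w = ρ (δ₂ (σ (δ₃ y)))
      rw [h2, map_add, hδ, add_zero, ← hfδ, hρ'])
  have fs_mk : ∀ x (hx : x ∈ LinearMap.ker δ₁) (hx' : f x ∈ LinearMap.ker δ₂),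
      fs (Submodule.Quotient.mk ⟨x, hx⟩) = Submodule.Quotient.mk ⟨f x, hx'⟩ := fun x hx _ => rfl
  have gs_mk : ∀ x (hx : x ∈ LinearMap.ker δ₂) (hx' : g x ∈ LinearMap.ker δ₃),
      gs (Submodule.Quotient.mk ⟨x, hx⟩) = Submodule.Quotient.mk ⟨g x, hx'⟩ := fun x hx _ => rfl
  have ds_mk : ∀ x (hx : g x ∈ LinearMap.ker δ₃) (hx' : ρ (δ₂ x) ∈ LinearMap.ker δ₁),
      ds (Submodule.Quotient.mk ⟨g x, hx⟩) = Submodule.Quotient.mk ⟨ρ (δ₂ x), hx'⟩ := by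
    intro x hx hx'
    have h1 : g (σ (g x) - x) = 0 := by rw [map_sub, hσ', sub_self]
    obtain ⟨w, hw⟩ := (hfg _).1 h1
    refine (ADD_eq _ _).2 ⟨w, ?_⟩
    show δ₁ w = ρ (δ₂ (σ (g x))) - ρ (δ₂ x)
    have h2 : σ (g x) = f w + x := by rw [hw]; abel
    rw [h2, map_add, map_add, ← hfδ, hρ']
    abel
  have P_mk : ∀ x (hx : x ∈ LinearMap.ker δ₂) (hx' : P₂ x ∈ LinearMap.ker δ₂),
      hmap δ₂ P₂ hp₂ (Submodule.Quotient.mk ⟨x, hx⟩) = Submodule.Quotient.mk ⟨P₂ x, hx'⟩ :=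
    fun x hx _ => rfl
  have P1_mk : ∀ x (hx : x ∈ LinearMap.ker δ₁) (hx' : P₁ x ∈ LinearMap.ker δ₁),
      hmap δ₁ P₁ hp₁ (Submodule.Quotient.mk ⟨x, hx⟩) = Submodule.Quotient.mk ⟨P₁ x, hx'⟩ :=
    fun x hx _ => rfl
  have P3_mk : ∀ x (hx : x ∈ LinearMap.ker δ₃) (hx' : P₃ x ∈ LinearMap.ker δ₃),
      hmap δ₃ P₃ hp₃ (Submodule.Quotient.mk ⟨x, hx⟩) = Submodule.Quotient.mk ⟨P₃ x, hx'⟩ :=
    fun x hx _ => rfl
  rw [htr_eq hp₁, htr_eq hp₂, htr_eq hp₃]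
  refine LTR fs gs ds ?_ ?_ ?_ _ _ _ ?_ ?_ ?_
  · ext c
    obtain ⟨⟨x, hx⟩, rfl⟩ := Submodule.Quotient.mk_surjective _ c
    have hx0 : δ₂ x = 0 := hx
    have hgx : g x ∈ LinearMap.ker δ₃ := by
      rw [LinearMap.mem_ker, ← hgδ, hx0, map_zero]
    rw [LinearMap.mem_ker, gs_mk x hx hgx, Hm_mk_eq_zero, LinearMap.mem_range]
    constructor
    · rintro ⟨y, hy⟩
      obtain ⟨z, rfl⟩ := hg y
      have h1 : g (x - δ₂ z) = 0 := by
        rw [map_sub, hgδ, hy, sub_self]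
      obtain ⟨w, hw⟩ := (hfg _).1 h1
      have h2 : δ₁ w = 0 := by
        apply hf
        rw [hfδ, hw, map_sub, hx0, hδ, sub_self, map_zero]
      refine ⟨Submodule.Quotient.mk ⟨w, h2⟩, ?_⟩
      have h3 : f w ∈ LinearMap.ker δ₂ := by rw [LinearMap.mem_ker, ← hfδ, h2, map_zero]
      rw [fs_mk w h2 h3, ADD_eq]
      refine ⟨-z, ?_⟩
      show δ₂ (-z) = f w - x
      rw [hw, map_neg]
      abel
    · rintro ⟨c, hc⟩
      obtain ⟨⟨w, hw⟩, rfl⟩ := Submodule.Quotient.mk_surjective _ c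
      have hw0 : δ₁ w = 0 := hw
      have h3 : f w ∈ LinearMap.ker δ₂ := by rw [LinearMap.mem_ker, ← hfδ, hw0, map_zero]
      rw [fs_mk w hw h3, ADD_eq] at hc
      obtain ⟨z, hz⟩ := hc
      refine ⟨-g z, ?_⟩
      have hz' : δ₂ z = f w - x := hz
      rw [map_neg, ← hgδ, hz', map_sub, hgf]
      simp
  · ext c
    obtain ⟨⟨x, hx⟩, rfl⟩ := Submodule.Quotient.mk_surjective _ c
    obtain ⟨x, rfl⟩ := hg x
    have hx0 : δ₃ (g x) = 0 := hx
    rw [LinearMap.mem_ker, ds_mk x hx (hρδ x hx0), Hm_mk_eq_zero, LinearMap.mem_range]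
    constructor
    · rintro ⟨w, hw⟩
      have hw' : δ₁ w = ρ (δ₂ x) := hw
      have h1 : δ₂ (x - f w) = 0 := by
        rw [map_sub, ← hfδ, hw', hρf x hx0, sub_self]
      have h2 : g (x - f w) = g x := by rw [map_sub, hgf, sub_zero]
      have h3 : g (x - f w) ∈ LinearMap.ker δ₃ := by rw [h2]; exact hx
      refine ⟨Submodule.Quotient.mk ⟨x - f w, h1⟩, ?_⟩
      rw [gs_mk _ h1 h3]
      congr 1
      exact Subtype.ext h2
    · rintro ⟨c, hc⟩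
      obtain ⟨⟨y, hy⟩, rfl⟩ := Submodule.Quotient.mk_surjective _ c
      have hy0 : δ₂ y = 0 := hy
      have h3 : g y ∈ LinearMap.ker δ₃ := by rw [LinearMap.mem_ker, ← hgδ, hy0, map_zero]
      rw [gs_mk y hy h3, ADD_eq] at hc
      obtain ⟨z, hz⟩ := hc
      have hz' : δ₃ z = g y - g x := hz
      obtain ⟨z, rfl⟩ := hg z
      have h4 : g (y - x - δ₂ z) = 0 := by
        rw [map_sub, map_sub, hgδ, hz', sub_self]
      obtain ⟨w, hw⟩ := (hfg _).1 h4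
      refine ⟨-w, ?_⟩
      apply hf
      show f (δ₁ (-w)) = f (ρ (δ₂ x))
      rw [hfδ, map_neg, hw, hρf x hx0, map_neg, map_sub, map_sub, hy0, hδ]
      abel
  · ext c
    obtain ⟨⟨w, hw⟩, rfl⟩ := Submodule.Quotient.mk_surjective _ c
    have hw0 : δ₁ w = 0 := hw
    have h3 : f w ∈ LinearMap.ker δ₂ := by rw [LinearMap.mem_ker, ← hfδ, hw0, map_zero]
    rw [LinearMap.mem_ker, fs_mk w hw h3, Hm_mk_eq_zero, LinearMap.mem_range]
    constructor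
    · rintro ⟨x, hx⟩
      have hx' : δ₂ x = f w := hx
      have h4 : δ₃ (g x) = 0 := by rw [← hgδ, hx', hgf]
      refine ⟨Submodule.Quotient.mk ⟨g x, h4⟩, ?_⟩
      rw [ds_mk x h4 (hρδ x h4)]
      congr 1
      refine Subtype.ext ?_
      show ρ (δ₂ x) = w
      rw [hx', hρ']
    · rintro ⟨c, hc⟩
      obtain ⟨⟨x, hx⟩, rfl⟩ := Submodule.Quotient.mk_surjective _ c
      obtain ⟨x, rfl⟩ := hg x
      have hx0 : δ₃ (g x) = 0 := hx
      rw [ds_mk x hx (hρδ x hx0), ADD_eq] at hc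
      obtain ⟨z, hz⟩ := hc
      have hz' : δ₁ z = ρ (δ₂ x) - w := hz
      refine ⟨x - f z, ?_⟩
      show δ₂ (x - f z) = f w
      rw [map_sub, ← hfδ, hz', map_sub, hρf x hx0]
      abel
  · ext c
    simp only [LinearMap.comp_apply]
    have hw0 : δ₁ c.1 = 0 := c.2
    have h3 : f c.1 ∈ LinearMap.ker δ₂ := by rw [LinearMap.mem_ker, ← hfδ, hw0, map_zero]
    have h4 : P₁ c.1 ∈ LinearMap.ker δ₁ := hp₁.1 _ c.2
    have h5 : P₂ (f c.1) ∈ LinearMap.ker δ₂ := hp₂.1 _ h3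
    have h6 : f (P₁ c.1) ∈ LinearMap.ker δ₂ := by rw [hfP]; exact h5
    show hmap δ₂ P₂ hp₂ (fs (Submodule.Quotient.mk ⟨c.1, c.2⟩)) =
      fs (hmap δ₁ P₁ hp₁ (Submodule.Quotient.mk ⟨c.1, c.2⟩))
    rw [fs_mk c.1 c.2 h3, P_mk _ h3 h5, P1_mk _ c.2 h4, fs_mk _ h4 h6]
    congr 1
    exact Subtype.ext (hfP c.1).symm
  · ext c
    simp only [LinearMap.comp_apply]
    have hw0 : δ₂ c.1 = 0 := c.2
    have h3 : g c.1 ∈ LinearMap.ker δ₃ := by rw [LinearMap.mem_ker, ← hgδ, hw0, map_zero]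
    have h4 : P₂ c.1 ∈ LinearMap.ker δ₂ := hp₂.1 _ c.2
    have h5 : P₃ (g c.1) ∈ LinearMap.ker δ₃ := hp₃.1 _ h3
    have h6 : g (P₂ c.1) ∈ LinearMap.ker δ₃ := by rw [hgP]; exact h5
    show hmap δ₃ P₃ hp₃ (gs (Submodule.Quotient.mk ⟨c.1, c.2⟩)) =
      gs (hmap δ₂ P₂ hp₂ (Submodule.Quotient.mk ⟨c.1, c.2⟩))
    rw [gs_mk c.1 c.2 h3, P3_mk _ h3 h5, P_mk _ c.2 h4, gs_mk _ h4 h6]
    congr 1
    exact Subtype.ext (hgP c.1).symm
  · refine LinearMap.ext fun c => ?_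
    obtain ⟨⟨x, hx⟩, rfl⟩ := Submodule.Quotient.mk_surjective _ c
    obtain ⟨x, rfl⟩ := hg x
    have hx0 : δ₃ (g x) = 0 := hx
    have h1 : ρ (δ₂ x) ∈ LinearMap.ker δ₁ := hρδ x hx0
    have h2 : P₁ (ρ (δ₂ x)) ∈ LinearMap.ker δ₁ := hp₁.1 _ h1
    have h3 : P₃ (g x) ∈ LinearMap.ker δ₃ := hp₃.1 _ hx
    have h4 : g (P₂ x) ∈ LinearMap.ker δ₃ := by rw [hgP]; exact h3
    have h5 : ρ (δ₂ (P₂ x)) ∈ LinearMap.ker δ₁ := hρδ _ h4
    show hmap δ₁ P₁ hp₁ (ds (Submodule.Quotient.mk ⟨g x, hx⟩)) =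
      -ds (hmap δ₃ P₃ hp₃ (Submodule.Quotient.mk ⟨g x, hx⟩))
    have h6 : (Submodule.Quotient.mk ⟨P₃ (g x), h3⟩ : Hm δ₃) = Submodule.Quotient.mk ⟨g (P₂ x), h4⟩ := by
      congr 1
      exact Subtype.ext (hgP x).symm
    rw [ds_mk x hx h1, P1_mk _ h1 h2, P3_mk _ hx h3, h6, ds_mk _ h4 h5, ← Submodule.Quotient.mk_neg,
      ADD_eq]
    refine ⟨0, ?_⟩
    show δ₁ 0 = P₁ (ρ (δ₂ x)) - -ρ (δ₂ (P₂ x))
    have h7 : δ₂ (P₂ x) = -f (P₁ (ρ (δ₂ x))) := by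
      rw [hfP, hρf x hx0, hP₂, neg_neg]
    rw [h7, map_neg, hρ', map_zero]
    simp

end abstr

theorem ADD {J : Type} [Fintype J] [DecidableEq J] (Δ G : Matrix J J A) (hΔ : Δ * Δ = 0)
    (hG : G * Δ = -(Δ * G)) (f : M' →ₗ[A] M) (g : M →ₗ[A] M'') (hf : Function.Injective f)
    (hg : Function.Surjective g) (hfg : LinearMap.range f = LinearMap.ker g)
    (h' : Module.Finite k (Hm (mv k (M := M') Δ))) (h : Module.Finite k (Hm (mv k (M := M) Δ)))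
    (h'' : Module.Finite k (Hm (mv k (M := M'') Δ))) :
    htr (mv k (M := M) Δ) (mv k (M := M) G) =
      htr (mv k (M := M') Δ) (mv k (M := M') G) +
      htr (mv k (M := M'') Δ) (mv k (M := M'') G) := by
  have hP : ∀ (L : Type u) [AddCommGroup L] [Module k L] [Module A L] [IsScalarTower k A L]
      (x : J → L), mv k G (mv k Δ x) = -mv k Δ (mv k G x) := by
    intro L _ _ _ _ x
    have h1 := congrArg (fun X => mv k (M := L) X x) hG
    simp only [mv_mul, mv_neg] at h1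
    exact h1
  refine ADD_abs (K := k) (mv k (M := M') Δ) (mv k (M := M') G) (mv k (M := M) Δ)
    (mv k (M := M) G) (mv k (M := M'') Δ) (mv k (M := M'') G)
    ((f.restrictScalars k).compLeft J) ((g.restrictScalars k).compLeft J) ?_ ?_ ?_ ?_ ?_ ?_
    (hP M') (hP M) (hP M'') ?_ ?_
  · intro x
    have h1 := congrArg (fun X => mv k (M := M) X x) hΔ
    simp only [mv_mul, mv_zero] at h1
    exact h1
  · intro x y hxy
    funext a
    exact hf (congrFun hxy a)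
  · intro y
    choose x hx using fun a => hg (y a)
    exact ⟨x, funext hx⟩
  · intro x
    constructor
    · intro hx
      have h2 : ∀ a, ∃ y, f y = x a := fun a => by
        have h3 : x a ∈ LinearMap.ker g := congrFun hx a
        rw [← hfg] at h3
        exact h3
      choose y hy using h2
      exact ⟨y, funext hy⟩
    · rintro ⟨y, rfl⟩
      funext a
      have h3 : f (y a) ∈ LinearMap.ker g := by
        rw [← hfg]
        exact ⟨y a, rfl⟩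
      exact h3
  · intro x
    exact (mv_map k Δ f x).symm
  · intro x
    exact (mv_map k Δ g x).symm
  · intro x
    exact (mv_map k G f x).symm
  · intro x
    exact (mv_map k G g x).symm

theorem AAM (F : Cx A) (m : ℕ) (f : M' →ₗ[A] M) (g : M →ₗ[A] M'')
    (hf : Function.Injective f) (hg : Function.Surjective g)
    (hfg : LinearMap.range f = LinearMap.ker g)
    (h' : Module.Finite k (Hm (mv k (M := M') (F.del (m + 1)))))
    (h : Module.Finite k (Hm (mv k (M := M) (F.del (m + 1)))))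
    (h'' : Module.Finite k (Hm (mv k (M := M'') (F.del (m + 1))))) :
    am k F M m = am k F M' m + am k F M'' m := by
  have hD : ∀ a b, F.D a b ≠ 0 → Odd (F.deg a - F.deg b) := by
    intro a b hab
    have h1 := F.homog a b hab
    rw [h1]
    exact ⟨-1, by ring⟩
  unfold am
  refine ADD (F.del (m + 1)) (gam F.deg A (m + 1) * cyc F.deg A m) ?_ ?_ f g hf hg hfg h' h h''
  · exact Gam_sq F.deg (m + 1) F.D hD F.sq
  · exact gamcyc_Gam F.deg m F.D hD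

end NCG
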