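import Pool.Agent.NCG.INA

/-!
# ASD: the statement on exterior powers of differentials used in the main proof

Let `n = c + d`, let `u 0, ..., u (d-1)` be weakly regular on `A`, and assume that powers of all
`u b` are in `Hl φ l` for `l < c`.  Let `i < d`, `2 i ≠ d`, `2 i ≠ d + 1`, `x ∈ ⋀^i (A^n)`, and assume that
`u b ^ N • x ∈ Pl φ (Iz u i) c i` for all `b < d`.  Then `ZZ u i (Pl φ ⊥ c i) x`.

Case `2 i < d`.  Let `e = d - i > i` and `y j = u (i + j)`.  By `WReg_shift_ring` (`d = i + e`) the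
sequence `y 0, ..., y (e-1)` is weakly regular on `A ⧸ Iz u i`.  By `INA_zero` (with `z = y`, `r = e`,
`𝔞 = Iz u i`, `j = i < e`) `x ∈ Pl φ (Iz u i) c i = Iz u i • ⊤ ⊔ Pl φ ⊥ c i` (`Pl_sup`).  So `ZZ` holds with
`s = 0` (`Iz (fun j => u j ^ (0 + 1)) i = Iz u i`).

Case `2 i > d + 1`, i.e. `2 i ≥ d + 2`; so `i ≥ 2` (since `i < d`) .  Claim: for all `l ≤ c`
and all `p` with `p + l = i + c` and all `x ∈ ⋀^p (A^n)` with `u i ^ N • x ∈ Pl φ (Iz u i) l p` (some `N`) one has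
`ZZ u i (Pl φ ⊥ l p) x`.  Induction on `l`.
* `l = 0`: `u i ^ N • x ∈ Iz u i • ⊤` in the free module `E = ⋀^p (A^n)`.  `u i` is a nonzerodivisor on
  `E ⧸ Iz u i • ⊤` (by `WReg_free` for the one term sequence `u (i + 0)` on `A ⧸ Iz u i`, or directly
  from `WReg u d A` with `WReg_pi`/`WReg_congr` for `E ≃ (κ → A)` and the definition of `WReg` at
  `j = i < d`), so `x ∈ Iz u i • ⊤` and `ZZ` holds with `s = 0`.
* `l + 1`: `u i ^ N • (φ l ∧ x) = φ l ∧ (u i ^ N • x) ∈ Pl φ (Iz u i) l (p+1)` by `wedge_Pl`.  By the induction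
  hypothesis `ZZ u i (Pl φ ⊥ l (p+1)) (wedge (φ l) p x)`.  Apply `SQB_top` with `q + 1 = i`,
  `f = wedge (φ l) p`, `P' = Pl φ ⊥ (l+1) p`, `P = Pl φ ⊥ l (p+1)`, `P ⊔ range f = Pl φ ⊥ (l+1) (p+1)`;
  `hker` is `CON_unif`; `VV u i (i-1) (Pl φ ⊥ (l+1) (p+1))` is `INB` with `r = i` (`WReg.mono`): here
  `1 ≤ i - 1 < i` and `n + 2 = c + d + 2 ≤ (i-1) + (l+1) + (p+1) = 2 i + c` as
  `p + (l+1) = i + c` and `d + 2 ≤ 2 i`.
Apply the claim with `l = c`, `p = i`.
-/

open scoped BigOperators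

namespace NCG

universe u v w

variable {A : Type u} [CommRing A]

private theorem ASD_zz {z : ℕ → A} {r : ℕ} {X : Type v} [AddCommGroup X] [Module A X]
    (P : Submodule A X) (x : X) (hx : x ∈ Iz z r • (⊤ : Submodule A X) ⊔ P) : ZZ z r P x := by
  refine ⟨0, ?_⟩
  have h1 : Iz (fun j => z j ^ (0 + 1)) r = Iz z r := Iz_congr fun j _ => by rw [zero_add, pow_one]
  rw [pow_zero, one_smul, h1]
  exact hx

private theorem ASD_base {u : ℕ → A} {i d p n : ℕ} (hu : WReg u d A) (hi : i < d) (N : ℕ) :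
    ∀ x : ⋀[A]^p (Fin n → A), u i ^ N • x ∈ Iz u i • (⊤ : Submodule A (⋀[A]^p (Fin n → A))) →
      x ∈ Iz u i • (⊤ : Submodule A (⋀[A]^p (Fin n → A))) := by
  have h1 : WReg (fun j => u (i + j)) 1 (A ⧸ Iz u i) := WReg_shift_ring u i 1 (hu.mono (by omega))
  have h2 := WReg_free (Iz u i) h1 (⋀[A]^p (Fin n → A))
  have h3 : ∀ x : ⋀[A]^p (Fin n → A), u i • x ∈ Iz u i • (⊤ : Submodule A (⋀[A]^p (Fin n → A))) →
      x ∈ Iz u i • (⊤ : Submodule A (⋀[A]^p (Fin n → A))) := by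
    intro x hx
    have h4 := h2 0 (by norm_num) (Submodule.Quotient.mk x)
    rw [Iz_zero, Submodule.bot_smul, Submodule.mem_bot, Submodule.mem_bot] at h4
    rw [← Submodule.Quotient.mk_eq_zero]
    apply h4
    rw [← Submodule.Quotient.mk_smul, Submodule.Quotient.mk_eq_zero]
    exact hx
  induction N with
  | zero =>
    intro x hx
    rwa [pow_zero, one_smul] at hx
  | succ N ih =>
    intro x hx
    apply ih
    apply h3
    rw [smul_smul, ← pow_succ']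
    exact hx

theorem ASD {n c d i : ℕ} (hn : n = c + d) (u : ℕ → A) (hu : WReg u d A)
    (φ : ℕ → (Fin n → A)) (hφ : ∀ b < d, ∀ l < c, ∃ N, u b ^ N ∈ Hl φ l)
    (hi : i < d) (h1 : 2 * i ≠ d) (h2 : 2 * i ≠ d + 1) (x : ⋀[A]^i (Fin n → A)) (N : ℕ)
    (hx : ∀ b < d, u b ^ N • x ∈ Pl φ (Iz u i) c i) :
    ZZ u i (Pl φ ⊥ c i) x := by
  rcases lt_or_ge (2 * i) d with h | h
  · obtain ⟨e, rfl⟩ : ∃ e, d = i + e := ⟨d - i, by omega⟩
    have h3 : x ∈ Pl φ (Iz u i) c i :=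
      INA_zero φ (Iz u i) (WReg_shift_ring u i e hu)
        (fun b hb l hl => hφ (i + b) (by omega) l hl) i (by omega) x N
        (fun b hb => hx (i + b) (by omega))
    rw [Pl_sup] at h3
    exact ASD_zz _ _ h3
  · have hi2 : d + 2 ≤ 2 * i := by omega
    obtain ⟨q, rfl⟩ : ∃ q, i = q + 1 := ⟨i - 1, by omega⟩
    have claim : ∀ l ≤ c, ∀ p, p + l = q + 1 + c → ∀ (x : ⋀[A]^p (Fin n → A)) (N : ℕ),
        u (q + 1) ^ N • x ∈ Pl φ (Iz u (q + 1)) l p → ZZ u (q + 1) (Pl φ ⊥ l p) x := by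
      intro l
      induction l with
      | zero =>
        intro _ p _ x N hx
        rw [Pl_zero] at hx
        exact ASD_zz _ _ (Submodule.mem_sup_left (ASD_base hu hi N x hx))
      | succ l ih =>
        intro hl p hp x N hx
        have h4 : ZZ u (q + 1) (Pl φ ⊥ l (p + 1)) (wedge (φ l) p x) := by
          refine ih (by omega) (p + 1) (by omega) _ N ?_
          rw [← map_smul]
          exact wedge_Pl φ (Iz u (q + 1)) l p hx
        refine SQB_top (wedge (φ l) p) _ (Pl φ ⊥ l (p + 1))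
          (CON_unif φ ⊥ l p fun b hb => hφ b (by omega) l (by omega)) x h4 ?_
        rw [← Pl_succ]
        exact INB φ (hu.mono hi.le) (fun b hb l hl => hφ b (by omega) l hl) (l + 1) hl (p + 1) q
          (by omega) (by omega) (by omega)
    exact claim c le_rfl (q + 1) rfl x N (hx (q + 1) hi)

end NCG
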