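import Pool.Agent.NCG.Defs

/-!
# HMB: basic properties of the homology `Hm δ` and of `htr`

`Pres_of_comm`, `Pres_of_anticomm`: immediate.
`hmap_comp`, `hmap_add`, ...: check on classes `Submodule.Quotient.mk x`.
`htr_congr`: `e` induces an isomorphism `Hm δ ≃ Hm δ'` which intertwines `hmap δ G` and
`hmap δ' G'`; use `LinearMap.trace_conj'`.  (If `Pres δ G` fails then `Pres δ' G'` fails.)
-/

open scoped BigOperators

namespace NCG

section

variable {k : Type*} {V V' : Type*} [CommRing k] [AddCommGroup V] [Module k V]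
  [AddCommGroup V'] [Module k V']

theorem Pres_of_comm {δ G : V →ₗ[k] V} (h : G ∘ₗ δ = δ ∘ₗ G) : Pres δ G := by
  have hc : ∀ x, G (δ x) = δ (G x) := fun x => LinearMap.congr_fun h x
  refine ⟨fun x hx => ?_, fun x hx => ?_⟩
  · rw [LinearMap.mem_ker] at hx ⊢
    rw [← hc, hx, map_zero]
  · obtain ⟨y, rfl⟩ := hx
    exact ⟨G y, (hc y).symm⟩

theorem Pres_of_anticomm {δ G : V →ₗ[k] V} (h : G ∘ₗ δ = -(δ ∘ₗ G)) : Pres δ G := by
  have hc : ∀ x, G (δ x) = -δ (G x) := fun x => LinearMap.congr_fun h x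
  refine ⟨fun x hx => ?_, fun x hx => ?_⟩
  · rw [LinearMap.mem_ker] at hx ⊢
    rw [← neg_eq_zero, ← hc, hx, map_zero]
  · obtain ⟨y, rfl⟩ := hx
    exact ⟨-G y, by rw [map_neg, hc y]⟩

theorem Pres.comp {δ G G' : V →ₗ[k] V} (h : Pres δ G) (h' : Pres δ G') :
    Pres δ (G ∘ₗ G') := by
  exact ⟨fun x hx => h.1 _ (h'.1 x hx), fun x hx => h.2 _ (h'.2 x hx)⟩

theorem Pres.add {δ G G' : V →ₗ[k] V} (h : Pres δ G) (h' : Pres δ G') :
    Pres δ (G + G') := by
  exact ⟨fun x hx => Submodule.add_mem _ (h.1 x hx) (h'.1 x hx),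
    fun x hx => Submodule.add_mem _ (h.2 x hx) (h'.2 x hx)⟩

theorem Pres.smul {δ G : V →ₗ[k] V} (c : k) (h : Pres δ G) : Pres δ (c • G) := by
  exact ⟨fun x hx => Submodule.smul_mem _ c (h.1 x hx),
    fun x hx => Submodule.smul_mem _ c (h.2 x hx)⟩

theorem Pres_id (δ : V →ₗ[k] V) : Pres δ LinearMap.id := by
  exact ⟨fun x hx => hx, fun x hx => hx⟩

theorem htr_eq {δ G : V →ₗ[k] V} (h : Pres δ G) :
    htr δ G = LinearMap.trace k (Hm δ) (hmap δ G h) := by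
  exact dif_pos h

theorem hmap_mk {δ G : V →ₗ[k] V} (h : Pres δ G) (x : LinearMap.ker δ) :
    hmap δ G h (Submodule.Quotient.mk x) = Submodule.Quotient.mk ⟨G x.1, h.1 x.1 x.2⟩ := by
  rfl

theorem Hm_mk_eq_zero {δ : V →ₗ[k] V} (x : LinearMap.ker δ) :
    (Submodule.Quotient.mk x : Hm δ) = 0 ↔ ∃ y, δ y = x.1 := by
  rw [Submodule.Quotient.mk_eq_zero]
  rfl

theorem hmap_comp {δ G G' : V →ₗ[k] V} (h : Pres δ G) (h' : Pres δ G') :
    hmap δ (G ∘ₗ G') (h.comp h') = hmap δ G h ∘ₗ hmap δ G' h' := by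
  refine LinearMap.ext fun z => ?_
  obtain ⟨x, rfl⟩ := Submodule.Quotient.mk_surjective _ z
  rfl

theorem hmap_add {δ G G' : V →ₗ[k] V} (h : Pres δ G) (h' : Pres δ G') :
    hmap δ (G + G') (h.add h') = hmap δ G h + hmap δ G' h' := by
  refine LinearMap.ext fun z => ?_
  obtain ⟨x, rfl⟩ := Submodule.Quotient.mk_surjective _ z
  rfl

theorem hmap_smul {δ G : V →ₗ[k] V} (c : k) (h : Pres δ G) :
    hmap δ (c • G) (h.smul c) = c • hmap δ G h := by
  refine LinearMap.ext fun z => ?_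
  obtain ⟨x, rfl⟩ := Submodule.Quotient.mk_surjective _ z
  rfl

theorem hmap_id (δ : V →ₗ[k] V) : hmap δ LinearMap.id (Pres_id δ) = LinearMap.id := by
  refine LinearMap.ext fun z => ?_
  obtain ⟨x, rfl⟩ := Submodule.Quotient.mk_surjective _ z
  rfl

/-- two operators which agree on cycles up to boundaries induce the same map -/
theorem hmap_eq_of {δ G G' : V →ₗ[k] V} (h : Pres δ G) (h' : Pres δ G')
    (hG : ∀ x, δ x = 0 → ∃ y, δ y = G x - G' x) : hmap δ G h = hmap δ G' h' := by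
  refine LinearMap.ext fun z => ?_
  obtain ⟨x, rfl⟩ := Submodule.Quotient.mk_surjective _ z
  rw [hmap_mk, hmap_mk, Submodule.Quotient.eq]
  exact hG x.1 x.2

private theorem HMB_ker (e : V ≃ₗ[k] V') {δ : V →ₗ[k] V} {δ' : V' →ₗ[k] V'}
    (hδ : ∀ x, e (δ x) = δ' (e x)) : (LinearMap.ker δ).map (e : V →ₗ[k] V') = LinearMap.ker δ' := by
  ext y
  rw [Submodule.mem_map]
  constructor
  · rintro ⟨x, hx, rfl⟩
    rw [LinearMap.mem_ker] at hx ⊢
    show δ' (e x) = 0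
    rw [← hδ, hx, map_zero]
  · intro hy
    rw [LinearMap.mem_ker] at hy
    refine ⟨e.symm y, ?_, e.apply_symm_apply y⟩
    rw [LinearMap.mem_ker]
    apply e.injective
    rw [hδ, e.apply_symm_apply, hy, map_zero]

/-- the isomorphism of the kernels -/
private def HMB_e (e : V ≃ₗ[k] V') {δ : V →ₗ[k] V} {δ' : V' →ₗ[k] V'}
    (hδ : ∀ x, e (δ x) = δ' (e x)) : LinearMap.ker δ ≃ₗ[k] LinearMap.ker δ' :=
  e.ofSubmodules _ _ (HMB_ker e hδ)

private theorem HMB_map (e : V ≃ₗ[k] V') {δ : V →ₗ[k] V} {δ' : V' →ₗ[k] V'}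
    (hδ : ∀ x, e (δ x) = δ' (e x)) :
    ((LinearMap.range δ).comap (LinearMap.ker δ).subtype).map
      (HMB_e e hδ : LinearMap.ker δ →ₗ[k] LinearMap.ker δ') =
      (LinearMap.range δ').comap (LinearMap.ker δ').subtype := by
  ext y
  rw [Submodule.mem_map]
  constructor
  · rintro ⟨x, ⟨z, hz⟩, rfl⟩
    refine ⟨e z, ?_⟩
    rw [← hδ, hz]
    rfl
  · rintro ⟨z, hz⟩
    refine ⟨(HMB_e e hδ).symm y, ⟨e.symm z, ?_⟩, (HMB_e e hδ).apply_symm_apply y⟩
    apply e.injective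
    rw [hδ, e.apply_symm_apply, hz]
    exact (e.apply_symm_apply y.1).symm

/-- the isomorphism of homologies -/
private def HMB_E (e : V ≃ₗ[k] V') {δ : V →ₗ[k] V} {δ' : V' →ₗ[k] V'}
    (hδ : ∀ x, e (δ x) = δ' (e x)) : Hm δ ≃ₗ[k] Hm δ' :=
  Submodule.Quotient.equiv _ _ (HMB_e e hδ) (HMB_map e hδ)

/-- the isomorphism of homologies induced by an isomorphism of complexes -/
theorem Hm_equiv (e : V ≃ₗ[k] V') {δ : V →ₗ[k] V} {δ' : V' →ₗ[k] V'}
    (hδ : ∀ x, e (δ x) = δ' (e x)) : Nonempty (Hm δ ≃ₗ[k] Hm δ') := by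
  exact ⟨HMB_E e hδ⟩

private theorem HMB_pres (e : V ≃ₗ[k] V') {δ G : V →ₗ[k] V} {δ' G' : V' →ₗ[k] V'}
    (hδ : ∀ x, e (δ x) = δ' (e x)) (hG : ∀ x, e (G x) = G' (e x)) (h : Pres δ G) :
    Pres δ' G' := by
  refine ⟨fun y hy => ?_, fun y hy => ?_⟩
  · rw [LinearMap.mem_ker] at hy ⊢
    have h1 : e.symm y ∈ LinearMap.ker δ := by
      rw [LinearMap.mem_ker]
      apply e.injective
      rw [hδ, e.apply_symm_apply, hy, map_zero]
    have h2 := h.1 _ h1
    rw [LinearMap.mem_ker] at h2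
    rw [← e.apply_symm_apply y, ← hG, ← hδ, h2, map_zero]
  · obtain ⟨z, rfl⟩ := hy
    obtain ⟨w, hw⟩ := h.2 (δ (e.symm z)) ⟨_, rfl⟩
    refine ⟨e w, ?_⟩
    rw [← hδ, hw, hG, hδ, e.apply_symm_apply]

theorem htr_congr (e : V ≃ₗ[k] V') {δ G : V →ₗ[k] V} {δ' G' : V' →ₗ[k] V'}
    (hδ : ∀ x, e (δ x) = δ' (e x)) (hG : ∀ x, e (G x) = G' (e x)) : htr δ G = htr δ' G' := by
  by_cases h : Pres δ G
  · have h' : Pres δ' G' := HMB_pres e hδ hG h
    rw [htr_eq h, htr_eq h', ← LinearMap.trace_conj' (hmap δ G h) (HMB_E e hδ)]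
    congr 1
    refine LinearMap.ext fun z => ?_
    obtain ⟨w, rfl⟩ := (HMB_E e hδ).surjective z
    obtain ⟨x, rfl⟩ := Submodule.Quotient.mk_surjective _ w
    rw [LinearEquiv.conj_apply_apply, LinearEquiv.symm_apply_apply]
    show Submodule.Quotient.mk (⟨e (G x.1), _⟩ : LinearMap.ker δ') =
      Submodule.Quotient.mk (⟨G' (e x.1), _⟩ : LinearMap.ker δ')
    congr 2
    exact hG x.1
  · have h' : ¬ Pres δ' G' := fun h' => h (HMB_pres e.symm
      (fun y => by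
        apply e.injective
        rw [e.apply_symm_apply, hδ, e.apply_symm_apply])
      (fun y => by
        apply e.injective
        rw [e.apply_symm_apply, hG, e.apply_symm_apply]) h')
    unfold htr
    rw [dif_neg h, dif_neg h']

end

end NCG
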