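import Pool.Agent.NCG.Defs

/-!
# MVB: basic properties of the action `mv` of matrices on vectors with entries in a module

All statements are immediate computations with finite sums.

`trace_mv`: for a matrix `X` over `Module.End k N` (`N` finite-dimensional over the field `k`),
the trace of `mv k X` on `J → N` is the sum of the traces of the diagonal entries.  Proof: choose a
basis of `N` and the product basis `Pi.basis` of `J → N` and compute
(`LinearMap.trace_eq_matrix_trace`), or write `mv k X = ∑_{a,b} (single a) ∘ X a b ∘ (proj b)` and
use `LinearMap.trace_comp_comm'` : `trace (single a ∘ X a b ∘ proj b) = trace (X a b ∘ proj b ∘ single a)`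
which is `trace (X a a)` if `a = b` and `0` otherwise.
-/

open scoped BigOperators

namespace NCG

universe u v w

section general

variable (k : Type*) {R M M' J : Type*} [CommRing k] [Ring R] [AddCommGroup M]
  [Module k M] [Module R M] [SMulCommClass R k M] [AddCommGroup M']
  [Module k M'] [Module R M'] [SMulCommClass R k M'] [Fintype J]

theorem mv_add (X Y : Matrix J J R) : mv k (M := M) (X + Y) = mv k X + mv k Y := by
  refine LinearMap.ext fun x => funext fun a => ?_
  simp only [mv_apply, Matrix.add_apply, add_smul, Finset.sum_add_distrib, LinearMap.add_apply,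
    Pi.add_apply]

theorem mv_sub (X Y : Matrix J J R) : mv k (M := M) (X - Y) = mv k X - mv k Y := by
  refine LinearMap.ext fun x => funext fun a => ?_
  simp only [mv_apply, Matrix.sub_apply, sub_smul, Finset.sum_sub_distrib, LinearMap.sub_apply,
    Pi.sub_apply]

theorem mv_neg (X : Matrix J J R) : mv k (M := M) (-X) = - mv k X := by
  refine LinearMap.ext fun x => funext fun a => ?_
  simp only [mv_apply, Matrix.neg_apply, neg_smul, Finset.sum_neg_distrib, LinearMap.neg_apply,
    Pi.neg_apply]

theorem mv_zero : mv k (M := M) (0 : Matrix J J R) = 0 := by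
  refine LinearMap.ext fun x => funext fun a => ?_
  simp only [mv_apply, Matrix.zero_apply, zero_smul, Finset.sum_const_zero, LinearMap.zero_apply,
    Pi.zero_apply]

theorem mv_sum {κ : Type*} (s : Finset κ) (X : κ → Matrix J J R) :
    mv k (M := M) (∑ i ∈ s, X i) = ∑ i ∈ s, mv k (X i) := by
  refine LinearMap.ext fun x => funext fun a => ?_
  simp only [mv_apply, Matrix.sum_apply, Finset.sum_smul, LinearMap.sum_apply, Finset.sum_apply]
  exact Finset.sum_comm

theorem mv_mul (X Y : Matrix J J R) : mv k (M := M) (X * Y) = mv k X ∘ₗ mv k Y := by
  refine LinearMap.ext fun x => funext fun a => ?_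
  simp only [mv_apply, Matrix.mul_apply, Finset.sum_smul, mul_smul, LinearMap.comp_apply,
    Finset.smul_sum]
  exact Finset.sum_comm

theorem mv_one [DecidableEq J] : mv k (M := M) (1 : Matrix J J R) = LinearMap.id := by
  refine LinearMap.ext fun x => funext fun a => ?_
  simp only [mv_apply, Matrix.one_apply, ite_smul, one_smul, zero_smul, Finset.sum_ite_eq,
    Finset.mem_univ, if_true, LinearMap.id_apply]

/-- naturality in the module of coefficients -/
theorem mv_map (X : Matrix J J R) (f : M →ₗ[R] M') (x : J → M) :
    mv k X (fun b => f (x b)) = fun a => f (mv k X x a) := by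
  funext a
  simp only [mv_apply, map_sum, map_smul]

end general

section comm

variable (k : Type*) {A N J : Type*} [Field k] [CommRing A] [Algebra k A] [AddCommGroup N]
  [Module k N] [Module A N] [IsScalarTower k A N] [Fintype J] [DecidableEq J]

theorem mv_smul_one (z : A) (x : J → N) : mv k (z • (1 : Matrix J J A)) x = z • x := by
  funext a
  simp only [mv_apply, Matrix.smul_apply, Matrix.one_apply, smul_eq_mul, mul_ite, mul_one, mul_zero,
    ite_smul, zero_smul, Finset.sum_ite_eq, Finset.mem_univ, if_true, Pi.smul_apply]

theorem mv_smul_apply (X : Matrix J J A) (z : A) (x : J → N) :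
    mv k X (z • x) = z • mv k X x := by
  have _ := ‹DecidableEq J›
  funext a
  simp only [mv_apply, Pi.smul_apply, Finset.smul_sum]
  exact Finset.sum_congr rfl fun b _ => smul_comm _ _ _

/-- a matrix over `A` acts through its image in the matrices over `Module.End k N` -/
theorem mv_rho (X : Matrix J J A) :
    mv k (M := N) (X.map (Algebra.lsmul k k N)) = mv k (M := N) X := by
  have _ := ‹DecidableEq J›
  refine LinearMap.ext fun x => funext fun a => ?_
  simp only [mv_apply, Matrix.map_apply]
  rfl

theorem trace_mv [Module.Finite k N] (X : Matrix J J (Module.End k N)) :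
    LinearMap.trace k (J → N) (mv k X) = ∑ a, LinearMap.trace k N (X a a) := by
  have h1 : mv k (M := N) X = ∑ a, ∑ b,
      (LinearMap.single k (fun _ : J => N) a) ∘ₗ (X a b ∘ₗ (LinearMap.proj b)) := by
    refine LinearMap.ext fun x => funext fun c => ?_
    simp only [mv_apply, LinearMap.sum_apply, Finset.sum_apply, LinearMap.comp_apply,
      LinearMap.proj_apply, LinearMap.single_apply]
    symm
    refine (Finset.sum_eq_single c ?_ ?_).trans ?_
    · intro b _ hb
      simp only [Pi.single_eq_of_ne hb.symm, Finset.sum_const_zero]
    · intro h
      exact absurd (Finset.mem_univ c) h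
    · simp only [Pi.single_eq_same]
      rfl
  rw [h1, map_sum]
  refine Finset.sum_congr rfl fun a _ => ?_
  rw [map_sum, Finset.sum_eq_single a]
  · rw [LinearMap.trace_comp_comm', LinearMap.comp_assoc, LinearMap.proj_comp_single_same,
      LinearMap.comp_id]
  · intro b _ hb
    rw [LinearMap.trace_comp_comm', LinearMap.comp_assoc, LinearMap.proj_comp_single_ne _ _ _ _ hb,
      LinearMap.comp_zero, map_zero]
  · intro h
    exact absurd (Finset.mem_univ a) h

end comm

end NCG
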