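import Pool.Agent.NCG.THD
import Pool.Agent.NCG.MVB
import Pool.Agent.NCG.HMB

/-!
# BOC: the Bockstein operators

`T : ThD k A N z i`, `N̄ = N ⧸ Iz z i N`, `Δ` a matrix over `A` with `Δ² = 0`.  On `J → N̄` we have the
differential `δ = mv k Δ` and the operators `Θ a = mv k (Δ.map (T.th a))`.

`BOC_rho`: `th a (X * Y) = th a X * ρ(Y) + ρ(X) * th a Y` for matrices (`ThD.th_mul` entrywise), where
`ρ = Algebra.lsmul k k N̄`, and `mv k (ρ X) = mv k X` (`mv_rho`).

`BOC_anti`: apply this to `Δ * Δ = 0`: `Θ a ∘ δ + δ ∘ Θ a = 0`.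

`BOC_S`: apply it to `Δ S + S Δ = z b • 1` and `ThD.th_z`.

`BOC_key`: if `x : J → N` and `mv k Δ x = ∑_{b < i} z b • y b` (in `J → N`), then
`Θ a (mk x) - mk (y a) = - δ (dl a x)`: indeed componentwise
`mk (y a) = dl a (mv k Δ x) = ∑_c dl a (Δ c' c • x c) = ∑_c (th a (Δ c' c) (mk (x c)) + Δ c' c • dl a (x c))`.

`BOC_zero`: in particular if `mv k Δ x = 0` then `Θ a (mk x) = - δ (dl a x)` is a boundary (take `y = 0`).

`BOC_BB`: for a cycle `x̄ = mk x` of `J → N̄`: `mv k Δ x = ∑_b z b • y b` for some `y b : J → N`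
(every component of `mv k Δ x` is in `Iz z i • ⊤`, `mem_Iz_top`).  Since
`∑_b z b • mv k Δ (y b) = mv k Δ (mv k Δ x) = 0`, `QR1` gives that all components of `mv k Δ (y b)` are
in `Iz z i • ⊤`, so `mv k Δ (y b) = ∑_c z c • y' b c`; then `∑_b ∑_c (z b z c) • y' b c = 0`, so
`mk (y' b c) + mk (y' c b) = 0` by `QR2`.  By `BOC_key`, `Θ b x̄ = mk (y b) - δ(..)` and
`Θ c (mk (y b)) = mk (y' b c) - δ (..)`, and `Θ c (δ u) = - δ (Θ c u)`.  So
`Θ c (Θ b x̄) + Θ b (Θ c x̄) ∈ mk (y' b c) + mk (y' c b) + range δ = range δ`.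
-/

open scoped BigOperators

namespace NCG

universe u v w

variable {k : Type w} {A : Type u} [Field k] [CommRing A] [Algebra k A]
  {N : Type v} [AddCommGroup N] [Module k N] [Module A N] [IsScalarTower k A N]
  {z : ℕ → A} {i : ℕ} (T : ThD k A N z i) {J : Type} [Fintype J] [DecidableEq J]

theorem BOC_mul (a : Fin i) (X Y : Matrix J J A) :
    (X * Y).map (T.th a) = X.map (T.th a) * Y.map (Algebra.lsmul k k (Nb A N z i)) +
      X.map (Algebra.lsmul k k (Nb A N z i)) * Y.map (T.th a) := by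
  ext1 p q
  simp only [Matrix.map_apply, Matrix.mul_apply, Matrix.add_apply, map_sum, T.th_mul,
    Finset.sum_add_distrib]

private theorem BOC_map_add (a : Fin i) (X Y : Matrix J J A) :
    (X + Y).map (T.th a) = X.map (T.th a) + Y.map (T.th a) := by
  ext1 p q
  simp only [Matrix.map_apply, Matrix.add_apply, map_add]

private theorem BOC_mv_mul (a : Fin i) (X Y : Matrix J J A) :
    mv k (M := Nb A N z i) ((X * Y).map (T.th a)) =
      mv k (M := Nb A N z i) (X.map (T.th a)) ∘ₗ mv k (M := Nb A N z i) Y +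
        mv k (M := Nb A N z i) X ∘ₗ mv k (M := Nb A N z i) (Y.map (T.th a)) := by
  rw [BOC_mul, mv_add, mv_mul, mv_mul, mv_rho, mv_rho]

theorem BOC_anti (Δ : Matrix J J A) (hΔ : Δ * Δ = 0) (a : Fin i) :
    mv k (M := Nb A N z i) (Δ.map (T.th a)) ∘ₗ mv k (M := Nb A N z i) Δ =
      -(mv k (M := Nb A N z i) Δ ∘ₗ mv k (M := Nb A N z i) (Δ.map (T.th a))) := by
  have h := BOC_mv_mul T a Δ Δ
  rw [hΔ] at h
  have h0 : (0 : Matrix J J A).map (T.th a) = 0 := by
    ext1 p q
    simp only [Matrix.map_apply, Matrix.zero_apply, map_zero]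
  rw [h0, mv_zero] at h
  exact eq_neg_of_add_eq_zero_left h.symm

theorem BOC_S (Δ S : Matrix J J A) (a b : Fin i)
    (hS : Δ * S + S * Δ = z b • (1 : Matrix J J A)) :
    mv k (M := Nb A N z i) (Δ.map (T.th a)) ∘ₗ mv k (M := Nb A N z i) S +
      mv k (M := Nb A N z i) S ∘ₗ mv k (M := Nb A N z i) (Δ.map (T.th a)) =
    (if a = b then LinearMap.id else 0) -
      (mv k (M := Nb A N z i) Δ ∘ₗ mv k (M := Nb A N z i) (S.map (T.th a)) +
       mv k (M := Nb A N z i) (S.map (T.th a)) ∘ₗ mv k (M := Nb A N z i) Δ) := by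
  have h1 := BOC_mv_mul T a Δ S
  have h2 := BOC_mv_mul T a S Δ
  have h3 : mv k (M := Nb A N z i) ((Δ * S + S * Δ).map (T.th a)) =
      mv k (M := Nb A N z i) ((Δ * S).map (T.th a)) +
        mv k (M := Nb A N z i) ((S * Δ).map (T.th a)) := by
    rw [BOC_map_add, mv_add]
  have h4 : mv k (M := Nb A N z i) ((z b • (1 : Matrix J J A)).map (T.th a)) =
      (if a = b then LinearMap.id else 0) := by
    have h5 : (z b • (1 : Matrix J J A)).map (T.th a) =
        if a = b then (1 : Matrix J J (Module.End k (Nb A N z i))) else 0 := by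
      ext1 p q
      by_cases hpq : p = q
      · subst hpq
        simp only [Matrix.map_apply, Matrix.smul_apply, Matrix.one_apply_eq, smul_eq_mul, mul_one,
          T.th_z]
        split_ifs <;> simp
      · simp only [Matrix.map_apply, Matrix.smul_apply, Matrix.one_apply_ne hpq, smul_eq_mul,
          mul_zero, map_zero]
        split_ifs <;> simp [hpq]
    rw [h5]
    split_ifs
    · exact mv_one k
    · exact mv_zero k
  rw [hS, h4, h1, h2] at h3
  rw [h3]
  abel

theorem BOC_key (Δ : Matrix J J A) (a : Fin i) (x : J → N) (y : ℕ → J → N)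
    (hy : mv k Δ x = ∑ b ∈ Finset.range i, z b • y b) :
    mv k (M := Nb A N z i) (Δ.map (T.th a)) (fun c => Submodule.Quotient.mk (x c)) =
      (fun c => Submodule.Quotient.mk (y a c)) -
        mv k (M := Nb A N z i) Δ (fun c => T.dl a (x c)) := by
  funext c
  rw [Pi.sub_apply, eq_sub_iff_add_eq]
  have h1 : mv k Δ x c = ∑ b ∈ Finset.range i, z b • y b c := by
    rw [hy]
    simp [Finset.sum_apply]
  rw [← T.dl_spec a (fun b => y b c), ← h1]
  simp only [mv_apply, map_sum, Matrix.map_apply]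
  rw [← Finset.sum_add_distrib]
  refine Finset.sum_congr rfl fun b _ => ?_
  rw [Module.End.smul_def, T.th_spec]
  abel

theorem BOC_zero (Δ : Matrix J J A) (a : Fin i) (x : J → N) (hx : mv k Δ x = 0) :
    ∃ y : J → Nb A N z i, mv k (M := Nb A N z i) Δ y =
      mv k (M := Nb A N z i) (Δ.map (T.th a)) (fun c => Submodule.Quotient.mk (x c)) := by
  refine ⟨-(fun c => T.dl a (x c)), ?_⟩
  rw [BOC_key T Δ a x (fun _ => 0) (by simp [hx]), map_neg]
  have : (fun c : J => (Submodule.Quotient.mk ((0 : J → N) c) : Nb A N z i)) = 0 := by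
    funext c
    rfl
  rw [this, zero_sub]

private theorem BOC_lift (x : J → Nb A N z i) :
    ∃ x' : J → N, x = fun c => Submodule.Quotient.mk (x' c) := by
  choose x' hx' using fun c => Submodule.Quotient.mk_surjective _ (x c)
  exact ⟨x', funext fun c => (hx' c).symm⟩

private theorem BOC_comp (x : J → N) (h : ∀ c, x c ∈ Iz z i • (⊤ : Submodule A N)) :
    ∃ y : ℕ → J → N, x = ∑ b ∈ Finset.range i, z b • y b := by
  choose e he using fun c => (mem_Iz_top z i (x c)).1 (h c)
  refine ⟨fun b c => e c b, ?_⟩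
  funext c
  rw [he c]
  simp [Finset.sum_apply]

private theorem BOC_mk_mv (Δ : Matrix J J A) (x : J → N) :
    mv k (M := Nb A N z i) Δ (fun c => Submodule.Quotient.mk (x c)) =
      fun c => Submodule.Quotient.mk (mv k Δ x c) := by
  funext c
  simp only [mv_apply]
  have := map_sum (Submodule.mkQ (Iz z i • (⊤ : Submodule A N))) (fun b => Δ c b • x b)
    Finset.univ
  simp only [Submodule.mkQ_apply] at this
  rw [this]
  rfl

theorem BOC_BB (hz : WReg z i N) (Δ : Matrix J J A) (hΔ : Δ * Δ = 0) (a b : Fin i)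
    (x : J → Nb A N z i) (hx : mv k (M := Nb A N z i) Δ x = 0) :
    ∃ y : J → Nb A N z i, mv k (M := Nb A N z i) Δ y =
      mv k (M := Nb A N z i) (Δ.map (T.th a))
        (mv k (M := Nb A N z i) (Δ.map (T.th b)) x) +
      mv k (M := Nb A N z i) (Δ.map (T.th b))
        (mv k (M := Nb A N z i) (Δ.map (T.th a)) x) := by
  obtain ⟨x', rfl⟩ := BOC_lift x
  have h1 : ∀ c, mv k Δ x' c ∈ Iz z i • (⊤ : Submodule A N) := by
    intro c
    rw [BOC_mk_mv] at hx
    exact (Submodule.Quotient.mk_eq_zero _).1 (congrFun hx c)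
  obtain ⟨y, hy⟩ := BOC_comp (mv k Δ x') h1
  have h2 : ∑ b ∈ Finset.range i, z b • mv k Δ (y b) = 0 := by
    have h3 : mv k Δ (mv k Δ x') = 0 := by
      have := LinearMap.congr_fun (mv_mul k (M := N) Δ Δ) x'
      rw [hΔ, mv_zero] at this
      exact this.symm
    rw [hy, map_sum] at h3
    rw [← h3]
    exact Finset.sum_congr rfl fun b _ => (mv_smul_apply k Δ (z b) (y b)).symm
  have h3 : ∀ b < i, ∀ c, mv k Δ (y b) c ∈ Iz z i • (⊤ : Submodule A N) := by
    intro b hb c
    refine QR1 hz (fun b => mv k Δ (y b) c) ?_ b hb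
    have := congrFun h2 c
    simpa [Finset.sum_apply] using this
  have h4 : ∀ b : ℕ, ∃ y' : ℕ → J → N, b < i →
      mv k Δ (y b) = ∑ c ∈ Finset.range i, z c • y' c := by
    intro b
    by_cases hb : b < i
    · obtain ⟨y', hy'⟩ := BOC_comp (mv k Δ (y b)) (h3 b hb)
      exact ⟨y', fun _ => hy'⟩
    · exact ⟨fun _ => 0, fun h => absurd h hb⟩
  choose y' hy' using h4
  have h5 : ∀ c : J, ∀ p < i, ∀ q < i, y' p q c + y' q p c ∈ Iz z i • (⊤ : Submodule A N) := by
    intro c
    refine QR2 hz (fun p q => y' p q c) ?_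
    have := congrFun h2 c
    rw [Finset.sum_apply, Pi.zero_apply] at this
    rw [← this]
    refine Finset.sum_congr rfl fun p hp => ?_
    rw [hy' p (Finset.mem_range.1 hp)]
    simp only [Pi.smul_apply, Finset.sum_apply, Finset.smul_sum, mul_smul]
  -- first operator
  have key := fun (p : Fin i) => BOC_key T Δ p x' y hy
  have key2 := fun (p q : Fin i) => BOC_key T Δ q (y p) (y' p) (hy' p p.2)
  have anti : ∀ (p : Fin i) (u : J → Nb A N z i),
      mv k (M := Nb A N z i) (Δ.map (T.th p)) (mv k (M := Nb A N z i) Δ u) =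
        - mv k (M := Nb A N z i) Δ (mv k (M := Nb A N z i) (Δ.map (T.th p)) u) := by
    intro p u
    exact LinearMap.congr_fun (BOC_anti T Δ hΔ p) u
  rw [key a, key b, map_sub, map_sub, key2 b a, key2 a b, anti, anti]
  have h6 : (fun c => (Submodule.Quotient.mk (y' b a c) : Nb A N z i)) =
      -(fun c => (Submodule.Quotient.mk (y' a b c) : Nb A N z i)) := by
    funext c
    rw [Pi.neg_apply, eq_neg_iff_add_eq_zero, ← Submodule.Quotient.mk_add,
      Submodule.Quotient.mk_eq_zero]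
    exact h5 c b b.2 a a.2
  rw [h6]
  refine ⟨- (fun c => T.dl a (y b c)) + mv k (M := Nb A N z i) (Δ.map (T.th a))
      (fun c => T.dl b (x' c)) + (- (fun c => T.dl b (y a c)) +
      mv k (M := Nb A N z i) (Δ.map (T.th b)) (fun c => T.dl a (x' c))), ?_⟩
  simp only [map_add, map_neg]
  abel

end NCG
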