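import Pool.Agent.NCG.REG

/-!
# CIA: depth, dimension and residue field of a complete intersection

`Q` Noetherian local of dimension `n` with a regular sequence of length `n` in its maximal ideal,
`f : Fin c → Q` a regular sequence, `A = Q ⧸ (f)`.

`CIA_local`: `A` is local: it is nontrivial (`hf`) and a quotient of a local ring
(`IsLocalRing.of_surjective'`).
`CIA`: `n = c + d`, `dim A = d` and `A` has a regular sequence of length `d` in its maximal ideal.
Proof.  `dim A + c = dim Q = n` by `ringKrullDim_add_length_eq_ringKrullDim_of_isRegular`, so `dim A = d` with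
`n = c + d`.  Apply `REG_quot` `c` times to the modules `Q ⧸ (f_0, ..., f_{j-1})` and the regular elements
`f_j` (isomorphism `Q ⧸ (f_0, ..., f_j) ≃ QuotSMulTop f_j (Q ⧸ (f_0, ..., f_{j-1}))`,
`Submodule.quotOfListConsSMulTopEquivQuotSMulTopOuter` or `...Inner` with induction on the list): there is a
sequence `rs` of length `n - c = d` in the maximal ideal of `Q` which is regular on the `Q`-module `A`; its
image in `A` is a regular sequence of the ring `A` (`isWeaklyRegular_map_algebraMap_iff`).
(General lemma by induction on a list `fs`, for all modules `C`: if `C` has a regular sequence of length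
`n` and `fs` is `C`-regular of length `c`, then `c ≤ n` and `C ⧸ (fs) C` has a regular sequence of length
`n - c`.)

`CIA_res`: the residue field of `A` is the residue field of `Q`
(`IsLocalRing.ResidueField.map` of a surjection is bijective).
`CIA_max`: the maximal ideal of `A` is the image of the maximal ideal of `Q`.
-/

open scoped BigOperators

namespace NCG

universe u

open IsLocalRing RingTheory.Sequence

variable {Q : Type u} [CommRing Q] [IsLocalRing Q]

omit [IsLocalRing Q] in
private theorem CIA_ofList {c : ℕ} (f : Fin c → Q) :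
    Ideal.ofList (List.ofFn f) = Ideal.span (Set.range f) := by
  unfold Ideal.ofList
  congr 1
  ext x
  simp [List.mem_ofFn]

omit [IsLocalRing Q] in
private theorem CIA_ne_top {c : ℕ} (f : Fin c → Q) (hf : IsRegular Q (List.ofFn f)) :
    Ideal.span (Set.range f) ≠ ⊤ := by
  intro h
  apply hf.top_ne_smul
  rw [CIA_ofList, h]
  simp

theorem CIA_local {c : ℕ} (f : Fin c → Q) (hf : IsRegular Q (List.ofFn f)) :
    IsLocalRing (Q ⧸ Ideal.span (Set.range f)) := by
  have : Nontrivial (Q ⧸ Ideal.span (Set.range f)) :=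
    Ideal.Quotient.nontrivial_iff.2 (CIA_ne_top f hf)
  exact IsLocalRing.of_surjective' (Ideal.Quotient.mk _) Ideal.Quotient.mk_surjective

/-- the general lemma by induction on the list -/
private theorem CIA_list [IsNoetherianRing Q] (fs : List Q) :
    ∀ (C : Type u) [AddCommGroup C] [Module Q C] [Module.Finite Q C] (rs : List Q),
      (∀ r ∈ rs, r ∈ maximalIdeal Q) → IsRegular C rs →
      (∀ r ∈ fs, r ∈ maximalIdeal Q) → IsWeaklyRegular C fs → fs.length ≤ rs.length →
      ∃ rs' : List Q, rs'.length + fs.length = rs.length ∧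
        (∀ r ∈ rs', r ∈ maximalIdeal Q) ∧
        IsRegular (C ⧸ (Ideal.ofList fs • ⊤ : Submodule Q C)) rs' := by
  induction fs with
  | nil =>
    intro C _ _ _ rs hrs hreg _ _ _
    refine ⟨rs, by simp, hrs, ?_⟩
    have h0 : (Ideal.ofList ([] : List Q) • ⊤ : Submodule Q C) = ⊥ := by
      rw [Ideal.ofList_nil, Submodule.bot_smul]
    exact ((Submodule.quotEquivOfEqBot _ h0).isRegular_congr rs).2 hreg
  | cons x fs ih =>
    intro C _ _ _ rs hrs hreg hfs hw hle
    rw [isWeaklyRegular_cons_iff] at hw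
    have hx : x ∈ maximalIdeal Q := hfs x (by simp)
    simp only [List.length_cons] at hle
    obtain ⟨s, hs⟩ : ∃ s, rs.length = s + 1 := ⟨rs.length - 1, by omega⟩
    obtain ⟨rs1, h1, h2, h3⟩ := REG_quot C rs s hs hrs hreg x hx hw.1
    obtain ⟨rs', h5, h6, h7⟩ := ih (QuotSMulTop x C) rs1 h2 h3
      (fun r hr => hfs r (by simp [hr])) hw.2 (by omega)
    refine ⟨rs', by simp only [List.length_cons]; omega, h6, ?_⟩
    exact ((Submodule.quotOfListConsSMulTopEquivQuotSMulTopInner C x fs).isRegular_congr rs').2 h7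

theorem CIA_max (I : Ideal Q) [IsLocalRing (Q ⧸ I)] :
    (maximalIdeal Q).map (Ideal.Quotient.mk I) = maximalIdeal (Q ⧸ I) := by
  have hI : I ≠ ⊤ := Ideal.Quotient.nontrivial_iff.1 inferInstance
  have hIm : I ≤ maximalIdeal Q := IsLocalRing.le_maximalIdeal hI
  have hloc : IsLocalHom (Ideal.Quotient.mk I) :=
    IsLocalHom.of_surjective _ Ideal.Quotient.mk_surjective
  have h1 : (maximalIdeal (Q ⧸ I)).comap (Ideal.Quotient.mk I) = maximalIdeal Q :=
    ((IsLocalRing.local_hom_TFAE (Ideal.Quotient.mk I)).out 0 4).1 hloc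
  rw [← h1, Ideal.map_comap_of_surjective _ Ideal.Quotient.mk_surjective]

theorem CIA [IsNoetherianRing Q] {n c : ℕ} (hdim : ringKrullDim Q = n)
    (hQ : ∃ rs : List Q, rs.length = n ∧ (∀ r ∈ rs, r ∈ maximalIdeal Q) ∧ IsRegular Q rs)
    (f : Fin c → Q) (hf : IsRegular Q (List.ofFn f))
    [IsLocalRing (Q ⧸ Ideal.span (Set.range f))] :
    ∃ d, n = c + d ∧ ringKrullDim (Q ⧸ Ideal.span (Set.range f)) = d ∧
      ∃ rs : List (Q ⧸ Ideal.span (Set.range f)), rs.length = d ∧
        (∀ r ∈ rs, r ∈ maximalIdeal (Q ⧸ Ideal.span (Set.range f))) ∧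
        IsRegular (Q ⧸ Ideal.span (Set.range f)) rs := by
  obtain ⟨rs, hlen, hmem, hreg⟩ := hQ
  have h1 := ringKrullDim_add_length_eq_ringKrullDim_of_isRegular (List.ofFn f) hf
  rw [CIA_ofList, hdim, List.length_ofFn] at h1
  have h0 : 0 ≤ ringKrullDim (Q ⧸ Ideal.span (Set.range f)) := ringKrullDim_nonneg_of_nontrivial
  -- the dimension is a natural number
  obtain ⟨d, hd⟩ : ∃ d : ℕ, ringKrullDim (Q ⧸ Ideal.span (Set.range f)) = d := by
    have hne : ringKrullDim (Q ⧸ Ideal.span (Set.range f)) ≠ ⊥ := by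
      intro h
      rw [h] at h0
      simp at h0
    obtain ⟨e, he⟩ := WithBot.ne_bot_iff_exists.1 hne
    have hne2 : e ≠ ⊤ := by
      rintro rfl
      rw [← he] at h1
      have h2 : ((⊤ : ℕ∞) : WithBot ℕ∞) + (c : WithBot ℕ∞) = ((⊤ + c : ℕ∞) : WithBot ℕ∞) := rfl
      rw [h2, top_add] at h1
      have h3 : ((⊤ : ℕ∞) : WithBot ℕ∞) = ((n : ℕ∞) : WithBot ℕ∞) := h1
      rw [WithBot.coe_inj] at h3
      exact ENat.natCast_ne_top n h3.symm
    obtain ⟨m, hm⟩ := ENat.ne_top_iff_exists.1 hne2
    exact ⟨m, by rw [← he, ← hm]; rfl⟩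
  have hn : n = c + d := by
    rw [hd] at h1
    have h2 : ((d + c : ℕ) : WithBot ℕ∞) = ((n : ℕ) : WithBot ℕ∞) := by
      rw [← h1]; push_cast; rfl
    have h3 : d + c = n := by exact_mod_cast h2
    omega
  have hfm : ∀ r ∈ List.ofFn f, r ∈ maximalIdeal Q := by
    intro r hr
    have h2 : Ideal.span (Set.range f) ≤ maximalIdeal Q :=
      IsLocalRing.le_maximalIdeal (CIA_ne_top f hf)
    rw [List.mem_ofFn] at hr
    exact h2 (Ideal.subset_span hr)
  obtain ⟨rs', h2, h3, h4⟩ := CIA_list (List.ofFn f) Q rs hmem hreg hfm hf.toIsWeaklyRegular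
    (by rw [List.length_ofFn, hlen]; omega)
  rw [List.length_ofFn, hlen] at h2
  refine ⟨d, hn, hd, rs'.map (Ideal.Quotient.mk _), by rw [List.length_map]; omega, ?_, ?_⟩
  · intro r hr
    rw [List.mem_map] at hr
    obtain ⟨t, ht, rfl⟩ := hr
    rw [← CIA_max]
    exact Ideal.mem_map_of_mem _ (h3 t ht)
  · have heq : (Ideal.ofList (List.ofFn f) • ⊤ : Submodule Q Q) = Ideal.span (Set.range f) := by
      rw [CIA_ofList]
      simp
    let e := Submodule.quotEquivOfEq _ _ heq
    refine (e.toAddEquiv.isRegular_congr (as := rs')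
      (bs := rs'.map (Ideal.Quotient.mk (Ideal.span (Set.range f)))) ?_).1 h4
    rw [List.forall₂_map_right_iff, List.forall₂_same]
    intro r _ x
    have : e (r • x) = r • e x := map_smul e r x
    exact this

theorem CIA_res {k : Type u} [Field k] [Algebra k Q] (I : Ideal Q) [IsLocalRing (Q ⧸ I)]
    [Module.Finite k (ResidueField Q)] : Module.Finite k (ResidueField (Q ⧸ I)) := by
  have hloc : IsLocalHom (Ideal.Quotient.mk I) :=
    IsLocalHom.of_surjective _ Ideal.Quotient.mk_surjective
  let g : ResidueField Q →ₐ[k] ResidueField (Q ⧸ I) :=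
    { ResidueField.map (Ideal.Quotient.mk I) with
      commutes' := by
        intro a
        change ResidueField.map (Ideal.Quotient.mk I) (residue Q (algebraMap k Q a)) = _
        rw [ResidueField.map_residue]
        rfl }
  have hg : Function.Surjective g := by
    intro y
    obtain ⟨a, rfl⟩ := residue_surjective (R := Q ⧸ I) y
    obtain ⟨x, rfl⟩ := Ideal.Quotient.mk_surjective a
    exact ⟨residue Q x, ResidueField.map_residue _ _⟩
  exact Module.Finite.of_surjective g.toLinearMap hg

end NCG
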