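import Pool.Agent.NCG.EXW

/-!
# CNT: the kernel of `φ l ∧` is torsion

`CON`.  Let `a ∈ Hl φ l`, with the linear form `h` (`h (φ l) = a`, `h (φ l') = 0` for `l' < l`), and
`y ∈ ⋀^j` with `φ l ∧ y ∈ Pl φ 𝔞 l (j+1)`.  Then `a • y ∈ Pl φ 𝔞 (l+1) j`:
for `j = j' + 1`, `a • y = contr h (φ l ∧ y) + φ l ∧ contr h y` (`contr_wedge`), where
`contr h (φ l ∧ y) ∈ Pl φ 𝔞 l j` by `contr_Pl`, and `φ l ∧ contr h y ∈ range (wedge (φ l) j')`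
(`Pl_succ`, `Pl_mono`); for `j = 0`, `a • y = contr h (φ l ∧ y) ∈ Pl φ 𝔞 l 0 = Pl φ 𝔞 (l+1) 0`.

`CON_unif`: a uniform exponent.  Take for each `b < r` an exponent `N_b` with
`z b ^ N_b ∈ Hl φ l`, and `N = ∑_{b < r} N_b`; then `z b ^ N ∈ Hl φ l` by `Hl_smul`.

`TRS` (torsion).  If `l ≤ c` and `n < p + l` then there is `N` with `z b ^ N • x ∈ Pl φ 𝔞 l p` for all
`b < r`, `x ∈ ⋀^p (A^n)`.  Induction on `l` (for all `p`).  `l = 0`: `n < p`, so `x = 0`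
(`exterior_zero`).  `l + 1`: let `x ∈ ⋀^p`, `n < p + l + 1`.  By induction (with `p + 1`) there is
`N₁` with `z b ^ N₁ • (φ l ∧ x) ∈ Pl φ 𝔞 l (p+1)`, i.e. `φ l ∧ (z b ^ N₁ • x) ∈ Pl φ 𝔞 l (p+1)`, so by
`CON_unif` `z b ^ N₂ • z b ^ N₁ • x ∈ Pl φ 𝔞 (l+1) p`.
-/

open scoped BigOperators

namespace NCG

universe u v w

variable {A : Type u} [CommRing A] {n : ℕ} (φ : ℕ → (Fin n → A)) (𝔞 : Ideal A)

theorem CON (l j : ℕ) {a : A} (ha : a ∈ Hl φ l) (y : ⋀[A]^j (Fin n → A))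
    (hy : wedge (φ l) j y ∈ Pl φ 𝔞 l (j + 1)) : a • y ∈ Pl φ 𝔞 (l + 1) j := by
  obtain ⟨h, h1, h2⟩ := ha
  have hc : contr h j (wedge (φ l) j y) ∈ Pl φ 𝔞 l j := contr_Pl φ 𝔞 l j h h2 hy
  cases j with
  | zero =>
    rw [contr_wedge_zero, h1] at hc
    exact Pl_mono φ 𝔞 (Nat.le_succ l) 0 hc
  | succ j =>
    rw [contr_wedge, h1] at hc
    have e : a • y = (a • y - wedge (φ l) j (contr h j y)) + wedge (φ l) j (contr h j y) := by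
      abel
    rw [e]
    refine Submodule.add_mem _ (Pl_mono φ 𝔞 (Nat.le_succ l) (j + 1) hc) ?_
    exact range_le_Pl φ 𝔞 (Nat.lt_succ_self l) j ⟨_, rfl⟩

theorem CON_unif {z : ℕ → A} {r : ℕ} (l j : ℕ) (hz : ∀ b < r, ∃ N, z b ^ N ∈ Hl φ l) :
    ∃ N, ∀ y : ⋀[A]^j (Fin n → A), wedge (φ l) j y ∈ Pl φ 𝔞 l (j + 1) →
      ∀ b < r, z b ^ N • y ∈ Pl φ 𝔞 (l + 1) j := by
  classical
  choose! N hN using hz
  refine ⟨∑ b ∈ Finset.range r, N b, fun y hy b hb => ?_⟩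
  refine CON φ 𝔞 l j ?_ y hy
  have hle : N b ≤ ∑ b ∈ Finset.range r, N b :=
    Finset.single_le_sum (f := N) (fun _ _ => Nat.zero_le _) (Finset.mem_range.2 hb)
  obtain ⟨k, hk⟩ := Nat.exists_eq_add_of_le hle
  rw [hk, add_comm, pow_add]
  exact Hl_smul φ l (hN b hb) _

theorem TRS {z : ℕ → A} {r c : ℕ} (hz : ∀ b < r, ∀ l < c, ∃ N, z b ^ N ∈ Hl φ l) (l p : ℕ)
    (hl : l ≤ c) (hp : n < p + l) :
    ∃ N, ∀ b < r, ∀ x : ⋀[A]^p (Fin n → A), z b ^ N • x ∈ Pl φ 𝔞 l p := by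
  induction l generalizing p with
  | zero =>
    refine ⟨0, fun b _ x => ?_⟩
    rw [exterior_zero (by omega) x, smul_zero]
    exact Submodule.zero_mem _
  | succ l ih =>
    obtain ⟨N₁, h1⟩ := ih (p + 1) (by omega) (by omega)
    obtain ⟨N₂, h2⟩ := CON_unif φ 𝔞 l p (fun b hb => hz b hb l (by omega))
    refine ⟨N₂ + N₁, fun b hb x => ?_⟩
    rw [pow_add, mul_smul]
    refine h2 _ ?_ b hb
    rw [map_smul]
    exact h1 b hb _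

end NCG
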