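import Mathlib

/-!
# GRS: the top coefficient functional on the exterior algebra of `k^i`

`L = ExteriorAlgebra k (Fin i → k)`, `gre j = ι (Pi.single j 1)`.

`GRS_exists`: there is a linear map `I : L → k` which vanishes on `⋀^r` for `r ≠ i` and with
`I (gre (π 0) * gre (π 1) * ⋯ * gre (π (i-1))) = sign π` for permutations `π` of `Fin i`.
Take `I = ExteriorAlgebra.liftAlternating f` with `f r = 0` for `r ≠ i` and `f i = Matrix.detRowAlternating`
(`f r = if h : r = i then h ▸ Matrix.detRowAlternating else 0`, `AlternatingMap.domDomCongr` also works);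
`ExteriorAlgebra.liftAlternating_apply_ιMulti`, `ExteriorAlgebra.ιMulti_apply`,
`ExteriorAlgebra.ιMulti_span_fixedDegree` (`⋀^r` is spanned by the products of `r` vectors);
`Matrix.det_permutation`: the matrix with rows `Pi.single (π t) 1` has determinant `sign π`.

`gre_anticomm`, `gre_sq`: `ExteriorAlgebra.ι_add_mul_swap`, `ExteriorAlgebra.ι_sq_zero`.
`gre_prod_mem`: a product of `r` of the `gre j` is in `⋀^r`.
`gre_prod_zero`: for `p : Fin i → Fin i` not injective the product `gre (p 0) * ⋯` vanishes
(`ExteriorAlgebra.ιMulti` is alternating).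
`I_mul`: only products of `k`-scalars are moved.
-/

open scoped BigOperators

namespace NCG

section

variable (k : Type*) [Field k] (i : ℕ)

/-- the exterior algebra of `k^i` -/
abbrev GrL : Type _ := ExteriorAlgebra k (Fin i → k)

variable {i}

/-- the generators of the exterior algebra -/
def gre (j : Fin i) : GrL k i := ExteriorAlgebra.ι k (Pi.single j 1)

theorem gre_anticomm (a b : Fin i) : gre k a * gre k b = -(gre k b * gre k a) :=
  eq_neg_of_add_eq_zero_left (ExteriorAlgebra.ι_add_mul_swap _ _)

theorem gre_sq (a : Fin i) : gre k a * gre k a = 0 := ExteriorAlgebra.ι_sq_zero _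

private theorem GRS_prod (r : ℕ) (p : Fin r → Fin i) :
    (List.ofFn fun t => gre k (p t)).prod =
      ExteriorAlgebra.ιMulti k r (fun t => (Pi.single (p t) 1 : Fin i → k)) := by
  rw [ExteriorAlgebra.ιMulti_apply]
  rfl

theorem gre_prod_mem (r : ℕ) (p : Fin r → Fin i) :
    (List.ofFn fun t => gre k (p t)).prod ∈ ⋀[k]^r (Fin i → k) := by
  rw [GRS_prod]
  exact ExteriorAlgebra.ιMulti_range k r ⟨_, rfl⟩

theorem gre_prod_zero (r : ℕ) (p : Fin r → Fin i) (hp : ¬ Function.Injective p) :
    (List.ofFn fun t => gre k (p t)).prod = 0 := by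
  rw [GRS_prod]
  unfold Function.Injective at hp
  push Not at hp
  obtain ⟨a, b, hab, hne⟩ := hp
  exact AlternatingMap.map_eq_zero_of_eq _ _ (by rw [hab]) hne

variable (i)

theorem GRS_exists : ∃ I : GrL k i →ₗ[k] k,
    (∀ r, r ≠ i → ∀ y ∈ ⋀[k]^r (Fin i → k), I y = 0) ∧
    (∀ π : Equiv.Perm (Fin i),
      I (List.ofFn fun t => gre k (π t)).prod = ((Equiv.Perm.sign π : ℤˣ) : ℤ)) := by
  classical
  let f : ∀ r : ℕ, (Fin i → k) [⋀^Fin r]→ₗ[k] k := fun r =>
    if h : r = i then (Matrix.detRowAlternating (n := Fin i) (R := k)).domDomCongr (finCongr h.symm)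
    else 0
  refine ⟨ExteriorAlgebra.liftAlternating f, ?_, ?_⟩
  · intro r hr y hy
    rw [← ExteriorAlgebra.ιMulti_span_fixedDegree] at hy
    have h1 : Submodule.span k (Set.range (ExteriorAlgebra.ιMulti k r (M := Fin i → k))) ≤
        LinearMap.ker (ExteriorAlgebra.liftAlternating f) := by
      rw [Submodule.span_le]
      rintro _ ⟨v, rfl⟩
      show ExteriorAlgebra.liftAlternating f (ExteriorAlgebra.ιMulti k r v) = 0
      rw [ExteriorAlgebra.liftAlternating_apply_ιMulti]
      have h2 : f r = 0 := dif_neg hr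
      rw [h2]
      rfl
    exact h1 hy
  · intro π
    rw [GRS_prod, ExteriorAlgebra.liftAlternating_apply_ιMulti]
    have h2 : f i = (Matrix.detRowAlternating (n := Fin i) (R := k)).domDomCongr
        (finCongr (rfl : i = i)) := dif_pos rfl
    rw [h2]
    show Matrix.det (fun t => (Pi.single (π t) 1 : Fin i → k)) = _
    have h3 : (fun t => (Pi.single (π t) 1 : Fin i → k)) =
        ((1 : Matrix (Fin i) (Fin i) k).submatrix π id) := by
      funext t j
      show (Pi.single (π t) 1 : Fin i → k) j = (1 : Matrix (Fin i) (Fin i) k) (π t) j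
      rw [Matrix.one_apply, Pi.single_apply]
      by_cases h : π t = j
      · rw [if_pos h, if_pos h.symm]
      · rw [if_neg h, if_neg (Ne.symm h)]
    rw [h3]
    refine (Matrix.det_permute π _).trans ?_
    rw [Matrix.det_one, mul_one]

end

end NCG
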