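import Pool.Agent.NCG.TDf

/-!
# NCP: products of sums in noncommutative rings, closed paths

`prod_ofFn_sum`: `(∑_j f 0 j) (∑_j f 1 j) ⋯ = ∑_{p : Fin r → κ} f 0 (p 0) * f 1 (p 1) ⋯`.  Induction on `r` with
`List.ofFn_succ`, `List.prod_cons`, `Finset.sum_mul_sum` and the equivalence
`Fin.consEquiv` / `Fin.cons` (`Fintype.sum_equiv`, `Fin.consPiEquiv...`, or `Fin.cons_surjective`...).

`MPE`: expansion of the supertrace of a product of matrices over closed paths
`α 0 → α 1 → ... → α i → α 0`: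
`str1 (X₀ * X 0 * ⋯ * X (i-1)) = ∑_α sgn (α 0) X₀ (α 0) (α 1) X 0 (α 1) (α 2) ⋯ X (i-1) (α i) (α 0)`.
In `Fin (i + 1)` we have `j.succ + 1 = (j+1).succ` for `j < i - 1` and `(last).succ + 1 = 0`; for `i = 0`,
`α 1 = α 0`.
Proof: first prove by induction on `i` the open version: for all `X : Fin i → Matrix` and `a b`,
`(X 0 * ⋯ * X (i-1)) a b = ∑_{β : Fin (i+1) → ι, β 0 = a, β last = b} ∏ X j (β j.castSucc) (β j.succ)`
(ordered product), e.g. with `List.ofFn_succ` and `Matrix.mul_apply`.  Apply it to the `i + 1`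
matrices `X₀, X 0, ..., X (i-1)` and `a = b`: closed paths `β : Fin (i+2) → ι` with `β 0 = β last`
correspond to `α = β ∘ castSucc : Fin (i+1) → ι`.
-/

open scoped BigOperators

namespace NCG

private theorem NCP_sum_cons {κ T : Type*} [Fintype κ] [DecidableEq κ] [AddCommMonoid T] {m : ℕ}
    (f : (Fin (m + 1) → κ) → T) :
    ∑ c, f c = ∑ γ : κ, ∑ c' : Fin m → κ, f (Fin.cons (α := fun _ => κ) γ c') := by
  rw [← (Fin.consEquiv (fun _ : Fin (m + 1) => κ)).sum_comp, Fintype.sum_prod_type]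
  rfl

theorem prod_ofFn_sum {R κ : Type*} [Ring R] [Fintype κ] [DecidableEq κ] (r : ℕ)
    (f : Fin r → κ → R) :
    (List.ofFn fun t => ∑ j, f t j).prod = ∑ p : Fin r → κ, (List.ofFn fun t => f t (p t)).prod := by
  induction r with
  | zero => simp
  | succ r ih =>
    rw [List.ofFn_succ, List.prod_cons, ih (fun t => f t.succ), Finset.sum_mul_sum, NCP_sum_cons]
    refine Finset.sum_congr rfl fun γ _ => Finset.sum_congr rfl fun c _ => ?_
    rw [List.ofFn_succ, List.prod_cons, Fin.cons_zero]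
    simp only [Fin.cons_succ]

section

variable {ι : Type} [Fintype ι] [DecidableEq ι] (deg : ι → ℤ) {R : Type*} [Ring R]

private theorem NCP_open (n : ℕ) : ∀ (Y : Fin (n + 1) → Matrix ι ι R) (a b : ι),
    (List.ofFn Y).prod a b = ∑ γ : Fin n → ι, (List.ofFn fun j : Fin (n + 1) =>
      Y j (Fin.cons (α := fun _ => ι) a γ j) (Fin.snoc (α := fun _ => ι) γ b j)).prod := by
  induction n with
  | zero =>
    intro Y a b
    have h : ∀ γ : Fin 0 → ι, (Fin.snoc (α := fun _ => ι) γ b : Fin 1 → ι) 0 = b := by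
      intro γ
      have h1 : (0 : Fin 1) = Fin.last 0 := rfl
      rw [h1, Fin.snoc_last]
    simp [h]
  | succ n ih =>
    intro Y a b
    rw [List.ofFn_succ, List.prod_cons, Matrix.mul_apply, NCP_sum_cons]
    refine Finset.sum_congr rfl fun c _ => ?_
    rw [ih (fun j => Y j.succ) c b, Finset.mul_sum]
    refine Finset.sum_congr rfl fun γ _ => ?_
    conv_rhs => rw [← Fin.cons_snoc_eq_snoc_cons, List.ofFn_succ, List.prod_cons]
    simp only [Fin.cons_succ, Fin.cons_zero]

theorem MPE (i : ℕ) (X₀ : Matrix ι ι R) (X : Fin i → Matrix ι ι R) :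
    str1 deg (X₀ * (List.ofFn X).prod) =
      ∑ α : Fin (i + 1) → ι, (sgn (deg (α 0)) : R) *
        (X₀ (α 0) (α 1) * (List.ofFn fun j : Fin i => X j (α j.succ) (α (j.succ + 1))).prod) := by
  unfold str1
  rw [NCP_sum_cons]
  refine Finset.sum_congr rfl fun a _ => ?_
  have h1 : X₀ * (List.ofFn X).prod =
      (List.ofFn (Fin.cons (α := fun _ => Matrix ι ι R) X₀ X : Fin (i + 1) → Matrix ι ι R)).prod := by
    rw [List.ofFn_succ, List.prod_cons, Fin.cons_zero]
    simp only [Fin.cons_succ]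
  rw [h1, NCP_open, Finset.mul_sum]
  refine Finset.sum_congr rfl fun γ _ => ?_
  have h2 : ∀ j : Fin (i + 1), (Fin.snoc (α := fun _ => ι) γ a : Fin (i + 1) → ι) j =
      (Fin.cons (α := fun _ => ι) a γ : Fin (i + 1) → ι) (j + 1) := by
    intro j
    refine Fin.lastCases ?_ (fun j' => ?_) j
    · rw [Fin.snoc_last, Fin.last_add_one, Fin.cons_zero]
    · rw [Fin.snoc_castSucc, Fin.coeSucc_eq_succ, Fin.cons_succ]
  simp only [h2]
  rw [List.ofFn_succ, List.prod_cons, Fin.cons_zero, Fin.cons_zero, zero_add]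
  simp only [Fin.cons_succ]

end

end NCG
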