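import Pool.Agent.NCG.MDA
import Pool.Agent.NCG.NCP
import Pool.Agent.NCG.GRS

/-!
# MDV: `Psi` is an alternating multiderivation

`A` commutative `k`-algebra, `R` a `k`-algebra with a trace `tr`, `rho : A → R` an algebra map,
`θ a : A → R` `k`-linear with `θ a (x y) = θ a x * rho y + rho x * θ a y`.
`Psi a₀ x = ∑_{σ, π} sgn σ sgn π tr (rho a₀ θ_{σ 0}(x_{π 0}) ⋯ θ_{σ (i-1)}(x_{π (i-1)}))`.

`MDV`: `Psi a₀ (update x j₀ (u v)) = Psi (a₀ u) (update x j₀ v) + Psi (a₀ v) (update x j₀ u)`.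

Proof.  Let `Λ = ExteriorAlgebra k (Fin i ⊕ Fin i → k)` with the generators
`η a = ι (Pi.single (inl a) 1)`, `ξ j = ι (Pi.single (inr j) 1)`; they anticommute and have square zero;
products of two generators are central in `Λ`.  Let `S = Λ ⊗[k] R` (`Algebra.TensorProduct`) and
`Tr : S → Λ`, `Tr (λ ⊗ r) = tr r • λ` (`TensorProduct.rid`, `LinearMap.lTensor`).
Let `S⁺` be the span of the `λ ⊗ r` with `λ` central.  Then `Tr (Y Z) = Tr (Z Y)` for `Y ∈ S⁺`, `Z ∈ S`.
(E) For all `x : Fin i → A` let `Θ(x) = ∑_{a,j} (η a ξ j) ⊗ θ a (x j)`.  By `prod_ofFn_sum` (index type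
`Fin i × Fin i`) `Θ(x)^i = ∑_{p,q : Fin i → Fin i} (∏_t η (p t) ξ (q t)) ⊗ ∏_t θ (p t) (x (q t))`.
The element `∏_t (η (p t) ξ (q t))` of `Λ` is alternating in `p` and in `q` (the factors `η (p t) ξ (q t)` are
central, and `η a ξ j η b ξ l = - η b ξ j η a ξ l`), so it is zero if `p` or `q` is not injective and
`sgn σ sgn π τ` for permutations, where `τ = ∏_t (η t ξ t)`.  Hence
`Tr ((1 ⊗ rho a₀) Θ(x)^i) = Psi a₀ x • τ`.  `τ ≠ 0`: it is `±` the product of all `2 i` generators, a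
basis element (`ExteriorAlgebra.basis...` / `Module.Basis.ExteriorAlgebra`, or use a determinant
functional via `ExteriorAlgebra.liftAlternating`, as in module GRS; reindex `Fin i ⊕ Fin i` by
`Fin (2 i)` or order it).
(D) Fix `j₀`, `x`, and put `X = ∑_{j ≠ j₀} ξ j ⊗ rho (x j)`, `T = ∑_{a} ∑_{j ≠ j₀} (η a ξ j) ⊗ θ a (x j)`,
`P y = ∑_a η a ⊗ θ a y`, `r y = 1 ⊗ rho y`.  For `x' = update x j₀ y`: `Θ(x') = T + W`, `W = P y * (ξ j₀ ⊗ 1)`.
`W T^s W = 0` (`ξ j₀` twice) and `T^i = 0` (`i` factors `ξ j` with `j ≠ j₀`; expand as in (E), no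
injective `q`), `ξ j₀ ⊗ 1` commutes with `T`, so
`Θ(x')^i = ∑_{r < i} T^r P(y) T^(i-1-r) (ξ j₀ ⊗ 1)`
(general fact: if `W T^s W = 0` for all `s` then `(T+W)^n = T^n + ∑_{r<n} T^r W T^(n-1-r)`).  So by (E)
`Psi a₀ (update x j₀ y) • τ = (∑_{r<i} Tr (r(a₀) T^r P(y) T^(i-1-r))) * ξ j₀`.
(M) Apply `MDA` with `a = r a₀`, `u = r u`, `v = r v`, `p = P u`, `q = P v`, `n = i - 1` (`i ≥ 1` as `j₀`
exists).  Its hypotheses: let `[f,g] = f g - g f`.  From `θ a (x y) = θ a (y x)`:
`[θ a x, rho y] = [θ a y, rho x]`  (*).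
 * `T X = X T`: `T X - X T = ∑_{a,j,l} (η a ξ j ξ l) ⊗ [θ a (x j), rho (x l)]` (`ξ l η a ξ j = η a ξ j ξ l`),
   antisymmetric in `(j,l)` times symmetric by (*).
 * `[T, r y] = ∑ (η a ξ j) ⊗ [θ a (x j), rho y] = ∑ (η a ξ j) ⊗ [θ a y, rho (x j)] = X P(y) + P(y) X` as
   `ξ j η a = - η a ξ j`.
 * `P (u v) = P u r v + r u P v`.
 * `Tr (Z r v) = Tr (r v Z)` as `r v ∈ S⁺`; `Tr (Y X) = Tr (X Y)` as `Y = a T^s p T^s' q T^r ∈ S⁺` (`T ∈ S⁺`,
   and `P(u) Z P(v) ∈ S⁺` for `Z ∈ S⁺` since `η a λ η b = λ η a η b` is central).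
So `(Psi a₀ (.. u v) - Psi (a₀ u) (.. v) - Psi (a₀ v) (.. u)) • τ = 0`, and `τ ≠ 0`.

The other statements are elementary: `Psi_add`, `Psi_smul` (linearity in every variable),
`Psi_alt` (if `x j = x l`, `j ≠ l`, then exchange `π` and `swap j l * π`: the terms are opposite, so
`2 Psi = 0`; or use `Finset.sum_involution`).
-/

open scoped BigOperators TensorProduct

namespace NCG

section ext

variable {k : Type*} [Field k] {M : Type*} [AddCommGroup M] [Module k M]

private theorem MDV_central (c : ExteriorAlgebra k M)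
    (h : ∀ m : M, ExteriorAlgebra.ι k m * c = c * ExteriorAlgebra.ι k m) (b : ExteriorAlgebra k M) :
    b * c = c * b := by
  induction b using ExteriorAlgebra.induction with
  | algebraMap r => exact Algebra.commutes r c
  | ι m => exact h m
  | mul a b ha hb => rw [mul_assoc, hb, ← mul_assoc, ha, mul_assoc]
  | add a b ha hb => rw [add_mul, mul_add, ha, hb]

private theorem MDV_anti (x y : M) : ExteriorAlgebra.ι k x * ExteriorAlgebra.ι k y =
    -(ExteriorAlgebra.ι k y * ExteriorAlgebra.ι k x) :=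
  eq_neg_of_add_eq_zero_left (ExteriorAlgebra.ι_add_mul_swap _ _)

private theorem MDV_two (x y : M) (b : ExteriorAlgebra k M) :
    b * (ExteriorAlgebra.ι k x * ExteriorAlgebra.ι k y) =
      (ExteriorAlgebra.ι k x * ExteriorAlgebra.ι k y) * b := by
  refine MDV_central _ (fun m => ?_) b
  rw [← mul_assoc, MDV_anti m x, neg_mul, mul_assoc, MDV_anti m y, mul_neg, neg_neg, mul_assoc]

private theorem MDV_pass (n : ℕ) (y : M) (v : Fin n → M) :
    ExteriorAlgebra.ι k y * (List.ofFn fun t => ExteriorAlgebra.ι k (v t)).prod =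
      ((-1 : k) ^ n) • ((List.ofFn fun t => ExteriorAlgebra.ι k (v t)).prod *
        ExteriorAlgebra.ι k y) := by
  induction n with
  | zero => simp
  | succ n ih =>
    rw [List.ofFn_succ, List.prod_cons, ← mul_assoc, MDV_anti y, neg_mul, mul_assoc, ih,
      mul_smul_comm, ← smul_neg, pow_succ, mul_neg_one, neg_smul, smul_neg, mul_assoc]

private theorem MDV_shuffle (n : ℕ) : ∃ ε : k, ε ≠ 0 ∧ ∀ v w : Fin n → M,
    (List.ofFn fun t => ExteriorAlgebra.ι k (v t) * ExteriorAlgebra.ι k (w t)).prod =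
      ε • ((List.ofFn fun t => ExteriorAlgebra.ι k (v t)).prod *
        (List.ofFn fun t => ExteriorAlgebra.ι k (w t)).prod) := by
  induction n with
  | zero => exact ⟨1, one_ne_zero, fun v w => by simp⟩
  | succ n ih =>
    obtain ⟨ε, hε, h⟩ := ih
    refine ⟨(-1) ^ n * ε, mul_ne_zero (by simp) hε, fun v w => ?_⟩
    rw [List.ofFn_succ, List.prod_cons, h (fun t => v t.succ) (fun t => w t.succ),
      List.ofFn_succ, List.ofFn_succ, List.prod_cons, List.prod_cons]
    set H := (List.ofFn fun t : Fin n => ExteriorAlgebra.ι k (v t.succ)).prod with hH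
    set X := (List.ofFn fun t : Fin n => ExteriorAlgebra.ι k (w t.succ)).prod with hX
    have h1 := MDV_pass (k := k) n (w 0) (fun t => v t.succ)
    rw [← hH] at h1
    have h2 : H * ExteriorAlgebra.ι k (w 0) = ((-1 : k) ^ n) • (ExteriorAlgebra.ι k (w 0) * H) := by
      rw [h1, smul_smul, ← pow_add, ← two_mul, pow_mul]
      simp
    calc ExteriorAlgebra.ι k (v 0) * ExteriorAlgebra.ι k (w 0) * ε • (H * X) =
        ε • (ExteriorAlgebra.ι k (v 0) * (ExteriorAlgebra.ι k (w 0) * H) * X) := by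
          rw [mul_smul_comm]; simp only [mul_assoc]
      _ = ((-1) ^ n * ε) • (ExteriorAlgebra.ι k (v 0) * (H * ExteriorAlgebra.ι k (w 0)) * X) := by
          rw [h1, mul_smul_comm, smul_mul_assoc, smul_smul, mul_comm]
      _ = _ := by simp only [mul_assoc]

end ext

section perms

private theorem MDV_sum_perm {L : Type*} [AddCommMonoid L] {i : ℕ} (F : (Fin i → Fin i) → L)
    (hF : ∀ p, ¬ Function.Injective p → F p = 0) :
    ∑ p, F p = ∑ σ : Equiv.Perm (Fin i), F σ := by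
  symm
  refine Finset.sum_of_injOn (fun σ : Equiv.Perm (Fin i) => (σ : Fin i → Fin i)) ?_ ?_ ?_ ?_
  · intro a _ b _ h
    exact DFunLike.coe_injective h
  · intro a _
    simp
  · intro p _ hp
    apply hF
    intro hinj
    apply hp
    refine ⟨Equiv.ofBijective p (Finite.injective_iff_bijective.mp hinj), by simp, ?_⟩
    rfl
  · intro a _
    rfl

private theorem MDV_tprod {k Λ R : Type*} [Field k] [Ring Λ] [Algebra k Λ] [Ring R] [Algebra k R]
    (n : ℕ) (l : Fin n → Λ) (r : Fin n → R) :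
    (List.ofFn fun t => (l t ⊗ₜ[k] r t : Λ ⊗[k] R)).prod =
      (List.ofFn l).prod ⊗ₜ[k] (List.ofFn r).prod := by
  induction n with
  | zero => simp [Algebra.TensorProduct.one_def]
  | succ n ih =>
    rw [List.ofFn_succ, List.prod_cons, ih, List.ofFn_succ, List.ofFn_succ, List.prod_cons,
      List.prod_cons, Algebra.TensorProduct.tmul_mul_tmul]

private theorem MDV_pow {S : Type*} [Ring S] (T W : S) (h : ∀ s, W * T ^ s * W = 0) (n : ℕ) :
    (T + W) ^ n = T ^ n + ∑ r ∈ Finset.range n, T ^ r * W * T ^ (n - 1 - r) := by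
  induction n with
  | zero => simp
  | succ n ih =>
    rw [pow_succ, ih, add_mul, mul_add, Finset.sum_range_succ, Finset.sum_mul]
    have e : ∀ r ∈ Finset.range n, T ^ r * W * T ^ (n - 1 - r) * (T + W) =
        T ^ r * W * T ^ (n + 1 - 1 - r) := by
      intro r hr
      rw [Finset.mem_range] at hr
      have h1 : n + 1 - 1 - r = n - 1 - r + 1 := by omega
      have h2 : T ^ r * W * T ^ (n - 1 - r) * W = T ^ r * (W * T ^ (n - 1 - r) * W) := by
        simp only [mul_assoc]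
      rw [mul_add, h2, h, mul_zero, add_zero, h1, pow_succ, mul_assoc]
    rw [Finset.sum_congr rfl e]
    have h3 : n + 1 - 1 - n = 0 := by omega
    rw [h3, pow_zero, mul_one, pow_succ]
    abel

end perms

section MD

variable {k A R Λ : Type*} [Field k] [CommRing A] [Algebra k A] [Ring R] [Algebra k R]
  [Ring Λ] [Algebra k Λ] (tr : R →ₗ[k] k) (rho : A →ₐ[k] R) {i : ℕ} (θ : Fin i → (A →ₗ[k] R))
  (η ξ : Fin i → Λ)

private noncomputable def MDV_T (x : Fin i → A) : Λ ⊗[k] R :=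
  ∑ a, ∑ j, (η a * ξ j) ⊗ₜ[k] θ a (x j)

private noncomputable def MDV_X (x : Fin i → A) : Λ ⊗[k] R := ∑ j, ξ j ⊗ₜ[k] rho (x j)

private noncomputable def MDV_P (y : A) : Λ ⊗[k] R := ∑ a, η a ⊗ₜ[k] θ a y

private noncomputable def MDV_r (y : A) : Λ ⊗[k] R := (1 : Λ) ⊗ₜ[k] rho y

private noncomputable def MDV_Tr : Λ ⊗[k] R →ₗ[k] Λ :=
  (TensorProduct.rid k Λ).toLinearMap ∘ₗ (LinearMap.lTensor Λ tr)

private theorem MDV_Tr_tmul (l : Λ) (r : R) : MDV_Tr tr (l ⊗ₜ[k] r) = tr r • l := by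
  simp [MDV_Tr]

variable (k Λ R) in
private def MDV_even : Submodule k (Λ ⊗[k] R) :=
  Submodule.span k {z | ∃ (l : Λ) (r : R), (∀ b, b * l = l * b) ∧ z = l ⊗ₜ[k] r}

private theorem MDV_even_mk (l : Λ) (r : R) (h : ∀ b, b * l = l * b) :
    l ⊗ₜ[k] r ∈ MDV_even k R Λ := Submodule.subset_span ⟨l, r, h, rfl⟩

private theorem MDV_even_mul {x y : Λ ⊗[k] R} (hx : x ∈ MDV_even k R Λ)
    (hy : y ∈ MDV_even k R Λ) : x * y ∈ MDV_even k R Λ := by
  have h : MDV_even k R Λ * MDV_even k R Λ ≤ MDV_even k R Λ := by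
    conv_lhs => unfold MDV_even
    rw [Submodule.span_mul_span, Submodule.span_le]
    rintro _ ⟨_, ⟨l, r, hl, rfl⟩, _, ⟨l', r', hl', rfl⟩, rfl⟩
    simp only [Algebra.TensorProduct.tmul_mul_tmul]
    refine MDV_even_mk _ _ fun b => ?_
    rw [← mul_assoc, hl, mul_assoc, hl', mul_assoc]
  exact h (Submodule.mul_mem_mul hx hy)

private theorem MDV_even_pow {x : Λ ⊗[k] R} (hx : x ∈ MDV_even k R Λ) (n : ℕ) :
    x ^ n ∈ MDV_even k R Λ := by
  induction n with
  | zero =>
    rw [pow_zero, Algebra.TensorProduct.one_def]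
    exact MDV_even_mk _ _ fun b => by simp
  | succ n ih => rw [pow_succ]; exact MDV_even_mul ih hx

private theorem MDV_even_tr (htr : ∀ f g, tr (f * g) = tr (g * f)) {x : Λ ⊗[k] R}
    (hx : x ∈ MDV_even k R Λ) (z : Λ ⊗[k] R) : MDV_Tr tr (x * z) = MDV_Tr tr (z * x) := by
  unfold MDV_even at hx
  induction hx using Submodule.span_induction with
  | mem x hx =>
    obtain ⟨l, r, hl, rfl⟩ := hx
    induction z using TensorProduct.induction_on with
    | zero => simp
    | tmul m s =>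
      rw [Algebra.TensorProduct.tmul_mul_tmul, Algebra.TensorProduct.tmul_mul_tmul, MDV_Tr_tmul,
        MDV_Tr_tmul, htr, hl]
    | add a b ha hb => rw [mul_add, add_mul, map_add, map_add, ha, hb]
  | zero => simp
  | add a b _ _ ha hb => rw [add_mul, mul_add, map_add, map_add, ha, hb]
  | smul c a _ ha => rw [smul_mul_assoc, mul_smul_comm, map_smul, map_smul, ha]

private theorem MDV_T_even (hηξ : ∀ a j b, b * (η a * ξ j) = (η a * ξ j) * b) (x : Fin i → A) :
    MDV_T θ η ξ x ∈ MDV_even k R Λ :=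
  Submodule.sum_mem _ fun a _ => Submodule.sum_mem _ fun j _ => MDV_even_mk _ _ (hηξ a j)

private theorem MDV_r_even (y : A) : (MDV_r rho y : Λ ⊗[k] R) ∈ MDV_even k R Λ :=
  MDV_even_mk _ _ fun b => by simp

private theorem MDV_PZP (hηη : ∀ a c b, b * (η a * η c) = (η a * η c) * b) (u v : A)
    {z : Λ ⊗[k] R} (hz : z ∈ MDV_even k R Λ) :
    MDV_P θ η u * z * MDV_P θ η v ∈ MDV_even k R Λ := by
  unfold MDV_even at hz
  induction hz using Submodule.span_induction with
  | mem x hx =>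
    obtain ⟨l, r, hl, rfl⟩ := hx
    unfold MDV_P
    rw [Finset.sum_mul, Finset.sum_mul]
    refine Submodule.sum_mem _ fun a _ => ?_
    rw [Finset.mul_sum]
    refine Submodule.sum_mem _ fun c _ => ?_
    rw [Algebra.TensorProduct.tmul_mul_tmul, Algebra.TensorProduct.tmul_mul_tmul]
    refine MDV_even_mk _ _ fun b => ?_
    rw [hl (η a), mul_assoc l, ← mul_assoc b, hl b, mul_assoc l, hηη, mul_assoc l]
  | zero => simp
  | add a b _ _ ha hb => rw [mul_add, add_mul]; exact Submodule.add_mem _ ha hb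
  | smul c a _ ha =>
    rw [mul_smul_comm, smul_mul_assoc]
    exact Submodule.smul_mem _ _ ha

private theorem MDV_sym (hθ : ∀ a x y, θ a (x * y) = θ a x * rho y + rho x * θ a y)
    (a : Fin i) (x y : A) :
    θ a x * rho y - rho y * θ a x = θ a y * rho x - rho x * θ a y := by
  have h1 := hθ a x y
  rw [mul_comm x y, hθ a y x] at h1
  rw [sub_eq_sub_iff_add_eq_add, h1]

private theorem MDV_TX [CharZero k] (hηξ : ∀ a j b, b * (η a * ξ j) = (η a * ξ j) * b)
    (hξξ : ∀ j l, ξ j * ξ l = -(ξ l * ξ j))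
    (hθ : ∀ a x y, θ a (x * y) = θ a x * rho y + rho x * θ a y) (x : Fin i → A) :
    MDV_T θ η ξ x * MDV_X rho ξ x = MDV_X rho ξ x * MDV_T θ η ξ x := by
  have h1 : MDV_T θ η ξ x * MDV_X rho ξ x = ∑ a, ∑ j, ∑ l,
      (η a * ξ j * ξ l) ⊗ₜ[k] (θ a (x j) * rho (x l)) := by
    unfold MDV_T MDV_X
    rw [Finset.sum_mul]
    refine Finset.sum_congr rfl fun a _ => ?_
    rw [Finset.sum_mul_sum]
    refine Finset.sum_congr rfl fun j _ => Finset.sum_congr rfl fun l _ => ?_
    rw [Algebra.TensorProduct.tmul_mul_tmul]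
  have h2 : MDV_X rho ξ x * MDV_T θ η ξ x = ∑ a, ∑ j, ∑ l,
      (η a * ξ j * ξ l) ⊗ₜ[k] (rho (x l) * θ a (x j)) := by
    unfold MDV_T MDV_X
    rw [Finset.mul_sum]
    refine Finset.sum_congr rfl fun a _ => ?_
    rw [Finset.sum_mul_sum, Finset.sum_comm]
    refine Finset.sum_congr rfl fun j _ => Finset.sum_congr rfl fun l _ => ?_
    rw [Algebra.TensorProduct.tmul_mul_tmul, hηξ]
  have h3 : MDV_T θ η ξ x * MDV_X rho ξ x - MDV_X rho ξ x * MDV_T θ η ξ x = ∑ a, ∑ j, ∑ l,
      (η a * ξ j * ξ l) ⊗ₜ[k] (θ a (x j) * rho (x l) - rho (x l) * θ a (x j)) := by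
    rw [h1, h2, ← Finset.sum_sub_distrib]
    refine Finset.sum_congr rfl fun a _ => ?_
    rw [← Finset.sum_sub_distrib]
    refine Finset.sum_congr rfl fun j _ => ?_
    rw [← Finset.sum_sub_distrib]
    refine Finset.sum_congr rfl fun l _ => ?_
    rw [TensorProduct.tmul_sub]
  set Z := MDV_T θ η ξ x * MDV_X rho ξ x - MDV_X rho ξ x * MDV_T θ η ξ x with hZ
  have h4 : Z = -Z := by
    conv_lhs => rw [h3]
    conv_rhs => rw [h3]
    rw [← Finset.sum_neg_distrib]
    refine Finset.sum_congr rfl fun a _ => ?_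
    conv_lhs => rw [Finset.sum_comm]
    rw [← Finset.sum_neg_distrib]
    refine Finset.sum_congr rfl fun j _ => ?_
    rw [← Finset.sum_neg_distrib]
    refine Finset.sum_congr rfl fun l _ => ?_
    have h6 : η a * ξ l * ξ j = -(η a * ξ j * ξ l) := by
      rw [mul_assoc, hξξ l j, mul_neg, mul_assoc]
    rw [MDV_sym rho θ hθ a (x l) (x j), h6, TensorProduct.neg_tmul]
  have h5 : (2 : k) • Z = 0 := by
    rw [two_smul]
    nth_rewrite 1 [h4]
    exact neg_add_cancel Z
  have h6 : Z = 0 := by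
    rcases smul_eq_zero.mp h5 with h | h
    · exact absurd h two_ne_zero
    · exact h
  exact sub_eq_zero.mp h6

private theorem MDV_Tr_comm (hξη : ∀ j a, ξ j * η a = -(η a * ξ j))
    (hθ : ∀ a x y, θ a (x * y) = θ a x * rho y + rho x * θ a y) (x : Fin i → A) (y : A) :
    MDV_T θ η ξ x * MDV_r rho y - MDV_r rho y * MDV_T θ η ξ x =
      MDV_X rho ξ x * MDV_P θ η y + MDV_P θ η y * MDV_X rho ξ x := by
  have h1 : MDV_T θ η ξ x * MDV_r rho y = ∑ a, ∑ j, (η a * ξ j) ⊗ₜ[k] (θ a (x j) * rho y) := by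
    unfold MDV_T MDV_r
    rw [Finset.sum_mul]
    refine Finset.sum_congr rfl fun a _ => ?_
    rw [Finset.sum_mul]
    refine Finset.sum_congr rfl fun j _ => ?_
    rw [Algebra.TensorProduct.tmul_mul_tmul, mul_one]
  have h2 : MDV_r rho y * MDV_T θ η ξ x = ∑ a, ∑ j, (η a * ξ j) ⊗ₜ[k] (rho y * θ a (x j)) := by
    unfold MDV_T MDV_r
    rw [Finset.mul_sum]
    refine Finset.sum_congr rfl fun a _ => ?_
    rw [Finset.mul_sum]
    refine Finset.sum_congr rfl fun j _ => ?_
    rw [Algebra.TensorProduct.tmul_mul_tmul, one_mul]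
  have h3 : MDV_X rho ξ x * MDV_P θ η y =
      ∑ a, ∑ j, -((η a * ξ j) ⊗ₜ[k] (rho (x j) * θ a y)) := by
    unfold MDV_X MDV_P
    rw [Finset.sum_mul_sum, Finset.sum_comm]
    refine Finset.sum_congr rfl fun a _ => Finset.sum_congr rfl fun j _ => ?_
    rw [Algebra.TensorProduct.tmul_mul_tmul, hξη, TensorProduct.neg_tmul]
  have h4 : MDV_P θ η y * MDV_X rho ξ x =
      ∑ a, ∑ j, (η a * ξ j) ⊗ₜ[k] (θ a y * rho (x j)) := by
    unfold MDV_X MDV_P
    rw [Finset.sum_mul_sum]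
    refine Finset.sum_congr rfl fun a _ => Finset.sum_congr rfl fun j _ => ?_
    rw [Algebra.TensorProduct.tmul_mul_tmul]
  rw [h1, h2, h3, h4, ← Finset.sum_sub_distrib, ← Finset.sum_add_distrib]
  refine Finset.sum_congr rfl fun a _ => ?_
  rw [← Finset.sum_sub_distrib, ← Finset.sum_add_distrib]
  refine Finset.sum_congr rfl fun j _ => ?_
  rw [← TensorProduct.tmul_sub, MDV_sym rho θ hθ a (x j) y, TensorProduct.tmul_sub]
  abel

private theorem MDV_P_mul (hθ : ∀ a x y, θ a (x * y) = θ a x * rho y + rho x * θ a y) (u v : A) :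
    (MDV_P θ η (u * v) : Λ ⊗[k] R) =
      MDV_P θ η u * MDV_r rho v + MDV_r rho u * MDV_P θ η v := by
  unfold MDV_P MDV_r
  rw [Finset.sum_mul, Finset.mul_sum, ← Finset.sum_add_distrib]
  refine Finset.sum_congr rfl fun a _ => ?_
  rw [Algebra.TensorProduct.tmul_mul_tmul, Algebra.TensorProduct.tmul_mul_tmul, mul_one, one_mul,
    ← TensorProduct.tmul_add, hθ]

private theorem MDV_r_mul (u v : A) :
    (MDV_r rho u * MDV_r rho v : Λ ⊗[k] R) = MDV_r rho (u * v) := by
  unfold MDV_r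
  rw [Algebra.TensorProduct.tmul_mul_tmul, mul_one, map_mul]

private theorem MDV_T_update (x : Fin i → A) (j₀ : Fin i) (y : A) :
    MDV_T θ η ξ (Function.update x j₀ y) =
      MDV_T θ η ξ (Function.update x j₀ 0) + MDV_P θ η y * (ξ j₀ ⊗ₜ[k] (1 : R)) := by
  unfold MDV_T MDV_P
  rw [Finset.sum_mul, ← Finset.sum_add_distrib]
  refine Finset.sum_congr rfl fun a _ => ?_
  rw [Algebra.TensorProduct.tmul_mul_tmul, mul_one]
  rw [← Finset.sum_erase_add _ _ (Finset.mem_univ j₀),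
    ← Finset.sum_erase_add _ _ (Finset.mem_univ j₀), Function.update_self, Function.update_self,
    map_zero, TensorProduct.tmul_zero, add_zero]
  congr 1
  refine Finset.sum_congr rfl fun j hj => ?_
  have hj' : j ≠ j₀ := Finset.ne_of_mem_erase hj
  rw [Function.update_of_ne hj', Function.update_of_ne hj']

end MD

section top

variable (k : Type*) [Field k] (i : ℕ)

private noncomputable abbrev MDV_eta (a : Fin i) : GrL k (i + i) :=
  ExteriorAlgebra.ι k (Pi.single (Fin.castAdd i a) 1)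

private noncomputable abbrev MDV_xi (j : Fin i) : GrL k (i + i) :=
  ExteriorAlgebra.ι k (Pi.single (Fin.natAdd i j) 1)

private theorem MDV_nonzero :
    ((List.ofFn fun t => MDV_eta k i t).prod * (List.ofFn fun t => MDV_xi k i t).prod) ≠ 0 := by
  obtain ⟨I, _, hI⟩ := GRS_exists k (i + i)
  have h := hI 1
  simp only [Equiv.Perm.coe_one, id_eq, Equiv.Perm.sign_one, Units.val_one, Int.cast_one] at h
  intro h0
  have h1 : (List.ofFn fun t : Fin (i + i) => gre k t) =
      (List.ofFn fun t => MDV_eta k i t) ++ (List.ofFn fun t => MDV_xi k i t) := by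
    rw [List.ofFn_add]
    rfl
  rw [h1, List.prod_append, h0, map_zero] at h
  exact zero_ne_one h

private theorem MDV_ιperm {M : Type*} [AddCommGroup M] [Module k M] (v : Fin i → M)
    (σ : Equiv.Perm (Fin i)) :
    (List.ofFn fun t => ExteriorAlgebra.ι k (v (σ t))).prod =
      ((Equiv.Perm.sign σ : ℤˣ) : ℤ) • (List.ofFn fun t => ExteriorAlgebra.ι k (v t)).prod := by
  have h := AlternatingMap.map_perm (ExteriorAlgebra.ιMulti k i) v σ
  rw [ExteriorAlgebra.ιMulti_apply, ExteriorAlgebra.ιMulti_apply] at h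
  exact h

private theorem MDV_ιzero {M : Type*} [AddCommGroup M] [Module k M] (v : Fin i → M)
    (p : Fin i → Fin i) (hp : ¬ Function.Injective p) :
    (List.ofFn fun t => ExteriorAlgebra.ι k (v (p t))).prod = 0 := by
  unfold Function.Injective at hp
  push Not at hp
  obtain ⟨a, b, hab, hne⟩ := hp
  have h := AlternatingMap.map_eq_zero_of_eq (ExteriorAlgebra.ιMulti k i) (fun t => v (p t))
    (by rw [hab]) hne
  rw [ExteriorAlgebra.ιMulti_apply] at h
  exact h

variable {A R : Type*} [CommRing A] [Algebra k A] [Ring R] [Algebra k R]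

private theorem MDV_E : ∃ ω : GrL k (i + i), ω ≠ 0 ∧ ∀ (θ : Fin i → (A →ₗ[k] R)) (x : Fin i → A),
    (MDV_T θ (MDV_eta k i) (MDV_xi k i) x) ^ i =
      ∑ σ : Equiv.Perm (Fin i), ∑ π : Equiv.Perm (Fin i),
        (((Equiv.Perm.sign σ * Equiv.Perm.sign π : ℤˣ) : ℤ)) •
          (ω ⊗ₜ[k] (List.ofFn fun t => θ (σ t) (x (π t))).prod) := by
  obtain ⟨ε, hε, hs⟩ := MDV_shuffle (k := k) (M := Fin (i + i) → k) i
  set H0 := (List.ofFn fun t => MDV_eta k i t).prod with hH0
  set X0 := (List.ofFn fun t => MDV_xi k i t).prod with hX0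
  refine ⟨ε • (H0 * X0), smul_ne_zero hε (MDV_nonzero k i), fun θ x => ?_⟩
  have h1 : MDV_T θ (MDV_eta k i) (MDV_xi k i) x = ∑ c : Fin i × Fin i,
      (MDV_eta k i c.1 * MDV_xi k i c.2) ⊗ₜ[k] θ c.1 (x c.2) := by
    rw [Fintype.sum_prod_type]
    rfl
  have h2 : (MDV_T θ (MDV_eta k i) (MDV_xi k i) x) ^ i = ∑ p : Fin i → Fin i × Fin i,
      (List.ofFn fun t => (MDV_eta k i (p t).1 * MDV_xi k i (p t).2)).prod ⊗ₜ[k]
        (List.ofFn fun t => θ (p t).1 (x (p t).2)).prod := by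
    have h3 := prod_ofFn_sum i (fun (_ : Fin i) (c : Fin i × Fin i) =>
      ((MDV_eta k i c.1 * MDV_xi k i c.2) ⊗ₜ[k] θ c.1 (x c.2) : GrL k (i + i) ⊗[k] R))
    rw [List.ofFn_const, List.prod_replicate, ← h1] at h3
    rw [h3]
    refine Finset.sum_congr rfl fun p _ => ?_
    exact MDV_tprod i _ _
  rw [h2]
  rw [← (Equiv.arrowProdEquivProdArrow (Fin i) (fun _ => Fin i) (fun _ => Fin i)).symm.sum_comp,
    Fintype.sum_prod_type]
  rw [MDV_sum_perm]
  · refine Finset.sum_congr rfl fun σ _ => ?_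
    rw [MDV_sum_perm]
    · refine Finset.sum_congr rfl fun π _ => ?_
      have h4 := hs (fun t => (Pi.single (Fin.castAdd i (σ t)) 1 : Fin (i + i) → k))
        (fun t => (Pi.single (Fin.natAdd i (π t)) 1 : Fin (i + i) → k))
      have h5 := MDV_ιperm k i (fun t => (Pi.single (Fin.castAdd i t) 1 : Fin (i + i) → k)) σ
      have h6 := MDV_ιperm k i (fun t => (Pi.single (Fin.natAdd i t) 1 : Fin (i + i) → k)) π
      rw [h5, h6] at h4
      simp only [Equiv.arrowProdEquivProdArrow]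
      refine (congrArg (fun y => y ⊗ₜ[k] (List.ofFn fun t => θ (σ t) (x (π t))).prod) h4).trans ?_
      change (ε • (((Equiv.Perm.sign σ : ℤˣ) : ℤ) • H0 * ((Equiv.Perm.sign π : ℤˣ) : ℤ) • X0)) ⊗ₜ[k]
        (List.ofFn fun t => θ (σ t) (x (π t))).prod = _
      clear_value H0 X0
      rcases Int.units_eq_one_or (Equiv.Perm.sign σ) with e1 | e1 <;>
        rcases Int.units_eq_one_or (Equiv.Perm.sign π) with e2 | e2 <;>
        rw [e1, e2] <;> simp [TensorProduct.neg_tmul]
    · intro q hq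
      have h4 := hs (fun t => (Pi.single (Fin.castAdd i (σ t)) 1 : Fin (i + i) → k))
        (fun t => (Pi.single (Fin.natAdd i (q t)) 1 : Fin (i + i) → k))
      have h6 := MDV_ιzero k i (fun t => (Pi.single (Fin.natAdd i t) 1 : Fin (i + i) → k)) q hq
      rw [h6, mul_zero, smul_zero] at h4
      refine (congrArg (fun y => y ⊗ₜ[k] (List.ofFn fun t => θ (σ t) (x (q t))).prod) h4).trans ?_
      exact TensorProduct.zero_tmul _ _
  · intro p hp
    refine Finset.sum_eq_zero fun q _ => ?_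
    have h4 := hs (fun t => (Pi.single (Fin.castAdd i (p t)) 1 : Fin (i + i) → k))
      (fun t => (Pi.single (Fin.natAdd i (q t)) 1 : Fin (i + i) → k))
    have h6 := MDV_ιzero k i (fun t => (Pi.single (Fin.castAdd i t) 1 : Fin (i + i) → k)) p hp
    rw [h6, zero_mul, smul_zero] at h4
    refine (congrArg (fun y => y ⊗ₜ[k] (List.ofFn fun t => θ (p t) (x (q t))).prod) h4).trans ?_
    exact TensorProduct.zero_tmul _ _

end top

section

variable {k A R : Type*} [Field k] [CharZero k] [CommRing A] [Algebra k A] [Ring R] [Algebra k R]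
  (tr : R →ₗ[k] k) (rho : A →ₐ[k] R) {i : ℕ} (θ : Fin i → (A →ₗ[k] R))

private noncomputable def MDV_M (a : A) (σ : Equiv.Perm (Fin i)) :
    MultilinearMap k (fun _ : Fin i => A) k :=
  (tr ∘ₗ LinearMap.mulLeft k (rho a)).compMultilinearMap
    ((MultilinearMap.mkPiAlgebraFin k i R).compLinearMap fun t => θ (σ t))

omit [CharZero k] in
private theorem MDV_M_apply (a : A) (σ : Equiv.Perm (Fin i)) (x : Fin i → A) :
    MDV_M tr rho θ a σ x = tr (rho a * (List.ofFn fun t => θ (σ t) (x t)).prod) := by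
  simp [MDV_M]

omit [CharZero k] in
private theorem MDV_Psi (a : A) (x : Fin i → A) : Psi tr rho θ a x =
    ∑ σ : Equiv.Perm (Fin i), ((Equiv.Perm.sign σ : ℤˣ) : ℤ) •
      MultilinearMap.alternatization (MDV_M tr rho θ a σ) x := by
  unfold Psi
  refine Finset.sum_congr rfl fun σ _ => ?_
  rw [MultilinearMap.alternatization_apply, Finset.smul_sum]
  refine Finset.sum_congr rfl fun π _ => ?_
  rw [Units.val_mul, mul_smul, MultilinearMap.domDomCongr_apply, MDV_M_apply]
  rfl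

theorem Psi_add_left (a b : A) (x : Fin i → A) :
    Psi tr rho θ (a + b) x = Psi tr rho θ a x + Psi tr rho θ b x := by
  unfold Psi
  rw [← Finset.sum_add_distrib]
  refine Finset.sum_congr rfl fun σ _ => ?_
  rw [← Finset.sum_add_distrib]
  refine Finset.sum_congr rfl fun π _ => ?_
  rw [map_add, add_mul, map_add, smul_add]

theorem Psi_smul_left (c : k) (a : A) (x : Fin i → A) :
    Psi tr rho θ (c • a) x = c * Psi tr rho θ a x := by
  unfold Psi
  rw [Finset.mul_sum]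
  refine Finset.sum_congr rfl fun σ _ => ?_
  rw [Finset.mul_sum]
  refine Finset.sum_congr rfl fun π _ => ?_
  rw [map_smul, smul_mul_assoc, map_smul, smul_eq_mul, mul_smul_comm]

theorem Psi_ker (a : A) (ha : rho a = 0) (x : Fin i → A) : Psi tr rho θ a x = 0 := by
  unfold Psi
  refine Finset.sum_eq_zero fun σ _ => Finset.sum_eq_zero fun π _ => ?_
  rw [ha, zero_mul, map_zero, smul_zero]

theorem Psi_add (a : A) (x : Fin i → A) (j : Fin i) (u v : A) :
    Psi tr rho θ a (Function.update x j (u + v)) =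
      Psi tr rho θ a (Function.update x j u) + Psi tr rho θ a (Function.update x j v) := by
  rw [MDV_Psi, MDV_Psi, MDV_Psi, ← Finset.sum_add_distrib]
  refine Finset.sum_congr rfl fun σ _ => ?_
  rw [AlternatingMap.map_update_add, smul_add]

theorem Psi_smul (a : A) (x : Fin i → A) (j : Fin i) (c : k) (u : A) :
    Psi tr rho θ a (Function.update x j (c • u)) =
      c * Psi tr rho θ a (Function.update x j u) := by
  rw [MDV_Psi, MDV_Psi, Finset.mul_sum]
  refine Finset.sum_congr rfl fun σ _ => ?_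
  rw [AlternatingMap.map_update_smul, smul_eq_mul, mul_smul_comm]

theorem Psi_alt (a : A) (x : Fin i → A) (j l : Fin i) (hjl : j ≠ l) (hx : x j = x l) :
    Psi tr rho θ a x = 0 := by
  rw [MDV_Psi]
  refine Finset.sum_eq_zero fun σ _ => ?_
  rw [AlternatingMap.map_eq_zero_of_eq _ _ hx hjl, smul_zero]

omit [CharZero k] in
private theorem MDV_TrE (ω : GrL k (i + i))
    (hω : ∀ (θ : Fin i → (A →ₗ[k] R)) (x : Fin i → A),
      (MDV_T θ (MDV_eta k i) (MDV_xi k i) x) ^ i =
      ∑ σ : Equiv.Perm (Fin i), ∑ π : Equiv.Perm (Fin i),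
        (((Equiv.Perm.sign σ * Equiv.Perm.sign π : ℤˣ) : ℤ)) •
          (ω ⊗ₜ[k] (List.ofFn fun t => θ (σ t) (x (π t))).prod))
    (a : A) (x : Fin i → A) :
    MDV_Tr tr (MDV_r rho a * (MDV_T θ (MDV_eta k i) (MDV_xi k i) x) ^ i) =
      Psi tr rho θ a x • ω := by
  rw [hω, Finset.mul_sum, map_sum, Psi, Finset.sum_smul]
  refine Finset.sum_congr rfl fun σ _ => ?_
  rw [Finset.mul_sum, map_sum, Finset.sum_smul]
  refine Finset.sum_congr rfl fun π _ => ?_
  rw [mul_smul_comm, map_zsmul, MDV_r, Algebra.TensorProduct.tmul_mul_tmul, one_mul, MDV_Tr_tmul,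
    smul_assoc]

theorem MDV (htr : ∀ f g, tr (f * g) = tr (g * f))
    (hθ : ∀ a x y, θ a (x * y) = θ a x * rho y + rho x * θ a y)
    (a₀ : A) (x : Fin i → A) (j₀ : Fin i) (u v : A) :
    Psi tr rho θ a₀ (Function.update x j₀ (u * v)) =
      Psi tr rho θ (a₀ * u) (Function.update x j₀ v) +
      Psi tr rho θ (a₀ * v) (Function.update x j₀ u) := by
  obtain ⟨ω, hω0, hω⟩ := MDV_E (A := A) (R := R) k i
  set η := MDV_eta k i with hη
  set ξ := MDV_xi k i with hξ
  have hηξ : ∀ a j b, b * (η a * ξ j) = (η a * ξ j) * b := fun a j b => MDV_two _ _ b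
  have hηη : ∀ a c b, b * (η a * η c) = (η a * η c) * b := fun a c b => MDV_two _ _ b
  have hξξ : ∀ j l, ξ j * ξ l = -(ξ l * ξ j) := fun j l => MDV_anti _ _
  have hξη : ∀ j a, ξ j * η a = -(η a * ξ j) := fun j a => MDV_anti _ _
  have hξ0 : ∀ j, ξ j * ξ j = 0 := fun j => ExteriorAlgebra.ι_sq_zero _
  set x0 := Function.update x j₀ 0 with hx0
  set T := MDV_T θ η ξ x0 with hT
  set X := MDV_X rho ξ x0 with hX
  set Ξ : GrL k (i + i) ⊗[k] R := ξ j₀ ⊗ₜ[k] (1 : R) with hΞ
  have hTi : T ^ i = 0 := by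
    rw [hT, hω]
    refine Finset.sum_eq_zero fun σ _ => Finset.sum_eq_zero fun π _ => ?_
    have h0 : (List.ofFn fun t => θ (σ t) (x0 (π t))).prod = 0 := by
      apply List.prod_eq_zero
      rw [List.mem_ofFn]
      refine ⟨π.symm j₀, ?_⟩
      simp [hx0]
    rw [h0, TensorProduct.tmul_zero, smul_zero]
  have hTeven : T ∈ MDV_even k R (GrL k (i + i)) := MDV_T_even θ η ξ hηξ x0
  have hΞT : Ξ * T = T * Ξ := by
    rw [hΞ, hT]
    unfold MDV_T
    rw [Finset.mul_sum, Finset.sum_mul]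
    refine Finset.sum_congr rfl fun a _ => ?_
    rw [Finset.mul_sum, Finset.sum_mul]
    refine Finset.sum_congr rfl fun j _ => ?_
    rw [Algebra.TensorProduct.tmul_mul_tmul, Algebra.TensorProduct.tmul_mul_tmul, hηξ, one_mul,
      mul_one]
  have hΞTs : ∀ s, Ξ * T ^ s = T ^ s * Ξ := fun s =>
    ((show Commute Ξ T from hΞT).pow_right s).eq
  have hΞP : ∀ y, Ξ * MDV_P θ η y = -(MDV_P θ η y * Ξ) := by
    intro y
    rw [hΞ]
    unfold MDV_P
    rw [Finset.mul_sum, Finset.sum_mul, ← Finset.sum_neg_distrib]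
    refine Finset.sum_congr rfl fun a _ => ?_
    rw [Algebra.TensorProduct.tmul_mul_tmul, Algebra.TensorProduct.tmul_mul_tmul, hξη,
      TensorProduct.neg_tmul, one_mul, mul_one]
  have hΞΞ : Ξ * Ξ = 0 := by
    rw [hΞ, Algebra.TensorProduct.tmul_mul_tmul, hξ0, TensorProduct.zero_tmul]
  -- the expansion
  have hexp : ∀ a y, Psi tr rho θ a (Function.update x j₀ y) • ω =
      (∑ r ∈ Finset.range i, MDV_Tr tr (MDV_r rho a * T ^ r * MDV_P θ η y * T ^ (i - 1 - r))) *
        ξ j₀ := by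
    intro a y
    rw [← MDV_TrE tr rho θ ω hω, MDV_T_update, ← hx0, ← hη, ← hξ, ← hT, ← hΞ]
    have hW : ∀ s, (MDV_P θ η y * Ξ) * T ^ s * (MDV_P θ η y * Ξ) = 0 := by
      intro s
      calc (MDV_P θ η y * Ξ) * T ^ s * (MDV_P θ η y * Ξ) =
          MDV_P θ η y * (Ξ * T ^ s) * MDV_P θ η y * Ξ := by simp only [mul_assoc]
        _ = MDV_P θ η y * T ^ s * (Ξ * MDV_P θ η y) * Ξ := by
            rw [hΞTs]; simp only [mul_assoc]
        _ = -(MDV_P θ η y * T ^ s * MDV_P θ η y * (Ξ * Ξ)) := by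
            rw [hΞP]; simp only [mul_assoc, neg_mul, mul_neg]
        _ = 0 := by rw [hΞΞ, mul_zero, neg_zero]
    rw [MDV_pow T (MDV_P θ η y * Ξ) hW, hTi, zero_add, Finset.mul_sum, map_sum, Finset.sum_mul]
    refine Finset.sum_congr rfl fun r _ => ?_
    have h1 : MDV_r rho a * (T ^ r * (MDV_P θ η y * Ξ) * T ^ (i - 1 - r)) =
        (MDV_r rho a * T ^ r * MDV_P θ η y * T ^ (i - 1 - r)) * Ξ := by
      calc MDV_r rho a * (T ^ r * (MDV_P θ η y * Ξ) * T ^ (i - 1 - r)) =
          MDV_r rho a * T ^ r * MDV_P θ η y * (Ξ * T ^ (i - 1 - r)) := by simp only [mul_assoc]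
        _ = _ := by rw [hΞTs]; simp only [mul_assoc]
    rw [h1]
    generalize MDV_r rho a * T ^ r * MDV_P θ η y * T ^ (i - 1 - r) = Z
    rw [hΞ]
    induction Z using TensorProduct.induction_on with
    | zero => simp
    | tmul m s =>
      rw [Algebra.TensorProduct.tmul_mul_tmul, MDV_Tr_tmul, MDV_Tr_tmul, mul_one, smul_mul_assoc]
    | add b c hb hc => rw [add_mul, map_add, map_add, add_mul, hb, hc]
  have hi : i - 1 + 1 = i := Nat.sub_add_cancel (Nat.one_le_of_lt j₀.2)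
  have key := MDA (MDV_Tr tr).toAddMonoidHom T X (MDV_r rho a₀) (MDV_r rho u) (MDV_r rho v)
    (MDV_P θ η u) (MDV_P θ η v)
    (MDV_TX rho θ η ξ hηξ hξξ hθ x0)
    (by
      rw [hX]
      unfold MDV_X MDV_r
      rw [Finset.mul_sum, Finset.sum_mul]
      refine Finset.sum_congr rfl fun j _ => ?_
      rw [Algebra.TensorProduct.tmul_mul_tmul, Algebra.TensorProduct.tmul_mul_tmul, one_mul,
        mul_one, ← map_mul, ← map_mul, mul_comm])
    (by rw [MDV_r_mul, MDV_r_mul, mul_comm]) (by rw [MDV_r_mul, MDV_r_mul, mul_comm])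
    (by rw [MDV_r_mul, MDV_r_mul, mul_comm])
    (MDV_Tr_comm rho θ η ξ hξη hθ x0 u) (MDV_Tr_comm rho θ η ξ hξη hθ x0 v)
    (fun Z => (MDV_even_tr tr htr (MDV_r_even rho v) Z).symm)
    (fun s s' r => by
      refine MDV_even_tr tr htr ?_ X
      have h1 : MDV_r rho a₀ * T ^ s * MDV_P θ η u * T ^ s' * MDV_P θ η v * T ^ r =
          MDV_r rho a₀ * T ^ s * (MDV_P θ η u * T ^ s' * MDV_P θ η v) * T ^ r := by
        simp only [mul_assoc]
      rw [h1]
      exact MDV_even_mul (MDV_even_mul (MDV_even_mul (MDV_r_even rho a₀) (MDV_even_pow hTeven s))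
        (MDV_PZP θ η hηη u v (MDV_even_pow hTeven s'))) (MDV_even_pow hTeven r))
    (i - 1)
  rw [hi, Finset.sum_sub_distrib, Finset.sum_sub_distrib] at key
  simp only [LinearMap.toAddMonoidHom_coe, MDV_r_mul] at key
  have e1 := hexp a₀ (u * v)
  have e2 := hexp (a₀ * u) v
  have e3 := hexp (a₀ * v) u
  rw [MDV_P_mul rho θ η hθ u v] at e1
  have h0 : (Psi tr rho θ a₀ (Function.update x j₀ (u * v)) -
      Psi tr rho θ (a₀ * u) (Function.update x j₀ v) -
      Psi tr rho θ (a₀ * v) (Function.update x j₀ u)) • ω = 0 := by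
    rw [sub_smul, sub_smul, e1, e2, e3, ← sub_mul, ← sub_mul]
    rw [key, zero_mul]
  rcases smul_eq_zero.mp h0 with h | h
  · rw [sub_sub, sub_eq_zero] at h
    exact h
  · exact absurd h hω0

end

end NCG
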