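import Pool.Agent.NCG.MLL
import Pool.Agent.NCG.MDV

/-!
# MDL: `Psi` as a functional on differential forms

Let `U : UnivDer k A Ω d 𝔪` and `rho` zero on a power of `𝔪`.  There is an additive map
`L : ExteriorAlgebra A Ω → k` with `L (a • ι (d (x 0)) ⋯ ι (d (x (i-1)))) = Psi tr rho θ a x` and
`L (c • y) = 0` whenever `rho c = 0`.

Proof.  Let `W` be the `k`-vector space of the `k`-linear maps `f : A → k` which vanish on `ker rho`, an
`A`-module by `(a • f) b = f (a * b)` (define it as a type synonym of a subtype, with its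
instances; universe `u`).  It is killed by `ker rho`, hence by a power of `𝔪`.  Put
`P x = (a ↦ Psi tr rho θ a x) ∈ W` (`Psi_add_left`, `Psi_smul_left`, `Psi_ker`).  By `Psi_add`, `Psi_smul`,
`MDV` (`Psi a (.. u v) = Psi (a u) (.. v) + Psi (a v) (.. u)`, i.e.
`P (.. u v) = u • P (.. v) + v • P (.. u)`) and `Psi_alt` the hypotheses of `MLL_alt` hold.  Let `F` be the
linear map of `MLL_alt` and `L y = (F y) 1`.  Then `L (a • ∏) = (a • P x) 1 = Psi a x` and
`L (c • y) = (c • F y) 1 = (F y) c = 0` if `rho c = 0`.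
-/

open scoped BigOperators

namespace NCG

universe u

/-- `k`-linear forms on `A`, with the `A`-module structure `(a • f) b = f (a * b)` -/
def MDLW (k A : Type u) [Field k] [CommRing A] [Algebra k A] : Type u := A →ₗ[k] k

section MDLW

variable {k A : Type u} [Field k] [CommRing A] [Algebra k A]

instance MDLW_addCommGroup : AddCommGroup (MDLW k A) := inferInstanceAs (AddCommGroup (A →ₗ[k] k))

instance MDLW_modulek : Module k (MDLW k A) := inferInstanceAs (Module k (A →ₗ[k] k))

/-- evaluation -/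
def MDLW.ev (f : MDLW k A) : A →ₗ[k] k := f

theorem MDLW_ext {f g : MDLW k A} (h : ∀ a, f.ev a = g.ev a) : f = g := LinearMap.ext h

theorem MDLW_ev_add (f g : MDLW k A) (a : A) : (f + g).ev a = f.ev a + g.ev a := rfl

theorem MDLW_ev_zero (a : A) : (0 : MDLW k A).ev a = 0 := rfl

theorem MDLW_ev_smul (c : k) (f : MDLW k A) (a : A) : (c • f).ev a = c * f.ev a := rfl

instance MDLW_smulA : SMul A (MDLW k A) :=
  ⟨fun a f => (f.ev ∘ₗ LinearMap.mulLeft k a : A →ₗ[k] k)⟩

theorem MDLW_ev_smulA (a : A) (f : MDLW k A) (b : A) : (a • f).ev b = f.ev (a * b) := rfl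

instance MDLW_moduleA : Module A (MDLW k A) where
  one_smul f := MDLW_ext fun b => by rw [MDLW_ev_smulA, one_mul]
  mul_smul a a' f := MDLW_ext fun b => by
    rw [MDLW_ev_smulA, MDLW_ev_smulA, MDLW_ev_smulA, ← mul_assoc, mul_comm a' a]
  smul_zero a := rfl
  smul_add a f g := rfl
  add_smul a a' f := MDLW_ext fun b => by
    rw [MDLW_ev_smulA, MDLW_ev_add, MDLW_ev_smulA, MDLW_ev_smulA, add_mul, map_add]
  zero_smul f := MDLW_ext fun b => by
    rw [MDLW_ev_smulA, zero_mul, map_zero, MDLW_ev_zero]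

instance MDLW_tower : IsScalarTower k A (MDLW k A) :=
  ⟨fun c a f => MDLW_ext fun b => by
    rw [MDLW_ev_smulA, MDLW_ev_smul, MDLW_ev_smulA, smul_mul_assoc, map_smul, smul_eq_mul]⟩

/-- the linear forms vanishing on the kernel of `rho` -/
def MDLV {R : Type*} [Ring R] [Algebra k R] (rho : A →ₐ[k] R) : Submodule A (MDLW k A) where
  carrier := {f | ∀ a, rho a = 0 → f.ev a = 0}
  zero_mem' := fun _ _ => rfl
  add_mem' := fun {f g} hf hg a ha => by rw [MDLW_ev_add, hf a ha, hg a ha, add_zero]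
  smul_mem' := fun c f hf a ha => by
    rw [MDLW_ev_smulA]
    apply hf
    rw [map_mul, ha, mul_zero]

end MDLW

variable {k A Ω : Type u} [Field k] [CharZero k] [CommRing A] [Algebra k A] [AddCommGroup Ω]
  [Module k Ω] [Module A Ω] [IsScalarTower k A Ω] {d : Derivation k A Ω} {𝔪 : Ideal A}
  {R : Type*} [Ring R] [Algebra k R]

theorem MDL (U : UnivDer k A Ω d 𝔪) (tr : R →ₗ[k] k) (rho : A →ₐ[k] R) {i : ℕ}
    (θ : Fin i → (A →ₗ[k] R)) (htr : ∀ f g, tr (f * g) = tr (g * f))
    (hθ : ∀ a x y, θ a (x * y) = θ a x * rho y + rho x * θ a y)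
    (hN : ∃ N, ∀ a ∈ 𝔪 ^ N, rho a = 0) :
    ∃ L : ExteriorAlgebra A Ω →+ k,
      (∀ (a : A) (x : Fin i → A),
        L (a • (List.ofFn fun j => ExteriorAlgebra.ι A (d (x j))).prod) = Psi tr rho θ a x) ∧
      (∀ c : A, rho c = 0 → ∀ y, L (c • y) = 0) := by
  let P₀ : (Fin i → A) → MDLW k A := fun x =>
    ({ toFun := fun a => Psi tr rho θ a x
       map_add' := fun a b => Psi_add_left tr rho θ a b x
       map_smul' := fun c a => Psi_smul_left tr rho θ c a x } : A →ₗ[k] k)
  have hP₀ : ∀ x a, (P₀ x).ev a = Psi tr rho θ a x := fun _ _ => rfl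
  let P : (Fin i → A) → MDLV rho := fun x => ⟨P₀ x, fun a ha => Psi_ker tr rho θ a ha x⟩
  have hPc : ∀ x, ((P x : MDLV rho) : MDLW k A) = P₀ x := fun _ => rfl
  have hV : ∃ N, ∀ a ∈ 𝔪 ^ N, ∀ v : MDLV rho, a • v = 0 := by
    obtain ⟨N, hN⟩ := hN
    refine ⟨N, ?_⟩
    intro a ha v
    apply Subtype.ext
    apply MDLW_ext
    intro b
    show ((a • v : MDLV rho) : MDLW k A).ev b = 0
    rw [Submodule.coe_smul, MDLW_ev_smulA]
    apply v.2
    rw [map_mul, hN a ha, zero_mul]
  obtain ⟨F, hF⟩ := MLL_alt (V := MDLV rho) U hV i P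
    (by
      intro x j u v
      apply Subtype.ext
      apply MDLW_ext
      intro b
      rw [Submodule.coe_add, MDLW_ev_add, hPc, hPc, hPc, hP₀, hP₀, hP₀]
      exact Psi_add tr rho θ b x j u v)
    (by
      intro x j c u
      apply Subtype.ext
      apply MDLW_ext
      intro b
      rw [Submodule.coe_smul_of_tower, MDLW_ev_smul, hPc, hPc, hP₀, hP₀]
      exact Psi_smul tr rho θ b x j c u)
    (by
      intro x j u v
      apply Subtype.ext
      apply MDLW_ext
      intro b
      rw [Submodule.coe_add, Submodule.coe_smul, Submodule.coe_smul, MDLW_ev_add,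
        MDLW_ev_smulA, MDLW_ev_smulA, hPc, hPc, hPc, hP₀, hP₀, hP₀, mul_comm u b, mul_comm v b]
      exact MDV tr rho θ htr hθ b x j u v)
    (by
      intro x j l hjl hx
      apply Subtype.ext
      apply MDLW_ext
      intro b
      rw [hPc, hP₀]
      exact Psi_alt tr rho θ b x j l hjl hx)
  let L : ExteriorAlgebra A Ω →+ k :=
    { toFun := fun y => ((F y : MDLV rho) : MDLW k A).ev 1
      map_zero' := by
        rw [map_zero]
        rfl
      map_add' := by
        intro y z
        rw [map_add]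
        rfl }
  have hL : ∀ (c : A) y, L (c • y) = ((F y : MDLV rho) : MDLW k A).ev c := by
    intro c y
    show ((F (c • y) : MDLV rho) : MDLW k A).ev 1 = _
    rw [map_smul, Submodule.coe_smul, MDLW_ev_smulA, mul_one]
  refine ⟨L, ?_, ?_⟩
  · intro a x
    rw [hL, hF, hPc, hP₀]
  · intro c hc y
    rw [hL]
    exact (F y).2 c hc

end NCG
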