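import Pool.Agent.NCG.KDef

/-!
# WRB: basic facts on weakly regular sequences `WReg z r N`

Everything is elementary.

* `mem_Iz_smul`: by definition `Iz z l = span (z '' {j | j < l})`; use
  `Submodule.span_smul_eq`/`Submodule.mem_ideal_smul_span_iff_exists_sum` or induction with
  `Submodule.smul_induction_on` for `→` and `Submodule.sum_mem` for `←`.
* `WReg_iff`: `RingTheory.Sequence.isWeaklyRegular_iff_Fin` (or the definition of
  `IsWeaklyRegular`); note `Ideal.ofList ((List.range r).map z |>.take j) = Iz z j`.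
* `WReg_shift`: `RingTheory.Sequence.isWeaklyRegular_append_iff'` after `WReg_iff`, or directly:
  for a submodule `W = Iz z l • ⊤`, `x mod W ∈ Iz z' j • ⊤` (in `N ⧸ W`) iff `x ∈ Iz z (l + j) • ⊤`
  where `z' j = z (l + j)`.
* `WReg_free`: `E ≃ (κ → A)` with `κ` finite, so `E ⧸ 𝔞 E ≃ (κ → A ⧸ 𝔞)`; use `WReg_pi` and
  `WReg_congr`.
-/

open scoped BigOperators

namespace NCG

universe u v w

variable {A : Type u} [CommRing A] {N : Type v} [AddCommGroup N] [Module A N]

theorem mem_Iz_smul (z : ℕ → A) (l : ℕ) (W : Submodule A N) (x : N) :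
    x ∈ Iz z l • W ↔ ∃ e : ℕ → N, (∀ j, e j ∈ W) ∧ x = ∑ j ∈ Finset.range l, z j • e j := by
  constructor
  · intro hx
    refine Submodule.smul_induction_on hx ?_ ?_
    · intro r hr n hn
      unfold Iz at hr
      induction hr using Submodule.span_induction with
      | mem a ha =>
        obtain ⟨j, hj, rfl⟩ := ha
        refine ⟨fun i => if i = j then n else 0, ?_, ?_⟩
        · intro i
          show (if i = j then n else 0) ∈ W
          split_ifs
          · exact hn
          · exact W.zero_mem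
        · rw [Finset.sum_eq_single j]
          · simp
          · intro b _ hb
            simp [hb]
          · intro hb
            exact absurd (Finset.mem_range.2 hj) hb
      | zero => exact ⟨0, fun _ => W.zero_mem, by simp⟩
      | add a b _ _ iha ihb =>
        obtain ⟨e, he, h1⟩ := iha
        obtain ⟨f, hf, h2⟩ := ihb
        refine ⟨e + f, fun j => W.add_mem (he j) (hf j), ?_⟩
        rw [add_smul, h1, h2, ← Finset.sum_add_distrib]
        exact Finset.sum_congr rfl fun j _ => by simp [smul_add]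
      | smul c a _ ih =>
        obtain ⟨e, he, h1⟩ := ih
        refine ⟨c • e, fun j => W.smul_mem c (he j), ?_⟩
        rw [smul_assoc, h1, Finset.smul_sum]
        exact Finset.sum_congr rfl fun j _ => by
          rw [Pi.smul_apply, smul_comm]
    · rintro x y ⟨e, he, rfl⟩ ⟨f, hf, rfl⟩
      refine ⟨e + f, fun j => W.add_mem (he j) (hf j), ?_⟩
      rw [← Finset.sum_add_distrib]
      exact Finset.sum_congr rfl fun j _ => by simp [smul_add]
  · rintro ⟨e, he, rfl⟩
    exact Submodule.sum_mem _ fun j hj => Submodule.smul_mem_smul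
      (Ideal.subset_span ⟨j, Finset.mem_range.1 hj, rfl⟩) (he j)

theorem mem_Iz_top (z : ℕ → A) (l : ℕ) (x : N) :
    x ∈ Iz z l • (⊤ : Submodule A N) ↔ ∃ e : ℕ → N, x = ∑ j ∈ Finset.range l, z j • e j := by
  rw [mem_Iz_smul]
  exact ⟨fun ⟨e, _, h⟩ => ⟨e, h⟩, fun ⟨e, h⟩ => ⟨e, fun _ => Submodule.mem_top, h⟩⟩

theorem mem_Iz (z : ℕ → A) (l : ℕ) (a : A) :
    a ∈ Iz z l ↔ ∃ e : ℕ → A, a = ∑ j ∈ Finset.range l, z j * e j := by
  have h := mem_Iz_top (N := A) z l a
  rw [smul_eq_mul, Ideal.mul_top] at h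
  exact h

theorem Iz_mono (z : ℕ → A) {l l' : ℕ} (h : l ≤ l') : Iz z l ≤ Iz z l' :=
  Ideal.span_mono (Set.image_mono fun _ hj => lt_of_lt_of_le hj h)

theorem Iz_self (z : ℕ → A) {j l : ℕ} (h : j < l) : z j ∈ Iz z l :=
  Ideal.subset_span ⟨j, h, rfl⟩

theorem Iz_zero (z : ℕ → A) : Iz z 0 = ⊥ := by
  unfold Iz
  have h : {j : ℕ | j < 0} = ∅ := by
    ext j
    simp
  rw [h, Set.image_empty, Ideal.span_empty]

theorem Iz_congr {z z' : ℕ → A} {l : ℕ} (h : ∀ j < l, z j = z' j) : Iz z l = Iz z' l := by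
  unfold Iz
  congr 1
  exact Set.image_congr fun j hj => h j hj

private theorem wrb_ofList (z : ℕ → A) (l : ℕ) : Ideal.ofList ((List.range l).map z) = Iz z l := by
  unfold Ideal.ofList Iz
  congr 1
  ext a
  simp

theorem WReg_iff (z : ℕ → A) (r : ℕ) :
    WReg z r N ↔ RingTheory.Sequence.IsWeaklyRegular N ((List.range r).map z) := by
  rw [RingTheory.Sequence.isWeaklyRegular_iff]
  unfold WReg
  have hlen : ((List.range r).map z).length = r := by simp
  have htake : ∀ i < r, ((List.range r).map z).take i = (List.range i).map z := by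
    intro i hi
    rw [← List.map_take, List.take_range, min_eq_left hi.le]
  constructor
  · intro h i hi
    have hi' : i < r := by rwa [hlen] at hi
    rw [isSMulRegular_quotient_iff_mem_of_smul_mem, htake i hi', wrb_ofList]
    simpa using h i hi'
  · intro h i hi
    have h1 := h i (by rwa [hlen])
    rw [isSMulRegular_quotient_iff_mem_of_smul_mem, htake i hi, wrb_ofList] at h1
    simpa using h1

theorem WReg.mono {z : ℕ → A} {r r' : ℕ} (h : WReg z r N) (hr : r' ≤ r) : WReg z r' N :=
  fun j hj x hx => h j (lt_of_lt_of_le hj hr) x hx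

theorem WReg_zero_seq (z : ℕ → A) : WReg z 0 N := fun _ hj => absurd hj (Nat.not_lt_zero _)

theorem WReg_seq_congr {z z' : ℕ → A} {r : ℕ} (h : ∀ j < r, z j = z' j) (hz : WReg z r N) :
    WReg z' r N := by
  intro j hj x hx
  rw [← Iz_congr (fun i hi => h i (hi.trans hj)), ← h j hj] at hx
  rw [← Iz_congr (fun i hi => h i (hi.trans hj))]
  exact hz j hj x hx

theorem WReg_congr {N' : Type w} [AddCommGroup N'] [Module A N'] (e : N ≃ₗ[A] N') {z : ℕ → A}
    {r : ℕ} (h : WReg z r N) : WReg z r N' := by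
  intro j hj x hx
  have h1 : e.symm x ∈ Iz z j • (⊤ : Submodule A N) := by
    apply h j hj
    obtain ⟨f, hf⟩ := (mem_Iz_top z j _).1 hx
    refine (mem_Iz_top z j _).2 ⟨fun i => e.symm (f i), ?_⟩
    rw [← map_smul, hf, map_sum]
    exact Finset.sum_congr rfl fun i _ => by rw [map_smul]
  obtain ⟨f, hf⟩ := (mem_Iz_top z j _).1 h1
  refine (mem_Iz_top z j _).2 ⟨fun i => e (f i), ?_⟩
  have h2 : x = e (e.symm x) := by simp
  rw [h2, hf, map_sum]
  exact Finset.sum_congr rfl fun i _ => by rw [map_smul]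

theorem WReg_pi {z : ℕ → A} {r : ℕ} (h : WReg z r N) (κ : Type w) [Finite κ] :
    WReg z r (κ → N) := by
  intro j hj x hx
  obtain ⟨e, he⟩ := (mem_Iz_top z j _).1 hx
  have h1 : ∀ i, ∃ f : ℕ → N, x i = ∑ l ∈ Finset.range j, z l • f l := by
    intro i
    apply (mem_Iz_top z j _).1
    apply h j hj
    refine (mem_Iz_top z j _).2 ⟨fun l => e l i, ?_⟩
    have h2 := congrFun he i
    simpa using h2
  choose f hf using h1
  refine (mem_Iz_top z j _).2 ⟨fun l i => f i l, ?_⟩
  funext i
  rw [hf i]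
  simp

private theorem wrb_mk_mem (z : ℕ → A) (l j : ℕ) (x : N) :
    (Submodule.Quotient.mk x : N ⧸ (Iz z l • (⊤ : Submodule A N))) ∈
      Iz (fun j => z (l + j)) j • (⊤ : Submodule A (N ⧸ (Iz z l • (⊤ : Submodule A N)))) ↔
    x ∈ Iz z (l + j) • (⊤ : Submodule A N) := by
  rw [mem_Iz_top, mem_Iz_top]
  constructor
  · rintro ⟨e, he⟩
    have h1 : ∀ i, ∃ y : N, (Submodule.Quotient.mk y : N ⧸ (Iz z l • (⊤ : Submodule A N))) = e i :=
      fun i => Submodule.Quotient.mk_surjective _ (e i)
    choose y hy using h1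
    have h2 : x - ∑ i ∈ Finset.range j, z (l + i) • y i ∈ Iz z l • (⊤ : Submodule A N) := by
      rw [← Submodule.Quotient.mk_eq_zero, Submodule.Quotient.mk_sub, he, sub_eq_zero]
      have h3 : (Submodule.Quotient.mk (∑ i ∈ Finset.range j, z (l + i) • y i) :
          N ⧸ (Iz z l • (⊤ : Submodule A N))) =
          (Submodule.mkQ (Iz z l • (⊤ : Submodule A N))) (∑ i ∈ Finset.range j, z (l + i) • y i) := rfl
      rw [h3, map_sum]
      refine Finset.sum_congr rfl fun i _ => ?_
      rw [map_smul, ← hy i]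
      rfl
    obtain ⟨f, hf⟩ := (mem_Iz_top z l _).1 h2
    refine ⟨fun i => if i < l then f i else y (i - l), ?_⟩
    rw [Finset.sum_range_add]
    have h4 : ∑ i ∈ Finset.range l, z i • (if i < l then f i else y (i - l)) =
        ∑ i ∈ Finset.range l, z i • f i :=
      Finset.sum_congr rfl fun i hi => by rw [if_pos (Finset.mem_range.1 hi)]
    have h5 : ∑ i ∈ Finset.range j, z (l + i) • (if l + i < l then f (l + i) else y (l + i - l)) =
        ∑ i ∈ Finset.range j, z (l + i) • y i :=
      Finset.sum_congr rfl fun i _ => by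
        rw [if_neg (by omega), Nat.add_sub_cancel_left]
    rw [h4, h5, ← hf]
    abel
  · rintro ⟨e, rfl⟩
    refine ⟨fun i => Submodule.Quotient.mk (e (l + i)), ?_⟩
    have h3 : ∀ y : N, (Submodule.Quotient.mk y : N ⧸ (Iz z l • (⊤ : Submodule A N))) =
        (Submodule.mkQ (Iz z l • (⊤ : Submodule A N))) y := fun _ => rfl
    rw [Finset.sum_range_add, h3, map_add]
    have h4 : (Submodule.mkQ (Iz z l • (⊤ : Submodule A N))) (∑ i ∈ Finset.range l, z i • e i) = 0 := by
      rw [← h3, Submodule.Quotient.mk_eq_zero, mem_Iz_top]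
      exact ⟨e, rfl⟩
    rw [h4, zero_add, map_sum]
    exact Finset.sum_congr rfl fun i _ => by
      rw [map_smul]
      rfl

theorem WReg_shift (z : ℕ → A) (l r : ℕ) :
    WReg z (l + r) N ↔ WReg z l N ∧
      WReg (fun j => z (l + j)) r (N ⧸ (Iz z l • (⊤ : Submodule A N))) := by
  constructor
  · intro h
    refine ⟨h.mono (Nat.le_add_right _ _), ?_⟩
    intro j hj x hx
    obtain ⟨y, rfl⟩ := Submodule.Quotient.mk_surjective _ x
    rw [← Submodule.Quotient.mk_smul, wrb_mk_mem] at hx
    rw [wrb_mk_mem]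
    exact h (l + j) (by omega) y hx
  · rintro ⟨h1, h2⟩ j hj x hx
    by_cases hjl : j < l
    · exact h1 j hjl x hx
    · obtain ⟨i, rfl⟩ := Nat.exists_eq_add_of_le (not_lt.1 hjl)
      rw [← wrb_mk_mem]
      rw [← wrb_mk_mem, Submodule.Quotient.mk_smul] at hx
      exact h2 i (by omega) _ hx

theorem WReg_shift_ring (z : ℕ → A) (l r : ℕ) (h : WReg z (l + r) A) :
    WReg (fun j => z (l + j)) r (A ⧸ Iz z l) := by
  have h1 := ((WReg_shift z l r).1 h).2
  have h2 : (Iz z l • (⊤ : Submodule A A)) = Iz z l := by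
    rw [smul_eq_mul, Ideal.mul_top]
  exact WReg_congr (Submodule.quotEquivOfEq _ _ h2) h1

private theorem wrb_pi (𝔞 : Ideal A) (κ : Type w) [Finite κ] :
    (𝔞 • (⊤ : Submodule A (κ → A))) = Submodule.pi Set.univ (fun _ => 𝔞) := by
  classical
  have := Fintype.ofFinite κ
  apply le_antisymm
  · rw [Submodule.smul_le]
    intro r hr n _
    rw [Submodule.mem_pi]
    intro i _
    exact Ideal.mul_mem_right _ _ hr
  · intro f hf
    rw [Submodule.mem_pi] at hf
    rw [pi_eq_sum_univ' f]
    exact Submodule.sum_mem _ fun i _ => Submodule.smul_mem_smul (hf i trivial) Submodule.mem_top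

theorem WReg_free {z : ℕ → A} {r : ℕ} (𝔞 : Ideal A) (h : WReg z r (A ⧸ 𝔞)) (E : Type w)
    [AddCommGroup E] [Module A E] [Module.Free A E] [Module.Finite A E] :
    WReg z r (E ⧸ (𝔞 • (⊤ : Submodule A E))) := by
  classical
  let b := Module.Free.chooseBasis A E
  let κ := Module.Free.ChooseBasisIndex A E
  have h1 : (𝔞 • (⊤ : Submodule A E)).map (b.equivFun : E ≃ₗ[A] (κ → A)).toLinearMap =
      Submodule.pi Set.univ (fun _ : κ => 𝔞) := by
    rw [Submodule.map_smul'', Submodule.map_top, LinearEquiv.range, wrb_pi]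
  have e1 := Submodule.Quotient.equiv _ _ b.equivFun h1
  have e2 := Submodule.quotientPi (fun _ : κ => 𝔞)
  exact WReg_congr (e1.trans e2).symm (WReg_pi h κ)

end NCG
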