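import Pool.Agent.NCG.NCP
import Pool.Agent.NCG.WRB

/-!
# OMF: the differential form of a complex

`om d deg S D i = str1 (S * (dD)^i)` in `ExteriorAlgebra A Ω`, where `dD` is the matrix of the
`ι (d (D a b))`.

`om_mem`: it is in `⋀^i Ω`: the entries of `(dD)^i` are sums of products of `i` vectors.
`om_smul`: immediate.
`om_expand`: `MPE` for `R = ExteriorAlgebra A Ω`, `X₀ = S.map algebraMap`, `X j = dD`
(`(List.ofFn fun _ => X).prod = X^i`), with `algebraMap a * y = a • y`.
`om_L`: apply the additive map `L` to `om_expand` (`sgn` is an integer).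

`KIL`.  Let `D² = 0`, `D` of degree `-1` (`D a b ≠ 0 → deg b = deg a + 1`), `D s_b + s_b D = z b` for `b < i` and
`D s_w + s_w D = w`.  Then `w • om d deg (s_0 s_1 ⋯ s_{i-1}) D i ∈ Iz z i • ⊤` (also for any other order
of the product of the `s_b`).
Proof.  Work with matrices over `E = ExteriorAlgebra A Ω`; the entries of (the images of) `D`, `s` are
central in `E`.  Congruences are modulo `𝒵 = ` matrices with entries in `Iz z i • ⊤` (an additive
subgroup stable under left and right multiplication by matrices over `E`).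
(a) `D dD + dD D = 0` (Leibniz rule for `D² = 0`:
`0 = d (∑_c D a c D c b) = ∑_c (D a c • d (D c b) + D c b • d (D a c))`).  So `D (dD)^i = (-1)^i (dD)^i D`.
(b) `D S ≡ (-1)^i S D` for `S` a product of `i` of the `s_b`, as `D s_b = - s_b D + z b`.
(c) `str1 (Y D) = - str1 (D Y)` for every matrix `Y` over `E`: the term `(a,b)` of the left side is
`sgn (deg a) Y a b D b a`, nonzero only if `deg a = deg b + 1`.
Now `w om = str1 (w S (dD)^i) = str1 (D s_w S (dD)^i) + str1 (s_w D S (dD)^i)` and
`s_w D S (dD)^i ≡ (-1)^i s_w S D (dD)^i = s_w S (dD)^i D`, so the second summand is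
`≡ str1 (s_w S (dD)^i D) = - str1 (D s_w S (dD)^i)`.  The sum is `≡ 0`.
-/

open scoped BigOperators

namespace NCG

universe u

section

variable {k A Ω : Type*} [CommRing k] [CommRing A] [Algebra k A] [AddCommGroup Ω]
  [Module k Ω] [Module A Ω] (d : Derivation k A Ω)
  {ι : Type} [Fintype ι] [DecidableEq ι] (deg : ι → ℤ)

/-- the differential form attached to a matrix `S` and the differential `D` -/
def om (S D : Matrix ι ι A) (i : ℕ) : ExteriorAlgebra A Ω :=
  str1 deg (S.map (algebraMap A (ExteriorAlgebra A Ω)) *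
    (D.map fun a => ExteriorAlgebra.ι A (d a)) ^ i)

private theorem OMF_pow_mem (M : Matrix ι ι (ExteriorAlgebra A Ω))
    (hM : ∀ a b, M a b ∈ LinearMap.range (ExteriorAlgebra.ι A : Ω →ₗ[A] ExteriorAlgebra A Ω))
    (i : ℕ) : ∀ a b, (M ^ i) a b ∈ ⋀[A]^i Ω := by
  induction i with
  | zero =>
    intro a b
    change _ ∈ (LinearMap.range (ExteriorAlgebra.ι A : Ω →ₗ[A] ExteriorAlgebra A Ω)) ^ 0
    rw [pow_zero, pow_zero, Matrix.one_apply]
    split_ifs
    · exact Submodule.one_le.1 le_rfl
    · exact Submodule.zero_mem _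
  | succ n ih =>
    intro a b
    change _ ∈ (LinearMap.range (ExteriorAlgebra.ι A : Ω →ₗ[A] ExteriorAlgebra A Ω)) ^ (n + 1)
    rw [pow_succ, pow_succ, Matrix.mul_apply]
    exact Submodule.sum_mem _ fun c _ => Submodule.mul_mem_mul (ih a c) (hM c b)

private theorem OMF_sgn_smul {R : Type*} [Ring R] (n : ℤ) (x : R) : (sgn n : R) * x = sgn n • x :=
  (zsmul_eq_mul x (sgn n)).symm

theorem om_mem (S D : Matrix ι ι A) (i : ℕ) : om d deg S D i ∈ ⋀[A]^i Ω := by
  unfold om str1
  refine Submodule.sum_mem _ fun a _ => ?_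
  rw [OMF_sgn_smul]
  refine zsmul_mem ?_ _
  rw [Matrix.mul_apply]
  refine Submodule.sum_mem _ fun c _ => ?_
  rw [Matrix.map_apply, ← Algebra.smul_def]
  exact Submodule.smul_mem _ _ (OMF_pow_mem _ (fun a b => ⟨d (D a b), rfl⟩) i c a)

theorem om_smul (c : A) (S D : Matrix ι ι A) (i : ℕ) :
    om d deg (c • S) D i = c • om d deg S D i := by
  unfold om str1
  rw [Finset.smul_sum]
  refine Finset.sum_congr rfl fun a _ => ?_
  rw [Matrix.mul_apply, Matrix.mul_apply, Finset.mul_sum, Finset.mul_sum, Finset.smul_sum]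
  refine Finset.sum_congr rfl fun b _ => ?_
  rw [Matrix.map_apply, Matrix.map_apply, Matrix.smul_apply, smul_eq_mul, map_mul, mul_assoc,
    ← Algebra.smul_def, mul_smul_comm]

theorem om_expand (S D : Matrix ι ι A) (i : ℕ) :
    om d deg S D i = ∑ α : Fin (i + 1) → ι, sgn (deg (α 0)) •
      (S (α 0) (α 1) •
        (List.ofFn fun j : Fin i => ExteriorAlgebra.ι A (d (D (α j.succ) (α (j.succ + 1))))).prod) := by
  unfold om
  have h := MPE deg i (S.map (algebraMap A (ExteriorAlgebra A Ω)))
    (fun _ => D.map fun a => ExteriorAlgebra.ι A (d a))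
  rw [List.ofFn_const, List.prod_replicate] at h
  rw [h]
  refine Finset.sum_congr rfl fun α _ => ?_
  rw [OMF_sgn_smul, Matrix.map_apply, ← Algebra.smul_def]
  simp only [Matrix.map_apply]

theorem om_L {K : Type*} [Ring K] (L : ExteriorAlgebra A Ω →+ K) (S D : Matrix ι ι A) (i : ℕ)
    (Φ : A → (Fin i → A) → K)
    (hL : ∀ (a : A) (x : Fin i → A),
      L (a • (List.ofFn fun j => ExteriorAlgebra.ι A (d (x j))).prod) = Φ a x) :
    L (om d deg S D i) = ∑ α : Fin (i + 1) → ι, (sgn (deg (α 0)) : K) *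
      Φ (S (α 0) (α 1)) (fun j => D (α j.succ) (α (j.succ + 1))) := by
  rw [om_expand, map_sum]
  refine Finset.sum_congr rfl fun α _ => ?_
  rw [map_zsmul, OMF_sgn_smul]
  congr 1
  exact hL (S (α 0) (α 1)) (fun j => D (α j.succ) (α (j.succ + 1)))

/-- `D S ≡ (-1)^i S D` modulo an ideal. -/
private theorem OMF_comm (I : Ideal A) (D : Matrix ι ι A) (L : List (Matrix ι ι A))
    (hL : ∀ s ∈ L, ∃ z ∈ I, D * s + s * D = z • (1 : Matrix ι ι A)) :
    ∀ a b, (D * L.prod - (-1 : ℤ) ^ L.length • (L.prod * D)) a b ∈ I := by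
  induction L with
  | nil => intro a b; simp
  | cons s L ih =>
    intro a b
    obtain ⟨z, hz, h1⟩ := hL s List.mem_cons_self
    have h2 := ih fun t ht => hL t (List.mem_cons_of_mem _ ht)
    have h3 : D * s = z • (1 : Matrix ι ι A) - s * D := eq_sub_of_add_eq h1
    have h4 : D * (s :: L).prod - (-1 : ℤ) ^ (s :: L).length • ((s :: L).prod * D) =
        z • L.prod - s * (D * L.prod - (-1 : ℤ) ^ L.length • (L.prod * D)) := by
      rw [List.prod_cons, List.length_cons, ← mul_assoc, h3, sub_mul, smul_mul_assoc, one_mul,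
        mul_sub, mul_smul_comm, pow_succ, mul_neg_one, neg_smul, mul_assoc s L.prod D,
        mul_assoc s D L.prod]
      abel
    rw [h4, Matrix.sub_apply, Matrix.smul_apply, Matrix.mul_apply]
    refine I.sub_mem ?_ ?_
    · rw [smul_eq_mul]
      exact I.mul_mem_right _ hz
    · exact I.sum_mem fun c _ => I.mul_mem_left _ (h2 c b)

private theorem OMF_mul_left {z : ℕ → A} {l : ℕ} (e : ExteriorAlgebra A Ω)
    {y : ExteriorAlgebra A Ω} (hy : y ∈ Iz z l • (⊤ : Submodule A (ExteriorAlgebra A Ω))) :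
    e * y ∈ Iz z l • (⊤ : Submodule A (ExteriorAlgebra A Ω)) := by
  refine Submodule.smul_induction_on hy (fun r hr n _ => ?_) (fun x y hx hy => ?_)
  · rw [mul_smul_comm]
    exact Submodule.smul_mem_smul hr trivial
  · rw [mul_add]
    exact Submodule.add_mem _ hx hy

private theorem OMF_mul_right {z : ℕ → A} {l : ℕ} (e : ExteriorAlgebra A Ω)
    {y : ExteriorAlgebra A Ω} (hy : y ∈ Iz z l • (⊤ : Submodule A (ExteriorAlgebra A Ω))) :
    y * e ∈ Iz z l • (⊤ : Submodule A (ExteriorAlgebra A Ω)) := by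
  refine Submodule.smul_induction_on hy (fun r hr n _ => ?_) (fun x y hx hy => ?_)
  · rw [smul_mul_assoc]
    exact Submodule.smul_mem_smul hr trivial
  · rw [add_mul]
    exact Submodule.add_mem _ hx hy

private theorem OMF_sgn_succ (n : ℤ) : sgn (n + 1) = -sgn n := by
  unfold sgn
  by_cases h : Even n
  · have h1 : ¬ Even (n + 1) := by rw [Int.even_add_one]; exact fun h' => h' h
    rw [if_neg h1, if_pos h]
  · have h1 : Even (n + 1) := by rw [Int.even_add_one]; exact h
    rw [if_pos h1, if_neg h]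
    ring

private theorem OMF_str1_comm {R : Type*} [Ring R] [Algebra A R] (D : Matrix ι ι A)
    (hD : ∀ a b, D a b ≠ 0 → deg b = deg a + 1) (Y : Matrix ι ι R) :
    str1 deg (Y * D.map (algebraMap A R)) = -str1 deg (D.map (algebraMap A R) * Y) := by
  unfold str1
  simp only [Matrix.mul_apply, Finset.mul_sum, Matrix.map_apply]
  rw [← Finset.sum_neg_distrib, Finset.sum_comm]
  refine Finset.sum_congr rfl fun b _ => ?_
  rw [← Finset.sum_neg_distrib]
  refine Finset.sum_congr rfl fun a _ => ?_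
  by_cases h : D b a = 0
  · rw [h, map_zero, mul_zero, zero_mul, mul_zero, mul_zero, neg_zero]
  · rw [hD b a h, OMF_sgn_succ, Algebra.commutes]
    push_cast
    rw [neg_mul]

private theorem OMF_str1_add {R : Type*} [Ring R] (X Y : Matrix ι ι R) :
    str1 deg (X + Y) = str1 deg X + str1 deg Y := by
  unfold str1
  rw [← Finset.sum_add_distrib]
  exact Finset.sum_congr rfl fun a _ => by rw [Matrix.add_apply, mul_add]

private theorem OMF_leibniz (D : Matrix ι ι A) (hD2 : D * D = 0) :
    D.map (algebraMap A (ExteriorAlgebra A Ω)) * D.map (fun a => ExteriorAlgebra.ι A (d a)) =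
      -(D.map (fun a => ExteriorAlgebra.ι A (d a)) *
        D.map (algebraMap A (ExteriorAlgebra A Ω))) := by
  ext a b
  rw [Matrix.neg_apply, eq_neg_iff_add_eq_zero, Matrix.mul_apply, Matrix.mul_apply,
    ← Finset.sum_add_distrib]
  have h1 : ∑ c, D a c * D c b = 0 := by
    have := congrFun (congrFun hD2 a) b
    rwa [Matrix.mul_apply, Matrix.zero_apply] at this
  have h2 : (ExteriorAlgebra.ι A : Ω →ₗ[A] ExteriorAlgebra A Ω) (d (∑ c, D a c * D c b)) = 0 := by
    rw [h1, map_zero, map_zero]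
  rw [map_sum, map_sum] at h2
  rw [← h2]
  refine Finset.sum_congr rfl fun c _ => ?_
  rw [Derivation.leibniz, map_add, map_smul, map_smul, Matrix.map_apply, Matrix.map_apply,
    Matrix.map_apply, Matrix.map_apply, ← Algebra.smul_def, ← Algebra.commutes,
    ← Algebra.smul_def]

private theorem OMF_leibniz_pow (D : Matrix ι ι A) (hD2 : D * D = 0) (i : ℕ) :
    D.map (algebraMap A (ExteriorAlgebra A Ω)) *
        D.map (fun a => ExteriorAlgebra.ι A (d a)) ^ i =
      (-1 : ℤ) ^ i • (D.map (fun a => ExteriorAlgebra.ι A (d a)) ^ i *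
        D.map (algebraMap A (ExteriorAlgebra A Ω))) := by
  induction i with
  | zero => simp
  | succ n ih =>
    rw [pow_succ, ← mul_assoc, ih, smul_mul_assoc, mul_assoc, OMF_leibniz d D hD2, mul_neg,
      smul_neg, pow_succ, mul_neg_one, neg_smul, mul_assoc]

theorem KIL (z : ℕ → A) (i : ℕ) (s : Fin i → Matrix ι ι A) (D sw : Matrix ι ι A) (w : A)
    (hD : ∀ a b, D a b ≠ 0 → deg b = deg a + 1) (hD2 : D * D = 0)
    (hs : ∀ b, D * s b + s b * D = z b • (1 : Matrix ι ι A))
    (hw : D * sw + sw * D = w • (1 : Matrix ι ι A)) :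
    w • om d deg (List.ofFn s).reverse.prod D i ∈
      Iz z i • (⊤ : Submodule A (ExteriorAlgebra A Ω)) := by
  have hcomm := OMF_comm (Iz z i) D (List.ofFn s).reverse (by
    intro t ht
    rw [List.mem_reverse, List.mem_ofFn] at ht
    obtain ⟨b, rfl⟩ := ht
    exact ⟨z b, Ideal.subset_span ⟨b, b.2, rfl⟩, hs b⟩)
  rw [List.length_reverse, List.length_ofFn] at hcomm
  generalize hS : (List.ofFn s).reverse.prod = S at hcomm ⊢
  set e := algebraMap A (ExteriorAlgebra A Ω) with he
  set X := D.map (fun a => ExteriorAlgebra.ι A (d a)) ^ i with hX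
  obtain ⟨R, hR⟩ : ∃ R, R = D * S - (-1 : ℤ) ^ i • (S * D) := ⟨_, rfl⟩
  rw [← hR] at hcomm
  have hDS : D.map e * S.map e = (-1 : ℤ) ^ i • (S.map e * D.map e) + R.map e := by
    rw [← Matrix.map_mul, ← Matrix.map_mul, hR]
    ext a b
    simp only [Matrix.map_apply, Matrix.add_apply, Matrix.smul_apply, Matrix.sub_apply, map_sub,
      map_zsmul]
    abel
  have hw' : D.map e * sw.map e + sw.map e * D.map e = (w • (1 : Matrix ι ι A)).map e := by
    rw [← hw, ← Matrix.map_mul, ← Matrix.map_mul]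
    ext a b
    simp only [Matrix.map_apply, Matrix.add_apply, map_add]
  have hDX : D.map e * X = (-1 : ℤ) ^ i • (X * D.map e) := OMF_leibniz_pow d D hD2 i
  have hsq : ((-1 : ℤ) ^ i) * ((-1 : ℤ) ^ i) = 1 := by
    rw [← mul_pow, neg_one_mul, neg_neg, one_pow]
  have h1 : (w • (1 : Matrix ι ι A)).map e * (S.map e * X) =
      D.map e * (sw.map e * (S.map e * X)) + (sw.map e * (S.map e * X)) * D.map e +
        sw.map e * (R.map e * X) := by
    rw [← hw', add_mul, add_assoc, mul_assoc]
    congr 1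
    rw [mul_assoc, ← mul_assoc (D.map e), hDS, add_mul, mul_add, smul_mul_assoc, mul_assoc (S.map e),
      hDX, mul_smul_comm, mul_smul_comm, mul_smul_comm, smul_smul, hsq, one_smul, mul_assoc,
      mul_assoc]
  have h2 : w • om d deg S D i = str1 deg ((w • (1 : Matrix ι ι A)).map e * (S.map e * X)) := by
    rw [← om_smul]
    unfold om
    rw [← mul_assoc, ← Matrix.map_mul, smul_mul_assoc, one_mul]
  rw [h2, h1, OMF_str1_add, OMF_str1_add, OMF_str1_comm deg D hD, add_neg_cancel, zero_add]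
  unfold str1
  refine Submodule.sum_mem _ fun a _ => OMF_mul_left _ ?_
  rw [Matrix.mul_apply]
  refine Submodule.sum_mem _ fun b _ => OMF_mul_left _ ?_
  rw [Matrix.mul_apply]
  refine Submodule.sum_mem _ fun c _ => OMF_mul_right _ ?_
  rw [Matrix.map_apply, he, Algebra.algebraMap_eq_smul_one]
  exact Submodule.smul_mem_smul (hcomm b c) trivial

end

end NCG
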