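import Pool.Agent.NCG.PGE

/-!
# PLK: `str (cyc * slot 0 x₀ * Γ(x 0) ⋯ Γ(x (i-1)))` is a polynomial in the number of factors

Let `L = GrL k i`, `e = gre k` and let `I` be the functional of `GRS_exists`.
(1) `I (str (cyc * slot 0 x₀ * Om e x (m+1))) = str (cyc * slot 0 x₀ * Γ(x 0) ⋯ Γ(x (i-1)))`
    (left side over `L`, right side over `k`).
    Expand `Om = ∏_j (1 + e j Γ(x j))` by `prod_ofFn_sum` with `κ = Bool` (or `Fin 2`): the term of
    `p : Fin i → Bool` is a product of `r = #{j | p j = true}` factors `e j Γ(x j)` and ones; all its entries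
    are in `⋀^r` (induction over the list), so if `p` is not constantly `true` then `r < i` and the
    contribution to `I (str (..))` is zero (`str (cyc * slot 0 x₀ * Z)` is a combination with
    coefficients in `k` of the entries of `Z`).  For `p = true` the term is
    `(e 0 ⋯ e (i-1)) • (Γ(x 0) ⋯ Γ(x (i-1)))` and `I (e 0 ⋯ e (i-1)) = 1` (`π = 1`).
(2) By `OMG_main` the left side is `I (str1 (x₀ * EE^(m+1)))`, which is `p(m+1)` by `PGE`.
-/

open scoped BigOperators

namespace NCG

section

variable {J : Type*} [Fintype J] [DecidableEq J] {k : Type*} [Field k] {i : ℕ}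

private theorem PLK_alg_mem (c : k) :
    algebraMap k (GrL k i) c ∈ ⋀[k]^0 (Fin i → k) := by
  show _ ∈ (LinearMap.range (ExteriorAlgebra.ι k (M := Fin i → k))) ^ 0
  rw [pow_zero]
  exact Submodule.mem_one.2 ⟨c, rfl⟩

private theorem PLK_mul_mem {r s : ℕ} {a b : GrL k i} (ha : a ∈ ⋀[k]^r (Fin i → k))
    (hb : b ∈ ⋀[k]^s (Fin i → k)) : a * b ∈ ⋀[k]^(r + s) (Fin i → k) := by
  show _ ∈ (LinearMap.range (ExteriorAlgebra.ι k (M := Fin i → k))) ^ (r + s)
  rw [pow_add]
  exact Submodule.mul_mem_mul ha hb

private theorem PLK_gre_mem (j : Fin i) : gre k j ∈ ⋀[k]^1 (Fin i → k) := by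
  show _ ∈ (LinearMap.range (ExteriorAlgebra.ι k (M := Fin i → k))) ^ 1
  rw [pow_one]
  exact ⟨_, rfl⟩

/-- entries of a product of matrices -/
private theorem PLK_prod_mem (n : ℕ) (g : Fin n → Matrix J J (GrL k i)) (d : Fin n → ℕ)
    (hg : ∀ t a b, g t a b ∈ ⋀[k]^(d t) (Fin i → k)) (a b : J) :
    (List.ofFn g).prod a b ∈ ⋀[k]^(∑ t, d t) (Fin i → k) := by
  induction n generalizing a b with
  | zero =>
    rw [List.ofFn_zero, List.prod_nil, Fin.sum_univ_zero]
    by_cases h : a = b
    · subst h
      rw [Matrix.one_apply_eq, ← map_one (algebraMap k (GrL k i))]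
      exact PLK_alg_mem 1
    · rw [Matrix.one_apply_ne h]
      exact Submodule.zero_mem _
  | succ n ih =>
    rw [List.ofFn_succ, List.prod_cons, Fin.sum_univ_succ, Matrix.mul_apply]
    apply Submodule.sum_mem
    intro c _
    exact PLK_mul_mem (hg 0 a c) (ih (fun t => g t.succ) (fun t => d t.succ)
      (fun t => hg t.succ) c b)

omit [DecidableEq J] in
private theorem PLK_smul_mul (a b : GrL k i) (M N : Matrix J J k) :
    (a • M.map (algebraMap k (GrL k i))) * (b • N.map (algebraMap k (GrL k i))) =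
      (a * b) • (M * N).map (algebraMap k (GrL k i)) := by
  ext u v
  simp only [Matrix.mul_apply, Matrix.smul_apply, Matrix.map_apply, smul_eq_mul, map_sum, map_mul,
    Finset.mul_sum]
  apply Finset.sum_congr rfl
  intro w _
  rw [mul_assoc, mul_assoc, ← mul_assoc _ b, Algebra.commutes, mul_assoc]

private theorem PLK_prod_smul (n : ℕ) (e : Fin n → GrL k i) (G : Fin n → Matrix J J k) :
    (List.ofFn fun t => e t • (G t).map (algebraMap k (GrL k i))).prod =
      (List.ofFn e).prod • ((List.ofFn G).prod).map (algebraMap k (GrL k i)) := by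
  induction n with
  | zero =>
    rw [List.ofFn_zero, List.ofFn_zero, List.ofFn_zero, List.prod_nil, List.prod_nil,
      List.prod_nil, one_smul]
    ext a b
    by_cases h : a = b
    · subst h
      simp
    · simp [Matrix.one_apply_ne h]
  | succ n ih =>
    rw [List.ofFn_succ, List.prod_cons, ih (fun t => e t.succ) (fun t => G t.succ),
      PLK_smul_mul, List.ofFn_succ, List.prod_cons, List.ofFn_succ (f := G), List.prod_cons]

end

section

variable {ι : Type} [Fintype ι] [DecidableEq ι] (deg : ι → ℤ) {k : Type*} [Field k] {i : ℕ}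

omit [Fintype ι] in
private theorem PLK_cyc_map (m : ℕ) :
    (cyc deg k m).map (algebraMap k (GrL k i)) = cyc deg (GrL k i) m := by
  ext a b
  rw [Matrix.map_apply, cyc, cyc]
  split_ifs with h
  · rw [map_intCast]
  · rw [map_zero]

omit [DecidableEq ι] in
private theorem PLK_S (I : GrL k i →ₗ[k] k) (m : ℕ) (C : Matrix (Fin m → ι) (Fin m → ι) k)
    (Z : Matrix (Fin m → ι) (Fin m → ι) (GrL k i)) :
    I (str deg m (C.map (algebraMap k (GrL k i)) * Z)) =
      ∑ a, ∑ b, ((sgn (∑ j, deg (a j)) : k) * C a b) * I (Z b a) := by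
  rw [str, map_sum]
  apply Finset.sum_congr rfl
  intro a _
  rw [Matrix.mul_apply, Finset.mul_sum, map_sum]
  apply Finset.sum_congr rfl
  intro b _
  have h : ((sgn (∑ j, deg (a j)) : ℤ) : GrL k i) *
      ((C.map (algebraMap k (GrL k i))) a b * Z b a) =
      (((sgn (∑ j, deg (a j)) : ℤ) : k) * C a b) • Z b a := by
    rw [Algebra.smul_def, map_mul, map_intCast, mul_assoc, Matrix.map_apply]
  rw [h, map_smul, smul_eq_mul]

end

section

variable {ι : Type} [Fintype ι] [DecidableEq ι] (deg : ι → ℤ) {k : Type*} [Field k] [CharZero k]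

theorem PLK {i : ℕ} (x₀ : Matrix ι ι k) (x : Fin i → Matrix ι ι k)
    (hx : ∀ j a b, x j a b ≠ 0 → Odd (deg a - deg b)) :
    ∃ p : Polynomial k, p.natDegree ≤ i ∧
      (∀ m : ℕ, str deg (m + 1)
        (cyc deg k m * (slot deg 0 x₀ * (List.ofFn fun j => Gam deg (m + 1) (x j)).prod)) =
        p.eval ((m : k) + 1)) ∧
      (i.factorial : k) * p.coeff i =
        ∑ π : Equiv.Perm (Fin i), (((Equiv.Perm.sign π : ℤˣ) : ℤ) : k) *
          str1 deg (x₀ * (List.ofFn fun j => x (π j)).prod) := by
  obtain ⟨I, hI, hI'⟩ := GRS_exists k i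
  obtain ⟨p, hp1, hp2, hp3⟩ := PGE deg I hI hI' x₀ x
  refine ⟨p, hp1, ?_, hp3⟩
  intro m
  have h1 := hp2 (m + 1)
  rw [← OMG_main deg (gre k) (gre_anticomm k) (gre_sq k) x hx x₀ m] at h1
  rw [Nat.cast_add, Nat.cast_one] at h1
  rw [← h1]
  have hs : slot deg (0 : Fin (m + 1)) (x₀.map (algebraMap k (GrL k i))) =
      (slot deg (0 : Fin (m + 1)) x₀).map (algebraMap k (GrL k i)) :=
    (slot_map deg (0 : Fin (m + 1)) x₀ (algebraMap k (GrL k i)).toAddMonoidHom).symm
  have hC : ∀ Z : Matrix (Fin (m + 1) → ι) (Fin (m + 1) → ι) (GrL k i),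
      cyc deg (GrL k i) m * (slot deg (0 : Fin (m + 1)) (x₀.map (algebraMap k (GrL k i))) * Z) =
      (cyc deg k m * slot deg (0 : Fin (m + 1)) x₀).map (algebraMap k (GrL k i)) * Z := by
    intro Z
    rw [hs, ← PLK_cyc_map, ← mul_assoc, ← Matrix.map_mul]
  rw [hC, PLK_S]
  set f : Fin i → Bool → Matrix (Fin (m + 1) → ι) (Fin (m + 1) → ι) (GrL k i) := fun j b =>
    if b then gre k j • (Gam deg (m + 1) (x j)).map (algebraMap k (GrL k i)) else 1 with hf
  have hOm : Om deg (gre k) x (m + 1) =
      ∑ q : Fin i → Bool, (List.ofFn fun t => f t (q t)).prod := by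
    rw [← prod_ofFn_sum, Om]
    congr 2
    funext j
    rw [Fintype.sum_bool, hf]
    simp only [if_true, Bool.false_eq_true, if_false]
    exact add_comm _ _
  have hent : ∀ a b, I (Om deg (gre k) x (m + 1) a b) =
      (List.ofFn fun j => Gam deg (m + 1) (x j)).prod a b := by
    intro a b
    rw [hOm, Matrix.sum_apply, map_sum, Finset.sum_eq_single (fun _ => true)]
    · have h2 : (List.ofFn fun t => f t ((fun _ => true) t)).prod =
          (List.ofFn (gre k (i := i))).prod • ((List.ofFn fun j => Gam deg (m + 1) (x j)).prod).map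
            (algebraMap k (GrL k i)) := by
        rw [← PLK_prod_smul]
        rfl
      rw [h2, Matrix.smul_apply, Matrix.map_apply, smul_eq_mul, ← Algebra.commutes,
        ← Algebra.smul_def, map_smul, smul_eq_mul]
      have h3 := hI' 1
      simp only [Equiv.Perm.coe_one, id_eq, Equiv.Perm.sign_one, Units.val_one, Int.cast_one]
        at h3
      rw [show (List.ofFn (gre k (i := i))).prod = (List.ofFn fun t => gre k t).prod from rfl, h3,
        mul_one]
    · intro q _ hq
      have hent2 : ∀ t a b, f t (q t) a b ∈ ⋀[k]^(if q t then 1 else 0) (Fin i → k) := by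
        intro t a b
        rw [hf]
        cases h : q t
        · simp only [Bool.false_eq_true, if_false]
          by_cases hab : a = b
          · subst hab
            rw [Matrix.one_apply_eq, ← map_one (algebraMap k (GrL k i))]
            exact PLK_alg_mem 1
          · rw [Matrix.one_apply_ne hab]
            exact Submodule.zero_mem _
        · simp only [if_true]
          rw [Matrix.smul_apply, Matrix.map_apply, smul_eq_mul]
          exact PLK_mul_mem (r := 1) (s := 0) (PLK_gre_mem t) (PLK_alg_mem _)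
      have hmem := PLK_prod_mem i (fun t => f t (q t)) (fun t => if q t then 1 else 0) hent2 a b
      refine hI _ ?_ _ hmem
      intro hsum
      apply hq
      funext t
      by_contra hc
      have hlt : ∑ t, (if q t then 1 else 0) < ∑ t : Fin i, 1 := by
        apply Finset.sum_lt_sum
        · intro t _
          split_ifs <;> simp
        · refine ⟨t, Finset.mem_univ _, ?_⟩
          rw [if_neg hc]
          exact Nat.zero_lt_one
      rw [hsum] at hlt
      simp at hlt
    · intro h
      exact absurd (Finset.mem_univ _) h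
  rw [str, ← mul_assoc]
  apply Finset.sum_congr rfl
  intro a _
  rw [Matrix.mul_apply, Finset.mul_sum]
  apply Finset.sum_congr rfl
  intro b _
  rw [hent, mul_assoc]

end

end NCG
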