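import Pool.Agent.NCG.EXP
import Pool.Agent.NCG.PLK

/-!
# PLR: polynomiality of the trace with coefficients in a noncommutative algebra

`R` a `k`-algebra, `tr : R → k` linear, `X₀ : Matrix ι ι R`, `X j : Matrix ι ι R` odd.
By `EXP`, `tr (str (cyc * slot 0 X₀ * ∏ Γ(X j)))` is the sum over `q₀ : ι × ι`, `q : Fin i → ι × ι` of
`str (cyc * slot 0 E(q₀) * ∏ Γ(E(q j))) * tr (X₀(q₀) * ∏ X j (q j))` where `E(q) = single q.1 q.2 1`.
If some `X j (q j) = 0` the term is zero.  Otherwise all `deg (q j).1 - deg (q j).2` are odd and `PLK`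
gives a polynomial `p_{q₀,q}` of degree `≤ i`.  Summing, we get a polynomial of degree `≤ i` with
`i! coeff_i = ∑_{q₀,q} ∑_π sign π str1 (E(q₀) * ∏_j E(q (π j))) tr (X₀(q₀) ∏ X j (q j))` (for the `q` with
some `X j (q j) = 0` the terms are zero in both expressions).
By `MPE`, `str1 (E(q₀) * ∏_j E(q (π j))) = ∑_α sgn (α 0) [q₀ = (α 0, α 1)] ∏_j [q (π j) = (α j.succ, α (j.succ+1))]`,
so for fixed `π` and `α` exactly one pair `(q₀, q)` contributes: `q₀ = (α 0, α 1)`,
`q j = (α (π⁻¹ j).succ, α ((π⁻¹ j).succ + 1))`.  This gives the formula.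
-/

open scoped BigOperators

namespace NCG

section

variable {ι : Type} [Fintype ι] [DecidableEq ι] (deg : ι → ℤ) {k R : Type*} [Field k] [CharZero k]
  [Ring R] [Algebra k R]

omit [Fintype ι] [CharZero k] in
private theorem PLR_prod_single {i : ℕ} (q q' : Fin i → ι × ι) :
    (List.ofFn fun j => Matrix.single (q j).1 (q j).2 (1 : k) (q' j).1 (q' j).2).prod =
      if q = q' then 1 else 0 := by
  rw [List.prod_ofFn]
  have h1 : ∀ j, Matrix.single (q j).1 (q j).2 (1 : k) (q' j).1 (q' j).2 =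
      if q j = q' j then 1 else 0 := by
    intro j
    rw [Matrix.single_apply]
    congr 1
    rw [Prod.ext_iff]
  simp only [h1]
  rw [Finset.prod_ite_zero, Finset.prod_const_one]
  congr 1
  simp [funext_iff]

omit [CharZero k] in
private theorem PLR_path {i : ℕ} (q₀ : ι × ι) (q : Fin i → ι × ι) (π : Equiv.Perm (Fin i)) :
    str1 deg (Matrix.single q₀.1 q₀.2 (1 : k) *
      (List.ofFn fun j => Matrix.single (q (π j)).1 (q (π j)).2 (1 : k)).prod) =
    ∑ α : Fin (i + 1) → ι, (sgn (deg (α 0)) : k) *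
      ((if q₀ = (α 0, α 1) then 1 else 0) *
        (if q = fun j => (α (π⁻¹ j).succ, α ((π⁻¹ j).succ + 1)) then 1 else 0)) := by
  rw [MPE]
  apply Finset.sum_congr rfl
  intro α _
  congr 2
  · rw [Matrix.single_apply]
    congr 1
    rw [Prod.ext_iff]
  · rw [PLR_prod_single (fun j => q (π j)) (fun j => (α j.succ, α (j.succ + 1)))]
    congr 1
    rw [eq_iff_iff]
    constructor
    · intro h
      funext j
      have h1 := congrFun h (π⁻¹ j)
      have h2 : π (π⁻¹ j) = j := Equiv.apply_symm_apply π j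
      simp only [h2] at h1
      exact h1
    · intro h
      rw [h]
      funext j
      have h2 : π⁻¹ (π j) = j := Equiv.symm_apply_apply π j
      simp only [h2]

theorem PLR (tr : R →ₗ[k] k) {i : ℕ} (X₀ : Matrix ι ι R) (X : Fin i → Matrix ι ι R)
    (hX : ∀ j a b, X j a b ≠ 0 → Odd (deg a - deg b)) :
    ∃ p : Polynomial k, p.natDegree ≤ i ∧
      (∀ m : ℕ, tr (str deg (m + 1)
        (cyc deg R m * (slot deg 0 X₀ * (List.ofFn fun j => Gam deg (m + 1) (X j)).prod))) =
        p.eval ((m : k) + 1)) ∧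
      (i.factorial : k) * p.coeff i =
        ∑ π : Equiv.Perm (Fin i), (((Equiv.Perm.sign π : ℤˣ) : ℤ) : k) *
          ∑ α : Fin (i + 1) → ι, (sgn (deg (α 0)) : k) *
            tr (X₀ (α 0) (α 1) *
              (List.ofFn fun j => X j (α (π⁻¹ j).succ) (α ((π⁻¹ j).succ + 1))).prod) := by
  classical
  set T : ι × ι → (Fin i → ι × ι) → k := fun q₀ q =>
    tr (X₀ q₀.1 q₀.2 * (List.ofFn fun j => X j (q j).1 (q j).2).prod) with hT
  set Sg : ℕ → ι × ι → (Fin i → ι × ι) → k := fun m q₀ q =>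
    str deg (m + 1) (cyc deg k m * (slot deg 0 (Matrix.single q₀.1 q₀.2 (1 : k)) *
        (List.ofFn fun j => Gam deg (m + 1) (Matrix.single (q j).1 (q j).2 (1 : k))).prod))
    with hSg
  set W : ι × ι → (Fin i → ι × ι) → k := fun q₀ q =>
    ∑ π : Equiv.Perm (Fin i), (((Equiv.Perm.sign π : ℤˣ) : ℤ) : k) *
      str1 deg (Matrix.single q₀.1 q₀.2 (1 : k) *
        (List.ofFn fun j => Matrix.single (q (π j)).1 (q (π j)).2 (1 : k)).prod) with hW
  have hP : ∀ q₀ q, ∃ P : Polynomial k, P.natDegree ≤ i ∧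
      (∀ m : ℕ, Sg m q₀ q * T q₀ q = P.eval ((m : k) + 1) * T q₀ q) ∧
      (i.factorial : k) * P.coeff i * T q₀ q = W q₀ q * T q₀ q := by
    intro q₀ q
    by_cases h : ∀ j, Odd (deg (q j).1 - deg (q j).2)
    · have hodd : ∀ j a b, (Matrix.single (q j).1 (q j).2 (1 : k)) a b ≠ 0 →
          Odd (deg a - deg b) := by
        intro j a b hab
        rw [Matrix.single_apply] at hab
        split_ifs at hab with h2
        · rw [← h2.1, ← h2.2]
          exact h j
        · exact absurd rfl hab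
      obtain ⟨P, h1, h2, h3⟩ := PLK deg (Matrix.single q₀.1 q₀.2 (1 : k))
        (fun j => Matrix.single (q j).1 (q j).2 (1 : k)) hodd
      refine ⟨P, h1, ?_, ?_⟩
      · intro m
        rw [← h2 m]
      · rw [h3]
    · push Not at h
      obtain ⟨j, hj⟩ := h
      have h0 : X j (q j).1 (q j).2 = 0 := by
        by_contra hc
        exact (Int.not_odd_iff_even.2 (by
          rcases Int.even_or_odd (deg (q j).1 - deg (q j).2) with h4 | h4
          · exact h4
          · exact absurd h4 hj)) (hX j _ _ hc)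
      have hT0 : T q₀ q = 0 := by
        rw [hT]
        simp only
        have : (List.ofFn fun j => X j (q j).1 (q j).2).prod = 0 := by
          apply List.prod_eq_zero
          rw [List.mem_ofFn]
          exact ⟨j, h0⟩
        rw [this, mul_zero, map_zero]
      refine ⟨0, by simp, ?_, ?_⟩
      · intro m
        rw [hT0, mul_zero, mul_zero]
      · rw [hT0, mul_zero, mul_zero]
  choose P hP1 hP2 hP3 using hP
  refine ⟨∑ q₀ : ι × ι, ∑ q : Fin i → ι × ι, Polynomial.C (T q₀ q) * P q₀ q, ?_, ?_, ?_⟩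
  · apply Polynomial.natDegree_sum_le_of_forall_le
    intro q₀ _
    apply Polynomial.natDegree_sum_le_of_forall_le
    intro q _
    exact le_trans (Polynomial.natDegree_C_mul_le _ _) (hP1 q₀ q)
  · intro m
    rw [EXP (k := k), map_sum, Polynomial.eval_finsetSum]
    apply Finset.sum_congr rfl
    intro q₀ _
    rw [map_sum, Polynomial.eval_finsetSum]
    apply Finset.sum_congr rfl
    intro q _
    rw [map_smul, smul_eq_mul, Polynomial.eval_mul, Polynomial.eval_C]
    have := hP2 q₀ q m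
    rw [mul_comm (T q₀ q), ← this]
  · rw [Polynomial.finsetSum_coeff, Finset.mul_sum]
    have h1 : ∀ q₀ : ι × ι, (i.factorial : k) *
        (∑ q : Fin i → ι × ι, Polynomial.C (T q₀ q) * P q₀ q).coeff i =
        ∑ q : Fin i → ι × ι, W q₀ q * T q₀ q := by
      intro q₀
      rw [Polynomial.finsetSum_coeff, Finset.mul_sum]
      apply Finset.sum_congr rfl
      intro q _
      rw [Polynomial.coeff_C_mul, ← hP3]
      ring
    simp only [h1]
    simp only [hW, Finset.sum_mul]
    have h2 : ∀ q₀ : ι × ι, ∑ q : Fin i → ι × ι, ∑ π : Equiv.Perm (Fin i),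
        (((Equiv.Perm.sign π : ℤˣ) : ℤ) : k) *
        str1 deg (Matrix.single q₀.1 q₀.2 (1 : k) *
          (List.ofFn fun j => Matrix.single (q (π j)).1 (q (π j)).2 (1 : k)).prod) * T q₀ q =
        ∑ π : Equiv.Perm (Fin i), ∑ q : Fin i → ι × ι,
        (((Equiv.Perm.sign π : ℤˣ) : ℤ) : k) *
        str1 deg (Matrix.single q₀.1 q₀.2 (1 : k) *
          (List.ofFn fun j => Matrix.single (q (π j)).1 (q (π j)).2 (1 : k)).prod) * T q₀ q :=
      fun q₀ => Finset.sum_comm
    simp only [h2]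
    rw [Finset.sum_comm]
    apply Finset.sum_congr rfl
    intro π _
    simp only [PLR_path, Finset.mul_sum, Finset.sum_mul]
    have h3 : ∀ q₀ : ι × ι, ∑ q : Fin i → ι × ι, ∑ α : Fin (i + 1) → ι,
        (((Equiv.Perm.sign π : ℤˣ) : ℤ) : k) * ((sgn (deg (α 0)) : k) *
        ((if q₀ = (α 0, α 1) then 1 else 0) *
        (if q = fun j => (α (π⁻¹ j).succ, α ((π⁻¹ j).succ + 1)) then 1 else 0))) * T q₀ q =
        ∑ α : Fin (i + 1) → ι, ∑ q : Fin i → ι × ι,
        (((Equiv.Perm.sign π : ℤˣ) : ℤ) : k) * ((sgn (deg (α 0)) : k) *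
        ((if q₀ = (α 0, α 1) then 1 else 0) *
        (if q = fun j => (α (π⁻¹ j).succ, α ((π⁻¹ j).succ + 1)) then 1 else 0))) * T q₀ q :=
      fun q₀ => Finset.sum_comm
    simp only [h3]
    rw [Finset.sum_comm]
    apply Finset.sum_congr rfl
    intro α _
    rw [Finset.sum_eq_single (α 0, α 1)]
    · rw [Finset.sum_eq_single (fun j => (α (π⁻¹ j).succ, α ((π⁻¹ j).succ + 1)))]
      · rw [if_pos rfl, if_pos rfl, mul_one, mul_one, mul_assoc]
      · intro q _ hq
        rw [if_neg hq, mul_zero, mul_zero, mul_zero, zero_mul]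
      · intro h
        exact absurd (Finset.mem_univ _) h
    · intro q₀ _ hq₀
      apply Finset.sum_eq_zero
      intro q _
      rw [if_neg hq₀, zero_mul, mul_zero, mul_zero, zero_mul]
    · intro h
      exact absurd (Finset.mem_univ _) h

end

end NCG
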