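import Pool.Agent.NCG.HRR
import Pool.Agent.NCG.CYM
import Pool.Agent.NCG.PLR
import Pool.Agent.NCG.MDL
import Pool.Agent.NCG.OMF

/-!
# CORE: the Adams polynomial of a module with a good system of parameters

Notation: `N̄ = Nb A N z i`, `R = Module.End k N̄`, `tr = LinearMap.trace k N̄`,
`rho = Algebra.lsmul k k N̄ : A → R`, `T : ThD k A N z i` (`THD_exists`), `S = (List.ofFn s).reverse.prod`.

(1) For `m : ℕ` let `J = (Fin (m+1) → F.ι)`, `Δ = F.del (m+1) = Gam F.deg (m+1) F.D`,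
`G = gam F.deg ℤ (m+1) * cyc F.deg ℤ m` (integer matrix), `S' b = slot F.deg 0 (s b)`.
`Δ * Δ = 0` (`Gam_sq`; `F.D` is odd by `F.homog`), `G Δ = - Δ G` over `A` (`gamcyc_Gam`, `gam_map_int`,
`cyc_map_int`), `Δ S' b + S' b Δ = z b` (`slot_homotopy`).  By definition
`am k F N m = htr (mv k Δ) (mv k (G.map Int.cast))`.  So `HRR` gives, for every `σ : Perm (Fin i)`,
`am k F N m = (-1)^i sgn σ trace (mv k (G.map Int.cast * ((List.ofFn S').reverse.prod).map rho *
   ∏_j (Gam D).map (T.th (σ j))))`.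
By `slot_mul` (and `slot_one`) `(List.ofFn S').reverse.prod = slot 0 S`; by `slot_map`, `Gam_map` the matrix is
`gam R * cyc R * slot 0 (S.map rho) * ∏_j Gam (D.map (T.th (σ j)))`, and by `trace_mv` and `str_gam` its
trace is `tr (str (cyc R * (slot 0 (S.map rho) * ∏_j Gam (D.map (T.th (σ j))))))`.
(2) By `PLR` (the matrices `D.map (T.th (σ j))` are odd) there is a polynomial `p_σ` of degree `≤ i` with
`am k F N m = (-1)^i sgn σ p_σ(m+1)` for all `m`, and
`i! coeff_i p_σ = ∑_π sgn π ∑_α sgn (α 0) tr (rho (S (α 0) (α 1)) ∏_j θ_{σ j} (D (α (π⁻¹ j).succ) (α ((π⁻¹ j).succ+1))))`.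
Let `p = (1/i!) ∑_σ (-1)^i sgn σ p_σ`.  Then `am k F N m = p(m+1)` (average over `σ`), `natDegree p ≤ i`, and
`(i!)² coeff_i p = (-1)^i ∑_α sgn (α 0) Psi tr rho θ (S (α 0) (α 1)) (fun j => D (α j.succ) (α (j.succ+1)))`
(substitute `π → π⁻¹`).
(3) Let `L` be the map of `MDL` for `tr, rho, θ = T.th` (`htr`: `LinearMap.trace_mul_comm`; `hθ`:
`ThD.th_mul`; `hN`).  By `om_L` the right side of the last formula is `(-1)^i L (om d F.deg S F.D i)`.  If the
form is in `Iz z i • ⊤`, then it is `∑_{b<i} z b • y b` (`mem_Iz_top`), and `L (z b • y b) = 0` since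
`rho (z b) = 0` (`lsmul_z`).  So `coeff_i p = 0` (characteristic zero).
-/

open scoped BigOperators

namespace NCG

universe u

private theorem CORE_G {ι : Type} [Fintype ι] [DecidableEq ι] (deg : ι → ℤ) (R : Type*) [Ring R]
    (m : ℕ) : (gam deg ℤ (m + 1) * cyc deg ℤ m).map (Int.cast : ℤ → R) =
      gam deg R (m + 1) * cyc deg R m := by
  have h : (gam deg ℤ (m + 1) * cyc deg ℤ m).map (Int.castRingHom R) =
      (gam deg ℤ (m + 1)).map (Int.castRingHom R) * (cyc deg ℤ m).map (Int.castRingHom R) :=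
    Matrix.map_mul
  rw [← gam_map_int (R := R), ← cyc_map_int (R := R)]
  exact h

private theorem CORE_slot_prod {ι : Type} [Fintype ι] [DecidableEq ι] (deg : ι → ℤ) {R : Type*}
    [Ring R] {m : ℕ} (u : Fin m) {i : ℕ} (s : Fin i → Matrix ι ι R) :
    (List.ofFn fun b => slot deg u (s b)).reverse.prod = slot deg u (List.ofFn s).reverse.prod := by
  let f : Matrix ι ι R →* Matrix (Fin m → ι) (Fin m → ι) R :=
    { toFun := slot deg u, map_one' := slot_one deg u, map_mul' := slot_mul deg u }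
  have h1 : (List.ofFn fun b => slot deg u (s b)) = (List.ofFn s).map f := by
    rw [List.map_ofFn]
    rfl
  rw [h1, ← List.map_reverse, ← map_list_prod]
  rfl

section

variable {k A : Type u} [Field k] [CharZero k] [CommRing A] [Algebra k A]
  {N : Type u} [AddCommGroup N] [Module k N] [Module A N] [IsScalarTower k A N]

private theorem CORE_odd (F : Cx A) (a b : F.ι) (h : F.D a b ≠ 0) : Odd (F.deg a - F.deg b) := by
  rw [F.homog a b h]
  exact ⟨-1, by ring⟩

private theorem CORE_step (F : Cx A) (z : ℕ → A) (i : ℕ) (hz : WReg z i N)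
    (T : ThD k A N z i) (s : Fin i → Matrix F.ι F.ι A)
    (hodd : ∀ b α β, s b α β ≠ 0 → Odd (F.deg α - F.deg β))
    (hs : ∀ b, F.D * s b + s b * F.D = z b • (1 : Matrix F.ι F.ι A))
    [Module.Finite k (Nb A N z i)]
    (m : ℕ) (hfin : Module.Finite k (Hm (mv k (M := N) (F.del (m + 1)))))
    (σ : Equiv.Perm (Fin i)) :
    am k F N m = (-1) ^ i * (((Equiv.Perm.sign σ : ℤˣ) : ℤ) : k) *
      LinearMap.trace k (Nb A N z i) (str F.deg (m + 1)
        (cyc F.deg (Module.End k (Nb A N z i)) m *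
          (slot F.deg 0 (((List.ofFn s).reverse.prod).map (Algebra.lsmul k k (Nb A N z i))) *
            (List.ofFn fun j => Gam F.deg (m + 1) (F.D.map (T.th (σ j)))).prod))) := by
  have hΔ : F.del (m + 1) * F.del (m + 1) = 0 := Gam_sq F.deg (m + 1) F.D (CORE_odd F) F.sq
  have hG : (gam F.deg ℤ (m + 1) * cyc F.deg ℤ m).map (Int.cast : ℤ → A) * F.del (m + 1) =
      -(F.del (m + 1) * (gam F.deg ℤ (m + 1) * cyc F.deg ℤ m).map (Int.cast : ℤ → A)) := by
    rw [CORE_G]
    exact gamcyc_Gam F.deg m F.D (CORE_odd F)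
  have hS : ∀ b, F.del (m + 1) * slot F.deg (0 : Fin (m + 1)) (s b) +
      slot F.deg (0 : Fin (m + 1)) (s b) * F.del (m + 1) =
      z b • (1 : Matrix (Fin (m + 1) → F.ι) (Fin (m + 1) → F.ι) A) := fun b =>
    slot_homotopy F.deg m F.D (s b) (z b) (CORE_odd F) (hodd b) (hs b)
  have h := HRR T hz (F.del (m + 1)) (gam F.deg ℤ (m + 1) * cyc F.deg ℤ m)
    (fun b => slot F.deg (0 : Fin (m + 1)) (s b)) hΔ hG hS hfin σ
  rw [CORE_G, CORE_G] at h
  have ham : am k F N m = htr (mv k (M := N) (F.del (m + 1)))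
      (mv k (M := N) (gam F.deg A (m + 1) * cyc F.deg A m)) := rfl
  rw [ham, h, CORE_slot_prod]
  congr 1
  have hs1 : (slot F.deg (0 : Fin (m + 1)) (List.ofFn s).reverse.prod).map
      (Algebra.lsmul k k (Nb A N z i)) =
      slot F.deg (0 : Fin (m + 1))
        (((List.ofFn s).reverse.prod).map (Algebra.lsmul k k (Nb A N z i))) :=
    slot_map F.deg (0 : Fin (m + 1)) (List.ofFn s).reverse.prod
      ((Algebra.lsmul k k (Nb A N z i)).toRingHom.toAddMonoidHom)
  have hs2 : ∀ j, (F.del (m + 1)).map (T.th (σ j)) = Gam F.deg (m + 1) (F.D.map (T.th (σ j))) :=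
    fun j => Gam_map F.deg (m + 1) F.D (T.th (σ j)).toAddMonoidHom
  rw [hs1]
  simp only [hs2]
  rw [trace_mv, mul_assoc, mul_assoc, ← str_gam, map_sum]

end

variable {k A Ω : Type u} [Field k] [CharZero k] [CommRing A] [Algebra k A] [AddCommGroup Ω]
  [Module k Ω] [Module A Ω] [IsScalarTower k A Ω] {d : Derivation k A Ω} {𝔪 : Ideal A}
  {N : Type u} [AddCommGroup N] [Module k N] [Module A N] [IsScalarTower k A N]

theorem CORE (U : UnivDer k A Ω d 𝔪) (F : Cx A) (z : ℕ → A) (i : ℕ) (hz : WReg z i N)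
    (s : Fin i → Matrix F.ι F.ι A)
    (hodd : ∀ b α β, s b α β ≠ 0 → Odd (F.deg α - F.deg β))
    (hs : ∀ b, F.D * s b + s b * F.D = z b • (1 : Matrix F.ι F.ι A))
    [Module.Finite k (Nb A N z i)]
    (hN : ∃ M, ∀ a ∈ 𝔪 ^ M, Algebra.lsmul k k (Nb A N z i) a = 0)
    (hfin : ∀ m, Module.Finite k (Hm (mv k (M := N) (F.del (m + 1))))) :
    ∃ p : Polynomial k, p.natDegree ≤ i ∧ (∀ m : ℕ, am k F N m = p.eval ((m : k) + 1)) ∧
      (om d F.deg (List.ofFn s).reverse.prod F.D i ∈
        Iz z i • (⊤ : Submodule A (ExteriorAlgebra A Ω)) → p.coeff i = 0) := by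
  classical
  obtain ⟨T⟩ := THD_exists k A N hz
  set tr : Module.End k (Nb A N z i) →ₗ[k] k := LinearMap.trace k (Nb A N z i) with htrdef
  set rho : A →ₐ[k] Module.End k (Nb A N z i) := Algebra.lsmul k k (Nb A N z i) with hrho
  set S : Matrix F.ι F.ι A := (List.ofFn s).reverse.prod with hSdef
  have hX : ∀ (σ : Equiv.Perm (Fin i)) (j : Fin i) (a b : F.ι),
      (F.D.map (T.th (σ j))) a b ≠ 0 → Odd (F.deg a - F.deg b) := by
    intro σ j a b h
    apply CORE_odd F a b
    intro h0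
    apply h
    rw [Matrix.map_apply, h0, map_zero]
  choose P hP1 hP2 hP3 using fun σ : Equiv.Perm (Fin i) =>
    PLR F.deg tr (S.map rho) (fun j => F.D.map (T.th (σ j))) (hX σ)
  have hfac : ((i.factorial : ℕ) : k) ≠ 0 := Nat.cast_ne_zero.2 (Nat.factorial_ne_zero i)
  let c : Equiv.Perm (Fin i) → k := fun σ => (-1) ^ i * (((Equiv.Perm.sign σ : ℤˣ) : ℤ) : k)
  refine ⟨Polynomial.C ((i.factorial : k)⁻¹) * ∑ σ, Polynomial.C (c σ) * P σ, ?_, ?_, ?_⟩
  · refine le_trans (Polynomial.natDegree_C_mul_le _ _) ?_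
    refine Polynomial.natDegree_sum_le_of_forall_le _ _ fun σ _ => ?_
    exact le_trans (Polynomial.natDegree_C_mul_le _ _) (hP1 σ)
  · intro m
    rw [Polynomial.eval_mul, Polynomial.eval_C, Polynomial.eval_finset_sum]
    have h1 : ∀ σ : Equiv.Perm (Fin i),
        (Polynomial.C (c σ) * P σ).eval ((m : k) + 1) = am k F N m := by
      intro σ
      rw [Polynomial.eval_mul, Polynomial.eval_C, ← hP2 σ m]
      exact (CORE_step F z i hz T s hodd hs m (hfin m) σ).symm
    rw [Finset.sum_congr rfl fun σ _ => h1 σ, Finset.sum_const, Finset.card_univ, Fintype.card_perm,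
      Fintype.card_fin, nsmul_eq_mul, ← mul_assoc, inv_mul_cancel₀ hfac, one_mul]
  · intro hom
    obtain ⟨L, hL1, hL2⟩ := MDL U tr rho T.th (fun f g => LinearMap.trace_mul_comm k f g)
      T.th_mul hN
    have h1 := om_L d F.deg L S F.D i (fun a x => Psi tr rho T.th a x) hL1
    have h2 : L (om d F.deg S F.D i) = 0 := by
      obtain ⟨e, he⟩ := (mem_Iz_top z i _).1 hom
      rw [he, map_sum]
      exact Finset.sum_eq_zero fun b hb => hL2 (z b) (lsmul_z b (Finset.mem_range.1 hb)) _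
    rw [h2] at h1
    have h3 : (i.factorial : k) * ((i.factorial : k) *
        (Polynomial.C ((i.factorial : k)⁻¹) * ∑ σ, Polynomial.C (c σ) * P σ).coeff i) =
        (-1) ^ i * ∑ α : Fin (i + 1) → F.ι, (sgn (F.deg (α 0)) : k) *
          Psi tr rho T.th (S (α 0) (α 1)) (fun j => F.D (α j.succ) (α (j.succ + 1))) := by
      rw [Polynomial.coeff_C_mul, ← mul_assoc (i.factorial : k) ((i.factorial : k)⁻¹),
        mul_inv_cancel₀ hfac, one_mul, Polynomial.finset_sum_coeff, Finset.mul_sum]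
      have h4 : ∀ σ : Equiv.Perm (Fin i), (i.factorial : k) * (Polynomial.C (c σ) * P σ).coeff i =
          ∑ α : Fin (i + 1) → F.ι, (-1) ^ i * ((sgn (F.deg (α 0)) : k) *
            ∑ π : Equiv.Perm (Fin i),
              (((Equiv.Perm.sign σ * Equiv.Perm.sign π : ℤˣ) : ℤ)) •
                tr (rho (S (α 0) (α 1)) * (List.ofFn fun j =>
                  T.th (σ j) (F.D (α (π j).succ) (α ((π j).succ + 1)))).prod)) := by
        intro σ
        rw [Polynomial.coeff_C_mul]
        have h5 : (i.factorial : k) * (c σ * (P σ).coeff i) =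
            c σ * ((i.factorial : k) * (P σ).coeff i) := by ring
        rw [h5, hP3 σ, Finset.mul_sum]
        rw [← Equiv.sum_comp (Equiv.inv (Equiv.Perm (Fin i)))]
        simp only [Finset.mul_sum]
        rw [Finset.sum_comm]
        refine Finset.sum_congr rfl fun α _ => Finset.sum_congr rfl fun π _ => ?_
        rw [Equiv.inv_apply, Equiv.Perm.sign_inv, inv_inv, zsmul_eq_mul]
        simp only [Matrix.map_apply]
        simp only [c]
        push_cast
        ring
      rw [Finset.sum_congr rfl fun σ _ => h4 σ, Finset.sum_comm, Finset.mul_sum]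
      refine Finset.sum_congr rfl fun α _ => ?_
      rw [← Finset.mul_sum, ← Finset.mul_sum]
      rfl
    rw [← h1, mul_zero] at h3
    rcases mul_eq_zero.1 h3 with h4 | h4
    · exact absurd h4 hfac
    · rcases mul_eq_zero.1 h4 with h5 | h5
      · exact absurd h5 hfac
      · exact h5

end NCG
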