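import Pool.Agent.NCG.SLT

/-!
# CTR: contraction of the last tensor factor in the trace of the cyclic rotation

`CTR`: for `Y` acting on `m + 1` factors and `y` a matrix,
`str (cyc * (Y ⊗ 1) * slot last y)` on `m + 2` factors `= str (cyc * Y * slot last y)` on `m + 1` factors.

Write `κ b` for the sign of `cyc`, `ε b = sgn (total degree of b)`.  For any `Z`:
`str (cyc * Z) = ∑_b ε (rot b) κ b Z b (rot b) = ∑_b ε b κ b Z b (rot b)` (substitute `a = rot b`; `rot` is a
bijection and preserves the total degree).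
Left side: `b = snoc b' β` with `b'` a tuple with `m + 1` entries, `β : ι`.
`rot b = snoc (snoc (tail b') β) (b' 0)`, i.e. `(b'_1, ..., b'_m, β, b'_0)`.
`(ext1 Y * slot last y) b (rot b) = ∑_c ext1 Y b c * slot last y c (rot b)`: `c (last) = β`, and `c` agrees
with `rot b` outside `last`, so `init c = (b'_1, ..., b'_m, β) = snoc (tail b') β =: c'`; the value is
`Y b' c' * sgn ((β - b'_0) * ∑ c') * y β (b'_0)` (writing `β` for `deg β` etc.), `∑ c' = ∑_{v≥1} b'_v + β`.
Right side: `(Y * slot last y) b' (rot b') = ∑_{c'} Y b' c' * slot last y c' (rot b')`, where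
`rot b' = (b'_1, ..., b'_m, b'_0)` so `c' = snoc (tail b') β` for `β : ι`, with value
`Y b' c' * sgn ((β - b'_0) * ∑_{v≥1} b'_v) * y β (b'_0)`.
Signs: left `ε(b) κ(b) sgn (..)` with `ε(b) = sgn (∑ b' + β)`, `κ(b) = sgn (b'_0 (∑_{v≥1} b'_v + β))`;
right `ε(b') κ(b') sgn(..)`, `κ(b') = sgn (b'_0 ∑_{v≥1} b'_v)`.
The quotient is `sgn β · sgn (b'_0 β) · sgn ((β - b'_0) β) = sgn β · sgn (b'_0 β) · sgn (β²) · sgn (b'_0 β) = 1`.

`CTR_base`: on one factor `cyc = 1` and `slot 0 x a b = x (a 0) (b 0)`.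

Use the equivalence `Fin.snocEquiv (fun _ => ι)` / `Fin.snoc`, `Fin.init` to write sums over tuples with
`m + 2` entries as double sums.
-/

open scoped BigOperators

namespace NCG

section

variable {ι : Type} [Fintype ι] [DecidableEq ι] (deg : ι → ℤ) {R : Type*} [Ring R]

private theorem CTR_rot_castSucc {m : ℕ} (b : Fin (m + 1) → ι) (j : Fin m) :
    rot b j.castSucc = b j.succ := by
  unfold rot
  rw [Fin.snoc_castSucc]

private theorem CTR_rot_last {m : ℕ} (b : Fin (m + 1) → ι) : rot b (Fin.last m) = b 0 := by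
  unfold rot
  rw [Fin.snoc_last]

private theorem CTR_rot_init {m : ℕ} (b : Fin (m + 1) → ι) :
    Fin.init (rot b) = fun j : Fin m => b j.succ := by
  funext j
  exact CTR_rot_castSucc b j

private theorem CTR_sum_rot {m : ℕ} (b : Fin (m + 1) → ι) :
    ∑ j, deg (rot b j) = ∑ j, deg (b j) := by
  rw [Fin.sum_univ_castSucc, Fin.sum_univ_succ (fun j => deg (b j)), CTR_rot_last, add_comm]
  congr 1
  exact Finset.sum_congr rfl fun j _ => by rw [CTR_rot_castSucc]

theorem str_cyc (m : ℕ) (Z : Matrix (Fin (m + 1) → ι) (Fin (m + 1) → ι) R) :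
    str deg (m + 1) (cyc deg R m * Z) =
      ∑ b : Fin (m + 1) → ι,
        (sgn (∑ j, deg (b j)) * sgn (deg (b 0) * ∑ j : Fin m, deg (b j.succ)) : R) *
          Z b (rot b) := by
  unfold str
  have h : ∀ a : Fin (m + 1) → ι, (sgn (∑ j, deg (a j)) : R) * (cyc deg R m * Z) a a =
      ∑ b, (sgn (∑ j, deg (a j)) : R) * (cyc deg R m a b * Z b a) := fun a => by
    rw [Matrix.mul_apply, Finset.mul_sum]
  rw [Finset.sum_congr rfl fun a _ => h a, Finset.sum_comm]
  refine Finset.sum_congr rfl fun b _ => ?_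
  rw [Finset.sum_eq_single (rot b)]
  · rw [CTR_sum_rot]
    unfold cyc
    rw [if_pos rfl, mul_assoc]
  · intro a _ ha
    unfold cyc
    rw [if_neg ha, zero_mul, mul_zero]
  · intro h
    exact absurd (Finset.mem_univ _) h

private theorem CTR_slot_last {m : ℕ} (y : Matrix ι ι R) (a b : Fin (m + 1) → ι) :
    slot deg (Fin.last m) y a b = if Fin.init a = Fin.init b then
      (sgn ((deg (a (Fin.last m)) - deg (b (Fin.last m))) * ∑ j : Fin m, deg (Fin.init a j)) : R) *
        y (a (Fin.last m)) (b (Fin.last m)) else 0 := by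
  unfold slot
  have h1 : (∀ v, v ≠ Fin.last m → a v = b v) ↔ Fin.init a = Fin.init b := by
    constructor
    · intro h
      funext j
      exact h j.castSucc (Fin.castSucc_lt_last j).ne
    · intro h v hv
      obtain ⟨j, rfl⟩ := Fin.exists_castSucc_eq.2 hv
      exact congrFun h j
  have h2 : ∑ v ∈ Finset.univ.filter (· < Fin.last m), deg (a v) =
      ∑ j : Fin m, deg (Fin.init a j) := by
    rw [Finset.sum_filter, Fin.sum_univ_castSucc]
    have h3 : ¬ (Fin.last m < Fin.last m) := lt_irrefl _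
    rw [if_neg h3, add_zero]
    exact Finset.sum_congr rfl fun j _ => by
      rw [if_pos (Fin.castSucc_lt_last j)]
      rfl
  by_cases h : Fin.init a = Fin.init b
  · rw [if_pos (h1.2 h), if_pos h, h2]
  · rw [if_neg (fun h' => h (h1.1 h')), if_neg h]

private theorem CTR_ext_slot {m : ℕ} (Y : Matrix (Fin m → ι) (Fin m → ι) R) (y : Matrix ι ι R)
    (b r : Fin (m + 1) → ι) :
    (ext1 Y * slot deg (Fin.last m) y) b r = Y (Fin.init b) (Fin.init r) *
      ((sgn ((deg (b (Fin.last m)) - deg (r (Fin.last m))) * ∑ j : Fin m, deg (Fin.init r j)) : R) *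
        y (b (Fin.last m)) (r (Fin.last m))) := by
  rw [Matrix.mul_apply, Finset.sum_eq_single (Fin.snoc (α := fun _ => ι) (Fin.init r) (b (Fin.last m)))]
  · rw [CTR_slot_last]
    unfold ext1
    simp only [Fin.snoc_last, Fin.init_snoc, if_true]
  · intro c _ hc
    rw [CTR_slot_last]
    unfold ext1
    by_cases h1 : b (Fin.last m) = c (Fin.last m)
    · have h2 : ¬ (Fin.init c = Fin.init r) := by
        intro h2
        apply hc
        rw [← h2, h1, Fin.snoc_init_self]
      rw [if_neg h2, mul_zero]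
    · rw [if_neg h1, zero_mul]
  · intro h
    exact absurd (Finset.mem_univ _) h

private theorem CTR_sum_snoc {m : ℕ} (f : (Fin (m + 1) → ι) → R) :
    ∑ c, f c = ∑ c' : Fin m → ι, ∑ γ : ι, f (Fin.snoc (α := fun _ => ι) c' γ) := by
  rw [← (Fin.snocEquiv (fun _ : Fin (m + 1) => ι)).sum_comp, Fintype.sum_prod_type, Finset.sum_comm]
  rfl

private theorem CTR_mul_slot {m : ℕ} (Y : Matrix (Fin (m + 1) → ι) (Fin (m + 1) → ι) R)
    (y : Matrix ι ι R) (b r : Fin (m + 1) → ι) :
    (Y * slot deg (Fin.last m) y) b r = ∑ γ : ι, Y b (Fin.snoc (α := fun _ => ι) (Fin.init r) γ) *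
      ((sgn ((deg γ - deg (r (Fin.last m))) * ∑ j : Fin m, deg (Fin.init r j)) : R) *
        y γ (r (Fin.last m))) := by
  rw [Matrix.mul_apply, CTR_sum_snoc, Finset.sum_eq_single (Fin.init r)]
  · refine Finset.sum_congr rfl fun γ _ => ?_
    rw [CTR_slot_last]
    simp only [Fin.snoc_last, Fin.init_snoc, if_true]
  · intro c _ hc
    refine Finset.sum_eq_zero fun γ _ => ?_
    rw [CTR_slot_last, Fin.init_snoc, if_neg hc, mul_zero]
  · intro h
    exact absurd (Finset.mem_univ _) h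

private theorem CTR_sign (s t u s' t' u' : ℤ) (h : sgn (s + t + u) = sgn (s' + t' + u')) (P Q : R) :
    ((sgn s : R) * (sgn t : R)) * (P * ((sgn u : R) * Q)) =
      ((sgn s' : R) * (sgn t' : R)) * (P * ((sgn u' : R) * Q)) := by
  have key : ∀ a b c : ℤ, ((sgn a : R) * (sgn b : R)) * (P * ((sgn c : R) * Q)) =
      ((sgn (a + b + c) : ℤ) : R) * (P * Q) := by
    intro a b c
    rw [sgn_add, sgn_add, Int.cast_mul, Int.cast_mul]
    have h1 : P * ((sgn c : R) * Q) = (sgn c : R) * (P * Q) := by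
      rw [← mul_assoc, ← (Int.cast_commute (sgn c) P).eq, mul_assoc]
    rw [h1]
    simp only [mul_assoc]
  rw [key, key, h]

theorem CTR (m : ℕ) (Y : Matrix (Fin (m + 1) → ι) (Fin (m + 1) → ι) R) (y : Matrix ι ι R) :
    str deg (m + 2) (cyc deg R (m + 1) * (ext1 Y * slot deg (Fin.last (m + 1)) y)) =
      str deg (m + 1) (cyc deg R m * (Y * slot deg (Fin.last m) y)) := by
  rw [str_cyc, str_cyc, CTR_sum_snoc]
  refine Finset.sum_congr rfl fun b _ => ?_
  rw [CTR_mul_slot, Finset.mul_sum]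
  refine Finset.sum_congr rfl fun β _ => ?_
  rw [CTR_ext_slot, CTR_rot_init, CTR_rot_last, CTR_rot_init, CTR_rot_last, Fin.init_snoc,
    Fin.snoc_last]
  have h0 : (Fin.snoc (α := fun _ => ι) b β : Fin (m + 2) → ι) 0 = b 0 := by
    have : (0 : Fin (m + 2)) = Fin.castSucc (0 : Fin (m + 1)) := rfl
    rw [this, Fin.snoc_castSucc]
  have h1 : (fun j : Fin (m + 1) => (Fin.snoc (α := fun _ => ι) b β : Fin (m + 2) → ι) j.succ) =
      Fin.snoc (α := fun _ => ι) (fun j : Fin m => b j.succ) β := by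
    funext j
    refine Fin.lastCases ?_ (fun i => ?_) j
    · rw [Fin.snoc_last, Fin.succ_last, Fin.snoc_last]
    · rw [Fin.snoc_castSucc, Fin.succ_castSucc, Fin.snoc_castSucc]
  have h2 : ∑ j : Fin (m + 1), deg ((Fin.snoc (α := fun _ => ι) b β : Fin (m + 2) → ι) j.succ) =
      ∑ j : Fin m, deg (b j.succ) + deg β := by
    have h3 : ∀ j : Fin (m + 1), deg ((Fin.snoc (α := fun _ => ι) b β : Fin (m + 2) → ι) j.succ) =
        deg ((Fin.snoc (α := fun _ => ι) (fun j : Fin m => b j.succ) β : Fin (m + 1) → ι) j) :=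
      fun j => congrArg deg (congrFun h1 j)
    rw [Finset.sum_congr rfl fun j _ => h3 j, Fin.sum_univ_castSucc]
    simp only [Fin.snoc_castSucc, Fin.snoc_last]
  have h4 : ∑ j : Fin (m + 2), deg ((Fin.snoc (α := fun _ => ι) b β : Fin (m + 2) → ι) j) =
      deg (b 0) + (∑ j : Fin m, deg (b j.succ) + deg β) := by
    rw [Fin.sum_univ_succ, h2, h0]
  have h5 : ∑ j : Fin (m + 1), deg (b j) = deg (b 0) + ∑ j : Fin m, deg (b j.succ) :=
    Fin.sum_univ_succ _
  rw [h0, h2, h4, h5, h1]
  apply CTR_sign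
  apply sgn_congr
  have h6 : Even (deg β * (deg β + 1)) := Int.even_mul_succ_self _
  have h7 : deg (b 0) + (∑ j : Fin m, deg (b j.succ) + deg β) +
      deg (b 0) * (∑ j : Fin m, deg (b j.succ) + deg β) +
      (deg β - deg (b 0)) * (∑ j : Fin m, deg (b j.succ) + deg β) -
      (deg (b 0) + ∑ j : Fin m, deg (b j.succ) + deg (b 0) * ∑ j : Fin m, deg (b j.succ) +
      (deg β - deg (b 0)) * ∑ j : Fin m, deg (b j.succ)) = deg β * (deg β + 1) := by ring
  rw [h7]
  exact h6

theorem CTR_base (x : Matrix ι ι R) :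
    str deg 1 (cyc deg R 0 * slot deg (0 : Fin 1) x) = str1 deg x := by
  refine (str_cyc deg 0 (slot deg (0 : Fin 1) x)).trans ?_
  unfold str1
  rw [← (Equiv.funUnique (Fin 1) ι).symm.sum_comp]
  refine Finset.sum_congr rfl fun α _ => ?_
  have h1 : ∀ b : Fin 1 → ι, rot b = b := by
    intro b
    funext j
    have hj : j = Fin.last 0 := Subsingleton.elim (α := Fin 1) _ _
    rw [hj, CTR_rot_last]
    rfl
  rw [h1]
  have h2 := CTR_slot_last deg (m := 0) x ((Equiv.funUnique (Fin 1) ι).symm α)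
    ((Equiv.funUnique (Fin 1) ι).symm α)
  have h3 : (Fin.last 0 : Fin 1) = 0 := rfl
  rw [h3] at h2
  rw [h2]
  simp

end

end NCG
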