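import Pool.Agent.NCG.MVB
import Pool.Agent.NCG.HMB
import Pool.Agent.NCG.WRB

/-!
# DBL: reduction of the coefficients modulo a regular sequence doubles the homology

`DBL_one`.  `z` is a nonzerodivisor on `N`, `Δ² = 0`, `Δ S + S Δ = z`, `T = (J → N)`,
`T' = (J → N')` where `q : N → N'` is surjective `A`-linear with kernel `z N`.
If `H(T)` is finite-dimensional over `k`, then so is `H(T')`, `dim H(T') = 2 dim H(T)`, and a cycle of
`T` whose image in `T'` is a boundary is a boundary.

Proof.  (inj) Let `Δ x = 0`, `q x = Δ q u` i.e. `x = Δ u + z v`.  Then `z Δ v = 0`, so `Δ v = 0`, and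
`z v = Δ S v + S Δ v = Δ (S v)`, so `x = Δ (u + S v)`.
(seq) There is an exact sequence `0 → H(T) → H(T') → H(T) → 0`: for a cycle `q x` of `T'`,
`Δ x = z y` with `y` unique, `Δ y = 0` (as `z Δ y = Δ Δ x = 0`); `∂ [q x] = [y]`.  Well defined:
replacing `x` by `x + Δ u + z v` replaces `y` by `y + Δ v`.  Surjective: for a cycle `y` let `x = S y`:
`Δ S y = z y - S Δ y = z y`.  Kernel: if `y = Δ v` then `x - z v` is a cycle of `T` with the same image
in `T'`.  So `dim H(T') = 2 dim H(T)` (`LinearMap.finrank_range_add_finrank_ker` or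
`Module.finrank`-additivity on the exact sequence; to build `∂` formally one may work with
subspaces instead: let `K' ⊆ T` be the space of `x` with `Δ x ∈ z T`; the linear map
`K' → T → H(T)`, `x ↦ [y]`, is surjective with kernel `ker Δ + z T`, and `K' → H(T')` is surjective
with kernel `im Δ + z T`; so `dim H(T') = dim H(T) + dim ((ker Δ + z T)/(im Δ + z T))` and the last space is
isomorphic to `H(T)` by (inj)).

`DBL` (for a weakly regular sequence `z 0, ..., z (i-1)` and `N̄ = N ⧸ Iz z i N`): apply `DBL_one` to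
`N_l = N ⧸ Iz z l N`, `z l`, and the canonical surjection `N_l → N_{l+1}`
(`Submodule.factor`/`Submodule.mapQ`; its kernel is `z l N_l`, and `z l` is a nonzerodivisor on
`N_l` by `WReg`), for `l = 0, ..., i - 1`, by induction on `l`.  (`N ⧸ Iz z 0 N` is isomorphic to `N`.)
-/

open scoped BigOperators

namespace NCG

universe u v w

variable {k : Type w} {A : Type u} [Field k] [CommRing A] [Algebra k A]
  {N : Type v} [AddCommGroup N] [Module k N] [Module A N] [IsScalarTower k A N]
  {N' : Type v} [AddCommGroup N'] [Module k N'] [Module A N'] [IsScalarTower k A N']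
  {J : Type} [Fintype J] [DecidableEq J]

section abstr

variable {F T T' : Type*} [Field F] [AddCommGroup T] [Module F T] [AddCommGroup T'] [Module F T']

private theorem DBL_abs (δ : T →ₗ[F] T) (δ' : T' →ₗ[F] T') (q : T →ₗ[F] T') (ζ σ : T →ₗ[F] T)
    (hq : Function.Surjective q) (hδ : ∀ x, δ (δ x) = 0) (hqδ : ∀ x, q (δ x) = δ' (q x))
    (hker : ∀ x, q x = 0 ↔ ∃ y, x = ζ y) (hζ : ∀ x, ζ x = 0 → x = 0)
    (hσ : ∀ x, δ (σ x) + σ (δ x) = ζ x) :
    Nonempty ((Hm δ × Hm δ) ≃ₗ[F] Hm δ') ∧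
      ∀ x, δ x = 0 → (∃ y, δ' y = q x) → ∃ y, δ y = x := by
  have hζδ : ∀ x, δ (ζ x) = ζ (δ x) := by
    intro x
    rw [← hσ x, ← hσ (δ x), map_add, hδ, hδ, map_zero, zero_add, add_zero]
  have hqζ : ∀ x, q (ζ x) = 0 := fun x => (hker _).2 ⟨x, rfl⟩
  have hσc : ∀ x, δ x = 0 → δ (σ x) = ζ x := by
    intro x hx
    have := hσ x
    rw [hx, map_zero, add_zero] at this
    exact this
  -- the key injectivity statement
  have hinj : ∀ x y, δ x = 0 → δ y = 0 → (∃ w, δ' w = q x + q (σ y)) →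
      (∃ u, δ u = x) ∧ ∃ v, δ v = y := by
    rintro x y hx hy ⟨w, hw⟩
    obtain ⟨u, rfl⟩ := hq w
    have h1 : q (x + σ y - δ u) = 0 := by
      rw [map_sub, map_add, hqδ, hw, sub_self]
    obtain ⟨v, hv⟩ := (hker _).1 h1
    have h2 : ζ (y - δ v) = 0 := by
      have h3 := congrArg δ hv
      rw [map_sub, map_add, hx, hσc y hy, hδ, hζδ] at h3
      rw [map_sub, ← h3]
      abel
    have h4 : y = δ v := sub_eq_zero.1 (hζ _ h2)
    refine ⟨⟨u + σ v, ?_⟩, v, h4.symm⟩
    have h5 := hσ v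
    have h6 : x = δ u + ζ v - σ y := by
      rw [← hv]; abel
    rw [h6, h4, ← h5, map_add]
    abel
  have hac : ∀ x : LinearMap.ker δ, q x.1 ∈ LinearMap.ker δ' := by
    rintro ⟨x, hx⟩
    rw [LinearMap.mem_ker] at hx ⊢
    rw [← hqδ, hx, map_zero]
  have hbc : ∀ x : LinearMap.ker δ, q (σ x.1) ∈ LinearMap.ker δ' := by
    rintro ⟨x, hx⟩
    rw [LinearMap.mem_ker] at hx ⊢
    rw [← hqδ, hσc x hx, hqζ]
  let a : LinearMap.ker δ →ₗ[F] LinearMap.ker δ' :=
    (q ∘ₗ (LinearMap.ker δ).subtype).codRestrict (LinearMap.ker δ') hac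
  let b : LinearMap.ker δ →ₗ[F] LinearMap.ker δ' :=
    (q ∘ₗ σ ∘ₗ (LinearMap.ker δ).subtype).codRestrict (LinearMap.ker δ') hbc
  have ha : ((LinearMap.range δ).comap (LinearMap.ker δ).subtype) ≤
      ((LinearMap.range δ').comap (LinearMap.ker δ').subtype).comap a := by
    rintro ⟨x, hx⟩ ⟨w, hw⟩
    exact ⟨q w, by rw [← hqδ, hw]; rfl⟩
  have hb : ((LinearMap.range δ).comap (LinearMap.ker δ).subtype) ≤
      ((LinearMap.range δ').comap (LinearMap.ker δ').subtype).comap b := by
    rintro ⟨x, hx⟩ ⟨w, hw⟩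
    refine ⟨- q (σ w), ?_⟩
    have h1 : (LinearMap.ker δ).subtype ⟨x, hx⟩ = x := rfl
    rw [h1] at hw
    show δ' (- q (σ w)) = q (σ x)
    rw [map_neg, ← hqδ, ← hw]
    have h2 := hσ w
    have h3 : σ (δ w) = ζ w - δ (σ w) := by rw [← h2]; abel
    rw [h3, map_sub, hqζ, zero_sub]
  let i : Hm δ →ₗ[F] Hm δ' := Submodule.mapQ _ _ a ha
  let j : Hm δ →ₗ[F] Hm δ' := Submodule.mapQ _ _ b hb
  refine ⟨⟨LinearEquiv.ofBijective (i.coprod j) ⟨?_, ?_⟩⟩, ?_⟩
  · rw [← LinearMap.ker_eq_bot, LinearMap.ker_eq_bot']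
    rintro ⟨x', y'⟩ hxy
    obtain ⟨⟨x, hx⟩, rfl⟩ := Submodule.Quotient.mk_surjective _ x'
    obtain ⟨⟨y, hy⟩, rfl⟩ := Submodule.Quotient.mk_surjective _ y'
    have h1 : (Submodule.Quotient.mk (a ⟨x, hx⟩ + b ⟨y, hy⟩) : Hm δ') = 0 := hxy
    rw [Submodule.Quotient.mk_eq_zero] at h1
    obtain ⟨w, hw⟩ := h1
    have h2 := hinj x y hx hy ⟨w, hw⟩
    obtain ⟨⟨u, hu⟩, v, hv⟩ := h2
    have e1 : (Submodule.Quotient.mk (⟨x, hx⟩ : LinearMap.ker δ) : Hm δ) = 0 :=
      (Submodule.Quotient.mk_eq_zero _).2 ⟨u, hu⟩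
    have e2 : (Submodule.Quotient.mk (⟨y, hy⟩ : LinearMap.ker δ) : Hm δ) = 0 :=
      (Submodule.Quotient.mk_eq_zero _).2 ⟨v, hv⟩
    rw [e1, e2]
    rfl
  · intro c'
    obtain ⟨⟨c, hc⟩, rfl⟩ := Submodule.Quotient.mk_surjective _ c'
    obtain ⟨x, rfl⟩ := hq c
    rw [LinearMap.mem_ker, ← hqδ] at hc
    obtain ⟨y, hy⟩ := (hker _).1 hc
    have hy0 : δ y = 0 := by
      apply hζ
      rw [← hζδ, ← hy, hδ]
    have hx0 : δ (x - σ y) = 0 := by
      rw [map_sub, hy, hσc y hy0, sub_self]
    refine ⟨(Submodule.Quotient.mk ⟨x - σ y, hx0⟩, Submodule.Quotient.mk ⟨y, hy0⟩), ?_⟩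
    show (Submodule.Quotient.mk (a ⟨x - σ y, hx0⟩ + b ⟨y, hy0⟩) : Hm δ') = _
    congr 1
    apply Subtype.ext
    show q (x - σ y) + q (σ y) = q x
    rw [map_sub, sub_add_cancel]
  · rintro x hx ⟨w, hw⟩
    exact (hinj x 0 hx (map_zero _) ⟨w, by rw [hw, map_zero, map_zero, add_zero]⟩).1

end abstr

theorem DBL_one (q : N →ₗ[A] N') (hq : Function.Surjective q) (z : A)
    (hker : ∀ x, q x = 0 ↔ ∃ y, x = z • y) (hz : ∀ x : N, z • x = 0 → x = 0)
    (Δ S : Matrix J J A) (hΔ : Δ * Δ = 0) (hS : Δ * S + S * Δ = z • (1 : Matrix J J A))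
    [Module.Finite k (Hm (mv k (M := N) Δ))] :
    Module.Finite k (Hm (mv k (M := N') Δ)) ∧
    Module.finrank k (Hm (mv k (M := N') Δ)) = 2 * Module.finrank k (Hm (mv k (M := N) Δ)) ∧
    ∀ x : J → N, mv k Δ x = 0 → (∃ y : J → N', mv k Δ y = fun a => q (x a)) →
      ∃ y : J → N, mv k Δ y = x := by
  have h1 := DBL_abs (F := k) (mv k (M := N) Δ) (mv k (M := N') Δ)
    ((q.restrictScalars k).compLeft J) (mv k (M := N) (z • (1 : Matrix J J A))) (mv k (M := N) S)
    (by
      intro y
      choose x hx using fun a => hq (y a)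
      exact ⟨x, funext hx⟩)
    (by
      intro x
      have h := congrArg (fun X => mv k (M := N) X x) hΔ
      simp only [mv_mul, mv_zero] at h
      exact h)
    (by
      intro x
      exact (mv_map k Δ q x).symm)
    (by
      intro x
      constructor
      · intro hx
        have h2 : ∀ a, ∃ y, x a = z • y := fun a => (hker _).1 (congrFun hx a)
        choose y hy using h2
        refine ⟨y, ?_⟩
        rw [mv_smul_one]
        exact funext hy
      · rintro ⟨y, rfl⟩
        rw [mv_smul_one]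
        funext a
        exact (hker _).2 ⟨y a, rfl⟩)
    (by
      intro x hx
      rw [mv_smul_one] at hx
      funext a
      exact hz _ (congrFun hx a))
    (by
      intro x
      have h := congrArg (fun X => mv k (M := N) X x) hS
      simp only [mv_add, mv_mul] at h
      exact h)
  obtain ⟨⟨e⟩, h2⟩ := h1
  refine ⟨Module.Finite.equiv e, ?_, h2⟩
  rw [← e.finrank_eq, Module.finrank_prod, two_mul]

theorem DBL {z : ℕ → A} {i : ℕ} (h : WReg z i N) (Δ : Matrix J J A) (S : Fin i → Matrix J J A)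
    (hΔ : Δ * Δ = 0) (hS : ∀ b, Δ * S b + S b * Δ = z b • (1 : Matrix J J A))
    [Module.Finite k (Hm (mv k (M := N) Δ))] :
    Module.Finite k (Hm (mv k (M := N ⧸ (Iz z i • (⊤ : Submodule A N))) Δ)) ∧
    Module.finrank k (Hm (mv k (M := N ⧸ (Iz z i • (⊤ : Submodule A N))) Δ)) =
      2 ^ i * Module.finrank k (Hm (mv k (M := N) Δ)) ∧
    ∀ x : J → N, mv k Δ x = 0 →
      (∃ y : J → N ⧸ (Iz z i • (⊤ : Submodule A N)),
        mv k Δ y = fun a => Submodule.Quotient.mk (x a)) →
      ∃ y : J → N, mv k Δ y = x := by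
  have key : ∀ l, l ≤ i →
      Module.Finite k (Hm (mv k (M := N ⧸ (Iz z l • (⊤ : Submodule A N))) Δ)) ∧
      Module.finrank k (Hm (mv k (M := N ⧸ (Iz z l • (⊤ : Submodule A N))) Δ)) =
        2 ^ l * Module.finrank k (Hm (mv k (M := N) Δ)) ∧
      ∀ x : J → N, mv k Δ x = 0 →
        (∃ y : J → N ⧸ (Iz z l • (⊤ : Submodule A N)),
          mv k Δ y = fun a => Submodule.Quotient.mk (x a)) →
        ∃ y : J → N, mv k Δ y = x := by
    intro l
    induction l with
    | zero =>
      intro _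
      have hbot : (Iz z 0 • (⊤ : Submodule A N)) = ⊥ := by
        rw [Iz_zero, Submodule.bot_smul]
      set P : Submodule A N := Iz z 0 • (⊤ : Submodule A N) with hP
      let e : N ≃ₗ[A] N ⧸ P := (Submodule.quotEquivOfEqBot P hbot).symm
      have he : ∀ x, e x = Submodule.Quotient.mk x := fun x => rfl
      let eJ : (J → N) ≃ₗ[k] (J → N ⧸ P) :=
        LinearEquiv.piCongrRight fun _ => e.restrictScalars k
      have heJ : ∀ x : J → N, eJ x = fun a => e (x a) := fun x => rfl
      obtain ⟨E⟩ := Hm_equiv eJ (δ := mv k (M := N) Δ) (δ' := mv k (M := N ⧸ P) Δ) (by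
        intro x
        rw [heJ, heJ]
        exact (mv_map k Δ e.toLinearMap x).symm)
      refine ⟨Module.Finite.equiv E, ?_, ?_⟩
      · rw [← E.finrank_eq, pow_zero, one_mul]
      · rintro x _ ⟨y, hy⟩
        refine ⟨eJ.symm y, ?_⟩
        apply eJ.injective
        have h1 : mv k (M := N ⧸ P) Δ (eJ (eJ.symm y)) = fun a => e (mv k Δ (eJ.symm y) a) := by
          rw [heJ (eJ.symm y)]
          exact mv_map k Δ e.toLinearMap _
        rw [heJ, ← h1, LinearEquiv.apply_symm_apply, hy, heJ]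
        rfl
    | succ l ih =>
      intro hl
      obtain ⟨hf, hr, hb⟩ := ih (by omega)
      set P : Submodule A N := Iz z l • (⊤ : Submodule A N) with hP
      set P' : Submodule A N := Iz z (l + 1) • (⊤ : Submodule A N) with hP'
      have hPP : P ≤ P' := Submodule.smul_mono_left (Iz_mono z (Nat.le_succ l))
      have hone := DBL_one (k := k) (N := N ⧸ P) (N' := N ⧸ P') (Submodule.factor hPP)
        (Submodule.factor_surjective hPP) (z l)
        (by
          intro x
          obtain ⟨n, rfl⟩ := Submodule.Quotient.mk_surjective _ x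
          have h1 : (Submodule.factor hPP) (Submodule.Quotient.mk n) = Submodule.Quotient.mk n :=
            rfl
          rw [h1, Submodule.Quotient.mk_eq_zero]
          constructor
          · intro hn
            obtain ⟨e, he⟩ := (mem_Iz_top z (l + 1) n).1 hn
            refine ⟨Submodule.Quotient.mk (e l), ?_⟩
            rw [← Submodule.Quotient.mk_smul, Submodule.Quotient.eq]
            rw [he, Finset.sum_range_succ, add_sub_cancel_right]
            exact (mem_Iz_top z l _).2 ⟨e, rfl⟩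
          · rintro ⟨y, hy⟩
            obtain ⟨m, rfl⟩ := Submodule.Quotient.mk_surjective _ y
            rw [← Submodule.Quotient.mk_smul, Submodule.Quotient.eq] at hy
            have h2 : n = (n - z l • m) + z l • m := by abel
            rw [h2]
            exact P'.add_mem (hPP hy) (Submodule.smul_mem_smul (Iz_self z (Nat.lt_succ_self l))
              Submodule.mem_top))
        (by
          intro x hx
          obtain ⟨n, rfl⟩ := Submodule.Quotient.mk_surjective _ x
          rw [← Submodule.Quotient.mk_smul, Submodule.Quotient.mk_eq_zero] at hx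
          rw [Submodule.Quotient.mk_eq_zero]
          exact h l (by omega) n hx)
        Δ (S ⟨l, by omega⟩) hΔ (hS ⟨l, by omega⟩)
      obtain ⟨hf', hr', hb'⟩ := hone
      refine ⟨hf', ?_, ?_⟩
      · rw [hr', hr]
        ring
      · rintro x hx ⟨y, hy⟩
        apply hb x hx
        apply hb'
        · have h1 := mv_map k Δ P.mkQ x
          have h2 : (fun a => P.mkQ (x a)) = fun a => (Submodule.Quotient.mk (x a) : N ⧸ P) := rfl
          rw [h2] at h1
          rw [h1, hx]
          funext a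
          exact map_zero _
        · exact ⟨y, hy⟩
  exact key i le_rfl

end NCG
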