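import Pool.Agent.NCG.MVB
import Pool.Agent.NCG.HMB
import Pool.Agent.NCG.CYM

/-!
# FDQ: finite-dimensionality, null-homotopies

`A` a Noetherian local `k`-algebra whose residue field is finite over `k`, `𝔪` its maximal ideal.

`FDQ_mod`: a finite `A`-module `M` with `𝔪^N M = 0` is finite over `k`.  Induction on `N`:
`𝔪^{N-1} M` is a finite module killed by `𝔪`, i.e. a finite module over the residue field, and
`M / 𝔪^{N-1} M` is finite over `k` by induction.  (Or: `A ⧸ 𝔪^N` is finite over `k`.)

`FDH`: `Δ² = 0` a matrix over `A` such that every element `w` of a power `𝔪^N` is null-homotopic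
(`Δ s + s Δ = w`), `M` a finite `A`-module.  Then the homology of `mv k Δ` on `J → M` is finite over `k`.
Proof.  Let `K = {x : J → M | Δ x = 0}`, an `A`-submodule, finite since `A` is Noetherian.  If `w ∈ 𝔪^N`
and `x ∈ K` then `w x = Δ s x + s Δ x = Δ (s x)` is a boundary.  So `Hm` is a quotient (as a `k`-space)
of `K ⧸ 𝔪^N K`, which is finite over `k` by `FDQ_mod`.

`NUL`: if `F.FinLen` then there is `N` such that every `w ∈ 𝔪^N` is of the form `D s + s D` with `s` odd.
Proof.  (i) `F.FinLen`: the homology `H` of `D` on `F.ι → A` has finite length, so it is killed by `𝔪^{N₀}`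
for some `N₀` (a finite length module over a Noetherian local ring is killed by a power of `𝔪`:
Artinian + finite; e.g. the chain `𝔪^j H` stabilises and Nakayama; or
`IsArtinianRing`-lemmas for `A ⧸ Ann H`).  I.e. if `D x = 0`, `r ∈ 𝔪^{N₀}` then `r x = D y` for some `y`.
(ii) Claim: for every `p : ℕ` (number of steps) and `r` a product of `p` elements of `𝔪^{N₀}`, there is a
matrix `s` with `(D s + s D) e_b = r e_b` for all basis vectors `b` with `deg b < lo + p`, where `lo` is a
lower bound of the degrees.  `p = 0`: `s = 0`.  Step: given `s` for `r`, `p`, and `r' ∈ 𝔪^{N₀}`.  Let `s'` be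
`r' s` on the basis vectors of degree `≠ lo + p`; for `deg b = lo + p` let `x = r e_b - s D e_b`; `D e_b` is a
combination of basis vectors of degree `lo + p - 1`, so `D s (D e_b) + s D (D e_b) = r D e_b` and hence
`D x = r D e_b - D s D e_b = 0`; so `r' x = D y` and we put `s' e_b = y`.  Then `(D s' + s' D) e_b = r' x + r' s D e_b =
r' r e_b`.  For `deg b < lo + p` nothing changes (multiplied by `r'`): `D s' e_b + s' D e_b = r' (..)`, as
the basis vectors occurring in `D e_b` have degree `< lo + p`.
(iii) For `lo + p` above all degrees we get: every product of `p` elements of `𝔪^{N₀}` is of the form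
`D s + s D`; sums too, so every element of `𝔪^{N₀ p}` is.  Finally replace `s` by its odd part
(`s a b` if `deg a - deg b` is odd, `0` otherwise): since `D` is odd, the even part of the equation
`D s + s D = w` says that the odd part of `s` satisfies the same equation.

`TFD`: `FDH` for `Δ = F.del (m+1)`, with the homotopies `slot 0 s` of `slot_homotopy`.
-/

open scoped BigOperators

namespace NCG

universe u v

variable {k : Type v} {A : Type u} [Field k] [CommRing A] [IsLocalRing A] [IsNoetherianRing A]
  [Algebra k A] [Module.Finite k (IsLocalRing.ResidueField A)]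

omit [IsNoetherianRing A] in
private theorem FDQ_simple (Q : Type u) [AddCommGroup Q] [Module k Q] [Module A Q]
    [IsScalarTower k A Q] [Module.Finite A Q]
    (h : ∀ a ∈ IsLocalRing.maximalIdeal A, ∀ x : Q, a • x = 0) : Module.Finite k Q := by
  classical
  obtain ⟨n, f, hf⟩ := Module.Finite.exists_fin' A Q
  have hres : Module.Finite k (A ⧸ IsLocalRing.maximalIdeal A) :=
    inferInstanceAs (Module.Finite k (IsLocalRing.ResidueField A))
  let q : Fin n → Q := fun j => f (Pi.single j 1)
  let ψ : Fin n → (A ⧸ IsLocalRing.maximalIdeal A) →ₗ[A] Q := fun j =>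
    Submodule.liftQ (IsLocalRing.maximalIdeal A) (LinearMap.toSpanSingleton A Q (q j)) (by
      intro a ha
      rw [LinearMap.mem_ker, LinearMap.toSpanSingleton_apply]
      exact h a ha _)
  let Ψ : (Fin n → A ⧸ IsLocalRing.maximalIdeal A) →ₗ[k] Q :=
    ∑ j, ((ψ j).restrictScalars k) ∘ₗ LinearMap.proj j
  refine Module.Finite.of_surjective Ψ ?_
  intro x
  obtain ⟨a, rfl⟩ := hf x
  refine ⟨fun j => Submodule.Quotient.mk (a j), ?_⟩
  simp only [Ψ, LinearMap.sum_apply, LinearMap.comp_apply, LinearMap.proj_apply,
    LinearMap.restrictScalars_apply]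
  have h1 : ∀ j, ψ j (Submodule.Quotient.mk (a j)) = a j • q j := fun j => rfl
  simp only [h1, q, ← map_smul, ← map_sum]
  congr 1
  funext j
  rw [Finset.sum_apply, Finset.sum_eq_single j]
  · simp
  · intro i _ hi
    simp [Ne.symm hi]
  · intro hj
    exact absurd (Finset.mem_univ j) hj

theorem FDQ_mod (M : Type u) [AddCommGroup M] [Module k M] [Module A M] [IsScalarTower k A M]
    [Module.Finite A M] (N : ℕ) (h : ∀ a ∈ IsLocalRing.maximalIdeal A ^ N, ∀ x : M, a • x = 0) :
    Module.Finite k M := by
  induction N generalizing M with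
  | zero =>
    have : Subsingleton M := ⟨fun x y => by
      have h1 : ∀ x : M, x = 0 := fun x => by
        have := h 1 (by rw [pow_zero, Ideal.one_eq_top]; trivial) x
        rwa [one_smul] at this
      rw [h1 x, h1 y]⟩
    infer_instance
  | succ N ih =>
    let P : Submodule A M := (IsLocalRing.maximalIdeal A ^ N) • (⊤ : Submodule A M)
    have hN : IsNoetherian A M := isNoetherian_of_isNoetherianRing_of_finite A M
    have hPf : Module.Finite A P := inferInstance
    have h1 : Module.Finite k P := by
      refine FDQ_simple (k := k) (A := A) P ?_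
      rintro a ha ⟨x, hx⟩
      apply Subtype.ext
      show a • x = 0
      refine Submodule.smul_induction_on hx ?_ ?_
      · intro b hb y _
        rw [smul_smul]
        exact h _ (by rw [pow_succ']; exact Ideal.mul_mem_mul ha hb) y
      · intro y z hy hz
        rw [smul_add, hy, hz, add_zero]
    have h2 : Module.Finite k (M ⧸ P) := by
      refine ih (M ⧸ P) ?_
      intro a ha x
      obtain ⟨y, rfl⟩ := Submodule.Quotient.mk_surjective _ x
      rw [← Submodule.Quotient.mk_smul, Submodule.Quotient.mk_eq_zero]
      exact Submodule.smul_mem_smul ha Submodule.mem_top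
    have h3 : Module.Finite k (P.restrictScalars k) := h1
    have h4 : Module.Finite k (M ⧸ P.restrictScalars k) :=
      Module.Finite.equiv (Submodule.Quotient.restrictScalarsEquiv k P).symm
    exact Module.Finite.of_submodule_quotient (P.restrictScalars k)

theorem FDH {J : Type} [Fintype J] [DecidableEq J] (Δ : Matrix J J A) (hΔ : Δ * Δ = 0)
    (h : ∃ N, ∀ w ∈ IsLocalRing.maximalIdeal A ^ N, ∃ s : Matrix J J A,
      Δ * s + s * Δ = w • (1 : Matrix J J A))
    (M : Type u) [AddCommGroup M] [Module k M] [Module A M] [IsScalarTower k A M]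
    [Module.Finite A M] : Module.Finite k (Hm (mv k (M := M) Δ)) := by
  obtain ⟨N, hN⟩ := h
  have hJM : Module.Finite A (J → M) := inferInstance
  have hNoe : IsNoetherian A (J → M) := isNoetherian_of_isNoetherianRing_of_finite A (J → M)
  let K : Submodule A (J → M) := LinearMap.ker (mv A (M := M) Δ)
  have hKf : Module.Finite A K := inferInstance
  let S : Submodule A K := (IsLocalRing.maximalIdeal A ^ N) • (⊤ : Submodule A K)
  have hK : ∀ x : K, mv k (M := M) Δ x.1 = 0 := fun x => x.2
  let f : K →ₗ[k] Hm (mv k (M := M) Δ) :=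
    (Submodule.mkQ _) ∘ₗ (((K.subtype.restrictScalars k)).codRestrict
      (LinearMap.ker (mv k (M := M) Δ)) hK)
  have hf : Function.Surjective f := by
    intro c
    obtain ⟨⟨x, hx⟩, rfl⟩ := Submodule.Quotient.mk_surjective _ c
    exact ⟨⟨x, hx⟩, rfl⟩
  have hS : S.restrictScalars k ≤ LinearMap.ker f := by
    intro x hx
    have hx' : x ∈ S := hx
    rw [LinearMap.mem_ker]
    refine Submodule.smul_induction_on hx' ?_ ?_
    · intro w hw y _
      obtain ⟨s, hs⟩ := hN w hw
      have h1 : f (w • y) = Submodule.Quotient.mk ⟨(w • y).1, hK (w • y)⟩ := rfl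
      rw [h1, Hm_mk_eq_zero]
      refine ⟨mv k (M := M) s y.1, ?_⟩
      have h2 := congrArg (fun X => mv k (M := M) X y.1) hs
      simp only [mv_add, mv_mul, LinearMap.add_apply, LinearMap.comp_apply] at h2
      rw [hK y, map_zero, add_zero, mv_smul_one] at h2
      exact h2
    · intro y z hy hz
      rw [map_add, hy, hz, add_zero]
  have h3 : Module.Finite k (K ⧸ S) := by
    refine FDQ_mod (k := k) (A := A) (K ⧸ S) N ?_
    intro a ha x
    obtain ⟨y, rfl⟩ := Submodule.Quotient.mk_surjective _ x
    rw [← Submodule.Quotient.mk_smul, Submodule.Quotient.mk_eq_zero]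
    exact Submodule.smul_mem_smul ha Submodule.mem_top
  have h4 : Module.Finite k (K ⧸ S.restrictScalars k) :=
    Module.Finite.equiv (Submodule.Quotient.restrictScalarsEquiv k S).symm
  refine Module.Finite.of_surjective ((S.restrictScalars k).liftQ f hS) ?_
  intro c
  obtain ⟨x, rfl⟩ := hf c
  exact ⟨Submodule.Quotient.mk x, rfl⟩

omit [IsNoetherianRing A] in
private theorem FDQ_len (H : Type*) [AddCommGroup H] [Module A H] (h : IsFiniteLength A H) :
    ∃ N, ∀ a ∈ IsLocalRing.maximalIdeal A ^ N, ∀ x : H, a • x = 0 := by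
  induction h with
  | of_subsingleton => exact ⟨0, fun a _ x => Subsingleton.elim _ _⟩
  | of_simple_quotient hN ih =>
    rename_i M _ _ N' hsimple
    obtain ⟨n, hn⟩ := ih
    have hkill : ∀ a ∈ IsLocalRing.maximalIdeal A, ∀ x : M ⧸ N', a • x = 0 := by
      have hfin : Module.Finite A (M ⧸ N') := inferInstance
      rcases eq_bot_or_eq_top (IsLocalRing.maximalIdeal A • (⊤ : Submodule A (M ⧸ N'))) with h | h
      · intro a ha x
        have h1 : a • x ∈ IsLocalRing.maximalIdeal A • (⊤ : Submodule A (M ⧸ N')) :=
          Submodule.smul_mem_smul ha Submodule.mem_top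
        rwa [h, Submodule.mem_bot] at h1
      · have h2 : (⊤ : Submodule A (M ⧸ N')) = ⊥ :=
          Submodule.eq_bot_of_le_smul_of_le_jacobson_bot (IsLocalRing.maximalIdeal A) ⊤
            Module.Finite.fg_top h.symm.le
            (by rw [IsLocalRing.jacobson_eq_maximalIdeal ⊥ bot_ne_top])
        intro a _ x
        have h3 : a • x ∈ (⊤ : Submodule A (M ⧸ N')) := Submodule.mem_top
        rwa [h2, Submodule.mem_bot] at h3
    refine ⟨n + 1, ?_⟩
    have key : ∀ a ∈ IsLocalRing.maximalIdeal A ^ n * IsLocalRing.maximalIdeal A, ∀ x : M,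
        a • x = 0 := by
      intro a ha x
      refine Submodule.mul_induction_on ha ?_ ?_
      · intro b hb c hc
        have h1 : c • x ∈ N' := by
          rw [← Submodule.Quotient.mk_eq_zero, Submodule.Quotient.mk_smul]
          exact hkill c hc _
        rw [mul_smul]
        exact congrArg Subtype.val (hn b hb ⟨c • x, h1⟩)
      · intro b c hb hc
        rw [add_smul, hb, hc, add_zero]
    intro a ha x
    rw [pow_succ] at ha
    exact key a ha x

omit [Module.Finite k (IsLocalRing.ResidueField A)] in
theorem NUL (F : Cx A) (hF : F.FinLen) :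
    ∃ N, ∀ w ∈ IsLocalRing.maximalIdeal A ^ N, ∃ s : Matrix F.ι F.ι A,
      (∀ a b, s a b ≠ 0 → Odd (F.deg a - F.deg b)) ∧
      F.D * s + s * F.D = w • (1 : Matrix F.ι F.ι A) := by
  obtain ⟨N₀, hN₀⟩ := FDQ_len _ hF
  have hkill : ∀ r ∈ IsLocalRing.maximalIdeal A ^ N₀, ∀ x : F.ι → A,
      (∀ a, ∑ b, F.D a b * x b = 0) → ∃ y : F.ι → A, ∀ a, ∑ b, F.D a b * y b = r * x a := by
    intro r hr x hx
    have hx' : x ∈ LinearMap.ker (mv A (M := A) F.D) := by
      rw [LinearMap.mem_ker]
      funext a
      exact hx a
    have h1 := hN₀ r hr (Submodule.Quotient.mk ⟨x, hx'⟩)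
    have h2 : (Submodule.Quotient.mk (r • (⟨x, hx'⟩ : LinearMap.ker (mv A (M := A) F.D))) :
      Hm (mv A (M := A) F.D)) = 0 := h1
    rw [Hm_mk_eq_zero] at h2
    obtain ⟨y, hy⟩ := h2
    exact ⟨y, fun a => congrFun hy a⟩
  obtain ⟨B, hB⟩ : ∃ B : ℕ, ∀ b, |F.deg b| ≤ B := by
    refine ⟨∑ b, (F.deg b).natAbs, fun b => ?_⟩
    rw [Int.abs_eq_natAbs]
    exact_mod_cast Finset.single_le_sum (f := fun b => (F.deg b).natAbs)
      (fun _ _ => Nat.zero_le _) (Finset.mem_univ b)
  have hDD : ∀ a b, ∑ c, F.D a c * F.D c b = 0 := by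
    intro a b
    have h1 := congrFun (congrFun F.sq a) b
    rw [Matrix.mul_apply] at h1
    exact h1
  have claim : ∀ p : ℕ, ∀ r ∈ (IsLocalRing.maximalIdeal A ^ N₀) ^ p, ∃ s : Matrix F.ι F.ι A,
      ∀ a b, F.deg b < -(B : ℤ) + p →
        (F.D * s + s * F.D) a b = (r • (1 : Matrix F.ι F.ι A)) a b := by
    intro p
    induction p with
    | zero =>
      intro r _
      refine ⟨0, fun a b hb => ?_⟩
      have h1 := abs_le.1 (hB b)
      simp only [Nat.cast_zero, add_zero] at hb
      omega
    | succ p ih =>
      intro r hr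
      rw [pow_succ'] at hr
      refine Submodule.mul_induction_on hr ?_ ?_
      · intro r' hr' r hr
        obtain ⟨s, hs⟩ := ih r hr
        have hcyc : ∀ b, F.deg b = -(B : ℤ) + p → ∀ a, ∑ c, F.D a c *
            ((r • (1 : Matrix F.ι F.ι A)) c b - (s * F.D) c b) = 0 := by
          intro b hb a
          have h1 : ∑ c, (F.D * s + s * F.D) a c * F.D c b =
              ∑ c, (r • (1 : Matrix F.ι F.ι A)) a c * F.D c b := by
            refine Finset.sum_congr rfl fun c _ => ?_
            by_cases hc : F.D c b = 0
            · rw [hc, mul_zero, mul_zero]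
            · have h2 := F.homog c b hc
              rw [hs a c (by omega)]
          have h2 : ∑ c, (F.D * s + s * F.D) a c * F.D c b = (F.D * (s * F.D)) a b := by
            rw [← Matrix.mul_apply, add_mul, Matrix.mul_assoc, Matrix.mul_assoc, F.sq,
              Matrix.mul_zero, add_zero]
          have h3 : ∑ c, (r • (1 : Matrix F.ι F.ι A)) a c * F.D c b = r * F.D a b := by
            rw [← Matrix.mul_apply, Matrix.smul_mul, Matrix.one_mul, Matrix.smul_apply,
              smul_eq_mul]
          have h4 : ∑ c, F.D a c * (r • (1 : Matrix F.ι F.ι A)) c b = r * F.D a b := by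
            rw [← Matrix.mul_apply, Matrix.mul_smul, Matrix.mul_one, Matrix.smul_apply,
              smul_eq_mul]
          simp only [mul_sub, Finset.sum_sub_distrib]
          rw [h4, ← Matrix.mul_apply, ← h2, h1, h3, sub_self]
        have hy : ∀ b, ∃ y : F.ι → A, F.deg b = -(B : ℤ) + p → ∀ a, ∑ c, F.D a c * y c =
            r' * ((r • (1 : Matrix F.ι F.ι A)) a b - (s * F.D) a b) := by
          intro b
          by_cases hb : F.deg b = -(B : ℤ) + p
          · obtain ⟨y, hy⟩ := hkill r' hr'
              (fun c => (r • (1 : Matrix F.ι F.ι A)) c b - (s * F.D) c b) (hcyc b hb)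
            exact ⟨y, fun _ => hy⟩
          · exact ⟨0, fun h => absurd h hb⟩
        choose y hy using hy
        refine ⟨fun a c => if F.deg c = -(B : ℤ) + p then y c a else r' * s a c, ?_⟩
        intro a b hb
        set s' : Matrix F.ι F.ι A := fun a c => if F.deg c = -(B : ℤ) + p then y c a else r' * s a c
          with hs'
        have hsD : (s' * F.D) a b = r' * (s * F.D) a b := by
          rw [Matrix.mul_apply, Matrix.mul_apply, Finset.mul_sum]
          refine Finset.sum_congr rfl fun c _ => ?_
          by_cases hc : F.D c b = 0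
          · rw [hc, mul_zero, mul_zero, mul_zero]
          · have h2 := F.homog c b hc
            have h3 : ¬ F.deg c = -(B : ℤ) + p := by
              push_cast at hb
              omega
            simp only [hs', h3, if_false]
            ring
        rw [Matrix.add_apply, hsD]
        by_cases hbT : F.deg b = -(B : ℤ) + p
        · have h5 : (F.D * s') a b = ∑ c, F.D a c * y b c := by
            rw [Matrix.mul_apply]
            refine Finset.sum_congr rfl fun c _ => ?_
            simp only [hs', hbT, if_true]
          rw [h5, hy b hbT a, Matrix.smul_apply, Matrix.smul_apply, smul_eq_mul, smul_eq_mul]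
          ring
        · have h5 : (F.D * s') a b = r' * (F.D * s) a b := by
            rw [Matrix.mul_apply, Matrix.mul_apply, Finset.mul_sum]
            refine Finset.sum_congr rfl fun c _ => ?_
            simp only [hs', hbT, if_false]
            ring
          have h6 := hs a b (by push_cast at hb; omega)
          rw [Matrix.add_apply] at h6
          rw [h5, ← mul_add, h6, Matrix.smul_apply, Matrix.smul_apply, smul_eq_mul, smul_eq_mul]
          ring
      · rintro r₁ r₂ ⟨s₁, h₁⟩ ⟨s₂, h₂⟩
        refine ⟨s₁ + s₂, fun a b hb => ?_⟩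
        have h3 : F.D * (s₁ + s₂) + (s₁ + s₂) * F.D =
            (F.D * s₁ + s₁ * F.D) + (F.D * s₂ + s₂ * F.D) := by
          rw [Matrix.mul_add, Matrix.add_mul]
          abel
        rw [h3, Matrix.add_apply, h₁ a b hb, h₂ a b hb, ← Matrix.add_apply, ← add_smul]
  refine ⟨N₀ * (2 * B + 1), fun w hw => ?_⟩
  rw [pow_mul] at hw
  obtain ⟨s, hs⟩ := claim _ w hw
  have hs2 : ∀ a b, (F.D * s + s * F.D) a b = (w • (1 : Matrix F.ι F.ι A)) a b := by
    intro a b
    apply hs
    have h1 := abs_le.1 (hB b)
    push_cast
    omega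
  classical
  refine ⟨Matrix.of fun a b => if Odd (F.deg a - F.deg b) then s a b else 0, ?_, ?_⟩
  · intro a b hab
    by_contra h
    apply hab
    simp only [Matrix.of_apply, h, if_false]
  · ext a b
    rw [Matrix.add_apply, Matrix.mul_apply, Matrix.mul_apply]
    simp only [Matrix.of_apply]
    by_cases hab : Odd (F.deg a - F.deg b)
    · have h1 : ∀ c, F.D a c * (if Odd (F.deg c - F.deg b) then s c b else 0) = 0 := by
        intro c
        by_cases hc : F.D a c = 0
        · rw [hc, zero_mul]
        · have h2 := F.homog a c hc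
          have h3 : ¬ Odd (F.deg c - F.deg b) := by
            rw [Int.not_odd_iff_even]
            have h4 : F.deg c - F.deg b = (F.deg a - F.deg b) + 1 := by omega
            rw [h4]
            exact hab.add_one
          rw [if_neg h3, mul_zero]
      have h1' : ∀ c, (if Odd (F.deg a - F.deg c) then s a c else 0) * F.D c b = 0 := by
        intro c
        by_cases hc : F.D c b = 0
        · rw [hc, mul_zero]
        · have h2 := F.homog c b hc
          have h3 : ¬ Odd (F.deg a - F.deg c) := by
            rw [Int.not_odd_iff_even]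
            have h4 : F.deg a - F.deg c = (F.deg a - F.deg b) + 1 := by omega
            rw [h4]
            exact hab.add_one
          rw [if_neg h3, zero_mul]
      rw [Finset.sum_eq_zero fun c _ => h1 c, Finset.sum_eq_zero fun c _ => h1' c, add_zero,
        Matrix.smul_apply, Matrix.one_apply_ne, smul_zero]
      rintro rfl
      rw [sub_self] at hab
      exact absurd hab (by decide)
    · have hev : Even (F.deg a - F.deg b) := Int.not_odd_iff_even.1 hab
      rw [← hs2 a b, Matrix.add_apply, Matrix.mul_apply, Matrix.mul_apply]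
      congr 1
      · refine Finset.sum_congr rfl fun c _ => ?_
        by_cases hc : F.D a c = 0
        · rw [hc, zero_mul, zero_mul]
        · have h2 := F.homog a c hc
          have h3 : Odd (F.deg c - F.deg b) := by
            have h4 : F.deg c - F.deg b = (F.deg a - F.deg b) + 1 := by omega
            rw [h4]
            exact hev.add_one
          rw [if_pos h3]
      · refine Finset.sum_congr rfl fun c _ => ?_
        by_cases hc : F.D c b = 0
        · rw [hc, mul_zero, mul_zero]
        · have h2 := F.homog c b hc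
          have h3 : Odd (F.deg a - F.deg c) := by
            have h4 : F.deg a - F.deg c = (F.deg a - F.deg b) + 1 := by omega
            rw [h4]
            exact hev.add_one
          rw [if_pos h3]

theorem TFD (F : Cx A) (hF : F.FinLen)
    (M : Type u) [AddCommGroup M] [Module k M] [Module A M] [IsScalarTower k A M]
    [Module.Finite A M] (m : ℕ) : Module.Finite k (Hm (mv k (M := M) (F.del (m + 1)))) := by
  have hD : ∀ a b, F.D a b ≠ 0 → Odd (F.deg a - F.deg b) := by
    intro a b hab
    have h1 := F.homog a b hab
    rw [h1]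
    exact ⟨-1, by ring⟩
  obtain ⟨N, hN⟩ := NUL F hF
  refine FDH (F.del (m + 1)) (Gam_sq F.deg (m + 1) F.D hD F.sq) ⟨N, fun w hw => ?_⟩ M
  obtain ⟨s, hs1, hs2⟩ := hN w hw
  exact ⟨slot F.deg 0 s, slot_homotopy F.deg m F.D s w hD hs1 hs2⟩

end NCG
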