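import Pool.Agent.NCG.XFR
import Pool.Agent.NCG.ASD

/-!
# FRM: forms killed by powers modulo `Iz u i`

Situation of `ASD`; let `ω ∈ ⋀^i (OmM φ c)` with `u b ^ N • ω ∈ Iz u i • ⊤` for all `b < d`.  Then there is `s`
with `(∏_{b<i} u b)^s • ω ∈ Iz (fun j => u j ^ (s+1)) i • ⊤`.
Proof.  `ω = qm y` with `y ∈ ⋀^i (A^n)` (`XFR_surj`); `u b ^ N • y ∈ Pl φ (Iz u i) c i` by `XFR_ker`.  By `ASD`
`(∏ u b)^s • y = y₁ + y₂` with `y₁ ∈ Iz (u^(s+1)) i • ⊤`, `y₂ ∈ Pl φ ⊥ c i`; apply `qm`: `qm y₂ = 0`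
(`XFR_im` with `𝔞 = ⊥`), `qm y₁ ∈ Iz (..) i • ⊤` (linearity).
-/

open scoped BigOperators

namespace NCG

universe u

variable {A : Type u} [CommRing A]

theorem FRM {n c d i : ℕ} (hn : n = c + d) (u : ℕ → A) (hu : WReg u d A)
    (φ : ℕ → (Fin n → A)) (hφ : ∀ b < d, ∀ l < c, ∃ N, u b ^ N ∈ Hl φ l)
    (hi : i < d) (h1 : 2 * i ≠ d) (h2 : 2 * i ≠ d + 1) (w : ExteriorAlgebra A (OmM φ c))
    (hw : w ∈ ⋀[A]^i (OmM φ c)) (N : ℕ)
    (hN : ∀ b < d, u b ^ N • w ∈ Iz u i • (⊤ : Submodule A (ExteriorAlgebra A (OmM φ c)))) :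
    ∃ s, (∏ b ∈ Finset.range i, u b) ^ s • w ∈
      Iz (fun j => u j ^ (s + 1)) i • (⊤ : Submodule A (ExteriorAlgebra A (OmM φ c))) := by
  obtain ⟨y, rfl⟩ := XFR_surj φ c i w hw
  have h3 : ∀ b < d, u b ^ N • y ∈ Pl φ (Iz u i) c i := by
    intro b hb
    refine XFR_ker φ c (Iz u i) i (u b ^ N • y) ?_
    rw [Submodule.coe_smul, map_smul]
    exact hN b hb
  obtain ⟨s, hs⟩ := ASD hn u hu φ hφ hi h1 h2 y N h3
  refine ⟨s, ?_⟩
  obtain ⟨y₁, hy₁, y₂, hy₂, he⟩ := Submodule.mem_sup.1 hs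
  rw [← map_smul, ← Submodule.coe_smul, ← he, Submodule.coe_add, map_add]
  refine Submodule.add_mem _ ?_ ?_
  · have h5 : (Iz (fun j => u j ^ (s + 1)) i • (⊤ : Submodule A (⋀[A]^i (Fin n → A)))) ≤
        (Iz (fun j => u j ^ (s + 1)) i • (⊤ : Submodule A (ExteriorAlgebra A (OmM φ c)))).comap
          ((qm φ c).toLinearMap ∘ₗ (Submodule.subtype _)) := by
      rw [Submodule.smul_le]
      intro r hr x _
      rw [Submodule.mem_comap, map_smul]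
      exact Submodule.smul_mem_smul hr Submodule.mem_top
    exact h5 hy₁
  · have h6 := XFR_im φ c ⊥ i y₂ hy₂
    rw [Submodule.bot_smul, Submodule.mem_bot] at h6
    rw [h6]
    exact Submodule.zero_mem _

end NCG
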