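import Pool.Agent.NCG.WRB

/-!
# REG: regular sequences in ideals of a Cohen-Macaulay local ring

`A` Noetherian local with maximal ideal `𝔪`.  The condition depth `C` ≥ s means: there is a `C`-regular sequence
(`RingTheory.Sequence.IsRegular C rs`) of length `s` with entries in `𝔪`.

`REG_ass`: `C` finite, depth `C` ≥ `s`, `p` an associated prime of `C`.  Then `s ≤ dim A/p`.
Induction on the regular sequence `rs = x :: rs'` (general `C`).  `C' = {c : C | p c = 0} ≠ 0` is a
submodule; by Nakayama `C' ≠ x C'`.  The map `C'/x C' → C/x C` is injective: if `c' = x c` with `c' ∈ C'`,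
then `x (a c) = 0` for `a ∈ p`, so `a c = 0`, so `c ∈ C'`.  So `C/xC` contains a nonzero submodule killed
by `p + (x)`, hence (Noetherian) an associated prime `q ⊇ p + (x)` of `C/xC`.  `x ∉ p` since `x` is
`C`-regular and `p` is an associated prime.  So `p < q` and `dim A/p ≥ dim A/q + 1 ≥ (s - 1) + 1`
(`A/q` is the quotient of the domain `A/p` by a nonzero ideal:
`ringKrullDim_quotient_succ_le_of_nonZeroDivisor`, `ringKrullDim_succ_le_of_surjective`).

`REG_elt`: `C` finite, nonzero, depth `C` ≥ `s`, `I` an ideal with `dim A/I < s`.  Then `I` contains a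
`C`-regular element.  Otherwise `I` is contained in the union of the associated primes of `C`
(`biUnion_associatedPrimes_eq_compl_regular`), so `I ≤ p` for one of them (finitely many,
`associatedPrimes.finite`, prime avoidance `Ideal.subset_union_prime`), and `dim A/p ≤ dim A/I < s`,
contradicting `REG_ass`.

`REG_quot`: `C` finite, depth `C` ≥ `s + 1`, `x ∈ 𝔪` `C`-regular.  Then depth `C/xC` ≥ `s`.
By the Rees theorem `ModuleCat.exists_isRegular_tfae` (for `I = 𝔪`): `Ext^q(A/𝔪, C) = 0` for `q < s + 1`,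
so by the long exact sequence of `0 → C → C → C/xC → 0`
(`Ext.covariant_sequence_exact₃'`, `IsSMulRegular.smulShortComplex_shortExact`, see the proof of
`ModuleCat.exists_isRegular_of_exists_subsingleton_ext` in `Mathlib/RingTheory/Depth/Rees.lean`)
`Ext^q(A/𝔪, C/xC) = 0` for `q < s`, and the Rees theorem again.

`REG`: let `A` have an `A`-regular sequence of length `d = dim A`, `I`, `𝔧 ≤ 𝔪` ideals with `dim A/I ≤ i ≤ d`
and `𝔪^N ≤ 𝔧`.  Then there is `u : ℕ → A` with `u b ∈ 𝔧` for `b < i`, `u b ∈ I` for `i ≤ b < d`, all `u b ∈ 𝔪`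
(`b < d`), `u 0, ..., u (d-1)` weakly regular on `A`, `u 0, ..., u (i-1)` weakly regular on
`A ⧸ Iz (fun j => u (i + j)) (d - i)`, and `𝔪^N' ≤ Iz u d`.
Proof.  Choose `w 0, ..., w (d-i-1) ∈ I` successively by `REG_elt` (for `C = A ⧸ (w 0, ..., w (j-1))`, of depth
`≥ d - j` by `REG_quot`; `dim A/I ≤ i < d - j` for `j < d - i`), then `z 0, ..., z (i-1) ∈ 𝔧` (`dim A/𝔧 = 0`, or
`≤ 0`; `C = A ⧸ (w, z 0, ..., z (j-1))` of depth `≥ i - j`).  `w, z` is a regular sequence of length `d` in
`𝔪`; put `u = z` on `b < i` and `u (i + j) = w j`.  By permutation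
(`IsLocalRing.isRegular_of_perm`) `u 0, ..., u (d-1)` is regular on `A`, in particular weakly regular
(`WReg_iff`).  `WReg u i (A ⧸ (w))` by construction (`WReg_shift_ring` for the order `w, z`).
By `ringKrullDim_add_length_eq_ringKrullDim_of_isRegular` `dim A/(u) = 0`, so the radical of
`Iz u d` is `𝔪` and `𝔪^N' ≤ Iz u d` (`𝔪` is finitely generated; `Ring.KrullDimLE...`,
`Ideal.exists_radical_pow_le_of_fg`).
(If some of the quotients is zero there is nothing to do; in fact they are nonzero by Nakayama.)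

`IZP`: if `𝔪^N ≤ Iz u d` then for every `s` some `𝔪^N' ≤ Iz (fun j => u j ^ (s+1)) d`: every `u b` is in
the radical of the right side.
-/

open scoped BigOperators

namespace NCG

universe u

open IsLocalRing RingTheory.Sequence

variable {A : Type u} [CommRing A] [IsLocalRing A] [IsNoetherianRing A]


open scoped Pointwise

theorem REG_ass (C : Type u) [AddCommGroup C] [Module A C] [Module.Finite A C] (rs : List A)
    (hrs : ∀ r ∈ rs, r ∈ maximalIdeal A) (hreg : IsRegular C rs) (p : Ideal A)
    (hp : p ∈ associatedPrimes A C) : (rs.length : WithBot ℕ∞) ≤ ringKrullDim (A ⧸ p) := by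
  induction rs generalizing C p with
  | nil =>
    have hpp : p.IsPrime := hp.1
    have : Nontrivial (A ⧸ p) := Ideal.Quotient.nontrivial_iff.2 hpp.ne_top
    simp only [List.length_nil, Nat.cast_zero]
    exact ringKrullDim_nonneg_of_nontrivial
  | cons x rs' ih =>
    rw [isRegular_cons_iff] at hreg
    obtain ⟨hx, hreg'⟩ := hreg
    have hxm : x ∈ maximalIdeal A := hrs x List.mem_cons_self
    have hp' := isAssociatedPrime_iff.1 hp
    obtain ⟨hpp, c₀, hc₀⟩ := hp'
    have hmem : ∀ a, a ∈ p ↔ a • c₀ = 0 := by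
      intro a
      rw [hc₀, Submodule.mem_colon_singleton, Submodule.mem_bot]
    have hc₀0 : c₀ ≠ 0 := by
      rintro rfl
      apply hpp.ne_top
      rw [Ideal.eq_top_iff_one, hmem, smul_zero]
    have hxp : x ∉ p := by
      intro h
      exact hc₀0 (hx.right_eq_zero_of_smul ((hmem x).1 h))
    -- the submodule killed by `p`
    let C' : Submodule A C :=
      { carrier := {c | ∀ a ∈ p, a • c = 0}
        add_mem' := fun {c c'} hc hc' a ha => by rw [smul_add, hc a ha, hc' a ha, add_zero]
        zero_mem' := fun a _ => smul_zero a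
        smul_mem' := fun b c hc a ha => by rw [smul_comm, hc a ha, smul_zero] }
    have hC' : ∀ c, c ∈ C' ↔ ∀ a ∈ p, a • c = 0 := fun c => Iff.rfl
    have hc₀' : c₀ ∈ C' := fun a ha => (hmem a).1 ha
    have hN : IsNoetherian A C := isNoetherian_of_isNoetherianRing_of_finite A C
    have hne : ∃ c' ∈ C', c' ∉ (Ideal.span {x} : Ideal A) • C' := by
      by_contra hcon
      push Not at hcon
      have h1 : C' ≤ (Ideal.span {x} : Ideal A) • C' := hcon
      have h2 : C' = ⊥ := Submodule.eq_bot_of_le_smul_of_le_jacobson_bot (Ideal.span {x}) C'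
        (IsNoetherian.noetherian C') h1 (by
          rw [Ideal.span_singleton_le_iff_mem, IsLocalRing.jacobson_eq_maximalIdeal ⊥ bot_ne_top]
          exact hxm)
      rw [h2, Submodule.mem_bot] at hc₀'
      exact hc₀0 hc₀'
    obtain ⟨c', hc', hc'x⟩ := hne
    have hbar : (Submodule.Quotient.mk c' : QuotSMulTop x C) ≠ 0 := by
      intro h
      rw [Submodule.Quotient.mk_eq_zero] at h
      obtain ⟨c, -, hc⟩ := (Submodule.mem_smul_pointwise_iff_exists _ _ _).1 h
      apply hc'x
      rw [← hc]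
      refine Submodule.smul_mem_smul (Ideal.mem_span_singleton_self x) ?_
      intro a ha
      have h3 := hc' a ha
      rw [← hc, smul_comm] at h3
      exact hx.right_eq_zero_of_smul h3
    obtain ⟨q, hq, hqle⟩ := exists_le_isAssociatedPrime_of_isNoetherianRing A _ hbar
    have hq0 : ∀ a, a • (Submodule.Quotient.mk c' : QuotSMulTop x C) = 0 → a ∈ q := by
      intro a ha
      apply hqle
      rw [Submodule.mem_colon_singleton, Submodule.mem_bot]
      exact ha
    have hpq : p ≤ q := by
      intro a ha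
      apply hq0
      rw [← Submodule.Quotient.mk_smul, hc' a ha, Submodule.Quotient.mk_zero]
    have hxq : x ∈ q := by
      apply hq0
      rw [← Submodule.Quotient.mk_smul, Submodule.Quotient.mk_eq_zero]
      exact Submodule.smul_mem_pointwise_smul c' x ⊤ Submodule.mem_top
    have hfin : Module.Finite A (QuotSMulTop x C) := inferInstance
    have h4 := ih (QuotSMulTop x C) (fun r hr => hrs r (List.mem_cons_of_mem _ hr)) hreg' q hq
    have hdom : IsDomain (A ⧸ p) := (Ideal.Quotient.isDomain_iff_prime p).2 hpp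
    have h5 : ringKrullDim (A ⧸ q) + 1 ≤ ringKrullDim (A ⧸ p) := by
      refine ringKrullDim_succ_le_of_surjective (Ideal.Quotient.factor hpq)
        (Ideal.Quotient.factor_surjective hpq) (r := Ideal.Quotient.mk p x) ?_ ?_
      · rw [mem_nonZeroDivisors_iff_ne_zero]
        intro h
        exact hxp (Ideal.Quotient.eq_zero_iff_mem.1 h)
      · rw [Ideal.Quotient.factor_mk]
        exact Ideal.Quotient.eq_zero_iff_mem.2 hxq
    refine le_trans ?_ h5
    rw [List.length_cons, Nat.cast_add, Nat.cast_one]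
    gcongr

theorem REG_elt (C : Type u) [AddCommGroup C] [Module A C] [Module.Finite A C] (rs : List A)
    (hrs : ∀ r ∈ rs, r ∈ maximalIdeal A) (hreg : IsRegular C rs) (I : Ideal A)
    (hI : ringKrullDim (A ⧸ I) < rs.length) : ∃ x ∈ I, IsSMulRegular C x := by
  by_contra hcon
  push Not at hcon
  have h1 : (I : Set A) ⊆ ⋃ p ∈ associatedPrimes A C, (p : Set A) := by
    intro x hx
    have h2 := biUnion_associatedPrimes_eq_compl_regular A C
    rw [h2]
    exact hcon x hx
  obtain ⟨p, hp, hIp⟩ := (Ideal.subset_union_prime_finite (associatedPrimes.finite A C)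
    (f := fun p => p) ⊤ ⊤ (fun p hp _ _ => hp.1)).1 h1
  have h3 := REG_ass C rs hrs hreg p hp
  have h4 : ringKrullDim (A ⧸ p) ≤ ringKrullDim (A ⧸ I) :=
    ringKrullDim_le_of_surjective (Ideal.Quotient.factor hIp) (Ideal.Quotient.factor_surjective hIp)
  exact absurd (h3.trans h4) (not_le.2 hI)

theorem REG_quot (C : Type u) [AddCommGroup C] [Module A C] [Module.Finite A C] (rs : List A)
    (s : ℕ) (hs : rs.length = s + 1) (hrs : ∀ r ∈ rs, r ∈ maximalIdeal A)
    (hreg : IsRegular C rs) (x : A) (hx : x ∈ maximalIdeal A) (hxC : IsSMulRegular C x) :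
    ∃ rs' : List A, rs'.length = s ∧ (∀ r ∈ rs', r ∈ maximalIdeal A) ∧
      IsRegular (QuotSMulTop x C) rs' := by
  have hnt : Nontrivial C := by
    by_contra h
    rw [not_nontrivial_iff_subsingleton] at h
    exact hreg.top_ne_smul (Subsingleton.elim _ _)
  have hlt : ∀ (D : Type u) [AddCommGroup D] [Module A D] [Module.Finite A D] [Nontrivial D],
      maximalIdeal A • (⊤ : Submodule A D) < ⊤ := by
    intro D _ _ _ _
    refine lt_top_iff_ne_top.2 fun h => ?_
    have h2 : (⊤ : Submodule A D) = ⊥ :=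
      Submodule.eq_bot_of_le_smul_of_le_jacobson_bot (maximalIdeal A) ⊤ Module.Finite.fg_top
        h.symm.le (by rw [IsLocalRing.jacobson_eq_maximalIdeal ⊥ bot_ne_top])
    exact top_ne_bot h2
  have hntx : Nontrivial (QuotSMulTop x C) := by
    by_contra h
    rw [not_nontrivial_iff_subsingleton] at h
    have h1 : (x • (⊤ : Submodule A C)) = ⊤ := Submodule.Quotient.subsingleton_iff.1 h
    have h2 := hlt C
    rw [← Submodule.ideal_span_singleton_smul] at h1
    have h3 : (Ideal.span {x}) • (⊤ : Submodule A C) ≤ maximalIdeal A • (⊤ : Submodule A C) :=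
      Submodule.smul_mono_left ((Ideal.span_singleton_le_iff_mem _).2 hx)
    rw [h1] at h3
    exact absurd (lt_of_lt_of_le h2 h3) (lt_irrefl _)
  let M : ModuleCat.{u} A := ModuleCat.of A C
  let N : ModuleCat.{u} A := ModuleCat.of A (A ⧸ maximalIdeal A)
  have hMf : Module.Finite A M := inferInstanceAs (Module.Finite A C)
  have hNf : Module.Finite A N := inferInstanceAs (Module.Finite A (A ⧸ maximalIdeal A))
  have hsupp : Module.support A N = PrimeSpectrum.zeroLocus (maximalIdeal A) := by
    show Module.support A (A ⧸ maximalIdeal A) = _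
    rw [Module.support_eq_zeroLocus, Ideal.annihilator_quotient]
  have hext := ModuleCat.subsingleton_ext_of_exists_isRegular (maximalIdeal A) N hsupp.subset M
    (hlt C) rs hrs hreg
  have hQf : Module.Finite A (ModuleCat.of A (QuotSMulTop x M)) :=
    inferInstanceAs (Module.Finite A (QuotSMulTop x C))
  obtain ⟨rs', h1, h2, h3⟩ := ModuleCat.exists_isRegular_of_exists_subsingleton_ext
    (maximalIdeal A) s (ModuleCat.of A (QuotSMulTop x M)) (hlt (QuotSMulTop x C)) N hsupp (by
      intro i hi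
      have hxM : IsSMulRegular M x := hxC
      have zero1 := AddCommGrpCat.isZero_of_iff_subsingleton.mpr (hext i (by omega))
      have zero2 := AddCommGrpCat.isZero_of_iff_subsingleton.mpr (hext (i + 1) (by omega))
      exact AddCommGrpCat.subsingleton_of_isZero <|
        CategoryTheory.ShortComplex.Exact.isZero_of_both_zeros
        ((CategoryTheory.Abelian.Ext.covariant_sequence_exact₃' N
          hxM.smulShortComplex_shortExact) i (i + 1) rfl)
        (zero1.eq_zero_of_src _) (zero2.eq_zero_of_tgt _))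
  exact ⟨rs', h1, h2, h3⟩

private theorem REG_step (e : ℕ) (I : Ideal A) (hIm : I ≤ maximalIdeal A)
    (hI : ringKrullDim (A ⧸ I) ≤ e) (t : ℕ) : ∀ (C : Type u) [AddCommGroup C] [Module A C]
    [Module.Finite A C] (rs : List A), t + e ≤ rs.length → (∀ r ∈ rs, r ∈ maximalIdeal A) →
      IsRegular C rs → ∃ ws rs' : List A, ws.length = t ∧ rs'.length + t = rs.length ∧
        (∀ w ∈ ws, w ∈ I) ∧ (∀ r ∈ rs', r ∈ maximalIdeal A) ∧ IsRegular C (ws ++ rs') := by
  induction t with
  | zero =>
    intro C _ _ _ rs _ hrs hreg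
    exact ⟨[], rs, rfl, rfl, by simp, hrs, by simpa using hreg⟩
  | succ t ih =>
    intro C _ _ _ rs hlen hrs hreg
    have hlt : ringKrullDim (A ⧸ I) < rs.length := by
      refine lt_of_le_of_lt hI ?_
      exact_mod_cast (by omega : e < rs.length)
    obtain ⟨x, hxI, hxC⟩ := REG_elt C rs hrs hreg I hlt
    obtain ⟨s, hs⟩ : ∃ s, rs.length = s + 1 := ⟨rs.length - 1, by omega⟩
    obtain ⟨rs₁, h1, h2, h3⟩ := REG_quot C rs s hs hrs hreg x (hIm hxI) hxC
    obtain ⟨ws, rs', h4, h5, h6, h7, h8⟩ := ih (QuotSMulTop x C) rs₁ (by omega) h2 h3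
    refine ⟨x :: ws, rs', by simp [h4], by omega, ?_, h7, ?_⟩
    · intro w hw
      rcases List.mem_cons.1 hw with rfl | hw
      · exact hxI
      · exact h6 w hw
    · rw [List.cons_append, isRegular_cons_iff]
      exact ⟨hxC, h8⟩

omit [IsNoetherianRing A] in
private theorem REG_dim0 (J : Ideal A) (hJ : ringKrullDim (A ⧸ J) ≤ 0) :
    maximalIdeal A ≤ J.radical := by
  have hK : Ring.KrullDimLE 0 (A ⧸ J) := Ring.krullDimLE_iff.2 (by simpa using hJ)
  rw [Ideal.radical_eq_sInf]
  refine le_sInf ?_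
  rintro P ⟨hJP, hP⟩
  have hP' : (P.map (Ideal.Quotient.mk J)).IsPrime :=
    Ideal.map_isPrime_of_surjective Ideal.Quotient.mk_surjective (by
      rw [Ideal.mk_ker]; exact hJP)
  have hmax : (P.map (Ideal.Quotient.mk J)).IsMaximal := Ring.krullDimLE_zero_iff.1 hK _ hP'
  have h1 : (P.map (Ideal.Quotient.mk J)).comap (Ideal.Quotient.mk J) = P := by
    rw [Ideal.comap_map_of_surjective _ Ideal.Quotient.mk_surjective, ← RingHom.ker_eq_comap_bot,
      Ideal.mk_ker, sup_eq_left]
    exact hJP
  have h2 : P.IsMaximal := by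
    rw [← h1]
    exact Ideal.comap_isMaximal_of_surjective _ Ideal.Quotient.mk_surjective
  exact (IsLocalRing.eq_maximalIdeal h2).ge

omit [IsNoetherianRing A] in
private theorem REG_dim0' (J : Ideal A) (N : ℕ) (hJ : maximalIdeal A ^ N ≤ J) :
    ringKrullDim (A ⧸ J) ≤ 0 := by
  have hJ' : maximalIdeal A ^ (N + 1) ≤ J := (Ideal.pow_le_pow_right (Nat.le_succ N)).trans hJ
  have hK : Ring.KrullDimLE 0 (A ⧸ J) := Ring.krullDimLE_zero_iff.2 fun P hP => by
    have hP' : (P.comap (Ideal.Quotient.mk J)).IsPrime := hP.comap _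
    have h1 : J ≤ P.comap (Ideal.Quotient.mk J) := by
      intro a ha
      rw [Ideal.mem_comap, Ideal.Quotient.eq_zero_iff_mem.2 ha]
      exact P.zero_mem
    have h2 : maximalIdeal A ≤ P.comap (Ideal.Quotient.mk J) :=
      (hP'.pow_le_iff (Nat.succ_ne_zero N)).1 (hJ'.trans h1)
    have h3 : P.comap (Ideal.Quotient.mk J) = maximalIdeal A :=
      le_antisymm (IsLocalRing.le_maximalIdeal hP'.ne_top) h2
    have h4 : P = (maximalIdeal A).map (Ideal.Quotient.mk J) := by
      rw [← h3, Ideal.map_comap_of_surjective _ Ideal.Quotient.mk_surjective]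
    have h5 : (P.comap (Ideal.Quotient.mk J)).IsMaximal := by
      rw [h3]
      exact maximalIdeal.isMaximal A
    have h6 : ((P.comap (Ideal.Quotient.mk J)).map (Ideal.Quotient.mk J)).IsMaximal ∨
        (P.comap (Ideal.Quotient.mk J)).map (Ideal.Quotient.mk J) = ⊤ := by
      rcases Ideal.map_eq_top_or_isMaximal_of_surjective (Ideal.Quotient.mk J)
        Ideal.Quotient.mk_surjective h5 with h | h
      · exact Or.inr h
      · exact Or.inl h
    rw [Ideal.map_comap_of_surjective _ Ideal.Quotient.mk_surjective] at h6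
    rcases h6 with h | h
    · exact h
    · exact absurd h hP.ne_top
  simpa using Ring.krullDimLE_iff.1 hK

theorem REG (d i : ℕ) (hdim : ringKrullDim A = d)
    (hdepth : ∃ rs : List A, rs.length = d ∧ (∀ r ∈ rs, r ∈ maximalIdeal A) ∧ IsRegular A rs)
    (hi : i ≤ d) (I 𝔧 : Ideal A) (hI : ringKrullDim (A ⧸ I) ≤ i) (hI' : I ≤ maximalIdeal A)
    (h𝔧 : 𝔧 ≤ maximalIdeal A) (N : ℕ) (hN : maximalIdeal A ^ N ≤ 𝔧) :
    ∃ u : ℕ → A, (∀ b < i, u b ∈ 𝔧) ∧ (∀ b, i ≤ b → b < d → u b ∈ I) ∧
      (∀ b < d, u b ∈ maximalIdeal A) ∧ WReg u d A ∧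
      WReg u i (A ⧸ Iz (fun j => u (i + j)) (d - i)) ∧
      ∃ N', maximalIdeal A ^ N' ≤ Iz u d := by
  obtain ⟨rs, hlen, hrs, hreg⟩ := hdepth
  obtain ⟨ws, rs₁, h1, h2, h3, h4, h5⟩ := REG_step i I hI' hI (d - i) A rs (by omega) hrs hreg
  have h5' := h5
  obtain ⟨hw, hne⟩ := h5
  rw [isWeaklyRegular_append_iff] at hw
  have h6 : IsRegular (A ⧸ (Ideal.ofList ws • (⊤ : Submodule A A))) rs₁ := by
    refine ⟨hw.2, ?_⟩
    intro htop
    apply hne
    have h7 : (⊤ : Submodule A A).map (Ideal.ofList ws • (⊤ : Submodule A A)).mkQ =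
        (Ideal.ofList rs₁ • (⊤ : Submodule A A)).map (Ideal.ofList ws • (⊤ : Submodule A A)).mkQ := by
      rw [Submodule.map_smul'', Submodule.map_top, Submodule.range_mkQ]
      exact htop
    have h8 := congrArg (Submodule.comap (Ideal.ofList ws • (⊤ : Submodule A A)).mkQ) h7
    rw [Submodule.comap_map_mkQ, Submodule.comap_map_mkQ, sup_top_eq] at h8
    rw [Ideal.ofList_append, Submodule.sup_smul]
    exact h8
  obtain ⟨zs, rs₂, g1, g2, g3, g4, g5⟩ := REG_step 0 𝔧 h𝔧 (by
      simpa using REG_dim0' 𝔧 N hN) i (A ⧸ (Ideal.ofList ws • (⊤ : Submodule A A))) rs₁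
    (by omega) h4 h6
  have hrs₂ : rs₂ = [] := by
    apply List.eq_nil_of_length_eq_zero
    omega
  subst hrs₂
  rw [List.append_nil] at g5
  have hwz : IsRegular A (ws ++ zs) := by
    refine ⟨?_, ?_⟩
    · rw [isWeaklyRegular_append_iff]
      exact ⟨hw.1, g5.toIsWeaklyRegular⟩
    · intro htop
      apply g5.top_ne_smul
      have h7 := congrArg (Submodule.map (Ideal.ofList ws • (⊤ : Submodule A A)).mkQ) htop
      rw [Ideal.ofList_append, Submodule.sup_smul, Submodule.map_sup, Submodule.map_smul'',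
        Submodule.map_smul'', Submodule.map_top, Submodule.range_mkQ] at h7
      have h8 : (Ideal.ofList ws • (⊤ : Submodule A (A ⧸ (Ideal.ofList ws • (⊤ : Submodule A A))))) =
          ⊥ := by
        rw [← Submodule.range_mkQ (Ideal.ofList ws • (⊤ : Submodule A A)), ← Submodule.map_top,
          ← Submodule.map_smul'', Submodule.mkQ_map_self]
      rw [h8, bot_sup_eq] at h7
      exact h7
  have hzw : IsRegular A (zs ++ ws) := IsLocalRing.isRegular_of_perm hwz List.perm_append_comm
  set u : ℕ → A := fun b => (zs ++ ws).getD b 0 with hu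
  have hul : (zs ++ ws).length = d := by rw [List.length_append, g1, h1]; omega
  have hget : ∀ (l : List A) (n : ℕ), l.length = n → (List.range n).map (fun b => l.getD b 0) = l := by
    intro l n hn
    apply List.ext_getElem
    · simp [hn]
    · intro j hj1 hj2
      simp [hj2]
  have hmapd : (List.range d).map u = zs ++ ws := hget _ _ hul
  have hu1 : ∀ b < i, u b = zs.getD b 0 := by
    intro b hb
    simp only [hu]
    exact List.getD_append _ _ _ _ (by omega)
  have hu2 : ∀ j, u (i + j) = ws.getD j 0 := by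
    intro j
    simp only [hu]
    rw [List.getD_append_right _ _ _ _ (by omega), g1, Nat.add_sub_cancel_left]
  have hmapi : (List.range i).map u = zs := by
    rw [← hget zs i g1]
    apply List.map_congr_left
    intro b hb
    exact hu1 b (List.mem_range.1 hb)
  have hmapw : (List.range (d - i)).map (fun j => u (i + j)) = ws := by
    rw [← hget ws (d - i) h1]
    apply List.map_congr_left
    intro b _
    exact hu2 b
  have hIz : ∀ (z : ℕ → A) (l : ℕ), Ideal.ofList ((List.range l).map z) = Iz z l := by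
    intro z l
    unfold Ideal.ofList Iz
    congr 1
    ext a
    simp
  have hmem : ∀ (l : List A) (b : ℕ), b < l.length → l.getD b 0 ∈ l := by
    intro l b hb
    rw [List.getD_eq_getElem _ _ hb]
    exact List.getElem_mem hb
  have hIzd : Iz u d = Ideal.ofList (zs ++ ws) := by rw [← hIz, hmapd]
  refine ⟨u, ?_, ?_, ?_, ?_, ?_, ?_⟩
  · intro b hb
    rw [hu1 b hb]
    exact g3 _ (hmem _ _ (by omega))
  · intro b hb hbd
    obtain ⟨j, rfl⟩ := Nat.exists_eq_add_of_le hb
    rw [hu2 j]
    exact h3 _ (hmem _ _ (by omega))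
  · intro b hb
    have h9 : u b ∈ zs ++ ws := hmem _ _ (by omega)
    rcases List.mem_append.1 h9 with h | h
    · exact h𝔧 (g3 _ h)
    · exact hI' (h3 _ h)
  · rw [WReg_iff, hmapd]
    exact hzw.toIsWeaklyRegular
  · have h9 : (Ideal.ofList ws • (⊤ : Submodule A A)) = Iz (fun j => u (i + j)) (d - i) := by
      rw [← hIz, hmapw, smul_eq_mul, Ideal.mul_top]
    refine WReg_congr (Submodule.quotEquivOfEq _ _ h9) ?_
    rw [WReg_iff, hmapi]
    exact g5.toIsWeaklyRegular
  · have h9 := ringKrullDim_add_length_eq_ringKrullDim_of_isRegular (zs ++ ws) hzw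
    rw [hdim, hul] at h9
    have h10 : ringKrullDim (A ⧸ Iz u d) ≤ 0 := by
      rw [hIzd]
      have h11 : ringKrullDim (A ⧸ Ideal.ofList (zs ++ ws)) + (d : WithBot ℕ∞) ≤
          0 + (d : WithBot ℕ∞) := by rw [h9, zero_add]
      exact ENat.WithBot.add_le_add_natCast_right_iff.1 h11
    exact Ideal.exists_pow_le_of_le_radical_of_fg (REG_dim0 _ h10) (IsNoetherian.noetherian _)

theorem IZP (u : ℕ → A) (d : ℕ) (h : ∃ N, maximalIdeal A ^ N ≤ Iz u d) (s : ℕ) :
    ∃ N, maximalIdeal A ^ N ≤ Iz (fun j => u j ^ (s + 1)) d := by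
  obtain ⟨N, hN⟩ := h
  refine Ideal.exists_pow_le_of_le_radical_of_fg ?_ (IsNoetherian.noetherian _)
  have h1 : Iz u d ≤ (Iz (fun j => u j ^ (s + 1)) d).radical := by
    unfold Iz
    rw [Ideal.span_le]
    rintro _ ⟨j, hj, rfl⟩
    exact ⟨s + 1, Ideal.subset_span ⟨j, hj, rfl⟩⟩
  intro a ha
  have h2 : a ^ N ∈ Iz u d := hN (Ideal.pow_mem_pow ha N)
  have h3 := h1 h2
  obtain ⟨n, hn⟩ := h3
  exact ⟨N * n, by rw [pow_mul]; exact hn⟩

end NCG
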