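import Pool.Agent.NCG.WRB

/-!
# SYZ: regularity of syzygies

Let `g : E → X` be surjective with kernel `Y`, `z 0, ..., z (j-1)` weakly regular on `X` and
`z 0, ..., z j` weakly regular on `E`.  Then `z 0, ..., z j` is weakly regular on `Y`.

`SYZ_inter`: for `l ≤ j`: if `y ∈ Y` and `y ∈ Iz z l • ⊤` in `E`, then `y = ∑_{a<l} z a • y' a` with
`y' a ∈ Y`.  Induction on `l`: `y = ∑_{a<l+1} z a • e a`.  Then `∑ z a • g (e a) = 0`, so
`z l • g (e l) ∈ Iz z l • ⊤` in `X`, so `g (e l) ∈ Iz z l • ⊤`, `g (e l) = ∑_{a<l} z a • g (u a)`;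
`y'' = e l - ∑_{a<l} z a • u a ∈ Y` and `y - z l • y'' = ∑_{a<l} z a • (e a + z l • u a)` is in `Y` and in
`Iz z l • ⊤`; by induction it is `∑_{a<l} z a • y' a`.
`SYZ`: for `l ≤ j` and `y ∈ Y` with `z l • y ∈ Iz z l • ⊤` in `Y`: then `z l • y ∈ Iz z l • ⊤` in `E`, so
`y ∈ Iz z l • ⊤` in `E`, so by `SYZ_inter` `y ∈ Iz z l • ⊤` in `Y`.
-/

open scoped BigOperators

namespace NCG

universe u v w

variable {A : Type u} [CommRing A] {E : Type v} [AddCommGroup E] [Module A E]
  {X : Type w} [AddCommGroup X] [Module A X]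

private theorem SYZ_inter (g : E →ₗ[A] X) (hg : Function.Surjective g) {z : ℕ → A} {j : ℕ}
    (hX : WReg z j X) : ∀ l ≤ j, ∀ y : E, g y = 0 → y ∈ Iz z l • (⊤ : Submodule A E) →
      ∃ y' : ℕ → E, (∀ a, g (y' a) = 0) ∧ y = ∑ a ∈ Finset.range l, z a • y' a := by
  intro l
  induction l with
  | zero =>
    intro _ y hy hm
    rw [mem_Iz_top] at hm
    obtain ⟨e, he⟩ := hm
    exact ⟨fun _ => 0, fun _ => map_zero g, by simpa using he⟩
  | succ l ih =>
    intro hl y hy hm
    rw [mem_Iz_top] at hm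
    obtain ⟨e, he⟩ := hm
    rw [Finset.sum_range_succ] at he
    have h1 : z l • g (e l) = ∑ a ∈ Finset.range l, z a • (-g (e a)) := by
      have h2 := hy
      rw [he, map_add, map_smul, map_sum] at h2
      simp only [map_smul] at h2
      simp only [smul_neg, Finset.sum_neg_distrib]
      exact eq_neg_of_add_eq_zero_right h2
    have h3 : g (e l) ∈ Iz z l • (⊤ : Submodule A X) := by
      refine hX l (by omega) _ ?_
      rw [mem_Iz_top]
      exact ⟨_, h1⟩
    rw [mem_Iz_top] at h3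
    obtain ⟨w, hw⟩ := h3
    choose u hu using fun a => hg (w a)
    have h4 : g (e l - ∑ a ∈ Finset.range l, z a • u a) = 0 := by
      rw [map_sub, map_sum]
      simp only [map_smul, hu]
      rw [hw, sub_self]
    have h5 : y - z l • (e l - ∑ a ∈ Finset.range l, z a • u a)
        = ∑ a ∈ Finset.range l, z a • (e a + z l • u a) := by
      rw [he, smul_sub, Finset.smul_sum]
      simp only [smul_add, Finset.sum_add_distrib]
      rw [Finset.sum_congr rfl fun a _ => smul_comm (z l) (z a) (u a)]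
      abel
    obtain ⟨y', hy', hs⟩ := ih (by omega) (y - z l • (e l - ∑ a ∈ Finset.range l, z a • u a))
      (by rw [map_sub, map_smul, hy, h4, smul_zero, sub_zero])
      (by rw [mem_Iz_top]; exact ⟨_, h5⟩)
    refine ⟨fun a => if a < l then y' a else e l - ∑ a ∈ Finset.range l, z a • u a, ?_, ?_⟩
    · intro a
      dsimp only
      split_ifs
      · exact hy' a
      · exact h4
    · rw [Finset.sum_range_succ]
      dsimp only
      rw [if_neg (lt_irrefl l)]
      have h6 : ∑ a ∈ Finset.range l, z a • (if a < l then y' a else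
          e l - ∑ a ∈ Finset.range l, z a • u a) = ∑ a ∈ Finset.range l, z a • y' a := by
        refine Finset.sum_congr rfl fun a ha => ?_
        rw [if_pos (Finset.mem_range.1 ha)]
      rw [h6, ← hs]
      abel

theorem SYZ (g : E →ₗ[A] X) (hg : Function.Surjective g) {z : ℕ → A} {j : ℕ}
    (hX : WReg z j X) (hE : WReg z (j + 1) E) : WReg z (j + 1) (LinearMap.ker g) := by
  intro l hl x hx
  rw [mem_Iz_top] at hx
  obtain ⟨e, he⟩ := hx
  have h1 : (x : E) ∈ Iz z l • (⊤ : Submodule A E) := by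
    refine hE l hl _ ?_
    rw [mem_Iz_top]
    refine ⟨fun a => (e a : E), ?_⟩
    have h2 := congrArg (Subtype.val) he
    rw [Submodule.coe_smul] at h2
    rw [h2]
    simp
  obtain ⟨y', hy', hs⟩ := SYZ_inter g hg hX l (by omega) (x : E) x.2 h1
  rw [mem_Iz_top]
  refine ⟨fun a => ⟨y' a, hy' a⟩, ?_⟩
  apply Subtype.ext
  rw [hs]
  simp

end NCG
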