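import Pool.Agent.NCG.CORE
import Pool.Agent.NCG.FRM
import Pool.Agent.NCG.FDQ
import Pool.Agent.NCG.ADD
import Pool.Agent.NCG.SYZ
import Pool.Agent.NCG.REG

/-!
# DEV: devissage, and the main theorem for abstract local rings

`PPo k F X i b`: `m ↦ am k F X m` is a polynomial `p (m+1)` with `natDegree p ≤ i`, and `p.coeff i = 0` if `b`.

`PPo_quot`: for an exact sequence `0 → Y → E → X → 0` of finite modules, `PPo` for `Y` and `E` implies `PPo`
for `X` (`AAM`, `TFD`: `am X = am E - am Y`).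

`PPo_good`.  Setting: `u`, `w j = u (i + j)`, `e = d - i`; `b ↔ (i < d ∧ 2 i ≠ d ∧ 2 i ≠ d + 1)`; `N` a finite
`A`-module killed by `Iz w e` with `WReg u i N`.  Then `PPo k F N i b`.
Proof.  For `b < i`, `u b ∈ 𝔪^N₀` has an odd homotopy `s b` (`D s b + s b D = u b`; `N₀` from `NUL`).
Let `S = (List.ofFn s).reverse.prod`, `ω = om dv F.deg S F.D i ∈ ⋀^i` (`om_mem`).
If `b` holds: for every `b' < d` one has `u b' ^ N₀ ∈ 𝔪^N₀`, so it has a homotopy and by `KIL`
`u b' ^ N₀ • ω ∈ Iz u i • ⊤`; by `FRM` there is `t` with `(∏_{b<i} u b)^t • ω ∈ Iz (u^(t+1)) i • ⊤`.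
If `b` does not hold let `t = 0`.
Put `z j = u j ^ (t+1)`, `s' b = u b ^ t • s b`: `D s' b + s' b D = z b`, `s' b` is odd, `WReg z i N`
(`WReg_pow`), `(List.ofFn s').reverse.prod = (∏_{b<i} u b)^t • S` and so by `om_smul` the form of `s'` is
`(∏ u b)^t • ω`, which is in `Iz z i • ⊤` if `b` holds.  `Nb A N z i` is a finite `A`-module killed by
`Iz z i ⊔ Iz w e ≥ Iz (fun j => u j ^ (t+1)) d`, hence by a power of `𝔪` (`IZP`), so it is finite over `k`
(`FDQ_mod`) and `hN` of `CORE` holds.  `hfin` is `TFD`.  `CORE` gives the claim.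

`DEV`.  For all `j ≤ i` and all finite `A`-modules `X` killed by `Iz w e` with `WReg u j X`: `PPo`.
Induction on `i - j`.  `j = i`: `PPo_good`.  `j < i`: let `B = A ⧸ Iz w e`; `X` is a quotient of
`E = (Fin r → B)` for some `r`, `g : E → X`; `WReg u i E` (`WReg_pi` and the property of `u` in `REG`), so
`WReg u (j+1) (ker g)` by `SYZ`; `ker g` is finite and killed by `Iz w e`; `PPo` for `ker g` by induction, for
`E` by `PPo_good`, so for `X` by `PPo_quot`.

`NMAIN`.  If `M` is zero, `am k F M m = 0` (all spaces are zero) and `p = 0`.  Otherwise let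
`I = Module.annihilator A M ≤ 𝔪`, `dim A/I = supportDim M ≤ i`
(`Module.supportDim_eq_ringKrullDim_quotient_annihilator`), `𝔧 = 𝔪^(N₀+1)`; take `u` from `REG`.  `M` is killed
by `w j ∈ I`.  `DEV` for `j = 0`, `X = M` (`WReg u 0` is trivial).
-/

open scoped BigOperators

namespace NCG

universe u

open IsLocalRing RingTheory.Sequence

/-- the Adams trace of `X` is a polynomial of degree `≤ i`, without term of degree `i` if `b` -/
def PPo (k : Type u) {A : Type u} [Field k] [CommRing A] [Algebra k A] (F : Cx A) (X : Type u)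
    [AddCommGroup X] [Module k X] [Module A X] [IsScalarTower k A X] (i : ℕ) (b : Prop) : Prop :=
  ∃ p : Polynomial k, p.natDegree ≤ i ∧ (∀ m : ℕ, am k F X m = p.eval ((m : k) + 1)) ∧
    (b → p.coeff i = 0)

variable {k A : Type u} [Field k] [CharZero k] [CommRing A] [IsLocalRing A]
  [IsNoetherianRing A] [Algebra k A] [Module.Finite k (ResidueField A)]

omit [CharZero k] in
theorem PPo_quot (F : Cx A) (hF : F.FinLen) (i : ℕ) (b : Prop)
    {Y E X : Type u} [AddCommGroup Y] [Module k Y] [Module A Y] [IsScalarTower k A Y]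
    [AddCommGroup E] [Module k E] [Module A E] [IsScalarTower k A E]
    [AddCommGroup X] [Module k X] [Module A X] [IsScalarTower k A X]
    [Module.Finite A Y] [Module.Finite A E] [Module.Finite A X]
    (f : Y →ₗ[A] E) (g : E →ₗ[A] X) (hf : Function.Injective f) (hg : Function.Surjective g)
    (hfg : LinearMap.range f = LinearMap.ker g)
    (hY : PPo k F Y i b) (hE : PPo k F E i b) : PPo k F X i b := by
  obtain ⟨p, hp1, hp2, hp3⟩ := hY
  obtain ⟨q, hq1, hq2, hq3⟩ := hE
  refine ⟨q - p, ?_, ?_, ?_⟩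
  · exact (Polynomial.natDegree_sub_le q p).trans (max_le hq1 hp1)
  · intro m
    have h1 := AAM (k := k) F m f g hf hg hfg (TFD F hF Y m) (TFD F hF E m) (TFD F hF X m)
    rw [Polynomial.eval_sub, ← hp2, ← hq2, h1]
    ring
  · intro hb
    rw [Polynomial.coeff_sub, hp3 hb, hq3 hb, sub_self]

private theorem DEV_list {R : Type*} [CommRing R] {ι : Type} [Fintype ι] [DecidableEq ι] {i : ℕ}
    (c : Fin i → R) (s : Fin i → Matrix ι ι R) (l : List (Fin i)) :
    (l.map fun b => c b • s b).prod = (l.map c).prod • (l.map s).prod := by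
  induction l with
  | nil => simp
  | cons b l ih =>
    rw [List.map_cons, List.prod_cons, ih, List.map_cons, List.prod_cons, List.map_cons,
      List.prod_cons, Matrix.smul_mul, Matrix.mul_smul, smul_smul]

private theorem DEV_prod {R : Type*} [CommRing R] {ι : Type} [Fintype ι] [DecidableEq ι] {i : ℕ}
    (u : ℕ → R) (t : ℕ) (s : Fin i → Matrix ι ι R) :
    (List.ofFn fun b : Fin i => u b ^ t • s b).reverse.prod =
      (∏ b ∈ Finset.range i, u b) ^ t • (List.ofFn s).reverse.prod := by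
  have h1 : ∀ f : Fin i → Matrix ι ι R, (List.ofFn f).reverse = ((List.finRange i).reverse).map f := by
    intro f
    rw [List.ofFn_eq_map, List.map_reverse]
  rw [h1, h1, DEV_list (fun b : Fin i => u b ^ t) s]
  congr 1
  rw [List.map_reverse, List.prod_reverse, ← List.ofFn_eq_map, List.prod_ofFn, ← Finset.prod_pow,
    Finset.prod_range]

theorem PPo_good {n c d i : ℕ} (hn : n = c + d) (φ : ℕ → (Fin n → A))
    (hφ : ∀ l < c, ∃ N, ∀ a ∈ maximalIdeal A ^ N, a ∈ Hl φ l)
    (dv : Derivation k A (OmM φ c)) (U : UnivDer k A (OmM φ c) dv (maximalIdeal A))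
    (F : Cx A) (hF : F.FinLen) (hi : i ≤ d) (N₀ : ℕ)
    (hN₀ : ∀ w ∈ maximalIdeal A ^ N₀, ∃ s : Matrix F.ι F.ι A,
      (∀ a b, s a b ≠ 0 → Odd (F.deg a - F.deg b)) ∧
      F.D * s + s * F.D = w • (1 : Matrix F.ι F.ι A))
    (u : ℕ → A) (hu1 : ∀ b < i, u b ∈ maximalIdeal A ^ N₀) (hu2 : ∀ b < d, u b ∈ maximalIdeal A)
    (hu3 : WReg u d A) (hu4 : ∃ N', maximalIdeal A ^ N' ≤ Iz u d)
    (N : Type u) [AddCommGroup N] [Module k N] [Module A N] [IsScalarTower k A N]
    [Module.Finite A N] (hN : ∀ a ∈ Iz (fun j => u (i + j)) (d - i), ∀ x : N, a • x = 0)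
    (hreg : WReg u i N) : PPo k F N i (i < d ∧ 2 * i ≠ d ∧ 2 * i ≠ d + 1) := by
  choose s hs1 hs2 using fun b : Fin i => hN₀ (u b) (hu1 b b.2)
  have ht : ∃ t : ℕ, (i < d ∧ 2 * i ≠ d ∧ 2 * i ≠ d + 1) →
      (∏ b ∈ Finset.range i, u b) ^ t • om dv F.deg (List.ofFn s).reverse.prod F.D i ∈
        Iz (fun j => u j ^ (t + 1)) i • (⊤ : Submodule A (ExteriorAlgebra A (OmM φ c))) := by
    by_cases hb : i < d ∧ 2 * i ≠ d ∧ 2 * i ≠ d + 1
    · obtain ⟨t, ht⟩ := FRM hn u hu3 φ (fun b hb l hl => by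
          obtain ⟨N', hN'⟩ := hφ l hl
          exact ⟨N', hN' _ (Ideal.pow_mem_pow (hu2 b hb) N')⟩) hb.1 hb.2.1 hb.2.2
        (om dv F.deg (List.ofFn s).reverse.prod F.D i) (om_mem dv F.deg _ F.D i) N₀ (by
          intro b hbd
          obtain ⟨sw, -, hsw⟩ := hN₀ (u b ^ N₀) (Ideal.pow_mem_pow (hu2 b hbd) N₀)
          exact KIL dv F.deg u i s F.D sw (u b ^ N₀) F.homog F.sq hs2 hsw)
      exact ⟨t, fun _ => ht⟩
    · exact ⟨0, fun h => absurd h hb⟩
  obtain ⟨t, ht⟩ := ht
  obtain ⟨N₁, hN₁⟩ := IZP u d hu4 t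
  have hkill : ∀ a ∈ maximalIdeal A ^ N₁, ∀ x : Nb A N (fun j => u j ^ (t + 1)) i, a • x = 0 := by
    have h1 : Iz (fun j => u j ^ (t + 1)) d ≤
        Module.annihilator A (Nb A N (fun j => u j ^ (t + 1)) i) := by
      refine Ideal.span_le.2 ?_
      rintro _ ⟨j, hj, rfl⟩
      refine Module.mem_annihilator.2 ?_
      intro x
      obtain ⟨y, rfl⟩ := Submodule.Quotient.mk_surjective _ x
      rw [← Submodule.Quotient.mk_smul, Submodule.Quotient.mk_eq_zero]
      rcases lt_or_ge j i with hji | hji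
      · exact Submodule.smul_mem_smul (Iz_self (fun j => u j ^ (t + 1)) hji) Submodule.mem_top
      · obtain ⟨j', rfl⟩ := Nat.exists_eq_add_of_le hji
        have h2 : u (i + j') ^ (t + 1) ∈ Iz (fun j => u (i + j)) (d - i) := by
          rw [pow_succ]
          refine Ideal.mul_mem_left _ _ (Iz_self (fun j => u (i + j)) ?_)
          have h3 : i + j' < d := hj
          omega
        rw [hN _ h2 y]
        exact Submodule.zero_mem _
    intro a ha x
    exact Module.mem_annihilator.1 (h1 (hN₁ ha)) x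
  have hfinA : Module.Finite A (Nb A N (fun j => u j ^ (t + 1)) i) := inferInstance
  have hfink : Module.Finite k (Nb A N (fun j => u j ^ (t + 1)) i) :=
    FDQ_mod (k := k) (A := A) _ N₁ hkill
  obtain ⟨p, hp1, hp2, hp3⟩ := CORE U F (fun j => u j ^ (t + 1)) i (WReg_pow hreg (t + 1))
    (fun b => u b ^ t • s b)
    (fun b α β h => hs1 b α β (fun h0 => h (by
      rw [Matrix.smul_apply, h0, smul_zero])))
    (fun b => by
      rw [Matrix.mul_smul, Matrix.smul_mul, ← smul_add, hs2 b, smul_smul, ← pow_succ])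
    ⟨N₁, fun a ha => LinearMap.ext fun x => hkill a ha x⟩
    (fun m => TFD F hF N m)
  refine ⟨p, hp1, hp2, fun hb => hp3 ?_⟩
  rw [DEV_prod, om_smul]
  exact ht hb

omit [CharZero k] [IsNoetherianRing A] [Module.Finite k (ResidueField A)] [IsLocalRing A]
  [Algebra k A] [Field k] in
private theorem DEV_cover (I : Ideal A) (X : Type u) [AddCommGroup X] [Module A X]
    [Module.Finite A X] (hX : ∀ a ∈ I, ∀ x : X, a • x = 0) :
    ∃ (r : ℕ) (g : (Fin r → A ⧸ I) →ₗ[A] X), Function.Surjective g := by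
  classical
  obtain ⟨n, f, hf⟩ := Module.Finite.exists_fin' A X
  let ψ : Fin n → (A ⧸ I) →ₗ[A] X := fun j =>
    Submodule.liftQ I (LinearMap.toSpanSingleton A X (f (Pi.single j 1))) (by
      intro a ha
      rw [LinearMap.mem_ker, LinearMap.toSpanSingleton_apply]
      exact hX a ha _)
  refine ⟨n, ∑ j, (ψ j) ∘ₗ LinearMap.proj j, ?_⟩
  intro x
  obtain ⟨a, rfl⟩ := hf x
  refine ⟨fun j => Submodule.Quotient.mk (a j), ?_⟩
  simp only [LinearMap.sum_apply, LinearMap.comp_apply, LinearMap.proj_apply]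
  have h1 : ∀ j, ψ j (Submodule.Quotient.mk (a j)) = a j • f (Pi.single j 1) := fun j => rfl
  simp only [h1, ← map_smul, ← map_sum]
  congr 1
  funext j
  rw [Finset.sum_apply, Finset.sum_eq_single j]
  · simp
  · intro i _ hi
    simp [Ne.symm hi]
  · intro hj
    exact absurd (Finset.mem_univ j) hj

theorem DEV {n c d i : ℕ} (hn : n = c + d) (φ : ℕ → (Fin n → A))
    (hφ : ∀ l < c, ∃ N, ∀ a ∈ maximalIdeal A ^ N, a ∈ Hl φ l)
    (dv : Derivation k A (OmM φ c)) (U : UnivDer k A (OmM φ c) dv (maximalIdeal A))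
    (F : Cx A) (hF : F.FinLen) (hi : i ≤ d) (N₀ : ℕ)
    (hN₀ : ∀ w ∈ maximalIdeal A ^ N₀, ∃ s : Matrix F.ι F.ι A,
      (∀ a b, s a b ≠ 0 → Odd (F.deg a - F.deg b)) ∧
      F.D * s + s * F.D = w • (1 : Matrix F.ι F.ι A))
    (u : ℕ → A) (hu1 : ∀ b < i, u b ∈ maximalIdeal A ^ N₀) (hu2 : ∀ b < d, u b ∈ maximalIdeal A)
    (hu3 : WReg u d A) (hu4 : ∃ N', maximalIdeal A ^ N' ≤ Iz u d)
    (hu5 : WReg u i (A ⧸ Iz (fun j => u (i + j)) (d - i))) (j : ℕ) (hj : j ≤ i)
    (X : Type u) [AddCommGroup X] [Module k X] [Module A X] [IsScalarTower k A X]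
    [Module.Finite A X] (hX : ∀ a ∈ Iz (fun j => u (i + j)) (d - i), ∀ x : X, a • x = 0)
    (hreg : WReg u j X) : PPo k F X i (i < d ∧ 2 * i ≠ d ∧ 2 * i ≠ d + 1) := by
  have key : ∀ e j : ℕ, j + e = i → ∀ (X : Type u) [AddCommGroup X] [Module k X] [Module A X]
      [IsScalarTower k A X] [Module.Finite A X],
      (∀ a ∈ Iz (fun j => u (i + j)) (d - i), ∀ x : X, a • x = 0) → WReg u j X →
        PPo k F X i (i < d ∧ 2 * i ≠ d ∧ 2 * i ≠ d + 1) := by
    intro e
    induction e with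
    | zero =>
      intro j hj X _ _ _ _ _ hX hreg
      rw [add_zero] at hj
      subst hj
      exact PPo_good hn φ hφ dv U F hF hi N₀ hN₀ u hu1 hu2 hu3 hu4 X hX hreg
    | succ e ih =>
      intro j hj X _ _ _ _ _ hX hreg
      obtain ⟨r, g, hg⟩ := DEV_cover (Iz (fun j => u (i + j)) (d - i)) X hX
      have hE : ∀ a ∈ Iz (fun j => u (i + j)) (d - i),
          ∀ x : (Fin r → A ⧸ Iz (fun j => u (i + j)) (d - i)), a • x = 0 := by
        intro a ha x
        funext l
        obtain ⟨y, hy⟩ := Submodule.Quotient.mk_surjective _ (x l)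
        show a • x l = 0
        rw [← hy, ← Submodule.Quotient.mk_smul, Submodule.Quotient.mk_eq_zero]
        exact Ideal.mul_mem_right _ _ ha
      have hEr : WReg u i (Fin r → A ⧸ Iz (fun j => u (i + j)) (d - i)) := WReg_pi hu5 (Fin r)
      have hNoe : IsNoetherian A (Fin r → A ⧸ Iz (fun j => u (i + j)) (d - i)) :=
        isNoetherian_of_isNoetherianRing_of_finite A _
      have hYf : Module.Finite A (LinearMap.ker g) := inferInstance
      have hY := ih (j + 1) (by omega) (LinearMap.ker g)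
        (fun a ha x => Subtype.ext (hE a ha x.1))
        (SYZ g hg hreg (hEr.mono (by omega)))
      have hEP := PPo_good hn φ hφ dv U F hF hi N₀ hN₀ u hu1 hu2 hu3 hu4
        (Fin r → A ⧸ Iz (fun j => u (i + j)) (d - i)) hE hEr
      exact PPo_quot F hF i _ (LinearMap.ker g).subtype g Subtype.val_injective hg
        (Submodule.range_subtype _) hY hEP
  exact key (i - j) j (by omega) X hX hreg

omit [CharZero k] [IsNoetherianRing A] [Module.Finite k (ResidueField A)] [IsLocalRing A] in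
private theorem DEV_zero (F : Cx A) (M : Type u) [AddCommGroup M] [Module k M] [Module A M]
    [IsScalarTower k A M] [Subsingleton M] (m : ℕ) : am k F M m = 0 := by
  unfold am htr
  split_ifs with h
  · have hs : Subsingleton (Hm (mv k (M := M) (F.del (m + 1)))) := by
      refine ⟨fun x y => ?_⟩
      obtain ⟨x, rfl⟩ := Submodule.Quotient.mk_surjective _ x
      obtain ⟨y, rfl⟩ := Submodule.Quotient.mk_surjective _ y
      congr 1
      exact Subtype.ext (Subsingleton.elim _ _)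
    rw [Subsingleton.elim (hmap _ _ h) 0, map_zero]
  · rfl

theorem NMAIN (n c d : ℕ) (hn : n = c + d) (hdim : ringKrullDim A = d)
    (hdepth : ∃ rs : List A, rs.length = d ∧ (∀ r ∈ rs, r ∈ maximalIdeal A) ∧ IsRegular A rs)
    (φ : ℕ → (Fin n → A)) (hφ : ∀ l < c, ∃ N, ∀ a ∈ maximalIdeal A ^ N, a ∈ Hl φ l)
    (dv : Derivation k A (OmM φ c)) (U : UnivDer k A (OmM φ c) dv (maximalIdeal A))
    (F : Cx A) (hF : F.FinLen) (i : ℕ) (hi : i ≤ d)
    (M : Type u) [AddCommGroup M] [Module k M] [Module A M] [IsScalarTower k A M]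
    [Module.Finite A M] (hM : Module.supportDim A M ≤ i) :
    PPo k F M i (i < d ∧ 2 * i ≠ d ∧ 2 * i ≠ d + 1) := by
  rcases subsingleton_or_nontrivial M with hsub | hnt
  · refine ⟨0, by simp, fun m => ?_, fun _ => by simp⟩
    rw [DEV_zero, Polynomial.eval_zero]
  · obtain ⟨N₀, hN₀⟩ := NUL F hF
    have hI' : Module.annihilator A M ≤ maximalIdeal A := by
      apply IsLocalRing.le_maximalIdeal
      intro h
      exact not_subsingleton M (Module.annihilator_eq_top_iff.1 h)
    have hI : ringKrullDim (A ⧸ Module.annihilator A M) ≤ i := by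
      rw [← Module.supportDim_eq_ringKrullDim_quotient_annihilator]
      exact hM
    obtain ⟨u, hu1, hu2, hu3, hu4, hu5, hu6⟩ := REG d i hdim hdepth hi (Module.annihilator A M)
      (maximalIdeal A ^ (N₀ + 1)) hI hI' (Ideal.pow_le_self (Nat.succ_ne_zero N₀)) (N₀ + 1) le_rfl
    refine DEV hn φ hφ dv U F hF hi N₀ hN₀ u
      (fun b hb => Ideal.pow_le_pow_right (Nat.le_succ N₀) (hu1 b hb)) hu3 hu4 hu6 hu5 0
      (Nat.zero_le _) M ?_ (WReg_zero_seq u)
    have h1 : Iz (fun j => u (i + j)) (d - i) ≤ Module.annihilator A M := by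
      refine Ideal.span_le.2 ?_
      rintro _ ⟨j, hj, rfl⟩
      have hj' : j < d - i := hj
      exact hu2 (i + j) (by omega) (by omega)
    intro a ha x
    exact Module.mem_annihilator.1 (h1 ha) x

end NCG
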