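import Mathlib

/-!
# Cyclic Adams operations on complexes of free modules: definitions

`A` is a commutative ring containing a field `k`.  An object `F : Cx A` is a bounded complex of
finitely generated free `A`-modules, given by a homogeneous basis `F.ι` (with degrees `F.deg`) and
the matrix `F.D` of its differential (`F.D a b` is the coefficient of the basis vector `a` in the
differential of the basis vector `b`).

For an `A`-module `M`, functions `(Fin (m+1) → F.ι) → M` are the elements of
`F ⊗ F ⊗ ... ⊗ F ⊗ M` (`m + 1` factors `F`).
* `del` is the differential of this tensor power (with the usual Koszul signs),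
* `cyc` moves the first tensor factor to the end (with the Koszul sign),
* `gam` is the parity operator,
* `am k F M m` is the supertrace of `cyc` on the homology, the number
  `∑ j, (-1)^j * trace (cyc | H_j (F^{⊗(m+1)} ⊗ M))`.
-/

open scoped BigOperators

namespace NCG

universe u v w

/-- the sign `(-1)^n` of an integer -/
def sgn (n : ℤ) : ℤ := if Even n then 1 else -1

/-- a bounded complex of finitely generated free `A`-modules with a homogeneous basis -/
structure Cx (A : Type u) [CommRing A] where
  /-- the basis -/
  ι : Type
  fin : Fintype ι
  dec : DecidableEq ι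
  /-- the degrees of the basis vectors -/
  deg : ι → ℤ
  /-- the matrix of the differential -/
  D : Matrix ι ι A
  /-- the differential lowers the degree by one -/
  homog : ∀ a b, D a b ≠ 0 → deg b = deg a + 1
  /-- the differential squares to zero -/
  sq : letI := fin; D * D = 0

attribute [instance] Cx.fin Cx.dec

section action

variable (k : Type*) {R M J : Type*} [CommSemiring k] [Ring R] [AddCommGroup M]
  [Module k M] [Module R M] [SMulCommClass R k M] [Fintype J]

/-- the action of a matrix over `R` on column vectors with entries in an `R`-module `M`, as a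
`k`-linear map -/
def mv (X : Matrix J J R) : (J → M) →ₗ[k] (J → M) where
  toFun x a := ∑ b, X a b • x b
  map_add' x y := by
    funext a
    simp [smul_add, Finset.sum_add_distrib]
  map_smul' c x := by
    funext a
    simp only [Pi.smul_apply, RingHom.id_apply, Finset.smul_sum]
    exact Finset.sum_congr rfl fun b _ => smul_comm _ _ _

theorem mv_apply (X : Matrix J J R) (x : J → M) (a : J) : mv k X x a = ∑ b, X a b • x b := rfl

end action

section homology

variable {k : Type*} {V : Type*} [CommRing k] [AddCommGroup V] [Module k V]

/-- the homology `ker δ / im δ` of an endomorphism `δ` (used when `δ ∘ δ = 0`) -/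
abbrev Hm (δ : V →ₗ[k] V) : Type _ :=
  (LinearMap.ker δ) ⧸ ((LinearMap.range δ).comap (LinearMap.ker δ).subtype)

/-- `G` preserves the kernel and the image of `δ` -/
def Pres (δ G : V →ₗ[k] V) : Prop :=
  (∀ x ∈ LinearMap.ker δ, G x ∈ LinearMap.ker δ) ∧
    (∀ x ∈ LinearMap.range δ, G x ∈ LinearMap.range δ)

/-- the endomorphism of the homology of `δ` induced by `G` -/
def hmap (δ G : V →ₗ[k] V) (h : Pres δ G) : Hm δ →ₗ[k] Hm δ :=
  Submodule.mapQ _ _ (G.restrict h.1) (fun x hx => h.2 x.1 hx)

open Classical in
/-- the trace of the endomorphism of the homology of `δ` induced by `G` (and `0` if `G` does not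
preserve the kernel and the image of `δ`) -/
noncomputable def htr (δ G : V →ₗ[k] V) : k :=
  if h : Pres δ G then LinearMap.trace k (Hm δ) (hmap δ G h) else 0

end homology

section tensor

variable {ι : Type} [Fintype ι] [DecidableEq ι] (deg : ι → ℤ)

/-- the matrix `X` acting on the factor number `u` of a tensor power, with the Koszul sign -/
def slot {R : Type*} [Ring R] {m : ℕ} (u : Fin m) (X : Matrix ι ι R) :
    Matrix (Fin m → ι) (Fin m → ι) R :=
  fun a b => if ∀ v, v ≠ u → a v = b v then
    (sgn ((deg (a u) - deg (b u)) * ∑ v ∈ Finset.univ.filter (· < u), deg (a v)) : R) * X (a u) (b u)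
    else 0

/-- the sum of the actions of `X` on all tensor factors -/
def Gam {R : Type*} [Ring R] (m : ℕ) (X : Matrix ι ι R) : Matrix (Fin m → ι) (Fin m → ι) R :=
  ∑ u : Fin m, slot deg u X

/-- moving the first entry of a tuple to the end -/
def rot {m : ℕ} (b : Fin (m + 1) → ι) : Fin (m + 1) → ι :=
  Fin.snoc (α := fun _ => ι) (fun j : Fin m => b j.succ) (b 0)

/-- the cyclic rotation of the tensor power (the first factor is moved to the end), with the
Koszul sign -/
def cyc (R : Type*) [Ring R] (m : ℕ) : Matrix (Fin (m + 1) → ι) (Fin (m + 1) → ι) R :=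
  fun a b => if a = rot b then (sgn (deg (b 0) * ∑ j : Fin m, deg (b j.succ)) : R) else 0

/-- the parity operator of the tensor power -/
def gam (R : Type*) [Ring R] (m : ℕ) : Matrix (Fin m → ι) (Fin m → ι) R :=
  Matrix.diagonal fun a => (sgn (∑ j, deg (a j)) : R)

end tensor

section Adams

variable {A : Type u} [CommRing A]

/-- the homology of `F` has finite length -/
def Cx.FinLen (F : Cx A) : Prop := IsFiniteLength A (Hm (mv A (M := A) F.D))

/-- the matrix of the differential of the tensor power `F^{⊗ m}` -/
def Cx.del (F : Cx A) (m : ℕ) : Matrix (Fin m → F.ι) (Fin m → F.ι) A := Gam F.deg m F.D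

/-- the supertrace of the cyclic rotation on the homology of `F^{⊗ (m + 1)} ⊗ M` -/
noncomputable def am (k : Type v) [Field k] [Algebra k A] (F : Cx A) (M : Type w) [AddCommGroup M]
    [Module A M] [Module k M] [IsScalarTower k A M] (m : ℕ) : k :=
  htr (mv k (M := M) (F.del (m + 1))) (mv k (M := M) (gam F.deg A (m + 1) * cyc F.deg A m))

end Adams

end NCG
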