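import Pool.Agent.NCG.TDf

/-!
# SLT: the operators `slot u X` on tensor powers

`slot deg u X a b = sgn ((deg (a u) - deg (b u)) * s) * X (a u) (b u)` if `a` and `b` agree outside `u`
(and `0` otherwise), where `s = ∑_{v < u} deg (a v)`.

`slot_mul`: in `∑_c slot u X a c * slot u Y c b` only `c = Function.update a u γ` contribute, and the
sum `s` is the same for `a` and `c`; the signs multiply to the sign of `slot u (X * Y)`.

`slot_anticomm`: `u ≠ v`, `X`, `Y` odd with commuting entries.  `(slot u X * slot v Y) a b` is nonzero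
only if `a`, `b` agree outside `{u, v}`, and then only `c = update a u (b u)` contributes, with value
`sgn ((a_u - b_u) Σ_{w<u} a_w) X(a_u, b_u) sgn ((a_v - b_v) Σ_{w<v} c_w) Y(a_v, b_v)` (writing `a_w` for
`deg (a w)`); in the product in the other order only `c' = update a v (b v)` contributes, with value
`sgn ((a_v - b_v) Σ_{w<v} a_w) Y(a_v, b_v) sgn ((a_u - b_u) Σ_{w<u} c'_w) X(a_u, b_u)`.
If `u < v`: `Σ_{w<v} c_w = Σ_{w<v} a_w + (b_u - a_u)` and `Σ_{w<u} c'_w = Σ_{w<u} a_w`, so the quotient of
the signs is `sgn ((a_v - b_v)(b_u - a_u)) = -1` if both entries are nonzero.  If `v < u` symmetric.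

`slot_castSucc`: for `u : Fin m`, `slot (castSucc u) X = ext1 (slot u X)`: the elements below
`castSucc u` are the `castSucc w`, `w < u`.
`Gam_succ`: `Fin.sum_univ_castSucc`.
`ext1_mul`: only `c` with `c (last) = a (last)` contribute; use the equivalence
`Fin.snocEquiv`/`Fin.init`, `Fin.snoc`.
-/

open scoped BigOperators

namespace NCG

section

variable {ι : Type} [Fintype ι] [DecidableEq ι] (deg : ι → ℤ) {R R' : Type*} [Ring R] [Ring R']

private lemma SLT_sum_update {m : ℕ} (u : Fin m) (a : Fin m → ι) (f : (Fin m → ι) → R)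
    (hf : ∀ c, f c ≠ 0 → ∀ v, v ≠ u → a v = c v) :
    ∑ c, f c = ∑ γ, f (Function.update a u γ) := by
  have h1 : ∑ c ∈ Finset.univ.image (fun γ => Function.update a u γ), f c = ∑ c, f c := by
    refine Finset.sum_subset (Finset.subset_univ _) ?_
    intro c _ hc
    by_contra h
    apply hc
    rw [Finset.mem_image]
    refine ⟨c u, Finset.mem_univ _, ?_⟩
    funext v
    by_cases hv : v = u
    · subst hv
      rw [Function.update_self]
    · rw [Function.update_of_ne hv]
      exact hf c h v hv
  rw [← h1, Finset.sum_image]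
  intro γ _ γ' _ h
  have h2 := congrFun h u
  simpa using h2

private lemma SLT_S_self {m : ℕ} (u w : Fin m) (hw : ¬ w < u) (a : Fin m → ι) (γ : ι) :
    ∑ v ∈ Finset.univ.filter (· < u), deg (Function.update a w γ v) =
      ∑ v ∈ Finset.univ.filter (· < u), deg (a v) := by
  refine Finset.sum_congr rfl fun v hv => ?_
  rw [Finset.mem_filter] at hv
  rw [Function.update_of_ne]
  rintro rfl
  exact hw hv.2

private lemma SLT_S_lt {m : ℕ} (u w : Fin m) (hw : w < u) (a : Fin m → ι) (γ : ι) :
    ∑ v ∈ Finset.univ.filter (· < u), deg (Function.update a w γ v) =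
      ∑ v ∈ Finset.univ.filter (· < u), deg (a v) + (deg γ - deg (a w)) := by
  have hmem : w ∈ Finset.univ.filter (· < u) := by simp [hw]
  rw [← Finset.add_sum_erase _ _ hmem, ← Finset.add_sum_erase _ (fun v => deg (a v)) hmem,
    Function.update_self]
  have h1 : ∑ v ∈ (Finset.univ.filter (· < u)).erase w, deg (Function.update a w γ v) =
      ∑ v ∈ (Finset.univ.filter (· < u)).erase w, deg (a v) := by
    refine Finset.sum_congr rfl fun v hv => ?_
    rw [Finset.mem_erase] at hv
    rw [Function.update_of_ne hv.1]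
  rw [h1]
  ring

theorem slot_zero {m : ℕ} (u : Fin m) : slot deg u (0 : Matrix ι ι R) = 0 := by
  ext a b
  simp [slot]

theorem slot_add {m : ℕ} (u : Fin m) (X Y : Matrix ι ι R) :
    slot deg u (X + Y) = slot deg u X + slot deg u Y := by
  ext a b
  simp only [slot, Matrix.add_apply]
  split_ifs
  · rw [mul_add]
  · rw [add_zero]

theorem slot_map {m : ℕ} (u : Fin m) (X : Matrix ι ι R) (f : R →+ R') :
    (slot deg u X).map f = slot deg u (X.map f) := by
  ext a b
  simp only [slot, Matrix.map_apply]
  split_ifs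
  · rw [← zsmul_eq_mul, ← zsmul_eq_mul, map_zsmul]
  · exact map_zero f

theorem slot_one {m : ℕ} (u : Fin m) : slot deg u (1 : Matrix ι ι R) = 1 := by
  ext a b
  by_cases hab : a = b
  · subst hab
    simp [slot]
  · rw [Matrix.one_apply_ne hab]
    simp only [slot]
    split_ifs with h
    · have hu : a u ≠ b u := by
        intro hu
        apply hab
        funext v
        by_cases hv : v = u
        · rw [hv, hu]
        · exact h v hv
      rw [Matrix.one_apply_ne hu, mul_zero]
    · rfl

theorem slot_mul {m : ℕ} (u : Fin m) (X Y : Matrix ι ι R) :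
    slot deg u (X * Y) = slot deg u X * slot deg u Y := by
  ext a b
  rw [Matrix.mul_apply, SLT_sum_update u a]
  · have h1 : ∀ γ, slot deg u X a (Function.update a u γ) =
        (sgn ((deg (a u) - deg γ) * ∑ v ∈ Finset.univ.filter (· < u), deg (a v)) : R) *
          X (a u) γ := by
      intro γ
      simp only [slot]
      rw [if_pos, Function.update_self]
      intro v hv
      rw [Function.update_of_ne hv]
    have h2 : ∀ γ, slot deg u Y (Function.update a u γ) b = if ∀ v, v ≠ u → a v = b v then
        (sgn ((deg γ - deg (b u)) * ∑ v ∈ Finset.univ.filter (· < u), deg (a v)) : R) *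
          Y γ (b u) else 0 := by
      intro γ
      simp only [slot]
      rw [SLT_S_self deg u u (lt_irrefl u), Function.update_self]
      have h3 : (∀ v, v ≠ u → Function.update a u γ v = b v) ↔ ∀ v, v ≠ u → a v = b v := by
        constructor
        · intro h v hv
          have := h v hv
          rwa [Function.update_of_ne hv] at this
        · intro h v hv
          rw [Function.update_of_ne hv]
          exact h v hv
      simp only [h3]
    simp only [h1, h2]
    show (if ∀ v, v ≠ u → a v = b v then _ else _) = _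
    by_cases h : ∀ v, v ≠ u → a v = b v
    · rw [if_pos h, Matrix.mul_apply, Finset.mul_sum]
      refine Finset.sum_congr rfl fun γ _ => ?_
      rw [if_pos h]
      have h4 : (deg (a u) - deg (b u)) * ∑ v ∈ Finset.univ.filter (· < u), deg (a v) =
          (deg (a u) - deg γ) * ∑ v ∈ Finset.univ.filter (· < u), deg (a v) +
          (deg γ - deg (b u)) * ∑ v ∈ Finset.univ.filter (· < u), deg (a v) := by ring
      rw [h4, sgn_add, Int.cast_mul]
      have h5 := Int.cast_comm (α := R)
        (sgn ((deg γ - deg (b u)) * ∑ v ∈ Finset.univ.filter (· < u), deg (a v))) (X (a u) γ)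
      simp only [mul_assoc]
      rw [← mul_assoc (X (a u) γ), ← h5, mul_assoc]
    · rw [if_neg h]
      symm
      refine Finset.sum_eq_zero fun γ _ => ?_
      rw [if_neg h, mul_zero]
  · intro c hc v hv
    by_contra h
    apply hc
    have : slot deg u X a c = 0 := by
      simp only [slot]
      rw [if_neg]
      intro h2
      exact h (h2 v hv)
    rw [this, zero_mul]

private lemma SLT_two {m : ℕ} {u v : Fin m} (huv : u ≠ v) (X Y : Matrix ι ι R)
    (a b : Fin m → ι) : (slot deg u X * slot deg v Y) a b =
      if ∀ w, w ≠ u → w ≠ v → a w = b w then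
        (sgn ((deg (a u) - deg (b u)) * ∑ w ∈ Finset.univ.filter (· < u), deg (a w)) : R) *
        ((sgn ((deg (a v) - deg (b v)) * ∑ w ∈ Finset.univ.filter (· < v),
          deg (Function.update a u (b u) w)) : R) * (X (a u) (b u) * Y (a v) (b v))) else 0 := by
  rw [Matrix.mul_apply, SLT_sum_update u a]
  · rw [Finset.sum_eq_single (b u)]
    · simp only [slot]
      rw [if_pos (fun w hw => by rw [Function.update_of_ne hw]), Function.update_self,
        Function.update_of_ne huv.symm]
      by_cases h : ∀ w, w ≠ u → w ≠ v → a w = b w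
      · rw [if_pos h, if_pos]
        · have h5 := Int.cast_comm (α := R) (sgn ((deg (a v) - deg (b v)) *
            ∑ w ∈ Finset.univ.filter (· < v), deg (Function.update a u (b u) w)))
            (X (a u) (b u))
          simp only [mul_assoc]
          rw [← mul_assoc (X (a u) (b u)), ← h5, mul_assoc]
        · intro w hw
          by_cases hwu : w = u
          · rw [hwu, Function.update_self]
          · rw [Function.update_of_ne hwu]
            exact h w hwu hw
      · rw [if_neg h, if_neg, mul_zero]
        intro h2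
        apply h
        intro w hwu hwv
        have := h2 w hwv
        rwa [Function.update_of_ne hwu] at this
    · intro γ _ hγ
      have : slot deg v Y (Function.update a u γ) b = 0 := by
        simp only [slot]
        rw [if_neg]
        intro h2
        have := h2 u huv
        rw [Function.update_self] at this
        exact hγ this
      rw [this, mul_zero]
    · intro h
      exact absurd (Finset.mem_univ _) h
  · intro c hc w hw
    by_contra h
    apply hc
    have : slot deg u X a c = 0 := by
      simp only [slot]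
      rw [if_neg]
      intro h2
      exact h (h2 w hw)
    rw [this, zero_mul]

theorem slot_anticomm {m : ℕ} {u v : Fin m} (huv : u ≠ v) (X Y : Matrix ι ι R)
    (hc : ∀ a b c d, X a b * Y c d = Y c d * X a b)
    (hX : ∀ a b, X a b ≠ 0 → Odd (deg a - deg b)) (hY : ∀ a b, Y a b ≠ 0 → Odd (deg a - deg b)) :
    slot deg u X * slot deg v Y = -(slot deg v Y * slot deg u X) := by
  ext a b
  rw [Matrix.neg_apply, SLT_two deg huv, SLT_two deg huv.symm]
  have hiff : (∀ w, w ≠ v → w ≠ u → a w = b w) ↔ ∀ w, w ≠ u → w ≠ v → a w = b w :=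
    ⟨fun h w h1 h2 => h w h2 h1, fun h w h1 h2 => h w h2 h1⟩
  simp only [hiff]
  split_ifs with h
  · by_cases hx : X (a u) (b u) = 0
    · rw [hx]
      simp
    by_cases hy : Y (a v) (b v) = 0
    · rw [hy]
      simp
    have ox := hX _ _ hx
    have oy := hY _ _ hy
    rw [← hc]
    obtain ⟨P, hP⟩ : ∃ P : ℤ, P = ∑ w ∈ Finset.univ.filter (· < u), deg (a w) := ⟨_, rfl⟩
    obtain ⟨Q, hQ⟩ : ∃ Q : ℤ, Q = ∑ w ∈ Finset.univ.filter (· < v), deg (a w) := ⟨_, rfl⟩
    obtain ⟨Z, hZ⟩ : ∃ Z : R, Z = X (a u) (b u) * Y (a v) (b v) := ⟨_, rfl⟩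
    rw [← hZ]
    rcases lt_or_gt_of_ne huv with hlt | hgt
    · rw [SLT_S_lt deg v u hlt, SLT_S_self deg u v (not_lt.2 hlt.le), ← hP, ← hQ]
      have e1 : (deg (a v) - deg (b v)) * (Q + (deg (b u) - deg (a u))) =
          (deg (a v) - deg (b v)) * Q + (deg (a v) - deg (b v)) * (deg (b u) - deg (a u)) := by
        ring
      have e2 : Odd ((deg (a v) - deg (b v)) * (deg (b u) - deg (a u))) := by
        refine oy.mul ?_
        have := ox.neg
        rwa [neg_sub] at this
      rw [e1, sgn_add_odd e2]
      push_cast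
      rw [← mul_assoc, ← mul_assoc, mul_neg, neg_mul, ← Int.cast_mul, ← Int.cast_mul,
        mul_comm (sgn ((deg (a u) - deg (b u)) * P))]
    · rw [SLT_S_self deg v u (not_lt.2 hgt.le), SLT_S_lt deg u v hgt, ← hP, ← hQ]
      have e1 : (deg (a u) - deg (b u)) * (P + (deg (b v) - deg (a v))) =
          (deg (a u) - deg (b u)) * P + (deg (a u) - deg (b u)) * (deg (b v) - deg (a v)) := by
        ring
      have e2 : Odd ((deg (a u) - deg (b u)) * (deg (b v) - deg (a v))) := by
        refine ox.mul ?_
        have := oy.neg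
        rwa [neg_sub] at this
      rw [e1, sgn_add_odd e2]
      push_cast
      rw [neg_mul, mul_neg, neg_neg, ← mul_assoc, ← mul_assoc, ← Int.cast_mul, ← Int.cast_mul,
        mul_comm (sgn ((deg (a u) - deg (b u)) * P))]
  · rw [neg_zero]

theorem Gam_zero (m : ℕ) : Gam deg m (0 : Matrix ι ι R) = 0 := by
  unfold Gam
  exact Finset.sum_eq_zero fun u _ => slot_zero deg u

theorem Gam_add (m : ℕ) (X Y : Matrix ι ι R) :
    Gam deg m (X + Y) = Gam deg m X + Gam deg m Y := by
  unfold Gam
  rw [← Finset.sum_add_distrib]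
  exact Finset.sum_congr rfl fun u _ => slot_add deg u X Y

theorem Gam_map (m : ℕ) (X : Matrix ι ι R) (f : R →+ R') :
    (Gam deg m X).map f = Gam deg m (X.map f) := by
  unfold Gam
  ext a b
  rw [Matrix.map_apply, Matrix.sum_apply, Matrix.sum_apply, map_sum]
  refine Finset.sum_congr rfl fun u _ => ?_
  rw [← slot_map, Matrix.map_apply]

private lemma SLT_S_castSucc {m : ℕ} (u : Fin m) (a : Fin (m + 1) → ι) :
    ∑ v ∈ Finset.univ.filter (· < u.castSucc), deg (a v) =
      ∑ v ∈ Finset.univ.filter (· < u), deg (Fin.init a v) := by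
  rw [Finset.sum_filter, Finset.sum_filter, Fin.sum_univ_castSucc]
  rw [if_neg (not_lt.2 (Fin.le_last _)), add_zero]
  refine Finset.sum_congr rfl fun w _ => ?_
  simp only [Fin.castSucc_lt_castSucc_iff]
  rfl

theorem slot_castSucc {m : ℕ} (u : Fin m) (X : Matrix ι ι R) :
    slot deg u.castSucc X = ext1 (slot deg u X) := by
  ext a b
  simp only [slot, ext1]
  rw [SLT_S_castSucc]
  by_cases hl : a (Fin.last m) = b (Fin.last m)
  · rw [if_pos hl]
    have hiff : (∀ v, v ≠ u.castSucc → a v = b v) ↔
        ∀ v, v ≠ u → Fin.init a v = Fin.init b v := by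
      constructor
      · intro h v hv
        exact h v.castSucc (fun h2 => hv (Fin.castSucc_injective _ h2))
      · intro h v
        refine Fin.lastCases ?_ (fun w => ?_) v
        · intro _
          exact hl
        · intro hw
          exact h w (fun h2 => hw (by rw [h2]))
    simp only [hiff]
    rfl
  · rw [if_neg hl, if_neg]
    intro h
    exact hl (h (Fin.last m) (Fin.castSucc_lt_last u).ne')

theorem ext1_zero {m : ℕ} : ext1 (0 : Matrix (Fin m → ι) (Fin m → ι) R) = 0 := by
  ext a b
  simp [ext1]

theorem ext1_add {m : ℕ} (Y Z : Matrix (Fin m → ι) (Fin m → ι) R) :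
    ext1 (Y + Z) = ext1 Y + ext1 Z := by
  ext a b
  simp only [ext1, Matrix.add_apply]
  split_ifs
  · rfl
  · rw [add_zero]

private lemma SLT_ext1_sum {m : ℕ} {κ : Type*} (s : Finset κ)
    (Y : κ → Matrix (Fin m → ι) (Fin m → ι) R) :
    ext1 (∑ u ∈ s, Y u) = ∑ u ∈ s, ext1 (Y u) := by
  classical
  induction s using Finset.induction_on with
  | empty => rw [Finset.sum_empty, Finset.sum_empty, ext1_zero]
  | insert a s ha ih => rw [Finset.sum_insert ha, Finset.sum_insert ha, ext1_add, ih]

theorem Gam_succ (m : ℕ) (X : Matrix ι ι R) :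
    Gam deg (m + 1) X = ext1 (Gam deg m X) + slot deg (Fin.last m) X := by
  unfold Gam
  rw [Fin.sum_univ_castSucc, SLT_ext1_sum]
  congr 1
  exact Finset.sum_congr rfl fun u _ => slot_castSucc deg u X

theorem ext1_one {m : ℕ} : ext1 (1 : Matrix (Fin m → ι) (Fin m → ι) R) = 1 := by
  ext a b
  by_cases hab : a = b
  · subst hab
    simp [ext1]
  · rw [Matrix.one_apply_ne hab]
    simp only [ext1]
    split_ifs with h
    · have h2 : Fin.init a ≠ Fin.init b := by
        intro h3
        apply hab
        funext v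
        refine Fin.lastCases h (fun w => ?_) v
        exact congrFun h3 w
      exact Matrix.one_apply_ne h2
    · rfl

theorem ext1_mul {m : ℕ} (Y Z : Matrix (Fin m → ι) (Fin m → ι) R) :
    ext1 (Y * Z) = ext1 Y * ext1 Z := by
  ext a b
  rw [Matrix.mul_apply]
  have h1 : ∑ c : Fin (m + 1) → ι, ext1 Y a c * ext1 Z c b =
      ∑ q : ι × (Fin m → ι), ext1 Y a (Fin.snoc (α := fun _ => ι) q.2 q.1) *
        ext1 Z (Fin.snoc (α := fun _ => ι) q.2 q.1) b :=
    (Fintype.sum_equiv (Fin.snocEquiv (fun _ => ι)) _ _ fun q => rfl).symm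
  rw [h1, Fintype.sum_prod_type]
  simp only [ext1, Fin.snoc_last, Fin.init_snoc]
  rw [Finset.sum_eq_single (a (Fin.last m))]
  · by_cases h : a (Fin.last m) = b (Fin.last m)
    · simp only [h, if_true]
      rw [Matrix.mul_apply]
    · simp only [h, if_true, if_false, mul_zero, Finset.sum_const_zero]
  · intro γ _ hγ
    refine Finset.sum_eq_zero fun c _ => ?_
    rw [if_neg (Ne.symm hγ), zero_mul]
  · intro h
    exact absurd (Finset.mem_univ _) h

theorem ext1_map {m : ℕ} (Y : Matrix (Fin m → ι) (Fin m → ι) R) (f : R →+ R') :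
    (ext1 Y).map f = ext1 (Y.map f) := by
  ext a b
  simp only [ext1, Matrix.map_apply]
  split_ifs
  · rfl
  · exact map_zero f

theorem ext1_Gam_anticomm (m : ℕ) (X Y : Matrix ι ι R)
    (hc : ∀ a b c d, X a b * Y c d = Y c d * X a b)
    (hX : ∀ a b, X a b ≠ 0 → Odd (deg a - deg b)) (hY : ∀ a b, Y a b ≠ 0 → Odd (deg a - deg b)) :
    ext1 (Gam deg m X) * slot deg (Fin.last m) Y =
      -(slot deg (Fin.last m) Y * ext1 (Gam deg m X)) := by
  unfold Gam
  rw [SLT_ext1_sum, Finset.sum_mul, Finset.mul_sum, ← Finset.sum_neg_distrib]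
  refine Finset.sum_congr rfl fun u _ => ?_
  rw [← slot_castSucc]
  exact slot_anticomm deg (Fin.castSucc_lt_last u).ne X Y hc hX hY

/-- the square of `Gam X` for an odd matrix `X` over a commutative ring -/
theorem Gam_sq {A : Type*} [CommRing A] (m : ℕ) (X : Matrix ι ι A)
    (hX : ∀ a b, X a b ≠ 0 → Odd (deg a - deg b)) (h : X * X = 0) :
    Gam deg m X * Gam deg m X = 0 := by
  unfold Gam
  rw [Finset.sum_mul_sum, ← Finset.sum_product']
  refine Finset.sum_involution (fun q _ => (q.2, q.1)) ?_ ?_ ?_ ?_
  · rintro ⟨u, v⟩ _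
    by_cases huv : u = v
    · subst huv
      simp only [← slot_mul, h, slot_zero, add_zero]
    · simp only
      rw [slot_anticomm deg huv X X (fun _ _ _ _ => mul_comm _ _) hX hX, neg_add_cancel]
  · rintro ⟨u, v⟩ _ hne heq
    apply hne
    have huv : v = u := congrArg Prod.fst heq
    subst huv
    simp only [← slot_mul, h, slot_zero]
  · intro q _
    exact Finset.mem_product.2 ⟨Finset.mem_univ _, Finset.mem_univ _⟩
  · intro q _
    rfl

end

end NCG
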