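import Pool.Agent.NCG.NCP
import Pool.Agent.NCG.SLT

/-!
# EXP: expansion in matrix units

`R` is a `k`-algebra.  For `M : Matrix J J k` and `r : R` let `T M r = M.map (fun c => c • r)`, a matrix over
`R`.  Then `T M r * T M' r' = T (M * M') (r * r')`, `T` is additive in both arguments,
`Gam (T M r) = T (Gam M) r`, `slot u (T M r) = T (slot u M) r` (the signs are integers) and
`cyc deg R m = T (cyc deg k m) 1`.  Every `X : Matrix ι ι R` is `∑_{q : ι × ι} T (single q.1 q.2 1) (X q.1 q.2)`.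
So `slot 0 X₀ * ∏_j Γ(X j) = ∑_{q₀} ∑_{q : Fin i → ι × ι} T (slot 0 (single q₀) * ∏_j Γ(single (q j))) (X₀ q₀ * ∏_j X j (q j))`
by `prod_ofFn_sum`; multiply by `cyc` and take the supertrace.
-/

open scoped BigOperators

namespace NCG

section

variable {ι : Type} [Fintype ι] [DecidableEq ι] (deg : ι → ℤ) {k R : Type*} [Field k] [Ring R]
  [Algebra k R]

/-- the matrix `M ⊗ r` -/
private def EXP_T {J : Type*} (M : Matrix J J k) (r : R) : Matrix J J R := fun a b => M a b • r

private lemma EXP_T_map {J : Type*} (M : Matrix J J k) (r : R) :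
    EXP_T M r = M.map (LinearMap.toSpanSingleton k R r).toAddMonoidHom := by
  ext a b
  rfl

private lemma EXP_T_mul {J : Type*} [Fintype J] (M M' : Matrix J J k) (r r' : R) :
    EXP_T M r * EXP_T M' r' = EXP_T (M * M') (r * r') := by
  ext a b
  simp only [EXP_T, Matrix.mul_apply]
  rw [Finset.sum_smul]
  refine Finset.sum_congr rfl fun c _ => ?_
  rw [smul_mul_smul_comm]

private lemma EXP_T_one {J : Type*} [DecidableEq J] : EXP_T (1 : Matrix J J k) (1 : R) = 1 := by
  ext a b
  simp only [EXP_T]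
  by_cases h : a = b
  · subst h
    rw [Matrix.one_apply_eq, Matrix.one_apply_eq, one_smul]
  · rw [Matrix.one_apply_ne h, Matrix.one_apply_ne h, zero_smul]

private lemma EXP_T_slot {m : ℕ} (u : Fin m) (M : Matrix ι ι k) (r : R) :
    slot deg u (EXP_T M r) = EXP_T (slot deg u M) r := by
  rw [EXP_T_map, EXP_T_map, slot_map]

private lemma EXP_T_Gam (m : ℕ) (M : Matrix ι ι k) (r : R) :
    Gam deg m (EXP_T M r) = EXP_T (Gam deg m M) r := by
  rw [EXP_T_map, EXP_T_map, Gam_map]

private lemma EXP_T_cyc (m : ℕ) : cyc deg R m = EXP_T (cyc deg k m) (1 : R) := by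
  ext a b
  simp only [cyc, EXP_T]
  split_ifs
  · rw [Int.cast_smul_eq_zsmul, zsmul_eq_mul, mul_one]
  · rw [zero_smul]

private lemma EXP_T_str (m : ℕ) (Z : Matrix (Fin m → ι) (Fin m → ι) k) (r : R) :
    str deg m (EXP_T Z r) = str deg m Z • r := by
  simp only [str, EXP_T]
  rw [Finset.sum_smul]
  refine Finset.sum_congr rfl fun a _ => ?_
  rw [mul_smul, Int.cast_smul_eq_zsmul, zsmul_eq_mul]

private lemma EXP_T_decomp (X : Matrix ι ι R) :
    X = ∑ q : ι × ι, EXP_T (Matrix.single q.1 q.2 (1 : k)) (X q.1 q.2) := by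
  ext a b
  rw [Matrix.sum_apply, Finset.sum_eq_single (a, b)]
  · simp [EXP_T]
  · intro q _ hq
    simp only [EXP_T]
    rw [Matrix.single_apply_of_ne, zero_smul]
    intro h
    exact hq (Prod.ext h.1 h.2)
  · intro h
    exact absurd (Finset.mem_univ _) h

private lemma EXP_T_prod {J : Type*} [Fintype J] [DecidableEq J] (i : ℕ) (M : Fin i → Matrix J J k)
    (r : Fin i → R) : (List.ofFn fun j => EXP_T (M j) (r j)).prod =
      EXP_T (List.ofFn M).prod (List.ofFn r).prod := by
  induction i with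
  | zero => simp [EXP_T_one]
  | succ i ih =>
    rw [List.ofFn_succ, List.prod_cons, ih (fun j => M j.succ) (fun j => r j.succ), List.ofFn_succ,
      List.prod_cons, List.ofFn_succ, List.prod_cons, EXP_T_mul]

private lemma EXP_slot_sum {m : ℕ} {κ : Type*} (s : Finset κ) (u : Fin m)
    (Y : κ → Matrix ι ι R) : slot deg u (∑ q ∈ s, Y q) = ∑ q ∈ s, slot deg u (Y q) := by
  classical
  induction s using Finset.induction_on with
  | empty => rw [Finset.sum_empty, Finset.sum_empty, slot_zero]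
  | insert a s ha ih => rw [Finset.sum_insert ha, Finset.sum_insert ha, slot_add, ih]

private lemma EXP_Gam_sum (m : ℕ) {κ : Type*} (s : Finset κ)
    (Y : κ → Matrix ι ι R) : Gam deg m (∑ q ∈ s, Y q) = ∑ q ∈ s, Gam deg m (Y q) := by
  classical
  induction s using Finset.induction_on with
  | empty => rw [Finset.sum_empty, Finset.sum_empty, Gam_zero]
  | insert a s ha ih => rw [Finset.sum_insert ha, Finset.sum_insert ha, Gam_add, ih]

private lemma EXP_str_sum (m : ℕ) {κ : Type*} (s : Finset κ)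
    (Y : κ → Matrix (Fin m → ι) (Fin m → ι) R) :
    str deg m (∑ q ∈ s, Y q) = ∑ q ∈ s, str deg m (Y q) := by
  simp only [str]
  rw [Finset.sum_comm]
  refine Finset.sum_congr rfl fun a _ => ?_
  rw [Matrix.sum_apply, Finset.mul_sum]

theorem EXP {i : ℕ} (X₀ : Matrix ι ι R) (X : Fin i → Matrix ι ι R) (m : ℕ) :
    str deg (m + 1)
      (cyc deg R m * (slot deg 0 X₀ * (List.ofFn fun j => Gam deg (m + 1) (X j)).prod)) =
    ∑ q₀ : ι × ι, ∑ q : Fin i → ι × ι,
      (str deg (m + 1) (cyc deg k m * (slot deg 0 (Matrix.single q₀.1 q₀.2 (1 : k)) *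
        (List.ofFn fun j => Gam deg (m + 1) (Matrix.single (q j).1 (q j).2 (1 : k))).prod))) •
        (X₀ q₀.1 q₀.2 * (List.ofFn fun j => X j (q j).1 (q j).2).prod) := by
  have h0 : slot deg (0 : Fin (m + 1)) X₀ = ∑ q : ι × ι,
      EXP_T (slot deg 0 (Matrix.single q.1 q.2 (1 : k))) (X₀ q.1 q.2) := by
    conv_lhs => rw [EXP_T_decomp (k := k) X₀]
    rw [EXP_slot_sum]
    exact Finset.sum_congr rfl fun q _ => EXP_T_slot deg 0 _ _
  have h1 : ∀ j, Gam deg (m + 1) (X j) = ∑ q : ι × ι,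
      EXP_T (Gam deg (m + 1) (Matrix.single q.1 q.2 (1 : k))) (X j q.1 q.2) := by
    intro j
    conv_lhs => rw [EXP_T_decomp (k := k) (X j)]
    rw [EXP_Gam_sum]
    exact Finset.sum_congr rfl fun q _ => EXP_T_Gam deg _ _ _
  have h2 : (List.ofFn fun j => Gam deg (m + 1) (X j)).prod = ∑ q : Fin i → ι × ι,
      EXP_T (List.ofFn fun j => Gam deg (m + 1) (Matrix.single (q j).1 (q j).2 (1 : k))).prod
        (List.ofFn fun j => X j (q j).1 (q j).2).prod := by
    simp_rw [h1]
    rw [prod_ofFn_sum i (fun (j : Fin i) (q : ι × ι) =>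
      EXP_T (Gam deg (m + 1) (Matrix.single q.1 q.2 (1 : k))) (X j q.1 q.2))]
    exact Finset.sum_congr rfl fun q _ => EXP_T_prod i _ _
  rw [h0, h2, Finset.sum_mul_sum, Finset.mul_sum, EXP_str_sum]
  refine Finset.sum_congr rfl fun q₀ _ => ?_
  rw [Finset.mul_sum, EXP_str_sum]
  refine Finset.sum_congr rfl fun q _ => ?_
  rw [EXP_T_mul, EXP_T_cyc (k := k), EXP_T_mul, EXP_T_str, one_mul]

end

end NCG
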