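import Pool.Agent.NCG.KDef

/-!
# EXW: identities for `wedge` and `contr`, and basic facts on `Pl`, `Hl`

`wedge_self`, `wedge_comm`: `ExteriorAlgebra.ι_sq_zero`, `ExteriorAlgebra.ι_add_mul_swap`.
`contr_wedge`, `contr_wedge_zero`: `CliffordAlgebra.contractLeft_ι_mul` (an element of `⋀^0` is
`algebraMap a`, its contraction is zero, `CliffordAlgebra.contractLeft_algebraMap`).
`exterior_zero`: `⋀^p (A^n) = 0` for `p > n` (the basis `Module.Basis.exteriorPower` is indexed by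
`Set.powersetCard (Fin n) p`, which is empty).

`Pl` facts.  `Pl φ 𝔞 l (j+1)` is `𝔞 • ⊤ ⊔ ⨆_{l' < l} range (wedge (φ l') j)`.
`wedge_Pl`: `wedge (φ l) j` maps `Pl φ 𝔞 (l+1) j` into `Pl φ 𝔞 l (j+1)`: it maps `𝔞 • ⊤` into
`𝔞 • ⊤`, and `φ l ∧ φ l' ∧ y = - φ l' ∧ φ l ∧ y` is in the range of `wedge (φ l')` for `l' < l` and
zero for `l' = l`.
`contr_Pl`: if `h (φ l') = 0` for all `l' < l`, then `contr h j` maps `Pl φ 𝔞 l (j+1)` into
`Pl φ 𝔞 l j`: `contr h (φ l' ∧ y) = - φ l' ∧ contr h y` for `y ∈ ⋀^j`, `j ≥ 1`, and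
`contr h (φ l' ∧ y) = h (φ l') y = 0` for `j = 0`.
-/

open scoped BigOperators

namespace NCG

universe u v w

variable {A : Type u} [CommRing A] {M : Type v} [AddCommGroup M] [Module A M]

private theorem EXW_wedge_coe (v : M) (j : ℕ) (x : ⋀[A]^j M) :
    ((wedge v j x : ⋀[A]^(j + 1) M) : ExteriorAlgebra A M) =
      ExteriorAlgebra.ι A v * (x : ExteriorAlgebra A M) := rfl

private theorem EXW_contr_coe (h : Module.Dual A M) (j : ℕ) (x : ⋀[A]^(j + 1) M) :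
    ((contr h j x : ⋀[A]^j M) : ExteriorAlgebra A M) =
      CliffordAlgebra.contractLeft h (x : ExteriorAlgebra A M) := rfl

theorem wedge_self (v : M) (j : ℕ) (x : ⋀[A]^j M) : wedge v (j + 1) (wedge v j x) = 0 := by
  apply Subtype.ext
  rw [EXW_wedge_coe, EXW_wedge_coe, ← mul_assoc, ExteriorAlgebra.ι_sq_zero, zero_mul]
  rfl

theorem wedge_comm (v w : M) (j : ℕ) (x : ⋀[A]^j M) :
    wedge v (j + 1) (wedge w j x) = - wedge w (j + 1) (wedge v j x) := by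
  apply Subtype.ext
  rw [Submodule.coe_neg, EXW_wedge_coe, EXW_wedge_coe, EXW_wedge_coe, EXW_wedge_coe,
    ← mul_assoc, ← mul_assoc, eq_neg_iff_add_eq_zero, ← add_mul,
    ExteriorAlgebra.ι_add_mul_swap, zero_mul]

theorem contr_wedge (h : Module.Dual A M) (v : M) (j : ℕ) (x : ⋀[A]^(j + 1) M) :
    contr h (j + 1) (wedge v (j + 1) x) = h v • x - wedge v j (contr h j x) := by
  apply Subtype.ext
  rw [Submodule.coe_sub, Submodule.coe_smul, EXW_contr_coe, EXW_wedge_coe, EXW_wedge_coe,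
    EXW_contr_coe]
  exact CliffordAlgebra.contractLeft_ι_mul _ _ _

theorem contr_wedge_zero (h : Module.Dual A M) (v : M) (x : ⋀[A]^0 M) :
    contr h 0 (wedge v 0 x) = h v • x := by
  apply Subtype.ext
  rw [Submodule.coe_smul, EXW_contr_coe, EXW_wedge_coe]
  have h1 : CliffordAlgebra.contractLeft h (ExteriorAlgebra.ι A v * (x : ExteriorAlgebra A M)) =
      h v • (x : ExteriorAlgebra A M) - ExteriorAlgebra.ι A v *
        (CliffordAlgebra.contractLeft h (x : ExteriorAlgebra A M)) :=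
    CliffordAlgebra.contractLeft_ι_mul _ _ _
  rw [h1]
  obtain ⟨x, hx⟩ := x
  simp only
  change x ∈ (LinearMap.range (ExteriorAlgebra.ι A (M := M))) ^ 0 at hx
  rw [pow_zero] at hx
  obtain ⟨a, rfl⟩ := Submodule.mem_one.1 hx
  have h2 : CliffordAlgebra.contractLeft h (algebraMap A (ExteriorAlgebra A M) a) = 0 :=
    CliffordAlgebra.contractLeft_algebraMap _ _ _
  rw [h2, mul_zero, sub_zero]

theorem exterior_zero {n p : ℕ} (h : n < p) (x : ⋀[A]^p (Fin n → A)) : x = 0 := by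
  have hb := (Pi.basisFun A (Fin n)).exteriorPower p
  have hE : IsEmpty (Set.powersetCard (Fin n) p) := by
    constructor
    rintro ⟨s, hs⟩
    have h1 : s.card = p := by simpa using hs
    have h2 := Finset.card_le_univ s
    simp at h2
    omega
  have : Subsingleton (⋀[A]^p (Fin n → A)) := hb.repr.toEquiv.subsingleton
  exact Subsingleton.elim _ _

variable {n : ℕ} (φ : ℕ → (Fin n → A)) (𝔞 : Ideal A)

theorem Pl_zero (j : ℕ) : Pl φ 𝔞 0 j = 𝔞 • ⊤ := by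
  cases j with
  | zero => rfl
  | succ j =>
    have hE : IsEmpty {l' : ℕ // l' < 0} := ⟨fun x => Nat.not_lt_zero _ x.2⟩
    show 𝔞 • ⊤ ⊔ ⨆ l' : {l' : ℕ // l' < 0}, LinearMap.range (wedge (φ l'.1) j) = 𝔞 • ⊤
    rw [iSup_of_empty, sup_bot_eq]

theorem Pl_deg_zero (l : ℕ) : Pl φ 𝔞 l 0 = 𝔞 • ⊤ := rfl

theorem Pl_succ (l j : ℕ) :
    Pl φ 𝔞 (l + 1) (j + 1) = Pl φ 𝔞 l (j + 1) ⊔ LinearMap.range (wedge (φ l) j) := by
  show 𝔞 • ⊤ ⊔ (⨆ l' : {l' : ℕ // l' < l + 1}, LinearMap.range (wedge (φ l'.1) j)) =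
    (𝔞 • ⊤ ⊔ ⨆ l' : {l' : ℕ // l' < l}, LinearMap.range (wedge (φ l'.1) j)) ⊔
      LinearMap.range (wedge (φ l) j)
  rw [sup_assoc]
  congr 1
  apply le_antisymm
  · apply iSup_le
    rintro ⟨l', hl'⟩
    rcases Nat.lt_succ_iff_lt_or_eq.1 hl' with h1 | h1
    · exact le_trans (le_iSup (fun l' : {l' : ℕ // l' < l} =>
        LinearMap.range (wedge (φ l'.1) j)) ⟨l', h1⟩) le_sup_left
    · subst h1
      exact le_sup_right
  · apply sup_le
    · apply iSup_le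
      rintro ⟨l', hl'⟩
      exact le_iSup (fun l' : {l' : ℕ // l' < l + 1} =>
        LinearMap.range (wedge (φ l'.1) j)) ⟨l', by omega⟩
    · exact le_iSup (fun l' : {l' : ℕ // l' < l + 1} =>
        LinearMap.range (wedge (φ l'.1) j)) ⟨l, by omega⟩

theorem Pl_mono {l l' : ℕ} (h : l ≤ l') (j : ℕ) : Pl φ 𝔞 l j ≤ Pl φ 𝔞 l' j := by
  cases j with
  | zero => exact le_rfl
  | succ j =>
    apply sup_le_sup_left
    apply iSup_le
    rintro ⟨a, ha⟩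
    exact le_iSup (fun l'' : {l'' : ℕ // l'' < l'} =>
      LinearMap.range (wedge (φ l''.1) j)) ⟨a, by omega⟩

theorem Pl_sup (l j : ℕ) : Pl φ 𝔞 l j = 𝔞 • ⊤ ⊔ Pl φ ⊥ l j := by
  cases j with
  | zero =>
    show 𝔞 • ⊤ = 𝔞 • ⊤ ⊔ (⊥ : Ideal A) • ⊤
    rw [Submodule.bot_smul, sup_bot_eq]
  | succ j =>
    show 𝔞 • ⊤ ⊔ (⨆ l' : {l' : ℕ // l' < l}, LinearMap.range (wedge (φ l'.1) j)) =
      𝔞 • ⊤ ⊔ ((⊥ : Ideal A) • ⊤ ⊔ ⨆ l' : {l' : ℕ // l' < l}, LinearMap.range (wedge (φ l'.1) j))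
    rw [Submodule.bot_smul, bot_sup_eq]

theorem range_le_Pl {l l' : ℕ} (h : l' < l) (j : ℕ) :
    LinearMap.range (wedge (φ l') j) ≤ Pl φ 𝔞 l (j + 1) :=
  le_trans (le_iSup (fun l'' : {l'' : ℕ // l'' < l} =>
      LinearMap.range (wedge (φ l''.1) j)) ⟨l', h⟩) le_sup_right

private theorem EXW_smul_top_le {X Y : Type*} [AddCommGroup X] [Module A X] [AddCommGroup Y]
    [Module A Y] (f : X →ₗ[A] Y) (W : Submodule A Y) (hW : 𝔞 • (⊤ : Submodule A Y) ≤ W) :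
    𝔞 • (⊤ : Submodule A X) ≤ W.comap f := by
  rw [Submodule.smul_le]
  intro r hr x _
  show f (r • x) ∈ W
  rw [map_smul]
  exact hW (Submodule.smul_mem_smul hr Submodule.mem_top)

private theorem EXW_smul_le_Pl (l j : ℕ) : 𝔞 • ⊤ ≤ Pl φ 𝔞 l j := by
  rw [Pl_sup]
  exact le_sup_left

theorem wedge_Pl (l j : ℕ) : Pl φ 𝔞 (l + 1) j ≤ (Pl φ 𝔞 l (j + 1)).comap (wedge (φ l) j) := by
  cases j with
  | zero => exact EXW_smul_top_le 𝔞 _ _ (EXW_smul_le_Pl φ 𝔞 l 1)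
  | succ j =>
    apply sup_le
    · exact EXW_smul_top_le 𝔞 _ _ (EXW_smul_le_Pl φ 𝔞 l (j + 1 + 1))
    · apply iSup_le
      rintro ⟨l', hl'⟩
      rintro _ ⟨y, rfl⟩
      show wedge (φ l) (j + 1) (wedge (φ l') j y) ∈ Pl φ 𝔞 l (j + 1 + 1)
      rcases Nat.lt_succ_iff_lt_or_eq.1 hl' with h1 | h1
      · rw [wedge_comm]
        apply Submodule.neg_mem
        exact range_le_Pl φ 𝔞 h1 (j + 1) ⟨_, rfl⟩
      · subst h1
        rw [wedge_self]
        exact Submodule.zero_mem _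

theorem contr_Pl (l j : ℕ) (h : Module.Dual A (Fin n → A)) (hh : ∀ l' < l, h (φ l') = 0) :
    Pl φ 𝔞 l (j + 1) ≤ (Pl φ 𝔞 l j).comap (contr h j) := by
  apply sup_le
  · exact EXW_smul_top_le 𝔞 _ _ (EXW_smul_le_Pl φ 𝔞 l j)
  · apply iSup_le
    rintro ⟨l', hl'⟩
    rintro _ ⟨y, rfl⟩
    cases j with
    | zero =>
      show contr h 0 (wedge (φ l') 0 y) ∈ Pl φ 𝔞 l 0
      rw [contr_wedge_zero, hh l' hl', zero_smul]
      exact Submodule.zero_mem _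
    | succ j =>
      show contr h (j + 1) (wedge (φ l') (j + 1) y) ∈ Pl φ 𝔞 l (j + 1)
      rw [contr_wedge, hh l' hl', zero_smul, zero_sub]
      apply Submodule.neg_mem
      exact range_le_Pl φ 𝔞 hl' j ⟨_, rfl⟩

theorem Hl_smul (l : ℕ) {a : A} (ha : a ∈ Hl φ l) (c : A) : c * a ∈ Hl φ l := by
  obtain ⟨h, h1, h2⟩ := ha
  refine ⟨c • h, ?_, ?_⟩
  · rw [LinearMap.smul_apply, h1, smul_eq_mul]
  · intro l' hl'
    rw [LinearMap.smul_apply, h2 l' hl', smul_zero]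

theorem Hl_add (l : ℕ) {a b : A} (ha : a ∈ Hl φ l) (hb : b ∈ Hl φ l) : a + b ∈ Hl φ l := by
  obtain ⟨h, h1, h2⟩ := ha
  obtain ⟨g, g1, g2⟩ := hb
  refine ⟨h + g, ?_, ?_⟩
  · rw [LinearMap.add_apply, h1, g1]
  · intro l' hl'
    rw [LinearMap.add_apply, h2 l' hl', g2 l' hl', add_zero]

end NCG
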