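import Pool.Agent.NCG.KDef

/-!
# JAC: the Jacobian criterion for complete intersections

`Q` Noetherian local, `D : Q → Q^n` a derivation, `f : Fin c → Q` a regular sequence,
`A = Q ⧸ (f)`, `Φ` the `c × n` matrix of the classes of `(D (f l))_j` in `A`.  Let `p` be a prime of `A` such
that `A_p` is a regular local ring, and assume that for `q = p.comap mk` with residue field `K` the
vectors `(D x mod q)`, `x ∈ q`, span a subspace `W` of `K^n` with `height q ≤ dim_K W`.  Then there are
`a ∉ p` and a matrix `H` over `A` with `Φ H = a`.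

Proof.  Let `W_f ⊆ W` be the span of the vectors `v_l = (D (f l) mod q)` (`f l ∈ q`).
(a) The map `q → K^n/W_f`, `x ↦ class of (D x mod q)`, is additive, `Q`-linear (`D (a x) = a D x + x D a`
with `x ∈ q`), and zero on `q²` and on `(f)`.  So it induces a map of `𝔫_p/𝔫_p²` (`𝔫_p` the maximal ideal of
`A_p`, whose elements are `x̄/s`, `x ∈ q`) onto `W/W_f` (after tensoring with `K`; the residue field of
`A_p` is isomorphic to `K`).  Hence `dim W ≤ dim W_f + dim (𝔫_p/𝔫_p²)`.  To avoid the identification of
residue fields one may argue with generators: if `𝔫_p` is generated by `e = dim A_p` elements (regular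
local ring), one can choose them as images of `x_1, ..., x_e ∈ q`; then for each `x ∈ q` there is `s ∉ q`
with `s x = ∑ a_t x_t + ∑ b_l f_l` in `Q`, so `s D x ≡ ∑ a_t D x_t + ∑ b_l D f_l` modulo `q`, and `W` is spanned by
`W_f` and the `e` vectors `(D x_t mod q)`.
(b) `e = dim A_p ≤ height q - c`: `A_p = Q_q ⧸ (f)`, and `f` is a regular sequence in the local ring `Q_q`
(localization is flat, `f l ∈ q`), so `dim Q_q ⧸ (f) + c = dim Q_q = height q`
(`ringKrullDim_add_length_eq_ringKrullDim_of_isRegular`).  (Here `height q` is finite.)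
(c) So `height q ≤ dim W ≤ dim W_f + height q - c`, and `dim W_f ≥ c`: the `c` rows `v_l` of
`Φ mod p` over `K` are linearly independent.
(d) Hence there is an `n × c` matrix over `K` (or over the fraction field of `A/p`) which is a right inverse of
`Φ mod p`; clearing denominators: `H₀` over `A` and `b ∉ p` with `Φ H₀ ≡ b` modulo `p`.  Let
`M = Φ H₀`, `a = det M ≡ b^c` modulo `p`, so `a ∉ p`; `H = H₀ adj(M)` satisfies `Φ H = M adj(M) = a`.

`JAD`: if for every prime `p ≠ 𝔪` there are `a ∉ p`, `H` with `Φ H = a`, then the ideal `{a | ∃ H, Φ H = a}` is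
not contained in any prime `≠ 𝔪`, so its radical contains `𝔪`, so it contains a power `𝔪^N`.  And
`Φ H = a` gives the linear forms `h v = ∑_j H j l v_j` with `h (φ l) = a`, `h (φ l') = 0` for `l' ≠ l`.
-/

open scoped BigOperators

namespace NCG

universe u

open IsLocalRing RingTheory.Sequence

private theorem JAC_dim {Q : Type u} [CommRing Q] [IsNoetherianRing Q] {c : ℕ} (f : Fin c → Q)
    (hf : IsWeaklyRegular Q (List.ofFn f)) (p : Ideal (Q ⧸ Ideal.span (Set.range f))) [p.IsPrime] :
    ringKrullDim (Localization.AtPrime p) + (c : WithBot ℕ∞) ≤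
      ((p.comap (Ideal.Quotient.mk (Ideal.span (Set.range f)))).height : WithBot ℕ∞) := by
  have hmem : ∀ r ∈ List.ofFn f, r ∈ p.comap (Ideal.Quotient.mk (Ideal.span (Set.range f))) := by
    intro r hr
    rw [List.mem_ofFn] at hr
    rw [Ideal.mem_comap, Ideal.Quotient.eq_zero_iff_mem.2 (Ideal.subset_span (Set.mem_range.2 hr))]
    exact p.zero_mem
  have hreg := hf.isRegular_of_isLocalization_of_mem
    (Localization.AtPrime (p.comap (Ideal.Quotient.mk (Ideal.span (Set.range f))))) _ hmem
  have h1 := ringKrullDim_add_length_eq_ringKrullDim_of_isRegular _ hreg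
  rw [IsLocalization.AtPrime.ringKrullDim_eq_height
    (p.comap (Ideal.Quotient.mk (Ideal.span (Set.range f))))
    (Localization.AtPrime (p.comap (Ideal.Quotient.mk (Ideal.span (Set.range f))))),
    List.length_map,
    List.length_ofFn] at h1
  rw [← h1]
  gcongr
  have hg := RingHom.surjective_localRingHom_of_surjective _
    (Ideal.Quotient.mk_surjective (I := Ideal.span (Set.range f))) p
  refine ringKrullDim_le_of_surjective (Ideal.Quotient.lift _ (Localization.localRingHom _ p
    (Ideal.Quotient.mk (Ideal.span (Set.range f))) rfl) ?_)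
    (Ideal.Quotient.lift_surjective_of_surjective _ _ hg)
  intro a ha
  have hle : Ideal.ofList ((List.ofFn f).map (algebraMap Q
      (Localization.AtPrime (p.comap (Ideal.Quotient.mk (Ideal.span (Set.range f))))))) ≤
      RingHom.ker (Localization.localRingHom _ p
        (Ideal.Quotient.mk (Ideal.span (Set.range f))) rfl) := by
    rw [Ideal.ofList, Ideal.span_le]
    intro x hx
    obtain ⟨r, hr, rfl⟩ := List.mem_map.1 hx
    rw [List.mem_ofFn] at hr
    rw [SetLike.mem_coe, RingHom.mem_ker, Localization.localRingHom_to_map,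
      Ideal.Quotient.eq_zero_iff_mem.2 (Ideal.subset_span (Set.mem_range.2 hr)), map_zero]
  exact hle ha

private theorem JAC_gen {A : Type u} [CommRing A] (p : Ideal A) [p.IsPrime]
    (hp : IsRegularLocalRing (Localization.AtPrime p)) :
    ∃ (e : ℕ) (a : Fin e → A), (∀ t, a t ∈ p) ∧
      ringKrullDim (Localization.AtPrime p) = (e : WithBot ℕ∞) ∧
      ∀ y ∈ p, ∃ s, s ∉ p ∧ s * y ∈ Ideal.span (Set.range a) := by
  classical
  have hfg : (maximalIdeal (Localization.AtPrime p)).FG := by
    have : IsNoetherianRing (Localization.AtPrime p) := by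
      have := hp
      infer_instance
    exact IsNoetherian.noetherian _
  obtain ⟨S, hS1, hS2⟩ := Submodule.FG.exists_span_finset_card_eq_spanFinrank hfg
  have hdim := hp.spanFinrank_maximalIdeal
  set e := S.card with he
  let E : Fin e ≃ S := (S.equivFin).symm
  -- numerators
  have hnum : ∀ z : Localization.AtPrime p, ∃ a : A, ∃ s : p.primeCompl,
      z * algebraMap A _ (s : A) = algebraMap A _ a := by
    intro z
    obtain ⟨⟨a, s⟩, h⟩ := IsLocalization.surj p.primeCompl z
    exact ⟨a, s, h⟩
  choose num den hnd using hnum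
  have hmax : ∀ x : A, algebraMap A (Localization.AtPrime p) x ∈
      maximalIdeal (Localization.AtPrime p) ↔ x ∈ p := fun x =>
    IsLocalization.AtPrime.to_map_mem_maximal_iff (Localization.AtPrime p) p x
  refine ⟨e, fun t => num (E t : Localization.AtPrime p), fun t => ?_, ?_, fun y hy => ?_⟩
  · rw [← hmax, ← hnd]
    apply Ideal.mul_mem_right
    have h1 : ((E t : S) : Localization.AtPrime p) ∈
        Submodule.span (Localization.AtPrime p) (S : Set (Localization.AtPrime p)) :=
      Submodule.subset_span (E t).2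
    rw [hS2] at h1
    exact h1
  · rw [← hdim, ← hS1]
  · have hle : maximalIdeal (Localization.AtPrime p) ≤
        (Ideal.span (Set.range fun t => num ((E t : S) : Localization.AtPrime p))).map
          (algebraMap A (Localization.AtPrime p)) := by
      rw [← hS2]
      refine Submodule.span_le.2 fun z hz => ?_
      have hu : IsUnit (algebraMap A (Localization.AtPrime p) (den z : A)) :=
        IsLocalization.map_units _ (den z)
      have h2 : z * algebraMap A (Localization.AtPrime p) (den z : A) ∈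
          (Ideal.span (Set.range fun t => num ((E t : S) : Localization.AtPrime p))).map
          (algebraMap A (Localization.AtPrime p)) := by
        rw [hnd]
        refine Ideal.mem_map_of_mem _ (Ideal.subset_span ⟨E.symm ⟨z, hz⟩, ?_⟩)
        simp
      rw [SetLike.mem_coe, mul_comm] at *
      exact (Ideal.unit_mul_mem_iff_mem _ hu).1 h2
    have h3 := hle ((hmax y).2 hy)
    rw [IsLocalization.mem_map_algebraMap_iff p.primeCompl] at h3
    obtain ⟨⟨a, s⟩, h4⟩ := h3
    rw [← map_mul, IsLocalization.eq_iff_exists p.primeCompl] at h4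
    obtain ⟨s', h5⟩ := h4
    refine ⟨(s' : A) * (s : A), p.primeCompl.mul_mem s'.2 s.2, ?_⟩
    have h6 : (s' : A) * (s : A) * y = (s' : A) * (a : A) := by
      have h7 : (s' : A) * (y * (s : A)) = (s' : A) * (a : A) := h5
      rw [← h7]; ring
    rw [h6]
    exact Ideal.mul_mem_left _ _ a.2

private theorem JAC_inv {K : Type u} [Field K] {n c : ℕ} (V : Fin c → Fin n → K)
    (hV : LinearIndependent K V) :
    ∃ H : Fin n → Fin c → K, ∀ l l', ∑ j, V l j * H j l' = if l = l' then 1 else 0 := by
  classical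
  have hinj : LinearMap.ker (Fintype.linearCombination K V) = ⊥ := by
    rw [LinearMap.ker_eq_bot]
    exact (linearIndependent_iff_injective_fintypeLinearCombination).1 hV
  obtain ⟨L, hL⟩ := LinearMap.exists_leftInverse_of_injective _ hinj
  refine ⟨fun j l' => L (Pi.single j 1) l', fun l l' => ?_⟩
  have h1 : L (V l) = Pi.single l 1 := by
    have h2 := congrArg (fun F : (Fin c → K) →ₗ[K] (Fin c → K) => F (Pi.single l 1)) hL
    simp only [LinearMap.comp_apply, LinearMap.id_apply] at h2
    rw [← h2, Fintype.linearCombination_apply_single, one_smul]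
  have h3 : V l = ∑ j, V l j • (Pi.single j 1 : Fin n → K) := by
    ext i
    simp [Finset.sum_apply, Pi.single_apply]
  have h4 : L (V l) l' = ∑ j, V l j * L (Pi.single j 1) l' := by
    conv_lhs => rw [h3]
    rw [map_sum, Finset.sum_apply]
    refine Finset.sum_congr rfl fun j _ => ?_
    rw [map_smul, Pi.smul_apply, smul_eq_mul]
  rw [← h4, h1, Pi.single_apply]
  simp [eq_comm]

/-- the numerical part: linear independence of the rows -/
private theorem JAC_indep {k Q : Type u} [Field k] [CommRing Q] [Algebra k Q] {n c e : ℕ}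
    (D : Derivation k Q (Fin n → Q)) (f : Fin c → Q) (q : Ideal Q) [q.IsPrime]
    (hfq : ∀ l, f l ∈ q) (x : Fin e → Q) (hx : ∀ t, x t ∈ q)
    (hgen : ∀ y ∈ q, ∃ s, s ∉ q ∧ s * y ∈ Ideal.span (Set.range x ∪ Set.range f))
    (hrank : e + c ≤ Module.finrank q.ResidueField (Submodule.span q.ResidueField
        {v : Fin n → q.ResidueField | ∃ x ∈ q, v = fun j => algebraMap Q q.ResidueField (D x j)})) :
    LinearIndependent q.ResidueField
      (fun l : Fin c => (fun j => algebraMap Q q.ResidueField (D (f l) j) :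
        Fin n → q.ResidueField)) := by
  classical
  set K := q.ResidueField
  set δ : Q → (Fin n → K) := fun y j => algebraMap Q K (D y j) with hδ
  have hz : ∀ y ∈ q, algebraMap Q K y = 0 := fun y hy => by
    rw [Ideal.algebraMap_residueField_eq_zero]; exact hy
  have hnz : ∀ y, y ∉ q → algebraMap Q K y ≠ 0 := fun y hy h => hy (by
    rwa [Ideal.algebraMap_residueField_eq_zero] at h)
  have hadd : ∀ y z, δ (y + z) = δ y + δ z := fun y z => by
    ext j; simp [hδ]
  have hmul : ∀ y z, δ (y * z) = algebraMap Q K y • δ z + algebraMap Q K z • δ y := fun y z => by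
    ext j; simp [hδ, Derivation.leibniz, Algebra.smul_def]
  have hzero : δ 0 = 0 := by ext j; simp [hδ]
  set W' : Submodule K (Fin n → K) := Submodule.span K (Set.range fun t => δ (x t)) ⊔
    Submodule.span K (Set.range fun l => δ (f l)) with hW'
  have hideal : ∀ y ∈ Ideal.span (Set.range x ∪ Set.range f), y ∈ q ∧ δ y ∈ W' := by
    intro y hy
    induction hy using Submodule.span_induction with
    | mem y hy =>
      rcases hy with ⟨t, rfl⟩ | ⟨l, rfl⟩
      · exact ⟨hx t, Submodule.mem_sup_left (Submodule.subset_span ⟨t, rfl⟩)⟩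
      · exact ⟨hfq l, Submodule.mem_sup_right (Submodule.subset_span ⟨l, rfl⟩)⟩
    | zero => exact ⟨q.zero_mem, by rw [hzero]; exact W'.zero_mem⟩
    | add y z _ _ hy hz => exact ⟨q.add_mem hy.1 hz.1, by rw [hadd]; exact W'.add_mem hy.2 hz.2⟩
    | smul a y _ hy =>
      refine ⟨q.mul_mem_left a hy.1, ?_⟩
      rw [smul_eq_mul, hmul, hz y hy.1, zero_smul, add_zero]
      exact W'.smul_mem _ hy.2
  have hle : Submodule.span K {v : Fin n → K | ∃ x ∈ q, v = fun j => algebraMap Q K (D x j)} ≤
      W' := by
    rw [Submodule.span_le]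
    rintro v ⟨y, hy, rfl⟩
    obtain ⟨s, hs, hsy⟩ := hgen y hy
    have h1 := (hideal _ hsy).2
    rw [hmul, hz y hy, zero_smul, add_zero] at h1
    have h2 := W'.smul_mem (algebraMap Q K s)⁻¹ h1
    rwa [smul_smul, inv_mul_cancel₀ (hnz s hs), one_smul] at h2
  have h3 : e + c ≤ Module.finrank K W' := hrank.trans (Submodule.finrank_mono hle)
  have h4 : Module.finrank K W' ≤
      Module.finrank K (Submodule.span K (Set.range fun t => δ (x t))) +
      Module.finrank K (Submodule.span K (Set.range fun l => δ (f l))) :=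
    Submodule.finrank_add_le_finrank_add_finrank _ _
  have h5 : Module.finrank K (Submodule.span K (Set.range fun t => δ (x t))) ≤ e := by
    have := finrank_range_le_card (R := K) (fun t : Fin e => δ (x t))
    simpa [Set.finrank] using this
  rw [linearIndependent_iff_card_le_finrank_span, Set.finrank, Fintype.card_fin]
  show c ≤ Module.finrank K (Submodule.span K (Set.range fun l => δ (f l)))
  omega

private theorem JAC_clear {Q : Type u} [CommRing Q] (q : Ideal Q) [q.IsPrime] {n c : ℕ}
    (κ : Fin n → Fin c → q.ResidueField) :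
    ∃ b : Q, b ∉ q ∧ ∃ h : Fin n → Fin c → Q, ∀ j l,
      algebraMap Q q.ResidueField (h j l) = algebraMap Q q.ResidueField b * κ j l := by
  classical
  obtain ⟨b, hb⟩ := IsLocalization.exist_integer_multiples_of_finite
    (nonZeroDivisors (Q ⧸ q)) (S := q.ResidueField)
    (fun jl : Fin n × Fin c => κ jl.1 jl.2)
  obtain ⟨b₀, hb₀⟩ := Ideal.Quotient.mk_surjective (b : Q ⧸ q)
  have halg : ∀ y : Q, algebraMap (Q ⧸ q) q.ResidueField (Ideal.Quotient.mk q y) =
      algebraMap Q q.ResidueField y := fun y => by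
    rw [IsScalarTower.algebraMap_apply Q (Q ⧸ q) q.ResidueField]
    rfl
  refine ⟨b₀, fun hq => ?_, ?_⟩
  · have h1 : (b : Q ⧸ q) = 0 := by rw [← hb₀]; exact Ideal.Quotient.eq_zero_iff_mem.2 hq
    exact nonZeroDivisors.coe_ne_zero b h1
  · have h2 : ∀ j l, ∃ y : Q, algebraMap Q q.ResidueField y =
        algebraMap Q q.ResidueField b₀ * κ j l := by
      intro j l
      obtain ⟨y, hy⟩ := hb (j, l)
      obtain ⟨y₀, hy₀⟩ := Ideal.Quotient.mk_surjective y
      refine ⟨y₀, ?_⟩
      rw [← halg, hy₀, hy, Algebra.smul_def, ← halg b₀, hb₀]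
    choose h hh using h2
    exact ⟨h, hh⟩

private theorem JAC_fin {Q A : Type u} [CommRing Q] [CommRing A] (mk : Q →+* A) (p : Ideal A)
    [p.IsPrime] {n c : ℕ} (F : Fin c → Fin n → Q)
    (hind : LinearIndependent (p.comap mk).ResidueField
      (fun l : Fin c => (fun j => algebraMap Q (p.comap mk).ResidueField (F l j) :
        Fin n → (p.comap mk).ResidueField))) :
    ∃ a : A, a ∉ p ∧ ∃ H : Matrix (Fin n) (Fin c) A,
      (Matrix.of fun (l : Fin c) (j : Fin n) => mk (F l j)) * H = a • 1 := by
  classical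
  obtain ⟨κ, hκ⟩ := JAC_inv _ hind
  obtain ⟨b, hb, h, hh⟩ := JAC_clear _ κ
  set Φ : Matrix (Fin c) (Fin n) A :=
    Matrix.of fun (l : Fin c) (j : Fin n) => mk (F l j) with hΦ
  set H₀ : Matrix (Fin n) (Fin c) A :=
    Matrix.of fun j l => mk (h j l) with hH₀
  have hM : ∀ l l', (Φ * H₀) l l' - (if l = l' then mk b else 0) ∈ p := by
    intro l l'
    have h1 : (Φ * H₀) l l' - (if l = l' then mk b else 0) =
        mk ((∑ j, F l j * h j l') - (if l = l' then b else 0)) := by
      rw [Matrix.mul_apply, map_sub, map_sum]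
      have h3 : ∀ j, Φ l j * H₀ j l' = mk (F l j * h j l') := fun j => by
        rw [map_mul]
        rfl
      rw [Finset.sum_congr rfl fun j _ => h3 j]
      split_ifs
      · rfl
      · rw [map_zero]
    rw [h1]
    show _ ∈ p.comap mk
    rw [← Ideal.algebraMap_residueField_eq_zero, map_sub, map_sum]
    have h2 : ∀ j, algebraMap Q (p.comap mk).ResidueField (F l j * h j l') =
        algebraMap Q (p.comap mk).ResidueField b *
          (algebraMap Q (p.comap mk).ResidueField (F l j) * κ j l') := by
      intro j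
      rw [map_mul, hh]
      ring
    rw [Finset.sum_congr rfl fun j _ => h2 j, ← Finset.mul_sum, hκ]
    split_ifs
    · rw [mul_one, sub_self]
    · rw [mul_zero, map_zero, sub_self]
  refine ⟨(Φ * H₀).det, fun hdet => ?_, H₀ * (Φ * H₀).adjugate, ?_⟩
  · -- modulo p the determinant is b ^ c
    have h1 : Ideal.Quotient.mk p ((Φ * H₀).det) = Ideal.Quotient.mk p (mk b) ^ c := by
      rw [RingHom.map_det]
      have h2 : (Ideal.Quotient.mk p).mapMatrix (Φ * H₀) =
          (Ideal.Quotient.mk p (mk b)) • (1 : Matrix (Fin c) (Fin c) _) := by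
        ext l l'
        rw [RingHom.mapMatrix_apply, Matrix.map_apply, Matrix.smul_apply, Matrix.one_apply,
          Ideal.Quotient.eq.2 (hM l l')]
        split_ifs
        · simp
        · simp
      rw [h2, Matrix.det_smul, Matrix.det_one, mul_one, Fintype.card_fin]
    have h3 : Ideal.Quotient.mk p (mk b) ^ c = 0 := by
      rw [← h1]
      exact Ideal.Quotient.eq_zero_iff_mem.2 hdet
    rw [← map_pow, Ideal.Quotient.eq_zero_iff_mem] at h3
    exact hb (Ideal.IsPrime.mem_of_pow_mem ‹p.IsPrime› c h3)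
  · rw [← Matrix.mul_assoc, Matrix.mul_adjugate]

theorem JAC {k Q : Type u} [Field k] [CommRing Q] [IsLocalRing Q] [IsNoetherianRing Q]
    [Algebra k Q] {n c : ℕ} (D : Derivation k Q (Fin n → Q)) (f : Fin c → Q)
    (hf : IsRegular Q (List.ofFn f)) (p : Ideal (Q ⧸ Ideal.span (Set.range f))) [p.IsPrime]
    (hp : IsRegularLocalRing (Localization.AtPrime p))
    (hJ : (p.comap (Ideal.Quotient.mk (Ideal.span (Set.range f)))).height ≤
      (Module.finrank (p.comap (Ideal.Quotient.mk (Ideal.span (Set.range f)))).ResidueField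
        (Submodule.span (p.comap (Ideal.Quotient.mk (Ideal.span (Set.range f)))).ResidueField
        {v : Fin n → (p.comap (Ideal.Quotient.mk (Ideal.span (Set.range f)))).ResidueField |
          ∃ x ∈ p.comap (Ideal.Quotient.mk (Ideal.span (Set.range f))),
            v = fun j => algebraMap Q _ (D x j)}) : ℕ∞)) :
    ∃ a : Q ⧸ Ideal.span (Set.range f), a ∉ p ∧
      ∃ H : Matrix (Fin n) (Fin c) (Q ⧸ Ideal.span (Set.range f)),
        (Matrix.of fun (l : Fin c) (j : Fin n) =>
          Ideal.Quotient.mk (Ideal.span (Set.range f)) (D (f l) j)) * H = a • 1 := by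
  classical
  obtain ⟨e, a, hap, hdim, hgen⟩ := JAC_gen p hp
  have hsurj := Ideal.Quotient.mk_surjective (I := Ideal.span (Set.range f))
  choose x hx using fun t => hsurj (a t)
  have hd := JAC_dim f hf.toIsWeaklyRegular p
  rw [hdim] at hd
  have hd2 : ((e + c : ℕ) : ℕ∞) ≤
      (p.comap (Ideal.Quotient.mk (Ideal.span (Set.range f)))).height := by
    rw [← WithBot.coe_le_coe]
    refine le_trans (le_of_eq ?_) hd
    push_cast
    rfl
  have hrank := Nat.cast_le.1 (hd2.trans hJ)
  have hfq : ∀ l, f l ∈ p.comap (Ideal.Quotient.mk (Ideal.span (Set.range f))) := fun l => by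
    rw [Ideal.mem_comap, Ideal.Quotient.eq_zero_iff_mem.2 (Ideal.subset_span (Set.mem_range_self l))]
    exact p.zero_mem
  have hxq : ∀ t, x t ∈ p.comap (Ideal.Quotient.mk (Ideal.span (Set.range f))) := fun t => by
    rw [Ideal.mem_comap, hx]
    exact hap t
  have hgen' : ∀ y ∈ p.comap (Ideal.Quotient.mk (Ideal.span (Set.range f))),
      ∃ s, s ∉ p.comap (Ideal.Quotient.mk (Ideal.span (Set.range f))) ∧
        s * y ∈ Ideal.span (Set.range x ∪ Set.range f) := by
    intro y hy
    obtain ⟨s, hs, hsy⟩ := hgen _ hy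
    obtain ⟨s₀, rfl⟩ := hsurj s
    refine ⟨s₀, hs, ?_⟩
    have h1 : Ideal.span (Set.range a) =
        (Ideal.span (Set.range x)).map (Ideal.Quotient.mk (Ideal.span (Set.range f))) := by
      rw [Ideal.map_span, ← Set.range_comp]
      congr 2
      funext t
      exact (hx t).symm
    rw [h1, ← map_mul, ← Ideal.mem_comap, Ideal.comap_map_of_surjective _ hsurj] at hsy
    rw [Ideal.span_union]
    have h2 : Ideal.comap (Ideal.Quotient.mk (Ideal.span (Set.range f))) ⊥ =
        Ideal.span (Set.range f) := by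
      rw [← RingHom.ker_eq_comap_bot, Ideal.mk_ker]
    rwa [h2] at hsy
  have hind := JAC_indep D f _ hfq x hxq hgen' hrank
  exact JAC_fin _ p (fun l j => D (f l) j) hind

theorem JAD {A : Type u} [CommRing A] [IsLocalRing A] [IsNoetherianRing A] {n c : ℕ}
    (Φ : Matrix (Fin c) (Fin n) A)
    (h : ∀ p : Ideal A, p.IsPrime → p ≠ maximalIdeal A →
      ∃ a, a ∉ p ∧ ∃ H : Matrix (Fin n) (Fin c) A, Φ * H = a • 1)
    (φ : ℕ → Fin n → A) (hφ : ∀ l : Fin c, φ l = Φ l) :
    ∀ l < c, ∃ N, ∀ a ∈ maximalIdeal A ^ N, a ∈ Hl φ l := by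
  classical
  intro l hl
  let J : Ideal A :=
    { carrier := {a | ∃ H : Matrix (Fin n) (Fin c) A, Φ * H = a • 1}
      zero_mem' := ⟨0, by simp⟩
      add_mem' := by
        rintro a b ⟨H, hH⟩ ⟨H', hH'⟩
        exact ⟨H + H', by rw [Matrix.mul_add, hH, hH', add_smul]⟩
      smul_mem' := by
        rintro r a ⟨H, hH⟩
        exact ⟨r • H, by rw [Matrix.mul_smul, hH, smul_smul, smul_eq_mul]⟩ }
  have hJ : maximalIdeal A ≤ J.radical := by
    rw [Ideal.radical_eq_sInf]
    refine le_sInf ?_
    rintro P ⟨hJP, hP⟩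
    by_contra hne
    have hPne : P ≠ maximalIdeal A := fun h' => hne (le_of_eq h'.symm)
    obtain ⟨a, ha, H, hH⟩ := h P hP hPne
    exact ha (hJP ⟨H, hH⟩)
  obtain ⟨N, hN⟩ := Ideal.exists_pow_le_of_le_radical_of_fg hJ (IsNoetherian.noetherian _)
  refine ⟨N, fun a ha => ?_⟩
  obtain ⟨H, hH⟩ := hN ha
  refine ⟨∑ j, H j ⟨l, hl⟩ • LinearMap.proj j, ?_, ?_⟩
  · have h1 := congrFun (congrFun hH ⟨l, hl⟩) ⟨l, hl⟩
    rw [Matrix.mul_apply, Matrix.smul_apply, Matrix.one_apply_eq, smul_eq_mul, mul_one] at h1
    rw [← h1, LinearMap.sum_apply]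
    refine Finset.sum_congr rfl fun j _ => ?_
    rw [LinearMap.smul_apply, LinearMap.proj_apply, smul_eq_mul, mul_comm]
    have h2 := hφ ⟨l, hl⟩
    rw [h2]
  · intro l' hl'
    have hl'c : l' < c := hl'.trans hl
    have h1 := congrFun (congrFun hH ⟨l', hl'c⟩) ⟨l, hl⟩
    rw [Matrix.mul_apply, Matrix.smul_apply, Matrix.one_apply_ne (by
      intro h; exact absurd (congrArg Fin.val h) (by simpa using hl'.ne)), smul_zero] at h1
    rw [← h1, LinearMap.sum_apply]
    refine Finset.sum_congr rfl fun j _ => ?_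
    rw [LinearMap.smul_apply, LinearMap.proj_apply, smul_eq_mul, mul_comm]
    have h2 := hφ ⟨l', hl'c⟩
    rw [h2]

end NCG
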