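import Mathlib

/-!
# JRP: the Jacobian rank of a prime ideal is at least its height (characteristic zero)

`Q` Noetherian, essentially of finite type and formally smooth over the field `k` of characteristic zero,
`D : Q → Q^n` a derivation with `D X_j = e_j` and the chain rule for all derivations of `Q`.
For a prime `q` with residue field `K` the vectors `(D x mod q)_{x ∈ q}` span a subspace of `K^n` of
dimension at least the height of `q`.

Proof.  Let `S = Localization.AtPrime q`, `𝔫` its maximal ideal, `K = q.ResidueField = S/𝔫`.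
(a) `dim_K 𝔫/𝔫² ≥ dim S = height q`: `ringKrullDim_le_spanFinrank_maximalIdeal`,
`spanFinrank_maximalIdeal_eq_finrank_cotangentSpace`, `IsLocalization.AtPrime.ringKrullDim_eq_height`.
(b) `K` is essentially of finite type over the perfect field `k`, hence formally smooth
(`Algebra.FormallySmooth.of_perfectField`), and `S` is formally smooth over `k` (composition of
`FormallySmooth k Q` and the localization).  By `Algebra.FormallySmooth.iff_split_injection` the map
`kerCotangentToTensor k S K : 𝔫/𝔫² → K ⊗[S] Ω[S⁄k]`, `x ↦ 1 ⊗ D x`, is injective (it has a retraction).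
(c) The derivation `Q → K^n`, `x ↦ (algebraMap Q K (D x j))_j`, extends to a derivation
`D' : S → K^n` (`x/s ↦ (D' x - (x/s) D' s)/s`; e.g. from `Ω[S⁄k] ≃ S ⊗[Q] Ω[Q⁄k]`,
`KaehlerDifferential.tensorKaehlerEquivOfFormallyEtale` or `isLocalizedModule_map`).  The induced linear map
`K ⊗[S] Ω[S⁄k] → K^n` is injective: `K ⊗ Ω[S⁄k]` is spanned over `K` by the `1 ⊗ D x`, `x ∈ Q`
(`KaehlerDifferential.span_range_map_derivation_of_isLocalization`), and
`D x = ∑_j (D x)_j • D X_j` by the chain rule, so it is spanned by the `n` elements `1 ⊗ D X_j`, which are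
mapped to the basis `e_j`.
(d) So the composition `𝔫/𝔫² → K^n` is injective and `K`-linear; `𝔫/𝔫²` is spanned over `K` by the classes of the
`x ∈ q` (elements of `𝔫` are `x/s`), which are mapped to `(D x mod q)`.  So the span in question has
dimension `dim_K 𝔫/𝔫²`.
-/

open scoped BigOperators TensorProduct

namespace NCG

universe u

open IsLocalRing

private theorem JRP_clear {Q : Type u} [CommRing Q] (q : Ideal Q) [q.IsPrime] {ι : Type*}
    [Finite ι] (κ : ι → q.ResidueField) :
    ∃ b : Q, b ∉ q ∧ ∃ h : ι → Q, ∀ j,
      algebraMap Q q.ResidueField (h j) = algebraMap Q q.ResidueField b * κ j := by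
  classical
  obtain ⟨b, hb⟩ := IsLocalization.exist_integer_multiples_of_finite
    (nonZeroDivisors (Q ⧸ q)) (S := q.ResidueField) κ
  obtain ⟨b₀, hb₀⟩ := Ideal.Quotient.mk_surjective (b : Q ⧸ q)
  have halg : ∀ y : Q, algebraMap (Q ⧸ q) q.ResidueField (Ideal.Quotient.mk q y) =
      algebraMap Q q.ResidueField y := fun y => by
    rw [IsScalarTower.algebraMap_apply Q (Q ⧸ q) q.ResidueField]
    rfl
  refine ⟨b₀, fun hq => ?_, ?_⟩
  · have h1 : (b : Q ⧸ q) = 0 := by rw [← hb₀]; exact Ideal.Quotient.eq_zero_iff_mem.2 hq
    exact nonZeroDivisors.coe_ne_zero b h1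
  · have h2 : ∀ j, ∃ y : Q, algebraMap Q q.ResidueField y =
        algebraMap Q q.ResidueField b₀ * κ j := by
      intro j
      obtain ⟨y, hy⟩ := hb j
      obtain ⟨y₀, hy₀⟩ := Ideal.Quotient.mk_surjective y
      refine ⟨y₀, ?_⟩
      rw [← halg, hy₀, hy, Algebra.smul_def, ← halg b₀, hb₀]
    choose h hh using h2
    exact ⟨h, hh⟩

/-- the key point: an element of `q` all of whose partial derivatives lie in `q` is in `𝔫²` -/
private theorem JRP_key {k Q : Type u} [Field k] [CharZero k] [CommRing Q]
    [Algebra k Q] [Algebra.EssFiniteType k Q] [Algebra.FormallySmooth k Q] {n : ℕ}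
    (X : Fin n → Q) (D : Derivation k Q (Fin n → Q))
    (hchain : ∀ (V : Type u) [AddCommGroup V] [Module k V] [Module Q V] [IsScalarTower k Q V]
      (δ : Derivation k Q V) (x : Q), δ x = ∑ j, D x j • δ (X j))
    (q : Ideal Q) [q.IsPrime] (y : Q) (hy : y ∈ q)
    (hD : ∀ j, D y j ∈ q) :
    algebraMap Q (Localization.AtPrime q) y ∈
      (maximalIdeal (Localization.AtPrime q)) ^ 2 := by
  have hK : Algebra.EssFiniteType k q.ResidueField := Algebra.EssFiniteType.comp k Q q.ResidueField
  have hKs : Algebra.FormallySmooth k q.ResidueField := Algebra.FormallySmooth.of_perfectField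
  have hSQ : Algebra.FormallySmooth Q (Localization.AtPrime q) :=
    Algebra.FormallySmooth.of_isLocalization q.primeCompl
  have hS : Algebra.FormallySmooth k (Localization.AtPrime q) :=
    Algebra.FormallySmooth.comp k Q (Localization.AtPrime q)
  have hsurj : Function.Surjective (algebraMap (Localization.AtPrime q) q.ResidueField) :=
    IsLocalRing.residue_surjective
  have hinj := (Algebra.FormallySmooth.kerCotangentToTensor_injective_iff
    (R := k) (P := Localization.AtPrime q) (A := q.ResidueField) hsurj).2 inferInstance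
  have hker : RingHom.ker (algebraMap (Localization.AtPrime q) q.ResidueField) =
      maximalIdeal (Localization.AtPrime q) := IsLocalRing.ker_residue
  have hyS : algebraMap Q (Localization.AtPrime q) y ∈
      RingHom.ker (algebraMap (Localization.AtPrime q) q.ResidueField) := by
    rw [hker]
    exact (IsLocalization.AtPrime.to_map_mem_maximal_iff (Localization.AtPrime q) q y).2 hy
  let V := q.ResidueField ⊗[Localization.AtPrime q] Ω[Localization.AtPrime q⁄k]
  let d1 : Derivation k (Localization.AtPrime q) V :=
    (TensorProduct.mk (Localization.AtPrime q) q.ResidueField Ω[Localization.AtPrime q⁄k] 1).compDer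
      (KaehlerDifferential.D k (Localization.AtPrime q))
  let d2 : Derivation k Q V := d1.compAlgebraMap Q
  have h1 := hchain V d2 y
  have h2 : d2 y = 0 := by
    rw [h1]
    refine Finset.sum_eq_zero fun j _ => ?_
    rw [← algebraMap_smul q.ResidueField (D y j) (d2 (X j)),
      (Ideal.algebraMap_residueField_eq_zero).2 (hD j), zero_smul]
  have h3 : (KaehlerDifferential.kerCotangentToTensor k (Localization.AtPrime q) q.ResidueField)
      (Ideal.toCotangent _ ⟨algebraMap Q (Localization.AtPrime q) y, hyS⟩) = 0 := by
    rw [KaehlerDifferential.kerCotangentToTensor_toCotangent]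
    exact h2
  have h4 := hinj (h3.trans (map_zero _).symm)
  rw [Ideal.toCotangent_eq_zero] at h4
  rw [← hker]
  exact h4

theorem JRP {k Q : Type u} [Field k] [CharZero k] [CommRing Q] [IsNoetherianRing Q]
    [Algebra k Q] [Algebra.EssFiniteType k Q] [Algebra.FormallySmooth k Q] {n : ℕ}
    (X : Fin n → Q) (D : Derivation k Q (Fin n → Q)) (hDX : ∀ j, D (X j) = Pi.single j 1)
    (hchain : ∀ (V : Type u) [AddCommGroup V] [Module k V] [Module Q V] [IsScalarTower k Q V]
      (δ : Derivation k Q V) (x : Q), δ x = ∑ j, D x j • δ (X j))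
    (q : Ideal Q) [q.IsPrime] :
    q.height ≤ (Module.finrank q.ResidueField (Submodule.span q.ResidueField
      {v : Fin n → q.ResidueField | ∃ x ∈ q, v = fun j => algebraMap Q q.ResidueField (D x j)}) :
        ℕ∞) := by
  classical
  set S := Localization.AtPrime q with hSdef
  have hmax : ∀ x : Q, algebraMap Q S x ∈ maximalIdeal S ↔ x ∈ q := fun x =>
    IsLocalization.AtPrime.to_map_mem_maximal_iff S q x
  set t : Set (CotangentSpace S) := {w | ∃ x : Q, ∃ hx : x ∈ q,
    w = (maximalIdeal S).toCotangent ⟨algebraMap Q S x, (hmax x).2 hx⟩} with ht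
  have hspan : Submodule.span (ResidueField S) t = ⊤ := by
    rw [eq_top_iff]
    intro w _
    obtain ⟨⟨z, hz⟩, rfl⟩ := (maximalIdeal S).toCotangent_surjective w
    obtain ⟨⟨x, s⟩, hxs⟩ := IsLocalization.surj q.primeCompl z
    have hxs' : z * algebraMap Q S (s : Q) = algebraMap Q S x := hxs
    have hx : x ∈ q := by
      rw [← hmax, ← hxs']
      exact Ideal.mul_mem_right _ _ hz
    have hs : IsUnit (algebraMap Q S (s : Q)) := IsLocalization.map_units S s
    have hr : residue S (algebraMap Q S (s : Q)) ≠ 0 := (hs.map (residue S)).ne_zero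
    have h1 : (residue S (algebraMap Q S (s : Q))) •
        ((maximalIdeal S).toCotangent ⟨z, hz⟩ : CotangentSpace S) =
        (maximalIdeal S).toCotangent ⟨algebraMap Q S x, (hmax x).2 hx⟩ := by
      have h2 : (⟨algebraMap Q S x, (hmax x).2 hx⟩ : maximalIdeal S) =
          algebraMap Q S (s : Q) • ⟨z, hz⟩ := by
        apply Subtype.ext
        show algebraMap Q S x = algebraMap Q S (s : Q) * z
        rw [← hxs', mul_comm]
      rw [h2, map_smul]
      exact algebraMap_smul (ResidueField S) (algebraMap Q S (s : Q))
        ((maximalIdeal S).toCotangent ⟨z, hz⟩ : CotangentSpace S)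
    have h3 : ((maximalIdeal S).toCotangent ⟨z, hz⟩ : CotangentSpace S) =
        (residue S (algebraMap Q S (s : Q)))⁻¹ •
          (maximalIdeal S).toCotangent ⟨algebraMap Q S x, (hmax x).2 hx⟩ := by
      rw [← h1, smul_smul, inv_mul_cancel₀ hr, one_smul]
    rw [h3]
    exact Submodule.smul_mem _ _ (Submodule.subset_span ⟨x, hx, rfl⟩)
  obtain ⟨b, hbt, hbspan, hbind⟩ := exists_linearIndependent (ResidueField S) t
  have hbfin : Finite b := hbind.finite
  have := Fintype.ofFinite b
  have hcard : Module.finrank (ResidueField S) (CotangentSpace S) = Fintype.card b := by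
    rw [hspan] at hbspan
    have h1 := finrank_span_eq_card hbind
    rw [Subtype.range_coe_subtype, Set.ofPred_mem_eq, hbspan, finrank_top] at h1
    exact h1
  choose x hx hxt using fun v : b => hbt v.2
  have hzq : ∀ y ∈ q, algebraMap Q q.ResidueField y = 0 := fun y hy => by
    rw [Ideal.algebraMap_residueField_eq_zero]; exact hy
  have hind : LinearIndependent q.ResidueField
      (fun v : b => (fun j => algebraMap Q q.ResidueField (D (x v) j) :
        Fin n → q.ResidueField)) := by
    rw [Fintype.linearIndependent_iff]
    intro g hg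
    obtain ⟨β, hβ, h, hh⟩ := JRP_clear q g
    have hβ0 : algebraMap Q q.ResidueField β ≠ 0 := fun h0 => hβ (by
      rwa [Ideal.algebraMap_residueField_eq_zero] at h0)
    have hyq : ∑ v, h v * x v ∈ q := q.sum_mem fun v _ => q.mul_mem_left _ (hx v)
    have hD : ∀ j, D (∑ v, h v * x v) j ∈ q := by
      intro j
      rw [← Ideal.algebraMap_residueField_eq_zero]
      have h1 : D (∑ v, h v * x v) j = ∑ v, (h v * D (x v) j + x v * D (h v) j) := by
        rw [map_sum, Finset.sum_apply]
        refine Finset.sum_congr rfl fun v _ => ?_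
        rw [Derivation.leibniz]
        simp
      rw [h1, map_sum]
      have h2 : ∀ v, algebraMap Q q.ResidueField (h v * D (x v) j + x v * D (h v) j) =
          algebraMap Q q.ResidueField β *
            (g v * algebraMap Q q.ResidueField (D (x v) j)) := fun v => by
        rw [map_add, map_mul, map_mul, hzq _ (hx v), zero_mul, add_zero, hh]
        ring
      rw [Finset.sum_congr rfl fun v _ => h2 v, ← Finset.mul_sum]
      have h3 := congrFun hg j
      simp only [Finset.sum_apply, Pi.smul_apply, smul_eq_mul, Pi.zero_apply] at h3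
      rw [h3, mul_zero]
    have hsq := JRP_key X D hchain q _ hyq hD
    -- so the combination of the basis vectors vanishes
    have h4 : ∑ v, (residue S (algebraMap Q S (h v))) • (v : CotangentSpace S) = 0 := by
      have h5 : ∀ v : b, (residue S (algebraMap Q S (h v))) • (v : CotangentSpace S) =
          (maximalIdeal S).toCotangent (algebraMap Q S (h v) •
            ⟨algebraMap Q S (x v), (hmax (x v)).2 (hx v)⟩) := by
        intro v
        rw [map_smul]
        conv_lhs => rw [hxt v]
        exact algebraMap_smul (ResidueField S) (algebraMap Q S (h v)) _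
      rw [Finset.sum_congr rfl fun v _ => h5 v, ← map_sum, Ideal.toCotangent_eq_zero]
      have h6 : ((∑ v, algebraMap Q S (h v) •
          (⟨algebraMap Q S (x v), (hmax (x v)).2 (hx v)⟩ : maximalIdeal S) :
            maximalIdeal S) : S) = algebraMap Q S (∑ v, h v * x v) := by
        rw [AddSubmonoidClass.coe_finsetSum, map_sum]
        refine Finset.sum_congr rfl fun v _ => ?_
        rw [map_mul]
        rfl
      rw [h6]
      exact hsq
    intro v
    have h7 := Fintype.linearIndependent_iff.1 hbind _ h4 v
    have h8 : algebraMap Q q.ResidueField (h v) = 0 := h7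
    rw [hh] at h8
    exact (mul_eq_zero.1 h8).resolve_left hβ0
  have hle : Fintype.card b ≤ Module.finrank q.ResidueField (Submodule.span q.ResidueField
      {v : Fin n → q.ResidueField | ∃ x ∈ q, v = fun j => algebraMap Q q.ResidueField (D x j)}) := by
    rw [← finrank_span_eq_card hind]
    refine Submodule.finrank_mono (Submodule.span_mono ?_)
    rintro _ ⟨v, rfl⟩
    exact ⟨x v, hx v, rfl⟩
  have hfin : q.height ≤ (Fintype.card b : ℕ∞) := by
    rw [← WithBot.coe_le_coe, ← IsLocalization.AtPrime.ringKrullDim_eq_height q S]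
    have hN : IsNoetherianRing S := IsLocalization.isNoetherianRing q.primeCompl S inferInstance
    refine (ringKrullDim_le_spanFinrank_maximalIdeal S).trans ?_
    rw [spanFinrank_maximalIdeal_eq_finrank_cotangentSpace, hcard]
    rfl
  exact hfin.trans (by exact_mod_cast hle)

end NCG
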