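import Pool.Agent.NCG.EXW

/-!
# XFR: exterior powers of a quotient of `A^n`

`OmM φ c = A^n ⧸ span {φ l | l < c}`, `qm : ExteriorAlgebra A (A^n) → ExteriorAlgebra A (OmM φ c)`.

`XFR_ker`: if `y ∈ ⋀^j (A^n)` and `qm y ∈ 𝔞 • ⊤` then `y ∈ Pl φ 𝔞 c j`.
Proof.  Let `Λ = ExteriorAlgebra A (A^n)` and let `R ⊆ Λ` be the `A`-submodule spanned by the elements
`ι (φ l) * y` with `l < c`, `y : Λ`.  Left multiplication by `ι v` maps `R` into `R`
(`ι v ι (φ l) y = - ι (φ l) ι v y`), so it acts on `Λ ⧸ R`, and it acts as zero for `v = φ l`, `l < c`.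
So we get an `A`-linear map `OmM φ c → End_A (Λ ⧸ R)`, `v̄ ↦ (x̄ ↦ class of ι v x)`, whose values have
square zero, and by `ExteriorAlgebra.lift` an algebra map
`ψ : ExteriorAlgebra A (OmM φ c) → End_A (Λ ⧸ R)` with `ψ (qm x) (class of y) = class of (x y)`
(induction on `x`, or equality of algebra maps `Λ → End_A (Λ ⧸ R)`, `ExteriorAlgebra.hom_ext`).
In particular `ψ (qm y) (class of 1) = class of y`.  If `qm y ∈ 𝔞 • ⊤`, then the class of `y` is in
`𝔞 • ⊤ ⊆ Λ ⧸ R` (image of `𝔞 • ⊤` under the linear map `E ↦ ψ E (class of 1)`), so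
`y = ∑ a_s y_s + ∑ ι (φ l) * x_l` in `Λ`, with `a_s ∈ 𝔞`.  Now take the components of degree `j`
(`ExteriorAlgebra.gradedAlgebra`, `GradedRing.proj`/`DirectSum.decompose`;
`(a y)_j = a (y)_j`, `(ι v * x)_j = ι v * (x)_{j-1}` and `0` for `j = 0`,
`DirectSum.coe_decompose_mul_of_left_mem...`): `y = (y)_j ∈ Pl φ 𝔞 c j`.

`XFR_im`: the converse (`qm (ι (φ l) * x) = ι 0 * qm x = 0`).
`XFR_surj`: `exteriorPower.map_surjective` (`exteriorPower.map` is the restriction of
`ExteriorAlgebra.map`), or `⋀^j` is spanned by products of `j` vectors.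
-/

open scoped BigOperators

namespace NCG

universe u

section

variable {A : Type u} [CommRing A] {n : ℕ} (φ : ℕ → (Fin n → A)) (c : ℕ)

/-- the quotient of `A^n` by the span of `φ 0, ..., φ (c - 1)` -/
abbrev OmM : Type u := (Fin n → A) ⧸ Submodule.span A (φ '' {l | l < c})

/-- the map of exterior algebras induced by `A^n → OmM φ c` -/
def qm : ExteriorAlgebra A (Fin n → A) →ₐ[A] ExteriorAlgebra A (OmM φ c) :=
  ExteriorAlgebra.map (Submodule.mkQ _)

/-- the span of the multiples of `φ l`, `l < c` -/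
private def xfrR : Submodule A (ExteriorAlgebra A (Fin n → A)) :=
  ⨆ l : {l : ℕ // l < c}, LinearMap.range (LinearMap.mulLeft A (ExteriorAlgebra.ι A (φ l.1)))

private theorem xfrR_mem {l : ℕ} (hl : l < c) (x : ExteriorAlgebra A (Fin n → A)) :
    ExteriorAlgebra.ι A (φ l) * x ∈ xfrR φ c :=
  Submodule.mem_iSup_of_mem (⟨l, hl⟩ : {l : ℕ // l < c}) ⟨x, rfl⟩

private theorem xfrR_mul (v : Fin n → A) :
    xfrR φ c ≤ (xfrR φ c).comap (LinearMap.mulLeft A (ExteriorAlgebra.ι A v)) := by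
  unfold xfrR
  refine iSup_le ?_
  rintro ⟨l, hl⟩ _ ⟨x, rfl⟩
  change ExteriorAlgebra.ι A v * (ExteriorAlgebra.ι A (φ l) * x) ∈ xfrR φ c
  have h1 : ExteriorAlgebra.ι A v * (ExteriorAlgebra.ι A (φ l) * x) =
      -(ExteriorAlgebra.ι A (φ l) * (ExteriorAlgebra.ι A v * x)) := by
    rw [eq_neg_iff_add_eq_zero, ← mul_assoc, ← mul_assoc, ← add_mul,
      ExteriorAlgebra.ι_add_mul_swap, zero_mul]
  rw [h1]
  exact Submodule.neg_mem _ (xfrR_mem φ c hl _)

/-- left multiplication by a vector on the quotient -/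
private def xfrL : (Fin n → A) →ₗ[A]
    ((ExteriorAlgebra A (Fin n → A) ⧸ xfrR φ c) →ₗ[A]
      (ExteriorAlgebra A (Fin n → A) ⧸ xfrR φ c)) where
  toFun v := (xfrR φ c).mapQ (xfrR φ c) (LinearMap.mulLeft A (ExteriorAlgebra.ι A v))
    (xfrR_mul φ c v)
  map_add' v w := by
    refine Submodule.linearMap_qext _ (LinearMap.ext fun x => ?_)
    simp only [LinearMap.comp_apply, LinearMap.add_apply, Submodule.mkQ_apply,
      Submodule.mapQ_apply, LinearMap.mulLeft_apply, map_add, add_mul, Submodule.Quotient.mk_add]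
  map_smul' a v := by
    refine Submodule.linearMap_qext _ (LinearMap.ext fun x => ?_)
    simp only [LinearMap.comp_apply, LinearMap.smul_apply, Submodule.mkQ_apply,
      Submodule.mapQ_apply, LinearMap.mulLeft_apply, map_smul, smul_mul_assoc,
      Submodule.Quotient.mk_smul, RingHom.id_apply]

private theorem xfrL_mk (v : Fin n → A) (x : ExteriorAlgebra A (Fin n → A)) :
    xfrL φ c v (Submodule.Quotient.mk x) = Submodule.Quotient.mk (ExteriorAlgebra.ι A v * x) :=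
  rfl

private theorem xfrL_ker :
    Submodule.span A (φ '' {l | l < c}) ≤ LinearMap.ker (xfrL φ c) := by
  rw [Submodule.span_le]
  rintro _ ⟨l, hl, rfl⟩
  rw [SetLike.mem_coe, LinearMap.mem_ker]
  refine Submodule.linearMap_qext _ (LinearMap.ext fun x => ?_)
  change xfrL φ c (φ l) (Submodule.Quotient.mk x) = 0
  rw [xfrL_mk, Submodule.Quotient.mk_eq_zero]
  exact xfrR_mem φ c hl x

private def xfrQ : OmM φ c →ₗ[A]
    Module.End A (ExteriorAlgebra A (Fin n → A) ⧸ xfrR φ c) :=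
  Submodule.liftQ _ (xfrL φ c) (xfrL_ker φ c)

private theorem xfrQ_sq (m : OmM φ c) : xfrQ φ c m * xfrQ φ c m = 0 := by
  obtain ⟨v, rfl⟩ := Submodule.Quotient.mk_surjective _ m
  have h1 : xfrQ φ c (Submodule.Quotient.mk v) = xfrL φ c v := rfl
  rw [h1]
  refine Submodule.linearMap_qext _ (LinearMap.ext fun x => ?_)
  change xfrL φ c v (xfrL φ c v (Submodule.Quotient.mk x)) = 0
  rw [xfrL_mk, xfrL_mk, ← mul_assoc, ExteriorAlgebra.ι_sq_zero, zero_mul]
  rfl

private def xfrP : ExteriorAlgebra A (OmM φ c) →ₐ[A]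
    Module.End A (ExteriorAlgebra A (Fin n → A) ⧸ xfrR φ c) :=
  ExteriorAlgebra.lift A ⟨xfrQ φ c, xfrQ_sq φ c⟩

private theorem xfrP_qm (x y : ExteriorAlgebra A (Fin n → A)) :
    xfrP φ c (qm φ c x) (Submodule.Quotient.mk y) = Submodule.Quotient.mk (x * y) := by
  induction x using ExteriorAlgebra.induction generalizing y with
  | algebraMap r =>
    rw [AlgHom.commutes, AlgHom.commutes, Module.algebraMap_end_apply,
      ← Submodule.Quotient.mk_smul, Algebra.smul_def]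
  | ι v =>
    have h1 : qm φ c (ExteriorAlgebra.ι A v) = ExteriorAlgebra.ι A (Submodule.Quotient.mk v) :=
      ExteriorAlgebra.map_apply_ι _ v
    have h2 : xfrP φ c (ExteriorAlgebra.ι A (Submodule.Quotient.mk v)) = xfrL φ c v :=
      ExteriorAlgebra.lift_ι_apply A (xfrQ φ c) (xfrQ_sq φ c) (Submodule.Quotient.mk v)
    rw [h1, h2, xfrL_mk]
  | mul a b ha hb =>
    rw [map_mul, map_mul, Module.End.mul_apply, hb, ha, mul_assoc]
  | add a b ha hb =>
    rw [map_add, map_add, LinearMap.add_apply, ha, hb, add_mul, Submodule.Quotient.mk_add]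

/-- the projection to the component of degree `j` -/
private def xfrJ (j : ℕ) : ExteriorAlgebra A (Fin n → A) →ₗ[A] ⋀[A]^j (Fin n → A) :=
  (DirectSum.component A ℕ (fun i => ⋀[A]^i (Fin n → A)) j) ∘ₗ
    (DirectSum.decomposeLinearEquiv (fun i => ⋀[A]^i (Fin n → A))).toLinearMap

private theorem xfrJ_eq (j : ℕ) (x : ExteriorAlgebra A (Fin n → A)) :
    xfrJ j x = DirectSum.decompose (fun i => ⋀[A]^i (Fin n → A)) x j := rfl

private theorem xfrJ_self (j : ℕ) (y : ⋀[A]^j (Fin n → A)) :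
    xfrJ j (y : ExteriorAlgebra A (Fin n → A)) = y := by
  rw [xfrJ_eq, DirectSum.decompose_coe, DirectSum.of_eq_same]

private theorem xfrJ_mem (v : Fin n → A) :
    ExteriorAlgebra.ι A v ∈ ⋀[A]^1 (Fin n → A) := by
  change _ ∈ (LinearMap.range (ExteriorAlgebra.ι A (M := Fin n → A))) ^ 1
  rw [pow_one]
  exact ⟨v, rfl⟩

private theorem xfrJ_zero (v : Fin n → A) (x : ExteriorAlgebra A (Fin n → A)) :
    xfrJ 0 (ExteriorAlgebra.ι A v * x) = 0 := by
  apply Subtype.ext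
  rw [xfrJ_eq]
  exact DirectSum.coe_decompose_mul_of_left_mem_of_not_le _ (xfrJ_mem v) (by norm_num)

private theorem xfrJ_succ (j : ℕ) (v : Fin n → A) (x : ExteriorAlgebra A (Fin n → A)) :
    xfrJ (j + 1) (ExteriorAlgebra.ι A v * x) = wedge v j (xfrJ j x) := by
  apply Subtype.ext
  rw [xfrJ_eq]
  have h1 := DirectSum.coe_decompose_mul_of_left_mem_of_le (n := j + 1)
    (fun i => ⋀[A]^i (Fin n → A)) (b := x) (xfrJ_mem v) (by omega)
  rw [h1]
  rfl

private theorem xfr_smul_top_le {X Y : Type*} [AddCommGroup X] [Module A X] [AddCommGroup Y]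
    [Module A Y] (𝔞 : Ideal A) (f : X →ₗ[A] Y) :
    𝔞 • (⊤ : Submodule A X) ≤ (𝔞 • (⊤ : Submodule A Y)).comap f := by
  rw [Submodule.smul_le]
  intro r hr x _
  rw [Submodule.mem_comap, map_smul]
  exact Submodule.smul_mem_smul hr Submodule.mem_top

theorem XFR_ker (𝔞 : Ideal A) (j : ℕ) (y : ⋀[A]^j (Fin n → A))
    (hy : qm φ c (y : ExteriorAlgebra A (Fin n → A)) ∈
      𝔞 • (⊤ : Submodule A (ExteriorAlgebra A (OmM φ c)))) :
    y ∈ Pl φ 𝔞 c j := by
  -- the class of `y` modulo `xfrR`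
  have h1 : (Submodule.Quotient.mk (y : ExteriorAlgebra A (Fin n → A)) :
      ExteriorAlgebra A (Fin n → A) ⧸ xfrR φ c) ∈
      𝔞 • (⊤ : Submodule A (ExteriorAlgebra A (Fin n → A) ⧸ xfrR φ c)) := by
    have h2 : (Submodule.Quotient.mk (y : ExteriorAlgebra A (Fin n → A)) :
        ExteriorAlgebra A (Fin n → A) ⧸ xfrR φ c) =
        ((LinearMap.applyₗ (Submodule.Quotient.mk 1)) ∘ₗ (xfrP φ c).toLinearMap)
          (qm φ c (y : ExteriorAlgebra A (Fin n → A))) := by
      change _ = xfrP φ c (qm φ c (y : ExteriorAlgebra A (Fin n → A))) (Submodule.Quotient.mk 1)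
      rw [xfrP_qm, mul_one]
    rw [h2]
    exact xfr_smul_top_le 𝔞 _ hy
  have h3 : (y : ExteriorAlgebra A (Fin n → A)) ∈
      𝔞 • (⊤ : Submodule A (ExteriorAlgebra A (Fin n → A))) ⊔ xfrR φ c := by
    have h4 : 𝔞 • (⊤ : Submodule A (ExteriorAlgebra A (Fin n → A) ⧸ xfrR φ c)) =
        (𝔞 • (⊤ : Submodule A (ExteriorAlgebra A (Fin n → A)))).map (xfrR φ c).mkQ := by
      rw [Submodule.map_smul'', Submodule.map_top, Submodule.range_mkQ]
    rw [h4] at h1
    obtain ⟨z, hz, hzy⟩ := h1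
    have h5 : (y : ExteriorAlgebra A (Fin n → A)) - z ∈ xfrR φ c := by
      rw [← Submodule.Quotient.mk_eq_zero, Submodule.Quotient.mk_sub, sub_eq_zero]
      exact hzy.symm
    have h6 : (y : ExteriorAlgebra A (Fin n → A)) = z + (y - z) := by abel
    rw [h6]
    exact Submodule.add_mem_sup hz h5
  have h7 : 𝔞 • (⊤ : Submodule A (ExteriorAlgebra A (Fin n → A))) ⊔ xfrR φ c ≤
      (Pl φ 𝔞 c j).comap (xfrJ j) := by
    refine sup_le ?_ ?_
    · refine (xfr_smul_top_le 𝔞 (xfrJ j)).trans (Submodule.comap_mono ?_)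
      rw [← Pl_zero φ 𝔞 j]
      exact Pl_mono φ 𝔞 (Nat.zero_le c) j
    · unfold xfrR
      refine iSup_le ?_
      rintro ⟨l, hl⟩ _ ⟨x, rfl⟩
      change xfrJ j (ExteriorAlgebra.ι A (φ l) * x) ∈ Pl φ 𝔞 c j
      cases j with
      | zero =>
        rw [xfrJ_zero]
        exact Submodule.zero_mem _
      | succ j =>
        rw [xfrJ_succ]
        exact range_le_Pl φ 𝔞 hl j ⟨_, rfl⟩
  have h8 := h7 h3
  rw [Submodule.mem_comap, xfrJ_self] at h8
  exact h8

theorem XFR_im (𝔞 : Ideal A) (j : ℕ) (y : ⋀[A]^j (Fin n → A)) (hy : y ∈ Pl φ 𝔞 c j) :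
    qm φ c (y : ExteriorAlgebra A (Fin n → A)) ∈
      𝔞 • (⊤ : Submodule A (ExteriorAlgebra A (OmM φ c))) := by
  have h0 : 𝔞 • (⊤ : Submodule A (⋀[A]^j (Fin n → A))) ≤
      (𝔞 • (⊤ : Submodule A (ExteriorAlgebra A (OmM φ c)))).comap
        ((qm φ c).toLinearMap ∘ₗ Submodule.subtype _) := xfr_smul_top_le 𝔞 _
  cases j with
  | zero => exact h0 hy
  | succ j =>
    have h1 : Pl φ 𝔞 c (j + 1) ≤
        (𝔞 • (⊤ : Submodule A (ExteriorAlgebra A (OmM φ c)))).comap
          ((qm φ c).toLinearMap ∘ₗ Submodule.subtype _) := by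
      refine sup_le h0 (iSup_le ?_)
      rintro ⟨l, hl⟩ _ ⟨x, rfl⟩
      change qm φ c (ExteriorAlgebra.ι A (φ l) * (x : ExteriorAlgebra A (Fin n → A))) ∈
        𝔞 • (⊤ : Submodule A (ExteriorAlgebra A (OmM φ c)))
      have h2 : qm φ c (ExteriorAlgebra.ι A (φ l)) = 0 := by
        have h3 : qm φ c (ExteriorAlgebra.ι A (φ l)) =
            ExteriorAlgebra.ι A (Submodule.mkQ (Submodule.span A (φ '' {l | l < c})) (φ l)) :=
          ExteriorAlgebra.map_apply_ι _ (φ l)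
        have h4 : Submodule.mkQ (Submodule.span A (φ '' {l | l < c})) (φ l) = 0 := by
          rw [Submodule.mkQ_apply, Submodule.Quotient.mk_eq_zero]
          exact Submodule.subset_span ⟨l, hl, rfl⟩
        rw [h3, h4, map_zero]
      rw [map_mul, h2, zero_mul]
      exact Submodule.zero_mem _
    exact h1 hy

theorem XFR_surj (j : ℕ) (w : ExteriorAlgebra A (OmM φ c)) (hw : w ∈ ⋀[A]^j (OmM φ c)) :
    ∃ y : ⋀[A]^j (Fin n → A), qm φ c (y : ExteriorAlgebra A (Fin n → A)) = w := by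
  have h1 : ((LinearMap.range (ExteriorAlgebra.ι A (M := Fin n → A))) ^ j).map
      (qm φ c).toLinearMap = (LinearMap.range (ExteriorAlgebra.ι A (M := OmM φ c))) ^ j := by
    rw [Submodule.map_pow]
    congr 1
    apply le_antisymm
    · rintro _ ⟨_, ⟨v, rfl⟩, rfl⟩
      refine ⟨Submodule.Quotient.mk v, ?_⟩
      exact (ExteriorAlgebra.map_apply_ι (Submodule.mkQ (Submodule.span A (φ '' {l | l < c}))) v).symm
    · rintro _ ⟨m, rfl⟩
      obtain ⟨v, rfl⟩ := Submodule.Quotient.mk_surjective _ m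
      exact ⟨_, ⟨v, rfl⟩,
        ExteriorAlgebra.map_apply_ι (Submodule.mkQ (Submodule.span A (φ '' {l | l < c}))) v⟩
  have h2 : w ∈ (LinearMap.range (ExteriorAlgebra.ι A (M := OmM φ c))) ^ j := hw
  rw [← h1] at h2
  obtain ⟨y, hy, he⟩ := h2
  exact ⟨⟨y, hy⟩, he⟩

end

end NCG
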