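import Pool.Agent.NCG.MLL
import Pool.Agent.NCG.XFR

/-!
# KAE: the universal derivation of a complete intersection

`Chart X D 𝔪`: `D : Q → Q^n` is a derivation with `D X_j = e_j` and the chain rule holds for derivations of
`Q` into modules killed by a power of `𝔪`.
Let `A = Q ⧸ (f)`, `f : Fin c → Q`, and `φ l = (class of D (f l) j)_j ∈ A^n` for `l < c`.

`KAE`: there is a derivation `dv : A → OmM φ c` with `UnivDer k A (OmM φ c) dv (𝔪 A)`.
Proof.  Let `π : Q → A`.  `x ↦ class of (π (D x j))_j` is a derivation `Q → OmM φ c`; it vanishes on the ideal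
`(f)`: `D (∑ g_l f_l) = ∑ g_l D f_l + ∑ f_l D g_l`, the first sum becomes `∑ π(g_l) φ l = 0`, the second `0`.
So it factors through `dv : A → OmM φ c` (additive, `k`-linear, Leibniz).
`span`: `dv (π X_j)` is the class of `e_j`, and these generate.
`lift`: let `δ : A → V`, `V` killed by `(𝔪 A)^N`.  `V` is a `Q`-module through `π` (use
`Module.compHom` or `Module.restrictScalars`), killed by `𝔪^N`, and `δ ∘ π` is a derivation of `Q`, so
`δ (π x) = ∑_j π (D x j) • δ (π X_j)`.  The linear map `A^n → V`, `e_j ↦ δ (π X_j)` sends `φ l` to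
`∑_j π (D (f l) j) • δ (π X_j) = δ (π (f l)) = 0`, so it induces `L : OmM φ c → V` with
`L (dv (π x)) = ∑_j π (D x j) • δ (π X_j) = δ (π x)`.
-/

open scoped BigOperators

namespace NCG

universe u

/-- coordinates `X` with partial derivatives `D` -/
structure Chart {k Q : Type u} [Field k] [CommRing Q] [Algebra k Q] {n : ℕ} (X : Fin n → Q)
    (D : Derivation k Q (Fin n → Q)) (𝔪 : Ideal Q) : Prop where
  DX : ∀ j, D (X j) = Pi.single j 1
  chain : ∀ (V : Type u) [AddCommGroup V] [Module k V] [Module Q V] [IsScalarTower k Q V],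
    (∃ N, ∀ a ∈ 𝔪 ^ N, ∀ v : V, a • v = 0) →
    ∀ (δ : Derivation k Q V) (x : Q), δ x = ∑ j, D x j • δ (X j)

private theorem KAE_exists {k Q : Type u} [Field k] [CommRing Q] [Algebra k Q] {n c : ℕ}
    (D : Derivation k Q (Fin n → Q)) (I : Ideal Q) (f : Fin c → Q)
    (hI : I = Ideal.span (Set.range f)) (φ : ℕ → Fin n → Q ⧸ I)
    (hφ : ∀ (l : Fin c) j, φ l j = Ideal.Quotient.mk I (D (f l) j)) :
    ∃ dv : Derivation k (Q ⧸ I) (OmM φ c), ∀ x : Q,
      dv (Ideal.Quotient.mk I x) =
        Submodule.Quotient.mk (fun j => Ideal.Quotient.mk I (D x j)) := by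
  classical
  let q := (Submodule.span (Q ⧸ I) (φ '' {l | l < c})).mkQ
  let Δ : Q → OmM φ c := fun x => Submodule.Quotient.mk (fun j => Ideal.Quotient.mk I (D x j))
  have hΔadd : ∀ x y, Δ (x + y) = Δ x + Δ y := by
    intro x y
    simp only [Δ]
    rw [← Submodule.Quotient.mk_add]
    congr 1
    funext j
    simp
  have hΔmul : ∀ x y, Δ (x * y) = Ideal.Quotient.mk I x • Δ y + Ideal.Quotient.mk I y • Δ x := by
    intro x y
    simp only [Δ]
    rw [← Submodule.Quotient.mk_smul, ← Submodule.Quotient.mk_smul, ← Submodule.Quotient.mk_add]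
    congr 1
    funext j
    simp
  have hΔsmul : ∀ (a : k) x, Δ (a • x) = a • Δ x := by
    intro a x
    simp only [Δ]
    rw [← Submodule.Quotient.mk_smul]
    congr 1
    funext j
    simp only [Derivation.map_smul, Pi.smul_apply]
    rfl
  have hΔ0 : ∀ x ∈ I, Δ x = 0 := by
    intro x hx
    rw [hI] at hx
    induction hx using Submodule.span_induction with
    | mem x hx =>
      obtain ⟨l, rfl⟩ := hx
      simp only [Δ]
      rw [Submodule.Quotient.mk_eq_zero]
      have : (fun j => Ideal.Quotient.mk I (D (f l) j)) = φ l := by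
        funext j
        rw [hφ]
      rw [this]
      exact Submodule.subset_span ⟨l, l.2, rfl⟩
    | zero =>
      have := hΔsmul 0 0
      simpa using this
    | add x y _ _ h1 h2 => rw [hΔadd, h1, h2, add_zero]
    | smul a x hx h =>
      have hx' : Ideal.Quotient.mk I x = 0 := by
        rw [Ideal.Quotient.eq_zero_iff_mem, hI]
        exact hx
      rw [smul_eq_mul, hΔmul, h, hx', smul_zero, zero_smul, add_zero]
  have hΔcongr : ∀ x y, Ideal.Quotient.mk I x = Ideal.Quotient.mk I y → Δ x = Δ y := by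
    intro x y hxy
    have h1 : x - y ∈ I := (Ideal.Quotient.eq).1 hxy
    have h2 := hΔadd (x - y) y
    rw [sub_add_cancel, hΔ0 _ h1, zero_add] at h2
    exact h2
  have hsurj := Ideal.Quotient.mk_surjective (I := I)
  let sI := Function.surjInv hsurj
  have hs : ∀ a, Ideal.Quotient.mk I (sI a) = a := Function.surjInv_eq hsurj
  let L : (Q ⧸ I) →ₗ[k] OmM φ c :=
    { toFun := fun a => Δ (sI a)
      map_add' := by
        intro a b
        rw [← hΔadd]
        apply hΔcongr
        rw [hs, map_add, hs, hs]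
      map_smul' := by
        intro t a
        rw [RingHom.id_apply, ← hΔsmul]
        apply hΔcongr
        rw [hs]
        have : Ideal.Quotient.mk I (t • sI a) = t • Ideal.Quotient.mk I (sI a) := rfl
        rw [this, hs] }
  have hL : ∀ x, L (Ideal.Quotient.mk I x) = Δ x := fun x => hΔcongr _ _ (hs _)
  refine ⟨Derivation.mk' L ?_, ?_⟩
  · intro a b
    obtain ⟨x, rfl⟩ := hsurj a
    obtain ⟨y, rfl⟩ := hsurj b
    rw [← map_mul, hL, hL, hL, hΔmul]
  · intro x
    exact hL x

theorem KAE {k Q : Type u} [Field k] [CommRing Q] [Algebra k Q] {n c : ℕ} {X : Fin n → Q}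
    {D : Derivation k Q (Fin n → Q)} {𝔪 : Ideal Q} (hC : Chart X D 𝔪) (f : Fin c → Q)
    (φ : ℕ → Fin n → Q ⧸ Ideal.span (Set.range f))
    (hφ : ∀ (l : Fin c) j, φ l j = Ideal.Quotient.mk (Ideal.span (Set.range f)) (D (f l) j)) :
    ∃ dv : Derivation k (Q ⧸ Ideal.span (Set.range f)) (OmM φ c),
      UnivDer k (Q ⧸ Ideal.span (Set.range f)) (OmM φ c) dv
        (𝔪.map (Ideal.Quotient.mk (Ideal.span (Set.range f)))) := by
  classical
  obtain ⟨dv, hdv⟩ := KAE_exists D (Ideal.span (Set.range f)) f rfl φ hφ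
  refine ⟨dv, ?_, ?_⟩
  · rw [eq_top_iff]
    rintro y -
    obtain ⟨w, rfl⟩ := Submodule.Quotient.mk_surjective _ y
    have h1 : w = ∑ j, w j • Pi.single j (1 : Q ⧸ Ideal.span (Set.range f)) := by
      funext t
      simp [Finset.sum_apply, Pi.single_apply]
    rw [h1, ← Submodule.mkQ_apply, map_sum]
    refine Submodule.sum_mem _ fun j _ => ?_
    rw [map_smul]
    refine Submodule.smul_mem _ _ (Submodule.subset_span ⟨Ideal.Quotient.mk _ (X j), ?_⟩)
    rw [hdv, hC.DX, Submodule.mkQ_apply]
    congr 1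
    funext t
    by_cases h : t = j
    · subst h; simp
    · simp [Pi.single_apply, h]
  · intro V _ _ _ _ hV δ
    letI : Module Q V := Module.compHom V (Ideal.Quotient.mk (Ideal.span (Set.range f)))
    have hsm : ∀ (x : Q) (v : V), x • v = (Ideal.Quotient.mk (Ideal.span (Set.range f)) x) • v :=
      fun x v => rfl
    haveI : IsScalarTower k Q V := by
      constructor
      intro a x v
      rw [hsm, hsm]
      have : Ideal.Quotient.mk (Ideal.span (Set.range f)) (a • x) =
        a • Ideal.Quotient.mk (Ideal.span (Set.range f)) x := rfl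
      rw [this, smul_assoc]
    let δ' : Derivation k Q V := Derivation.mk'
      (δ.toLinearMap.comp (Ideal.Quotient.mkₐ k (Ideal.span (Set.range f))).toLinearMap) (by
        intro a b
        simp only [LinearMap.comp_apply]
        change δ (Ideal.Quotient.mk (Ideal.span (Set.range f)) (a * b)) = _
        rw [map_mul, Derivation.leibniz]
        rfl)
    have hδ' : ∀ x, δ' x = δ (Ideal.Quotient.mk (Ideal.span (Set.range f)) x) := fun x => rfl
    have hch := hC.chain V (by
      obtain ⟨N, hN⟩ := hV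
      refine ⟨N, fun a ha v => ?_⟩
      rw [hsm]
      apply hN
      rw [← Ideal.map_pow]
      exact Ideal.mem_map_of_mem _ ha) δ'
    let L0 : (Fin n → (Q ⧸ Ideal.span (Set.range f))) →ₗ[Q ⧸ Ideal.span (Set.range f)] V :=
      Fintype.linearCombination _ (fun j => δ (Ideal.Quotient.mk _ (X j)))
    have hL0 : ∀ w, L0 w = ∑ j, w j • δ (Ideal.Quotient.mk _ (X j)) := fun w => rfl
    have hker : Submodule.span (Q ⧸ Ideal.span (Set.range f)) (φ '' {l | l < c}) ≤
        LinearMap.ker L0 := by
      rw [Submodule.span_le]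
      rintro _ ⟨l, hl, rfl⟩
      rw [SetLike.mem_coe, LinearMap.mem_ker, hL0]
      have h2 := hch (f ⟨l, hl⟩)
      rw [hδ'] at h2
      have h3 : Ideal.Quotient.mk (Ideal.span (Set.range f)) (f ⟨l, hl⟩) = 0 :=
        Ideal.Quotient.eq_zero_iff_mem.2 (Ideal.subset_span ⟨_, rfl⟩)
      rw [h3, map_zero] at h2
      rw [h2]
      refine Finset.sum_congr rfl fun j _ => ?_
      rw [hsm, hδ']
      exact congrArg (· • _) (hφ ⟨l, hl⟩ j)
    refine ⟨Submodule.liftQ _ L0 hker, ?_⟩
    intro a
    obtain ⟨x, rfl⟩ := Ideal.Quotient.mk_surjective a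
    rw [hdv, Submodule.liftQ_apply, hL0, ← hδ', hch x]
    rfl

end NCG
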