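import Mathlib

/-!
# LOC: partial derivatives on a localized polynomial ring, depth, residue field

`Q` is any localization of `k[X_0, ..., X_{n-1}]` at a prime (maximal) ideal `P` (`IsLocalization.AtPrime Q P`),
`k` a field.

`LOC_exists`: the derivation `D : Q → Q^n` with `D X_j = e_j` and the chain rule
`δ x = ∑_j (D x)_j δ(X_j)` for all derivations of `Q`.
Proof.  `KaehlerDifferential.mvPolynomialBasis` and
`KaehlerDifferential.tensorKaehlerEquivOfFormallyEtale` (localizations are formally étale) or
`KaehlerDifferential.isLocalizedModule_map` give a basis of `Ω[Q⁄k]` consisting of the `D X_j`, so an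
isomorphism `Ω[Q⁄k] ≃ (Fin n → Q)`; compose with `KaehlerDifferential.D`.  The chain rule: apply the
linear map `δ.liftKaehlerDifferential` to `D_Kähler x = ∑_j (D x)_j • D_Kähler X_j`.
Alternatively extend `MvPolynomial.mkDerivation` to fractions by hand.  For the chain rule by hand:
both sides are derivations of `Q` which agree on the `X_j`, and a derivation of a localization of
`k[X]` which vanishes on the `X_j` is zero (`MvPolynomial.derivation_ext`, and `δ (x/s)` is
determined by `s δ(x/s) + (x/s) δ s = δ x` with `s` a unit).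

`LOC_depth` (`P` maximal): `Q` has a regular sequence of length `n` in its maximal ideal and `dim Q = n`.
Proof.  The residue field `k[X]/P` is finite over `k` (Zariski's lemma,
`finite_of_finite_type_of_isJacobsonRing`).  Let `h_j ∈ k[T]` be the minimal polynomial over `k` of the class of
`X_j`; so `g_j = h_j(X_j) = Polynomial.aeval (X j) h_j ∈ P`.
Claim: for every commutative ring `R'` and monic polynomials `h_j ∈ R'[T]`, the sequence `h_j(X_j)` is weakly
regular on `MvPolynomial (Fin n) R'`.  Induction on `n` with `MvPolynomial.finSuccEquiv`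
(`MvPolynomial (Fin (n+1)) R' ≃ (MvPolynomial (Fin n) R')[X]`, `X_0 ↦ X`, `X_{j+1} ↦ C X_j`): with
`B = MvPolynomial (Fin n) R'` the element `h_0(X)` is monic in `B[X]`, so regular, and
`B[X]/(h_0(X)) = AdjoinRoot` is a finite free `B`-module (`AdjoinRoot.powerBasis'`), so the sequence
`h_{j+1}(X_j) ∈ B`, weakly regular on `B` by induction, is weakly regular on it
(`IsWeaklyRegular` for a free (flat) module:
`RingTheory.Sequence.IsWeaklyRegular.isWeaklyRegular_lTensor`, or for `Fin m → B`).
Localize (`IsLocalization` is flat) and note `g_j ∈ P`: a regular sequence of `Q` of length `n` in the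
maximal ideal (`IsLocalRing.isRegular_iff_isWeaklyRegular_of_subset_maximalIdeal`).
`k[X]/(g_0, ..., g_{n-1})` is a finite `k`-algebra (each `X_j` is integral over `k` modulo `g_j`), so
Artinian, hence so is `Q/(g)`, which has dimension `0`, and
`dim Q = n` by `ringKrullDim_add_length_eq_ringKrullDim_of_isRegular`.

`LOC_res`: the residue field of `Q` is `k[X]/P` (for `P` maximal), finite over `k`.
-/

open scoped BigOperators

namespace NCG

universe u

open IsLocalRing RingTheory.Sequence

variable {k : Type u} [Field k] {n : ℕ}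

private theorem LOC_basis (P : Ideal (MvPolynomial (Fin n) k)) [P.IsPrime] (Q : Type u) [CommRing Q]
    [Algebra (MvPolynomial (Fin n) k) Q] [IsLocalization.AtPrime Q P] [Algebra k Q]
    [IsScalarTower k (MvPolynomial (Fin n) k) Q] :
    ∃ b : Module.Basis (Fin n) Q (Ω[Q⁄k]), ∀ j, b j =
      KaehlerDifferential.D k Q (algebraMap (MvPolynomial (Fin n) k) Q (MvPolynomial.X j)) := by
  refine ⟨(KaehlerDifferential.mvPolynomialBasis k (Fin n)).ofIsLocalizedModule Q P.primeCompl
    (KaehlerDifferential.map k k (MvPolynomial (Fin n) k) Q), fun j => ?_⟩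
  rw [Module.Basis.ofIsLocalizedModule_apply, KaehlerDifferential.mvPolynomialBasis_apply,
    KaehlerDifferential.map_D]

theorem LOC_exists (P : Ideal (MvPolynomial (Fin n) k)) [P.IsPrime] (Q : Type u) [CommRing Q]
    [Algebra (MvPolynomial (Fin n) k) Q] [IsLocalization.AtPrime Q P] [Algebra k Q]
    [IsScalarTower k (MvPolynomial (Fin n) k) Q] :
    ∃ D : Derivation k Q (Fin n → Q),
      (∀ j, D (algebraMap (MvPolynomial (Fin n) k) Q (MvPolynomial.X j)) = Pi.single j 1) ∧
      ∀ (V : Type u) [AddCommGroup V] [Module k V] [Module Q V]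
        [IsScalarTower k Q V]
        (δ : Derivation k Q V) (x : Q),
        δ x = ∑ j, D x j •
          δ (algebraMap (MvPolynomial (Fin n) k) Q (MvPolynomial.X j)) := by
  obtain ⟨b, hb⟩ := LOC_basis P Q
  refine ⟨b.equivFun.toLinearMap.compDer (KaehlerDifferential.D k Q), ?_, ?_⟩
  · intro j
    show b.equivFun (KaehlerDifferential.D k Q _) = _
    funext l
    rw [← hb j, Module.Basis.equivFun_self, Pi.single_apply]
    by_cases hjl : j = l
    · rw [if_pos hjl, if_pos hjl.symm]
    · rw [if_neg hjl, if_neg (Ne.symm hjl)]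
  · intro V _ _ _ _ δ x
    have h1 : δ x = δ.liftKaehlerDifferential (KaehlerDifferential.D k Q x) := by
      rw [Derivation.liftKaehlerDifferential_comp_D]
    have h2 := b.sum_equivFun (KaehlerDifferential.D k Q x)
    rw [h1, ← h2, map_sum]
    refine Finset.sum_congr rfl fun j _ => ?_
    rw [map_smul, hb j, Derivation.liftKaehlerDifferential_comp_D]
    rfl

open scoped Pointwise in
private theorem LOC_monic {R' : Type u} [CommRing R'] : ∀ (n : ℕ) (h : Fin n → Polynomial R'),
    (∀ j, (h j).Monic) →
    IsWeaklyRegular (MvPolynomial (Fin n) R')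
      (List.ofFn fun j => Polynomial.aeval (MvPolynomial.X j : MvPolynomial (Fin n) R') (h j)) := by
  intro n
  induction n with
  | zero =>
    intro h _
    rw [List.ofFn_zero]
    exact IsWeaklyRegular.nil _ _
  | succ n ih =>
    intro h hm
    set B := MvPolynomial (Fin n) R' with hB
    let e := MvPolynomial.finSuccEquiv R' n
    have ih' := ih (fun j => h j.succ) (fun j => hm j.succ)
    set L : List B := List.ofFn fun j => Polynomial.aeval (MvPolynomial.X j : B) (h j.succ) with hL
    set H0 : Polynomial B := (h 0).map (algebraMap R' B) with hH0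
    have hH0m : H0.Monic := (hm 0).map _
    have e0 : e (Polynomial.aeval (MvPolynomial.X 0) (h 0)) = H0 := by
      rw [← Polynomial.aeval_algHom_apply e (MvPolynomial.X 0) (h 0)]
      show Polynomial.aeval (MvPolynomial.finSuccEquiv R' n (MvPolynomial.X 0)) (h 0) = H0
      rw [MvPolynomial.finSuccEquiv_X_zero, Polynomial.aeval_def, hH0, Polynomial.map]
      rfl
    have e1 : ∀ j : Fin n, e (Polynomial.aeval (MvPolynomial.X j.succ) (h j.succ)) =
        Polynomial.C (Polynomial.aeval (MvPolynomial.X j : B) (h j.succ)) := by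
      intro j
      rw [← Polynomial.aeval_algHom_apply e (MvPolynomial.X j.succ) (h j.succ)]
      show Polynomial.aeval (MvPolynomial.finSuccEquiv R' n (MvPolynomial.X j.succ)) (h j.succ) = _
      rw [MvPolynomial.finSuccEquiv_X_succ]
      exact Polynomial.aeval_algHom_apply (Polynomial.CAlgHom (R := R') (A := B))
        (MvPolynomial.X j) (h j.succ)
    have key : IsWeaklyRegular (Polynomial B) (H0 :: L.map (algebraMap B (Polynomial B))) := by
      rw [isWeaklyRegular_cons_iff]
      refine ⟨?_, ?_⟩
      · intro a b hab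
        exact hH0m.isRegular.left hab
      · rw [isWeaklyRegular_map_algebraMap_iff]
        have hfree : Module.Free B (Polynomial B ⧸ Ideal.span {H0}) := hH0m.free_quotient
        have heq : (H0 • (⊤ : Submodule (Polynomial B) (Polynomial B))) = Ideal.span {H0} := by
          rw [← Submodule.ideal_span_singleton_smul, smul_eq_mul, Ideal.mul_top]
        have hq : Module.Free B (QuotSMulTop H0 (Polynomial B)) :=
          Module.Free.of_equiv
            (((Submodule.quotEquivOfEq _ _ heq).restrictScalars B).symm)
        have h1 := IsWeaklyRegular.isWeaklyRegular_lTensor (R := B) (M := B)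
          (M₂ := QuotSMulTop H0 (Polynomial B)) ih'
        exact ((TensorProduct.rid B (QuotSMulTop H0 (Polynomial B))).isWeaklyRegular_congr L).1 h1
    have h2 : (List.ofFn fun j : Fin (n + 1) =>
        Polynomial.aeval (MvPolynomial.X j : MvPolynomial (Fin (n + 1)) R') (h j)).map e =
        H0 :: L.map (algebraMap B (Polynomial B)) := by
      rw [List.ofFn_succ, List.map_cons, e0, List.map_ofFn, hL, List.map_ofFn]
      congr 1
      congr 1
      funext j
      exact e1 j
    refine (AddEquiv.isWeaklyRegular_congr (e := e.toAddEquiv) (as := List.ofFn fun j : Fin (n + 1) =>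
        Polynomial.aeval (MvPolynomial.X j : MvPolynomial (Fin (n + 1)) R') (h j))
        (bs := H0 :: L.map (algebraMap B (Polynomial B))) ?_).2 key
    rw [← h2]
    refine List.forall₂_map_right_iff.mpr (List.forall₂_same.mpr fun r _ x => ?_)
    exact map_mul e r x

theorem LOC_depth (P : Ideal (MvPolynomial (Fin n) k)) [P.IsMaximal] (Q : Type u) [CommRing Q]
    [Algebra (MvPolynomial (Fin n) k) Q] [IsLocalization.AtPrime Q P] [IsLocalRing Q]
    [Algebra k Q] [IsScalarTower k (MvPolynomial (Fin n) k) Q] :
    ringKrullDim Q = n ∧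
    ∃ rs : List Q, rs.length = n ∧
      (∀ r ∈ rs, r ∈ maximalIdeal Q) ∧
      IsRegular Q rs := by
  let _ : Field (MvPolynomial (Fin n) k ⧸ P) := Ideal.Quotient.field P
  have hfin : Module.Finite k (MvPolynomial (Fin n) k ⧸ P) :=
    finite_of_finite_type_of_isJacobsonRing k (MvPolynomial (Fin n) k ⧸ P)
  have hint : ∀ j : Fin n, IsIntegral k (Ideal.Quotient.mk P (MvPolynomial.X j)) :=
    fun j => IsIntegral.of_finite k _
  let h : Fin n → Polynomial k := fun j => minpoly k (Ideal.Quotient.mk P (MvPolynomial.X j))
  have hm : ∀ j, (h j).Monic := fun j => minpoly.monic (hint j)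
  have hreg := LOC_monic n h hm
  set rs0 : List (MvPolynomial (Fin n) k) :=
    List.ofFn fun j => Polynomial.aeval (MvPolynomial.X j : MvPolynomial (Fin n) k) (h j) with hrs0
  have hmem : ∀ r ∈ rs0, r ∈ P := by
    intro r hr
    rw [hrs0, List.mem_ofFn] at hr
    obtain ⟨j, rfl⟩ := hr
    rw [← Ideal.Quotient.eq_zero_iff_mem]
    have h1 := Polynomial.aeval_algHom_apply (Ideal.Quotient.mkₐ k P) (MvPolynomial.X j) (h j)
    have h2 : Polynomial.aeval (Ideal.Quotient.mkₐ k P (MvPolynomial.X j)) (h j) = 0 :=
      minpoly.aeval k _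
    rw [h2] at h1
    exact h1.symm
  have hregQ := IsWeaklyRegular.isRegular_of_isLocalization_of_mem Q P hreg hmem
  have hlen : (rs0.map (algebraMap (MvPolynomial (Fin n) k) Q)).length = n := by
    rw [List.length_map, hrs0, List.length_ofFn]
  have hnoeth : IsNoetherianRing Q := IsLocalization.isNoetherianRing P.primeCompl Q inferInstance
  refine ⟨?_, _, hlen, ?_, hregQ⟩
  · apply le_antisymm
    · rw [IsLocalization.AtPrime.ringKrullDim_eq_height P Q]
      refine le_trans (Ideal.height_le_ringKrullDim_of_ne_top Ideal.IsPrime.ne_top') ?_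
      rw [MvPolynomial.ringKrullDim_of_isNoetherianRing, ringKrullDim_eq_zero_of_field, zero_add,
        Nat.card_fin]
    · have h1 := ringKrullDim_add_length_eq_ringKrullDim_of_isRegular _ hregQ
      rw [hlen] at h1
      rw [← h1]
      have hnt : Nontrivial (Q ⧸ Ideal.ofList (rs0.map (algebraMap (MvPolynomial (Fin n) k) Q))) := by
        rw [Ideal.Quotient.nontrivial_iff]
        intro h2
        apply hregQ.top_ne_smul
        rw [h2, smul_eq_mul, Ideal.mul_top]
      have h2 : 0 ≤ ringKrullDim (Q ⧸ Ideal.ofList (rs0.map (algebraMap (MvPolynomial (Fin n) k) Q))) :=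
        ringKrullDim_nonneg_of_nontrivial
      exact le_add_of_nonneg_left h2
  · intro r hr
    rw [List.mem_map] at hr
    obtain ⟨r', hr', rfl⟩ := hr
    exact (IsLocalization.AtPrime.to_map_mem_maximal_iff Q P r').2 (hmem r' hr')

theorem LOC_res (P : Ideal (MvPolynomial (Fin n) k)) [P.IsMaximal] (Q : Type u) [CommRing Q]
    [Algebra (MvPolynomial (Fin n) k) Q] [IsLocalization.AtPrime Q P] [IsLocalRing Q]
    [Algebra k Q] [IsScalarTower k (MvPolynomial (Fin n) k) Q] :
    Module.Finite k (ResidueField Q) := by
  let _ : Field (MvPolynomial (Fin n) k ⧸ P) := Ideal.Quotient.field P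
  have hfin : Module.Finite k (MvPolynomial (Fin n) k ⧸ P) :=
    finite_of_finite_type_of_isJacobsonRing k (MvPolynomial (Fin n) k ⧸ P)
  let e := IsLocalization.AtPrime.equivQuotMaximalIdeal P Q
  let f : (MvPolynomial (Fin n) k ⧸ P) →ₗ[k] ResidueField Q :=
    { toFun := e
      map_add' := map_add e
      map_smul' := by
        intro c x
        obtain ⟨y, rfl⟩ := Ideal.Quotient.mk_surjective x
        rw [RingHom.id_apply, Algebra.smul_def, map_mul, Algebra.smul_def]
        congr 1
        have h1 : algebraMap k (MvPolynomial (Fin n) k ⧸ P) c =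
            Ideal.Quotient.mk P (algebraMap k (MvPolynomial (Fin n) k) c) := rfl
        rw [h1]
        show e (Ideal.Quotient.mk P _) = _
        rw [IsLocalization.AtPrime.equivQuotMaximalIdeal_apply_mk,
          ← IsScalarTower.algebraMap_apply k (MvPolynomial (Fin n) k) Q]
        rfl }
  exact Module.Finite.of_surjective f e.surjective

end NCG
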