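import Pool.Agent.NCG.DEV
import Pool.Agent.NCG.LOC
import Pool.Agent.NCG.JRP
import Pool.Agent.NCG.JAC
import Pool.Agent.NCG.KAE
import Pool.Agent.NCG.CIA

/-!
# FIN: isolated complete intersection singularities with coordinates
-/

open scoped BigOperators

namespace NCG

universe u

open IsLocalRing RingTheory.Sequence

/-- the main theorem for a complete intersection in a ring with coordinates whose Jacobian ideal
is primary to the maximal ideal -/
theorem FIN_core {k Q : Type u} [Field k] [CharZero k] [CommRing Q] [IsLocalRing Q]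
    [IsNoetherianRing Q] [Algebra k Q] [Module.Finite k (ResidueField Q)] {n c : ℕ}
    {X : Fin n → Q} {D : Derivation k Q (Fin n → Q)} (hC : Chart X D (maximalIdeal Q))
    (hdim : ringKrullDim Q = n)
    (hQ : ∃ rs : List Q, rs.length = n ∧ (∀ r ∈ rs, r ∈ maximalIdeal Q) ∧ IsRegular Q rs)
    (f : Fin c → Q) (hf : IsRegular Q (List.ofFn f))
    [IsLocalRing (Q ⧸ Ideal.span (Set.range f))]
    (φ : ℕ → Fin n → Q ⧸ Ideal.span (Set.range f))
    (hφ : ∀ (l : Fin c) j, φ l j = Ideal.Quotient.mk (Ideal.span (Set.range f)) (D (f l) j))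
    (hH : ∀ l < c, ∃ N, ∀ a ∈ maximalIdeal (Q ⧸ Ideal.span (Set.range f)) ^ N, a ∈ Hl φ l)
    (d : ℕ) (hd : ringKrullDim (Q ⧸ Ideal.span (Set.range f)) = d)
    (F : Cx (Q ⧸ Ideal.span (Set.range f))) (hF : F.FinLen) (i : ℕ) (hi : i ≤ d)
    (M : Type u) [AddCommGroup M] [Module k M] [Module (Q ⧸ Ideal.span (Set.range f)) M]
    [IsScalarTower k (Q ⧸ Ideal.span (Set.range f)) M]
    [Module.Finite (Q ⧸ Ideal.span (Set.range f)) M]
    (hM : Module.supportDim (Q ⧸ Ideal.span (Set.range f)) M ≤ i) :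
    PPo k F M i (i < d ∧ 2 * i ≠ d ∧ 2 * i ≠ d + 1) := by
  obtain ⟨d', hn, hd', hdepth⟩ := CIA hdim hQ f hf
  have hdd : d' = d := by
    have := hd'.symm.trans hd
    exact_mod_cast this
  subst hdd
  obtain ⟨dv, U⟩ := KAE hC f φ hφ
  rw [CIA_max] at U
  have hres : Module.Finite k (ResidueField (Q ⧸ Ideal.span (Set.range f))) := CIA_res _
  exact NMAIN n c d' hn hd' hdepth φ hH dv U F hF i hi M hM

/-- an isolated singularity has a Jacobian ideal which is primary to the maximal ideal -/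
theorem FIN_hl {k Q : Type u} [Field k] [CommRing Q] [IsLocalRing Q]
    [IsNoetherianRing Q] [Algebra k Q] {n c : ℕ} (D : Derivation k Q (Fin n → Q))
    (hJ : ∀ (q : Ideal Q) [q.IsPrime], q.height ≤
      (Module.finrank q.ResidueField (Submodule.span q.ResidueField
        {v : Fin n → q.ResidueField | ∃ x ∈ q, v = fun j => algebraMap Q q.ResidueField (D x j)}) :
        ℕ∞))
    (f : Fin c → Q) (hf : IsRegular Q (List.ofFn f))
    [IsLocalRing (Q ⧸ Ideal.span (Set.range f))]
    (hiso : ∀ (p : Ideal (Q ⧸ Ideal.span (Set.range f))) [p.IsPrime],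
      p ≠ maximalIdeal (Q ⧸ Ideal.span (Set.range f)) →
      IsRegularLocalRing (Localization.AtPrime p))
    (φ : ℕ → Fin n → Q ⧸ Ideal.span (Set.range f))
    (hφ : ∀ (l : Fin c) j, φ l j = Ideal.Quotient.mk (Ideal.span (Set.range f)) (D (f l) j)) :
    ∀ l < c, ∃ N, ∀ a ∈ maximalIdeal (Q ⧸ Ideal.span (Set.range f)) ^ N, a ∈ Hl φ l := by
  refine JAD (Matrix.of fun (l : Fin c) (j : Fin n) =>
    Ideal.Quotient.mk (Ideal.span (Set.range f)) (D (f l) j)) ?_ φ
    (fun l => funext fun j => hφ l j)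
  intro p hp hpm
  exact JAC D f hf p (hiso p hpm) (hJ _)

/-- the matrix of partial derivatives, as a function of a natural number and an index -/
noncomputable def phi {k Q : Type u} [Field k] [CommRing Q] [Algebra k Q] {n c : ℕ}
    (D : Derivation k Q (Fin n → Q)) (f : Fin c → Q) (l : ℕ) (j : Fin n) :
    Q ⧸ Ideal.span (Set.range f) :=
  if h : l < c then Ideal.Quotient.mk (Ideal.span (Set.range f)) (D (f ⟨l, h⟩) j) else 0

theorem phi_spec {k Q : Type u} [Field k] [CommRing Q] [Algebra k Q] {n c : ℕ}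
    (D : Derivation k Q (Fin n → Q)) (f : Fin c → Q) (l : Fin c) (j : Fin n) :
    phi D f l j = Ideal.Quotient.mk (Ideal.span (Set.range f)) (D (f l) j) := by
  simp [phi, l.2]

theorem FIN_chart {k Q : Type u} [Field k] [CharZero k] [CommRing Q] [IsLocalRing Q]
    [IsNoetherianRing Q] [Algebra k Q] [Module.Finite k (ResidueField Q)] {n c : ℕ}
    {X : Fin n → Q} {D : Derivation k Q (Fin n → Q)} (hC : Chart X D (maximalIdeal Q))
    (hdim : ringKrullDim Q = n)
    (hQ : ∃ rs : List Q, rs.length = n ∧ (∀ r ∈ rs, r ∈ maximalIdeal Q) ∧ IsRegular Q rs)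
    (hJ : ∀ (q : Ideal Q) [q.IsPrime], q.height ≤
      (Module.finrank q.ResidueField (Submodule.span q.ResidueField
        {v : Fin n → q.ResidueField | ∃ x ∈ q, v = fun j => algebraMap Q q.ResidueField (D x j)}) :
        ℕ∞))
    (f : Fin c → Q) (hf : IsRegular Q (List.ofFn f))
    [IsLocalRing (Q ⧸ Ideal.span (Set.range f))]
    (hiso : ∀ (p : Ideal (Q ⧸ Ideal.span (Set.range f))) [p.IsPrime],
      p ≠ maximalIdeal (Q ⧸ Ideal.span (Set.range f)) →
      IsRegularLocalRing (Localization.AtPrime p))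
    (d : ℕ) (hd : ringKrullDim (Q ⧸ Ideal.span (Set.range f)) = d)
    (F : Cx (Q ⧸ Ideal.span (Set.range f))) (hF : F.FinLen) (i : ℕ) (hi : i ≤ d)
    (M : Type u) [AddCommGroup M] [Module k M] [Module (Q ⧸ Ideal.span (Set.range f)) M]
    [IsScalarTower k (Q ⧸ Ideal.span (Set.range f)) M]
    [Module.Finite (Q ⧸ Ideal.span (Set.range f)) M]
    (hM : Module.supportDim (Q ⧸ Ideal.span (Set.range f)) M ≤ i) :
    PPo k F M i (i < d ∧ 2 * i ≠ d ∧ 2 * i ≠ d + 1) :=
  FIN_core hC hdim hQ f hf (phi D f) (phi_spec D f) (FIN_hl D hJ f hf hiso _ (phi_spec D f))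
    d hd F hF i hi M hM

theorem FIN_loc {k : Type u} [Field k] [CharZero k] {n c : ℕ}
    (P : Ideal (MvPolynomial (Fin n) k)) [P.IsMaximal]
    (Q : Type u) [CommRing Q] [Algebra (MvPolynomial (Fin n) k) Q] [IsLocalization.AtPrime Q P]
    [Algebra k Q] [IsScalarTower k (MvPolynomial (Fin n) k) Q]
    (f : Fin c → Q) (hf : IsRegular Q (List.ofFn f))
    [IsLocalRing (Q ⧸ Ideal.span (Set.range f))]
    (hiso : ∀ (p : Ideal (Q ⧸ Ideal.span (Set.range f))) [p.IsPrime],
      p ≠ maximalIdeal (Q ⧸ Ideal.span (Set.range f)) →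
      IsRegularLocalRing (Localization.AtPrime p))
    (d : ℕ) (hd : ringKrullDim (Q ⧸ Ideal.span (Set.range f)) = d)
    (F : Cx (Q ⧸ Ideal.span (Set.range f))) (hF : F.FinLen) (i : ℕ) (hi : i ≤ d)
    (M : Type u) [AddCommGroup M] [Module k M] [Module (Q ⧸ Ideal.span (Set.range f)) M]
    [IsScalarTower k (Q ⧸ Ideal.span (Set.range f)) M]
    [Module.Finite (Q ⧸ Ideal.span (Set.range f)) M]
    (hM : Module.supportDim (Q ⧸ Ideal.span (Set.range f)) M ≤ i) :
    PPo k F M i (i < d ∧ 2 * i ≠ d ∧ 2 * i ≠ d + 1) := by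
  have : IsLocalRing Q := IsLocalization.AtPrime.isLocalRing Q P
  have : IsNoetherianRing Q := IsLocalization.isNoetherianRing P.primeCompl Q inferInstance
  have : Algebra.EssFiniteType (MvPolynomial (Fin n) k) Q :=
    Algebra.EssFiniteType.of_isLocalization Q P.primeCompl
  have : Algebra.EssFiniteType k Q := Algebra.EssFiniteType.comp k (MvPolynomial (Fin n) k) Q
  obtain ⟨D, hDX, hchain⟩ := LOC_exists P Q
  have hres := LOC_res P Q
  obtain ⟨hdim, hQ⟩ := LOC_depth P Q
  have hC : Chart (fun j => algebraMap (MvPolynomial (Fin n) k) Q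
      (MvPolynomial.X j)) D (maximalIdeal Q) :=
    ⟨hDX, fun V _ _ _ _ _ δ x => hchain V δ x⟩
  have : Algebra.FormallySmooth (MvPolynomial (Fin n) k) Q :=
    Algebra.FormallySmooth.of_isLocalization P.primeCompl
  have : Algebra.FormallySmooth k Q :=
    Algebra.FormallySmooth.comp k (MvPolynomial (Fin n) k) _
  exact FIN_chart hC hdim hQ (fun q _ => JRP _ D hDX hchain q) f hf hiso d hd F hF i hi M hM

end NCG
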