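import Mathlib

/-!
# LKT: trace on the common kernel of anticommuting operators with contracting homotopies

`V` finite-dimensional over a field `k`, `B, S : Fin i → End V` with `B a B b + B b B a = 0` for all `a, b`
(in particular `2 B a ^ 2 = 0`) and `B a S b + S b B a = δ_{ab}`.  Assume `2 ≠ 0` in `k`.
Let `K = ⨅ a, ker (B a)`.

`LKD`: `dim V = 2^i dim K`.  Induction on `i` (general `V`): let `K₀ = ker (B (last))`.  As
`B² = 0` and `B S + S B = 1` for `B = B last`, `S = S last`: `ker B = range B` (if `B x = 0` then
`x = B (S x)`), so `dim V = dim ker B + dim range B = 2 dim K₀`.  The operators `B a`, `S a`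
(`a ≠ last`) anticommute with `B`, so they preserve `K₀`; the relations hold for their restrictions, and
the common kernel in `K₀` is `K`.  So `dim K₀ = 2^(i-1) dim K`.
(In Lean: restrict with `LinearMap.restrict`; the common kernel of the restrictions is
`K.comap K₀.subtype`, of the same dimension as `K ≤ K₀`.)

`LKT`: let `G` anticommute with all `B a`.  Then `G` preserves `K` and
`tr (G | K) = (-1)^i tr_V (G * (S (i-1) ⋯ S 0) * (B 0 ⋯ B (i-1)))`.
Proof.  Let `Bt = B 0 ⋯ B (i-1)` (product in this order) and `St = S (i-1) ⋯ S 0`.
(a) `range Bt ≤ K`: `B a Bt = 0` for all `a` (move `B a` to the right until it meets itself,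
`B a ^ 2 = 0`; it anticommutes with the others).
(b) `Bt St x = x` for `x ∈ K`: induction: put `x_j = S (j-1) ⋯ S 0 x`.  `B j x_j = ± S (j-1) ⋯ S 0 B j x = 0`
as `B j` anticommutes with `S b` for `b < j`; so `B j x_{j+1} = B j S j x_j = x_j - S j B j x_j = x_j`.
Hence `B 0 ⋯ B (i-1) x_i = x`.
(c) `tr_V (G St Bt) = tr_V (Bt G St) = (-1)^i tr_V (G Bt St)` (`LinearMap.trace_mul_cycle` or
`LinearMap.trace_mul_comm`; `G` anticommutes with each of the `i` factors of `Bt`), and `G Bt St` maps `V`
into `K` (`G` preserves `K`), and on `K` it is `G`; the trace of an endomorphism with range in `K` is the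
trace of its restriction to `K` (`LinearMap.trace_restrict_eq_of_forall_mem`).
`(List.ofFn B).prod = B 0 * ⋯ * B (i-1)`, `(List.ofFn S).reverse.prod = S (i-1) * ⋯ * S 0`.
-/

open scoped BigOperators

namespace NCG

section

variable {k : Type*} {V : Type*} [Field k] [AddCommGroup V] [Module k V]
  [Module.Finite k V]

private theorem anti_prod {R : Type*} [Ring R] (X : R) (i : ℕ) (B : Fin i → R)
    (h : ∀ a, X * B a = -(B a * X)) :
    X * (List.ofFn B).prod = (-1) ^ i * ((List.ofFn B).prod * X) := by
  induction i with
  | zero => simp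
  | succ n ih =>
    rw [List.ofFn_succ, List.prod_cons, ← mul_assoc, h 0, neg_mul, mul_assoc,
      ih (fun a => B a.succ) (fun a => h a.succ), pow_succ]
    have hc : Commute ((-1 : R) ^ n) (B 0) := (Commute.neg_one_left (B 0)).pow_left n
    rw [← mul_assoc (B 0), ← hc.eq]
    simp [mul_assoc]

private theorem anti_prod_rev {R : Type*} [Ring R] (X : R) (i : ℕ) (B : Fin i → R)
    (h : ∀ a, X * B a = -(B a * X)) :
    X * (List.ofFn B).reverse.prod = (-1) ^ i * ((List.ofFn B).reverse.prod * X) := by
  induction i with
  | zero => simp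
  | succ n ih =>
    rw [List.ofFn_succ, List.reverse_cons, List.prod_append, List.prod_singleton, ← mul_assoc,
      ih (fun a => B a.succ) (fun a => h a.succ), mul_assoc, mul_assoc, h 0, pow_succ]
    simp [mul_assoc]

private theorem ofFn_prod_last {R : Type*} [Ring R] (n : ℕ) (B : Fin (n + 1) → R) :
    (List.ofFn B).prod = (List.ofFn fun a : Fin n => B a.castSucc).prod * B (Fin.last n) := by
  rw [List.ofFn_succ', List.concat_eq_append, List.prod_append, List.prod_singleton]

private theorem ofFn_rev_prod_last {R : Type*} [Ring R] (n : ℕ) (B : Fin (n + 1) → R) :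
    (List.ofFn B).reverse.prod =
      B (Fin.last n) * (List.ofFn fun a : Fin n => B a.castSucc).reverse.prod := by
  rw [List.ofFn_succ', List.concat_eq_append, List.reverse_append, List.prod_append]
  simp

private theorem sq_zero (h2 : (2 : k) ≠ 0) (X : Module.End k V) (h : X * X + X * X = 0) :
    X * X = 0 := by
  have h1 : (2 : k) • (X * X) = 0 := by rw [two_smul]; exact h
  rcases smul_eq_zero.mp h1 with h0 | h0
  · exact absurd h0 h2
  · exact h0

private theorem mul_prod_zero (h2 : (2 : k) ≠ 0) (i : ℕ) (B : Fin i → Module.End k V)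
    (hB : ∀ a b, B a * B b + B b * B a = 0) (a : Fin i) :
    B a * (List.ofFn B).prod = 0 := by
  induction i with
  | zero => exact a.elim0
  | succ n ih =>
    rw [ofFn_prod_last]
    refine Fin.lastCases ?_ (fun b => ?_) a
    · rw [← mul_assoc, anti_prod (B (Fin.last n)) n (fun a => B a.castSucc)
        (fun a => eq_neg_of_add_eq_zero_left (hB _ _)), mul_assoc, mul_assoc,
        sq_zero h2 _ (hB _ _)]
      simp
    · rw [← mul_assoc, ih (fun a => B a.castSucc) (fun a b => hB _ _) b, zero_mul]

private theorem prod_prod_apply (i : ℕ) (B S : Fin i → Module.End k V)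
    (hS : ∀ a b, B a * S b + S b * B a = if a = b then 1 else 0) (x : V)
    (hx : ∀ a, B a x = 0) :
    (List.ofFn B).prod ((List.ofFn S).reverse.prod x) = x := by
  induction i with
  | zero => simp
  | succ n ih =>
    rw [ofFn_prod_last, ofFn_rev_prod_last, Module.End.mul_apply, Module.End.mul_apply]
    set y := (List.ofFn fun a : Fin n => S a.castSucc).reverse.prod x with hy
    have h0 : B (Fin.last n) y = 0 := by
      have h1 := anti_prod_rev (B (Fin.last n)) n (fun a => S a.castSucc)
        (fun a => eq_neg_of_add_eq_zero_left (by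
          rw [hS, if_neg (Fin.castSucc_lt_last a).ne']))
      have h3 := congrArg (fun f : Module.End k V => f x) h1
      simp only [Module.End.mul_apply] at h3
      rw [hy, h3, hx, map_zero, map_zero]
    have h4 := congrArg (fun f : Module.End k V => f y) (hS (Fin.last n) (Fin.last n))
    simp only [if_true, LinearMap.add_apply, Module.End.mul_apply, Module.End.one_apply,
      h0, map_zero, add_zero] at h4
    rw [h4]
    exact ih (fun a => B a.castSucc) (fun a => S a.castSucc)
      (fun a b => by rw [hS]; simp [Fin.castSucc_inj]) (fun a => hx _)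

universe u v

private theorem LKD_aux {k : Type u} [Field k] (h2 : (2 : k) ≠ 0) (i : ℕ) :
    ∀ (V : Type v) [AddCommGroup V] [Module k V] [Module.Finite k V]
      (B S : Fin i → Module.End k V)
      (_ : ∀ a b, B a * B b + B b * B a = 0)
      (_ : ∀ a b, B a * S b + S b * B a = if a = b then 1 else 0),
      Module.finrank k V =
        2 ^ i * Module.finrank k (⨅ a, LinearMap.ker (B a) : Submodule k V) := by
  induction i with
  | zero =>
    intro V _ _ _ B S hB hS
    rw [iInf_of_empty]
    simp
  | succ n ih =>
    intro V _ _ _ B S hB hS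
    set K₀ : Submodule k V := LinearMap.ker (B (Fin.last n)) with hK₀
    have hsq := sq_zero h2 _ (hB (Fin.last n) (Fin.last n))
    have hrange : LinearMap.range (B (Fin.last n)) = K₀ := by
      apply le_antisymm
      · rintro _ ⟨y, rfl⟩
        rw [hK₀, LinearMap.mem_ker]
        exact congrArg (fun f : Module.End k V => f y) hsq
      · intro x hx
        rw [hK₀, LinearMap.mem_ker] at hx
        have h4 := congrArg (fun f : Module.End k V => f x) (hS (Fin.last n) (Fin.last n))
        simp only [if_true, LinearMap.add_apply, Module.End.mul_apply, Module.End.one_apply,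
          hx, map_zero, add_zero] at h4
        exact ⟨_, h4⟩
    have hdim : Module.finrank k V = 2 * Module.finrank k K₀ := by
      have h := LinearMap.finrank_range_add_finrank_ker (B (Fin.last n))
      rw [hrange, ← hK₀] at h
      omega
    have hBK : ∀ a : Fin n, ∀ x ∈ K₀, B a.castSucc x ∈ K₀ := by
      intro a x hx
      rw [hK₀, LinearMap.mem_ker] at hx ⊢
      have h := congrArg (fun f : Module.End k V => f x) (hB (Fin.last n) a.castSucc)
      simpa [hx] using h
    have hSK : ∀ a : Fin n, ∀ x ∈ K₀, S a.castSucc x ∈ K₀ := by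
      intro a x hx
      rw [hK₀, LinearMap.mem_ker] at hx ⊢
      have h := congrArg (fun f : Module.End k V => f x) (hS (Fin.last n) a.castSucc)
      rw [if_neg (Fin.castSucc_lt_last a).ne'] at h
      simpa [hx] using h
    have hI := ih K₀ (fun a => (B a.castSucc).restrict (hBK a))
      (fun a => (S a.castSucc).restrict (hSK a))
      (fun a b => by
        ext x
        have h := congrArg (fun f : Module.End k V => f x.1) (hB a.castSucc b.castSucc)
        simpa using h)
      (fun a b => by
        ext x
        have h := congrArg (fun f : Module.End k V => f x.1) (hS a.castSucc b.castSucc)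
        by_cases hab : a = b
        · subst hab
          simpa using h
        · have h' : a.castSucc ≠ b.castSucc := fun e => hab (Fin.castSucc_injective _ e)
          simp only [if_neg hab, if_neg h'] at h ⊢
          simpa using h)
    have hle : (⨅ a, LinearMap.ker (B a) : Submodule k V) ≤ K₀ := iInf_le _ _
    have hcom : (⨅ a : Fin n, LinearMap.ker ((B a.castSucc).restrict (hBK a)) :
        Submodule k K₀) = (⨅ a, LinearMap.ker (B a) : Submodule k V).comap K₀.subtype := by
      ext x
      simp only [Submodule.mem_iInf, LinearMap.mem_ker, Submodule.mem_comap,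
        Submodule.subtype_apply]
      constructor
      · intro h a
        refine Fin.lastCases ?_ (fun b => ?_) a
        · exact x.2
        · exact congrArg Subtype.val (h b)
      · intro h a
        exact Subtype.ext (h a.castSucc)
    have hfr : Module.finrank k ((⨅ a, LinearMap.ker (B a) : Submodule k V).comap K₀.subtype) =
        Module.finrank k (⨅ a, LinearMap.ker (B a) : Submodule k V) :=
      LinearEquiv.finrank_eq (Submodule.comapSubtypeEquivOfLe hle)
    rw [hcom, hfr] at hI
    rw [hdim, hI, pow_succ]
    ring

theorem LKD (h2 : (2 : k) ≠ 0) (i : ℕ) (B S : Fin i → Module.End k V)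
    (hB : ∀ a b, B a * B b + B b * B a = 0)
    (hS : ∀ a b, B a * S b + S b * B a = if a = b then 1 else 0) :
    Module.finrank k V = 2 ^ i * Module.finrank k (⨅ a, LinearMap.ker (B a) : Submodule k V) :=
  LKD_aux h2 i V B S hB hS

theorem LKT_mem (i : ℕ) (B : Fin i → Module.End k V) (G : Module.End k V)
    (hG : ∀ a, G * B a = -(B a * G)) :
    ∀ x ∈ (⨅ a, LinearMap.ker (B a) : Submodule k V), G x ∈ (⨅ a, LinearMap.ker (B a)) := by
  intro x hx
  simp only [Submodule.mem_iInf, LinearMap.mem_ker] at hx ⊢
  intro a
  have h := congrArg (fun f : Module.End k V => f x) (hG a)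
  simp only [Module.End.mul_apply, LinearMap.neg_apply, hx a, map_zero] at h
  exact neg_eq_zero.mp h.symm

theorem LKT (h2 : (2 : k) ≠ 0) (i : ℕ) (B S : Fin i → Module.End k V)
    (hB : ∀ a b, B a * B b + B b * B a = 0)
    (hS : ∀ a b, B a * S b + S b * B a = if a = b then 1 else 0)
    (G : Module.End k V) (hG : ∀ a, G * B a = -(B a * G)) :
    LinearMap.trace k _ (G.restrict (LKT_mem i B G hG)) =
      (-1) ^ i * LinearMap.trace k V
        (G * (List.ofFn S).reverse.prod * (List.ofFn B).prod) := by
  set Bt := (List.ofFn B).prod with hBt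
  set St := (List.ofFn S).reverse.prod with hSt
  have hBx : ∀ x, Bt x ∈ (⨅ a, LinearMap.ker (B a) : Submodule k V) := by
    intro x
    simp only [Submodule.mem_iInf, LinearMap.mem_ker]
    intro a
    exact congrArg (fun f : Module.End k V => f x) (mul_prod_zero h2 i B hB a)
  have hGB : G * Bt = (-1) ^ i * (Bt * G) := anti_prod G i B hG
  have hmem : ∀ x, (G * (Bt * St)) x ∈ (⨅ a, LinearMap.ker (B a) : Submodule k V) := by
    intro x
    exact LKT_mem i B G hG _ (hBx _)
  have h1 : LinearMap.trace k _ (G.restrict (LKT_mem i B G hG)) =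
      LinearMap.trace k V (G * (Bt * St)) := by
    rw [← LinearMap.trace_restrict_eq_of_forall_mem _ (G * (Bt * St)) hmem]
    congr 1
    ext x
    simp only [LinearMap.coe_restrict_apply, Module.End.mul_apply]
    have hx : ∀ a, B a x.1 = 0 := by
      have h := x.2
      simp only [Submodule.mem_iInf, LinearMap.mem_ker] at h
      exact h
    rw [prod_prod_apply i B S hS x.1 hx]
  have hsgn : ((-1 : Module.End k V) ^ i) = (((-1 : k) ^ i) • (1 : Module.End k V)) := by
    rcases Nat.even_or_odd i with h | h
    · rw [h.neg_one_pow, h.neg_one_pow, one_smul]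
    · rw [h.neg_one_pow, h.neg_one_pow, neg_smul, one_smul]
  rw [h1, ← mul_assoc, hGB, hsgn, smul_mul_assoc, one_mul, smul_mul_assoc, map_smul, smul_eq_mul,
    mul_assoc, mul_assoc, LinearMap.trace_mul_comm k Bt (G * St), mul_assoc]

private theorem adj_swap {R : Type*} [Ring R] (n : ℕ) (j : Fin n) (B : Fin (n + 1) → R)
    (hB : ∀ a b, a ≠ b → B a * B b = -(B b * B a)) :
    (List.ofFn fun a => B (Equiv.swap j.castSucc j.succ a)).prod = -(List.ofFn B).prod := by
  induction n with
  | zero => exact j.elim0
  | succ n ih =>
    refine Fin.cases ?_ (fun j' => ?_) j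
    · rw [List.ofFn_succ, List.ofFn_succ, List.ofFn_succ, List.ofFn_succ, List.prod_cons,
        List.prod_cons, List.prod_cons, List.prod_cons]
      have e0 : Equiv.swap (0 : Fin (n + 1)).castSucc (0 : Fin (n + 1)).succ 0 = 1 := by
        simp
      have e1 : Equiv.swap (0 : Fin (n + 1)).castSucc (0 : Fin (n + 1)).succ
          (Fin.succ (0 : Fin (n + 1))) = 0 := by
        simp
      have e2 : ∀ a : Fin n, Equiv.swap (0 : Fin (n + 1)).castSucc (0 : Fin (n + 1)).succ
          a.succ.succ = a.succ.succ := by
        intro a
        apply Equiv.swap_apply_of_ne_of_ne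
        · exact Fin.succ_ne_zero _
        · intro h
          exact Fin.succ_ne_zero _ (Fin.succ_injective _ h)
      simp only [e0, e1, e2]
      rw [← mul_assoc, hB 1 0 (by simp), neg_mul, mul_assoc]
      rfl
    · rw [List.ofFn_succ, List.ofFn_succ (f := B), List.prod_cons, List.prod_cons]
      have e0 : Equiv.swap j'.succ.castSucc j'.succ.succ (0 : Fin (n + 2)) = 0 := by
        apply Equiv.swap_apply_of_ne_of_ne
        · intro h
          exact Fin.succ_ne_zero j' (Fin.castSucc_injective _ h.symm)
        · exact (Fin.succ_ne_zero _).symm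
      have e1 : ∀ a : Fin (n + 1), Equiv.swap j'.succ.castSucc j'.succ.succ a.succ =
          (Equiv.swap j'.castSucc j'.succ a).succ := by
        intro a
        have h1 : j'.succ.castSucc = j'.castSucc.succ := rfl
        rw [h1]
        exact ((Fin.succ_injective _).swap_apply j'.castSucc j'.succ a)
      simp only [e0, e1]
      rw [ih j' (fun a => B a.succ) (fun a b hab => hB _ _ (fun h => hab (Fin.succ_injective _ h))),
        mul_neg]

/-- antisymmetry of the product of anticommuting operators -/
theorem prod_perm_anticomm {R : Type*} [Ring R] (i : ℕ) (B : Fin i → R)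
    (hB : ∀ a b, a ≠ b → B a * B b = -(B b * B a)) (σ : Equiv.Perm (Fin i)) :
    (List.ofFn fun j => B (σ j)).prod = ((Equiv.Perm.sign σ : ℤˣ) : ℤ) • (List.ofFn B).prod := by
  cases i with
  | zero =>
    have h : σ = 1 := Subsingleton.elim _ _
    subst h
    simp
  | succ n =>
    have key : ∀ σ : Equiv.Perm (Fin (n + 1)), ∀ B : Fin (n + 1) → R,
        (∀ a b, a ≠ b → B a * B b = -(B b * B a)) →
        (List.ofFn fun j => B (σ j)).prod =
          ((Equiv.Perm.sign σ : ℤˣ) : ℤ) • (List.ofFn B).prod := by
      intro σ
      have hmem : σ ∈ Submonoid.closure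
          (Set.range fun i : Fin n => Equiv.swap i.castSucc i.succ) := by
        rw [Equiv.Perm.mclosure_swap_castSucc_succ]
        exact Submonoid.mem_top _
      induction hmem using Submonoid.closure_induction with
      | mem x hx =>
        obtain ⟨j, rfl⟩ := hx
        intro B hB
        rw [adj_swap n j B hB]
        have : Equiv.Perm.sign (Equiv.swap j.castSucc j.succ) = -1 :=
          Equiv.Perm.sign_swap (Fin.castSucc_lt_succ).ne
        simp [this]
      | one =>
        intro B hB
        simp
      | mul x y _ _ hx hy =>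
        intro B hB
        have h1 := hy (fun j => B (x j)) (fun a b hab => hB _ _ (fun h => hab (x.injective h)))
        have h2 := hx B hB
        simp only [Equiv.Perm.mul_apply]
        rw [h1, h2, smul_smul, Equiv.Perm.sign_mul]
        congr 1
        push_cast
        ring
    exact key σ B hB

end

end NCG
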