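import Pool.Agent.NCG.BOC
import Pool.Agent.NCG.DBL
import Pool.Agent.NCG.LTA
import Pool.Agent.NCG.LKT

/-!
# HRR: the trace on `H(J → N)` in terms of the finite-dimensional space `J → N̄`

Let `T : ThD k A N z i` with `z` weakly regular on `N`, `N̄ = N ⧸ Iz z i N` finite-dimensional over the
field `k` of characteristic zero, `Δ² = 0`, `Δ S b + S b Δ = z b`, `G` an integer matrix with
`G Δ = - Δ G`, and `H(J → N)` finite-dimensional.  Then for every permutation `σ`
`htr Δ G (on J → N) = (-1)^i sign σ · trace (G · S (i-1) ⋯ S 0 · Θ (σ 0) ⋯ Θ (σ (i-1)) on J → N̄)`.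

Proof.  Let `δ = mv k Δ` on `V = (J → N̄)`, `H̄ = Hm δ` (finite-dimensional since `V` is).
Operators on `V`: `Θ a = mv k (Δ.map (T.th a))` anticommutes with `δ` (`BOC_anti`);
`S' b = mv k (S b)`: `δ S' b + S' b δ = 0` since `z b` kills `N̄`; `G' = mv k G` anticommutes with `δ`.
So all of them satisfy `Pres δ _` (`Pres_of_anticomm`); let `B a`, `Σ b`, `Γ` be the induced operators on
`H̄` (`hmap`).  Relations on `H̄`:
* `B a B b + B b B a = 0` (`BOC_BB`, `hmap_eq_of`);
* `B a Σ b + Σ b B a = δ_{ab}` (`BOC_S`: the difference is `-(δ P + P δ)`, which maps cycles to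
  boundaries);
* `Γ B a = - B a Γ`: in fact `G' Θ a = - Θ a G'` on `V`: `(G * Δ).map (th a) = G * Δ.map (th a)` since `G` has
  integer entries (`ThD.th_int`, `BOC_mul`, or directly additivity of `th a`), similarly for `Δ * G`.
Let `K = ⨅ a, ker (B a)`.  The map `j : Hm (mv k Δ on J → N) → H̄` induced by `N → N̄` is injective by
`DBL`, its range is contained in `K` by `BOC_zero`, and `dim Hm (J → N) = dim K` since
`2^i dim Hm (J → N) = dim H̄ = 2^i dim K` (`DBL`, `LKD`).  So `j` is an isomorphism onto `K`, and it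
intertwines the operator induced by `G` on `Hm (J → N)` and `Γ` restricted to `K`
(`mv_map`, naturality of `G`).  Hence by `LKT` and `prod_perm_anticomm`
`htr (mv k Δ) (mv k G) = trace (Γ | K) = (-1)^i trace_{H̄} (Γ (Σ (i-1) ⋯ Σ 0) (B 0 ⋯ B (i-1)))
 = (-1)^i sign σ trace_{H̄} (Γ (Σ (i-1) ⋯ Σ 0) (B (σ 0) ⋯ B (σ (i-1))))`.
By `hmap_comp` (for lists) the operator in the last trace is induced by
`W = G' (S' (i-1) ⋯ S' 0) (Θ (σ 0) ⋯ Θ (σ (i-1)))`, which satisfies `W δ = - δ W` (`1 + 2 i` factors,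
each anticommuting with `δ`), so by the Hopf trace formula `LHT` its trace on `H̄` is its trace on `V`,
and `W = mv k (G * (List.ofFn S).reverse.prod * (List.ofFn ...).prod)` by `mv_mul`, `mv_rho`.
-/

open scoped BigOperators

namespace NCG

universe u v w

private theorem HRR_anti {R : Type*} [Ring R] (X : R) (i : ℕ) (B : Fin i → R)
    (h : ∀ a, B a * X = -(X * B a)) :
    (List.ofFn B).prod * X = (-1) ^ i * (X * (List.ofFn B).prod) := by
  induction i with
  | zero => simp
  | succ n ih =>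
    rw [List.ofFn_succ, List.prod_cons, mul_assoc, ih (fun a => B a.succ) (fun a => h a.succ)]
    have hc : Commute ((-1 : R) ^ n) (B 0) := (Commute.neg_one_left (B 0)).pow_left n
    rw [← mul_assoc, ← hc.eq, mul_assoc, ← mul_assoc (B 0), h 0, pow_succ]
    simp [mul_assoc]

private theorem HRR_anti_rev {R : Type*} [Ring R] (X : R) (i : ℕ) (B : Fin i → R)
    (h : ∀ a, B a * X = -(X * B a)) :
    (List.ofFn B).reverse.prod * X = (-1) ^ i * (X * (List.ofFn B).reverse.prod) := by
  induction i with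
  | zero => simp
  | succ n ih =>
    rw [List.ofFn_succ, List.reverse_cons, List.prod_append, List.prod_singleton, mul_assoc, h 0,
      mul_neg, ← mul_assoc, ih (fun a => B a.succ) (fun a => h a.succ), pow_succ]
    simp [mul_assoc]

private theorem HRR_prod {k V : Type*} [CommRing k] [AddCommGroup V] [Module k V]
    (δ : Module.End k V) (n : ℕ) (F : Fin n → Module.End k V) (hF : ∀ a, Pres δ (F a)) :
    ∃ h : Pres δ ((List.ofFn F).prod : Module.End k V),
      hmap δ _ h = ((List.ofFn fun a => (hmap δ (F a) (hF a) : Module.End k (Hm δ))).prod :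
        Module.End k (Hm δ)) := by
  induction n with
  | zero =>
    refine ⟨?_, ?_⟩
    · exact Pres_id δ
    · exact hmap_id δ
  | succ n ih =>
    obtain ⟨h, hh⟩ := ih (fun a => F a.succ) (fun a => hF a.succ)
    have e : ((List.ofFn F).prod : Module.End k V) =
        F 0 ∘ₗ ((List.ofFn fun a : Fin n => F a.succ).prod : Module.End k V) := by
      rw [List.ofFn_succ, List.prod_cons]; rfl
    have h' : Pres δ ((List.ofFn F).prod : Module.End k V) := by
      rw [e]; exact (hF 0).comp h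
    refine ⟨h', ?_⟩
    have e2 : hmap δ _ h' = hmap δ _ ((hF 0).comp h) := by
      congr 1
    rw [e2, hmap_comp (hF 0) h, hh, List.ofFn_succ, List.prod_cons]
    rfl

private theorem HRR_prod_rev {k V : Type*} [CommRing k] [AddCommGroup V] [Module k V]
    (δ : Module.End k V) (n : ℕ) (F : Fin n → Module.End k V) (hF : ∀ a, Pres δ (F a)) :
    ∃ h : Pres δ ((List.ofFn F).reverse.prod : Module.End k V),
      hmap δ _ h = ((List.ofFn fun a =>
        (hmap δ (F a) (hF a) : Module.End k (Hm δ))).reverse.prod :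
        Module.End k (Hm δ)) := by
  induction n with
  | zero =>
    refine ⟨?_, ?_⟩
    · exact Pres_id δ
    · exact hmap_id δ
  | succ n ih =>
    obtain ⟨h, hh⟩ := ih (fun a => F a.succ) (fun a => hF a.succ)
    have e : ((List.ofFn F).reverse.prod : Module.End k V) =
        ((List.ofFn fun a : Fin n => F a.succ).reverse.prod : Module.End k V) ∘ₗ F 0 := by
      rw [List.ofFn_succ, List.reverse_cons, List.prod_append, List.prod_singleton]; rfl
    have h' : Pres δ ((List.ofFn F).reverse.prod : Module.End k V) := by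
      rw [e]; exact h.comp (hF 0)
    refine ⟨h', ?_⟩
    have e2 : hmap δ _ h' = hmap δ _ (h.comp (hF 0)) := by
      congr 1
    rw [e2, hmap_comp h (hF 0), hh, List.ofFn_succ, List.reverse_cons, List.prod_append,
      List.prod_singleton]
    rfl

private theorem HRR_ring {R : Type*} [Ring R] (i : ℕ) (δ G P1 P2 : R)
    (h3 : P1 * δ = (-1) ^ i * (δ * P1)) (h4 : P2 * δ = (-1) ^ i * (δ * P2))
    (h5 : G * δ = -(δ * G)) : G * P1 * P2 * δ = -(δ * (G * P1 * P2)) := by
  have hs : ∀ X : R, (-1) ^ i * X = X * (-1) ^ i := by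
    intro X
    exact ((Commute.neg_one_left X).pow_left i).eq
  have hs2 : ((-1 : R) ^ i) * (-1) ^ i = 1 := by
    rw [← pow_add, ← two_mul, pow_mul]; simp
  calc G * P1 * P2 * δ = G * P1 * (P2 * δ) := by rw [mul_assoc]
    _ = G * P1 * ((-1) ^ i * (δ * P2)) := by rw [h4]
    _ = (-1) ^ i * (G * (P1 * δ) * P2) := by
        rw [← mul_assoc, ← hs (G * P1)]; simp only [mul_assoc]
    _ = (-1) ^ i * (G * ((-1) ^ i * (δ * P1)) * P2) := by rw [h3]
    _ = (-1) ^ i * ((-1) ^ i * (G * δ * P1 * P2)) := by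
        rw [← mul_assoc G, ← hs G]; simp only [mul_assoc]
    _ = G * δ * P1 * P2 := by rw [← mul_assoc, hs2, one_mul]
    _ = -(δ * (G * P1 * P2)) := by
        rw [h5]
        simp only [neg_mul]
        simp only [mul_assoc]

private def HRR_mvHom (k : Type*) {R M J : Type*} [CommRing k] [Ring R] [AddCommGroup M]
    [Module k M] [Module R M] [SMulCommClass R k M] [Fintype J] [DecidableEq J] :
    Matrix J J R →* Module.End k (J → M) where
  toFun X := mv k X
  map_one' := mv_one k
  map_mul' X Y := mv_mul k X Y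

variable {k : Type w} {A : Type u} [Field k] [CharZero k] [CommRing A] [Algebra k A]
  {N : Type v} [AddCommGroup N] [Module k N] [Module A N] [IsScalarTower k A N]
  {z : ℕ → A} {i : ℕ} (T : ThD k A N z i) {J : Type} [Fintype J] [DecidableEq J]

theorem HRR (hz : WReg z i N) [Module.Finite k (Nb A N z i)] (Δ : Matrix J J A)
    (G : Matrix J J ℤ) (S : Fin i → Matrix J J A) (hΔ : Δ * Δ = 0)
    (hG : G.map (Int.cast : ℤ → A) * Δ = -(Δ * G.map (Int.cast : ℤ → A)))
    (hS : ∀ b, Δ * S b + S b * Δ = z b • (1 : Matrix J J A))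
    (hfin : Module.Finite k (Hm (mv k (M := N) Δ))) (σ : Equiv.Perm (Fin i)) :
    htr (mv k (M := N) Δ) (mv k (M := N) (G.map (Int.cast : ℤ → A))) =
      (-1) ^ i * ((Equiv.Perm.sign σ : ℤˣ) : ℤ) *
        LinearMap.trace k (J → Nb A N z i)
          (mv k (M := Nb A N z i)
            (G.map (Int.cast : ℤ → Module.End k (Nb A N z i)) *
              ((List.ofFn S).reverse.prod).map (Algebra.lsmul k k (Nb A N z i)) *
              (List.ofFn fun j => Δ.map (T.th (σ j))).prod)) := by
  classical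
  set Gc : Matrix J J A := G.map (Int.cast : ℤ → A) with hGc
  set δ : Module.End k (J → Nb A N z i) := mv k (M := Nb A N z i) Δ with hδ
  have hδδ : δ ∘ₗ δ = 0 := by
    rw [hδ, ← mv_mul, hΔ, mv_zero]
  set Θ : Fin i → Module.End k (J → Nb A N z i) :=
    fun a => mv k (M := Nb A N z i) (Δ.map (T.th a)) with hΘ
  set S' : Fin i → Module.End k (J → Nb A N z i) :=
    fun a => mv k (M := Nb A N z i) (S a) with hS'
  set G' : Module.End k (J → Nb A N z i) := mv k (M := Nb A N z i) Gc with hG'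
  have hGρ : Gc.map (Algebra.lsmul k k (Nb A N z i)) =
      G.map (Int.cast : ℤ → Module.End k (Nb A N z i)) := by
    refine Matrix.ext fun a b => ?_
    simp only [hGc, Matrix.map_apply, map_intCast]
  have hΘδ : ∀ a, Θ a ∘ₗ δ = -(δ ∘ₗ Θ a) := fun a => BOC_anti T Δ hΔ a
  have hSδ : ∀ a, S' a ∘ₗ δ = -(δ ∘ₗ S' a) := by
    intro a
    have h1 : δ ∘ₗ S' a + S' a ∘ₗ δ = 0 := by
      simp only [hδ, hS']
      rw [← mv_mul, ← mv_mul, ← mv_add, hS a]
      refine LinearMap.ext fun x => ?_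
      rw [mv_smul_one]
      have h0 := lsmul_z (k := k) (N := N) (z := z) (i := i) a.1 a.2
      ext j
      exact congrArg (fun f : Module.End k (Nb A N z i) => f (x j)) h0
    exact eq_neg_of_add_eq_zero_right h1
  have hGδ : G' ∘ₗ δ = -(δ ∘ₗ G') := by
    rw [hG', hδ, ← mv_mul, ← mv_mul, hG, mv_neg]
  have hint : ∀ a, Gc.map (T.th a) = 0 := by
    intro a
    refine Matrix.ext fun x y => ?_
    simp only [hGc, Matrix.map_apply, T.th_int, Matrix.zero_apply]
  have hGΘ : ∀ a, G' ∘ₗ Θ a = -(Θ a ∘ₗ G') := by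
    intro a
    have h1 := BOC_mul T a Gc Δ
    have h2 := BOC_mul T a Δ Gc
    rw [hint, Matrix.zero_mul, zero_add] at h1
    rw [hint, Matrix.mul_zero, add_zero] at h2
    have h3 : (Gc * Δ).map (T.th a) = -((Δ * Gc).map (T.th a)) := by
      rw [hG]
      refine Matrix.ext fun x y => ?_
      simp only [Matrix.map_apply, Matrix.neg_apply, map_neg]
    rw [h1, h2] at h3
    have h4 := congrArg (fun X => mv k (M := Nb A N z i) X) h3
    simp only [mv_neg, mv_mul, mv_rho] at h4
    exact h4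
  have hΘP : ∀ a, Pres δ (Θ a) := fun a => Pres_of_anticomm (hΘδ a)
  have hSP : ∀ a, Pres δ (S' a) := fun a => Pres_of_anticomm (hSδ a)
  have hGP : Pres δ G' := Pres_of_anticomm hGδ
  set B : Fin i → Module.End k (Hm δ) := fun a => hmap δ (Θ a) (hΘP a) with hBdef
  set Sg : Fin i → Module.End k (Hm δ) := fun a => hmap δ (S' a) (hSP a) with hSgdef
  set Γ : Module.End k (Hm δ) := hmap δ G' hGP with hΓdef
  have hBB : ∀ a b, B a * B b + B b * B a = 0 := by
    intro a b
    refine LinearMap.ext fun y => ?_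
    obtain ⟨x, rfl⟩ := Submodule.Quotient.mk_surjective _ y
    change hmap δ (Θ a) (hΘP a) (hmap δ (Θ b) (hΘP b) (Submodule.Quotient.mk x)) +
      hmap δ (Θ b) (hΘP b) (hmap δ (Θ a) (hΘP a) (Submodule.Quotient.mk x)) = 0
    rw [hmap_mk, hmap_mk, hmap_mk, hmap_mk, ← Submodule.Quotient.mk_add, Hm_mk_eq_zero]
    exact BOC_BB T hz Δ hΔ a b x.1 x.2
  have hBS : ∀ a b, B a * Sg b + Sg b * B a = if a = b then 1 else 0 := by
    intro a b
    refine LinearMap.ext fun y => ?_
    obtain ⟨x, rfl⟩ := Submodule.Quotient.mk_surjective _ y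
    have h1 := congrArg (fun f : Module.End k (J → Nb A N z i) => f x.1)
      (BOC_S T Δ (S b) a b (hS b))
    have hx : mv k (M := Nb A N z i) Δ x.1 = 0 := x.2
    have h2 : Θ a (S' b x.1) + S' b (Θ a x.1) = (if a = b then x.1 else 0) -
        δ (mv k (M := Nb A N z i) ((S b).map (T.th a)) x.1) := by
      have h3 : (if a = b then (LinearMap.id : Module.End k (J → Nb A N z i)) else 0) x.1 =
          if a = b then x.1 else 0 := by
        split_ifs <;> rfl
      rw [← h3]
      simpa [hx] using h1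
    have h4 : ((if a = b then 1 else 0 : Module.End k (Hm δ)) (Submodule.Quotient.mk x)) =
        Submodule.Quotient.mk (if a = b then x else 0) := by
      split_ifs <;> simp
    rw [h4]
    change hmap δ (Θ a) (hΘP a) (hmap δ (S' b) (hSP b) (Submodule.Quotient.mk x)) +
      hmap δ (S' b) (hSP b) (hmap δ (Θ a) (hΘP a) (Submodule.Quotient.mk x)) = _
    rw [hmap_mk, hmap_mk, hmap_mk, hmap_mk, ← Submodule.Quotient.mk_add, ← sub_eq_zero,
      ← Submodule.Quotient.mk_sub, Hm_mk_eq_zero]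
    refine ⟨-(mv k (M := Nb A N z i) ((S b).map (T.th a)) x.1), ?_⟩
    have h5 : ((if a = b then x else 0 : LinearMap.ker δ) : J → Nb A N z i) =
        if a = b then x.1 else 0 := by
      split_ifs <;> rfl
    rw [Submodule.coe_sub, Submodule.coe_add, h5, map_neg]
    change -_ = Θ a (S' b x.1) + S' b (Θ a x.1) - _
    rw [h2]
    abel
  have hΓB : ∀ a, Γ * B a = -(B a * Γ) := by
    intro a
    refine LinearMap.ext fun y => ?_
    obtain ⟨x, rfl⟩ := Submodule.Quotient.mk_surjective _ y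
    change hmap δ G' hGP (hmap δ (Θ a) (hΘP a) (Submodule.Quotient.mk x)) =
      -(hmap δ (Θ a) (hΘP a) (hmap δ G' hGP (Submodule.Quotient.mk x)))
    rw [hmap_mk, hmap_mk, hmap_mk, hmap_mk, ← Submodule.Quotient.mk_neg]
    congr 1
    ext1
    exact congrArg (fun f : Module.End k (J → Nb A N z i) => f x.1) (hGΘ a)
  have h2 : (2 : k) ≠ 0 := two_ne_zero
  -- the map on homology induced by the projection
  set Q : N →ₗ[k] Nb A N z i :=
    (Submodule.mkQ (Iz z i • (⊤ : Submodule A N))).restrictScalars k with hQ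
  set π : (J → N) →ₗ[k] (J → Nb A N z i) := Q.compLeft J with hπ
  have hπΔ : ∀ (X : Matrix J J A) (x : J → N),
      π (mv k (M := N) X x) = mv k (M := Nb A N z i) X (π x) := by
    intro X x
    have h := mv_map k X (Submodule.mkQ (Iz z i • (⊤ : Submodule A N))) x
    exact h.symm
  have hπker : ∀ x ∈ LinearMap.ker (mv k (M := N) Δ), π x ∈ LinearMap.ker δ := by
    intro x hx
    rw [LinearMap.mem_ker] at hx ⊢
    rw [hδ, ← hπΔ, hx, map_zero]
  set j : Hm (mv k (M := N) Δ) →ₗ[k] Hm δ := Submodule.mapQ _ _ (π.restrict hπker) (by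
    rintro x ⟨y, hy⟩
    exact ⟨π y, (hπΔ Δ y).symm.trans (congrArg π hy)⟩) with hj
  have hjmk : ∀ x : LinearMap.ker (mv k (M := N) Δ),
      j (Submodule.Quotient.mk x) = Submodule.Quotient.mk ⟨π x.1, hπker x.1 x.2⟩ := fun x => rfl
  obtain ⟨hf1, hf2, hf3⟩ := DBL (k := k) (N := N) hz Δ S hΔ hS
  have hjinj : Function.Injective j := by
    rw [← LinearMap.ker_eq_bot, LinearMap.ker_eq_bot']
    intro y hy
    obtain ⟨x, rfl⟩ := Submodule.Quotient.mk_surjective _ y
    rw [hjmk, Hm_mk_eq_zero] at hy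
    rw [Hm_mk_eq_zero]
    exact hf3 x.1 x.2 hy
  have hjK : ∀ y, j y ∈ (⨅ a, LinearMap.ker (B a) : Submodule k (Hm δ)) := by
    intro y
    obtain ⟨x, rfl⟩ := Submodule.Quotient.mk_surjective _ y
    simp only [Submodule.mem_iInf, LinearMap.mem_ker]
    intro a
    rw [hjmk]
    change hmap δ (Θ a) (hΘP a) _ = 0
    rw [hmap_mk, Hm_mk_eq_zero]
    exact BOC_zero T Δ a x.1 x.2
  have hdim := LKD h2 i B Sg hBB hBS
  have hfr : Module.finrank k (Hm (mv k (M := N) Δ)) =
      Module.finrank k (⨅ a, LinearMap.ker (B a) : Submodule k (Hm δ)) := by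
    have h3 : Module.finrank k (Hm δ) = 2 ^ i * Module.finrank k (Hm (mv k (M := N) Δ)) := hf2
    rw [h3] at hdim
    exact Nat.eq_of_mul_eq_mul_left (by positivity) hdim
  set jK := j.codRestrict (⨅ a, LinearMap.ker (B a)) hjK with hjKdef
  have hjKinj : Function.Injective jK := by
    intro x y hxy
    exact hjinj (congrArg Subtype.val hxy)
  set e := LinearMap.linearEquivOfInjective jK hjKinj hfr with he
  have hGδN : mv k (M := N) Gc ∘ₗ mv k (M := N) Δ = -(mv k (M := N) Δ ∘ₗ mv k (M := N) Gc) := by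
    rw [← mv_mul, ← mv_mul, hG, mv_neg]
  have hGPN : Pres (mv k (M := N) Δ) (mv k (M := N) Gc) := Pres_of_anticomm hGδN
  rw [htr_eq hGPN]
  have hconj : e.conj (hmap (mv k (M := N) Δ) (mv k (M := N) Gc) hGPN) =
      Γ.restrict (LKT_mem i B Γ hΓB) := by
    refine LinearMap.ext fun y => ?_
    obtain ⟨x, rfl⟩ := e.surjective y
    rw [LinearEquiv.conj_apply_apply, LinearEquiv.symm_apply_apply]
    apply Subtype.ext
    rw [LinearMap.coe_restrict_apply]
    change j _ = Γ (j x)
    obtain ⟨x, rfl⟩ := Submodule.Quotient.mk_surjective _ x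
    rw [hmap_mk, hjmk, hjmk]
    change _ = hmap δ G' hGP _
    rw [hmap_mk]
    congr 1
    ext1
    exact hπΔ Gc x.1
  rw [← LinearMap.trace_conj' _ e, hconj, LKT h2 i B Sg hBB hBS Γ hΓB]
  -- permute the factors
  have hperm := prod_perm_anticomm i B
    (fun a b _ => eq_neg_of_add_eq_zero_left (hBB a b)) σ
  have hperm' : (List.ofFn B).prod =
      ((Equiv.Perm.sign σ : ℤˣ) : ℤ) • (List.ofFn fun a => B (σ a)).prod := by
    rw [hperm, smul_smul]
    have h3 : (((Equiv.Perm.sign σ : ℤˣ) : ℤ) * ((Equiv.Perm.sign σ : ℤˣ) : ℤ)) = 1 := by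
      rw [← Units.val_mul, Int.units_mul_self, Units.val_one]
    rw [h3, one_smul]
  rw [hperm', mul_smul_comm, map_zsmul, zsmul_eq_mul, ← mul_assoc]
  congr 1
  -- the operator on `V`
  obtain ⟨hp1, hh1⟩ := HRR_prod_rev δ i S' hSP
  obtain ⟨hp2, hh2⟩ := HRR_prod δ i (fun a => Θ (σ a)) (fun a => hΘP (σ a))
  set P1 : Module.End k (J → Nb A N z i) := (List.ofFn S').reverse.prod with hP1
  set P2 : Module.End k (J → Nb A N z i) := (List.ofFn fun a => Θ (σ a)).prod with hP2
  have hW : Pres δ ((G' ∘ₗ P1) ∘ₗ P2) := (hGP.comp hp1).comp hp2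
  have hWh : hmap δ ((G' ∘ₗ P1) ∘ₗ P2) hW =
      Γ * (List.ofFn Sg).reverse.prod * (List.ofFn fun a => B (σ a)).prod := by
    have e2 : hmap δ ((G' ∘ₗ P1) ∘ₗ P2) hW = hmap δ _ ((hGP.comp hp1).comp hp2) := rfl
    rw [e2, hmap_comp (hGP.comp hp1) hp2, hmap_comp hGP hp1, hh1, hh2]
    rfl
  rw [← hWh, ← htr_eq hW, LHT δ _ hδδ]
  · congr 1
    rw [mv_mul, mv_mul, ← hGρ, mv_rho, mv_rho]
    congr 1
    · congr 1
      have h3 := map_list_prod (HRR_mvHom k (R := A) (M := Nb A N z i) (J := J))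
        (List.ofFn S).reverse
      rw [List.map_reverse, List.map_ofFn] at h3
      exact h3.symm
    · have h3 := map_list_prod
        (HRR_mvHom k (R := Module.End k (Nb A N z i)) (M := Nb A N z i) (J := J))
        (List.ofFn fun a => Δ.map (T.th (σ a)))
      rw [List.map_ofFn] at h3
      exact h3.symm
  · have h3 : P1 * δ = (-1) ^ i * (δ * P1) := HRR_anti_rev δ i S' hSδ
    have h4 : P2 * δ = (-1) ^ i * (δ * P2) :=
      HRR_anti δ i (fun a => Θ (σ a)) (fun a => hΘδ (σ a))
    have h5 : G' * δ = -(δ * G') := hGδ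
    change G' * P1 * P2 * δ = -(δ * (G' * P1 * P2))
    exact HRR_ring i δ G' P1 P2 h3 h4 h5

end NCG
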