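import Pool.Agent.NCG.KEX

/-!
# KEF: `VV` for free modules modulo an ideal

Let `E` be a finite free `A`-module, `𝔞` an ideal such that `z 0, ..., z (r - 1)` is weakly regular on
`A ⧸ 𝔞`, `q < r`.  Then `VV z r q (𝔞 • ⊤)`.

Proof.  By `WReg_free`, `z` is weakly regular on `N = E ⧸ 𝔞 E`.  Given `t` and `x` with
`kd z t x B ∈ 𝔞 • ⊤` for all `B ⊆ range r`, `#B = q + 1`, the cochain `mk ∘ x` of `N` satisfies the
hypothesis of `KEX` (`kd_map` for `Submodule.mkQ`), so `mk (x B) = kd z t ȳ B` for `#B = q`; lift `ȳ` to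
`y : Finset ℕ → E` (`Submodule.mkQ_surjective`, `Function.surjInv`), and take `s = 0`
(`tau_zero`).
-/

open scoped BigOperators

namespace NCG

universe u v w

variable {A : Type u} [CommRing A]

theorem KEF {z : ℕ → A} {r q : ℕ} (𝔞 : Ideal A) (h : WReg z r (A ⧸ 𝔞)) (hq : q < r)
    (E : Type w) [AddCommGroup E] [Module A E] [Module.Free A E] [Module.Finite A E] :
    VV z r q (𝔞 • (⊤ : Submodule A E)) := by
  have hN := WReg_free 𝔞 h E
  intro t _ x hx
  obtain ⟨y', hy'⟩ := KEX hN hq t (fun B => (𝔞 • (⊤ : Submodule A E)).mkQ (x B))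
    (fun B hB hc => by
      rw [kd_map]
      exact (Submodule.Quotient.mk_eq_zero _).2 (hx B hB hc))
  choose y hy using fun B => (𝔞 • (⊤ : Submodule A E)).mkQ_surjective (y' B)
  refine ⟨0, y, fun B hB hc => ?_⟩
  rw [tau_zero, add_zero, ← Submodule.Quotient.mk_eq_zero]
  show (𝔞 • (⊤ : Submodule A E)).mkQ (x B - kd z t y B) = 0
  rw [map_sub, ← kd_map]
  simp only [hy]
  rw [hy' B hB hc, sub_self]

end NCG
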