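import Pool.Agent.NCG.KCH

/-!
# SQA: first exact sequence lemma

Let `f : X' → X` be linear, `P' ⊆ X'`, `P ⊆ X` submodules with `f (P') ⊆ P`, and assume that there is
`N` such that `f x' ∈ P` implies `z b ^ N • x' ∈ P'` for all `b < r`.
If `VV z r (q + 1) P'` and `VV z r q P`, then `VV z r q (P ⊔ range f)`.

Proof.  Let `t ≥ 1` and `x` with `kd z t x B ∈ P ⊔ range f` for `B ⊆ range r`, `#B = q + 1`.
Choose `x' B : X'` with `kd z t x B - f (x' B) ∈ P` for these `B` (`Submodule.mem_sup`), `x' B = 0`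
for the other `B`.

For `B ⊆ range r` with `#B = q + 2`: by `kd_kd`, `kd_map`, `kd_sub`, `kd_mem`
`- f (kd z t x' B) = kd z t (kd z t x - f ∘ x') B ∈ P`
(every `B.erase b` is a subset of `range r` with `q + 1` elements).  So
`z b ^ N • kd z t x' B ∈ P'` for `b ∈ B` (`B` is not empty), hence by `tau_mem_of_mem`
`kd z (t + N) (tau z N x') B = tau z N (kd z t x') B ∈ P'`.
By `VV z r (q + 1) P'` (at level `t + N`) there are `s'`, `y'` with
`tau z s' (tau z N x') B - kd z (t + N + s') y' B ∈ P'` for `#B = q + 1`.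
Put `S = N + s'`, `x̂ B = tau z S x B - f (y' B)`.  For `#B = q + 1`:
`kd z (t + S) x̂ B = tau z S (kd z t x) B - f (kd z (t + S) y' B)`
`= tau z S (kd z t x - f ∘ x') B + f (tau z S x' B - kd z (t + S) y' B) ∈ P`.
By `VV z r q P` (at level `t + S`) there are `s''`, `y` with
`tau z s'' x̂ B - kd z (t + S + s'') y B ∈ P` for `#B = q`.
Since `tau z s'' x̂ B = tau z (S + s'') x B - f (tau z s'' y' B)`, we get
`tau z (S + s'') x B - kd z (t + (S + s'')) y B ∈ P ⊔ range f`.
-/

open scoped BigOperators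

namespace NCG

universe u v w

variable {A : Type u} [CommRing A] {X' : Type v} [AddCommGroup X'] [Module A X']
  {X : Type w} [AddCommGroup X] [Module A X]

theorem SQA {z : ℕ → A} {r q : ℕ} (f : X' →ₗ[A] X) (P' : Submodule A X') (P : Submodule A X)
    (hf : P' ≤ P.comap f) (hker : ∃ N, ∀ x', f x' ∈ P → ∀ b < r, z b ^ N • x' ∈ P')
    (h1 : VV z r (q + 1) P') (h2 : VV z r q P) : VV z r q (P ⊔ LinearMap.range f) := by
  classical
  obtain ⟨N, hN⟩ := hker
  intro t ht x hx
  have hex : ∀ B : Finset ℕ, ∃ v : X', B ⊆ Finset.range r → B.card = q + 1 →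
      kd z t x B - f v ∈ P := by
    intro B
    by_cases hB : B ⊆ Finset.range r ∧ B.card = q + 1
    · obtain ⟨p, hp, y, ⟨v, hv⟩, hpy⟩ := Submodule.mem_sup.1 (hx B hB.1 hB.2)
      refine ⟨v, fun _ _ => ?_⟩
      rw [← hpy, hv, add_sub_cancel_right]
      exact hp
    · exact ⟨0, fun h h' => absurd ⟨h, h'⟩ hB⟩
  choose x' hx' using hex
  have h3 : ∀ B ⊆ Finset.range r, B.card = q + 1 + 1 → kd z (t + N) (tau z N x') B ∈ P' := by
    intro B hB hc
    have h4 : kd z t (fun B => kd z t x B - f (x' B)) B ∈ P := by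
      refine kd_mem z t P fun b hb => ?_
      refine hx' _ ((Finset.erase_subset _ _).trans hB) ?_
      rw [Finset.card_erase_of_mem hb, hc]
      rfl
    rw [kd_sub z t (kd z t x) (fun B => f (x' B)) B, kd_kd, kd_map, zero_sub] at h4
    have h5 : f (kd z t x' B) ∈ P := by simpa using P.neg_mem h4
    have hne : B.Nonempty := by
      rw [← Finset.card_pos, hc]
      omega
    obtain ⟨b, hb⟩ := hne
    rw [kd_tau]
    exact tau_mem_of_mem z N P' hb (hN _ h5 b (Finset.mem_range.1 (hB hb)))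
  obtain ⟨s', y', hy'⟩ := h1 (t + N) (by omega) (tau z N x') h3
  have h6 : ∀ B ⊆ Finset.range r, B.card = q + 1 →
      kd z (t + (N + s')) (fun B => tau z (N + s') x B - f (y' B)) B ∈ P := by
    intro B hB hc
    have h7 : tau z (N + s') (fun B => kd z t x B - f (x' B)) B ∈ P :=
      tau_mem z (N + s') P (x := fun B => kd z t x B - f (x' B)) (hx' B hB hc)
    rw [tau_sub z (N + s') (kd z t x) (fun B => f (x' B)) B, tau_map] at h7
    have h8 := hf (hy' B hB hc)
    rw [Submodule.mem_comap, tau_tau, map_sub, add_assoc] at h8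
    have h9 := P.add_mem h7 h8
    rw [kd_sub z (t + (N + s')) (tau z (N + s') x) (fun B => f (y' B)) B, kd_tau, kd_map]
    have h10 : tau z (N + s') (kd z t x) B - f (kd z (t + (N + s')) y' B) =
        tau z (N + s') (kd z t x) B - f (tau z (N + s') x' B) +
          (f (tau z (N + s') x' B) - f (kd z (t + (N + s')) y' B)) := by abel
    rw [h10]
    exact h9
  obtain ⟨s'', y, hy⟩ := h2 (t + (N + s')) (by omega) _ h6
  refine ⟨N + s' + s'', y, fun B hB hc => ?_⟩
  have h11 := hy B hB hc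
  rw [tau_sub z s'' (tau z (N + s') x) (fun B => f (y' B)) B, tau_map, tau_tau] at h11
  refine Submodule.mem_sup.2 ⟨_, h11, f (tau z s'' y' B), ⟨_, rfl⟩, ?_⟩
  rw [add_assoc t (N + s') s'']
  abel

end NCG
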