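import Pool.Agent.NCG.KCH
import Pool.Agent.NCG.WRB

/-!
# SQB: second exact sequence lemma

Let `f : X' → X` be linear, `P' ⊆ X'`, `P ⊆ X` submodules, and assume that there is
`N` such that `f x' ∈ P` implies `z b ^ N • x' ∈ P'` for all `b < r`.

`SQB_zero`.  Let `x'` be a cochain of `X'`, `t ≥ 1`, and assume that `f ∘ x'` becomes a coboundary
modulo `P` in degree `q + 1`: `tau z s₀ (f ∘ x') B - kd z (t + s₀) y B ∈ P` for `B ⊆ range r`,
`#B = q + 1`.  Assume `VV z r q (P ⊔ range f)`.  Then `x'` becomes a coboundary modulo `P'` in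
degree `q + 1`.
Proof.  For `#B = q + 1`, `kd z (t + s₀) y B ∈ P ⊔ range f` (as
`tau z s₀ (f ∘ x') B = f (tau z s₀ x' B)`).  By `VV z r q (P ⊔ range f)` at level `t + s₀ ≥ 1` there
are `s₁`, `w` with `tau z s₁ y B - kd z (t + s₀ + s₁) w B ∈ P ⊔ range f` for `#B = q`.  Choose
`v' B : X'` with `tau z s₁ y B - kd z (t + s₀ + s₁) w B - f (v' B) ∈ P` for these `B`.
For `B ⊆ range r`, `#B = q + 1` put `T = t + s₀ + s₁`; modulo `P`
`f (tau z (s₀ + s₁) x' B) ≡ tau z s₁ (kd z (t + s₀) y) B = kd z T (tau z s₁ y) B`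
`≡ kd z T (kd z T w) B + kd z T (f ∘ v') B = f (kd z T v' B)`
(use `kd_mem`: every `B.erase b` has `q` elements).  So
`f (tau z (s₀ + s₁) x' B - kd z T v' B) ∈ P`, hence `z b ^ N • (...) ∈ P'` for `b ∈ B`
(`B` is not empty), and by `tau_mem_of_mem`
`tau z N (tau z (s₀ + s₁) x' - kd z T v') B ∈ P'`, which is
`tau z (s₀ + s₁ + N) x' B - kd z (t + (s₀ + s₁ + N)) (tau z N v') B`.

`SQB` follows: if `x'` is a cocycle modulo `P'` in degree `q + 1` then `f ∘ x'` is a cocycle modulo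
`P` (as `f (P') ⊆ P`), so by `VV z r (q + 1) P` it becomes a coboundary, and `SQB_zero` applies.

`ZZ_iff`: for `x : X`, `ZZ z r P x` iff there are `s`, `y` with
`tau z s (fun _ => x) (range r) - kd z (1 + s) y (range r) ∈ P`: the elements
`kd z (1 + s) y (range r) = ∑_{b < r} ± z b ^ (1 + s) • y ((range r).erase b)` are exactly the
elements of `Iz (fun j => z j ^ (s + 1)) r • ⊤` (the sets `(range r).erase b` are pairwise different
for different `b < r`; e.g. take `y C = ± e (∑ range r - ∑ C)`).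

`SQB_top` is `SQB_zero` for `r = q + 1`, `t = 1`, the constant cochain `fun _ => x` and
`B = range (q + 1)`, the only subset of `range (q + 1)` with `q + 1` elements, with `ZZ_iff`.
-/

open scoped BigOperators

namespace NCG

universe u v w

variable {A : Type u} [CommRing A] {X' : Type v} [AddCommGroup X'] [Module A X']
  {X : Type w} [AddCommGroup X] [Module A X]

theorem SQB_zero {z : ℕ → A} {r q : ℕ} (f : X' →ₗ[A] X) (P' : Submodule A X')
    (P : Submodule A X) (hker : ∃ N, ∀ x', f x' ∈ P → ∀ b < r, z b ^ N • x' ∈ P')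
    (t : ℕ) (ht : 1 ≤ t) (x' : Finset ℕ → X') (s₀ : ℕ) (y : Finset ℕ → X)
    (hy : ∀ B ⊆ Finset.range r, B.card = q + 1 →
      tau z s₀ (fun B => f (x' B)) B - kd z (t + s₀) y B ∈ P)
    (h : VV z r q (P ⊔ LinearMap.range f)) :
    ∃ s, ∃ v : Finset ℕ → X', ∀ B ⊆ Finset.range r, B.card = q + 1 →
      tau z s x' B - kd z (t + s) v B ∈ P' := by
  classical
  obtain ⟨N, hN⟩ := hker
  obtain ⟨s₁, w, hw⟩ := h (t + s₀) (by omega) y (by
    intro B hB hc
    have h1 := hy B hB hc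
    have e : kd z (t + s₀) y B = f (tau z s₀ x' B) -
        (tau z s₀ (fun B => f (x' B)) B - kd z (t + s₀) y B) := by
      rw [tau_map]
      abel
    rw [e]
    exact Submodule.sub_mem _ (Submodule.mem_sup_right ⟨_, rfl⟩) (Submodule.mem_sup_left h1))
  have hv : ∀ B : Finset ℕ, ∃ v : X', B ⊆ Finset.range r → B.card = q →
      tau z s₁ y B - kd z (t + s₀ + s₁) w B - f v ∈ P := by
    intro B
    by_cases hB : B ⊆ Finset.range r ∧ B.card = q
    · obtain ⟨p, hp, p', ⟨v, rfl⟩, hs⟩ := Submodule.mem_sup.1 (hw B hB.1 hB.2)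
      refine ⟨v, fun _ _ => ?_⟩
      rw [← hs, add_sub_cancel_right]
      exact hp
    · exact ⟨0, fun h1 h2 => absurd ⟨h1, h2⟩ hB⟩
  choose v' hv' using hv
  refine ⟨s₀ + s₁ + N, tau z N v', fun B hB hc => ?_⟩
  have hne : B.Nonempty := by
    rw [← Finset.card_pos]
    omega
  obtain ⟨b, hb⟩ := hne
  have key : f (tau z (s₀ + s₁) x' B - kd z (t + s₀ + s₁) v' B) ∈ P := by
    have h1 : kd z (t + s₀ + s₁)
        (fun B => tau z s₁ y B - kd z (t + s₀ + s₁) w B - f (v' B)) B ∈ P :=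
      kd_mem z _ P fun b hb => hv' _ ((Finset.erase_subset _ _).trans hB) (by
        rw [Finset.card_erase_of_mem hb, hc]
        rfl)
    rw [kd_sub, kd_sub, kd_kd, sub_zero, kd_tau, kd_map] at h1
    have h2 : tau z s₁ (fun B => tau z s₀ (fun B => f (x' B)) B - kd z (t + s₀) y B) B ∈ P :=
      tau_mem z s₁ P (hy B hB hc)
    rw [tau_sub, tau_tau, tau_map] at h2
    rw [map_sub]
    have e := Submodule.add_mem _ h2 h1
    have e2 : f (tau z (s₀ + s₁) x' B) - tau z s₁ (kd z (t + s₀) y) B +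
        (tau z s₁ (kd z (t + s₀) y) B - f (kd z (t + s₀ + s₁) v' B)) =
        f (tau z (s₀ + s₁) x' B) - f (kd z (t + s₀ + s₁) v' B) := by abel
    rw [← e2]
    exact e
  have h3 := hN _ key b (Finset.mem_range.1 (hB hb))
  have h4 : tau z N (fun B => tau z (s₀ + s₁) x' B - kd z (t + s₀ + s₁) v' B) B ∈ P' :=
    tau_mem_of_mem z N P' hb h3
  rw [tau_sub, tau_tau, ← kd_tau] at h4
  have e : t + s₀ + s₁ + N = t + (s₀ + s₁ + N) := by omega
  rw [e] at h4
  exact h4

theorem SQB {z : ℕ → A} {r q : ℕ} (f : X' →ₗ[A] X) (P' : Submodule A X')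
    (P : Submodule A X) (hf : P' ≤ P.comap f)
    (hker : ∃ N, ∀ x', f x' ∈ P → ∀ b < r, z b ^ N • x' ∈ P')
    (h1 : VV z r (q + 1) P) (h2 : VV z r q (P ⊔ LinearMap.range f)) :
    VV z r (q + 1) P' := by
  intro t ht x' hx'
  obtain ⟨s₀, y, hy⟩ := h1 t ht (fun B => f (x' B)) (fun B hB hc => by
    rw [kd_map]
    exact hf (hx' B hB hc))
  exact SQB_zero f P' P hker t ht x' s₀ y hy h2

private theorem SQB_sum_erase {r b : ℕ} (hb : b < r) :
    ∑ i ∈ Finset.range r, i - ∑ i ∈ (Finset.range r).erase b, i = b := by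
  have := Finset.add_sum_erase (Finset.range r) (fun i => i) (Finset.mem_range.2 hb)
  omega

private theorem SQB_filter {r b : ℕ} (hb : b < r) :
    ((Finset.range r).filter (· < b)).card = b := by
  have : (Finset.range r).filter (· < b) = Finset.range b := by
    ext c
    simp only [Finset.mem_filter, Finset.mem_range]
    omega
  rw [this, Finset.card_range]

theorem ZZ_iff (z : ℕ → A) (r : ℕ) (P : Submodule A X) (x : X) :
    ZZ z r P x ↔ ∃ s, ∃ y : Finset ℕ → X,
      tau z s (fun _ => x) (Finset.range r) - kd z (1 + s) y (Finset.range r) ∈ P := by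
  constructor
  · rintro ⟨s, hs⟩
    obtain ⟨u, hu, p, hp, he⟩ := Submodule.mem_sup.1 hs
    obtain ⟨e, rfl⟩ := (mem_Iz_top _ _ _).1 hu
    refine ⟨s, fun C => ((-1 : ℤ) ^ (∑ i ∈ Finset.range r, i - ∑ i ∈ C, i)) •
      e (∑ i ∈ Finset.range r, i - ∑ i ∈ C, i), ?_⟩
    have h1 : kd z (1 + s) (fun C => ((-1 : ℤ) ^ (∑ i ∈ Finset.range r, i - ∑ i ∈ C, i)) •
      e (∑ i ∈ Finset.range r, i - ∑ i ∈ C, i)) (Finset.range r) =
        ∑ j ∈ Finset.range r, z j ^ (s + 1) • e j := by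
      unfold kd
      refine Finset.sum_congr rfl fun b hb => ?_
      have hb' := Finset.mem_range.1 hb
      simp only [SQB_sum_erase hb', SQB_filter hb']
      rw [smul_comm (z b ^ (1 + s)) ((-1 : ℤ) ^ b), smul_smul, ← mul_pow]
      norm_num [add_comm]
    rw [h1]
    unfold tau
    rw [← he, add_sub_cancel_left]
    exact hp
  · rintro ⟨s, y, hy⟩
    refine ⟨s, ?_⟩
    have e : (∏ b ∈ Finset.range r, z b) ^ s • x =
        kd z (1 + s) y (Finset.range r) +
          (tau z s (fun _ => x) (Finset.range r) - kd z (1 + s) y (Finset.range r)) := by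
      unfold tau
      abel
    rw [e]
    refine Submodule.add_mem _ (Submodule.mem_sup_left ?_) (Submodule.mem_sup_right hy)
    rw [mem_Iz_top]
    refine ⟨fun b => ((-1 : ℤ) ^ ((Finset.range r).filter (· < b)).card) •
      y ((Finset.range r).erase b), ?_⟩
    unfold kd
    refine Finset.sum_congr rfl fun b hb => ?_
    rw [smul_comm, add_comm 1 s]

theorem SQB_top {z : ℕ → A} {q : ℕ} (f : X' →ₗ[A] X) (P' : Submodule A X')
    (P : Submodule A X) (hker : ∃ N, ∀ x', f x' ∈ P → ∀ b < q + 1, z b ^ N • x' ∈ P')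
    (x : X') (hx : ZZ z (q + 1) P (f x)) (h : VV z (q + 1) q (P ⊔ LinearMap.range f)) :
    ZZ z (q + 1) P' x := by
  rw [ZZ_iff] at hx ⊢
  obtain ⟨s₀, y, hy⟩ := hx
  have hB : ∀ B ⊆ Finset.range (q + 1), B.card = q + 1 → B = Finset.range (q + 1) := by
    intro B hB hc
    exact Finset.eq_of_subset_of_card_le hB (by rw [Finset.card_range, hc])
  obtain ⟨s, v, hv⟩ := SQB_zero f P' P hker 1 le_rfl (fun _ => x) s₀ y (fun B h1 h2 => by
    rw [hB B h1 h2]
    exact hy) h
  exact ⟨s, v, hv _ le_rfl (Finset.card_range _)⟩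

end NCG
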