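import Pool.Agent.NCG.CNT
import Pool.Agent.NCG.SQA
import Pool.Agent.NCG.SQB
import Pool.Agent.NCG.KEF

/-!
# INA: vanishing of Koszul cohomology of the modules `⋀^j (A^n) / Pl φ 𝔞 l j`

`INA`.  If `z 0, ..., z (r-1)` is weakly regular on `A ⧸ 𝔞` then `VV z r q (Pl φ 𝔞 l j)` for `l ≤ c`,
`q + j < r`.  Induction on `l`, inside for all `j`, `q` (induction on `j`).
* `l = 0` or `j = 0`: `Pl φ 𝔞 l j = 𝔞 • ⊤` (`Pl_zero`, `Pl_deg_zero`) and `KEF` (`⋀^j (A^n)` is finite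
  free, instances `exteriorPower.instFree`, `exteriorPower.instFinite`).
* `(l+1, j+1)`: `Pl φ 𝔞 (l+1) (j+1) = Pl φ 𝔞 l (j+1) ⊔ range (wedge (φ l) j)` (`Pl_succ`), and `SQA`
  with `f = wedge (φ l) j`, `P' = Pl φ 𝔞 (l+1) j`, `P = Pl φ 𝔞 l (j+1)`: `hf` is `wedge_Pl`, `hker` is
  `CON_unif`, `VV z r (q+1) P'` holds by the induction on `j` (`(q+1) + j < r`), `VV z r q P` by the
  induction on `l`.

`INA_zero` is the case `q = 0`: if `z b ^ t • x ∈ Pl φ 𝔞 l j` for all `b < r`, some `t`, then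
`x ∈ Pl φ 𝔞 l j` (`t ≥ 1` may be assumed; apply `VV z r 0` to the constant cochain; the sets with one
element are `{b}`, `kd_singleton`; `tau_empty`; `kd z _ y ∅ = 0`).

`INB`.  Let `z 0, ..., z (r-1)` be weakly regular on `A`.  Then `VV z r q (Pl φ ⊥ l p)` for `l ≤ c`,
`1 ≤ q < r`, `n + 2 ≤ q + l + p`.
Induction on `l`, inside induction on `n + 1 - p` (i.e. downwards on `p`), for all `q`.
* If `n < p + l`: by `TRS` there is `N` with `z b ^ N • x ∈ Pl φ ⊥ l p` for all `x`; then for `#B = q ≥ 1`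
  one has `tau z N x B ∈ Pl φ ⊥ l p` (`tau_mem_of_mem`), so `s = N`, `y = 0` work (`kd` of the zero
  cochain is zero, `kd_mem` with `W = ⊥`).
* Otherwise `p + l ≤ n`, so `q ≥ 2`.  If `l = 0`: `Pl φ ⊥ 0 p = ⊥ • ⊤` and `KEF` with `𝔞 = ⊥`
  (`A ⧸ ⊥ ≃ A`, `WReg_congr`).
* If `l = l' + 1`: `SQB` with `q = (q - 1) + 1`, `f = wedge (φ l') p`, `P' = Pl φ ⊥ (l'+1) p`,
  `P = Pl φ ⊥ l' (p+1)`, `P ⊔ range f = Pl φ ⊥ (l'+1) (p+1)` (`Pl_succ`): `VV z r q P` by the induction on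
  `l` (`n + 2 ≤ q + l' + (p+1)`), `VV z r (q-1) (Pl φ ⊥ (l'+1) (p+1))` by the induction on `p`
  (`1 ≤ q - 1`, `n + 2 ≤ (q-1) + (l'+1) + (p+1)`).
-/

open scoped BigOperators

namespace NCG

universe u v w

variable {A : Type u} [CommRing A] {n : ℕ} (φ : ℕ → (Fin n → A))

theorem INA {z : ℕ → A} {r c : ℕ} (𝔞 : Ideal A) (hr : WReg z r (A ⧸ 𝔞))
    (hz : ∀ b < r, ∀ l < c, ∃ N, z b ^ N ∈ Hl φ l) (l : ℕ) (hl : l ≤ c) (j q : ℕ)
    (hq : q + j < r) : VV z r q (Pl φ 𝔞 l j) := by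
  induction l generalizing j q with
  | zero =>
    rw [Pl_zero]
    exact KEF 𝔞 hr (by omega) _
  | succ l ihl =>
    induction j generalizing q with
    | zero =>
      rw [Pl_deg_zero]
      exact KEF 𝔞 hr (by omega) _
    | succ j ihj =>
      rw [Pl_succ]
      refine SQA (wedge (φ l) j) (Pl φ 𝔞 (l + 1) j) (Pl φ 𝔞 l (j + 1)) (wedge_Pl φ 𝔞 l j) ?_
        (ihj (q + 1) (by omega)) (ihl (by omega) (j + 1) q (by omega))
      obtain ⟨N, hN⟩ := CON_unif φ 𝔞 (z := z) (r := r) l j (fun b hb => hz b hb l (by omega))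
      exact ⟨N, fun x' hx' b hb => hN x' hx' b hb⟩

theorem INA_zero {z : ℕ → A} {r c : ℕ} (𝔞 : Ideal A) (hr : WReg z r (A ⧸ 𝔞))
    (hz : ∀ b < r, ∀ l < c, ∃ N, z b ^ N ∈ Hl φ l) (j : ℕ) (hj : j < r)
    (x : ⋀[A]^j (Fin n → A)) (t : ℕ) (hx : ∀ b < r, z b ^ t • x ∈ Pl φ 𝔞 c j) :
    x ∈ Pl φ 𝔞 c j := by
  have h := INA φ 𝔞 hr hz c le_rfl j 0 (by omega)
  obtain ⟨s, y, hy⟩ := h (t + 1) (by omega) (fun _ => x) (by
    intro B hB hc
    obtain ⟨b, rfl⟩ := Finset.card_eq_one.1 hc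
    rw [kd_singleton]
    have hb : b < r := Finset.mem_range.1 (hB (Finset.mem_singleton_self b))
    rw [pow_succ', mul_smul]
    exact Submodule.smul_mem _ _ (hx b hb))
  have h1 := hy ∅ (Finset.empty_subset _) rfl
  rw [tau_empty] at h1
  have h2 : kd z (t + 1 + s) y ∅ = 0 := by
    unfold kd
    rw [Finset.sum_empty]
  rwa [h2, sub_zero] at h1

private theorem INA_tors {X : Type v} [AddCommGroup X] [Module A X] {z : ℕ → A} {r q : ℕ}
    {P : Submodule A X} (hq : 1 ≤ q) (N : ℕ) (hN : ∀ b < r, ∀ x : X, z b ^ N • x ∈ P) :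
    VV z r q P := by
  intro t _ x _
  refine ⟨N, fun _ => 0, fun B hB hc => Submodule.sub_mem _ ?_ ?_⟩
  · obtain ⟨b, hb⟩ : B.Nonempty := Finset.card_pos.1 (by omega)
    have hbr : b < r := Finset.mem_range.1 (hB hb)
    unfold tau
    rw [← Finset.mul_prod_erase B z hb, mul_pow, mul_comm, mul_smul]
    exact Submodule.smul_mem _ _ (hN b hbr (x B))
  · exact kd_mem z (t + N) P (fun b _ => Submodule.zero_mem _)

theorem INB {z : ℕ → A} {r c : ℕ} (hr : WReg z r A)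
    (hz : ∀ b < r, ∀ l < c, ∃ N, z b ^ N ∈ Hl φ l) (l : ℕ) (hl : l ≤ c) (p q : ℕ)
    (hq1 : 1 ≤ q) (hq2 : q < r) (h : n + 2 ≤ q + l + p) : VV z r q (Pl φ ⊥ l p) := by
  have hr' : WReg z r (A ⧸ (⊥ : Ideal A)) :=
    WReg_congr (Submodule.quotEquivOfEqBot (⊥ : Submodule A A) rfl).symm hr
  induction l generalizing p q with
  | zero =>
    rw [Pl_zero]
    exact KEF ⊥ hr' hq2 _
  | succ l ihl =>
    induction q generalizing p with
    | zero => omega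
    | succ q ihq =>
      by_cases hn : n < p + (l + 1)
      · obtain ⟨N, hN⟩ := TRS φ ⊥ hz (l + 1) p hl hn
        exact INA_tors hq1 N hN
      · refine SQB (wedge (φ l) p) (Pl φ ⊥ (l + 1) p) (Pl φ ⊥ l (p + 1)) (wedge_Pl φ ⊥ l p) ?_
          (ihl (by omega) (p + 1) (q + 1) (by omega) hq2 (by omega)) ?_
        · obtain ⟨N, hN⟩ := CON_unif φ ⊥ (z := z) (r := r) l p (fun b hb => hz b hb l (by omega))
          exact ⟨N, fun x' hx' b hb => hN x' hx' b hb⟩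
        · rw [← Pl_succ]
          exact ihq (p + 1) (by omega) (by omega) (by omega)

end NCG
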