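import Pool.Agent.NCG.KDef

/-!
# KCH: basic identities of the Koszul differential `kd` and of the transition map `tau`

All statements are finite sum identities.

`kd_kd`: `kd z t (kd z t x) B = ∑_{b ∈ B} ∑_{b' ∈ B.erase b} ± z_b^t z_{b'}^t x((B.erase b).erase b')`,
the terms `(b, b')` and `(b', b)` cancel: for `b' < b` the number of elements of `B` below `b` is
the number of elements of `B.erase b'` below `b` plus one, and the number of elements of `B` below
`b'` equals the number of elements of `B.erase b` below `b'`.  Use `Finset.sum_sigma'` and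
`Finset.sum_involution` (or split into `b' < b` and `b < b'` and use `Finset.sum_comm'`).

`kd_tau`: for `b ∈ B` one has `∏_{B} z = z_b * ∏_{B.erase b} z` (`Finset.mul_prod_erase`).
-/

open scoped BigOperators

namespace NCG

universe u v w

variable {A : Type u} [CommRing A] {X : Type v} [AddCommGroup X] [Module A X]
  {Y : Type w} [AddCommGroup Y] [Module A Y]

private theorem KCH_card_erase_lt {B : Finset ℕ} {b b' : ℕ} (hb' : b' ∈ B) (h : b' < b) :
    (B.filter (· < b)).card = ((B.erase b').filter (· < b)).card + 1 := by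
  rw [Finset.filter_erase, Finset.card_erase_of_mem (Finset.mem_filter.2 ⟨hb', h⟩)]
  have : 0 < (B.filter (· < b)).card := Finset.card_pos.2 ⟨b', Finset.mem_filter.2 ⟨hb', h⟩⟩
  omega

private theorem KCH_card_erase_gt {B : Finset ℕ} {b b' : ℕ} (h : b' < b) :
    ((B.erase b).filter (· < b')).card = (B.filter (· < b')).card := by
  rw [Finset.filter_erase, Finset.erase_eq_of_notMem]
  intro hm
  have := (Finset.mem_filter.1 hm).2
  omega

private theorem KCH_term (z : ℕ → A) (t : ℕ) (x : Finset ℕ → X) (B : Finset ℕ) {b b' : ℕ}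
    (hb : b ∈ B) (hb' : b' ∈ B) (h : b' < b) :
    ((-1 : ℤ) ^ (B.filter (· < b)).card) • (z b ^ t •
      (((-1 : ℤ) ^ ((B.erase b).filter (· < b')).card) • (z b' ^ t • x ((B.erase b).erase b')))) +
    ((-1 : ℤ) ^ (B.filter (· < b')).card) • (z b' ^ t •
      (((-1 : ℤ) ^ ((B.erase b').filter (· < b)).card) • (z b ^ t • x ((B.erase b').erase b)))) =
      0 := by
  rw [KCH_card_erase_lt hb' h, KCH_card_erase_gt h, Finset.erase_right_comm (a := b') (b := b)]
  generalize x ((B.erase b).erase b') = w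
  generalize ((B.erase b').filter (· < b)).card = m
  generalize (B.filter (· < b')).card = n
  rw [smul_comm (z b ^ t) ((-1 : ℤ) ^ n), smul_comm (z b' ^ t) ((-1 : ℤ) ^ m),
    smul_comm (z b' ^ t) (z b ^ t) w]
  generalize z b ^ t • z b' ^ t • w = w'
  rw [smul_smul, smul_smul, ← add_smul, pow_succ]
  convert zero_smul ℤ w' using 2
  ring

theorem kd_kd (z : ℕ → A) (t : ℕ) (x : Finset ℕ → X) (B : Finset ℕ) :
    kd z t (kd z t x) B = 0 := by
  unfold kd
  simp only [Finset.smul_sum]
  rw [Finset.sum_sigma']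
  refine Finset.sum_involution (fun p _ => ⟨p.2, p.1⟩) ?_ ?_ ?_ ?_
  · rintro ⟨b, b'⟩ hp
    simp only [Finset.mem_sigma, Finset.mem_erase] at hp
    obtain ⟨hb, hne, hb'⟩ := hp
    rcases lt_or_gt_of_ne hne with h | h
    · exact KCH_term z t x B hb hb' h
    · rw [add_comm]
      exact KCH_term z t x B hb' hb h
  · rintro ⟨b, b'⟩ hp _ heq
    simp only [Finset.mem_sigma, Finset.mem_erase] at hp
    simp only [Sigma.mk.injEq, heq_eq_eq] at heq
    exact hp.2.1 heq.1
  · rintro ⟨b, b'⟩ hp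
    simp only [Finset.mem_sigma, Finset.mem_erase] at hp ⊢
    exact ⟨hp.2.2, fun h => hp.2.1 h.symm, hp.1⟩
  · rintro ⟨b, b'⟩ hp
    rfl

theorem kd_tau (z : ℕ → A) (t s : ℕ) (x : Finset ℕ → X) (B : Finset ℕ) :
    kd z (t + s) (tau z s x) B = tau z s (kd z t x) B := by
  unfold kd tau
  rw [Finset.smul_sum]
  refine Finset.sum_congr rfl fun b hb => ?_
  rw [smul_comm ((∏ b ∈ B, z b) ^ s), smul_smul, smul_smul, ← Finset.mul_prod_erase B z hb]
  congr 2
  rw [mul_pow]
  ring

theorem kd_add (z : ℕ → A) (t : ℕ) (x y : Finset ℕ → X) (B : Finset ℕ) :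
    kd z t (fun B => x B + y B) B = kd z t x B + kd z t y B := by
  unfold kd
  rw [← Finset.sum_add_distrib]
  exact Finset.sum_congr rfl fun b _ => by rw [smul_add, smul_add]

theorem kd_sub (z : ℕ → A) (t : ℕ) (x y : Finset ℕ → X) (B : Finset ℕ) :
    kd z t (fun B => x B - y B) B = kd z t x B - kd z t y B := by
  unfold kd
  rw [← Finset.sum_sub_distrib]
  exact Finset.sum_congr rfl fun b _ => by rw [smul_sub, smul_sub]

theorem kd_map (z : ℕ → A) (t : ℕ) (f : X →ₗ[A] Y) (x : Finset ℕ → X) (B : Finset ℕ) :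
    kd z t (fun B => f (x B)) B = f (kd z t x B) := by
  unfold kd
  rw [map_sum]
  exact Finset.sum_congr rfl fun b _ => by rw [map_zsmul, map_smul]

theorem kd_congr (z : ℕ → A) (t : ℕ) {x y : Finset ℕ → X} {B : Finset ℕ}
    (h : ∀ b ∈ B, x (B.erase b) = y (B.erase b)) : kd z t x B = kd z t y B := by
  unfold kd
  exact Finset.sum_congr rfl fun b hb => by rw [h b hb]

theorem kd_mem (z : ℕ → A) (t : ℕ) (W : Submodule A X) {x : Finset ℕ → X} {B : Finset ℕ}
    (h : ∀ b ∈ B, x (B.erase b) ∈ W) : kd z t x B ∈ W := by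
  unfold kd
  exact Submodule.sum_mem _ fun b hb => zsmul_mem (W.smul_mem _ (h b hb)) _

theorem kd_pow (z : ℕ → A) (t : ℕ) (x : Finset ℕ → X) (B : Finset ℕ) :
    kd z t x B = kd (fun b => z b ^ t) 1 x B := by
  unfold kd
  simp only [pow_one]

theorem kd_singleton (z : ℕ → A) (t : ℕ) (x : Finset ℕ → X) (b : ℕ) :
    kd z t x {b} = z b ^ t • x ∅ := by
  have h : (({b} : Finset ℕ).filter (· < b)).card = 0 := by
    rw [Finset.card_eq_zero, Finset.filter_eq_empty_iff]
    intro c hc
    rw [Finset.mem_singleton.1 hc]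
    exact lt_irrefl b
  unfold kd
  rw [Finset.sum_singleton, h, pow_zero, one_smul, Finset.erase_singleton]

theorem tau_map (z : ℕ → A) (s : ℕ) (f : X →ₗ[A] Y) (x : Finset ℕ → X) (B : Finset ℕ) :
    tau z s (fun B => f (x B)) B = f (tau z s x B) := by
  unfold tau
  rw [map_smul]

theorem tau_tau (z : ℕ → A) (s s' : ℕ) (x : Finset ℕ → X) (B : Finset ℕ) :
    tau z s (tau z s' x) B = tau z (s' + s) x B := by
  unfold tau
  rw [smul_smul, ← pow_add, add_comm]

theorem tau_sub (z : ℕ → A) (s : ℕ) (x y : Finset ℕ → X) (B : Finset ℕ) :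
    tau z s (fun B => x B - y B) B = tau z s x B - tau z s y B := by
  unfold tau
  rw [smul_sub]

theorem tau_zero (z : ℕ → A) (x : Finset ℕ → X) (B : Finset ℕ) : tau z 0 x B = x B := by
  unfold tau
  rw [pow_zero, one_smul]

theorem tau_empty (z : ℕ → A) (s : ℕ) (x : Finset ℕ → X) : tau z s x ∅ = x ∅ := by
  unfold tau
  rw [Finset.prod_empty, one_pow, one_smul]

theorem tau_mem (z : ℕ → A) (s : ℕ) (W : Submodule A X) {x : Finset ℕ → X} {B : Finset ℕ}
    (h : x B ∈ W) : tau z s x B ∈ W := by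
  unfold tau
  exact W.smul_mem _ h

/-- if `z b ^ s` sends `x B` to `W` for one element `b` of `B`, then `tau z s x B ∈ W` -/
theorem tau_mem_of_mem (z : ℕ → A) (s : ℕ) (W : Submodule A X) {x : Finset ℕ → X} {B : Finset ℕ}
    {b : ℕ} (hb : b ∈ B) (h : z b ^ s • x B ∈ W) : tau z s x B ∈ W := by
  unfold tau
  rw [← Finset.mul_prod_erase B z hb, mul_pow, mul_comm, mul_smul]
  exact W.smul_mem _ h

end NCG
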