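import Mathlib

/-!
# Regular sequences, Koszul cochains, exterior powers: definitions

Sequences of elements are functions `z : ℕ → A`, of which only `z 0, ..., z (r - 1)` are used.
-/

open scoped BigOperators

namespace NCG

universe u v w

variable {A : Type u} [CommRing A]

/-- the ideal generated by `z 0, ..., z (l - 1)` -/
def Iz (z : ℕ → A) (l : ℕ) : Ideal A := Ideal.span (z '' {j | j < l})

/-- `z 0, ..., z (r - 1)` is a weakly regular sequence on `N` -/
def WReg (z : ℕ → A) (r : ℕ) (N : Type v) [AddCommGroup N] [Module A N] : Prop :=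
  ∀ j < r, ∀ x : N, z j • x ∈ Iz z j • (⊤ : Submodule A N) → x ∈ Iz z j • (⊤ : Submodule A N)

section koszul

variable {X : Type v} [AddCommGroup X] [Module A X]

/-- the Koszul differential with respect to `z b ^ t` on cochains indexed by finite sets -/
def kd (z : ℕ → A) (t : ℕ) (x : Finset ℕ → X) (B : Finset ℕ) : X :=
  ∑ b ∈ B, ((-1 : ℤ) ^ (B.filter (· < b)).card) • (z b ^ t • x (B.erase b))

/-- the transition map of Koszul complexes -/
def tau (z : ℕ → A) (s : ℕ) (x : Finset ℕ → X) (B : Finset ℕ) : X :=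
  (∏ b ∈ B, z b) ^ s • x B

/-- the limit over `t` of the degree `q` cohomology of the Koszul complexes of
`z 0 ^ t, ..., z (r - 1) ^ t` with coefficients in `X / P` vanishes -/
def VV (z : ℕ → A) (r q : ℕ) (P : Submodule A X) : Prop :=
  ∀ t, 1 ≤ t → ∀ x : Finset ℕ → X,
    (∀ B ⊆ Finset.range r, B.card = q + 1 → kd z t x B ∈ P) →
    ∃ s, ∃ y : Finset ℕ → X, ∀ B ⊆ Finset.range r, B.card = q →
      tau z s x B - kd z (t + s) y B ∈ P

/-- the class of `x` in the degree `r` limit of Koszul cohomology of `X / P` is zero -/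
def ZZ (z : ℕ → A) (r : ℕ) (P : Submodule A X) (x : X) : Prop :=
  ∃ s, (∏ b ∈ Finset.range r, z b) ^ s • x ∈
    Iz (fun j => z j ^ (s + 1)) r • (⊤ : Submodule A X) ⊔ P

end koszul

section exterior

variable {M : Type v} [AddCommGroup M] [Module A M]

theorem wedge_mem (v : M) (j : ℕ) (x : ⋀[A]^j M) :
    ExteriorAlgebra.ι A v * (x : ExteriorAlgebra A M) ∈ ⋀[A]^(j + 1) M := by
  have h1 : ExteriorAlgebra.ι A v ∈ LinearMap.range (ExteriorAlgebra.ι A (M := M)) := ⟨v, rfl⟩
  have h2 := x.2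
  show _ ∈ (LinearMap.range (ExteriorAlgebra.ι A (M := M))) ^ (j + 1)
  rw [pow_succ']
  exact Submodule.mul_mem_mul h1 h2

/-- left multiplication by a vector, on exterior powers -/
def wedge (v : M) (j : ℕ) : (⋀[A]^j M) →ₗ[A] (⋀[A]^(j + 1) M) where
  toFun x := ⟨ExteriorAlgebra.ι A v * (x : ExteriorAlgebra A M), wedge_mem v j x⟩
  map_add' x y := by
    apply Subtype.ext
    simp [mul_add]
  map_smul' c x := by
    apply Subtype.ext
    simp

theorem contr_mem (h : Module.Dual A M) (j : ℕ) (x : ⋀[A]^(j + 1) M) :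
    CliffordAlgebra.contractLeft h (x : ExteriorAlgebra A M) ∈ ⋀[A]^j M := by
  obtain ⟨x, hx⟩ := x
  simp only
  induction j generalizing x with
  | zero =>
    change x ∈ (LinearMap.range (ExteriorAlgebra.ι A (M := M))) ^ (0 + 1) at hx
    rw [zero_add, pow_one] at hx
    obtain ⟨v, rfl⟩ := hx
    rw [show (⋀[A]^0 M) = (LinearMap.range (ExteriorAlgebra.ι A (M := M))) ^ 0 from rfl, pow_zero]
    have : CliffordAlgebra.contractLeft h (ExteriorAlgebra.ι A v) =
        algebraMap A _ (h v) := CliffordAlgebra.contractLeft_ι _ h v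
    rw [this]
    exact Submodule.mem_one.2 ⟨h v, rfl⟩
  | succ j ih =>
    change x ∈ (LinearMap.range (ExteriorAlgebra.ι A (M := M))) ^ (j + 1 + 1) at hx
    rw [pow_succ'] at hx
    induction hx using Submodule.mul_induction_on' with
    | mem_mul_mem m hm n hn =>
      obtain ⟨v, rfl⟩ := hm
      have : CliffordAlgebra.contractLeft h (ExteriorAlgebra.ι A v * n) =
          h v • n - ExteriorAlgebra.ι A v * (CliffordAlgebra.contractLeft h n) :=
        CliffordAlgebra.contractLeft_ι_mul _ _ _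
      rw [this]
      exact Submodule.sub_mem _ (Submodule.smul_mem _ _ hn)
        (wedge_mem v j ⟨_, ih n hn⟩)
    | add x _ y _ hx hy =>
      rw [map_add]
      exact Submodule.add_mem _ hx hy

/-- contraction with a linear form, on exterior powers -/
def contr (h : Module.Dual A M) (j : ℕ) : (⋀[A]^(j + 1) M) →ₗ[A] (⋀[A]^j M) where
  toFun x := ⟨CliffordAlgebra.contractLeft h (x : ExteriorAlgebra A M), contr_mem h j x⟩
  map_add' x y := by
    apply Subtype.ext
    simp
  map_smul' c x := by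
    apply Subtype.ext
    simp

/-- the submodule `𝔞 ⋀^j + ∑_{l' < l} φ_{l'} ∧ ⋀^{j-1}` of `⋀^j (A^n)` -/
def Pl {n : ℕ} (φ : ℕ → (Fin n → A)) (𝔞 : Ideal A) (l : ℕ) :
    (j : ℕ) → Submodule A (⋀[A]^j (Fin n → A))
  | 0 => 𝔞 • ⊤
  | j + 1 => 𝔞 • ⊤ ⊔ ⨆ l' : {l' : ℕ // l' < l}, LinearMap.range (wedge (φ l'.1) j)

/-- the elements of `A` which are values on `φ l` of linear forms vanishing on
`φ 0, ..., φ (l - 1)` -/
def Hl {n : ℕ} (φ : ℕ → (Fin n → A)) (l : ℕ) : Set A :=
  {a | ∃ h : Module.Dual A (Fin n → A), h (φ l) = a ∧ ∀ l' < l, h (φ l') = 0}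

end exterior

end NCG
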