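import Pool.Agent.NCG.WRB

/-!
# POW: powers of a weakly regular sequence

`WReg z r N → WReg (fun j => z j ^ t) r N`.

Proof (with lists).  By `WReg_iff` it is enough to show: if `rs` is weakly regular on `M`, then so
is `rs.map (· ^ t)`.

(1) If `0 → M' → M → M'' → 0` is exact and `rs` is weakly regular on `M'` and on `M''`, then `rs` is
weakly regular on `M`.  Induction on `rs` with `RingTheory.Sequence.isWeaklyRegular_cons_iff`
(`IsWeaklyRegular M (r :: rs) ↔ IsSMulRegular M r ∧ IsWeaklyRegular (QuotSMulTop r M) rs`):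
`r` is regular on `M` (if `r x = 0` then the image of `x` in `M''` is zero, so `x` comes from `M'`,
so `x = 0`), and `0 → M'/rM' → M/rM → M''/rM'' → 0` is exact (injectivity: if `x' ∈ M'` and
`x' = r x`, then the image of `x` in `M''` is killed by `r`, so it is zero, so `x ∈ M'`).
(2) If `r` is regular on `M` and `rs` is weakly regular on `M/rM`, then `rs` is weakly regular on
`M/r^t M` for all `t`: induction on `t`, by (1) applied to
`0 → M/rM → M/r^{t+1}M → M/r^t M → 0` (the first map is multiplication by `r^t`, which is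
injective because `r` is regular on `M`).
(3) Induction on `rs`: `r^t` is regular on `M`, `rs` is weakly regular on `M/r^t M` by (2), so
`rs.map (· ^ t)` is weakly regular on `M/r^t M` by the induction hypothesis.
(For `t = 0` the statement is trivial; one may also treat it by (2), `M/r^0 M = 0`.)
-/

open scoped BigOperators

namespace NCG

universe u v w

variable {A : Type u} [CommRing A] {N : Type v} [AddCommGroup N] [Module A N]

open RingTheory.Sequence Pointwise in
private theorem pow_exact (rs : List A) : ∀ {M₁ M₂ M₃ : Type v} [AddCommGroup M₁] [AddCommGroup M₂]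
    [AddCommGroup M₃] [Module A M₁] [Module A M₂] [Module A M₃] (f : M₁ →ₗ[A] M₂) (g : M₂ →ₗ[A] M₃),
    Function.Injective f → Function.Exact f g → Function.Surjective g →
    IsWeaklyRegular M₁ rs → IsWeaklyRegular M₃ rs → IsWeaklyRegular M₂ rs := by
  induction rs with
  | nil =>
    intro M₁ M₂ M₃ _ _ _ _ _ _ f g _ _ _ _ _
    exact IsWeaklyRegular.nil A M₂
  | cons r rs ih =>
    intro M₁ M₂ M₃ _ _ _ _ _ _ f g hf hfg hg h1 h3
    rw [isWeaklyRegular_cons_iff] at h1 h3 ⊢
    refine ⟨isSMulRegular_of_range_eq_ker hf hfg.linearMap_ker_eq.symm h1.1 h3.1, ?_⟩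
    refine ih (QuotSMulTop.map r f) (QuotSMulTop.map r g) ?_ (QuotSMulTop.map_exact r hfg hg)
      (QuotSMulTop.map_surjective r hg) h1.2 h3.2
    rw [← LinearMap.ker_eq_bot, LinearMap.ker_eq_bot']
    intro x hx
    obtain ⟨x', rfl⟩ := Submodule.Quotient.mk_surjective _ x
    have h4 : (Submodule.Quotient.mk (f x') : QuotSMulTop r M₂) = 0 := hx
    rw [Submodule.Quotient.mk_eq_zero, Submodule.mem_smul_pointwise_iff_exists] at h4
    obtain ⟨y, _, hy⟩ := h4
    have h5 : g y = 0 := by
      have h6 : r • g y = 0 := by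
        rw [← map_smul, hy]
        exact (hfg _).2 ⟨x', rfl⟩
      exact h3.1.right_eq_zero_of_smul h6
    obtain ⟨y', hy'⟩ := (hfg y).1 h5
    rw [Submodule.Quotient.mk_eq_zero, Submodule.mem_smul_pointwise_iff_exists]
    refine ⟨y', trivial, hf ?_⟩
    rw [map_smul, hy', hy]

open RingTheory.Sequence Pointwise in
private theorem pow_quot (rs : List A) {M : Type v} [AddCommGroup M] [Module A M] (r : A)
    (hr : IsSMulRegular M r) (h : IsWeaklyRegular (QuotSMulTop r M) rs) (t : ℕ) :
    IsWeaklyRegular (QuotSMulTop (r ^ (t + 1)) M) rs := by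
  induction t with
  | zero =>
    have h1 : r ^ (0 + 1) = r := by rw [zero_add, pow_one]
    rw [h1]
    exact h
  | succ t ih =>
    have hle1 : r • (⊤ : Submodule A M) ≤
        (r ^ (t + 1 + 1) • (⊤ : Submodule A M)).comap (LinearMap.lsmul A M (r ^ (t + 1))) := by
      intro x hx
      obtain ⟨y, _, rfl⟩ := (Submodule.mem_smul_pointwise_iff_exists _ _ _).1 hx
      rw [Submodule.mem_comap, Submodule.mem_smul_pointwise_iff_exists]
      refine ⟨y, trivial, ?_⟩
      rw [LinearMap.lsmul_apply, smul_smul, pow_succ r (t + 1)]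
    have hle2 : (r ^ (t + 1 + 1) • (⊤ : Submodule A M)) ≤
        (r ^ (t + 1) • (⊤ : Submodule A M)).comap LinearMap.id := by
      intro x hx
      obtain ⟨y, _, rfl⟩ := (Submodule.mem_smul_pointwise_iff_exists _ _ _).1 hx
      rw [Submodule.mem_comap, Submodule.mem_smul_pointwise_iff_exists]
      refine ⟨r • y, trivial, ?_⟩
      rw [smul_smul, ← pow_succ, LinearMap.id_apply]
    refine pow_exact rs (Submodule.mapQ _ _ _ hle1) (Submodule.mapQ _ _ _ hle2) ?_ ?_ ?_ h ih
    · rw [← LinearMap.ker_eq_bot, LinearMap.ker_eq_bot']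
      intro x hx
      obtain ⟨x', rfl⟩ := Submodule.Quotient.mk_surjective _ x
      rw [Submodule.mapQ_apply, Submodule.Quotient.mk_eq_zero,
        Submodule.mem_smul_pointwise_iff_exists] at hx
      obtain ⟨y, _, hy⟩ := hx
      rw [Submodule.Quotient.mk_eq_zero, Submodule.mem_smul_pointwise_iff_exists]
      refine ⟨y, trivial, (hr.pow (t + 1)) ?_⟩
      show r ^ (t + 1) • r • y = r ^ (t + 1) • x'
      rw [smul_smul, ← pow_succ, hy]
      rfl
    · intro x
      obtain ⟨x', rfl⟩ := Submodule.Quotient.mk_surjective _ x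
      constructor
      · intro hx
        rw [Submodule.mapQ_apply, Submodule.Quotient.mk_eq_zero,
          Submodule.mem_smul_pointwise_iff_exists] at hx
        obtain ⟨y, _, hy⟩ := hx
        refine ⟨Submodule.Quotient.mk y, ?_⟩
        rw [Submodule.mapQ_apply]
        congr 1
      · rintro ⟨y, hy⟩
        obtain ⟨y', rfl⟩ := Submodule.Quotient.mk_surjective _ y
        rw [← hy, Submodule.mapQ_apply, Submodule.mapQ_apply, Submodule.Quotient.mk_eq_zero,
          Submodule.mem_smul_pointwise_iff_exists]
        exact ⟨y', trivial, rfl⟩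
    · intro x
      obtain ⟨x', rfl⟩ := Submodule.Quotient.mk_surjective _ x
      exact ⟨Submodule.Quotient.mk x', rfl⟩

open RingTheory.Sequence Pointwise in
private theorem pow_list (t : ℕ) (rs : List A) : ∀ {M : Type v} [AddCommGroup M] [Module A M],
    IsWeaklyRegular M rs → IsWeaklyRegular M (rs.map (fun a => a ^ (t + 1))) := by
  induction rs with
  | nil =>
    intro M _ _ _
    exact IsWeaklyRegular.nil A M
  | cons r rs ih =>
    intro M _ _ h
    rw [isWeaklyRegular_cons_iff] at h
    rw [List.map_cons, isWeaklyRegular_cons_iff]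
    exact ⟨h.1.pow (t + 1), ih (pow_quot rs r h.1 h.2 t)⟩

theorem WReg_pow {z : ℕ → A} {r : ℕ} (h : WReg z r N) (t : ℕ) :
    WReg (fun j => z j ^ t) r N := by
  cases t with
  | zero =>
    intro j _ x hx
    simpa using hx
  | succ t =>
    rw [WReg_iff] at h ⊢
    have h1 := pow_list t _ h
    rw [List.map_map] at h1
    exact h1

end NCG
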