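import Pool.Agent.NCG.KCH
import Pool.Agent.NCG.POW

/-!
# KEX: the Koszul complex of a weakly regular sequence is exact below the top degree

Step 1 (`KEX_one`, `t = 1`).  Induction on `r`, for all `q < r`.  Let `r = r' + 1` and write `a = z r'`
and let `I = Iz z r'`.  Let `x` satisfy `kd z 1 x B = 0` for all `B ⊆ range (r'+1)`, `#B = q + 1`.
Put `x₁ B = x (B ∪ {r'})` (`= x (insert r' B)`) for `B ⊆ range r'`.
For `B ⊆ range r'` we have:
 (i) if `#B = q + 1` then `kd z 1 x B = 0`;
 (ii) if `#B = q` then, with `B' = insert r' B`,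
   `0 = kd z 1 x B' = kd z 1 x₁ B + (-1)^q • (a • x B)`
   (the term of `b = r'` has the sign `(-1)^{#B}`, and for `b ∈ B` one has
   `B'.erase b = insert r' (B.erase b)` and the number of elements of `B'` below `b` is the number
   of elements of `B` below `b`).

Case `q < r'`.  By (i) and the induction hypothesis there is `y₀` with
`x B = kd z 1 y₀ B` for all `B ⊆ range r'` with `#B = q`.  Then by (ii)
`kd z 1 x₁ B + (-1)^q a • kd z 1 y₀ B = 0`, i.e. `kd z 1 (x₁ + (-1)^q a y₀) B = 0` for all
`B ⊆ range r'`, `#B = q`.  If `q = 0` put `y = y₀` (only `B = ∅` matters, and then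
`x ∅ = kd z 1 y₀ ∅ = 0`).  If `q ≥ 1`, by the induction hypothesis (degree `q - 1 < r'`) there is
`y₁` with `x₁ B + (-1)^q a • y₀ B = kd z 1 y₁ B` for `B ⊆ range r'`, `#B = q - 1`.
Define `y B = y₀ B` for `r' ∉ B` and `y B = y₁ (B.erase r')` for `r' ∈ B`.
Check: for `B ⊆ range r'`, `#B = q`: `kd z 1 y B = kd z 1 y₀ B = x B`.
For `B' = insert r' B`, `B ⊆ range r'`, `#B = q - 1`:
`kd z 1 y B' = kd z 1 y₁ B + (-1)^{q-1} a • y₀ B = x₁ B + (-1)^q a y₀ B + (-1)^{q-1} a y₀ B = x B'`.

Case `q = r'`.  The only `B ⊆ range r'` with `#B = q` is `B = range r'`.  By (ii)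
`a • x (range r') = ± kd z 1 x₁ (range r') ∈ I • ⊤` (by `kd_mem`-like argument: every term is
`z b • _` with `b < r'`), so by weak regularity `x (range r') ∈ I • ⊤`, i.e.
`x (range r') = ∑_{b < r'} z b • e b` (`mem_Iz_top`), which equals `kd z 1 y₀ (range r')` for
`y₀ ((range r').erase b) = (-1)^{b} • e b` (choose `y₀ C = (-1)^b • e b` where `b` is the element of
`range r' \ C`, e.g. `b = ∑ range r' - ∑ C`).  Continue as in the first case (there is no
condition (i)): (ii) gives `kd z 1 (x₁ + (-1)^q a y₀) (range r') = 0`, and the induction hypothesis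
for degree `q - 1 = r' - 1 < r'` gives `y₁`.  (If `r' = 0`, `q = 0`: (ii) says `a • x ∅ = 0`, so
`x ∅ ∈ ⊥`, and `y = 0`.)

Step 2.  For general `t ≥ 1` use `kd_pow` and `WReg_pow`.
-/

open scoped BigOperators

namespace NCG

universe u v w

variable {A : Type u} [CommRing A] {N : Type v} [AddCommGroup N] [Module A N]

/-- the differential at `insert r' B` -/
private theorem KEX_insert (z : ℕ → A) (x : Finset ℕ → N) {r' : ℕ} {B : Finset ℕ}
    (hB : B ⊆ Finset.range r') :
    kd z 1 x (insert r' B) =
      ((-1 : ℤ) ^ B.card) • (z r' • x B) + kd z 1 (fun C => x (insert r' C)) B := by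
  have hn : r' ∉ B := fun h => by
    have := Finset.mem_range.1 (hB h)
    omega
  unfold kd
  rw [Finset.sum_insert hn]
  congr 1
  · have h1 : (insert r' B).filter (· < r') = B := by
      ext c
      simp only [Finset.mem_filter, Finset.mem_insert]
      constructor
      · rintro ⟨h1 | h1, h2⟩
        · omega
        · exact h1
      · intro h
        exact ⟨Or.inr h, Finset.mem_range.1 (hB h)⟩
    rw [h1, Finset.erase_insert hn, pow_one]
  · refine Finset.sum_congr rfl fun b hb => ?_
    have hb' := Finset.mem_range.1 (hB hb)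
    have h1 : (insert r' B).filter (· < b) = B.filter (· < b) := by
      ext c
      simp only [Finset.mem_filter, Finset.mem_insert]
      constructor
      · rintro ⟨h1 | h1, h2⟩
        · omega
        · exact ⟨h1, h2⟩
      · rintro ⟨h1, h2⟩
        exact ⟨Or.inr h1, h2⟩
    have h2 : (insert r' B).erase b = insert r' (B.erase b) := by
      rw [Finset.erase_insert_of_ne (by omega)]
    rw [h1, h2]

/-- the gluing step -/
private theorem KEX_glue {z : ℕ → A} {r' q : ℕ} (x : Finset ℕ → N)
    (hx : ∀ B ⊆ Finset.range (r' + 1), B.card = q + 1 → kd z 1 x B = 0)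
    (hprev : ∀ q' < r', ∀ x : Finset ℕ → N,
      (∀ B ⊆ Finset.range r', B.card = q' + 1 → kd z 1 x B = 0) →
      ∃ y : Finset ℕ → N, ∀ B ⊆ Finset.range r', B.card = q' → x B = kd z 1 y B)
    (hq : q ≤ r') (y₀ : Finset ℕ → N)
    (hy₀ : ∀ B ⊆ Finset.range r', B.card = q → x B = kd z 1 y₀ B) :
    ∃ y : Finset ℕ → N, ∀ B ⊆ Finset.range (r' + 1), B.card = q → x B = kd z 1 y B := by
  have hsub : ∀ {B : Finset ℕ}, B ⊆ Finset.range r' → insert r' B ⊆ Finset.range (r' + 1) := by
    intro B hB c hc
    rcases Finset.mem_insert.1 hc with h | h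
    · rw [h]
      exact Finset.self_mem_range_succ r'
    · exact Finset.mem_range.2 (by
        have := Finset.mem_range.1 (hB h)
        omega)
  have hn : ∀ {B : Finset ℕ}, B ⊆ Finset.range r' → r' ∉ B := fun hB h => by
    have := Finset.mem_range.1 (hB h)
    omega
  have hlow : ∀ {B : Finset ℕ}, B ⊆ Finset.range (r' + 1) → r' ∉ B → B ⊆ Finset.range r' := by
    intro B hB h c hc
    have h1 := Finset.mem_range.1 (hB hc)
    have h2 : c ≠ r' := fun e => h (e ▸ hc)
    exact Finset.mem_range.2 (by omega)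
  cases q with
  | zero =>
    refine ⟨y₀, fun B _ hc => ?_⟩
    rw [Finset.card_eq_zero] at hc
    subst hc
    exact hy₀ ∅ (Finset.empty_subset _) Finset.card_empty
  | succ q =>
    obtain ⟨y₁, hy₁⟩ := hprev q (by omega)
      (fun B => x (insert r' B) + ((-1 : ℤ) ^ (q + 1)) • (z r' • y₀ B)) (by
        intro B hB hc
        have h1 := hx _ (hsub hB) (by rw [Finset.card_insert_of_notMem (hn hB), hc])
        rw [KEX_insert z x hB, hy₀ B hB hc, hc] at h1
        rw [kd_add]
        have h2 : kd z 1 (fun B => ((-1 : ℤ) ^ (q + 1)) • (z r' • y₀ B)) B =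
            ((-1 : ℤ) ^ (q + 1)) • (z r' • kd z 1 y₀ B) := by
          unfold kd
          rw [Finset.smul_sum, Finset.smul_sum]
          refine Finset.sum_congr rfl fun b _ => ?_
          generalize (B.filter (· < b)).card = m
          rw [smul_comm (z b ^ 1) ((-1 : ℤ) ^ (q + 1)), smul_comm (z b ^ 1) (z r'),
            smul_comm ((-1 : ℤ) ^ m) ((-1 : ℤ) ^ (q + 1)), smul_comm ((-1 : ℤ) ^ m) (z r')]
        rw [h2, add_comm]
        exact h1)
    refine ⟨fun B => if r' ∈ B then y₁ (B.erase r') else y₀ B, fun B hB hc => ?_⟩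
    by_cases hr : r' ∈ B
    · set C := B.erase r' with hC
      have hCr : C ⊆ Finset.range r' := hlow ((Finset.erase_subset _ _).trans hB)
        (Finset.notMem_erase _ _)
      have hBC : B = insert r' C := (Finset.insert_erase hr).symm
      have hCc : C.card = q := by
        rw [hC, Finset.card_erase_of_mem hr, hc]
        rfl
      rw [hBC, KEX_insert z _ hCr]
      have h1 := hy₁ C hCr hCc
      simp only [if_neg (hn hCr)]
      have h2 : kd z 1 (fun D => if r' ∈ insert r' D then y₁ ((insert r' D).erase r')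
          else y₀ (insert r' D)) C = kd z 1 y₁ C := by
        refine kd_congr z 1 fun b hb => ?_
        simp only [Finset.mem_insert_self, if_true]
        rw [Finset.erase_insert]
        exact fun h => hn hCr (Finset.mem_of_mem_erase h)
      rw [h2, ← h1, hCc, pow_succ]
      simp
    · have hBr := hlow hB hr
      rw [hy₀ B hBr hc]
      refine kd_congr z 1 fun b hb => ?_
      rw [if_neg fun h => hr (Finset.mem_of_mem_erase h)]

private theorem KEX_sum_erase {r b : ℕ} (hb : b < r) :
    ∑ i ∈ Finset.range r, i - ∑ i ∈ (Finset.range r).erase b, i = b := by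
  have := Finset.add_sum_erase (Finset.range r) (fun i => i) (Finset.mem_range.2 hb)
  omega

private theorem KEX_filter {r b : ℕ} (hb : b < r) :
    ((Finset.range r).filter (· < b)).card = b := by
  have : (Finset.range r).filter (· < b) = Finset.range b := by
    ext c
    simp only [Finset.mem_filter, Finset.mem_range]
    omega
  rw [this, Finset.card_range]

private theorem KEX_top {z : ℕ → A} {r : ℕ} {u : N} (hu : u ∈ Iz z r • (⊤ : Submodule A N)) :
    ∃ y : Finset ℕ → N, u = kd z 1 y (Finset.range r) := by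
  obtain ⟨e, rfl⟩ := (mem_Iz_top _ _ _).1 hu
  refine ⟨fun C => ((-1 : ℤ) ^ (∑ i ∈ Finset.range r, i - ∑ i ∈ C, i)) •
      e (∑ i ∈ Finset.range r, i - ∑ i ∈ C, i), ?_⟩
  unfold kd
  refine Finset.sum_congr rfl fun b hb => ?_
  have hb' := Finset.mem_range.1 hb
  simp only [KEX_sum_erase hb', KEX_filter hb', pow_one]
  rw [smul_comm (z b) ((-1 : ℤ) ^ b), smul_smul, ← mul_pow]
  norm_num

theorem KEX_one {z : ℕ → A} {r q : ℕ} (h : WReg z r N) (hq : q < r) (x : Finset ℕ → N)
    (hx : ∀ B ⊆ Finset.range r, B.card = q + 1 → kd z 1 x B = 0) :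
    ∃ y : Finset ℕ → N, ∀ B ⊆ Finset.range r, B.card = q → x B = kd z 1 y B := by
  induction r generalizing q x with
  | zero => omega
  | succ r' ih =>
    have hprev : ∀ q' < r', ∀ x : Finset ℕ → N,
        (∀ B ⊆ Finset.range r', B.card = q' + 1 → kd z 1 x B = 0) →
        ∃ y : Finset ℕ → N, ∀ B ⊆ Finset.range r', B.card = q' → x B = kd z 1 y B :=
      fun q' hq' x hx => ih (h.mono (Nat.le_succ r')) hq' x hx
    have hrange : Finset.range r' ⊆ Finset.range (r' + 1) :=
      Finset.range_mono (Nat.le_succ r')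
    rcases Nat.lt_or_ge q r' with hlt | hge
    · obtain ⟨y₀, hy₀⟩ := hprev q hlt x (fun B hB hc => hx B (hB.trans hrange) hc)
      exact KEX_glue x hx hprev hlt.le y₀ hy₀
    · have hqr : q = r' := by omega
      subst hqr
      have h1 := hx (insert q (Finset.range q)) (by
        rw [Finset.range_add_one]) (by
        rw [Finset.card_insert_of_notMem Finset.notMem_range_self, Finset.card_range])
      rw [KEX_insert z x le_rfl, Finset.card_range] at h1
      have h2 : z q • x (Finset.range q) ∈ Iz z q • (⊤ : Submodule A N) := by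
        have h3 : kd z 1 (fun C => x (insert q C)) (Finset.range q) ∈
            Iz z q • (⊤ : Submodule A N) := by
          unfold kd
          refine Submodule.sum_mem _ fun b hb => zsmul_mem ?_ _
          rw [pow_one]
          exact Submodule.smul_mem_smul (Iz_self z (Finset.mem_range.1 hb)) trivial
        have h4 : ((-1 : ℤ) ^ q) • (z q • x (Finset.range q)) ∈
            Iz z q • (⊤ : Submodule A N) := by
          rw [eq_neg_of_add_eq_zero_left h1]
          exact Submodule.neg_mem _ h3
        have h5 := zsmul_mem h4 ((-1 : ℤ) ^ q)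
        rw [smul_smul, ← mul_pow] at h5
        norm_num at h5
        exact h5
      obtain ⟨y₀, hy₀⟩ := KEX_top (h q (Nat.lt_succ_self q) _ h2)
      refine KEX_glue x hx hprev le_rfl y₀ fun B hB hc => ?_
      have : B = Finset.range q :=
        Finset.eq_of_subset_of_card_le hB (by rw [Finset.card_range, hc])
      rw [this]
      exact hy₀

theorem KEX {z : ℕ → A} {r q : ℕ} (h : WReg z r N) (hq : q < r) (t : ℕ) (x : Finset ℕ → N)
    (hx : ∀ B ⊆ Finset.range r, B.card = q + 1 → kd z t x B = 0) :
    ∃ y : Finset ℕ → N, ∀ B ⊆ Finset.range r, B.card = q → x B = kd z t y B := by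
  obtain ⟨y, hy⟩ := KEX_one (WReg_pow h t) hq x (fun B hB hc => by
    rw [← kd_pow]
    exact hx B hB hc)
  exact ⟨y, fun B hB hc => by rw [hy B hB hc, ← kd_pow]⟩

end NCG
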