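import Mathlib

/-!
# MDA: a trace identity in a noncommutative ring

`R` a ring, `Tr : R →+ L` additive, `T, X, a, u, v, p, q ∈ R` (think: `T = Θ`, `X` odd, `a, u, v` the images
of elements of a commutative ring, `p = P(u)`, `q = P(v)`) with
`T X = X T`, `X a = a X`, `u, v, a` commute with each other,
`T u - u T = X p + p X`, `T v - v T = X q + q X`,
`Tr (Z v) = Tr (v Z)` for all `Z`, and `Tr (Y X) = Tr (X Y)` for `Y = a T^s p T^s' q T^r` (all `s, s', r`).
Then for every `n`
`∑_{r ≤ n} ( Tr (a T^r (p v + u q) T^(n-r)) - Tr (a u T^r q T^(n-r)) - Tr (a v T^r p T^(n-r)) ) = 0`.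

Proof.  `Tr (a v T^r p T^(n-r)) = Tr (v a T^r p T^(n-r)) = Tr (a T^r p T^(n-r) v)`.  So the sum is
`∑_r Tr (a [T^r, u] q T^(n-r)) + ∑_r Tr (a T^r p [v, T^(n-r)])`.
`[T^r, u] = ∑_{s + s' = r - 1} T^s (X p + p X) T^s'` and `[v, T^m] = - ∑_{s + s' = m - 1} T^s (X q + q X) T^s'`
(induction).  So the sum is
`∑_{s+s'+r = n-1} [ Tr (a T^s X p T^s' q T^r) + Tr (a T^s p X T^s' q T^r)
                    - Tr (a T^s p T^s' X q T^r) - Tr (a T^s p T^s' q X T^r) ]`.
Since `X` commutes with `T`, the second and the third term cancel, the first is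
`Tr (X a T^s p T^s' q T^r)`, and the fourth is `Tr (a T^s p T^s' q T^r X)`; they cancel by the assumption
on `Tr (Y X)`.
(Use `Finset.sum` over `Finset.antidiagonal`s or `Finset.range` as convenient.)
-/

open scoped BigOperators

namespace NCG

private theorem MDA_comm {R : Type*} [Ring R] (T u D : R) (h : T * u - u * T = D) (r : ℕ) :
    T ^ r * u - u * T ^ r = ∑ s ∈ Finset.range r, T ^ s * D * T ^ (r - 1 - s) := by
  induction r with
  | zero => simp
  | succ r ih =>
    rw [Finset.sum_range_succ']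
    have e : ∀ s ∈ Finset.range r, T ^ (s + 1) * D * T ^ (r + 1 - 1 - (s + 1)) =
        T * (T ^ s * D * T ^ (r - 1 - s)) := by
      intro s hs
      have : r + 1 - 1 - (s + 1) = r - 1 - s := by omega
      rw [this, pow_succ']
      simp only [mul_assoc]
    rw [Finset.sum_congr rfl e, ← Finset.mul_sum, ← ih, ← h]
    simp only [pow_zero, one_mul, Nat.add_sub_cancel, Nat.sub_zero, pow_succ']
    noncomm_ring

private theorem MDA_sum {L : Type*} [AddCommGroup L] (H : ℕ → ℕ → ℕ → L) (n : ℕ) :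
    ∑ r ∈ Finset.range (n + 1), ∑ s ∈ Finset.range r, H s (r - 1 - s) (n - r) =
      ∑ r ∈ Finset.range (n + 1), ∑ s ∈ Finset.range (n - r), H r s (n - r - 1 - s) := by
  rw [Finset.sum_sigma', Finset.sum_sigma']
  refine Finset.sum_bij' (fun x _ => ⟨x.2, x.1 - 1 - x.2⟩) (fun x _ => ⟨x.1 + x.2 + 1, x.1⟩)
    ?_ ?_ ?_ ?_ ?_
  · rintro ⟨r, s⟩ hx
    simp only [Finset.mem_sigma, Finset.mem_range] at hx ⊢
    omega
  · rintro ⟨r, s⟩ hx
    simp only [Finset.mem_sigma, Finset.mem_range] at hx ⊢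
    omega
  · rintro ⟨r, s⟩ hx
    simp only [Finset.mem_sigma, Finset.mem_range] at hx ⊢
    have : s + (r - 1 - s) + 1 = r := by omega
    rw [this]
  · rintro ⟨r, s⟩ hx
    simp only [Finset.mem_sigma, Finset.mem_range] at hx ⊢
    have : r + s + 1 - 1 - r = s := by omega
    rw [this]
  · rintro ⟨r, s⟩ hx
    simp only [Finset.mem_sigma, Finset.mem_range] at hx ⊢
    have : n - s - 1 - (r - 1 - s) = n - r := by omega
    rw [this]

theorem MDA {R L : Type*} [Ring R] [AddCommGroup L] (Tr : R →+ L) (T X a u v p q : R)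
    (hTX : T * X = X * T) (hXa : X * a = a * X)
    (hau : a * u = u * a) (hav : a * v = v * a) (huv : u * v = v * u)
    (hu : T * u - u * T = X * p + p * X) (hv : T * v - v * T = X * q + q * X)
    (h1 : ∀ Z, Tr (Z * v) = Tr (v * Z))
    (h2 : ∀ s s' r : ℕ, Tr ((a * T ^ s * p * T ^ s' * q * T ^ r) * X) =
      Tr (X * (a * T ^ s * p * T ^ s' * q * T ^ r))) (n : ℕ) :
    ∑ r ∈ Finset.range (n + 1),
      (Tr (a * T ^ r * (p * v + u * q) * T ^ (n - r)) - Tr (a * u * T ^ r * q * T ^ (n - r)) -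
        Tr (a * v * T ^ r * p * T ^ (n - r))) = 0 := by
  have hXT : ∀ m, X * T ^ m = T ^ m * X := by
    intro m
    exact ((show Commute X T from hTX.symm).pow_right m).eq
  set D := X * p + p * X with hD
  set D' := X * q + q * X with hD'
  have hu' := MDA_comm T u D hu
  have hv' := MDA_comm T v D' hv
  set H : ℕ → ℕ → ℕ → L := fun s s' t =>
    Tr (X * (a * T ^ s * p * T ^ s' * q * T ^ t)) + Tr (a * T ^ s * p * (X * T ^ s') * q * T ^ t)
    with hH
  have key : ∀ r ∈ Finset.range (n + 1),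
      (Tr (a * T ^ r * (p * v + u * q) * T ^ (n - r)) - Tr (a * u * T ^ r * q * T ^ (n - r)) -
        Tr (a * v * T ^ r * p * T ^ (n - r))) =
      (∑ s ∈ Finset.range r, H s (r - 1 - s) (n - r)) -
        ∑ s ∈ Finset.range (n - r), H r s (n - r - 1 - s) := by
    intro r _
    have e1 : Tr (a * v * T ^ r * p * T ^ (n - r)) = Tr (a * T ^ r * p * T ^ (n - r) * v) := by
      rw [h1, hav]
      simp only [mul_assoc]
    have e2 : Tr (a * T ^ r * (p * v + u * q) * T ^ (n - r)) -
        Tr (a * u * T ^ r * q * T ^ (n - r)) - Tr (a * T ^ r * p * T ^ (n - r) * v) =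
        Tr (a * (T ^ r * u - u * T ^ r) * q * T ^ (n - r)) -
        Tr (a * T ^ r * p * (T ^ (n - r) * v - v * T ^ (n - r))) := by
      rw [← map_sub, ← map_sub, ← map_sub]
      congr 1
      noncomm_ring
    rw [e1, e2, hu', hv']
    congr 1
    · rw [Finset.mul_sum, Finset.sum_mul, Finset.sum_mul, map_sum]
      refine Finset.sum_congr rfl fun s _ => ?_
      simp only [hH]
      rw [← map_add]
      congr 1
      rw [hD]
      have e3 : X * (a * T ^ s * p * T ^ (r - 1 - s) * q * T ^ (n - r)) =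
          a * T ^ s * (X * p) * T ^ (r - 1 - s) * q * T ^ (n - r) := by
        calc X * (a * T ^ s * p * T ^ (r - 1 - s) * q * T ^ (n - r)) =
            X * a * T ^ s * p * T ^ (r - 1 - s) * q * T ^ (n - r) := by simp only [mul_assoc]
          _ = a * (X * T ^ s) * p * T ^ (r - 1 - s) * q * T ^ (n - r) := by
              rw [hXa]; simp only [mul_assoc]
          _ = _ := by rw [hXT]; simp only [mul_assoc]
      rw [e3]
      simp only [mul_add, add_mul, mul_assoc]
    · rw [Finset.mul_sum, map_sum]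
      refine Finset.sum_congr rfl fun s _ => ?_
      simp only [hH]
      rw [← h2, ← map_add]
      congr 1
      rw [hD', hXT]
      have e3 : (a * T ^ r * p * T ^ s * q * T ^ (n - r - 1 - s)) * X =
          a * T ^ r * p * T ^ s * q * X * T ^ (n - r - 1 - s) := by
        rw [mul_assoc, ← hXT, ← mul_assoc]
      rw [e3]
      simp only [mul_add, add_mul, mul_assoc]
      rw [add_comm]
  rw [Finset.sum_congr rfl key, Finset.sum_sub_distrib, MDA_sum H n, sub_self]

end NCG
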