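import Mathlib

/-!
# MLL: lifting multiderivations to multilinear maps on differentials

`UnivDer k A Ω d 𝔪`: `Ω` is spanned by the `d x`, and every `k`-derivation of `A` into an `A`-module killed
by a power of `𝔪` factors through `d`.

`MLL`.  Let `V` be an `A`-module killed by a power of `𝔪`, `P : (Fin i → A) → V` a map which is a
`k`-derivation in every variable.  Then there is an `A`-multilinear `M : Ω^i → V` with `M (d ∘ x) = P x`.
Proof by induction on `i` (all `V`).  `i = 0`: the constant map (`MultilinearMap.constOfIsEmpty`).
`i + 1`: for `x₀ : A` the map `P (Fin.cons x₀ ·)` is a multiderivation, so it is given by a multilinear map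
`M_{x₀} : Ω^i → V`, unique since the `d x` span `Ω` (a multilinear map which vanishes on all tuples
`d ∘ x` is zero: private lemma, by induction on the number of variables replaced, or
`MultilinearMap`-currying and `LinearMap.ext_on`/`Submodule.span_induction`).  By uniqueness
`x₀ ↦ M_{x₀}` is a `k`-derivation of `A` into the `A`-module `V' = MultilinearMap A (fun _ : Fin i => Ω) V`,
which is killed by the same power of `𝔪`; so it is `L ∘ d` for an `A`-linear `L : Ω → V'`, and
`M = L.uncurryLeft` satisfies `M (d ∘ x) = L (d (x 0)) (d ∘ tail x) = P x`.
(`V'` lives in the same universe.)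

`MLL_alt`: if moreover `P x = 0` whenever `x j = x l` for some `j ≠ l`, then `M` is alternating and hence
there is an `A`-linear `F : ExteriorAlgebra A Ω → V` with `F (ι (d (x 0)) ⋯ ι (d (x (i-1)))) = P x`:
`M` is alternating: for `j ≠ l` the bilinear form in the variables `j`, `l` obtained by fixing the other
variables `ω` satisfies `B(ω,ω) = 0` for `ω = d x` and `B(d x, d y) + B(d y, d x) = B(d(x+y), d(x+y)) = 0`, so
`B(ω, ω) = 0` for `ω` in the span of the `d x` (`ω = ∑ a_s d x_s`), first for the other variables of the
form `d x`, then in general by multilinearity.  Alternatively prove directly by the same induction that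
the lift is alternating.  Then `F = ExteriorAlgebra.liftAlternating` of the family which is `M` in degree
`i` and zero in the other degrees (`ExteriorAlgebra.liftAlternating_apply_ιMulti`).
-/

open scoped BigOperators

namespace NCG

universe u

/-- `d : A → Ω` is a universal derivation for modules killed by a power of `𝔪` -/
structure UnivDer (k A Ω : Type u) [Field k] [CommRing A] [Algebra k A] [AddCommGroup Ω]
    [Module k Ω] [Module A Ω] [IsScalarTower k A Ω] (d : Derivation k A Ω) (𝔪 : Ideal A) :
    Prop where
  span : Submodule.span A (Set.range d) = ⊤
  lift : ∀ (V : Type u) [AddCommGroup V] [Module k V] [Module A V] [IsScalarTower k A V],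
    (∃ N, ∀ a ∈ 𝔪 ^ N, ∀ v : V, a • v = 0) → ∀ δ : Derivation k A V,
      ∃ L : Ω →ₗ[A] V, ∀ x, L (d x) = δ x

section

variable {k A Ω : Type u} [Field k] [CommRing A] [Algebra k A] [AddCommGroup Ω]
  [Module k Ω] [Module A Ω] [IsScalarTower k A Ω] {d : Derivation k A Ω} {𝔪 : Ideal A}
  {V : Type u} [AddCommGroup V] [Module k V] [Module A V] [IsScalarTower k A V]

omit [IsScalarTower k A Ω] [IsScalarTower k A V] [Module k V] in
private theorem MLL_zero (U : Submodule.span A (Set.range d) = ⊤) (i : ℕ)
    (M : MultilinearMap A (fun _ : Fin i => Ω) V) (h : ∀ x : Fin i → A, M (fun j => d (x j)) = 0) :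
    M = 0 := by
  induction i with
  | zero =>
    ext m
    rw [Subsingleton.elim m (fun j => d ((fun _ => 0 : Fin 0 → A) j)), h]
    rfl
  | succ i ih =>
    have h1 : M.curryLeft = 0 := by
      apply LinearMap.ext_on_range (v := d) U
      intro a
      apply ih
      intro x
      rw [MultilinearMap.curryLeft_apply, ← h (Fin.cons a x)]
      congr 1
      funext j
      refine Fin.cases ?_ (fun j => ?_) j
      · rfl
      · rfl
    ext m
    have h2 : M.curryLeft (m 0) (Fin.tail m) = M m := by
      rw [MultilinearMap.curryLeft_apply, Fin.cons_self_tail]
    rw [← h2, h1]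
    rfl

omit [IsScalarTower k A Ω] [IsScalarTower k A V] [Module k V] in
private theorem MLL_eq (U : Submodule.span A (Set.range d) = ⊤) (i : ℕ)
    (M M' : MultilinearMap A (fun _ : Fin i => Ω) V)
    (h : ∀ x : Fin i → A, M (fun j => d (x j)) = M' (fun j => d (x j))) :
    M = M' := by
  have h1 := MLL_zero (d := d) U i (M - M') (fun x => by
    rw [sub_apply, h x, sub_self])
  exact sub_eq_zero.1 h1

theorem MLL (U : UnivDer k A Ω d 𝔪) (hV : ∃ N, ∀ a ∈ 𝔪 ^ N, ∀ v : V, a • v = 0) (i : ℕ)
    (P : (Fin i → A) → V)
    (hadd : ∀ x j u v, P (Function.update x j (u + v)) =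
      P (Function.update x j u) + P (Function.update x j v))
    (hsmul : ∀ x j (c : k) u, P (Function.update x j (c • u)) = c • P (Function.update x j u))
    (hmul : ∀ x j u v, P (Function.update x j (u * v)) =
      u • P (Function.update x j v) + v • P (Function.update x j u)) :
    ∃ M : MultilinearMap A (fun _ : Fin i => Ω) V, ∀ x : Fin i → A,
      M (fun j => d (x j)) = P x := by
  induction i with
  | zero =>
    refine ⟨MultilinearMap.constOfIsEmpty A (fun _ : Fin 0 => Ω) (P Fin.elim0), ?_⟩
    intro x
    rw [Subsingleton.elim x Fin.elim0]
    rfl
  | succ i ih =>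
    have hcu : ∀ (x₀ : A) (x : Fin i → A) (j : Fin i) (u : A),
        (Fin.cons x₀ (Function.update x j u) : Fin (i + 1) → A) =
        Function.update (Fin.cons x₀ x : Fin (i + 1) → A) j.succ u :=
      fun x₀ x j u => Fin.cons_update (α := fun _ : Fin (i + 1) => A) x₀ x j u
    have hex : ∀ x₀ : A, ∃ M : MultilinearMap A (fun _ : Fin i => Ω) V, ∀ x : Fin i → A,
        M (fun j => d (x j)) = P (Fin.cons x₀ x) := by
      intro x₀
      refine ih (fun x => P (Fin.cons x₀ x)) ?_ ?_ ?_
      · intro x j u v
        simp only [hcu]
        exact hadd _ _ _ _
      · intro x j c u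
        simp only [hcu]
        exact hsmul _ _ _ _
      · intro x j u v
        simp only [hcu]
        exact hmul _ _ _ _
    choose F hF using hex
    have h0 : ∀ (x₀ : A) (x : Fin i → A), (Fin.cons x₀ x : Fin (i + 1) → A) =
        Function.update (Fin.cons 0 x : Fin (i + 1) → A) 0 x₀ :=
      fun x₀ x => (Fin.update_cons_zero (α := fun _ : Fin (i + 1) => A) 0 x x₀).symm
    have hFadd : ∀ a b, F (a + b) = F a + F b := by
      intro a b
      apply MLL_eq (d := d) U.span
      intro x
      rw [add_apply, hF, hF, hF, h0 (a + b) x, h0 a x, h0 b x]
      exact hadd _ _ _ _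
    have hT : IsScalarTower k A (MultilinearMap A (fun _ : Fin i => Ω) V) :=
      ⟨fun c a M => by
        ext m
        rw [smul_apply, smul_apply, smul_apply, smul_assoc]⟩
    have hFsmul : ∀ (c : k) a, F (c • a) = c • F a := by
      intro c a
      apply MLL_eq (d := d) U.span
      intro x
      rw [smul_apply, hF, hF, h0 (c • a) x, h0 a x]
      exact hsmul _ _ _ _
    have hFmul : ∀ a b, F (a * b) = a • F b + b • F a := by
      intro a b
      apply MLL_eq (d := d) U.span
      intro x
      rw [add_apply, smul_apply, smul_apply, hF, hF, hF, h0 (a * b) x, h0 a x, h0 b x]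
      exact hmul _ _ _ _
    let δ₀ : A →ₗ[k] (MultilinearMap A (fun _ : Fin i => Ω) V) :=
      { toFun := F
        map_add' := hFadd
        map_smul' := hFsmul }
    let δ : Derivation k A (MultilinearMap A (fun _ : Fin i => Ω) V) :=
      Derivation.mk' δ₀ hFmul
    have hV' : ∃ N, ∀ a ∈ 𝔪 ^ N, ∀ v : MultilinearMap A (fun _ : Fin i => Ω) V, a • v = 0 := by
      obtain ⟨N, hN⟩ := hV
      refine ⟨N, ?_⟩
      intro a ha v
      ext m
      rw [smul_apply, hN a ha]
      rfl
    obtain ⟨L, hL⟩ := U.lift (MultilinearMap A (fun _ : Fin i => Ω) V) hV' δ
    refine ⟨L.uncurryLeft, ?_⟩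
    intro x
    rw [LinearMap.uncurryLeft_apply, hL]
    have h1 : (δ (x 0)) (Fin.tail fun j => d (x j)) = P (Fin.cons (x 0) (Fin.tail x)) :=
      hF (x 0) (Fin.tail x)
    rw [h1, Fin.cons_self_tail]

omit [IsScalarTower k A Ω] [IsScalarTower k A V] [Module k V] in
private theorem MLL_span (U : Submodule.span A (Set.range d) = ⊤) {i : ℕ}
    (M : MultilinearMap A (fun _ : Fin i => Ω) V) (T : Finset (Fin i)) :
    ∀ ω₀ : Fin i → Ω, (∀ ω : Fin i → Ω, (∀ t, t ∉ T → ω t = ω₀ t) →
      (∀ t ∈ T, ω t ∈ Set.range d) → M ω = 0) →
    ∀ ω : Fin i → Ω, (∀ t, t ∉ T → ω t = ω₀ t) → M ω = 0 := by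
  induction T using Finset.induction_on with
  | empty =>
    intro ω₀ h ω hω
    exact h ω hω (fun t ht => absurd ht (Finset.notMem_empty t))
  | insert t T ht ih =>
    intro ω₀ h ω hω
    have key : ∀ a ∈ Submodule.span A (Set.range d), M (Function.update ω t a) = 0 := by
      intro a ha
      induction ha using Submodule.span_induction with
      | mem a ha =>
        apply ih (Function.update ω t a)
        · intro ω' h1 h2
          apply h ω'
          · intro t' ht'
            rw [Finset.mem_insert, not_or] at ht'
            rw [h1 t' ht'.2, Function.update_of_ne ht'.1]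
            exact hω t' (by rw [Finset.mem_insert, not_or]; exact ht')
          · intro t' ht'
            rcases Finset.mem_insert.1 ht' with h3 | h3
            · subst h3
              rw [h1 _ ht, Function.update_self]
              exact ha
            · exact h2 t' h3
        · intro t' _
          rfl
      | zero => exact M.map_update_zero ω t
      | add a b _ _ ha hb => rw [M.map_update_add, ha, hb, add_zero]
      | smul c a _ ha => rw [M.map_update_smul, ha, smul_zero]
    have h1 := key (ω t) (by rw [U]; exact Submodule.mem_top)
    rw [Function.update_eq_self] at h1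
    exact h1

theorem MLL_alt (U : UnivDer k A Ω d 𝔪) (hV : ∃ N, ∀ a ∈ 𝔪 ^ N, ∀ v : V, a • v = 0) (i : ℕ)
    (P : (Fin i → A) → V)
    (hadd : ∀ x j u v, P (Function.update x j (u + v)) =
      P (Function.update x j u) + P (Function.update x j v))
    (hsmul : ∀ x j (c : k) u, P (Function.update x j (c • u)) = c • P (Function.update x j u))
    (hmul : ∀ x j u v, P (Function.update x j (u * v)) =
      u • P (Function.update x j v) + v • P (Function.update x j u))
    (halt : ∀ x j l, j ≠ l → x j = x l → P x = 0) :
    ∃ F : ExteriorAlgebra A Ω →ₗ[A] V, ∀ x : Fin i → A,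
      F (List.ofFn fun j => ExteriorAlgebra.ι A (d (x j))).prod = P x := by
  obtain ⟨M, hM⟩ := MLL U hV i P hadd hsmul hmul
  -- antisymmetry of `P`
  have hPsw : ∀ (x : Fin i → A) (j l : Fin i), j ≠ l →
      P (fun t => x (Equiv.swap j l t)) + P x = 0 := by
    intro x j l hjl
    have hU : ∀ u v : A, P (Function.update (Function.update x j u) l v) +
        P (Function.update (Function.update x j v) l u) = 0 := by
      intro u v
      have e : ∀ w : A, P (Function.update (Function.update x j w) l w) = 0 := by
        intro w
        apply halt _ j l hjl
        rw [Function.update_self, Function.update_of_ne hjl, Function.update_self]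
      have e1 := e (u + v)
      have e2 : ∀ w : A, P (Function.update (Function.update x j (u + v)) l w) =
          P (Function.update (Function.update x j u) l w) +
            P (Function.update (Function.update x j v) l w) := by
        intro w
        rw [Function.update_comm hjl, hadd, Function.update_comm hjl.symm,
          Function.update_comm hjl.symm]
      rw [hadd, e2, e2, e, e, zero_add, add_zero] at e1
      rw [add_comm]
      exact e1
    have h1 : x = Function.update (Function.update x j (x j)) l (x l) := by
      rw [Function.update_eq_self, Function.update_eq_self]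
    have h2 : (fun t => x (Equiv.swap j l t)) =
        Function.update (Function.update x j (x l)) l (x j) := by
      funext t
      by_cases htl : t = l
      · subst htl
        rw [Function.update_self, Equiv.swap_apply_right]
      · rw [Function.update_of_ne htl]
        by_cases htj : t = j
        · subst htj
          rw [Function.update_self, Equiv.swap_apply_left]
        · rw [Function.update_of_ne htj, Equiv.swap_apply_of_ne_of_ne htj htl]
    have h3 := hU (x l) (x j)
    rw [← h2] at h3
    rw [← h1] at h3
    exact h3
  have hMsw : ∀ (ω : Fin i → Ω) (j l : Fin i), j ≠ l →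
      M (fun t => ω (Equiv.swap j l t)) + M ω = 0 := by
    intro ω j l hjl
    have h1 := MLL_zero (d := d) U.span i
      (M.domDomCongr (Equiv.swap j l) + M) (fun x => by
        rw [add_apply, MultilinearMap.domDomCongr_apply]
        have h2 : M (fun t => d (x (Equiv.swap j l t))) = P (fun t => x (Equiv.swap j l t)) :=
          hM (fun t => x (Equiv.swap j l t))
        rw [h2, hM, hPsw x j l hjl])
    have h2 : (M.domDomCongr (Equiv.swap j l) + M) ω = 0 := by
      rw [h1]
      rfl
    rw [add_apply, MultilinearMap.domDomCongr_apply] at h2
    exact h2
  have hMalt : ∀ (ω : Fin i → Ω) (j l : Fin i), ω j = ω l → j ≠ l → M ω = 0 := by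
    intro ω j l hω hjl
    have key : ∀ a ∈ Submodule.span A (Set.range d),
        M (Function.update (Function.update ω j a) l a) = 0 := by
      intro a ha
      induction ha using Submodule.span_induction with
      | mem a ha =>
        obtain ⟨y, rfl⟩ := ha
        apply MLL_span (d := d) U.span M (Finset.univ \ {j, l})
          (Function.update (Function.update ω j (d y)) l (d y))
        · intro ω' h1 h2
          have hj : ω' j = d y := by
            rw [h1 j (by simp), Function.update_of_ne hjl, Function.update_self]
          have hl : ω' l = d y := by
            rw [h1 l (by simp), Function.update_self]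
          have hall : ∀ t, ∃ x : A, d x = ω' t := by
            intro t
            by_cases ht : t ∈ Finset.univ \ {j, l}
            · exact h2 t ht
            · have ht' : t = j ∨ t = l := by
                by_contra hc
                apply ht
                simp [not_or.1 hc]
              rcases ht' with h3 | h3
              · exact ⟨y, by rw [h3, hj]⟩
              · exact ⟨y, by rw [h3, hl]⟩
          choose x hx using hall
          set x' : Fin i → A := Function.update (Function.update x j y) l y with hx'
          have h4 : ω' = fun t => d (x' t) := by
            funext t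
            rw [hx']
            by_cases htl : t = l
            · subst htl
              rw [Function.update_self, hl]
            · rw [Function.update_of_ne htl]
              by_cases htj : t = j
              · subst htj
                rw [Function.update_self, hj]
              · rw [Function.update_of_ne htj, hx]
          rw [h4, hM]
          apply halt _ j l hjl
          rw [hx', Function.update_self, Function.update_of_ne hjl, Function.update_self]
        · intro t _
          rfl
      | zero => exact M.map_update_zero _ l
      | add a b _ _ ha hb =>
        have e2 : ∀ w : Ω, M (Function.update (Function.update ω j (a + b)) l w) =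
            M (Function.update (Function.update ω j a) l w) +
              M (Function.update (Function.update ω j b) l w) := by
          intro w
          rw [Function.update_comm hjl, M.map_update_add, Function.update_comm hjl.symm,
            Function.update_comm hjl.symm]
        rw [M.map_update_add, e2, e2, ha, hb, zero_add, add_zero]
        have h5 := hMsw (Function.update (Function.update ω j a) l b) j l hjl
        have h6 : (fun t => Function.update (Function.update ω j a) l b (Equiv.swap j l t)) =
            Function.update (Function.update ω j b) l a := by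
          funext t
          by_cases htl : t = l
          · subst htl
            rw [Function.update_self, Equiv.swap_apply_right, Function.update_of_ne hjl,
              Function.update_self]
          · rw [Function.update_of_ne htl]
            by_cases htj : t = j
            · subst htj
              rw [Function.update_self, Equiv.swap_apply_left, Function.update_self]
            · rw [Function.update_of_ne htj, Equiv.swap_apply_of_ne_of_ne htj htl,
                Function.update_of_ne htl, Function.update_of_ne htj]
        rw [h6] at h5
        exact h5
      | smul c a _ ha =>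
        rw [M.map_update_smul, Function.update_comm hjl, M.map_update_smul,
          Function.update_comm hjl.symm, ha, smul_zero, smul_zero]
    have h1 := key (ω j) (by rw [U.span]; exact Submodule.mem_top)
    have h2 : Function.update (Function.update ω j (ω j)) l (ω j) = ω := by
      rw [Function.update_eq_self, hω, Function.update_eq_self]
    rw [h2] at h1
    exact h1
  let Malt : Ω [⋀^Fin i]→ₗ[A] V :=
    { M with map_eq_zero_of_eq' := hMalt }
  refine ⟨ExteriorAlgebra.liftAlternating
    (Function.update (0 : ∀ r, Ω [⋀^Fin r]→ₗ[A] V) i Malt), ?_⟩
  intro x
  rw [← ExteriorAlgebra.ιMulti_apply, ExteriorAlgebra.liftAlternating_apply_ιMulti,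
    Function.update_self]
  exact hM x

end

end NCG
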