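import Pool.Agent.NCG.CTR

/-!
# OMG: the generating function of the operators `Gam`

Let `L` be a `k`-algebra with elements `e j` (`j : Fin i`), `e a * e b = - e b * e a`, `e a * e a = 0`,
`x j` odd matrices over `k`.  Put
`Om e x m = (1 + e 0 Γ_m(x 0)) (1 + e 1 Γ_m (x 1)) ⋯` (matrices over `L`, `Γ_m = Gam deg m`), and
`EE e x = (1 + e 0 x 0) (1 + e 1 x 1) ⋯`.

`OMG_succ`: `Om (m+1) = ext1 (Om m) * slot last (EE)`.
Proof.  `Γ_{m+1}(x) = ext1 (Γ_m x) + slot last x` (`Gam_succ`).  Let `P j = 1 + e j ext1 (Γ_m (x j))` and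
`Q j = 1 + e j slot last (x j)`.  Then `P j * Q j = 1 + e j Γ_{m+1}(x j)` because
`(e j M) (e j M') = e j e j M M' = 0` for matrices `M, M'` with entries in `k`.  And `Q j` commutes with
`P l` for `j ≠ l`: `(e j M') (e l M) = e j e l M' M = (- e l e j) (- M M') = (e l M) (e j M')`
for `M = ext1 (Γ_m (x l))`, `M' = slot last (x j)` (`ext1_Gam_anticomm`).  So
`∏ (P j Q j) = (∏ P j) (∏ Q j)` (a private lemma by induction on the list: move every `Q j` to the
right through the later `P l`), and `∏ P j = ext1 (Om m)` (`ext1_mul`, `ext1_one`, `ext1_add`),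
`∏ Q j = slot last EE` (`slot_mul`, `slot_one`, `slot_add`; `slot u (e • X) = e • slot u X` since the
signs are integers).

`OMG_main`: for all `m` and all `y : Matrix ι ι L`
`str (cyc * (slot 0 x₀ * Om (m+1) * slot last y)) = str1 (x₀ * EE^(m+1) * y)` on `m + 1` factors
(`x₀` with entries in `k`).  Induction on `m`.  `m = 0`: `Om 1 = slot 0 EE` (`Gam 1 = slot 0`) and
`CTR_base` with `slot_mul` (here `last 0 = 0`).  Step: on `m + 2` factors
`slot 0 x₀ = ext1 (slot 0 x₀)` (`slot_castSucc`, `0 = castSucc 0`) and by `OMG_succ`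
`slot 0 x₀ * Om (m+2) * slot last y = ext1 (slot 0 x₀ * Om (m+1)) * slot last (EE * y)`; by `CTR` the
supertrace is `str (cyc * (slot 0 x₀ * Om (m+1) * slot last (EE * y)))`, which is
`str1 (x₀ EE^(m+1) (EE y))` by induction.
-/

open scoped BigOperators

namespace NCG

section

variable {ι : Type} [Fintype ι] [DecidableEq ι] (deg : ι → ℤ) {k L : Type*} [Field k] [Ring L]
  [Algebra k L]

/-- the product of the matrices `1 + e j * Gam m (x j)` -/
def Om {i : ℕ} (e : Fin i → L) (x : Fin i → Matrix ι ι k) (m : ℕ) :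
    Matrix (Fin m → ι) (Fin m → ι) L :=
  (List.ofFn fun j => 1 + e j • (Gam deg m (x j)).map (algebraMap k L)).prod

/-- the product of the matrices `1 + e j * x j` -/
def EE {i : ℕ} (e : Fin i → L) (x : Fin i → Matrix ι ι k) : Matrix ι ι L :=
  (List.ofFn fun j => 1 + e j • (x j).map (algebraMap k L)).prod

private theorem OMG_ofFn_mul {M : Type*} [Monoid M] (n : ℕ) (P Q : Fin n → M)
    (h : ∀ a b, Commute (Q a) (P b)) :
    (List.ofFn fun j => P j * Q j).prod = (List.ofFn P).prod * (List.ofFn Q).prod := by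
  induction n with
  | zero => simp
  | succ n ih =>
    rw [List.ofFn_succ, List.prod_cons, ih (fun j => P j.succ) (fun j => Q j.succ)
      (fun a b => h a.succ b.succ), List.ofFn_succ (f := P), List.ofFn_succ (f := Q),
      List.prod_cons, List.prod_cons]
    have h1 : Commute (Q 0) (List.ofFn fun j => P (Fin.succ j)).prod := by
      apply Commute.list_prod_right
      intro y hy
      rw [List.mem_ofFn] at hy
      obtain ⟨j, rfl⟩ := hy
      exact h 0 j.succ
    rw [mul_assoc, ← mul_assoc (Q 0), h1.eq]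
    simp only [mul_assoc]

private theorem OMG_prod_map {M N : Type*} [Monoid M] [Monoid N] (f : M → N) (h1 : f 1 = 1)
    (hm : ∀ a b, f (a * b) = f a * f b) (n : ℕ) (P : Fin n → M) :
    f (List.ofFn P).prod = (List.ofFn fun j => f (P j)).prod := by
  induction n with
  | zero => simpa using h1
  | succ n ih =>
    rw [List.ofFn_succ, List.prod_cons, hm, ih, List.ofFn_succ, List.prod_cons]

private theorem OMG_smul_mul {J : Type*} [Fintype J] (a b : L) (M N : Matrix J J k) :
    (a • M.map (algebraMap k L)) * (b • N.map (algebraMap k L)) =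
      (a * b) • (M * N).map (algebraMap k L) := by
  ext u v
  simp only [Matrix.mul_apply, Matrix.smul_apply, Matrix.map_apply, smul_eq_mul, map_sum, map_mul,
    Finset.mul_sum]
  apply Finset.sum_congr rfl
  intro w _
  rw [mul_assoc, mul_assoc, ← mul_assoc _ b, Algebra.commutes, mul_assoc]

omit [Fintype ι] in
private theorem OMG_ext1_smul {m : ℕ} (a : L) (Y : Matrix (Fin m → ι) (Fin m → ι) L) :
    ext1 (a • Y) = a • ext1 Y := by
  ext u v
  rw [Matrix.smul_apply, ext1, ext1]
  split_ifs
  · rfl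
  · rw [smul_zero]

omit [Fintype ι] in
private theorem OMG_slot_smul {m : ℕ} (u : Fin m) (a : L) (Y : Matrix ι ι L) :
    slot deg u (a • Y) = a • slot deg u Y := by
  ext b c
  rw [Matrix.smul_apply, slot, slot]
  split_ifs
  · rw [Matrix.smul_apply, smul_eq_mul, smul_eq_mul, ← mul_assoc, ← mul_assoc]
    congr 1
    exact (Int.cast_commute _ _).eq
  · rw [smul_zero]

theorem OMG_succ {i : ℕ} (e : Fin i → L) (he : ∀ a b, e a * e b = -(e b * e a))
    (he2 : ∀ a, e a * e a = 0) (x : Fin i → Matrix ι ι k)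
    (hx : ∀ j a b, x j a b ≠ 0 → Odd (deg a - deg b)) (m : ℕ) :
    Om deg e x (m + 1) = ext1 (Om deg e x m) * slot deg (Fin.last m) (EE e x) := by
  rw [Om, Om, EE, OMG_prod_map ext1 ext1_one ext1_mul,
    OMG_prod_map (slot deg (Fin.last m)) (slot_one deg _) (slot_mul deg _)]
  have hP : ∀ j, ext1 (1 + e j • (Gam deg m (x j)).map (algebraMap k L)) =
      1 + e j • (ext1 (Gam deg m (x j))).map (algebraMap k L) := by
    intro j
    rw [ext1_add, ext1_one, OMG_ext1_smul]
    congr 2
    exact (ext1_map (Gam deg m (x j)) (algebraMap k L).toAddMonoidHom).symm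
  have hQ : ∀ j, slot deg (Fin.last m) (1 + e j • (x j).map (algebraMap k L)) =
      1 + e j • (slot deg (Fin.last m) (x j)).map (algebraMap k L) := by
    intro j
    rw [slot_add, slot_one, OMG_slot_smul]
    congr 2
    exact (slot_map deg (Fin.last m) (x j) (algebraMap k L).toAddMonoidHom).symm
  simp only [hP, hQ]
  have hc : ∀ a b, (e a • (slot deg (Fin.last m) (x a)).map (algebraMap k L)) *
      (e b • (ext1 (Gam deg m (x b))).map (algebraMap k L)) =
      (e b • (ext1 (Gam deg m (x b))).map (algebraMap k L)) *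
      (e a • (slot deg (Fin.last m) (x a)).map (algebraMap k L)) := by
    intro a b
    rw [OMG_smul_mul, OMG_smul_mul, ext1_Gam_anticomm deg m (x b) (x a)
      (fun _ _ _ _ => mul_comm _ _) (hx b) (hx a), he a b]
    ext u v
    simp only [Matrix.smul_apply, Matrix.map_apply, Matrix.neg_apply, smul_eq_mul, map_neg,
      neg_mul, mul_neg]
  rw [← OMG_ofFn_mul]
  · congr 2
    funext j
    rw [Gam_succ, add_mul, one_mul, mul_add, mul_one, OMG_smul_mul, he2, zero_smul, add_zero]
    have : (ext1 (Gam deg m (x j)) + slot deg (Fin.last m) (x j)).map (algebraMap k L) =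
        (ext1 (Gam deg m (x j))).map (algebraMap k L) +
          (slot deg (Fin.last m) (x j)).map (algebraMap k L) := by
      ext u v
      simp only [Matrix.map_apply, Matrix.add_apply, map_add]
    rw [this, smul_add]
    abel
  · intro a b
    apply Commute.add_left (Commute.one_left _)
    apply Commute.add_right (Commute.one_right _)
    exact hc a b

private theorem OMG_zero {i : ℕ} (e : Fin i → L) (x : Fin i → Matrix ι ι k) :
    Om deg e x 0 = 1 := by
  rw [Om]
  apply List.prod_eq_one
  intro y hy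
  rw [List.mem_ofFn] at hy
  obtain ⟨j, rfl⟩ := hy
  rw [Gam, Finset.univ_eq_empty, Finset.sum_empty]
  ext u v
  simp only [Matrix.add_apply, Matrix.smul_apply, Matrix.map_apply, Matrix.zero_apply, map_zero,
    smul_zero, add_zero]

private theorem OMG_gen {i : ℕ} (e : Fin i → L) (he : ∀ a b, e a * e b = -(e b * e a))
    (he2 : ∀ a, e a * e a = 0) (x : Fin i → Matrix ι ι k)
    (hx : ∀ j a b, x j a b ≠ 0 → Odd (deg a - deg b)) (x₀ : Matrix ι ι L) (m : ℕ)
    (y : Matrix ι ι L) :
    str deg (m + 1) (cyc deg L m * (slot deg 0 x₀ * Om deg e x (m + 1) *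
      slot deg (Fin.last m) y)) = str1 deg (x₀ * EE e x ^ (m + 1) * y) := by
  induction m generalizing y with
  | zero =>
    rw [OMG_succ deg e he he2 x hx 0, OMG_zero, ext1_one, one_mul]
    rw [show (Fin.last 0 : Fin (0 + 1)) = 0 from rfl, ← slot_mul, ← slot_mul, CTR_base, zero_add,
      pow_one]
  | succ m ih =>
    rw [OMG_succ deg e he he2 x hx (m + 1)]
    have h0 : slot deg (0 : Fin (m + 1 + 1)) x₀ = ext1 (slot deg (0 : Fin (m + 1)) x₀) := by
      rw [← slot_castSucc]
      rfl
    have h1 : ext1 (slot deg (0 : Fin (m + 1)) x₀) * (ext1 (Om deg e x (m + 1)) *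
        slot deg (Fin.last (m + 1)) (EE e x)) * slot deg (Fin.last (m + 1)) y =
        ext1 (slot deg (0 : Fin (m + 1)) x₀ * Om deg e x (m + 1)) *
          slot deg (Fin.last (m + 1)) (EE e x * y) := by
      rw [ext1_mul, slot_mul]
      simp only [mul_assoc]
    rw [h0, h1, CTR, ih (EE e x * y)]
    congr 1
    rw [← mul_assoc, mul_assoc x₀, ← pow_succ]

theorem OMG_main {i : ℕ} (e : Fin i → L) (he : ∀ a b, e a * e b = -(e b * e a))
    (he2 : ∀ a, e a * e a = 0) (x : Fin i → Matrix ι ι k)
    (hx : ∀ j a b, x j a b ≠ 0 → Odd (deg a - deg b)) (x₀ : Matrix ι ι k) (m : ℕ) :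
    str deg (m + 1) (cyc deg L m * (slot deg 0 (x₀.map (algebraMap k L)) * Om deg e x (m + 1))) =
      str1 deg (x₀.map (algebraMap k L) * EE e x ^ (m + 1)) := by
  have h := OMG_gen deg e he he2 x hx (x₀.map (algebraMap k L)) m 1
  rw [slot_one, mul_one, mul_one] at h
  exact h

end

end NCG
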