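import Pool.Agent.NCG.GRS
import Pool.Agent.NCG.NCP
import Pool.Agent.NCG.OMG

/-!
# PGE: polynomial growth of `str1 (x₀ * EE ^ M)`

Let `L = GrL k i`, `e = gre k`, `I` the functional of `GRS_exists`, `x j` matrices over `k`, `EE = EE e x`.
There is a polynomial `p` of degree `≤ i` with `I (str1 (x₀ * EE^M)) = p(M)` for all `M : ℕ` and
`i! · (coefficient of X^i of p) = ∑_π sign π · str1 (x₀ * x (π 0) * ⋯ * x (π (i-1)))`.

Proof.  For `r : ℕ` let `F r ⊆ Matrix ι ι L` be the set of matrices all of whose entries are in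
`⨆_{s ≥ r} ⋀^s` (a `k`-submodule).  `F r * F s ⊆ F (r+s)` (`⋀^s ⋀^s' ⊆ ⋀^{s+s'}`, `pow_add`).
Scalar matrices over `k` are in `F 0`, `e j • x j ∈ F 1`.
Let `ν = EE - 1` and `ν₁ = ∑_j e j • x j`.  `ν ∈ F 1` and `ν - ν₁ ∈ F 2` (induction over the factors of
the product `EE`: if `P = 1 + ν₁' + F 2` then `P (1 + e j x j) = 1 + (ν₁' + e j x j) + F 2`).
Let `Lf Z = I (str1 (x₀ * Z))`, a `k`-linear functional which vanishes on `F (i+1)` (by the first
property of `I`).  By the binomial theorem `EE^M = ∑_{r ≤ M} C(M,r) ν^r` and `ν^r ∈ F r`, so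
`Lf (EE^M) = ∑_{r ≤ i} C(M,r) Lf (ν^r)` (for `r > M` the binomial coefficient is zero).
`C(M,r) = (1/r!) M (M-1) ⋯ (M-r+1)` is the value at `M` of the polynomial
`(1/r!) descPochhammer k r` of degree `r` with leading coefficient `1/r!`.  So `p` is the sum of
`Lf (ν^r) (1/r!) descPochhammer k r` over `r ≤ i`, and `i! coeff_i p = Lf (ν^i) = Lf (ν₁^i)` because
`ν^i - ν₁^i ∈ F (i+1)`.
Finally `ν₁^i = ∑_{q : Fin i → Fin i} (e (q 0) ⋯ e (q (i-1))) • (x (q 0) ⋯ x (q (i-1)))` by `prod_ofFn_sum`
(`ν₁^i = (List.ofFn fun _ => ν₁).prod`); scalars of `L` commute with matrices over `k`.  The terms with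
`q` not injective vanish by `gre_prod_zero`; injective `q` are permutations
(`Finite.injective_iff_bijective`), and `Lf` of the term of `π` is
`sign π · str1 (x₀ x (π 0) ⋯ x (π (i-1)))`.
-/

open scoped BigOperators

set_option linter.unusedSectionVars false

namespace NCG

section

variable {ι : Type} [Fintype ι] [DecidableEq ι] (deg : ι → ℤ) {k : Type*} [Field k] [CharZero k]

private theorem pg_ring1 {R : Type*} [Ring R] (X P : R) :
    (1 + X) * P - 1 = (P - 1) + X * P := by noncomm_ring

private theorem pg_ring2 {R : Type*} [Ring R] (X P S : R) :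
    (1 + X) * P - 1 - (X + S) = (P - 1 - S) + X * (P - 1) := by noncomm_ring

private theorem pg_ring3 {R : Type*} [Ring R] (a b x y : R) :
    a * x - b * y = a * (x - y) + (a - b) * y := by noncomm_ring

/-- the filtration of the exterior algebra -/
private def pgF (k : Type*) [Field k] (i r : ℕ) : Submodule k (GrL k i) :=
  ⨆ n : ℕ, ⋀[k]^(r + n) (Fin i → k)

private theorem pgF_mul {k : Type*} [Field k] {i r s : ℕ} {y z : GrL k i} (hy : y ∈ pgF k i r)
    (hz : z ∈ pgF k i s) : y * z ∈ pgF k i (r + s) := by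
  have h : pgF k i r * pgF k i s ≤ pgF k i (r + s) := by
    unfold pgF
    rw [Submodule.iSup_mul]
    refine iSup_le fun n => ?_
    rw [Submodule.mul_iSup]
    refine iSup_le fun m => ?_
    rw [← pow_add]
    refine le_iSup_of_le (n + m) ?_
    rw [show r + n + (s + m) = r + s + (n + m) by ring]
  exact h (Submodule.mul_mem_mul hy hz)

private theorem pgF_succ (k : Type*) [Field k] (i r : ℕ) : pgF k i (r + 1) ≤ pgF k i r := by
  unfold pgF
  refine iSup_le fun n => le_iSup_of_le (n + 1) ?_
  rw [show r + 1 + n = r + (n + 1) by ring]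

private theorem pgF_anti (k : Type*) [Field k] (i : ℕ) : Antitone (pgF k i) :=
  antitone_nat_of_succ_le (pgF_succ k i)

private theorem pgF_alg {k : Type*} [Field k] {i : ℕ} (c : k) :
    algebraMap k (GrL k i) c ∈ pgF k i 0 := by
  refine (le_iSup (fun n : ℕ => ⋀[k]^(0 + n) (Fin i → k)) 0) ?_
  simp only [add_zero, pow_zero]
  exact ⟨c, (Algebra.algebraMap_eq_smul_one c).symm⟩

private theorem pgF_gre {k : Type*} [Field k] {i : ℕ} (j : Fin i) :
    gre k j ∈ pgF k i 1 := by
  refine (le_iSup (fun n : ℕ => ⋀[k]^(1 + n) (Fin i → k)) 0) ?_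
  simp only [add_zero, pow_one]
  exact ⟨_, rfl⟩

/-- matrices with entries in the filtration -/
private def pgM {ι : Type} {k : Type*} [Field k] {i : ℕ} (r : ℕ) (Z : Matrix ι ι (GrL k i)) :
    Prop := ∀ a b, Z a b ∈ pgF k i r

section

variable {ι : Type} [Fintype ι] [DecidableEq ι] {k : Type*} [Field k] {i : ℕ}

private theorem pgM_mul {r s : ℕ} {Y Z : Matrix ι ι (GrL k i)} (hY : pgM r Y) (hZ : pgM s Z) :
    pgM (r + s) (Y * Z) := by
  intro a b
  rw [Matrix.mul_apply]
  exact Submodule.sum_mem _ fun c _ => pgF_mul (hY a c) (hZ c b)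

private theorem pgM_add {r : ℕ} {Y Z : Matrix ι ι (GrL k i)} (hY : pgM r Y) (hZ : pgM r Z) :
    pgM r (Y + Z) := fun a b => Submodule.add_mem _ (hY a b) (hZ a b)

private theorem pgM_zero (r : ℕ) : pgM r (0 : Matrix ι ι (GrL k i)) :=
  fun _ _ => Submodule.zero_mem _

private theorem pgM_mono {r s : ℕ} (h : s ≤ r) {Y : Matrix ι ι (GrL k i)} (hY : pgM r Y) :
    pgM s Y := fun a b => pgF_anti k i h (hY a b)

private theorem pgM_map (Y : Matrix ι ι k) : pgM 0 (Y.map (algebraMap k (GrL k i))) :=
  fun _ _ => pgF_alg _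

private theorem pgM_one : pgM 0 (1 : Matrix ι ι (GrL k i)) := by
  have h := pgM_map (i := i) (1 : Matrix ι ι k)
  rwa [Matrix.map_one _ (map_zero _) (map_one _)] at h

private theorem pgM_prod (n : ℕ) : ∀ X : Fin n → Matrix ι ι (GrL k i), (∀ j, pgM 1 (X j)) →
    pgM 1 ((List.ofFn fun j => 1 + X j).prod - 1) ∧
      pgM 2 ((List.ofFn fun j => 1 + X j).prod - 1 - ∑ j, X j) := by
  induction n with
  | zero =>
    intro X hX
    simp only [List.ofFn_zero, List.prod_nil, sub_self, Finset.univ_eq_empty, Finset.sum_empty]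
    exact ⟨pgM_zero _, pgM_zero _⟩
  | succ n ih =>
    intro X hX
    obtain ⟨h1, h2⟩ := ih (fun j => X j.succ) (fun j => hX j.succ)
    rw [List.ofFn_succ, List.prod_cons, Fin.sum_univ_succ]
    set P := (List.ofFn fun j : Fin n => 1 + X j.succ).prod with hP
    have hP0 : pgM 0 P := by
      have : P = (P - 1) + 1 := by abel
      rw [this]
      exact pgM_add (pgM_mono (Nat.zero_le 1) h1) pgM_one
    constructor
    · rw [pg_ring1]
      exact pgM_add h1 (pgM_mul (r := 1) (s := 0) (hX 0) hP0)
    · rw [pg_ring2]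
      exact pgM_add h2 (pgM_mul (r := 1) (s := 1) (hX 0) h1)

private theorem pgM_pow {ν : Matrix ι ι (GrL k i)} (hν : pgM 1 ν) (r : ℕ) : pgM r (ν ^ r) := by
  induction r with
  | zero =>
    rw [pow_zero]
    exact pgM_one
  | succ r ih =>
    rw [pow_succ]
    exact pgM_mul ih hν

private theorem pgM_pow_sub {ν ν' : Matrix ι ι (GrL k i)} (hν : pgM 1 ν) (hν' : pgM 1 ν')
    (h : pgM 2 (ν - ν')) (r : ℕ) : pgM (r + 1) (ν ^ r - ν' ^ r) := by
  induction r with
  | zero =>
    rw [pow_zero, pow_zero, sub_self]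
    exact pgM_zero _
  | succ r ih =>
    rw [pow_succ, pow_succ, pg_ring3]
    exact pgM_add (pgM_mul (r := r) (s := 2) (pgM_pow hν r) h) (pgM_mul (s := 1) ih hν')

private theorem pg_prod_smul (n : ℕ) : ∀ (a : Fin n → GrL k i) (y : Fin n → Matrix ι ι k),
    (List.ofFn fun t => a t • (y t).map (algebraMap k (GrL k i))).prod =
      (List.ofFn a).prod • ((List.ofFn y).prod).map (algebraMap k (GrL k i)) := by
  induction n with
  | zero =>
    intro a y
    simp only [List.ofFn_zero, List.prod_nil, one_smul]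
    rw [Matrix.map_one _ (map_zero _) (map_one _)]
  | succ n ih =>
    intro a y
    rw [List.ofFn_succ, List.prod_cons, ih, List.ofFn_succ (f := a), List.prod_cons,
      List.ofFn_succ (f := y), List.prod_cons, Matrix.map_mul]
    ext p q
    simp only [Matrix.mul_apply, Matrix.smul_apply, smul_eq_mul, Matrix.map_apply]
    rw [Finset.mul_sum]
    refine Finset.sum_congr rfl fun c _ => ?_
    have h1 := Algebra.commutes (y 0 p c) (List.ofFn fun t : Fin n => a t.succ).prod
    calc a 0 * (algebraMap k (GrL k i)) (y 0 p c) *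
          ((List.ofFn fun t : Fin n => a t.succ).prod *
            (algebraMap k (GrL k i)) ((List.ofFn fun t : Fin n => y t.succ).prod c q))
        = a 0 * ((algebraMap k (GrL k i)) (y 0 p c) *
          (List.ofFn fun t : Fin n => a t.succ).prod) *
            (algebraMap k (GrL k i)) ((List.ofFn fun t : Fin n => y t.succ).prod c q) := by
          simp only [mul_assoc]
      _ = _ := by
          rw [h1]
          simp only [mul_assoc]

private theorem pg_str1_smul (deg : ι → ℤ) (A : GrL k i) (x₀ Y : Matrix ι ι k) :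
    str1 deg (x₀.map (algebraMap k (GrL k i)) * A • Y.map (algebraMap k (GrL k i))) =
      str1 deg (x₀ * Y) • A := by
  have h0 : x₀.map (algebraMap k (GrL k i)) * A • Y.map (algebraMap k (GrL k i)) =
      A • (x₀ * Y).map (algebraMap k (GrL k i)) := by
    rw [Matrix.map_mul]
    ext p q
    simp only [Matrix.mul_apply, Matrix.smul_apply, smul_eq_mul, Matrix.map_apply]
    rw [Finset.mul_sum]
    refine Finset.sum_congr rfl fun c _ => ?_
    rw [← mul_assoc, ← mul_assoc, Algebra.commutes (x₀ p c) A]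
  rw [h0]
  unfold str1
  rw [Finset.sum_smul]
  refine Finset.sum_congr rfl fun α _ => ?_
  rw [Matrix.smul_apply, smul_eq_mul, Matrix.map_apply, ← Algebra.commutes, ← Algebra.smul_def,
    mul_smul]
  rw [← zsmul_eq_mul, ← Int.cast_smul_eq_zsmul k]

end

theorem PGE {i : ℕ} (I : GrL k i →ₗ[k] k)
    (hI : ∀ r, r ≠ i → ∀ y ∈ ⋀[k]^r (Fin i → k), I y = 0)
    (hI' : ∀ π : Equiv.Perm (Fin i),
      I (List.ofFn fun t => gre k (π t)).prod = ((Equiv.Perm.sign π : ℤˣ) : ℤ))
    (x₀ : Matrix ι ι k) (x : Fin i → Matrix ι ι k) :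
    ∃ p : Polynomial k, p.natDegree ≤ i ∧
      (∀ M : ℕ, I (str1 deg (x₀.map (algebraMap k (GrL k i)) * EE (gre k) x ^ M)) =
        p.eval (M : k)) ∧
      (i.factorial : k) * p.coeff i =
        ∑ π : Equiv.Perm (Fin i), (((Equiv.Perm.sign π : ℤˣ) : ℤ) : k) *
          str1 deg (x₀ * (List.ofFn fun j => x (π j)).prod) := by
  classical
  set X : Fin i → Matrix ι ι (GrL k i) :=
    fun j => gre k j • (x j).map (algebraMap k (GrL k i)) with hX
  have hX1 : ∀ j, pgM 1 (X j) := by
    intro j a b
    change gre k j * algebraMap k (GrL k i) (x j a b) ∈ pgF k i (1 + 0)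
    exact pgF_mul (pgF_gre j) (pgF_alg _)
  set ν : Matrix ι ι (GrL k i) := EE (gre k) x - 1 with hν
  set ν1 : Matrix ι ι (GrL k i) := ∑ j, X j with hν1
  obtain ⟨hνM, hν2⟩ := pgM_prod i X hX1
  have hνM : pgM 1 ν := hνM
  have hν2 : pgM 2 (ν - ν1) := hν2
  have hν1M : pgM 1 ν1 := by
    intro a b
    rw [hν1, Matrix.sum_apply]
    exact Submodule.sum_mem _ fun j _ => hX1 j a b
  -- the functional
  let Lf : Matrix ι ι (GrL k i) →ₗ[k] k :=
    { toFun := fun Z => I (str1 deg (x₀.map (algebraMap k (GrL k i)) * Z))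
      map_add' := fun Y Z => by
        rw [Matrix.mul_add, ← map_add]
        congr 1
        unfold str1
        rw [← Finset.sum_add_distrib]
        exact Finset.sum_congr rfl fun a _ => by rw [Matrix.add_apply, mul_add]
      map_smul' := fun c Z => by
        rw [Matrix.mul_smul, RingHom.id_apply, ← map_smul]
        congr 1
        unfold str1
        rw [Finset.smul_sum]
        exact Finset.sum_congr rfl fun a _ => by rw [Matrix.smul_apply, mul_smul_comm] }
  have hLf : ∀ Z, Lf Z = I (str1 deg (x₀.map (algebraMap k (GrL k i)) * Z)) := fun _ => rfl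
  have hLf0 : ∀ r, i + 1 ≤ r → ∀ Z, pgM r Z → Lf Z = 0 := by
    intro r hr Z hZ
    have h1 : pgM (0 + r) (x₀.map (algebraMap k (GrL k i)) * Z) := pgM_mul (pgM_map x₀) hZ
    have h2 : str1 deg (x₀.map (algebraMap k (GrL k i)) * Z) ∈ pgF k i (i + 1) := by
      unfold str1
      refine Submodule.sum_mem _ fun α _ => ?_
      rw [← zsmul_eq_mul]
      refine zsmul_mem ?_ _
      exact pgF_anti k i (by omega) (h1 α α)
    have h3 : pgF k i (i + 1) ≤ LinearMap.ker I := by
      unfold pgF
      exact iSup_le fun n y hy => hI (i + 1 + n) (by omega) y hy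
    exact h3 h2
  have hpow : ∀ M : ℕ, Lf (EE (gre k) x ^ M) =
      ∑ r ∈ Finset.range (i + 1), (M.choose r : k) * Lf (ν ^ r) := by
    intro M
    have h1 : EE (gre k) x = ν + 1 := by
      rw [hν]
      abel
    rw [h1, (Commute.one_right ν).add_pow, map_sum]
    have h2 : ∀ r ∈ Finset.range (M + 1),
        Lf (ν ^ r * 1 ^ (M - r) * (M.choose r : Matrix ι ι (GrL k i))) =
          (M.choose r : k) * Lf (ν ^ r) := by
      intro r _
      rw [one_pow, mul_one, ← nsmul_eq_mul', map_nsmul, nsmul_eq_mul]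
    rw [Finset.sum_congr rfl h2]
    have h3 : ∑ r ∈ Finset.range (M + 1), (M.choose r : k) * Lf (ν ^ r) =
        ∑ r ∈ Finset.range (M + i + 1), (M.choose r : k) * Lf (ν ^ r) := by
      refine Finset.sum_subset (Finset.range_subset_range.2 (by omega)) fun r _ hr => ?_
      rw [Finset.mem_range] at hr
      rw [Nat.choose_eq_zero_of_lt (by omega), Nat.cast_zero, zero_mul]
    have h4 : ∑ r ∈ Finset.range (i + 1), (M.choose r : k) * Lf (ν ^ r) =
        ∑ r ∈ Finset.range (M + i + 1), (M.choose r : k) * Lf (ν ^ r) := by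
      refine Finset.sum_subset (Finset.range_subset_range.2 (by omega)) fun r _ hr => ?_
      rw [Finset.mem_range] at hr
      rw [hLf0 r (by omega) _ (pgM_pow hνM r), mul_zero]
    rw [h3, h4]
  have hfac : ∀ r : ℕ, (r.factorial : k) ≠ 0 := fun r => Nat.cast_ne_zero.2 r.factorial_ne_zero
  refine ⟨∑ r ∈ Finset.range (i + 1),
    Polynomial.C (Lf (ν ^ r) * (r.factorial : k)⁻¹) * descPochhammer k r, ?_, ?_, ?_⟩
  · refine Polynomial.natDegree_sum_le_of_forall_le _ _ fun r hr => ?_
    refine (Polynomial.natDegree_C_mul_le _ _).trans ?_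
    rw [descPochhammer_natDegree]
    rw [Finset.mem_range] at hr
    omega
  · intro M
    rw [← hLf, hpow M, Polynomial.eval_finsetSum]
    refine Finset.sum_congr rfl fun r _ => ?_
    rw [Polynomial.eval_mul, Polynomial.eval_C, descPochhammer_eval_eq_descFactorial,
      Nat.descFactorial_eq_factorial_mul_choose, Nat.cast_mul]
    have := hfac r
    field_simp
  · have h1 : (∑ r ∈ Finset.range (i + 1),
        Polynomial.C (Lf (ν ^ r) * (r.factorial : k)⁻¹) * descPochhammer k r).coeff i =
        Lf (ν ^ i) * (i.factorial : k)⁻¹ := by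
      rw [Polynomial.finsetSum_coeff, Finset.sum_range_succ, Finset.sum_eq_zero, zero_add]
      · rw [Polynomial.coeff_C_mul]
        have h2 : (descPochhammer k i).coeff i = 1 := by
          have := (monic_descPochhammer k i).coeff_natDegree
          rwa [descPochhammer_natDegree] at this
        rw [h2, mul_one]
      · intro r hr
        rw [Finset.mem_range] at hr
        rw [Polynomial.coeff_C_mul, Polynomial.coeff_eq_zero_of_natDegree_lt, mul_zero]
        rw [descPochhammer_natDegree]
        exact hr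
    rw [h1]
    have h2 : (i.factorial : k) * (Lf (ν ^ i) * (i.factorial : k)⁻¹) = Lf (ν ^ i) := by
      have := hfac i
      field_simp
    rw [h2]
    have h3 : Lf (ν ^ i) = Lf (ν1 ^ i) := by
      have h4 := hLf0 (i + 1) le_rfl _ (pgM_pow_sub hνM hν1M hν2 i)
      rw [map_sub] at h4
      exact sub_eq_zero.1 h4
    have h5 : ν1 ^ i = ∑ q : Fin i → Fin i,
        (List.ofFn fun t => gre k (q t)).prod •
          ((List.ofFn fun t => x (q t)).prod).map (algebraMap k (GrL k i)) := by
      have h6 : ν1 ^ i = (List.ofFn fun _ : Fin i => ∑ j, X j).prod := by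
        rw [List.ofFn_const, List.prod_replicate]
      rw [h6, prod_ofFn_sum]
      refine Finset.sum_congr rfl fun q _ => ?_
      exact pg_prod_smul i (fun t => gre k (q t)) (fun t => x (q t))
    rw [h3, h5, map_sum]
    symm
    refine Finset.sum_of_injOn (fun π : Equiv.Perm (Fin i) => (π : Fin i → Fin i)) ?_ ?_ ?_ ?_
    · intro π _ π' _ h
      exact Equiv.coe_fn_injective h
    · intro π _
      exact Finset.mem_coe.2 (Finset.mem_univ _)
    · intro q _ hq
      have hni : ¬ Function.Injective q := by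
        intro hinj
        refine hq ⟨Equiv.ofBijective q (Finite.injective_iff_bijective.1 hinj),
          Finset.mem_coe.2 (Finset.mem_univ _), ?_⟩
        rfl
      rw [gre_prod_zero k i q hni, zero_smul, map_zero]
    · intro π _
      rw [hLf, pg_str1_smul, map_smul, hI' π, smul_eq_mul, mul_comm]

end

end NCG
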