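import Pool.Agent.NCG.WRB

/-!
# QRG: a weakly regular sequence is quasi-regular in degrees one and two

`QR1`: if `∑_{b < i} z b • n b = 0` then `n a ∈ Iz z i • ⊤` for `a < i`.
Induction on `i`.  Step `i → i + 1`, `I' = Iz z i`: `z i • n i ∈ I' N`, so `n i ∈ I' N` (`WReg` at `i`),
`n i = ∑_{b < i} z b • u b`.  Then `∑_{b < i} z b • (n b + z i • u b) = 0`, so by induction
`n b + z i • u b ∈ I' N` and `n b ∈ Iz z (i+1) N`.

`QR2'`: if `∑_{b < i} ∑_{a ≤ b} (z a * z b) • Y a b = 0` then `Y a b ∈ Iz z i • ⊤` for `a ≤ b < i`.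
(The inner sum is over `a ∈ range (b+1)`.)
Auxiliary claim (R): if `WReg z (i+1) N` and `z i • v = ∑_{b < i} ∑_{a ≤ b} (z a * z b) • c a b`, then
`v = ∑_{b < i} ∑_{a ≤ b} (z a * z b) • v' a b` for some `v'`.  Proof: `z i • v ∈ I' N`, so `v ∈ I' N`,
`v = ∑_{a<i} z a • u a`; then `∑_{a<i} z a • (z i • u a - ∑_{a ≤ b < i} z b • c a b) = 0`, so by `QR1`
(for `i`) `z i • u a ∈ I' N`, so `u a ∈ I' N` (`WReg` at `i`), which gives the claim (write
`u a = ∑_{b<i} z b • w a b` and collect the terms `(a,b)`, `(b,a)`).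
Step `i → i + 1` of `QR2'`: let `v = ∑_{a<i} z a • Y a i + z i • Y i i`.  Then
`z i • v = - ∑_{b<i} ∑_{a≤b} (z a z b) • Y a b`, so by (R) `v = ∑_{b<i} ∑_{a≤b} (z a z b) • v' a b`.
* `∑_{b<i} ∑_{a≤b} (z a z b) • (Y a b + z i • v' a b) = 0`, so by induction `Y a b + z i • v' a b ∈ I' N`,
  `Y a b ∈ Iz z (i+1) N` for `a ≤ b < i`.
* `z i • Y i i = v - ∑_{a<i} z a • Y a i ∈ I' N`, so `Y i i ∈ I' N`, `Y i i = ∑_{a<i} z a • u a`.
* `∑_{a<i} z a • (Y a i + z i • u a - ∑_{a ≤ b < i} z b • v' a b) = 0`, so by `QR1` for `i`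
  `Y a i ∈ Iz z (i+1) N`.

`QR2`: from `QR2'` with `Y a a = y a a`, `Y a b = y a b + y b a` for `a < b`.
-/

open scoped BigOperators

namespace NCG

universe u v w

variable {A : Type u} [CommRing A] {N : Type v} [AddCommGroup N] [Module A N]

private theorem QRG_mono (z : ℕ → A) (i : ℕ) :
    Iz z i • (⊤ : Submodule A N) ≤ Iz z (i + 1) • (⊤ : Submodule A N) :=
  Submodule.smul_mono_left (Iz_mono z (Nat.le_succ i))

private theorem QRG_last (z : ℕ → A) (i : ℕ) (x : N) :
    z i • x ∈ Iz z (i + 1) • (⊤ : Submodule A N) :=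
  Submodule.smul_mem_smul (Iz_self z (Nat.lt_succ_self i)) Submodule.mem_top

theorem QR1 {z : ℕ → A} {i : ℕ} (h : WReg z i N) (n : ℕ → N)
    (hn : ∑ b ∈ Finset.range i, z b • n b = 0) :
    ∀ a < i, n a ∈ Iz z i • (⊤ : Submodule A N) := by
  induction i generalizing n with
  | zero =>
    intro a ha
    omega
  | succ i ih =>
    rw [Finset.sum_range_succ] at hn
    have h1 : z i • n i ∈ Iz z i • (⊤ : Submodule A N) := by
      refine (mem_Iz_top z i _).2 ⟨fun b => - n b, ?_⟩
      simp_rw [smul_neg]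
      rw [Finset.sum_neg_distrib]
      exact eq_neg_of_add_eq_zero_right hn
    have h3 := h i (Nat.lt_succ_self i) _ h1
    obtain ⟨u, hu⟩ := (mem_Iz_top z i _).1 h3
    have h4 : ∑ b ∈ Finset.range i, z b • (n b + z i • u b) = 0 := by
      have e1 : ∑ b ∈ Finset.range i, z b • (n b + z i • u b) =
          ∑ b ∈ Finset.range i, z b • n b + z i • ∑ b ∈ Finset.range i, z b • u b := by
        rw [Finset.smul_sum, ← Finset.sum_add_distrib]
        refine Finset.sum_congr rfl fun b _ => ?_
        rw [smul_add, smul_comm (z i) (z b)]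
      rw [e1, ← hu]
      exact hn
    have h5 := ih (h.mono (Nat.le_succ i)) _ h4
    intro a ha
    rcases Nat.lt_succ_iff_lt_or_eq.1 ha with ha' | rfl
    · have h6 := Submodule.sub_mem _ (QRG_mono z i (h5 a ha')) (QRG_last z i (u a))
      rwa [add_sub_cancel_right] at h6
    · exact QRG_mono z a h3

private theorem QRG_R {z : ℕ → A} {i : ℕ} (h : WReg z (i + 1) N) (v : N)
    (hv : z i • v ∈ Iz z i • (Iz z i • (⊤ : Submodule A N))) :
    v ∈ Iz z i • (Iz z i • (⊤ : Submodule A N)) := by
  have h1 : v ∈ Iz z i • (⊤ : Submodule A N) := by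
    apply h i (Nat.lt_succ_self i)
    exact Submodule.smul_mono le_rfl le_top hv
  obtain ⟨u, hu⟩ := (mem_Iz_top z i _).1 h1
  obtain ⟨p, hp, hvp⟩ := (mem_Iz_smul z i _ _).1 hv
  have h2 : ∑ a ∈ Finset.range i, z a • (z i • u a - p a) = 0 := by
    have e1 : ∑ a ∈ Finset.range i, z a • (z i • u a - p a) =
        z i • ∑ a ∈ Finset.range i, z a • u a - ∑ a ∈ Finset.range i, z a • p a := by
      rw [Finset.smul_sum, ← Finset.sum_sub_distrib]
      refine Finset.sum_congr rfl fun b _ => ?_
      rw [smul_sub, smul_comm (z i) (z b)]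
    rw [e1, ← hu, ← hvp, sub_self]
  have h3 := QR1 (h.mono (Nat.le_succ i)) _ h2
  refine (mem_Iz_smul z i _ _).2 ⟨fun a => if a < i then u a else 0, ?_, ?_⟩
  · intro a
    show (if a < i then u a else 0) ∈ Iz z i • (⊤ : Submodule A N)
    split_ifs with ha
    · apply h i (Nat.lt_succ_self i)
      have h4 := Submodule.add_mem _ (h3 a ha) (hp a)
      rwa [sub_add_cancel] at h4
    · exact Submodule.zero_mem _
  · rw [hu]
    refine Finset.sum_congr rfl fun a ha => ?_
    show z a • u a = z a • (if a < i then u a else 0)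
    rw [if_pos (Finset.mem_range.1 ha)]

theorem QR2 {z : ℕ → A} {i : ℕ} (h : WReg z i N) (y : ℕ → ℕ → N)
    (hy : ∑ a ∈ Finset.range i, ∑ b ∈ Finset.range i, (z a * z b) • y a b = 0) :
    ∀ a < i, ∀ b < i, y a b + y b a ∈ Iz z i • (⊤ : Submodule A N) := by
  induction i generalizing y with
  | zero =>
    intro a ha
    omega
  | succ i ih =>
    obtain ⟨v, hv⟩ : ∃ v : N, v = ∑ a ∈ Finset.range i, z a • (y a i + y i a) + z i • y i i :=
      ⟨_, rfl⟩
    have hsq : ∑ a ∈ Finset.range i, ∑ b ∈ Finset.range i, (z a * z b) • y a b + z i • v = 0 := by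
      rw [← hy, hv, Finset.sum_range_succ]
      simp_rw [Finset.sum_range_succ]
      rw [Finset.sum_add_distrib, smul_add, Finset.smul_sum, smul_smul]
      have e1 : ∑ a ∈ Finset.range i, z i • z a • (y a i + y i a) =
          ∑ a ∈ Finset.range i, (z a * z i) • y a i + ∑ a ∈ Finset.range i, (z i * z a) • y i a := by
        rw [← Finset.sum_add_distrib]
        refine Finset.sum_congr rfl fun a _ => ?_
        rw [smul_smul, smul_add, mul_comm (z a) (z i)]
      rw [e1]
      abel
    have hzv : z i • v ∈ Iz z i • (Iz z i • (⊤ : Submodule A N)) := by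
      rw [eq_neg_of_add_eq_zero_right hsq]
      apply Submodule.neg_mem
      refine Submodule.sum_mem _ fun a ha => Submodule.sum_mem _ fun b hb => ?_
      rw [mul_smul]
      exact Submodule.smul_mem_smul (Iz_self z (Finset.mem_range.1 ha))
        (Submodule.smul_mem_smul (Iz_self z (Finset.mem_range.1 hb)) Submodule.mem_top)
    have hv2 := QRG_R h v hzv
    obtain ⟨p, hp, hvp⟩ := (mem_Iz_smul z i _ _).1 hv2
    have hp' : ∀ a, ∃ e : ℕ → N, p a = ∑ b ∈ Finset.range i, z b • e b :=
      fun a => (mem_Iz_top z i _).1 (hp a)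
    choose w hw using hp'
    have hlow : ∀ a < i, ∀ b < i, (y a b + z i • w a b) + (y b a + z i • w b a) ∈
        Iz z i • (⊤ : Submodule A N) := by
      apply ih (h.mono (Nat.le_succ i)) (fun a b => y a b + z i • w a b)
      have e2 : ∑ a ∈ Finset.range i, ∑ b ∈ Finset.range i, (z a * z b) • (y a b + z i • w a b) =
          ∑ a ∈ Finset.range i, ∑ b ∈ Finset.range i, (z a * z b) • y a b + z i • v := by
        rw [hvp, Finset.smul_sum, ← Finset.sum_add_distrib]
        refine Finset.sum_congr rfl fun a _ => ?_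
        rw [hw a, Finset.smul_sum, Finset.smul_sum, ← Finset.sum_add_distrib]
        refine Finset.sum_congr rfl fun b _ => ?_
        rw [smul_add, smul_smul, smul_smul, smul_smul, mul_comm (z a * z b) (z i)]
        rw [mul_assoc]
      rw [e2]
      exact hsq
    have hii : y i i ∈ Iz z i • (⊤ : Submodule A N) := by
      apply h i (Nat.lt_succ_self i)
      have e3 : z i • y i i = v - ∑ a ∈ Finset.range i, z a • (y a i + y i a) := by
        rw [hv, add_sub_cancel_left]
      rw [e3]
      refine Submodule.sub_mem _ (Submodule.smul_mono le_rfl le_top hv2) ?_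
      exact (mem_Iz_top z i _).2 ⟨fun a => y a i + y i a, rfl⟩
    obtain ⟨u, hu⟩ := (mem_Iz_top z i _).1 hii
    have hmix : ∀ a < i, y a i + y i a ∈ Iz z (i + 1) • (⊤ : Submodule A N) := by
      have e4 : ∑ a ∈ Finset.range i, z a • ((y a i + y i a) + z i • u a - p a) = 0 := by
        have e5 : ∑ a ∈ Finset.range i, z a • ((y a i + y i a) + z i • u a - p a) =
            (∑ a ∈ Finset.range i, z a • (y a i + y i a) +
              z i • ∑ a ∈ Finset.range i, z a • u a) - ∑ a ∈ Finset.range i, z a • p a := by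
          rw [Finset.smul_sum, ← Finset.sum_add_distrib, ← Finset.sum_sub_distrib]
          refine Finset.sum_congr rfl fun a _ => ?_
          rw [smul_sub, smul_add, smul_comm (z i) (z a)]
        rw [e5, ← hu, ← hvp, ← hv, sub_self]
      have h6 := QR1 (h.mono (Nat.le_succ i)) _ e4
      intro a ha
      have h7 := Submodule.sub_mem _ (Submodule.add_mem _ (QRG_mono z i (h6 a ha))
        (QRG_mono z i (hp a))) (QRG_last z i (u a))
      have e6 : (y a i + y i a) + z i • u a - p a + p a - z i • u a = y a i + y i a := by abel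
      rwa [e6] at h7
    intro a ha b hb
    rcases Nat.lt_succ_iff_lt_or_eq.1 ha with ha' | rfl
    · rcases Nat.lt_succ_iff_lt_or_eq.1 hb with hb' | rfl
      · have h8 := Submodule.sub_mem _ (Submodule.sub_mem _ (QRG_mono z i (hlow a ha' b hb'))
          (QRG_last z i (w a b))) (QRG_last z i (w b a))
        have e7 : (y a b + z i • w a b) + (y b a + z i • w b a) - z i • w a b - z i • w b a =
            y a b + y b a := by abel
        rwa [e7] at h8
      · exact hmix a ha'
    · rcases Nat.lt_succ_iff_lt_or_eq.1 hb with hb' | rfl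
      · rw [add_comm (y a b)]
        exact hmix b hb'
      · exact Submodule.add_mem _ (QRG_mono z b hii) (QRG_mono z b hii)

end NCG
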