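import Pool.Agent.NCG.Defs

/-!
# SGN: the sign function `sgn n = (-1)^n`
-/

namespace NCG

theorem sgn_of_even {n : ℤ} (h : Even n) : sgn n = 1 := by
  simp [sgn, h]

theorem sgn_of_odd {n : ℤ} (h : Odd n) : sgn n = -1 := by
  have : ¬ Even n := Int.not_even_iff_odd.2 h
  simp [sgn, this]

@[simp] theorem sgn_zero : sgn 0 = 1 := by simp [sgn]

@[simp] theorem sgn_one : sgn 1 = -1 := by simp [sgn]

theorem sgn_add (a b : ℤ) : sgn (a + b) = sgn a * sgn b := by
  rcases Int.even_or_odd a with ha | ha <;> rcases Int.even_or_odd b with hb | hb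
  · rw [sgn_of_even ha, sgn_of_even hb, sgn_of_even (ha.add hb)]; ring
  · rw [sgn_of_even ha, sgn_of_odd hb, sgn_of_odd (ha.add_odd hb)]; ring
  · rw [sgn_of_odd ha, sgn_of_even hb, sgn_of_odd (ha.add_even hb)]; ring
  · rw [sgn_of_odd ha, sgn_of_odd hb, sgn_of_even (ha.add_odd hb)]; ring

@[simp] theorem sgn_mul_self (a : ℤ) : sgn a * sgn a = 1 := by
  rcases Int.even_or_odd a with ha | ha
  · rw [sgn_of_even ha]; ring
  · rw [sgn_of_odd ha]; ring

@[simp] theorem sgn_neg (a : ℤ) : sgn (-a) = sgn a := by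
  simp [sgn]

theorem sgn_sub (a b : ℤ) : sgn (a - b) = sgn a * sgn b := by
  rw [sub_eq_add_neg, sgn_add, sgn_neg]

theorem sgn_congr {a b : ℤ} (h : Even (a - b)) : sgn a = sgn b := by
  have h1 := sgn_of_even h
  rw [sgn_sub] at h1
  calc sgn a = sgn a * (sgn b * sgn b) := by simp
    _ = (sgn a * sgn b) * sgn b := by ring
    _ = sgn b := by rw [h1, one_mul]

theorem sgn_add_even {a b : ℤ} (h : Even b) : sgn (a + b) = sgn a := by
  rw [sgn_add, sgn_of_even h, mul_one]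

theorem sgn_add_odd {a b : ℤ} (h : Odd b) : sgn (a + b) = -sgn a := by
  rw [sgn_add, sgn_of_odd h]; ring

theorem sgn_mul_odd {a b : ℤ} (h : Odd b) : sgn (a * b) = sgn a := by
  apply sgn_congr
  obtain ⟨c, hc⟩ := h
  exact ⟨a * c, by rw [hc]; ring⟩

theorem sgn_mul_even {a b : ℤ} (h : Even b) : sgn (a * b) = 1 :=
  sgn_of_even (h.mul_left a)

theorem sgn_sq (a : ℤ) : sgn a ^ 2 = 1 := by rw [sq, sgn_mul_self]

theorem sgn_mul_mul_self (a : ℤ) : sgn (a * a) = sgn a := by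
  apply sgn_congr
  rcases Int.even_or_odd a with ha | ha
  · exact (ha.mul_left a).sub ha
  · exact (ha.mul ha).sub_odd ha

end NCG
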