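import Pool.Agent.NCG.Defs
import Pool.Agent.NCG.SGN

/-!
# TDf: definitions for the trace formula on tensor powers
-/

open scoped BigOperators

namespace NCG

section

variable {ι : Type} [Fintype ι] [DecidableEq ι] (deg : ι → ℤ) {R : Type*} [Ring R]

/-- `Y ⊗ 1`: the matrix `Y` acting on the first `m` tensor factors -/
def ext1 {m : ℕ} (Y : Matrix (Fin m → ι) (Fin m → ι) R) :
    Matrix (Fin (m + 1) → ι) (Fin (m + 1) → ι) R :=
  fun a b => if a (Fin.last m) = b (Fin.last m) then Y (Fin.init a) (Fin.init b) else 0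

/-- the supertrace on the tensor power with `m` factors -/
def str (m : ℕ) (Z : Matrix (Fin m → ι) (Fin m → ι) R) : R :=
  ∑ a, (sgn (∑ j, deg (a j)) : R) * Z a a

/-- the supertrace -/
def str1 (X : Matrix ι ι R) : R := ∑ α, (sgn (deg α) : R) * X α α

end

section

variable {k A R : Type*} [Field k] [CommRing A] [Algebra k A] [Ring R] [Algebra k R]

/-- the antisymmetrised trace `∑_{σ, π} sgn σ sgn π tr (ρ(a₀) θ_{σ 0}(x_{π 0}) ⋯ θ_{σ (i-1)}(x_{π (i-1)}))` -/
def Psi (tr : R →ₗ[k] k) (rho : A →ₐ[k] R) {i : ℕ} (θ : Fin i → (A →ₗ[k] R)) (a₀ : A)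
    (x : Fin i → A) : k :=
  ∑ σ : Equiv.Perm (Fin i), ∑ π : Equiv.Perm (Fin i),
    (((Equiv.Perm.sign σ * Equiv.Perm.sign π : ℤˣ) : ℤ)) •
      tr (rho a₀ * (List.ofFn fun j => θ (σ j) (x (π j))).prod)

end

end NCG
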