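import Pool.Agent.NCG.QRG

/-!
# THD: the operators `θ_a`

Let `N̄ = N ⧸ (Iz z i • ⊤)`.  A structure `ThD k A N z i` consists of `k`-linear maps
`dl a : N → N̄` (`a : Fin i`) with `dl a (∑_{b < i} z b • e b) = mk (e a)`, and the operators
`th a x : N̄ → N̄`, `th a x (mk n) = dl a (x • n) - x • dl a n` for `x : A`.

`THD_exists`.  By `QR1` (applied to differences) the map `∑_{b < i} z b • e b ↦ (mk (e a))_a` from
the subspace `Iz z i • ⊤` of `N` to `Fin i → N̄` is well defined and `k`-linear: e.g. let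
`L : (Fin i → N) → N`, `e ↦ ∑ b, z b • e b` and `Q : (Fin i → N) → (Fin i → N̄)`; `ker L ≤ ker Q` by
`QR1`, so there is a `k`-linear `R : N → (Fin i → N̄)` with `R ∘ L = Q` (a linear map over a field
which vanishes on `ker L` factors through `L`: `LinearMap.exists_extend` on the range, or
`LinearMap.exists_leftInverse_of_injective`...).  Put `dl a = (proj a) ∘ R`.
`th a x` is well defined: for `n = ∑_b z b • e b` one has `x • n = ∑_b z b • (x • e b)`, so
`dl a (x • n) - x • dl a n = mk (x • e a) - x • mk (e a) = 0`.  Use `Submodule.liftQ` for the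
`k`-submodule `(Iz z i • ⊤).restrictScalars k`, or `Quotient`-lifting by hand.  It is `k`-linear in
`n` and in `x`.

`th_mul`: `th a (x * y) (mk n) = dl a (x y n) - x y dl a n
= (dl a (x (y n)) - x dl a (y n)) + x (dl a (y n) - y dl a n)`.
`th_z`: for `x = z b`: `dl a (z b • n) - z b • dl a n = δ_{ab} mk n - 0`, because `z b` kills `N̄`.
`th_algebraMap`: `dl a` is `k`-linear.
`lsmul_z`: `z b` acts by zero on `N̄`.
-/

open scoped BigOperators

namespace NCG

universe u v w

variable (k : Type w) (A : Type u) [Field k] [CommRing A] [Algebra k A]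
  (N : Type v) [AddCommGroup N] [Module k N] [Module A N] [IsScalarTower k A N]

/-- the quotient `N ⧸ (z 0, ..., z (i-1)) N` -/
abbrev Nb (z : ℕ → A) (i : ℕ) : Type v := N ⧸ (Iz z i • (⊤ : Submodule A N))

/-- the operators `θ_a` -/
structure ThD (z : ℕ → A) (i : ℕ) where
  dl : Fin i → (N →ₗ[k] Nb A N z i)
  dl_spec : ∀ (a : Fin i) (e : ℕ → N),
    dl a (∑ b ∈ Finset.range i, z b • e b) = Submodule.Quotient.mk (e a)
  th : Fin i → (A →ₗ[k] Module.End k (Nb A N z i))
  th_spec : ∀ (a : Fin i) (x : A) (n : N),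
    th a x (Submodule.Quotient.mk n) = dl a (x • n) - x • dl a n

private theorem THD_smul_zero {z : ℕ → A} {i : ℕ} (b : ℕ) (hb : b < i) (w : Nb A N z i) :
    z b • w = 0 := by
  obtain ⟨m, rfl⟩ := Submodule.Quotient.mk_surjective _ w
  rw [← Submodule.Quotient.mk_smul, Submodule.Quotient.mk_eq_zero]
  exact Submodule.smul_mem_smul (Iz_self z hb) Submodule.mem_top

theorem THD_exists {z : ℕ → A} {i : ℕ} (h : WReg z i N) : Nonempty (ThD k A N z i) := by
  obtain ⟨L, hL⟩ : ∃ L : (Fin i → N) →ₗ[k] N, ∀ e, L e = ∑ b : Fin i, z b • e b := by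
    refine ⟨{ toFun := fun e => ∑ b : Fin i, z b • e b, map_add' := ?_, map_smul' := ?_ },
      fun _ => rfl⟩
    · intro x y
      simp [smul_add, Finset.sum_add_distrib]
    · intro c x
      simp only [Pi.smul_apply, RingHom.id_apply, Finset.smul_sum]
      exact Finset.sum_congr rfl fun b _ => smul_comm _ _ _
  obtain ⟨Q, hQ⟩ : ∃ Q : (Fin i → N) →ₗ[k] (Fin i → Nb A N z i),
      ∀ e a, Q e a = Submodule.Quotient.mk (e a) := by
    refine ⟨{ toFun := fun e a => Submodule.Quotient.mk (e a), map_add' := ?_, map_smul' := ?_ },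
      fun _ _ => rfl⟩
    · intro x y
      rfl
    · intro c x
      rfl
  have hker : LinearMap.ker L ≤ LinearMap.ker Q := by
    intro e he
    rw [LinearMap.mem_ker] at he ⊢
    rw [hL] at he
    funext a
    rw [hQ, Pi.zero_apply, Submodule.Quotient.mk_eq_zero]
    have h1 : ∑ b ∈ Finset.range i, z b • (if hb : b < i then e ⟨b, hb⟩ else 0) = 0 := by
      rw [Finset.sum_range]
      rw [← he]
      refine Finset.sum_congr rfl fun b _ => ?_
      rw [dif_pos b.2]
    have h2 := QR1 h _ h1 a a.2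
    rwa [dif_pos a.2] at h2
  obtain ⟨R, hR⟩ : ∃ R : N →ₗ[k] (Fin i → Nb A N z i), ∀ e, R (L e) = Q e := by
    obtain ⟨R, hR⟩ := LinearMap.exists_extend
      (((LinearMap.ker L).liftQ Q hker) ∘ₗ L.quotKerEquivRange.symm.toLinearMap)
    refine ⟨R, fun e => ?_⟩
    have h1 := LinearMap.congr_fun hR ⟨L e, LinearMap.mem_range_self L e⟩
    have h2 : L.quotKerEquivRange.symm ⟨L e, LinearMap.mem_range_self L e⟩ =
        (LinearMap.ker L).mkQ e := LinearMap.quotKerEquivRange_symm_apply_image L e _
    simp only [LinearMap.comp_apply, Submodule.subtype_apply, LinearEquiv.coe_coe] at h1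
    rw [h1, h2, Submodule.mkQ_apply, Submodule.liftQ_apply]
  have hRs : ∀ (a : Fin i) (e : ℕ → N),
      R (∑ b ∈ Finset.range i, z b • e b) a = Submodule.Quotient.mk (e a) := by
    intro a e
    rw [Finset.sum_range]
    have h1 := hR (fun b : Fin i => e b)
    rw [hL] at h1
    rw [h1, hQ]
  obtain ⟨G, hG⟩ : ∃ G : Fin i → A → N →ₗ[k] Nb A N z i,
      ∀ a x n, G a x n = R (x • n) a - x • R n a := by
    refine ⟨fun a x =>
      { toFun := fun n => R (x • n) a - x • R n a
        map_add' := ?_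
        map_smul' := ?_ }, fun _ _ _ => rfl⟩
    · intro n m
      rw [smul_add, map_add, map_add, Pi.add_apply, Pi.add_apply, smul_add]
      abel
    · intro c n
      rw [smul_comm x c n, R.map_smul, R.map_smul, Pi.smul_apply, Pi.smul_apply, RingHom.id_apply,
        smul_sub, smul_comm x c (R n a)]
  have hGk : ∀ a x, (Iz z i • (⊤ : Submodule A N)).restrictScalars k ≤ LinearMap.ker (G a x) := by
    intro a x n hn
    rw [Submodule.restrictScalars_mem] at hn
    obtain ⟨e, he⟩ := (mem_Iz_top z i n).1 hn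
    rw [LinearMap.mem_ker, hG, he, hRs, Finset.smul_sum]
    have h1 : ∑ b ∈ Finset.range i, x • z b • e b = ∑ b ∈ Finset.range i, z b • (x • e b) :=
      Finset.sum_congr rfl fun b _ => smul_comm _ _ _
    rw [h1, hRs a (fun b => x • e b), Submodule.Quotient.mk_smul, sub_self]
  obtain ⟨H, hH⟩ : ∃ H : Fin i → A → Module.End k (Nb A N z i),
      ∀ a x (n : N), H a x (Submodule.Quotient.mk n) = R (x • n) a - x • R n a := by
    refine ⟨fun a x => (((Iz z i • (⊤ : Submodule A N)).restrictScalars k).liftQ (G a x) (hGk a x))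
      ∘ₗ ((Submodule.Quotient.restrictScalarsEquiv k (Iz z i • (⊤ : Submodule A N))).symm :
        _ →ₗ[k] _), ?_⟩
    intro a x n
    rw [← hG]
    rfl
  refine ⟨{ dl := fun a => LinearMap.proj a ∘ₗ R, dl_spec := ?_, th := fun a =>
    { toFun := H a, map_add' := ?_, map_smul' := ?_ }, th_spec := ?_ }⟩
  · intro a e
    exact hRs a e
  · intro x y
    refine LinearMap.ext fun w => ?_
    obtain ⟨n, rfl⟩ := Submodule.Quotient.mk_surjective _ w
    rw [LinearMap.add_apply, hH, hH, hH, add_smul, map_add, Pi.add_apply, add_smul]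
    abel
  · intro c x
    refine LinearMap.ext fun w => ?_
    obtain ⟨n, rfl⟩ := Submodule.Quotient.mk_surjective _ w
    rw [RingHom.id_apply, LinearMap.smul_apply, hH, hH, smul_assoc, map_smul, Pi.smul_apply,
      smul_assoc, smul_sub]
  · intro a x n
    exact hH a x n

variable {k A N} {z : ℕ → A} {i : ℕ} (T : ThD k A N z i)

theorem ThD.th_mul (a : Fin i) (x y : A) :
    T.th a (x * y) = T.th a x * Algebra.lsmul k k (Nb A N z i) y +
      Algebra.lsmul k k (Nb A N z i) x * T.th a y := by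
  refine LinearMap.ext fun w => ?_
  obtain ⟨n, rfl⟩ := Submodule.Quotient.mk_surjective _ w
  have e1 : (T.th a x * Algebra.lsmul k k (Nb A N z i) y +
      Algebra.lsmul k k (Nb A N z i) x * T.th a y) (Submodule.Quotient.mk n) =
      T.th a x (Submodule.Quotient.mk (y • n)) + x • T.th a y (Submodule.Quotient.mk n) := rfl
  rw [e1, T.th_spec, T.th_spec, T.th_spec, smul_sub, mul_smul, mul_smul]
  abel

theorem ThD.th_z (a b : Fin i) : T.th a (z b) = if a = b then 1 else 0 := by
  refine LinearMap.ext fun w => ?_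
  obtain ⟨n, rfl⟩ := Submodule.Quotient.mk_surjective _ w
  rw [T.th_spec, THD_smul_zero A N b b.2, sub_zero]
  have h1 : z b • n = ∑ c ∈ Finset.range i, z c • (if c = (b : ℕ) then n else 0) := by
    rw [Finset.sum_eq_single (b : ℕ)]
    · rw [if_pos rfl]
    · intro c _ hc
      rw [if_neg hc, smul_zero]
    · intro hb
      exact absurd (Finset.mem_range.2 b.2) hb
  rw [h1, T.dl_spec a (fun c => if c = (b : ℕ) then n else 0)]
  by_cases hab : a = b
  · subst hab
    rw [if_pos rfl, if_pos rfl]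
    rfl
  · rw [if_neg hab, if_neg (fun h => hab (Fin.ext h))]
    rfl

theorem ThD.th_algebraMap (a : Fin i) (c : k) : T.th a (algebraMap k A c) = 0 := by
  refine LinearMap.ext fun w => ?_
  obtain ⟨n, rfl⟩ := Submodule.Quotient.mk_surjective _ w
  rw [T.th_spec, algebraMap_smul, algebraMap_smul, map_smul, sub_self]
  rfl

theorem ThD.th_int (a : Fin i) (c : ℤ) : T.th a (c : A) = 0 := by
  refine LinearMap.ext fun w => ?_
  obtain ⟨n, rfl⟩ := Submodule.Quotient.mk_surjective _ w
  rw [T.th_spec, Int.cast_smul_eq_zsmul, Int.cast_smul_eq_zsmul, map_zsmul, sub_self]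
  rfl

theorem lsmul_z (b : ℕ) (hb : b < i) : Algebra.lsmul k k (Nb A N z i) (z b) = 0 := by
  refine LinearMap.ext fun w => ?_
  exact THD_smul_zero A N b hb w

end NCG
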