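import Mathlib

/-!
# YCF: coefficient fields in equal characteristic zero

`R` local, complete for the topology of its maximal ideal, residue field `κ` of characteristic zero.  There is a
ring homomorphism `s : κ → R` with `residue ∘ s = id`.
Proof.  Nonzero integers are units of `R` (their residues are not zero), so `R` is a `ℚ`-algebra
(there may be a Mathlib lemma for `∀ n ≠ 0, IsUnit (n : R)`, see `Mathlib/Algebra/CharP/MixedCharZero.lean`,
`EqualCharZero`), and `residue` is a `ℚ`-algebra map.  `κ` is formally smooth over `ℚ`: take a transcendence basis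
(`exists_isTranscendenceBasis'`) and `Algebra.FormallySmooth.of_algebraicIndependent_of_isSeparable` (algebraic
extensions in characteristic zero are separable).  Now apply
`Algebra.FormallySmooth.exists_mkₐ_comp_eq_of_isAdicComplete` for `I = maximalIdeal R`,
`f = id : κ → R ⧸ maximalIdeal R`.
-/

open IsLocalRing

namespace NCG

universe u

private theorem YCF_smooth (K : Type u) [Field K] [CharZero K] [Algebra ℚ K] :
    Algebra.FormallySmooth ℚ K := by
  obtain ⟨ι, v, hv⟩ := exists_isTranscendenceBasis' ℚ K
  have h1 : Algebra.IsAlgebraic (IntermediateField.adjoin ℚ (Set.range v)) K :=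
    hv.isAlgebraic_field
  exact Algebra.FormallySmooth.of_algebraicIndependent_of_isSeparable hv.1

theorem YCF {R : Type u} [CommRing R] [IsLocalRing R] [CharZero (ResidueField R)]
    [IsAdicComplete (maximalIdeal R) R] : ∃ s : ResidueField R →+* R, ∀ x, residue R (s x) = x := by
  have h1 : Nonempty (Algebra ℚ R) := by
    rw [EqualCharZero.nonempty_algebraRat_iff]
    intro I hI
    have : CharZero (R ⧸ maximalIdeal R) := inferInstanceAs (CharZero (ResidueField R))
    exact (Ideal.Quotient.factor (IsLocalRing.le_maximalIdeal hI) :
      R ⧸ I →+* R ⧸ maximalIdeal R).charZero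
  obtain ⟨inst⟩ := h1
  have h2 : Algebra.FormallySmooth ℚ (ResidueField R) := YCF_smooth (ResidueField R)
  obtain ⟨g, hg⟩ := Algebra.FormallySmooth.exists_mkₐ_comp_eq_of_isAdicComplete
    (R := ℚ) (A := ResidueField R) (S := R) (I := maximalIdeal R)
    (RingHom.toRatAlgHom (RingHom.id (ResidueField R) : ResidueField R →+* R ⧸ maximalIdeal R))
  exact ⟨g.toRingHom, fun x => congrArg (fun φ => φ x) hg⟩

end NCG
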