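import Mathlib

/-!
# YDM: dimension of a flat local extension; flat base change of complete intersections

`YDM`: `A → B` flat homomorphism of Noetherian local rings with `𝔪_A B = 𝔪_B`; then `dim B = dim A`.
Proof.  `Algebra.HasGoingDown.of_flat` and `Ideal.height_eq_height_add_of_liesOver_of_hasGoingDown` for
`p = 𝔪_A`, `P = 𝔪_B` (`𝔪_B` lies over `𝔪_A`: the comap contains `𝔪_A` and is proper): the image of `𝔪_B` in
`B ⧸ 𝔪_A B = B ⧸ 𝔪_B` is zero, a prime of height `0` in a field.  `IsLocalRing.maximalIdeal_height_eq_ringKrullDim`.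

`YDI`: `ι : Q → Q'` flat homomorphism of Noetherian local rings with `𝔪 Q' = 𝔪'`, `f : Fin c → Q` a regular sequence.
Then `ι ∘ f` is a regular sequence (`IsWeaklyRegular.of_flat`; `Q' ≠ (ι f)` since `f l ∈ 𝔪`, so `ι (f l) ∈ 𝔪'`; or use that
a flat local homomorphism is faithfully flat: `IsRegular.of_faithfullyFlat`), and the induced homomorphism
`ψ : Q ⧸ (f) → Q' ⧸ (ι f)` is flat (it is a base change of `ι`: `Q' ⧸ I Q' = (Q ⧸ I) ⊗ Q'`,
`Module.Flat.baseChange`) and maps the maximal ideal onto a generating set of the maximal ideal.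
-/

open scoped BigOperators
open IsLocalRing RingTheory.Sequence

namespace NCG

universe u

theorem YDM {A B : Type u} [CommRing A] [IsLocalRing A] [IsNoetherianRing A] [CommRing B]
    [IsLocalRing B] [IsNoetherianRing B] [Algebra A B] [Module.Flat A B]
    (hm : (maximalIdeal A).map (algebraMap A B) = maximalIdeal B) :
    ringKrullDim B = ringKrullDim A := by
  have hloc : IsLocalHom (algebraMap A B) :=
    ((IsLocalRing.local_hom_TFAE (algebraMap A B)).out 0 2).2 hm.le
  have hcomap : (maximalIdeal B).comap (algebraMap A B) = maximalIdeal A :=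
    ((IsLocalRing.local_hom_TFAE (algebraMap A B)).out 0 4).1 hloc
  have : (maximalIdeal B).LiesOver (maximalIdeal A) := ⟨hcomap.symm⟩
  have : Algebra.HasGoingDown A B := Algebra.HasGoingDown.of_flat
  have h := Ideal.height_eq_height_add_of_liesOver_of_hasGoingDown (maximalIdeal A) (maximalIdeal B)
  rw [hm, Ideal.map_quotient_self] at h
  have : Nontrivial (B ⧸ maximalIdeal B) :=
    Ideal.Quotient.nontrivial_iff.2 (maximalIdeal.isMaximal B).ne_top
  rw [Ideal.height_bot, add_zero] at h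
  rw [← IsLocalRing.maximalIdeal_height_eq_ringKrullDim,
    ← IsLocalRing.maximalIdeal_height_eq_ringKrullDim, h]

private theorem ydm_quot {Q Q' : Type u} [CommRing Q] [CommRing Q'] [Algebra Q Q']
    [Module.Flat Q Q'] (I : Ideal Q) (J : Ideal Q') (hJ : I.map (algebraMap Q Q') = J) :
    ∃ ψ : (Q ⧸ I) →+* (Q' ⧸ J),
      (∀ x, ψ (Ideal.Quotient.mk _ x) = Ideal.Quotient.mk _ (algebraMap Q Q' x)) ∧ ψ.Flat := by
  subst hJ
  refine ⟨algebraMap (Q ⧸ I) (Q' ⧸ I.map (algebraMap Q Q')), fun x => rfl, ?_⟩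
  rw [RingHom.flat_algebraMap_iff]
  exact Module.Flat.of_linearEquiv
    (Algebra.TensorProduct.quotIdealMapEquivQuotTensor Q' I).toLinearEquiv

theorem YDI {Q Q' : Type u} [CommRing Q] [IsLocalRing Q] [IsNoetherianRing Q] [CommRing Q']
    [IsLocalRing Q'] [IsNoetherianRing Q'] (ι : Q →+* Q') (hι : ι.Flat)
    (hm : (maximalIdeal Q).map ι = maximalIdeal Q') {c : ℕ} (f : Fin c → Q)
    (hf : IsRegular Q (List.ofFn f)) :
    IsRegular Q' (List.ofFn fun l => ι (f l)) ∧
    ∃ ψ : (Q ⧸ Ideal.span (Set.range f)) →+* (Q' ⧸ Ideal.span (Set.range fun l => ι (f l))),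
      (∀ x, ψ (Ideal.Quotient.mk _ x) = Ideal.Quotient.mk _ (ι x)) ∧ ψ.Flat ∧
      ((maximalIdeal Q).map (Ideal.Quotient.mk (Ideal.span (Set.range f)))).map ψ =
        (maximalIdeal Q').map (Ideal.Quotient.mk (Ideal.span (Set.range fun l => ι (f l)))) := by
  let _ : Algebra Q Q' := ι.toAlgebra
  have : Module.Flat Q Q' := hι
  have hloc : IsLocalHom (algebraMap Q Q') :=
    ((IsLocalRing.local_hom_TFAE (algebraMap Q Q')).out 0 2).2 hm.le
  have : Module.FaithfullyFlat Q Q' := Module.FaithfullyFlat.of_flat_of_isLocalHom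
  have hreg : IsRegular Q' ((List.ofFn f).map (algebraMap Q Q')) := hf.of_faithfullyFlat
  have hJ : (Ideal.span (Set.range f)).map (algebraMap Q Q') =
      Ideal.span (Set.range fun l => ι (f l)) := by
    rw [Ideal.map_span, ← Set.range_comp]
    rfl
  obtain ⟨ψ, h1, h2⟩ := ydm_quot _ _ hJ
  refine ⟨?_, ψ, h1, h2, ?_⟩
  · rw [List.map_ofFn] at hreg
    exact hreg
  · have h3 : ψ.comp (Ideal.Quotient.mk (Ideal.span (Set.range f))) =
        (Ideal.Quotient.mk (Ideal.span (Set.range fun l => ι (f l)))).comp ι :=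
      RingHom.ext fun x => h1 x
    rw [Ideal.map_map, h3, ← Ideal.map_map, hm]

end NCG
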