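import Pool.Agent.NCG.YDef
import Pool.Agent.NCG.FDQ

/-!
# YFL: finite length homology and dimension of the support under base change

`A → B` a homomorphism of Noetherian local rings with `𝔪_A B = 𝔪_B`.

`YFL`: if `F` has homology of finite length, so does `F.bc B`.
Proof.  `NUL` gives `N` such that every `w ∈ 𝔪_A^N` is `D s + s D` for a matrix `s` over `A`.  The set of `w ∈ B` which are
of the form `D s + s D` over `B` is an ideal which contains the image of `𝔪_A^N`, so it contains
`(𝔪_A^N).map = 𝔪_B^N` (`Ideal.map_pow`).  So the homology `H` of `F.bc B` (on `F.ι → B`), a subquotient of a finite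
module over a Noetherian ring and hence a finite module, is killed by `𝔪_B^N` (`w x = D (s x)` for cycles `x`).
A finite module killed by `𝔪^N` over a Noetherian local ring has finite length: it is Noetherian, and
Artinian as a finite module over the Artinian ring `B ⧸ 𝔪^N` (or: the quotients `𝔪^j H / 𝔪^{j+1} H` are
finite-dimensional vector spaces over the residue field).
`isFiniteLength_iff_isNoetherian_isArtinian`.

`YSD`: `M` finite over `A` with `supportDim A M ≤ i`, `g : M → M'` a base change (`IsBaseChange B g`); then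
`supportDim B M' ≤ i`, and `M'` is finite over `B` (`YSF`).
Proof.  If `M` is zero so is `M'`.  Otherwise `I = Module.annihilator A M ≤ 𝔪_A` and `dim A ⧸ I = supportDim A M ≤ i`
(`Module.supportDim_eq_ringKrullDim_quotient_annihilator`).  The maximal ideal of `A ⧸ I` has height `≤ i`, so it is
minimal over an ideal generated by at most `i` elements (`Ideal.exists_finset_card_eq_height_of_isNoetherianRing` or
a similar lemma in `KrullsHeightTheorem.lean`); lift them to `y ∈ 𝔪_A`: `𝔪_A` is the only prime containing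
`I + (y)`, so `𝔪_A^N ≤ I + (y)` for some `N` (`Ideal.exists_radical_pow_le_of_fg`, Noetherian).  Then
`𝔪_B^N ≤ I B + (y) B`.  `I B ≤ Ann M'` (`M'` is generated by `g M`, `IsBaseChange`).  If `M'` is zero nothing is to
be shown; otherwise `B ⧸ Ann M'` is local, its maximal ideal `𝔫` satisfies `𝔫^N ≤ (y)`, so
`(B ⧸ Ann M') ⧸ (y)` has dimension `≤ 0` and `dim B ⧸ Ann M' ≤ i` by
`ringKrullDim_le_ringKrullDim_add_card` or `ringKrullDim_le_ringKrullDim_add_spanFinrank`.
-/

open scoped BigOperators TensorProduct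
open IsLocalRing

namespace NCG

universe u

private theorem YFL_simple {B : Type u} [CommRing B] [IsLocalRing B] (Q : Type u)
    [AddCommGroup Q] [Module B Q] [Module.Finite B Q]
    (h : ∀ a ∈ maximalIdeal B, ∀ x : Q, a • x = 0) : IsArtinian B Q := by
  classical
  obtain ⟨n, f, hf⟩ := Module.Finite.exists_fin' B Q
  have hs : IsSimpleModule B (B ⧸ maximalIdeal B) :=
    isSimpleModule_iff_isCoatom.2 (Ideal.isMaximal_def.1 (maximalIdeal.isMaximal B))
  have hA : IsArtinian B (B ⧸ maximalIdeal B) := inferInstance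
  let q : Fin n → Q := fun j => f (Pi.single j 1)
  let ψ : Fin n → (B ⧸ maximalIdeal B) →ₗ[B] Q := fun j =>
    Submodule.liftQ (maximalIdeal B) (LinearMap.toSpanSingleton B Q (q j)) (by
      intro a ha
      rw [LinearMap.mem_ker, LinearMap.toSpanSingleton_apply]
      exact h a ha _)
  let Ψ : (Fin n → B ⧸ maximalIdeal B) →ₗ[B] Q := ∑ j, (ψ j) ∘ₗ LinearMap.proj j
  refine isArtinian_of_surjective _ Ψ ?_
  intro x
  obtain ⟨a, rfl⟩ := hf x
  refine ⟨fun j => Submodule.Quotient.mk (a j), ?_⟩
  simp only [Ψ, LinearMap.sum_apply, LinearMap.comp_apply, LinearMap.proj_apply]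
  have h1 : ∀ j, ψ j (Submodule.Quotient.mk (a j)) = a j • q j := fun j => rfl
  simp only [h1, q, ← map_smul, ← map_sum]
  congr 1
  funext j
  rw [Finset.sum_apply, Finset.sum_eq_single j]
  · simp
  · intro i _ hi
    simp [Ne.symm hi]
  · intro hj
    exact absurd (Finset.mem_univ j) hj

private theorem YFL_s1 {B J : Type*} [CommRing B] [Fintype J] [DecidableEq J] (a : B)
    (y : J → B) : mv B (M := B) (a • (1 : Matrix J J B)) y = a • y := by
  funext i
  simp only [mv_apply, Matrix.smul_apply, Matrix.one_apply, smul_eq_mul, mul_ite, mul_one,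
    mul_zero, ite_mul, zero_mul, Finset.sum_ite_eq, Finset.mem_univ, if_true, Pi.smul_apply]

private theorem YFL_max {R : Type u} [CommRing R] [IsLocalRing R] (I : Ideal R)
    [IsLocalRing (R ⧸ I)] (hI : I ≠ ⊤) :
    (maximalIdeal R).map (Ideal.Quotient.mk I) = maximalIdeal (R ⧸ I) := by
  rcases Ideal.map_eq_top_or_isMaximal_of_surjective (Ideal.Quotient.mk I)
    Ideal.Quotient.mk_surjective (maximalIdeal.isMaximal R) with h | h
  · exfalso
    have h1 : Ideal.comap (Ideal.Quotient.mk I)
        ((maximalIdeal R).map (Ideal.Quotient.mk I)) = ⊤ := by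
      rw [h]
      exact Ideal.comap_top
    rw [Ideal.comap_map_of_surjective _ Ideal.Quotient.mk_surjective,
      ← RingHom.ker_eq_comap_bot, Ideal.mk_ker, sup_of_le_left (le_maximalIdeal hI)] at h1
    exact (maximalIdeal.isMaximal R).ne_top h1
  · exact IsLocalRing.eq_maximalIdeal h

private theorem YFL_sys {R : Type u} [CommRing R] [IsLocalRing R] [IsNoetherianRing R] (n : ℕ)
    (h : ringKrullDim R ≤ n) : ∃ s : Finset R, s.card ≤ n ∧
      Ideal.span (s : Set R) ≤ maximalIdeal R ∧
      ∃ N, maximalIdeal R ^ N ≤ Ideal.span (s : Set R) := by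
  obtain ⟨s, hs, hc⟩ := Ideal.exists_finset_card_eq_height_of_isNoetherianRing (maximalIdeal R)
  have h1 : ((s.card : ℕ∞) : WithBot ℕ∞) ≤ n := by
    rw [hc, IsLocalRing.maximalIdeal_height_eq_ringKrullDim]
    exact h
  refine ⟨s, by exact_mod_cast h1, hs.1.2, ?_⟩
  have h2 : (Ideal.span (s : Set R)).radical = maximalIdeal R := by
    refine le_antisymm ?_ ?_
    · exact (maximalIdeal.isMaximal R).isPrime.radical_le_iff.2 hs.1.2
    · rw [Ideal.radical_eq_sInf]
      refine le_sInf fun J hJ => ?_
      exact hs.2 ⟨hJ.2, hJ.1⟩ (IsLocalRing.le_maximalIdeal hJ.2.ne_top)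
  obtain ⟨N, hN⟩ := Ideal.exists_radical_pow_le_of_fg (Ideal.span (s : Set R))
    (IsNoetherian.noetherian _)
  rw [h2] at hN
  exact ⟨N, hN⟩

private theorem YFL_dim {R : Type u} [CommRing R] [IsLocalRing R] [IsNoetherianRing R]
    (s : Finset R) (h1 : Ideal.span (s : Set R) ≤ maximalIdeal R) (N : ℕ)
    (h2 : maximalIdeal R ^ N ≤ Ideal.span (s : Set R)) : ringKrullDim R ≤ s.card := by
  have h3 : maximalIdeal R ∈ (Ideal.span (s : Set R)).minimalPrimes := by
    refine ⟨⟨(maximalIdeal.isMaximal R).isPrime, h1⟩, fun J hJ _ => ?_⟩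
    exact hJ.1.le_of_pow_le (h2.trans hJ.2)
  rw [← IsLocalRing.maximalIdeal_height_eq_ringKrullDim]
  exact_mod_cast Ideal.height_le_card_of_mem_minimalPrimes_span_finset h3

private theorem YFL_art {B : Type u} [CommRing B] [IsLocalRing B] [IsNoetherianRing B]
    (M : Type u) [AddCommGroup M] [Module B M] [Module.Finite B M] (N : ℕ)
    (h : ∀ a ∈ maximalIdeal B ^ N, ∀ x : M, a • x = 0) : IsArtinian B M := by
  induction N generalizing M with
  | zero =>
    have : Subsingleton M := ⟨fun x y => by
      have h1 : ∀ x : M, x = 0 := fun x => by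
        have := h 1 (by rw [pow_zero, Ideal.one_eq_top]; trivial) x
        rwa [one_smul] at this
      rw [h1 x, h1 y]⟩
    infer_instance
  | succ N ih =>
    let P : Submodule B M := (maximalIdeal B ^ N) • (⊤ : Submodule B M)
    have hN : IsNoetherian B M := isNoetherian_of_isNoetherianRing_of_finite B M
    have hPf : Module.Finite B P := inferInstance
    have h1 : IsArtinian B P := by
      refine YFL_simple P ?_
      rintro a ha ⟨x, hx⟩
      apply Subtype.ext
      show a • x = 0
      refine Submodule.smul_induction_on hx ?_ ?_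
      · intro b hb y _
        rw [smul_smul]
        exact h _ (by rw [pow_succ']; exact Ideal.mul_mem_mul ha hb) y
      · intro y z hy hz
        rw [smul_add, hy, hz, add_zero]
    have h2 : IsArtinian B (M ⧸ P) := by
      refine ih (M ⧸ P) ?_
      intro a ha x
      obtain ⟨y, rfl⟩ := Submodule.Quotient.mk_surjective _ x
      rw [← Submodule.Quotient.mk_smul, Submodule.Quotient.mk_eq_zero]
      exact Submodule.smul_mem_smul ha Submodule.mem_top
    exact (isArtinian_iff_submodule_quotient P).2 ⟨h1, h2⟩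

variable {A B : Type u} [CommRing A] [IsLocalRing A] [IsNoetherianRing A] [CommRing B]
  [IsLocalRing B] [IsNoetherianRing B] [Algebra A B]

theorem YFL (hm : (maximalIdeal A).map (algebraMap A B) = maximalIdeal B) (F : Cx A)
    (hF : F.FinLen) : (F.bc B).FinLen := by
  obtain ⟨N, hN⟩ := NUL F hF
  let I : Ideal B :=
    { carrier := {w | ∃ s : Matrix F.ι F.ι B,
        F.D.map (algebraMap A B) * s + s * F.D.map (algebraMap A B) =
          w • (1 : Matrix F.ι F.ι B)}
      add_mem' := by
        rintro w w' ⟨s, hs⟩ ⟨s', hs'⟩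
        refine ⟨s + s', ?_⟩
        rw [add_smul, ← hs, ← hs', mul_add, add_mul]
        abel
      zero_mem' := ⟨0, by rw [mul_zero, zero_mul, add_zero, zero_smul]⟩
      smul_mem' := by
        rintro c w ⟨s, hs⟩
        refine ⟨c • s, ?_⟩
        rw [Matrix.mul_smul, Matrix.smul_mul, ← smul_add, hs, smul_smul]
        rfl }
  have hI : maximalIdeal B ^ N ≤ I := by
    rw [← hm, ← Ideal.map_pow]
    refine Ideal.map_le_iff_le_comap.2 fun w hw => ?_
    obtain ⟨s, _, hs⟩ := hN w hw
    refine ⟨s.map (algebraMap A B), ?_⟩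
    rw [← Matrix.map_mul, ← Matrix.map_mul, ← Matrix.map_add _ (map_add (algebraMap A B)), hs]
    ext a b
    by_cases hab : a = b
    · subst hab
      simp
    · simp [hab]
  have hfin : Module.Finite B (Hm (mv B (M := B) (F.bc B).D)) := by
    have : IsNoetherian B (F.ι → B) := inferInstance
    exact inferInstanceAs (Module.Finite B (Hm (mv B (M := B) (F.D.map (algebraMap A B)))))
  have hk0 : ∀ a ∈ maximalIdeal B ^ N, ∀ y : F.ι → B,
      mv B (M := B) (F.D.map (algebraMap A B)) y = 0 →
      ∃ z : F.ι → B, mv B (M := B) (F.D.map (algebraMap A B)) z = a • y := by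
    intro a ha y hy
    obtain ⟨s, hs⟩ := hI ha
    refine ⟨mv B s y, ?_⟩
    have h2 := congrArg (fun X => mv B (M := B) X y) hs
    simp only [mv_add, mv_mul, LinearMap.add_apply, LinearMap.comp_apply] at h2
    rw [hy, map_zero, add_zero, YFL_s1] at h2
    exact h2
  have hk : ∀ a ∈ maximalIdeal B ^ N, ∀ x : Hm (mv B (M := B) (F.bc B).D), a • x = 0 := by
    intro a ha x
    obtain ⟨⟨y, hy⟩, rfl⟩ := Submodule.Quotient.mk_surjective _ x
    rw [← Submodule.Quotient.mk_smul, Submodule.Quotient.mk_eq_zero]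
    exact hk0 a ha y hy
  have hart := YFL_art _ N hk
  exact isFiniteLength_iff_isNoetherian_isArtinian.2
    ⟨isNoetherian_of_isNoetherianRing_of_finite B _, hart⟩

omit [IsLocalRing A] [IsNoetherianRing A] [IsLocalRing B] [IsNoetherianRing B] in
theorem YSF {M M' : Type u} [AddCommGroup M] [Module A M] [Module.Finite A M] [AddCommGroup M']
    [Module A M'] [Module B M'] [IsScalarTower A B M'] (g : M →ₗ[A] M') (hg : IsBaseChange B g) :
    Module.Finite B M' :=
  Module.Finite.equiv hg.equiv

theorem YSD (hm : (maximalIdeal A).map (algebraMap A B) = maximalIdeal B)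
    {M M' : Type u} [AddCommGroup M] [Module A M] [Module.Finite A M] [AddCommGroup M']
    [Module A M'] [Module B M'] [IsScalarTower A B M'] (g : M →ₗ[A] M') (hg : IsBaseChange B g)
    (i : ℕ) (hM : Module.supportDim A M ≤ i) : Module.supportDim B M' ≤ i := by
  classical
  have hf' : Module.Finite B M' := YSF g hg
  rcases subsingleton_or_nontrivial M' with hs | hn
  · rw [Module.supportDim_eq_bot_of_subsingleton]
    exact bot_le
  obtain ⟨I, hI⟩ : ∃ I, I = Module.annihilator A M := ⟨_, rfl⟩
  obtain ⟨I', hI'⟩ : ∃ I', I' = Module.annihilator B M' := ⟨_, rfl⟩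
  have hle : I ≤ I'.comap (algebraMap A B) := by
    intro a ha
    rw [Ideal.mem_comap, hI', Module.mem_annihilator]
    rw [hI, Module.mem_annihilator] at ha
    intro x
    refine hg.inductionOn x (fun x => algebraMap A B a • x = 0) ?_ ?_ ?_ ?_
    · exact smul_zero _
    · intro m
      rw [algebraMap_smul, ← map_smul, ha m, map_zero]
    · intro s n hn
      rw [smul_comm, hn, smul_zero]
    · intro x y hx hy
      rw [smul_add, hx, hy, add_zero]
  have hI't : I' ≠ ⊤ := by
    intro h
    have h1 : (1 : B) ∈ I' := by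
      rw [h]
      trivial
    rw [hI', Module.mem_annihilator] at h1
    obtain ⟨x, hx⟩ := exists_ne (0 : M')
    have h2 := h1 x
    rw [one_smul] at h2
    exact hx h2
  have hIt : I ≠ ⊤ := by
    intro h
    have h1 : (1 : A) ∈ I'.comap (algebraMap A B) := hle (by
      rw [h]
      trivial)
    rw [Ideal.mem_comap, map_one] at h1
    exact hI't ((Ideal.eq_top_iff_one _).2 h1)
  rw [Module.supportDim_eq_ringKrullDim_quotient_annihilator] at hM ⊢
  rw [← hI] at hM
  rw [← hI']
  have nR : Nontrivial (A ⧸ I) := Ideal.Quotient.nontrivial_iff.2 hIt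
  have nR' : Nontrivial (B ⧸ I') := Ideal.Quotient.nontrivial_iff.2 hI't
  have lR : IsLocalRing (A ⧸ I) :=
    IsLocalRing.of_surjective' (Ideal.Quotient.mk I) Ideal.Quotient.mk_surjective
  have lR' : IsLocalRing (B ⧸ I') :=
    IsLocalRing.of_surjective' (Ideal.Quotient.mk I') Ideal.Quotient.mk_surjective
  obtain ⟨s, hc, hs1, N, hs2⟩ := YFL_sys i hM
  obtain ⟨φ, hφ0⟩ : ∃ φ : (A ⧸ I) →+* (B ⧸ I'), φ = Ideal.quotientMap I' (algebraMap A B) hle :=
    ⟨_, rfl⟩
  have hφ : (maximalIdeal (A ⧸ I)).map φ = maximalIdeal (B ⧸ I') := by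
    rw [← YFL_max I hIt, ← YFL_max I' hI't, Ideal.map_map, ← hm, Ideal.map_map, hφ0,
      Ideal.quotientMap_comp_mk]
  have h1 := Ideal.map_mono (f := φ) hs1
  have h2 := Ideal.map_mono (f := φ) hs2
  rw [Ideal.map_span, hφ] at h1
  rw [Ideal.map_span, Ideal.map_pow, hφ] at h2
  refine (YFL_dim (s.image φ) (by rw [Finset.coe_image]; exact h1) N
    (by rw [Finset.coe_image]; exact h2)).trans ?_
  exact_mod_cast Finset.card_image_le.trans hc

end NCG
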