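import Pool.Agent.NCG.YDef
import Pool.Agent.NCG.HMB

/-!
# YHB: homology and flat base change; change of scalars

`YHB`: `δ`, `G` endomorphisms of the `A`-module `V`, `Pres δ G`, `B` flat over `A`.  Then `Pres` holds for the base
changes and there is a `B`-linear isomorphism `e : B ⊗ Hm δ ≃ Hm (δ.baseChange B)` with
`e ∘ (hmap δ G).baseChange = hmap (base changes) ∘ e`.
Proof.  Let `Z = ker δ`, `R = (range δ).comap Z.subtype ⊆ Z`, `Hm δ = Z ⧸ R`.  By flatness `B ⊗ Z → B ⊗ V` is injective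
with range `ker (δ.baseChange B)` (`Module.Flat.ker_lTensor_eq`, `LinearMap.baseChange`..., `LinearMap.lTensor_exact` or
`Module.Flat.lTensor_exact`) and `range (δ.baseChange B)` is the image of `B ⊗ range δ`.  Also
`B ⊗ (Z ⧸ R) = (B ⊗ Z) ⧸ (image of B ⊗ R)` (right exactness, `lTensor_exact`).
Direct construction: `Z' = ker (δ.baseChange B)`; the map `B ⊗ Z → Z'` is bijective; a class in `B ⊗ Z` lies in the
image of `B ⊗ R` iff its image in `Z'` is in the range of `δ.baseChange B`: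
if `δ_B y` is the image of `ζ ∈ B ⊗ Z`: apply flatness to the exact sequence
`0 → R → Z ⊕ V ...`, or to the injective map `Hm δ = Z ⧸ R → V ⧸ range δ`: its base change
`B ⊗ Hm δ → B ⊗ (V ⧸ range δ) = (B ⊗ V) ⧸ range δ_B` is injective (flatness), and composed with the surjection
`B ⊗ Z → B ⊗ Hm δ` it is `B ⊗ Z ≃ Z' → (B ⊗ V) ⧸ range δ_B`, whose kernel is `Z' ∩ range δ_B`.  Hence `B ⊗ Hm δ` and
`Hm δ_B = Z' ⧸ (Z' ∩ range δ_B)` are both the image of `Z'` in `(B ⊗ V) ⧸ range δ_B`.
`Pres`: `G` maps `Z` into `Z`, so `G_B` maps the image of `B ⊗ Z` into itself; the same for `range δ`.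
The intertwining property is checked on the classes of `b ⊗ x`, `x ∈ Z`.

`YHC`: a linear isomorphism `V ≃ V'` which intertwines `δ, δ'` and `G, G'` induces an isomorphism of the
homology which intertwines `hmap δ G` and `hmap δ' G'` (compare the proof of `htr_congr` in `HMB.lean`).

`YHK`: `B` a commutative `K`-algebra.  `ker`, `range`, `Pres` of `mv B X` and `mv K X` are the same sets, so
`Hm (mv B X)` and `Hm (mv K X)` are `K`-linearly isomorphic (send the class of `x` to the class of `x`),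
compatibly with `hmap`; so the trace over `K` of `hmap (mv B X) (mv B Y)` is `htr (mv K X) (mv K Y)`, and one
is finite over `K` iff the other is.
-/

open scoped BigOperators TensorProduct

namespace NCG

universe u

section base

variable {A B : Type u} [CommRing A] [CommRing B] [Algebra A B] {V : Type u}
    [AddCommGroup V] [Module A V]

private theorem YHB_comp {V W X : Type u} [AddCommGroup V] [Module A V] [AddCommGroup W]
    [Module A W] [AddCommGroup X] [Module A X] (g : W →ₗ[A] X) (f : V →ₗ[A] W) (x : B ⊗[A] V) :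
    g.baseChange B (f.baseChange B x) = (g ∘ₗ f).baseChange B x := by
  rw [LinearMap.baseChange_comp]
  rfl

private theorem YHB_surj {V W : Type u} [AddCommGroup V] [Module A V] [AddCommGroup W]
    [Module A W] (f : V →ₗ[A] W) (hf : Function.Surjective f) :
    Function.Surjective (f.baseChange B) := by
  intro x
  obtain ⟨y, hy⟩ := LinearMap.lTensor_surjective B hf x
  exact ⟨y, hy⟩

private theorem YHB_inj [Module.Flat A B] {V W : Type u} [AddCommGroup V] [Module A V]
    [AddCommGroup W] [Module A W] (f : V →ₗ[A] W) (hf : Function.Injective f) :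
    Function.Injective (f.baseChange B) := by
  intro x y hxy
  exact Module.Flat.lTensor_preserves_injective_linearMap (M := B) f hf hxy

/-- the kernel of the base change -/
private theorem YHB_ker [Module.Flat A B] (δ : V →ₗ[A] V) (x : B ⊗[A] V) :
    δ.baseChange B x = 0 ↔ ∃ ζ : B ⊗[A] (LinearMap.ker δ),
      (LinearMap.ker δ).subtype.baseChange B ζ = x := by
  have h1 : Function.Exact (LinearMap.ker δ).subtype δ := LinearMap.exact_subtype_ker_map δ
  have h2 := Module.Flat.lTensor_exact B h1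
  exact h2 x

/-- the range of the base change -/
private theorem YHB_range (δ : V →ₗ[A] V) (x : B ⊗[A] V) :
    (LinearMap.range δ).mkQ.baseChange B x = 0 ↔ ∃ y, δ.baseChange B y = x := by
  have h1 : Function.Exact δ (LinearMap.range δ).mkQ := LinearMap.exact_map_mkQ_range δ
  have h2 := lTensor_exact B h1 (Submodule.mkQ_surjective _)
  exact h2 x

private theorem YHB_pres [Module.Flat A B] (δ G : V →ₗ[A] V) (h : Pres δ G) :
    Pres (δ.baseChange B) (G.baseChange B) := by
  refine ⟨fun x hx => ?_, fun x hx => ?_⟩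
  · rw [LinearMap.mem_ker, YHB_ker] at hx ⊢
    obtain ⟨ζ, rfl⟩ := hx
    refine ⟨(G.restrict h.1).baseChange B ζ, ?_⟩
    rw [YHB_comp, YHB_comp]
    rfl
  · obtain ⟨y, rfl⟩ := hx
    rw [LinearMap.mem_range, ← YHB_range]
    have h2 : LinearMap.range δ ≤ (LinearMap.range δ).comap G := h.2
    have h3 : (LinearMap.range δ).mkQ ∘ₗ G =
        (Submodule.mapQ _ _ G h2) ∘ₗ (LinearMap.range δ).mkQ := by
      rw [Submodule.mapQ_mkQ]
    rw [YHB_comp, h3, ← YHB_comp, (YHB_range δ _).2 ⟨y, rfl⟩, map_zero]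

/-- the map `B ⊗ ker δ → Hm δ_B` -/
private noncomputable def YHB_T [Module.Flat A B] (δ : V →ₗ[A] V) :
    (B ⊗[A] (LinearMap.ker δ)) →ₗ[B] Hm (δ.baseChange B) :=
  Submodule.mkQ _ ∘ₗ
    ((LinearMap.ker δ).subtype.baseChange B).codRestrict (LinearMap.ker (δ.baseChange B))
      (fun ζ => (YHB_ker δ _).2 ⟨ζ, rfl⟩)

private theorem YHB_T_apply [Module.Flat A B] (δ : V →ₗ[A] V) (ζ : B ⊗[A] (LinearMap.ker δ)) :
    YHB_T (B := B) δ ζ = Submodule.Quotient.mk
      ⟨(LinearMap.ker δ).subtype.baseChange B ζ, (YHB_ker δ _).2 ⟨ζ, rfl⟩⟩ := rfl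

private theorem YHB_T_surj [Module.Flat A B] (δ : V →ₗ[A] V) :
    Function.Surjective (YHB_T (B := B) δ) := by
  intro z
  obtain ⟨⟨x, hx⟩, rfl⟩ := Submodule.Quotient.mk_surjective _ z
  obtain ⟨ζ, hζ⟩ := (YHB_ker δ x).1 hx
  refine ⟨ζ, ?_⟩
  rw [YHB_T_apply]
  congr 1
  exact Subtype.ext hζ

private noncomputable def YHB_pi (δ : V →ₗ[A] V) :
    (B ⊗[A] (LinearMap.ker δ)) →ₗ[B] (B ⊗[A] Hm δ) :=
  (Submodule.mkQ ((LinearMap.range δ).comap (LinearMap.ker δ).subtype)).baseChange B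

private theorem YHB_pi_surj (δ : V →ₗ[A] V) : Function.Surjective (YHB_pi (B := B) δ) :=
  YHB_surj _ (Submodule.mkQ_surjective _)

private theorem YHB_kereq [Module.Flat A B] (δ : V →ₗ[A] V) :
    LinearMap.ker (YHB_pi (B := B) δ) = LinearMap.ker (YHB_T (B := B) δ) := by
  ext ζ
  rw [LinearMap.mem_ker, LinearMap.mem_ker, YHB_T_apply]
  have e1 : (Submodule.Quotient.mk (⟨(LinearMap.ker δ).subtype.baseChange B ζ,
      (YHB_ker δ _).2 ⟨ζ, rfl⟩⟩ : LinearMap.ker (δ.baseChange B)) : Hm (δ.baseChange B)) = 0 ↔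
      ∃ y, δ.baseChange B y = (LinearMap.ker δ).subtype.baseChange B ζ := by
    rw [Submodule.Quotient.mk_eq_zero]
    rfl
  rw [e1, ← YHB_range]
  let q : Hm δ →ₗ[A] (V ⧸ LinearMap.range δ) :=
    Submodule.mapQ _ _ (LinearMap.ker δ).subtype le_rfl
  have hq : Function.Injective q := by
    rw [← LinearMap.ker_eq_bot, LinearMap.ker_eq_bot']
    intro z hz
    obtain ⟨x, rfl⟩ := Submodule.Quotient.mk_surjective _ z
    have h1 : (Submodule.Quotient.mk x.1 : V ⧸ LinearMap.range δ) = 0 := hz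
    rw [Submodule.Quotient.mk_eq_zero] at h1 ⊢
    exact h1
  have h2 : (LinearMap.range δ).mkQ ∘ₗ (LinearMap.ker δ).subtype = q ∘ₗ
      (Submodule.mkQ ((LinearMap.range δ).comap (LinearMap.ker δ).subtype)) := by
    rw [Submodule.mapQ_mkQ]
  rw [YHB_comp, h2, ← YHB_comp]
  constructor
  · intro h
    have h3 : (Submodule.mkQ ((LinearMap.range δ).comap (LinearMap.ker δ).subtype)).baseChange B ζ
      = 0 := h
    rw [h3, map_zero]
  · intro h
    exact YHB_inj (B := B) q hq (h.trans (map_zero _).symm)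

end base

theorem YHB {A B : Type u} [CommRing A] [CommRing B] [Algebra A B] [Module.Flat A B] {V : Type u}
    [AddCommGroup V] [Module A V] (δ G : V →ₗ[A] V) (h : Pres δ G) :
    ∃ h' : Pres (δ.baseChange B) (G.baseChange B),
      ∃ e : (B ⊗[A] Hm δ) ≃ₗ[B] Hm (δ.baseChange B),
        ∀ x, e ((hmap δ G h).baseChange B x) = hmap _ _ h' (e x) := by
  refine ⟨YHB_pres δ G h, ((YHB_pi (B := B) δ).quotKerEquivOfSurjective (YHB_pi_surj δ)).symm ≪≫ₗ
    Submodule.quotEquivOfEq _ _ (YHB_kereq δ) ≪≫ₗ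
      (YHB_T (B := B) δ).quotKerEquivOfSurjective (YHB_T_surj δ), ?_⟩
  set e := ((YHB_pi (B := B) δ).quotKerEquivOfSurjective (YHB_pi_surj δ)).symm ≪≫ₗ
    Submodule.quotEquivOfEq _ _ (YHB_kereq δ) ≪≫ₗ
      (YHB_T (B := B) δ).quotKerEquivOfSurjective (YHB_T_surj δ) with he
  have hev : ∀ ζ, e (YHB_pi (B := B) δ ζ) = YHB_T (B := B) δ ζ := by
    intro ζ
    have h1 : ((YHB_pi (B := B) δ).quotKerEquivOfSurjective (YHB_pi_surj δ)).symm
        (YHB_pi (B := B) δ ζ) = Submodule.Quotient.mk ζ := by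
      rw [LinearEquiv.symm_apply_eq]
      rfl
    rw [he, LinearEquiv.trans_apply, LinearEquiv.trans_apply, h1]
    rfl
  intro x
  obtain ⟨ζ, rfl⟩ := YHB_pi_surj (B := B) δ x
  have h2 : (hmap δ G h).baseChange B (YHB_pi (B := B) δ ζ) =
      YHB_pi (B := B) δ ((G.restrict h.1).baseChange B ζ) := by
    unfold YHB_pi
    rw [YHB_comp, YHB_comp]
    rfl
  rw [h2, hev, hev, YHB_T_apply, YHB_T_apply, hmap_mk]
  congr 1
  apply Subtype.ext
  change (LinearMap.ker δ).subtype.baseChange B ((G.restrict h.1).baseChange B ζ) =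
    G.baseChange B ((LinearMap.ker δ).subtype.baseChange B ζ)
  rw [YHB_comp, YHB_comp]
  rfl

private theorem YHC_pres {B : Type u} [CommRing B] {V V' : Type u} [AddCommGroup V] [Module B V]
    [AddCommGroup V'] [Module B V'] (δ G : V →ₗ[B] V) (δ' G' : V' →ₗ[B] V') (e : V ≃ₗ[B] V')
    (hδ : ∀ x, e (δ x) = δ' (e x)) (hG : ∀ x, e (G x) = G' (e x)) (h : Pres δ G) :
    Pres δ' G' := by
  refine ⟨fun y hy => ?_, fun y hy => ?_⟩
  · rw [LinearMap.mem_ker] at hy ⊢
    have h1 : e.symm y ∈ LinearMap.ker δ := by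
      rw [LinearMap.mem_ker]
      apply e.injective
      rw [hδ, e.apply_symm_apply, hy, map_zero]
    have h2 := h.1 _ h1
    rw [LinearMap.mem_ker] at h2
    rw [← e.apply_symm_apply y, ← hG, ← hδ, h2, map_zero]
  · obtain ⟨z, rfl⟩ := hy
    obtain ⟨w, hw⟩ := h.2 (δ (e.symm z)) ⟨_, rfl⟩
    refine ⟨e w, ?_⟩
    rw [← hδ, hw, hG, hδ, e.apply_symm_apply]

theorem YHC {B : Type u} [CommRing B] {V V' : Type u} [AddCommGroup V] [Module B V]
    [AddCommGroup V'] [Module B V'] (δ G : V →ₗ[B] V) (δ' G' : V' →ₗ[B] V') (e : V ≃ₗ[B] V')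
    (hδ : ∀ x, e (δ x) = δ' (e x)) (hG : ∀ x, e (G x) = G' (e x)) (h : Pres δ G) :
    ∃ h' : Pres δ' G', ∃ ε : Hm δ ≃ₗ[B] Hm δ', ∀ x, ε (hmap δ G h x) = hmap δ' G' h' (ε x) := by
  have hker : (LinearMap.ker δ).map (e : V →ₗ[B] V') = LinearMap.ker δ' := by
    ext y
    rw [Submodule.mem_map]
    constructor
    · rintro ⟨x, hx, rfl⟩
      rw [LinearMap.mem_ker] at hx ⊢
      show δ' (e x) = 0
      rw [← hδ, hx, map_zero]
    · intro hy
      rw [LinearMap.mem_ker] at hy
      refine ⟨e.symm y, ?_, e.apply_symm_apply y⟩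
      rw [LinearMap.mem_ker]
      apply e.injective
      rw [hδ, e.apply_symm_apply, hy, map_zero]
  let E0 : LinearMap.ker δ ≃ₗ[B] LinearMap.ker δ' := e.ofSubmodules _ _ hker
  have hE0 : ∀ x : LinearMap.ker δ, (E0 x).1 = e x.1 := fun x => rfl
  have hmap0 : ((LinearMap.range δ).comap (LinearMap.ker δ).subtype).map
      (E0 : LinearMap.ker δ →ₗ[B] LinearMap.ker δ') =
      (LinearMap.range δ').comap (LinearMap.ker δ').subtype := by
    ext y
    rw [Submodule.mem_map]
    constructor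
    · rintro ⟨x, ⟨z, hz⟩, rfl⟩
      refine ⟨e z, ?_⟩
      rw [← hδ, hz]
      rfl
    · rintro ⟨z, hz⟩
      refine ⟨E0.symm y, ⟨e.symm z, ?_⟩, E0.apply_symm_apply y⟩
      apply e.injective
      rw [hδ, e.apply_symm_apply, hz]
      exact (e.apply_symm_apply y.1).symm
  refine ⟨YHC_pres δ G δ' G' e hδ hG h, Submodule.Quotient.equiv _ _ E0 hmap0, ?_⟩
  intro z
  obtain ⟨x, rfl⟩ := Submodule.Quotient.mk_surjective _ z
  show Submodule.Quotient.mk (⟨e (G x.1), _⟩ : LinearMap.ker δ') =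
    Submodule.Quotient.mk (⟨G' (e x.1), _⟩ : LinearMap.ker δ')
  congr 2
  exact hG x.1

section scal

variable {K B : Type u} [Field K] [CommRing B] [Algebra K B] {M : Type u} [AddCommGroup M]
    [Module K M] [Module B M] [IsScalarTower K B M] {J : Type} [Fintype J]

private theorem YHK_mv (X : Matrix J J B) (x : J → M) : mv K X x = mv B X x := rfl

private def YHK_id (X : Matrix J J B) :
    LinearMap.ker (mv K (M := M) X) →ₗ[K] LinearMap.ker (mv B (M := M) X) where
  toFun x := ⟨x.1, x.2⟩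
  map_add' _ _ := rfl
  map_smul' _ _ := rfl

private noncomputable def YHK_E (X : Matrix J J B) :
    Hm (mv K (M := M) X) →ₗ[K] Hm (mv B (M := M) X) :=
  Submodule.liftQ _ ((Submodule.mkQ ((LinearMap.range (mv B (M := M) X)).comap
    (LinearMap.ker (mv B (M := M) X)).subtype)).restrictScalars K ∘ₗ YHK_id X) (by
    intro x hx
    obtain ⟨y, hy⟩ := hx
    rw [LinearMap.mem_ker]
    change (Submodule.Quotient.mk (YHK_id X x) : Hm (mv B (M := M) X)) = 0
    rw [Submodule.Quotient.mk_eq_zero]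
    exact ⟨y, hy⟩)

private theorem YHK_E_mk (X : Matrix J J B) (x : LinearMap.ker (mv K (M := M) X)) :
    YHK_E X (Submodule.Quotient.mk x) = Submodule.Quotient.mk (YHK_id X x) := rfl

private theorem YHK_bij (X : Matrix J J B) : Function.Bijective (YHK_E (K := K) (M := M) X) := by
  constructor
  · rw [← LinearMap.ker_eq_bot, LinearMap.ker_eq_bot']
    intro z hz
    obtain ⟨x, rfl⟩ := Submodule.Quotient.mk_surjective _ z
    rw [YHK_E_mk, Submodule.Quotient.mk_eq_zero] at hz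
    rw [Submodule.Quotient.mk_eq_zero]
    exact hz
  · intro z
    obtain ⟨x, rfl⟩ := Submodule.Quotient.mk_surjective _ z
    exact ⟨Submodule.Quotient.mk ⟨x.1, x.2⟩, rfl⟩

end scal

theorem YHK {K B : Type u} [Field K] [CommRing B] [Algebra K B] {M : Type u} [AddCommGroup M]
    [Module K M] [Module B M] [IsScalarTower K B M] {J : Type} [Fintype J] (X Y : Matrix J J B)
    (h : Pres (mv B (M := M) X) (mv B (M := M) Y)) :
    Pres (mv K (M := M) X) (mv K (M := M) Y) ∧
    (Module.Finite K (Hm (mv K (M := M) X)) → Module.Finite K (Hm (mv B (M := M) X))) ∧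
    LinearMap.trace K (Hm (mv B (M := M) X)) ((hmap _ _ h).restrictScalars K) =
      htr (mv K (M := M) X) (mv K (M := M) Y) := by
  have hK : Pres (mv K (M := M) X) (mv K (M := M) Y) :=
    ⟨fun x hx => h.1 x hx, fun x hx => h.2 x hx⟩
  let e : Hm (mv K (M := M) X) ≃ₗ[K] Hm (mv B (M := M) X) :=
    LinearEquiv.ofBijective (YHK_E X) (YHK_bij X)
  refine ⟨hK, fun hf => Module.Finite.equiv e, ?_⟩
  rw [htr_eq hK, ← LinearMap.trace_conj' (hmap _ _ hK) e]
  congr 1
  refine LinearMap.ext fun z => ?_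
  obtain ⟨w, rfl⟩ := e.surjective z
  obtain ⟨x, rfl⟩ := Submodule.Quotient.mk_surjective _ w
  rw [LinearEquiv.conj_apply_apply, LinearEquiv.symm_apply_apply]
  rfl

end NCG
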