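import Pool.Agent.NCG.YDef

/-!
# YLB: the trace `ltr` is invariant under flat local base change with the same residue field

`A → B` flat, `𝔪_A B = 𝔪_B`, `A → B → K`.  Then `ltr B K (1 ⊗ σ) = ltr A K σ` for `σ : H → H`.

Proof.  Term by term: `gtr B K (σ.baseChange B) j = gtr A K σ j`.  Let `N = 𝔪_A^j • ⊤ ⊆ H`,
`N' = 𝔪_B^j • ⊤ ⊆ B ⊗[A] H`.  Since `𝔪_B^j = (𝔪_A^j).map` (`Ideal.map_pow`), `N'` is the `B`-submodule generated by the
elements `b ⊗ x`, `x ∈ N` (`Submodule.baseChange B N`; `1 ⊗ (a • x) = a • (1 ⊗ x)`).  The map `B ⊗[A] N → B ⊗[A] H` is injective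
by flatness (`Module.Flat.lTensor_preserves_injective_linearMap`) with range `N'`, so it gives a `B`-linear isomorphism
`e : B ⊗[A] N ≃ N'` with `e ((rstr A σ j).baseChange B x) = rstr B (σ.baseChange B) j (e x)`.  Then
`K ⊗[B] N' ≃ K ⊗[B] (B ⊗[A] N) ≃ K ⊗[A] N` (`LinearEquiv.lTensor`/`baseChange`, and
`TensorProduct.AlgebraTensorModule.cancelBaseChange A B K K N`) is `K`-linear and intertwines the two operators
(check on pure tensors), so the traces agree (`LinearMap.trace_conj'`).
-/

open scoped BigOperators TensorProduct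
open IsLocalRing

namespace NCG

universe u

private theorem YLB_trace {K V W : Type*} [Field K] [AddCommGroup V] [Module K V]
    [AddCommGroup W] [Module K W] (e : V ≃ₗ[K] W) (f : V →ₗ[K] V) (g : W →ₗ[K] W)
    (h : ∀ x, e (f x) = g (e x)) : LinearMap.trace K V f = LinearMap.trace K W g := by
  have : g = e.conj f := LinearMap.ext fun y => by
    rw [LinearEquiv.conj_apply_apply, h, e.apply_symm_apply]
  rw [this, LinearMap.trace_conj']

private theorem YLB_bc {A B : Type u} [CommRing A] [CommRing B] [Algebra A B]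
    {H : Type u} [AddCommGroup H] [Module A H] (I : Ideal A) :
    (I • (⊤ : Submodule A H)).baseChange B =
      (I.map (algebraMap A B)) • (⊤ : Submodule B (B ⊗[A] H)) := by
  refine le_antisymm ?_ ?_
  · rw [Submodule.baseChange_eq_span, Submodule.span_le]
    rintro _ ⟨x, hx, rfl⟩
    refine Submodule.smul_induction_on hx (fun r hr n _ => ?_) (fun x y hx hy => ?_)
    · have h1 : (TensorProduct.mk A B H 1) (r • n) =
          (algebraMap A B r) • ((1 : B) ⊗ₜ[A] n) := by
        rw [TensorProduct.mk_apply, TensorProduct.tmul_smul, algebraMap_smul]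
      rw [h1]
      exact Submodule.smul_mem_smul (Ideal.mem_map_of_mem _ hr) trivial
    · rw [map_add]
      exact Submodule.add_mem _ hx hy
  · rw [Submodule.smul_le]
    intro r hr x _
    refine Submodule.span_induction (p := fun r _ => r • x ∈ (I • (⊤ : Submodule A H)).baseChange B)
      ?_ ?_ ?_ ?_ hr
    · rintro _ ⟨a, ha, rfl⟩
      induction x using TensorProduct.induction_on with
      | zero => rw [smul_zero]; exact Submodule.zero_mem _
      | tmul b y =>
        have h1 : (algebraMap A B a) • (b ⊗ₜ[A] y) = b ⊗ₜ[A] (a • y) := by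
          rw [TensorProduct.tmul_smul, algebraMap_smul]
        change (algebraMap A B a) • (b ⊗ₜ[A] y) ∈ _
        rw [h1]
        exact Submodule.tmul_mem_baseChange_of_mem _ (Submodule.smul_mem_smul ha trivial)
      | add x y hx hy =>
        rw [smul_add]
        exact Submodule.add_mem _ (hx trivial) (hy trivial)
    · rw [zero_smul]
      exact Submodule.zero_mem _
    · intro r s _ _ h1 h2
      rw [add_smul]
      exact Submodule.add_mem _ h1 h2
    · intro b r _ h1
      rw [smul_eq_mul, mul_smul]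
      exact Submodule.smul_mem _ _ h1

theorem YLB {A B K : Type u} [CommRing A] [IsLocalRing A] [CommRing B] [IsLocalRing B]
    [Algebra A B] [Module.Flat A B] [Field K] [Algebra A K] [Algebra B K] [IsScalarTower A B K]
    (hm : (maximalIdeal A).map (algebraMap A B) = maximalIdeal B)
    {H : Type u} [AddCommGroup H] [Module A H] (σ : H →ₗ[A] H) :
    ltr B K (σ.baseChange B) = ltr A K σ := by
  unfold ltr
  refine finsum_congr fun j => ?_
  unfold gtr
  have hN : (((maximalIdeal A) ^ j • (⊤ : Submodule A H) : Submodule A H)).baseChange B =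
      ((maximalIdeal B) ^ j • (⊤ : Submodule B (B ⊗[A] H)) : Submodule B (B ⊗[A] H)) := by
    rw [YLB_bc, Ideal.map_pow, hm]
  let e : B ⊗[A] ((maximalIdeal A) ^ j • (⊤ : Submodule A H) : Submodule A H) ≃ₗ[B]
      ((maximalIdeal B) ^ j • (⊤ : Submodule B (B ⊗[A] H)) : Submodule B (B ⊗[A] H)) :=
    (Submodule.toBaseChange.toLinearEquiv B _).trans (LinearEquiv.ofEq _ _ hN)
  have he : ∀ n, e ((1 : B) ⊗ₜ[A] (rstr A σ j n)) =
      rstr B (σ.baseChange B) j (e ((1 : B) ⊗ₜ[A] n)) := fun n => Subtype.ext rfl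
  let F := (TensorProduct.AlgebraTensorModule.cancelBaseChange A B K K
    ((maximalIdeal A) ^ j • (⊤ : Submodule A H) : Submodule A H)).symm.trans
    (LinearEquiv.baseChange B K _ _ e)
  symm
  refine YLB_trace F _ _ fun x => ?_
  induction x using TensorProduct.induction_on with
  | zero => simp only [map_zero]
  | tmul k n =>
    change k ⊗ₜ[B] (e ((1 : B) ⊗ₜ[A] (rstr A σ j n))) =
      k ⊗ₜ[B] (rstr B (σ.baseChange B) j (e ((1 : B) ⊗ₜ[A] n)))
    rw [he]
  | add x y hx hy => simp only [map_add, hx, hy]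

/-- `ltr` is invariant under conjugation -/
theorem ltr_conj {A K : Type u} [CommRing A] [IsLocalRing A] [Field K] [Algebra A K]
    {H H' : Type u} [AddCommGroup H] [Module A H] [AddCommGroup H'] [Module A H']
    (σ : H →ₗ[A] H) (σ' : H' →ₗ[A] H') (e : H ≃ₗ[A] H') (h : ∀ x, e (σ x) = σ' (e x)) :
    ltr A K σ = ltr A K σ' := by
  unfold ltr
  refine finsum_congr fun j => ?_
  unfold gtr
  have hN : ((maximalIdeal A) ^ j • (⊤ : Submodule A H) : Submodule A H).map
      (e : H →ₗ[A] H') = ((maximalIdeal A) ^ j • (⊤ : Submodule A H') : Submodule A H') := by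
    rw [Submodule.map_smul'', Submodule.map_top, LinearEquiv.range]
  let e' := e.ofSubmodules _ _ hN
  have he' : ∀ n, e' (rstr A σ j n) = rstr A σ' j (e' n) := fun n => Subtype.ext (h n.1)
  refine YLB_trace (LinearEquiv.baseChange A K _ _ e') _ _ fun x => ?_
  induction x using TensorProduct.induction_on with
  | zero => simp only [map_zero]
  | tmul k n =>
    change k ⊗ₜ[A] (e' (rstr A σ j n)) = k ⊗ₜ[A] (rstr A σ' j (e' n))
    rw [he']
  | add x y hx hy => simp only [map_add, hx, hy]

end NCG
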