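import Pool.Agent.NCG.YDef
import Pool.Agent.NCG.LTA

/-!
# YLT: over a ring with a coefficient field the trace `ltr` is the usual trace

`B` is a local ring, `K` a field, `K → B → K` are ring homomorphisms with composition the identity
(`IsScalarTower K B K`), `H` a `B`-module which is finite over `K`.  Then `ltr B K σ` is the trace of `σ` as a
`K`-linear map.

Proof.  `B → K` is surjective, so its kernel is a maximal ideal, which is the maximal ideal `𝔪` of `B`.
Let `N j = 𝔪^j • ⊤ ⊆ H`, so `N (j+1) = 𝔪 • N j` (`pow_succ'`, `Submodule.mul_smul`).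
(a) The map `N j → K ⊗[B] N j`, `x ↦ 1 ⊗ x`, is `K`-linear (`c • x = (algebraMap K B c) • x`, and
`1 ⊗ (b • x) = (algebraMap B K b) ⊗ x`), surjective, and its kernel is `𝔪 • N j = N (j+1)`
(`K ≃ B ⧸ 𝔪`; e.g. by the isomorphism `(B ⧸ 𝔪) ⊗ N ≃ N ⧸ 𝔪 • ⊤`, `TensorProduct.quotTensorEquivQuotSMul`, or: the
`B`-linear map `K ⊗[B] N j → N j ⧸ (𝔪 • ⊤)`, `c ⊗ x ↦ (algebraMap K B c) • x`, is a well defined inverse).
(b) Additivity of the trace in `0 → N (j+1) → N j → K ⊗ N j → 0`:
`trace K (N j) σ = trace K (N (j+1)) σ + gtr B K σ j`.  (The lemma `LTA_add` in `LTA.lean` is private: copy it, or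
use it through another route.)
(c) `N j = 0` for large `j`: `H` is finite over `K`, so the decreasing sequence `N j` of `K`-subspaces
stabilizes, `N j = N (j+1) = 𝔪 • N j`, and `N j` is finite over `B` (it is finite over `K`), so it is `0` by
Nakayama (`Submodule.eq_bot_of_le_smul_of_le_jacobson_bot`).
(d) Sum (b) over `j < J`: `trace K H σ = ∑_{j < J} gtr j`, and `gtr j = 0` for `j ≥ J` (trace on a zero space),
so the finite sum is `finsum` (`finsum_eq_sum_of_support_subset`).  `N 0 = ⊤` (`pow_zero`, `Ideal.one_eq_top`,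
`Submodule.top_smul`): the trace on `N 0` is the trace on `H` (`LinearMap.trace_conj'`, `Submodule.topEquiv`).
-/

open scoped BigOperators TensorProduct
open IsLocalRing

namespace NCG

universe u

private theorem YLT_trace {K V W : Type*} [Field K] [AddCommGroup V] [Module K V]
    [AddCommGroup W] [Module K W] (e : V ≃ₗ[K] W) (f : V →ₗ[K] V) (g : W →ₗ[K] W)
    (h : ∀ x, e (f x) = g (e x)) : LinearMap.trace K V f = LinearMap.trace K W g := by
  have : g = e.conj f := LinearMap.ext fun y => by
    rw [LinearEquiv.conj_apply_apply, h, e.apply_symm_apply]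
  rw [this, LinearMap.trace_conj']

private theorem YLT_add {k W V Q : Type*} [Field k] [AddCommGroup W] [Module k W]
    [Module.Finite k W] [AddCommGroup V] [Module k V] [Module.Finite k V]
    [AddCommGroup Q] [Module k Q] [Module.Finite k Q] (i : W →ₗ[k] V) (q : V →ₗ[k] Q)
    (hi : Function.Injective i) (hq : Function.Surjective q)
    (he : LinearMap.range i = LinearMap.ker q) (GW : W →ₗ[k] W) (G : V →ₗ[k] V)
    (GQ : Q →ₗ[k] Q) (h1 : ∀ x, G (i x) = i (GW x)) (h2 : ∀ x, GQ (q x) = q (G x)) :
    LinearMap.trace k V G = LinearMap.trace k W GW + LinearMap.trace k Q GQ := by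
  obtain ⟨σ, hσ⟩ := q.exists_rightInverse_of_surjective (LinearMap.range_eq_top.2 hq)
  have hσ' : ∀ y, q (σ y) = y := fun y => LinearMap.congr_fun hσ y
  have hr : ∀ x : V, (LinearMap.id - σ ∘ₗ q : V →ₗ[k] V) x ∈ LinearMap.range i := by
    intro x
    rw [he, LinearMap.mem_ker]
    show q (x - σ (q x)) = 0
    rw [map_sub, hσ', sub_self]
  let E : W ≃ₗ[k] LinearMap.range i := LinearEquiv.ofInjective i hi
  let p : V →ₗ[k] W := E.symm.toLinearMap ∘ₗ
    ((LinearMap.id - σ ∘ₗ q : V →ₗ[k] V).codRestrict (LinearMap.range i) hr)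
  have hp : ∀ x, i (p x) = x - σ (q x) := by
    intro x
    have h : E (p x) = ⟨x - σ (q x), hr x⟩ := E.apply_symm_apply _
    exact congrArg Subtype.val h
  have hpi : ∀ x, p (i x) = x := by
    intro x
    apply hi
    have h : i x ∈ LinearMap.ker q := he ▸ ⟨x, rfl⟩
    rw [hp, LinearMap.mem_ker.1 h, map_zero, sub_zero]
  have e1 : G = (G ∘ₗ i) ∘ₗ p + (G ∘ₗ σ) ∘ₗ q := by
    refine LinearMap.ext fun x => ?_
    show G x = G (i (p x)) + G (σ (q x))
    rw [← map_add, hp, sub_add_cancel]
  have e2 : p ∘ₗ (G ∘ₗ i) = GW := by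
    refine LinearMap.ext fun x => ?_
    show p (G (i x)) = GW x
    rw [h1, hpi]
  have e3 : q ∘ₗ (G ∘ₗ σ) = GQ := by
    refine LinearMap.ext fun x => ?_
    show q (G (σ x)) = GQ x
    rw [← h2, hσ']
  calc LinearMap.trace k V G
      = LinearMap.trace k V ((G ∘ₗ i) ∘ₗ p) + LinearMap.trace k V ((G ∘ₗ σ) ∘ₗ q) := by
        rw [← map_add, ← e1]
    _ = LinearMap.trace k W (p ∘ₗ (G ∘ₗ i)) + LinearMap.trace k Q (q ∘ₗ (G ∘ₗ σ)) := by
        rw [LinearMap.trace_comp_comm' p (G ∘ₗ i), LinearMap.trace_comp_comm' q (G ∘ₗ σ)]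
    _ = LinearMap.trace k W GW + LinearMap.trace k Q GQ := by rw [e2, e3]

private theorem YLT_surj {B K : Type u} [CommRing B] [Field K] [Algebra K B] [Algebra B K]
    [IsScalarTower K B K] (c : K) : algebraMap B K (algebraMap K B c) = c := by
  have h := IsScalarTower.algebraMap_apply K B K c
  rw [← h]
  rfl

private theorem YLT_mem {B K : Type u} [CommRing B] [IsLocalRing B] [Field K] [Algebra K B]
    [Algebra B K] [IsScalarTower K B K] (b : B) :
    b ∈ maximalIdeal B ↔ algebraMap B K b = 0 := by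
  have h1 : ∀ b : B, algebraMap B K b = 0 → b ∈ maximalIdeal B := by
    intro b hb
    rw [mem_maximalIdeal, mem_nonunits_iff]
    intro hu
    exact (hu.map (algebraMap B K)).ne_zero hb
  refine ⟨fun hb => ?_, h1 b⟩
  by_contra h
  have h2 : b - algebraMap K B (algebraMap B K b) ∈ maximalIdeal B := by
    refine h1 _ ?_
    rw [map_sub, YLT_surj, sub_self]
  have h3 : algebraMap K B (algebraMap B K b) ∈ maximalIdeal B := by
    have := Ideal.sub_mem _ hb h2
    rwa [sub_sub_cancel] at this
  rw [mem_maximalIdeal, mem_nonunits_iff] at h3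
  exact h3 ((IsUnit.mk0 _ h).map (algebraMap K B))

/-- `1 ⊗ x = 0` iff `x ∈ 𝔪 N` -/
private theorem YLT_ker {B K : Type u} [CommRing B] [IsLocalRing B] [Field K] [Algebra K B]
    [Algebra B K] [IsScalarTower K B K] {N : Type u} [AddCommGroup N] [Module B N] (x : N) :
    (1 : K) ⊗ₜ[B] x = 0 ↔ x ∈ (maximalIdeal B • ⊤ : Submodule B N) := by
  have hs : Function.Surjective (Algebra.ofId B K) := fun c => ⟨algebraMap K B c, YLT_surj c⟩
  have hk : RingHom.ker (Algebra.ofId B K) = maximalIdeal B := by
    ext b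
    rw [RingHom.mem_ker, YLT_mem (K := K)]
    rfl
  let e1 : (B ⧸ RingHom.ker (Algebra.ofId B K)) ≃ₐ[B] K :=
    Ideal.quotientKerAlgEquivOfSurjective hs
  let e2 : (B ⧸ RingHom.ker (Algebra.ofId B K)) ⊗[B] N ≃ₗ[B] K ⊗[B] N :=
    LinearEquiv.rTensor N e1.toLinearEquiv
  let e3 := TensorProduct.quotTensorEquivQuotSMul N (RingHom.ker (Algebra.ofId B K))
  have h1 : (1 : K) ⊗ₜ[B] x = e2 (e3.symm (Submodule.Quotient.mk x)) := by
    rw [TensorProduct.quotTensorEquivQuotSMul_symm_mk]
    change _ = (e1 1) ⊗ₜ[B] x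
    rw [map_one]
  rw [h1, LinearEquiv.map_eq_zero_iff, LinearEquiv.map_eq_zero_iff,
    Submodule.Quotient.mk_eq_zero, hk]

section

variable {B K : Type u} [CommRing B] [IsLocalRing B] [Field K] [Algebra K B] [Algebra B K]
    [IsScalarTower K B K] {H : Type u} [AddCommGroup H] [Module B H] [Module K H]
    [IsScalarTower K B H] [Module.Finite K H]

private theorem YLT_step (σ : H →ₗ[B] H) (j : ℕ) :
    LinearMap.trace K ((maximalIdeal B) ^ j • (⊤ : Submodule B H) : Submodule B H)
      ((rstr B σ j).restrictScalars K) =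
    LinearMap.trace K ((maximalIdeal B) ^ (j + 1) • (⊤ : Submodule B H) : Submodule B H)
      ((rstr B σ (j + 1)).restrictScalars K) + gtr B K σ j := by
  have hle : ((maximalIdeal B) ^ (j + 1) • (⊤ : Submodule B H) : Submodule B H) ≤
      ((maximalIdeal B) ^ j • (⊤ : Submodule B H) : Submodule B H) :=
    Submodule.smul_mono_left (Ideal.pow_le_pow_right (Nat.le_succ j))
  have hf : ∀ i, Module.Finite K ((maximalIdeal B) ^ i • (⊤ : Submodule B H) : Submodule B H) :=
    fun i => Module.Finite.of_injective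
      (((maximalIdeal B) ^ i • (⊤ : Submodule B H) : Submodule B H).subtype.restrictScalars K)
      Subtype.val_injective
  have := hf j
  have := hf (j + 1)
  let q : ((maximalIdeal B) ^ j • (⊤ : Submodule B H) : Submodule B H) →ₗ[K]
      K ⊗[B] ((maximalIdeal B) ^ j • (⊤ : Submodule B H) : Submodule B H) :=
    { toFun := fun x => (1 : K) ⊗ₜ[B] x
      map_add' := fun x y => TensorProduct.tmul_add _ _ _
      map_smul' := fun c x => by
        have h1 : c • x = (algebraMap K B c) • x := (algebraMap_smul B c x).symm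
        rw [h1, ← TensorProduct.smul_tmul, RingHom.id_apply, TensorProduct.smul_tmul']
        congr 1
        rw [Algebra.smul_def, YLT_surj, smul_eq_mul] }
  have hq : Function.Surjective q := by
    intro y
    induction y using TensorProduct.induction_on with
    | zero => exact ⟨0, map_zero q⟩
    | tmul k n =>
      refine ⟨k • n, ?_⟩
      rw [map_smul]
      change k • ((1 : K) ⊗ₜ[B] n) = _
      rw [TensorProduct.smul_tmul', smul_eq_mul, mul_one]
    | add x y hx hy =>
      obtain ⟨a, rfl⟩ := hx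
      obtain ⟨b, rfl⟩ := hy
      exact ⟨a + b, map_add q a b⟩
  have : Module.Finite K (K ⊗[B] ((maximalIdeal B) ^ j • (⊤ : Submodule B H) : Submodule B H)) :=
    Module.Finite.of_surjective q hq
  refine YLT_add ((Submodule.inclusion hle).restrictScalars K) q
    (Submodule.inclusion_injective hle) hq ?_ _ _ _ (fun x => rfl) (fun x => rfl)
  ext x
  rw [LinearMap.mem_ker]
  change _ ↔ (1 : K) ⊗ₜ[B] x = 0
  rw [YLT_ker]
  have hmap : (maximalIdeal B • ⊤ : Submodule B
      ((maximalIdeal B) ^ j • (⊤ : Submodule B H) : Submodule B H)).map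
        (Submodule.subtype _) = ((maximalIdeal B) ^ (j + 1) • (⊤ : Submodule B H)) := by
    rw [Submodule.map_smul'', Submodule.map_top, Submodule.range_subtype, pow_succ',
      Submodule.mul_smul]
  constructor
  · rintro ⟨y, rfl⟩
    have h2 : (y : H) ∈ (maximalIdeal B • ⊤ : Submodule B
      ((maximalIdeal B) ^ j • (⊤ : Submodule B H) : Submodule B H)).map
        (Submodule.subtype _) := by
      rw [hmap]
      exact y.2
    obtain ⟨z, hz, hz2⟩ := h2
    have : z = ((Submodule.inclusion hle).restrictScalars K) y := Subtype.ext hz2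
    rw [← this]
    exact hz
  · intro hx
    have h2 : (x : H) ∈ ((maximalIdeal B) ^ (j + 1) • (⊤ : Submodule B H)) := by
      rw [← hmap]
      exact ⟨x, hx, rfl⟩
    exact ⟨⟨x, h2⟩, Subtype.ext rfl⟩

end

theorem YLT {B K : Type u} [CommRing B] [IsLocalRing B] [Field K] [Algebra K B] [Algebra B K]
    [IsScalarTower K B K] {H : Type u} [AddCommGroup H] [Module B H] [Module K H]
    [IsScalarTower K B H] [Module.Finite K H] (σ : H →ₗ[B] H) :
    ltr B K σ = LinearMap.trace K H (σ.restrictScalars K) := by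
  have hf : ∀ i, Module.Finite K ((maximalIdeal B) ^ i • (⊤ : Submodule B H) : Submodule B H) :=
    fun i => Module.Finite.of_injective
      (((maximalIdeal B) ^ i • (⊤ : Submodule B H) : Submodule B H).subtype.restrictScalars K)
      Subtype.val_injective
  have hle : ∀ i k, i ≤ k → ((maximalIdeal B) ^ k • (⊤ : Submodule B H) : Submodule B H) ≤
      ((maximalIdeal B) ^ i • (⊤ : Submodule B H) : Submodule B H) := fun i k h =>
    Submodule.smul_mono_left (Ideal.pow_le_pow_right h)
  obtain ⟨J, hJ⟩ : ∃ J, ((maximalIdeal B) ^ J • (⊤ : Submodule B H) : Submodule B H) = ⊥ := by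
    let f : ℕ →o (Submodule K H)ᵒᵈ :=
      { toFun := fun j => OrderDual.toDual
          (((maximalIdeal B) ^ j • (⊤ : Submodule B H) : Submodule B H).restrictScalars K)
        monotone' := fun i k h => by
          intro x hx
          exact hle i k h hx }
    obtain ⟨n, hn⟩ := IsArtinian.monotone_stabilizes f
    have h1 : ((maximalIdeal B) ^ n • (⊤ : Submodule B H) : Submodule B H) =
        ((maximalIdeal B) ^ (n + 1) • (⊤ : Submodule B H) : Submodule B H) :=
      Submodule.restrictScalars_injective K _ _ (hn (n + 1) (Nat.le_succ n))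
    refine ⟨n, ?_⟩
    have := hf n
    have hfin : Module.Finite B ((maximalIdeal B) ^ n • (⊤ : Submodule B H) : Submodule B H) :=
      Module.Finite.of_restrictScalars_finite K B _
    refine Submodule.eq_bot_of_le_smul_of_le_jacobson_bot (maximalIdeal B) _
      (Module.Finite.iff_fg.1 hfin) ?_ (IsLocalRing.maximalIdeal_le_jacobson _)
    conv_lhs => rw [h1, pow_succ', Submodule.mul_smul]
  have hbot : ∀ j, J ≤ j → ((maximalIdeal B) ^ j • (⊤ : Submodule B H) : Submodule B H) = ⊥ :=
    fun j h => le_bot_iff.1 (hJ ▸ hle J j h)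
  have hsub : ∀ j, J ≤ j →
      Subsingleton ((maximalIdeal B) ^ j • (⊤ : Submodule B H) : Submodule B H) := fun j h => by
    rw [hbot j h]
    infer_instance
  have hsum : ∀ J : ℕ, LinearMap.trace K
      ((maximalIdeal B) ^ 0 • (⊤ : Submodule B H) : Submodule B H)
      ((rstr B σ 0).restrictScalars K) = ∑ j ∈ Finset.range J, gtr B K σ j +
      LinearMap.trace K ((maximalIdeal B) ^ J • (⊤ : Submodule B H) : Submodule B H)
      ((rstr B σ J).restrictScalars K) := by
    intro J
    induction J with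
    | zero => rw [Finset.sum_range_zero, zero_add]
    | succ J ih =>
      rw [ih, YLT_step σ J, Finset.sum_range_succ]
      ring
  have hz : ∀ j, J ≤ j → gtr B K σ j = 0 := by
    intro j hj
    have := hsub j hj
    unfold gtr
    rw [Subsingleton.elim (rstr B σ j) 0, LinearMap.baseChange_zero, map_zero]
  have hz2 : LinearMap.trace K ((maximalIdeal B) ^ J • (⊤ : Submodule B H) : Submodule B H)
      ((rstr B σ J).restrictScalars K) = 0 := by
    have := hsub J le_rfl
    rw [Subsingleton.elim ((rstr B σ J).restrictScalars K) 0, map_zero]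
  have hfs : ltr B K σ = ∑ j ∈ Finset.range J, gtr B K σ j := by
    unfold ltr
    refine finsum_eq_sum_of_support_subset _ ?_
    intro j hj
    rw [Finset.coe_range, Set.mem_Iio]
    by_contra h
    exact hj (hz j (not_lt.1 h))
  have h0 := hsum J
  rw [hz2, add_zero, ← hfs] at h0
  rw [← h0]
  have htop : ((maximalIdeal B) ^ 0 • (⊤ : Submodule B H) : Submodule B H) = ⊤ := by
    rw [pow_zero, Ideal.one_eq_top, Submodule.top_smul]
  refine YLT_trace (LinearEquiv.ofBijective
    (((maximalIdeal B) ^ 0 • (⊤ : Submodule B H) : Submodule B H).subtype.restrictScalars K)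
    ⟨Subtype.val_injective, fun x => ⟨⟨x, by rw [htop]; trivial⟩, rfl⟩⟩) _ _ fun x => rfl

end NCG
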