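import Pool.Agent.NCG.DEV
import Pool.Agent.NCG.YLT
import Pool.Agent.NCG.YLB
import Pool.Agent.NCG.YHB
import Pool.Agent.NCG.YFL

/-!
# YGN: reduction to a flat local extension with a coefficient field

`A → B` a flat homomorphism of Noetherian local rings with `𝔪_A B = 𝔪_B`; `K` a field with `A → B → K` and
`K → B → K` the identity.

`YAL`: `al K F M m = am K (F.bc B) M' m` for a base change `M'` of `M`.
Proof.  Let `Δ = F.del (m+1)`, `G = gam * cyc` over `A`, `Δ', G'` the corresponding matrices over `B`; they are the images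
of `Δ`, `G` under `algebraMap A B` (`(F.bc B).del = (F.del).map`: `Gam`, `slot` are natural in the coefficients, as
`sgn` is an integer: `Gam_map`, `slot_map` in `SLT.lean`, `gam_map_int`, `cyc_map_int` or direct).
`Pres (mv A Δ) (mv A G)` holds: `G Δ = - Δ G` (`gamcyc_Gam` in `CYM.lean`, `Pres_of_anticomm`).
Let `V = J → M`, `J = Fin (m+1) → F.ι`.  `YHB` for `δ = mv A Δ`, `mv A G` gives
`B ⊗ Hm (mv A Δ) ≃ Hm ((mv A Δ).baseChange B)`; by `YLB` and `ltr_conj`
`al K F M m = ltr A K (hmap ..) = ltr B K (hmap of the base changes)`.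
The isomorphism `B ⊗[A] (J → M) ≃ (J → M')`, `b ⊗ x ↦ (a ↦ b • g (x a))` (`TensorProduct.piRight` and
`IsBaseChange.equiv`) carries `(mv A Δ).baseChange B` to `mv B Δ'` and `(mv A G).baseChange B` to `mv B G'` (check on
pure tensors), so by `YHC` and `ltr_conj` the number is `ltr B K (hmap (mv B Δ') (mv B G'))`.
By `TFD` (`F.bc B` has finite length homology by `YFL`, `M'` is finite by `YSF`, the residue field of `B` is finite over
`K`: `K → B ⧸ 𝔪_B` is surjective, since `b - algebraMap K B (algebraMap B K b)` is in the kernel of `B → K`, which is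
the maximal ideal) the space `Hm (mv K Δ')` is finite over `K`, so `Hm (mv B Δ')` is (`YHK`), and `YLT` and
`YHK` give `htr (mv K Δ') (mv K G') = am K (F.bc B) M' m`.

`YGN`: immediate from `YAL`, `YFL`, `YSD`, `YSF`: take `M' = B ⊗[A] M` with `K` acting through `K → B`
(`Module.compHom M' (algebraMap K B)`, as a local instance), and apply the hypothesis `H` to `F.bc B` and `M'`.
-/

open scoped BigOperators TensorProduct
open IsLocalRing

namespace NCG

universe u

private theorem YGN_pres {A : Type u} [CommRing A] (F : Cx A) (M : Type u) [AddCommGroup M]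
    [Module A M] (m : ℕ) : Pres (mv A (M := M) (F.del (m + 1)))
      (mv A (M := M) (gam F.deg A (m + 1) * cyc F.deg A m)) := by
  refine Pres_of_anticomm ?_
  have hD : ∀ a b, F.D a b ≠ 0 → Odd (F.deg a - F.deg b) := by
    intro a b hab
    rw [F.homog a b hab]
    exact ⟨-1, by ring⟩
  rw [← mv_mul, ← mv_mul, ← mv_neg]
  exact congrArg (fun X => mv A (M := M) X) (gamcyc_Gam F.deg m F.D hD)

section

variable {A B : Type u} [CommRing A] [CommRing B] [Algebra A B] {M M' : Type u}
  [AddCommGroup M] [Module A M] [AddCommGroup M'] [Module A M'] [Module B M']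
  [IsScalarTower A B M'] {J : Type} [Fintype J] [DecidableEq J]

private noncomputable def YGN_e (g : M →ₗ[A] M') (hg : IsBaseChange B g) :
    (B ⊗[A] (J → M)) ≃ₗ[B] (J → M') :=
  (TensorProduct.piRight A B B (fun _ : J => M)).trans
    (LinearEquiv.piCongrRight fun _ => hg.equiv)

private theorem YGN_e_tmul (g : M →ₗ[A] M') (hg : IsBaseChange B g) (b : B) (x : J → M) (a : J) :
    YGN_e g hg (b ⊗ₜ[A] x) a = b • g (x a) := by
  have h1 : YGN_e g hg (b ⊗ₜ[A] x) a = hg.equiv (b ⊗ₜ[A] x a) := rfl
  rw [h1, IsBaseChange.equiv_tmul]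

private theorem YGN_int (g : M →ₗ[A] M') (hg : IsBaseChange B g) (X : Matrix J J A)
    (z : B ⊗[A] (J → M)) : YGN_e g hg ((mv A (M := M) X).baseChange B z) =
      mv B (M := M') (X.map (algebraMap A B)) (YGN_e g hg z) := by
  induction z using TensorProduct.induction_on with
  | zero => rw [map_zero, map_zero, map_zero]
  | add x y hx hy => rw [map_add, map_add, map_add, map_add, hx, hy]
  | tmul b x =>
    funext a
    rw [LinearMap.baseChange_tmul, YGN_e_tmul, mv_apply, mv_apply, map_sum, Finset.smul_sum]
    refine Finset.sum_congr rfl fun c _ => ?_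
    rw [YGN_e_tmul, Matrix.map_apply, map_smul, algebraMap_smul, smul_comm]

private theorem YGN_del (F : Cx A) (m : ℕ) :
    (F.del m).map (algebraMap A B) = (F.bc B).del m := by
  exact Gam_map F.deg m F.D (algebraMap A B : A →+ B)

private theorem YGN_G (F : Cx A) (m : ℕ) :
    (gam F.deg A (m + 1) * cyc F.deg A m).map (algebraMap A B) =
      gam F.deg B (m + 1) * cyc F.deg B m := by
  rw [Matrix.map_mul, gam_map, cyc_map]

end

private theorem YGN_res {B K : Type u} [CommRing B] [IsLocalRing B] [Field K] [Algebra B K]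
    [Algebra K B] [IsScalarTower K B K] : Module.Finite K (ResidueField B) := by
  have hs : Function.Surjective (algebraMap B K) := by
    intro c
    refine ⟨algebraMap K B c, ?_⟩
    rw [← IsScalarTower.algebraMap_apply K B K]
    rfl
  have hk : RingHom.ker (algebraMap B K) = maximalIdeal B := by
    have h1 : (RingHom.ker (algebraMap B K)).IsMaximal :=
      RingHom.ker_isMaximal_of_surjective _ hs
    exact IsLocalRing.eq_maximalIdeal h1
  have hsurj : Function.Surjective (algebraMap K (ResidueField B)) := by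
    intro y
    obtain ⟨b, rfl⟩ := IsLocalRing.residue_surjective y
    refine ⟨algebraMap B K b, ?_⟩
    rw [IsScalarTower.algebraMap_apply K B (ResidueField B)]
    have h2 : algebraMap K B (algebraMap B K b) - b ∈ maximalIdeal B := by
      rw [← hk, RingHom.mem_ker, map_sub, ← IsScalarTower.algebraMap_apply K B K]
      exact sub_self _
    have h3 : residue B (algebraMap K B (algebraMap B K b) - b) = 0 := by
      rw [IsLocalRing.residue_eq_zero_iff]
      exact h2
    rw [map_sub, sub_eq_zero] at h3
    exact h3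
  exact Module.Finite.of_surjective (Algebra.linearMap K (ResidueField B)) hsurj

variable {A B K : Type u} [CommRing A] [IsLocalRing A] [IsNoetherianRing A] [CommRing B]
  [IsLocalRing B] [IsNoetherianRing B] [Algebra A B] [Module.Flat A B] [Field K] [Algebra A K]
  [Algebra B K] [IsScalarTower A B K] [Algebra K B] [IsScalarTower K B K]

omit [IsNoetherianRing A] [IsNoetherianRing B] [Algebra K B] [IsScalarTower K B K] in
private theorem YGN_step (hm : (maximalIdeal A).map (algebraMap A B) = maximalIdeal B)
    {M M' : Type u} [AddCommGroup M] [Module A M] [AddCommGroup M'] [Module A M'] [Module B M']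
    [IsScalarTower A B M'] (g : M →ₗ[A] M') (hg : IsBaseChange B g) {J : Type} [Fintype J]
    [DecidableEq J] (X Y : Matrix J J A) (X' Y' : Matrix J J B)
    (hX : X.map (algebraMap A B) = X') (hY : Y.map (algebraMap A B) = Y')
    (hP : Pres (mv A (M := M) X) (mv A (M := M) Y)) :
    ∃ hP' : Pres (mv B (M := M') X') (mv B (M := M') Y'),
      ltr A K (hmap _ _ hP) = ltr B K (hmap _ _ hP') := by
  subst hX hY
  obtain ⟨hP', e, he⟩ := YHB (B := B) _ _ hP
  have h2 : ltr A K (hmap _ _ hP) = ltr B K (hmap _ _ hP') := by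
    rw [← YLB (B := B) hm (hmap _ _ hP)]
    exact ltr_conj _ _ e he
  obtain ⟨hP'', ε, hε⟩ := YHC _ _ (mv B (M := M') (X.map (algebraMap A B)))
    (mv B (M := M') (Y.map (algebraMap A B))) (YGN_e g hg)
    (fun x => YGN_int g hg X x) (fun x => YGN_int g hg Y x) hP'
  exact ⟨hP'', h2.trans (ltr_conj _ _ ε hε)⟩

theorem YAL (hm : (maximalIdeal A).map (algebraMap A B) = maximalIdeal B) (F : Cx A)
    (hF : F.FinLen) {M M' : Type u} [AddCommGroup M] [Module A M] [Module.Finite A M]
    [AddCommGroup M'] [Module A M'] [Module B M'] [IsScalarTower A B M'] [Module K M']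
    [IsScalarTower K B M'] (g : M →ₗ[A] M') (hg : IsBaseChange B g) (m : ℕ) :
    al K F M m = am K (F.bc B) M' m := by
  classical
  have hP := YGN_pres F M m
  have h1 : al K F M m = ltr A K (hmap _ _ hP) := by
    unfold al
    rw [dif_pos hP]
  obtain ⟨hP'', h3⟩ := YGN_step (K := K) hm g hg (F.del (m + 1))
    (gam F.deg A (m + 1) * cyc F.deg A m) ((F.bc B).del (m + 1))
    (gam F.deg B (m + 1) * cyc F.deg B m) (YGN_del F (m + 1)) (YGN_G F m) hP
  have : Module.Finite B M' := YSF g hg
  have : Module.Finite K (ResidueField B) := YGN_res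
  have hfin : Module.Finite K (Hm (mv K (M := M') ((F.bc B).del (m + 1)))) :=
    TFD (F.bc B) (YFL hm F hF) M' m
  obtain ⟨hPK, hK1, hK2⟩ := YHK (K := K) (M := M') _ _ hP''
  have := hK1 hfin
  have h4 := YLT (K := K) (hmap _ _ hP'')
  exact h1.trans (h3.trans (h4.trans hK2))

theorem YGN (hm : (maximalIdeal A).map (algebraMap A B) = maximalIdeal B) (b : Prop) (i : ℕ)
    (H : ∀ (F : Cx B), F.FinLen → ∀ (M : Type u) [AddCommGroup M] [Module K M] [Module B M]
      [IsScalarTower K B M] [Module.Finite B M], Module.supportDim B M ≤ i → PPo K F M i b)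
    (F : Cx A) (hF : F.FinLen) (M : Type u) [AddCommGroup M] [Module A M] [Module.Finite A M]
    (hM : Module.supportDim A M ≤ i) : PPa K F M i b := by
  obtain ⟨M', _, _, _, _, g, hg⟩ : ∃ (M' : Type u) (_ : AddCommGroup M') (_ : Module A M')
      (_ : Module B M') (_ : IsScalarTower A B M') (g : M →ₗ[A] M'), IsBaseChange B g :=
    ⟨B ⊗[A] M, inferInstance, inferInstance, inferInstance, inferInstance,
      TensorProduct.mk A B M 1, TensorProduct.isBaseChange A M B⟩
  let _ : Module K M' := Module.compHom M' (algebraMap K B)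
  have : IsScalarTower K B M' := ⟨fun c b x => by
    rw [Algebra.smul_def, mul_smul]
    rfl⟩
  have : Module.Finite B M' := YSF g hg
  obtain ⟨p, hp1, hp2, hp3⟩ := H (F.bc B) (YFL hm F hF) M' (YSD hm g hg i hM)
  refine ⟨p, hp1, fun m => ?_, hp3⟩
  rw [YAL hm F hF g hg m]
  exact hp2 m

end NCG
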