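import Pool.Agent.NCG.YPS
import Pool.Agent.NCG.FDQ

/-!
# YPF: finiteness over a power series ring of parameters

`Q = K[[X_0, ..., X_{n-1}]]`, `σ : S = K[[Y_0, ..., Y_{r-1}]] → Q` with `σ Y_l = y_l ∈ 𝔪`, `q` an ideal of `Q` with
`𝔪^N ≤ q + (y)`.  Then `Q ⧸ q` is a finite `S`-module (through `σ`).

Proof.  Regard `E = Q ⧸ q` as an `S`-module by the ring homomorphism `ψ = mk ∘ σ` (`RingHom.toAlgebra`).  Let
`𝔫 = Ideal.span (Set.range X)` in `S`; `S` is `𝔫`-adically complete
(the instance in `Mathlib/RingTheory/AdicCompletion/Completeness.lean`).  `𝔫 E` is the ideal of `E` generated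
by the `y_l`.  `E` is Hausdorff for the `𝔫`-adic topology: `𝔫^j E ≤ (𝔪 E)^j`, and `⋂ (𝔪 E)^j = 0` by Krull's
intersection theorem (if `q = ⊤` then `E` is zero; otherwise `E` is a Noetherian local ring).
`E ⧸ 𝔫 E` is killed by `𝔪^N`, so it is finite over `K` (`FDQ_mod` with `A = Q`, `k = K`, `YPS_res`).
Choose `b_1, ..., b_s ∈ E` whose classes generate it over `K`, hence over `S`.  The `S`-linear map `S^s → E`, `e_t ↦ b_t`
is surjective modulo `𝔫 E`, `S^s` is `𝔫`-adically precomplete and `E` is Hausdorff, so it is surjective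
(`surjective_of_mkQ_comp_surjective` in `Mathlib/RingTheory/AdicCompletion/Functoriality.lean`).
(Or show directly by successive approximation that every element of `E` is `∑ c_t b_t`.)
-/

open scoped BigOperators
open IsLocalRing

namespace NCG

universe u

private theorem YPF_prec {R : Type*} [CommRing R] (I : Ideal R) [IsPrecomplete I R] (s : ℕ) :
    IsPrecomplete I (Fin s → R) := by
  have key : ∀ (N : ℕ) (x : Fin s → R), x ∈ (I ^ N • ⊤ : Submodule R (Fin s → R)) ↔
      ∀ t, x t ∈ I ^ N := by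
    intro N x
    constructor
    · intro hx t
      refine Submodule.smul_induction_on hx ?_ ?_
      · intro a ha z _
        exact Ideal.mul_mem_right _ _ ha
      · intro u v hu hv
        exact Ideal.add_mem _ hu hv
    · intro hx
      have : x = ∑ t, x t • (Pi.single t 1 : Fin s → R) := by
        funext i
        rw [Finset.sum_apply, Finset.sum_eq_single i]
        · simp
        · intro j _ hj
          simp [Ne.symm hj]
        · intro h; simp at h
      rw [this]
      exact Submodule.sum_mem _ fun t _ => Submodule.smul_mem_smul (hx t) Submodule.mem_top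
  constructor
  intro f hf
  have h1 : ∀ t, ∃ L : R, ∀ m, f m t ≡ L [SMOD (I ^ m • ⊤ : Submodule R R)] := by
    intro t
    apply IsPrecomplete.prec'
    intro m k hmk
    have := hf hmk
    rw [SModEq.sub_mem] at this ⊢
    rw [key] at this
    have h2 := this t
    rw [smul_eq_mul, Ideal.mul_top]
    exact h2
  choose L hL using h1
  refine ⟨L, fun m => ?_⟩
  rw [SModEq.sub_mem, key]
  intro t
  have h2 := hL t m
  rw [SModEq.sub_mem, smul_eq_mul, Ideal.mul_top] at h2
  exact h2

theorem YPF {n r : ℕ} {K : Type u} [Field K]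
    (σ : MvPowerSeries (Fin r) K →ₐ[K] MvPowerSeries (Fin n) K)
    (y : Fin r → MvPowerSeries (Fin n) K) (hσ : ∀ l, σ (MvPowerSeries.X l) = y l)
    (hy : ∀ l, y l ∈ maximalIdeal (MvPowerSeries (Fin n) K)) (q : Ideal (MvPowerSeries (Fin n) K))
    (N : ℕ) (h : maximalIdeal (MvPowerSeries (Fin n) K) ^ N ≤ q ⊔ Ideal.span (Set.range y)) :
    ((Ideal.Quotient.mk q).comp σ.toRingHom).Finite := by
  classical
  set ψ : MvPowerSeries (Fin r) K →+* (MvPowerSeries (Fin n) K ⧸ q) :=
    (Ideal.Quotient.mk q).comp σ.toRingHom with hψ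
  letI alg : Algebra (MvPowerSeries (Fin r) K) (MvPowerSeries (Fin n) K ⧸ q) := ψ.toAlgebra
  change Module.Finite (MvPowerSeries (Fin r) K) (MvPowerSeries (Fin n) K ⧸ q)
  set nn : Ideal (MvPowerSeries (Fin r) K) :=
    Ideal.span (Set.range (MvPowerSeries.X : Fin r → MvPowerSeries (Fin r) K)) with hnn
  have hsm : ∀ (a : MvPowerSeries (Fin r) K) (x : MvPowerSeries (Fin n) K ⧸ q),
      a • x = Ideal.Quotient.mk q (σ a) * x := fun a x => rfl
  have hnm : nn.map σ.toRingHom ≤ maximalIdeal (MvPowerSeries (Fin n) K) := by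
    rw [hnn, Ideal.map_span, Ideal.span_le]
    rintro _ ⟨_, ⟨l, rfl⟩, rfl⟩
    change σ (MvPowerSeries.X l) ∈ maximalIdeal (MvPowerSeries (Fin n) K)
    rw [hσ l]
    exact hy l
  have hpow : ∀ (j : ℕ) (a : MvPowerSeries (Fin r) K), a ∈ nn ^ j →
      σ a ∈ maximalIdeal (MvPowerSeries (Fin n) K) ^ j := by
    intro j a ha
    have h1 : σ.toRingHom a ∈ (nn ^ j).map σ.toRingHom := Ideal.mem_map_of_mem _ ha
    rw [Ideal.map_pow] at h1
    exact Ideal.pow_right_mono hnm j h1
  -- Hausdorff
  haveI hH : IsHausdorff nn (MvPowerSeries (Fin n) K ⧸ q) := by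
    have hQ : IsHausdorff (maximalIdeal (MvPowerSeries (Fin n) K))
        (MvPowerSeries (Fin n) K ⧸ q) :=
      IsHausdorff.of_le_jacobson _ _ (IsLocalRing.maximalIdeal_le_jacobson _)
    constructor
    intro x hx
    refine hQ.haus' x fun j => ?_
    have h1 := hx j
    rw [SModEq.zero] at h1 ⊢
    refine Submodule.smul_induction_on h1 ?_ ?_
    · intro a ha z _
      have : a • z = (σ a) • z := by
        rw [hsm]
        rfl
      rw [this]
      exact Submodule.smul_mem_smul (hpow j a ha) Submodule.mem_top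
    · intro u v hu hv
      exact Submodule.add_mem _ hu hv
  -- finiteness modulo `nn`
  set J : Ideal (MvPowerSeries (Fin n) K) := q ⊔ Ideal.span (Set.range y) with hJ
  haveI : Module.Finite K (ResidueField (MvPowerSeries (Fin n) K)) := YPS_res
  have hfin : Module.Finite K (MvPowerSeries (Fin n) K ⧸ J) := by
    refine FDQ_mod (k := K) (A := MvPowerSeries (Fin n) K) (MvPowerSeries (Fin n) K ⧸ J) N ?_
    intro a ha x
    obtain ⟨g, rfl⟩ := Ideal.Quotient.mk_surjective x
    have : a • (Ideal.Quotient.mk J g) = Ideal.Quotient.mk J (a * g) := rfl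
    rw [this, Ideal.Quotient.eq_zero_iff_mem]
    exact Ideal.mul_mem_right _ _ (h ha)
  obtain ⟨s, b, hb⟩ := Module.Finite.exists_fin' K (MvPowerSeries (Fin n) K ⧸ J)
  choose β hβ using fun t : Fin s => Ideal.Quotient.mk_surjective (b (Pi.single t 1))
  let f : (Fin s → MvPowerSeries (Fin r) K) →ₗ[MvPowerSeries (Fin r) K]
      (MvPowerSeries (Fin n) K ⧸ q) :=
    ∑ t, (LinearMap.toSpanSingleton (MvPowerSeries (Fin r) K) (MvPowerSeries (Fin n) K ⧸ q)
      (Ideal.Quotient.mk q (β t))) ∘ₗ LinearMap.proj t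
  have hf : ∀ c, f c = ∑ t, c t • Ideal.Quotient.mk q (β t) := by
    intro c
    simp [f, LinearMap.sum_apply]
  haveI : IsPrecomplete nn (Fin s → MvPowerSeries (Fin r) K) := YPF_prec nn s
  have hy2 : ∀ g ∈ Ideal.span (Set.range y), Ideal.Quotient.mk q g ∈
      (nn • ⊤ : Submodule (MvPowerSeries (Fin r) K) (MvPowerSeries (Fin n) K ⧸ q)) := by
    intro g hg
    refine Submodule.span_induction (p := fun g _ => Ideal.Quotient.mk q g ∈
      (nn • ⊤ : Submodule (MvPowerSeries (Fin r) K) (MvPowerSeries (Fin n) K ⧸ q)))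
      ?_ ?_ ?_ ?_ hg
    · rintro _ ⟨l, rfl⟩
      have h1 : Ideal.Quotient.mk q (y l) = (MvPowerSeries.X l : MvPowerSeries (Fin r) K) •
          (1 : MvPowerSeries (Fin n) K ⧸ q) := by
        rw [hsm, hσ l, mul_one]
      rw [h1]
      exact Submodule.smul_mem_smul (Ideal.subset_span ⟨l, rfl⟩) Submodule.mem_top
    · simp
    · intro u v _ _ hu hv
      rw [map_add]
      exact Submodule.add_mem _ hu hv
    · intro a u _ hu
      rw [smul_eq_mul, map_mul]
      refine Submodule.smul_induction_on hu ?_ ?_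
      · intro c hc z _
        have : Ideal.Quotient.mk q a * (c • z) = c • (Ideal.Quotient.mk q a * z) := by
          rw [hsm, hsm]; ring
        rw [this]
        exact Submodule.smul_mem_smul hc Submodule.mem_top
      · intro u v hu hv
        rw [mul_add]
        exact Submodule.add_mem _ hu hv
  have hsurj : Function.Surjective (Submodule.mkQ (nn • ⊤ : Submodule (MvPowerSeries (Fin r) K)
      (MvPowerSeries (Fin n) K ⧸ q)) ∘ₗ f) := by
    intro e
    obtain ⟨e, rfl⟩ := Submodule.mkQ_surjective _ e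
    obtain ⟨g, rfl⟩ := Ideal.Quotient.mk_surjective e
    obtain ⟨κ, hκ⟩ := hb (Ideal.Quotient.mk J g)
    refine ⟨fun t => algebraMap K (MvPowerSeries (Fin r) K) (κ t), ?_⟩
    rw [LinearMap.comp_apply, Submodule.mkQ_apply, Submodule.mkQ_apply,
      Submodule.Quotient.eq, hf]
    have h1 : ∀ t, algebraMap K (MvPowerSeries (Fin r) K) (κ t) • Ideal.Quotient.mk q (β t) =
        Ideal.Quotient.mk q (κ t • β t) := by
      intro t
      rw [hsm, AlgHom.commutes, ← map_mul, Algebra.smul_def]
    rw [Finset.sum_congr rfl fun t _ => h1 t, ← map_sum, ← map_sub]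
    have h2 : (∑ t, κ t • β t) - g ∈ J := by
      rw [← Ideal.Quotient.eq_zero_iff_mem, map_sub, sub_eq_zero, ← hκ, map_sum]
      have h3 : κ = ∑ t, κ t • (Pi.single t 1 : Fin s → K) := by
        funext i
        rw [Finset.sum_apply, Finset.sum_eq_single i]
        · simp
        · intro j _ hj
          simp [Ne.symm hj]
        · intro h; simp at h
      conv_rhs => rw [h3]
      rw [map_sum]
      refine Finset.sum_congr rfl fun t _ => ?_
      rw [b.map_smul, ← hβ t]
      rfl
    obtain ⟨u, hu, v, hv, huv⟩ := Submodule.mem_sup.1 h2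
    rw [← huv, map_add, Ideal.Quotient.eq_zero_iff_mem.2 hu, zero_add]
    exact hy2 v hv
  exact Module.Finite.of_surjective f (surjective_of_mkQ_comp_surjective (I := nn) hsurj)

end NCG
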