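import Pool.Agent.NCG.YPD
import Pool.Agent.NCG.YPF

/-!
# YPR: the Jacobian rank of a prime ideal of a power series ring (characteristic zero)

`Q = K[[X_0, ..., X_{n-1}]]`, `q` a prime ideal, `L` its residue field, `W ⊆ L^n` the span of the vectors
`(∂_j x mod q)_j`, `x ∈ q`.  Then `height q ≤ dim_L W`.

Proof.  (a) `height q + dim Q/q ≤ dim Q = n` (`YPS_dim`; chains of primes below `q` and above `q` can be put together:
for instance `Ideal.height` of the maximal ideal; or search for a lemma on `ringKrullDim_quotient`,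
`Order.height_add_coheight_le`...).  Let `r = dim Q/q`, a natural number `≤ n`.
(b) There are `y_0, ..., y_{r-1} ∈ 𝔪` with `𝔪^N ≤ q + (y)` for some `N`: the maximal ideal of the Noetherian local ring
`Q/q` has height `r`, so it is minimal over an ideal generated by `r` elements
(`Ideal.exists_finset_card_eq_height_of_isNoetherianRing`), whose radical is the maximal ideal.
(c) Let `σ` be the substitution of `YPC`; by `YPF` the ring `Q/q` is finite over `S = K[[Y]]`.
(d) Let `W' = {v ∈ L^n | ∀ w ∈ W, ∑_j v_j w_j = 0}`; `dim W' = n - dim W` (the standard bilinear form is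
nondegenerate; `Subspace.finrank_add_finrank_dualAnnihilator_eq` or `Matrix.rank` nullity of a matrix
whose rows span `W`).  The linear map `W' → L^r`, `v ↦ (∑_j v_j (∂_j y_l mod q))_l` is injective: let `v` be in its
kernel; `δ x = ∑_j v_j (∂_j x mod q)` is a derivation `Q → L` (over `K`), it vanishes on `q`, and by `YPC`
`δ (σ g) = ∑_l (σ (∂_l g) mod q) ∑_j v_j (∂_j y_l mod q) = 0`.  For every `x ∈ Q` there is a monic polynomial over `S` which
kills the class of `x` in `Q/q`; among the polynomials `P ∈ S[T]` whose image in `L[T]` is not zero and which satisfy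
`P(x) = 0` in `L` take one with image of minimal degree.  Apply `δ` to `P(x)` (computed in `Q` with coefficients `σ s_t`; its
class in `L` is zero, so it is in `q` and `δ` of it is `0`): `P'(x) δ x = 0` in `L`, and `P'(x) ≠ 0` in `L` by
minimality, since `P` has positive degree and the characteristic is zero.  So `δ x = 0`.  In particular
`v_j = δ X_j = 0`.  (Alternatively: `δ` induces a derivation of the field `L`, zero on the image of `S`, and `L` is
algebraic, hence separable, over the fraction field of the image of `S`.)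
(e) So `n - dim W ≤ r ≤ n - height q`.
-/

open scoped BigOperators
open IsLocalRing

namespace NCG

universe u

/-- chains of primes below and above `q` -/
private theorem YPR_height {n : ℕ} {Q : Type u} [CommRing Q] [IsLocalRing Q] [IsNoetherianRing Q]
    (hd : ringKrullDim Q = n) (q : Ideal Q) [q.IsPrime] [IsLocalRing (Q ⧸ q)] :
    q.height + (maximalIdeal (Q ⧸ q)).height ≤ n := by
  have h1 : ringKrullDim Q = _ :=
    Order.krullDim_eq_iSup_height_add_coheight_of_nonempty (α := PrimeSpectrum Q)
  rw [hd] at h1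
  have h2 : ((n : ℕ∞) : WithBot ℕ∞) = (n : WithBot ℕ∞) := rfl
  rw [← h2, WithBot.coe_inj] at h1
  let q' : PrimeSpectrum Q := ⟨q, inferInstance⟩
  have h3 : Order.height q' + Order.coheight q' ≤ n := by
    rw [h1]
    exact le_iSup (fun a : PrimeSpectrum Q => Order.height a + Order.coheight a) q'
  have h4 : q.height = Order.height q' := PrimeSpectrum.height_eq_orderHeight q'
  have h5 : (maximalIdeal (Q ⧸ q)).height = Order.coheight q' := by
    have e1 : ((maximalIdeal (Q ⧸ q)).height : WithBot ℕ∞) = ringKrullDim (Q ⧸ q) :=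
      IsLocalRing.maximalIdeal_height_eq_ringKrullDim
    have e2 : ((Order.coheight q' : ℕ∞) : WithBot ℕ∞) = Order.krullDim (Set.Ici q') :=
      Order.coheight_eq_krullDim_Ici q'
    have e3 : (PrimeSpectrum.zeroLocus (R := Q) q : Set (PrimeSpectrum Q)) = Set.Ici q' := by
      ext p
      exact Iff.rfl
    rw [ringKrullDim_quotient, e3, ← e2] at e1
    exact WithBot.coe_injective e1
  rw [h4, h5]
  exact h3

/-- parameters of the quotient ring -/
private theorem YPR_par {Q : Type u} [CommRing Q] [IsLocalRing Q] [IsNoetherianRing Q]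
    (q : Ideal Q) [q.IsPrime] [IsLocalRing (Q ⧸ q)] :
    ∃ (r : ℕ) (y : Fin r → Q), (maximalIdeal (Q ⧸ q)).height = r ∧
      (∀ l, y l ∈ maximalIdeal Q) ∧
      ∃ N, maximalIdeal Q ^ N ≤ q ⊔ Ideal.span (Set.range y) := by
  obtain ⟨s, hs, hc⟩ := Ideal.exists_finset_card_eq_height_of_isNoetherianRing
    (maximalIdeal (Q ⧸ q))
  let e := s.equivFin
  have hsurj : Function.Surjective (Ideal.Quotient.mk q) := Ideal.Quotient.mk_surjective
  choose g hg using hsurj
  let y : Fin s.card → Q := fun l => g (e.symm l).1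
  have hy : ∀ l, Ideal.Quotient.mk q (y l) = (e.symm l).1 := fun l => hg _
  have hspan : (Ideal.span (s : Set (Q ⧸ q))) =
      (Ideal.span (Set.range y)).map (Ideal.Quotient.mk q) := by
    rw [Ideal.map_span]
    congr 1
    ext x
    constructor
    · intro hx
      refine ⟨y (e ⟨x, hx⟩), ⟨_, rfl⟩, ?_⟩
      rw [hy, Equiv.symm_apply_apply]
    · rintro ⟨_, ⟨l, rfl⟩, rfl⟩
      rw [hy]
      exact (e.symm l).2
  have hle : Ideal.span (s : Set (Q ⧸ q)) ≤ maximalIdeal (Q ⧸ q) := hs.1.2
  have hloc : ∀ x, Ideal.Quotient.mk q x ∈ maximalIdeal (Q ⧸ q) → x ∈ maximalIdeal Q := by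
    intro x hx
    rw [mem_maximalIdeal, mem_nonunits_iff] at hx ⊢
    exact fun hu => hx (hu.map _)
  have hloc2 : ∀ x ∈ maximalIdeal Q, Ideal.Quotient.mk q x ∈ maximalIdeal (Q ⧸ q) := by
    intro x hx
    rw [mem_maximalIdeal, mem_nonunits_iff] at hx ⊢
    intro hu
    obtain ⟨b, hb⟩ := hu.exists_right_inv
    obtain ⟨b', rfl⟩ := Ideal.Quotient.mk_surjective b
    rw [← map_mul, ← map_one (Ideal.Quotient.mk q), Ideal.Quotient.eq] at hb
    have h1 : x * b' - 1 ∈ maximalIdeal Q := IsLocalRing.le_maximalIdeal (Ideal.IsPrime.ne_top inferInstance) hb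
    have h2 : x * b' ∈ maximalIdeal Q := Ideal.mul_mem_right _ _
      (by rw [mem_maximalIdeal, mem_nonunits_iff]; exact hx)
    have h3 : (1 : Q) ∈ maximalIdeal Q := by
      have := Ideal.sub_mem _ h2 h1
      rwa [sub_sub_cancel] at this
    exact (Ideal.ne_top_iff_one _).1 (IsLocalRing.maximalIdeal.isMaximal Q).ne_top h3
  refine ⟨s.card, y, hc.symm, fun l => ?_, ?_⟩
  · apply hloc
    rw [hy]
    exact hle (Ideal.subset_span (e.symm l).2)
  · have hrad : maximalIdeal (Q ⧸ q) ≤ (Ideal.span (s : Set (Q ⧸ q))).radical := by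
      rw [Ideal.radical_eq_sInf]
      refine le_sInf fun p hp => ?_
      have hp2 : p.IsPrime := hp.2
      have h1 : p ≤ maximalIdeal (Q ⧸ q) := IsLocalRing.le_maximalIdeal hp2.ne_top
      exact hs.2 ⟨hp2, hp.1⟩ h1
    obtain ⟨N, hN⟩ := Ideal.exists_radical_pow_le_of_fg (Ideal.span (s : Set (Q ⧸ q)))
      (IsNoetherian.noetherian _)
    refine ⟨N, fun x hx => ?_⟩
    have h2 : Ideal.Quotient.mk q x ∈ Ideal.span (s : Set (Q ⧸ q)) := by
      refine hN (Ideal.pow_right_mono hrad N ?_)
      have h3 : (maximalIdeal Q).map (Ideal.Quotient.mk q) ≤ maximalIdeal (Q ⧸ q) := by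
        rw [Ideal.map_le_iff_le_comap]
        exact fun z hz => hloc2 z hz
      refine Ideal.pow_right_mono h3 N ?_
      rw [← Ideal.map_pow]
      exact Ideal.mem_map_of_mem _ hx
    rw [hspan, ← Ideal.mem_comap, Ideal.comap_map_of_surjective _ Ideal.Quotient.mk_surjective] at h2
    rw [sup_comm]
    have h4 : Ideal.comap (Ideal.Quotient.mk q) ⊥ = q := by
      rw [← RingHom.ker_eq_comap_bot, Ideal.mk_ker]
    rwa [h4] at h2

open Polynomial in
/-- derivations of an integral extension in characteristic zero -/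
private theorem YPR_alg {S Q L : Type u} [CommRing S] [CommRing Q] [Field L] [CharZero L]
    (σ : S →+* Q) (π : Q →+* L) (δ : Q → L) (hadd : ∀ x y, δ (x + y) = δ x + δ y)
    (hmul : ∀ x y, δ (x * y) = π x * δ y + π y * δ x) (hσ : ∀ s, δ (σ s) = 0)
    (hker : ∀ x, π x = 0 → δ x = 0)
    (x : Q) (p : S[X]) (hp : p.Monic) (hpx : eval₂ (π.comp σ) (π x) p = 0) : δ x = 0 := by
  have h0 : δ 0 = 0 := by
    have := hadd 0 0
    rw [add_zero] at this
    exact (left_eq_add.1 this)
  have h1 : δ 1 = 0 := by
    have := hσ 1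
    rwa [map_one] at this
  have hpow : ∀ t : ℕ, δ (x ^ (t + 1)) = ((t + 1 : ℕ) : L) * π x ^ t * δ x := by
    intro t
    induction t with
    | zero => simp
    | succ t ih =>
      rw [pow_succ, hmul, ih, map_pow]
      push_cast
      ring
  have hD : ∀ P : S[X], δ (eval₂ σ x P) =
      eval₂ (π.comp σ) (π x) (derivative P) * δ x := by
    intro P
    induction P using Polynomial.induction_on' with
    | add P R hP hR => rw [eval₂_add, hadd, hP, hR, derivative_add, eval₂_add, add_mul]
    | monomial t a =>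
      rw [eval₂_monomial, hmul, hσ, mul_zero, add_zero, derivative_monomial, eval₂_monomial]
      cases t with
      | zero => simp [h1]
      | succ t =>
        rw [hpow, Nat.add_sub_cancel, map_mul, map_natCast]
        change π (σ a) * _ = π (σ a) * _ * _ * _
        ring
  classical
  have hex : ∃ d : ℕ, ∃ P : S[X], P.map (π.comp σ) ≠ 0 ∧ eval₂ (π.comp σ) (π x) P = 0 ∧
      (P.map (π.comp σ)).natDegree = d :=
    ⟨_, p, (hp.map _).ne_zero, hpx, rfl⟩
  obtain ⟨P, hP0, hPx, hPd⟩ := Nat.find_spec hex
  have hmin := fun d (hd : d < Nat.find hex) => Nat.find_min hex hd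
  have h2 : δ (eval₂ σ x P) = 0 := by
    apply hker
    rw [Polynomial.hom_eval₂]
    exact hPx
  rw [hD] at h2
  rcases mul_eq_zero.1 h2 with h3 | h3
  · exfalso
    have hdeg : (P.map (π.comp σ)).natDegree ≠ 0 := by
      intro h4
      have h5 := eq_C_of_natDegree_eq_zero h4
      have h6 : eval (π x) (P.map (π.comp σ)) = 0 := by rw [eval_map]; exact hPx
      rw [h5, eval_C] at h6
      rw [h6, C_0] at h5
      exact hP0 h5
    have hlt := natDegree_derivative_lt hdeg
    have hne : derivative (P.map (π.comp σ)) ≠ 0 := fun h4 =>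
      hdeg (derivative_eq_zero.1 h4)
    refine hmin _ (hPd ▸ hlt) ⟨derivative P, ?_, h3, ?_⟩
    · rw [← derivative_map]
      exact hne
    · rw [← derivative_map]
  · exact h3

theorem YPR {n : ℕ} {K : Type u} [Field K] [CharZero K] (q : Ideal (MvPowerSeries (Fin n) K))
    [q.IsPrime] :
    q.height ≤ (Module.finrank q.ResidueField (Submodule.span q.ResidueField
      {v : Fin n → q.ResidueField | ∃ x ∈ q, v = fun j =>
        algebraMap (MvPowerSeries (Fin n) K) q.ResidueField (pdD n K x j)}) : ℕ∞) := by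
  classical
  let Q := MvPowerSeries (Fin n) K
  let L := q.ResidueField
  let π : Q →+* L := algebraMap Q L
  have hπ : ∀ x : Q, π x = 0 ↔ x ∈ q := fun x => Ideal.algebraMap_residueField_eq_zero
  have hch : CharZero L := charZero_of_injective_ringHom
    (f := π.comp (algebraMap K Q)) (RingHom.injective _)
  have hloc : IsLocalRing (Q ⧸ q) :=
    IsLocalRing.of_surjective' (Ideal.Quotient.mk q) Ideal.Quotient.mk_surjective
  have hH := YPR_height (YPS_dim (K := K) (n := n)).1 q
  obtain ⟨r, y, hr, hy, N, hN⟩ := YPR_par q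
  obtain ⟨σ, hσX, hσ⟩ := YPC y hy
  have hfin := YPF σ y hσX hy q N hN
  have hint := hfin.to_isIntegral
  set W : Submodule L (Fin n → L) := Submodule.span L
      {v : Fin n → L | ∃ x ∈ q, v = fun j => π (pdD n K x j)} with hW
  -- the derivations
  let δ : (Fin n → L) → Q → L := fun v x => ∑ j, v j * π (pdD n K x j)
  have hδadd : ∀ v x z, δ v (x + z) = δ v x + δ v z := by
    intro v x z
    simp only [δ, map_add, Pi.add_apply, mul_add, Finset.sum_add_distrib]
  have hδmul : ∀ v x z, δ v (x * z) = π x * δ v z + π z * δ v x := by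
    intro v x z
    simp only [δ, Derivation.leibniz, Pi.add_apply, Pi.smul_apply, smul_eq_mul, map_add, map_mul,
      Finset.mul_sum, ← Finset.sum_add_distrib]
    exact Finset.sum_congr rfl fun j _ => by ring
  have hδσ : ∀ v, (∀ l, δ v (y l) = 0) → ∀ g, δ v (σ g) = 0 := by
    intro v hv g
    have h1 : δ v (σ g) = ∑ l, π (σ (pdD r K g l)) * δ v (y l) := by
      simp only [δ, hσ, map_sum, map_mul, Finset.mul_sum]
      rw [Finset.sum_comm]
      exact Finset.sum_congr rfl fun l _ => Finset.sum_congr rfl fun j _ => by ring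
    rw [h1]
    exact Finset.sum_eq_zero fun l _ => by rw [hv, mul_zero]
  have hδX : ∀ v j, δ v (MvPowerSeries.X j) = v j := by
    intro v j
    simp only [δ]
    rw [(YPD n K).DX j, Finset.sum_eq_single j]
    · rw [Pi.single_eq_same, map_one, mul_one]
    · intro i _ hi
      rw [Pi.single_eq_of_ne hi, map_zero, mul_zero]
    · intro h
      exact absurd (Finset.mem_univ j) h
  have hmain : ∀ v : Fin n → L, (∀ w ∈ W, ∑ j, v j * w j = 0) → (∀ l, δ v (y l) = 0) →
      v = 0 := by
    intro v hvW hvy
    have hker : ∀ x, π x = 0 → δ v x = 0 := fun x hx =>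
      hvW _ (Submodule.subset_span ⟨x, (hπ x).1 hx, rfl⟩)
    funext j
    rw [← hδX v j]
    obtain ⟨p, hp, hpx⟩ := hint (Ideal.Quotient.mk q (MvPowerSeries.X j))
    refine YPR_alg σ.toRingHom π (δ v) (hδadd v) (hδmul v) (hδσ v hvy) hker _ p hp ?_
    have h1 : (Ideal.Quotient.mk q) (Polynomial.eval₂ σ.toRingHom (MvPowerSeries.X j) p) = 0 := by
      rw [Polynomial.hom_eval₂]
      exact hpx
    rw [← Polynomial.hom_eval₂, hπ]
    exact Ideal.Quotient.eq_zero_iff_mem.1 h1
  -- dimension count
  let A : (Fin n → L) →ₗ[L] Module.Dual L W := LinearMap.mk₂ L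
    (fun (v : Fin n → L) (w : W) => ∑ j, v j * w.1 j)
    (fun v v' w => by simp only [Pi.add_apply, add_mul, Finset.sum_add_distrib])
    (fun c v w => by
      simp only [Pi.smul_apply, smul_eq_mul, mul_assoc]
      exact (Finset.mul_sum _ _ _).symm)
    (fun v w w' => by
      simp only [Submodule.coe_add, Pi.add_apply, mul_add, Finset.sum_add_distrib])
    (fun c v w => by
      simp only [Submodule.coe_smul, Pi.smul_apply, smul_eq_mul]
      refine Eq.trans ?_ (Finset.mul_sum _ _ _).symm
      exact Finset.sum_congr rfl fun j _ => mul_left_comm _ _ _)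
  let B : (Fin n → L) →ₗ[L] (Fin r → L) :=
    { toFun := fun v l => δ v (y l)
      map_add' := fun v v' => by
        funext l
        simp only [δ, Pi.add_apply, add_mul, Finset.sum_add_distrib]
      map_smul' := fun c v => by
        funext l
        simp only [δ, Pi.smul_apply, smul_eq_mul, RingHom.id_apply, mul_assoc]
        exact (Finset.mul_sum _ _ _).symm }
  have hinj : Function.Injective (A.prod B) := by
    rw [← LinearMap.ker_eq_bot, LinearMap.ker_eq_bot']
    intro v hv
    have hv1 : A v = 0 := congrArg Prod.fst hv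
    have hv2 : B v = 0 := congrArg Prod.snd hv
    exact hmain v (fun w hw => LinearMap.congr_fun hv1 ⟨w, hw⟩) (fun l => congrFun hv2 l)
  have hdim := LinearMap.finrank_le_finrank_of_injective hinj
  rw [Module.finrank_prod, Module.finrank_fin_fun, Module.finrank_fin_fun,
    Subspace.dual_finrank_eq] at hdim
  rw [hr] at hH
  have h1 : q.height + r ≤ (Module.finrank L W : ℕ∞) + r := by
    refine hH.trans ?_
    exact_mod_cast hdim
  exact (ENat.add_le_add_iff_right (ENat.natCast_ne_top r)).1 h1

end NCG
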