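import Pool.Agent.NCG.FIN
import Pool.Agent.NCG.YGN
import Pool.Agent.NCG.YDM
import Pool.Agent.NCG.YPR

/-!
# YCP: the main theorem for local rings with completion `κ[[X_0, ..., X_{n-1}]] / (f)`

`A` Noetherian local with residue field `κ` of characteristic zero.

`YTW`: given an isomorphism `e` of the completion with `κ[[X]] / (f)` there is another one, `e'`, with `κ[[X]] / (f')`,
which is compatible with the residue maps.
Proof.  Let `ev : κ[[X]] / (f) → κ` be induced by the constant coefficient (`f l` is not a unit as the sequence is regular).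
The composition `A → Â → κ[[X]]/(f) → κ` is surjective (`A → ResidueField Â` is surjective by
`AdicCompletion.residueField_map_bijective`, and `ev ∘ e` is surjective with kernel the maximal ideal of `Â`), its kernel is
a maximal ideal, so it is `maximalIdeal A`, and it factors as `τ ∘ residue` with an automorphism `τ` of `κ`
(a surjective ring homomorphism of a field is bijective).  Let `θ` be the ring isomorphism of `κ[[X]]` which applies
`τ⁻¹` to the coefficients (`MvPowerSeries.map`), `f' = θ ∘ f`, and `e'` = `e` followed by the isomorphism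
`κ[[X]]/(f) ≃ κ[[X]]/(f')` induced by `θ` (`Ideal.quotientEquiv`).  The constant coefficient of `θ g` is `τ⁻¹` of that of `g`.
`f'` is a regular sequence (transport along the ring isomorphism `θ`).

`YCP`.  Let `B = κ[[X]]/(f')`, an `A`-algebra through `e' ∘ algebraMap A Â` (local instance).  It is flat
(`AdicCompletion.flat_of_isNoetherian`, `Module.Flat.of_linearEquiv` or composition with an isomorphism), `𝔪_A B = 𝔪_B`
(`AdicCompletion.maximalIdeal_eq_map`, transported), local (`CIA_local`), Noetherian (quotient of a Noetherian ring).  `B → κ` is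
`ev'`, `A → B → κ` is the residue map by `YTW`, `κ → B → κ` the identity.  `dim B = dim A = d` (`YDM`).
For primes `p ≠ 𝔪_B` of `B` the localization is regular: `p` corresponds to a prime of `Â`, and localizations are isomorphic
(`IsRegularLocalRing.of_ringEquiv`, `IsLocalization.ringEquivOfRingEquiv` or `Localization.localRingEquiv`).
Apply `YGN` with `K = κ` and `FIN_chart` for `Q = κ[[X]]`, `D = pdD n κ` (`YPD`, `YPS_dim`, `YPS_res`, `YPR`).
-/

open scoped BigOperators
open IsLocalRing RingTheory.Sequence

namespace NCG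

universe u

variable {A : Type u} [CommRing A] [IsLocalRing A] [IsNoetherianRing A]

private theorem ycp_evs {R B : Type u} [CommRing R] [Field B] {S : Type u} [CommRing S]
    [IsLocalRing S] (ε : R ≃+* S) [IsLocalRing R] (ev : S →+* B) (hev : Function.Surjective ev) :
    RingHom.ker (ev.comp ε.toRingHom) = maximalIdeal R := by
  have hs : Function.Surjective (ev.comp ε.toRingHom) := by
    intro c
    obtain ⟨b, rfl⟩ := hev c
    refine ⟨ε.symm b, ?_⟩
    change ev (ε (ε.symm b)) = ev b
    rw [RingEquiv.apply_symm_apply]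
  have h1 : (RingHom.ker (ev.comp ε.toRingHom)).IsMaximal := RingHom.ker_isMaximal_of_surjective _ hs
  exact IsLocalRing.eq_maximalIdeal h1

private theorem ycp_cc {K : Type u} [Field K] {n : ℕ} {I : Ideal (MvPowerSeries (Fin n) K)}
    (hI : I ≠ ⊤) : ∀ a ∈ I, MvPowerSeries.constantCoeff a = 0 := by
  intro a ha
  have h1 : a ∈ maximalIdeal (MvPowerSeries (Fin n) K) := IsLocalRing.le_maximalIdeal hI ha
  rw [IsLocalRing.mem_maximalIdeal, mem_nonunits_iff, MvPowerSeries.isUnit_iff_constantCoeff,
    isUnit_iff_ne_zero, not_not] at h1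
  exact h1

private theorem ycp_evsurj {K : Type u} [Field K] {n : ℕ} {I : Ideal (MvPowerSeries (Fin n) K)}
    (h0 : ∀ a ∈ I, MvPowerSeries.constantCoeff a = 0) :
    Function.Surjective (Ideal.Quotient.lift I MvPowerSeries.constantCoeff h0) := by
  intro c
  refine ⟨Ideal.Quotient.mk I (MvPowerSeries.C c), ?_⟩
  rw [Ideal.Quotient.lift_mk, MvPowerSeries.constantCoeff_C]

/-- the ring automorphism of the power series ring which applies an automorphism of the field to the coefficients -/
private noncomputable def ycpTheta {K : Type u} [Field K] (n : ℕ) (τ : K ≃+* K) :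
    MvPowerSeries (Fin n) K ≃+* MvPowerSeries (Fin n) K :=
  RingEquiv.ofRingHom (MvPowerSeries.map τ.symm.toRingHom) (MvPowerSeries.map τ.toRingHom)
    (by
      rw [← MvPowerSeries.map_comp]
      refine RingHom.ext fun x => ?_
      ext m
      change τ.symm (τ (MvPowerSeries.coeff m x)) = MvPowerSeries.coeff m x
      rw [RingEquiv.symm_apply_apply])
    (by
      rw [← MvPowerSeries.map_comp]
      refine RingHom.ext fun x => ?_
      ext m
      change τ (τ.symm (MvPowerSeries.coeff m x)) = MvPowerSeries.coeff m x
      rw [RingEquiv.apply_symm_apply])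

private theorem ycpTheta_cc {K : Type u} [Field K] (n : ℕ) (τ : K ≃+* K)
    (x : MvPowerSeries (Fin n) K) : MvPowerSeries.constantCoeff (ycpTheta n τ x) =
      τ.symm (MvPowerSeries.constantCoeff x) := rfl

theorem YTW {n c : ℕ} (f : Fin c → MvPowerSeries (Fin n) (ResidueField A))
    (hf : IsRegular (MvPowerSeries (Fin n) (ResidueField A)) (List.ofFn f))
    (e : AdicCompletion (maximalIdeal A) A ≃+*
      (MvPowerSeries (Fin n) (ResidueField A) ⧸ Ideal.span (Set.range f))) :
    ∃ f' : Fin c → MvPowerSeries (Fin n) (ResidueField A),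
      IsRegular (MvPowerSeries (Fin n) (ResidueField A)) (List.ofFn f') ∧
      ∃ h0 : ∀ a ∈ Ideal.span (Set.range f'), MvPowerSeries.constantCoeff a = 0,
      ∃ e' : AdicCompletion (maximalIdeal A) A ≃+*
        (MvPowerSeries (Fin n) (ResidueField A) ⧸ Ideal.span (Set.range f')),
        ∀ a : A, Ideal.Quotient.lift (Ideal.span (Set.range f')) MvPowerSeries.constantCoeff h0
          (e' (algebraMap A (AdicCompletion (maximalIdeal A) A) a)) = residue A a := by
  have hB : IsLocalRing (MvPowerSeries (Fin n) (ResidueField A) ⧸ Ideal.span (Set.range f)) :=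
    CIA_local f hf
  have hI : Ideal.span (Set.range f) ≠ ⊤ := Ideal.Quotient.nontrivial_iff.1 inferInstance
  have h0 := ycp_cc hI
  set ev := Ideal.Quotient.lift (Ideal.span (Set.range f)) MvPowerSeries.constantCoeff h0 with hev
  have hevs : Function.Surjective ev := ycp_evsurj h0
  have hker : RingHom.ker (ev.comp e.toRingHom) =
      maximalIdeal (AdicCompletion (maximalIdeal A) A) := ycp_evs e ev hevs
  let g : A →+* ResidueField A :=
    (ev.comp e.toRingHom).comp (algebraMap A (AdicCompletion (maximalIdeal A) A))
  have hg : Function.Surjective g := by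
    intro c
    obtain ⟨y, hy⟩ := hevs c
    obtain ⟨r, hr⟩ := (AdicCompletion.residueField_map_bijective A).2
      (residue (AdicCompletion (maximalIdeal A) A) (e.symm y))
    obtain ⟨a, rfl⟩ := residue_surjective r
    rw [ResidueField.map_residue] at hr
    have h1 : algebraMap A (AdicCompletion (maximalIdeal A) A) a - e.symm y ∈
        maximalIdeal (AdicCompletion (maximalIdeal A) A) := by
      rw [← residue_eq_zero_iff, map_sub, hr, sub_self]
    rw [← hker, RingHom.mem_ker, map_sub, sub_eq_zero] at h1
    refine ⟨a, ?_⟩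
    change (ev.comp e.toRingHom) (algebraMap A (AdicCompletion (maximalIdeal A) A) a) = c
    rw [h1]
    change ev (e (e.symm y)) = c
    rw [RingEquiv.apply_symm_apply, hy]
  have hgl : IsLocalHom g := IsLocalHom.of_surjective g hg
  have hτ : Function.Bijective (ResidueField.lift g) := by
    refine ⟨RingHom.injective _, fun c => ?_⟩
    obtain ⟨a, rfl⟩ := hg c
    exact ⟨residue A a, ResidueField.lift_residue_apply g a⟩
  let τ : ResidueField A ≃+* ResidueField A := RingEquiv.ofBijective (ResidueField.lift g) hτ
  have hτr : ∀ a, τ.symm (g a) = residue A a := by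
    intro a
    rw [RingEquiv.symm_apply_eq]
    exact (ResidueField.lift_residue_apply g a).symm
  let θ := ycpTheta n τ
  have hII : Ideal.span (Set.range fun l => θ (f l)) = (Ideal.span (Set.range f)).map θ := by
    rw [Ideal.map_span, ← Set.range_comp]
    rfl
  refine ⟨fun l => θ (f l), ?_, ?_, ?_⟩
  · refine (θ.toAddEquiv.isRegular_congr (as := List.ofFn f)
      (bs := List.ofFn fun l => θ (f l)) ?_).1 hf
    have h2 : (List.ofFn fun l => θ (f l)) = (List.ofFn f).map θ := by
      rw [List.map_ofFn]
      rfl
    rw [h2, List.forall₂_map_right_iff, List.forall₂_same]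
    intro r _ x
    exact map_mul θ r x
  · intro a ha
    rw [hII, Ideal.mem_map_iff_of_surjective θ θ.surjective] at ha
    obtain ⟨b, hb, rfl⟩ := ha
    rw [ycpTheta_cc, h0 b hb, map_zero]
  · refine ⟨e.trans (Ideal.quotientEquiv _ _ θ hII), fun a => ?_⟩
    obtain ⟨x, hx⟩ := Ideal.Quotient.mk_surjective
      (e (algebraMap A (AdicCompletion (maximalIdeal A) A) a))
    rw [RingEquiv.trans_apply, ← hx, Ideal.quotientEquiv_mk, Ideal.Quotient.lift_mk, ycpTheta_cc,
      ← hτr a]
    congr 1
    change _ = ev (e (algebraMap A (AdicCompletion (maximalIdeal A) A) a))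
    rw [← hx, hev, Ideal.Quotient.lift_mk]

private theorem ycp_gen {A B K : Type u} [CommRing A] [IsLocalRing A] [IsNoetherianRing A]
    [CommRing B] [IsLocalRing B] [IsNoetherianRing B] [Field K] [Algebra A K] [Algebra K B]
    (φ : A →+* B) (hφ : φ.Flat) (hm : (maximalIdeal A).map φ = maximalIdeal B) (ev : B →+* K)
    (h1 : ∀ a, ev (φ a) = algebraMap A K a) (h2 : ∀ c : K, ev (algebraMap K B c) = c)
    (b : Prop) (i : ℕ)
    (H : ringKrullDim B = ringKrullDim A → ∀ (F : Cx B), F.FinLen → ∀ (M : Type u)
      [AddCommGroup M] [Module K M] [Module B M]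
      [IsScalarTower K B M] [Module.Finite B M], Module.supportDim B M ≤ i → PPo K F M i b)
    (F : Cx A) (hF : F.FinLen) (M : Type u) [AddCommGroup M] [Module A M] [Module.Finite A M]
    (hM : Module.supportDim A M ≤ i) : PPa K F M i b := by
  let _ : Algebra A B := φ.toAlgebra
  let _ : Algebra B K := ev.toAlgebra
  have : Module.Flat A B := hφ
  have : IsScalarTower A B K := IsScalarTower.of_algebraMap_eq fun a => (h1 a).symm
  have : IsScalarTower K B K := IsScalarTower.of_algebraMap_eq fun c => (h2 c).symm
  exact YGN hm b i (H (YDM hm)) F hF M hM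

private theorem ycp_iso {R S : Type u} [CommRing R] [CommRing S] [IsLocalRing R] [IsLocalRing S]
    (e : R ≃+* S) (hiso : ∀ (p : Ideal R) [p.IsPrime], p ≠ maximalIdeal R →
      IsRegularLocalRing (Localization.AtPrime p)) (p : Ideal S) [p.IsPrime]
    (hp : p ≠ maximalIdeal S) : IsRegularLocalRing (Localization.AtPrime p) := by
  have hq : (p.comap e).IsPrime := inferInstance
  have hne : p.comap e ≠ maximalIdeal R := by
    intro h
    apply hp
    have h1 : (p.comap e).IsMaximal := h ▸ maximalIdeal.isMaximal R
    have h2 : p.IsMaximal := by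
      have h3 := Ideal.map_isMaximal_of_equiv e (p := p.comap e)
      rwa [Ideal.map_comap_of_surjective _ e.surjective] at h3
    exact IsLocalRing.eq_maximalIdeal h2
  have := hiso (p.comap e) hne
  have hH : Submonoid.map e.toMonoidHom (p.comap e).primeCompl = p.primeCompl := by
    ext x
    constructor
    · rintro ⟨y, hy, rfl⟩
      exact hy
    · intro hx
      refine ⟨e.symm x, ?_, e.apply_symm_apply x⟩
      change ¬ (e (e.symm x) ∈ p)
      rw [e.apply_symm_apply]
      exact hx
  exact IsRegularLocalRing.of_ringEquiv (IsLocalization.ringEquivOfRingEquiv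
    (Localization.AtPrime (p.comap e)) (Localization.AtPrime p) e hH)

theorem YCP [CharZero (ResidueField A)] {n c : ℕ}
    (f : Fin c → MvPowerSeries (Fin n) (ResidueField A))
    (hf : IsRegular (MvPowerSeries (Fin n) (ResidueField A)) (List.ofFn f))
    (e : AdicCompletion (maximalIdeal A) A ≃+*
      (MvPowerSeries (Fin n) (ResidueField A) ⧸ Ideal.span (Set.range f)))
    (hiso : ∀ (p : Ideal (AdicCompletion (maximalIdeal A) A)) [p.IsPrime],
      p ≠ maximalIdeal (AdicCompletion (maximalIdeal A) A) →
      IsRegularLocalRing (Localization.AtPrime p))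
    (d : ℕ) (hd : ringKrullDim A = d) (F : Cx A) (hF : F.FinLen) (i : ℕ) (hi : i ≤ d)
    (M : Type u) [AddCommGroup M] [Module A M] [Module.Finite A M]
    (hM : Module.supportDim A M ≤ i) :
    PPa (ResidueField A) F M i (i < d ∧ 2 * i ≠ d ∧ 2 * i ≠ d + 1) := by
  obtain ⟨f', hf', h0, e', he'⟩ := YTW f hf e
  have hB : IsLocalRing (MvPowerSeries (Fin n) (ResidueField A) ⧸ Ideal.span (Set.range f')) :=
    CIA_local f' hf'
  refine ycp_gen (B := MvPowerSeries (Fin n) (ResidueField A) ⧸ Ideal.span (Set.range f'))
    (e'.toRingHom.comp (algebraMap A (AdicCompletion (maximalIdeal A) A))) ?_ ?_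
    (Ideal.Quotient.lift (Ideal.span (Set.range f')) MvPowerSeries.constantCoeff h0) he' ?_ _ i ?_
    F hF M hM
  · refine RingHom.Flat.comp ?_ (RingHom.Flat.of_bijective e'.bijective)
    rw [RingHom.flat_algebraMap_iff]
    infer_instance
  · rw [← Ideal.map_map, ← AdicCompletion.maximalIdeal_eq_map]
    have h1 : ((maximalIdeal (AdicCompletion (maximalIdeal A) A)).map e').IsMaximal :=
      Ideal.map_isMaximal_of_equiv e'
    exact IsLocalRing.eq_maximalIdeal h1
  · intro c
    have h1 : algebraMap (ResidueField A)
        (MvPowerSeries (Fin n) (ResidueField A) ⧸ Ideal.span (Set.range f')) c =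
        Ideal.Quotient.mk _ (MvPowerSeries.C c) := rfl
    rw [h1, Ideal.Quotient.lift_mk, MvPowerSeries.constantCoeff_C]
  · intro hdim F' hF' M' _ _ _ _ _ hM'
    have : Module.Finite (ResidueField A)
        (ResidueField (MvPowerSeries (Fin n) (ResidueField A))) := YPS_res
    exact FIN_chart (YPD n (ResidueField A)) YPS_dim.1 YPS_dim.2 (fun q _ => YPR q) f' hf'
      (fun p _ hp => ycp_iso e' hiso p hp) d (hdim.trans hd) F' hF' i hi M' hM'

end NCG
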