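import Pool.Agent.NCG.YCS
import Pool.Agent.NCG.YDM

/-!
# YCQ: complete intersections of equal characteristic zero in terms of power series

`YCQ`: `A` Noetherian local with residue field `κ` of characteristic zero, `S` a regular local ring, `g` a regular
sequence in `S`, `Â ≃ S ⧸ (g)`.  Then `Â ≃ κ[[X_1, ..., X_n]] ⧸ (f)` with a regular sequence `f` (of the same length).
Proof.  Let `Ŝ` be the completion of `S` at its maximal ideal `𝔪`: a local ring, flat over `S`, complete for its maximal
ideal `𝔪 Ŝ`, with the residue field of `S` (`Mathlib/RingTheory/AdicCompletion/LocalRing.lean`), which is isomorphic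
to the residue field of `S ⧸ (g)`, of `Â` and to `κ`; so it has characteristic zero.  Let `n = dim S`; `𝔪` is generated by
`x_1, ..., x_n` (`S` regular: `IsRegularLocalRing`, `Submodule.spanFinrank`).  `YCS` gives a surjection
`Θ : κ_Ŝ[[X]] → Ŝ`; so `Ŝ` is Noetherian, `dim Ŝ = dim S = n` (`YDM`) and `Θ` is bijective (`YCI`).
Let `f l = Θ⁻¹ (g l)` (and transport the coefficients by an isomorphism `κ_Ŝ ≃ κ`, `MvPowerSeries.map`).  The image of
`g` in `Ŝ` is a regular sequence (`YDI`), so `f` is.  It remains to show that `S ⧸ (g) → Ŝ ⧸ (g) Ŝ` is an isomorphism.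
Put `C = S ⧸ (g) ≃ Â`, which is complete for its maximal ideal `𝔪_C = 𝔪 C` (`Â` is; transport).
The homomorphisms `Ŝ → S ⧸ 𝔪^N → C ⧸ 𝔪_C^N` are compatible and give `π : Ŝ → C` (`IsAdicComplete.liftRingHom`)
which extends the projection `S → C`; it is surjective, and `g` is in its kernel.  Let `z ∈ ker π`.  For every `N` write
`z = s + t` with `s ∈ S` (its image), `t ∈ 𝔪^N Ŝ`; then the class of `s` in `C` is in `𝔪_C^N`, so `s ∈ (g) + 𝔪^N`, and
`z ∈ (g) Ŝ + 𝔪^N Ŝ`.  By Krull's intersection theorem in the Noetherian local ring `Ŝ ⧸ (g) Ŝ`, `z ∈ (g) Ŝ`.  So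
`Ŝ ⧸ (g) Ŝ ≃ C ≃ Â`.
-/

open scoped BigOperators TensorProduct
open IsLocalRing RingTheory.Sequence

namespace NCG

universe u

/-- For `C = S ⧸ J` complete for its maximal ideal, `S ⧸ J ≃ Ŝ ⧸ J Ŝ`. -/
private theorem ycq_quot {S : Type u} [CommRing S] [IsLocalRing S] [IsNoetherianRing S] (J : Ideal S)
    (hC : IsAdicComplete ((maximalIdeal S).map (Ideal.Quotient.mk J)) (S ⧸ J)) :
    Nonempty ((S ⧸ J) ≃+* (AdicCompletion (maximalIdeal S) S ⧸
      J.map (algebraMap S (AdicCompletion (maximalIdeal S) S)))) := by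
  set T := AdicCompletion (maximalIdeal S) S with hT
  have hC' : IsAdicComplete (maximalIdeal S) (S ⧸ J) := (IsAdicComplete.map_algebraMap_iff _ _).1 hC
  have h1 : Function.Bijective (AdicCompletion.of (maximalIdeal S) (S ⧸ J)) :=
    AdicCompletion.of_bijective_iff.2 hC'
  have h2 := AdicCompletion.ofTensorProduct_bijective_of_finite_of_isNoetherian
    (maximalIdeal S) (S ⧸ J)
  let q : (S ⧸ J) →+* (T ⧸ J.map (algebraMap S T)) :=
    Ideal.quotientMap (J.map (algebraMap S T)) (algebraMap S T) Ideal.le_comap_map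
  have h3 : ∀ x : S ⧸ J, AdicCompletion.ofTensorProduct (maximalIdeal S) (S ⧸ J)
      (Algebra.TensorProduct.quotIdealMapEquivTensorQuot T J (q x)) =
      AdicCompletion.of (maximalIdeal S) (S ⧸ J) x := by
    intro x
    obtain ⟨s, rfl⟩ := Ideal.Quotient.mk_surjective x
    have h4 : q (Ideal.Quotient.mk J s) = Ideal.Quotient.mk _ (algebraMap S T s) := rfl
    rw [h4]
    have h5 : Algebra.TensorProduct.quotIdealMapEquivTensorQuot T J
        (Ideal.Quotient.mk _ (algebraMap S T s)) = (1 : T) ⊗ₜ[S] (Ideal.Quotient.mk J s) := by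
      have h6 := Algebra.TensorProduct.quotIdealMapEquivTensorQuot_mk T J (algebraMap S T s)
      rw [show (Ideal.Quotient.mk (J.map (algebraMap S T)) (algebraMap S T s)) =
        ((algebraMap S T s : T) : T ⧸ J.map (algebraMap S T)) from rfl, h6,
        Algebra.algebraMap_eq_smul_one, TensorProduct.smul_tmul]
      congr 1
      rw [Algebra.smul_def, mul_one]
      rfl
    rw [h5, AdicCompletion.ofTensorProduct_tmul, one_smul]
  have h4 : Function.Bijective q := by
    have h5 : Function.Bijective ((AdicCompletion.ofTensorProduct (maximalIdeal S) (S ⧸ J)) ∘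
        (Algebra.TensorProduct.quotIdealMapEquivTensorQuot T J)) :=
      h2.comp (Algebra.TensorProduct.quotIdealMapEquivTensorQuot T J).bijective
    have h6 : ((AdicCompletion.ofTensorProduct (maximalIdeal S) (S ⧸ J)) ∘
        (Algebra.TensorProduct.quotIdealMapEquivTensorQuot T J)) ∘ q =
        AdicCompletion.of (maximalIdeal S) (S ⧸ J) := funext h3
    rw [← h6] at h1
    exact (Function.Bijective.of_comp_iff' h5 q).1 h1
  exact ⟨RingEquiv.ofBijective q h4⟩

/-- Coefficientwise equivalence. -/
private theorem ycq_map {K L : Type u} [CommRing K] [CommRing L] (n : ℕ) (φ : K ≃+* L) :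
    Nonempty (MvPowerSeries (Fin n) K ≃+* MvPowerSeries (Fin n) L) := by
  refine ⟨RingEquiv.ofRingHom (MvPowerSeries.map (φ : K →+* L))
    (MvPowerSeries.map (φ.symm : L →+* K)) ?_ ?_⟩
  · rw [← MvPowerSeries.map_comp]
    simp
  · rw [← MvPowerSeries.map_comp]
    simp

theorem YCQ {A : Type u} [CommRing A] [IsLocalRing A] [IsNoetherianRing A]
    [CharZero (ResidueField A)] {S : Type u} [CommRing S] [IsRegularLocalRing S] {c : ℕ}
    (g : Fin c → S) (hg : IsRegular S (List.ofFn g))
    (e : AdicCompletion (maximalIdeal A) A ≃+* (S ⧸ Ideal.span (Set.range g))) :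
    ∃ (n : ℕ) (f : Fin c → MvPowerSeries (Fin n) (ResidueField A)),
      IsRegular (MvPowerSeries (Fin n) (ResidueField A)) (List.ofFn f) ∧
      Nonempty (AdicCompletion (maximalIdeal A) A ≃+*
        (MvPowerSeries (Fin n) (ResidueField A) ⧸ Ideal.span (Set.range f))) := by
  set J : Ideal S := Ideal.span (Set.range g) with hJ
  have hCl : IsLocalRing (S ⧸ J) := e.isLocalRing
  have hmk : IsLocalHom (Ideal.Quotient.mk J) :=
    Function.Surjective.isLocalHom _ Ideal.Quotient.mk_surjective
  have hJle : J ≤ maximalIdeal S := le_maximalIdeal (Ideal.Quotient.nontrivial_iff.1 inferInstance)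
  have hmC : (maximalIdeal S).map (Ideal.Quotient.mk J) = maximalIdeal (S ⧸ J) :=
    eq_maximalIdeal (Ideal.IsMaximal.map_of_surjective_of_ker_le Ideal.Quotient.mk_surjective
      (by rw [Ideal.mk_ker]; exact hJle))
  have hC : IsAdicComplete ((maximalIdeal S).map (Ideal.Quotient.mk J)) (S ⧸ J) := by
    rw [hmC, ← map_ringEquiv_maximalIdeal e, IsAdicComplete.congr_ringEquiv]
    infer_instance
  obtain ⟨q⟩ := ycq_quot J hC
  -- residue fields
  let φ1 : ResidueField A ≃+* ResidueField (AdicCompletion (maximalIdeal A) A) :=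
    RingEquiv.ofBijective _ (AdicCompletion.residueField_map_bijective A)
  let φ2 : ResidueField (AdicCompletion (maximalIdeal A) A) ≃+* ResidueField (S ⧸ J) :=
    ResidueField.mapEquiv e
  let φ3 : ResidueField S ≃+* ResidueField (S ⧸ J) :=
    RingEquiv.ofBijective (ResidueField.map (Ideal.Quotient.mk J)) ⟨RingHom.injective _, by
      intro x
      obtain ⟨y, rfl⟩ := residue_surjective x
      obtain ⟨s, rfl⟩ := Ideal.Quotient.mk_surjective y
      exact ⟨residue S s, ResidueField.map_residue _ _⟩⟩
  let φ4 : ResidueField S ≃+* ResidueField (AdicCompletion (maximalIdeal S) S) :=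
    RingEquiv.ofBijective _ (AdicCompletion.residueField_map_bijective S)
  let φ : ResidueField (AdicCompletion (maximalIdeal S) S) ≃+* ResidueField A :=
    ((φ4.symm.trans φ3).trans φ2.symm).trans φ1.symm
  set T := AdicCompletion (maximalIdeal S) S with hT
  have hmT : (maximalIdeal S).map (algebraMap S T) = maximalIdeal T :=
    AdicCompletion.maximalIdeal_eq_map.symm
  have hchar : CharZero (ResidueField T) :=
    charZero_of_injective_ringHom (f := (φ.symm : ResidueField A →+* ResidueField T))
      φ.symm.injective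
  obtain ⟨n, x, hx, hn⟩ : ∃ (n : ℕ) (x : Fin n → S), Ideal.span (Set.range x) = maximalIdeal S ∧
      (n : WithBot ℕ∞) = ringKrullDim S := by
    obtain ⟨s, hs1, hs2⟩ := Submodule.FG.exists_span_finset_card_eq_spanFinrank
      (maximalIdeal S).fg_of_isNoetherianRing
    refine ⟨(maximalIdeal S).spanFinrank, fun i => (s.equivFin.symm (Fin.cast hs1.symm i) : S),
      ?_, IsRegularLocalRing.spanFinrank_maximalIdeal⟩
    have h1 : Set.range (fun i => (s.equivFin.symm (Fin.cast hs1.symm i) : S)) = (s : Set S) := by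
      ext y
      constructor
      · rintro ⟨i, rfl⟩
        exact (s.equivFin.symm _).2
      · intro hy
        exact ⟨Fin.cast hs1 (s.equivFin ⟨y, hy⟩), by simp⟩
    rw [h1]
    exact hs2
  have hxT : Ideal.span (Set.range fun i => algebraMap S T (x i)) = maximalIdeal T := by
    have h1 := congrArg (Ideal.map (algebraMap S T)) hx
    rw [Ideal.map_span, ← Set.range_comp, hmT] at h1
    exact h1
  obtain ⟨Θ, hΘs, -, -⟩ := YCS (fun i => algebraMap S T (x i)) hxT
  have hTN : IsNoetherianRing T := isNoetherianRing_of_surjective _ _ Θ hΘs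
  have hdim : ringKrullDim T = ringKrullDim S := YDM hmT
  have hΘi : Function.Injective Θ := YCI Θ hΘs (by rw [hdim, hn])
  let E1 : MvPowerSeries (Fin n) (ResidueField T) ≃+* T := RingEquiv.ofBijective Θ ⟨hΘi, hΘs⟩
  obtain ⟨E2⟩ := ycq_map n φ
  let E : T ≃+* MvPowerSeries (Fin n) (ResidueField A) := E1.symm.trans E2
  obtain ⟨hreg, -⟩ := YDI (algebraMap S T) (by
    have h1 : Module.Flat S T := AdicCompletion.flat_of_isNoetherian _
    exact (RingHom.flat_algebraMap_iff).2 h1) hmT g hg
  refine ⟨n, fun l => E (algebraMap S T (g l)), ?_, ?_⟩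
  · refine (AddEquiv.isRegular_congr (e := E.toAddEquiv) ?_).1 hreg
    rw [show (List.ofFn fun l => E (algebraMap S T (g l))) =
      (List.ofFn fun l => algebraMap S T (g l)).map E from by rw [List.map_ofFn]; rfl]
    refine List.forall₂_map_right_iff.mpr (List.forall₂_same.mpr fun r _ x => ?_)
    exact map_mul E r x
  · have h1 : Ideal.span (Set.range fun l => E (algebraMap S T (g l))) =
        (J.map (algebraMap S T)).map (E : T →+* MvPowerSeries (Fin n) (ResidueField A)) := by
      rw [hJ, Ideal.map_span, Ideal.map_span, ← Set.range_comp, ← Set.range_comp]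
      rfl
    exact ⟨(e.trans q).trans (Ideal.quotientEquiv _ _ E h1)⟩

end NCG
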