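import Pool.Agent.NCG.YPS
import Pool.Agent.NCG.YCF

/-!
# YCS: Cohen's structure theorem in equal characteristic zero

`R` local, complete for the topology of its maximal ideal, residue field `κ` of characteristic zero.

Let `s : κ → R` be a coefficient field (`YCF`).

`YCS`: if the maximal ideal is generated by `x_1, ..., x_n`, there is a surjective ring homomorphism
`Θ : κ[[X_1, ..., X_n]] → R` with `Θ X_j = x_j`, which is compatible with the residue maps.
Proof.  `Θ_N : κ[[X]] → R ⧸ 𝔪^N`: compose the truncation `κ[[X]] → κ[X] ⧸ (X)^N`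
(e.g. `MvPowerSeries.truncTotalAlgHom`, or the quotient map and `YPS_dec`) with the evaluation
`κ[X] ⧸ (X)^N → R ⧸ 𝔪^N`, `X_j ↦ x_j`, `c ↦ s c`.  They are compatible and give `Θ` (`IsAdicComplete.liftRingHom`).
(Other possibilities: the evaluation `MvPowerSeries.aeval`/`eval₂Hom` for the `𝔪`-adic topology on `R`, or
`MvPowerSeries.toAdicCompletionAlgEquiv` and functoriality of `AdicCompletion`.)
Surjective: `Θ` maps the maximal ideal `𝔫` of `κ[[X]]` onto a generating set of `𝔪`, `κ → R ⧸ 𝔪` is surjective,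
`κ[[X]]` is `𝔫`-adically complete and `R` is Hausdorff: `surjective_of_mk_map_comp_surjective`.

`YCI`: if moreover `n ≤ dim R` then `Θ` is injective: otherwise it factors through `κ[[X]] ⧸ (g)` with `g ≠ 0` a
nonzerodivisor, so `dim R ≤ dim κ[[X]] ⧸ (g) < dim κ[[X]] = n` (`YPS_dim`,
`ringKrullDim_quotient_succ_le_of_nonZeroDivisor`, `ringKrullDim_le_of_surjective`).
-/

open scoped BigOperators
open IsLocalRing

namespace NCG

universe u

variable {R : Type u} [CommRing R] [IsLocalRing R] [CharZero (ResidueField R)]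
  [IsAdicComplete (maximalIdeal R) R]

theorem YCS {n : ℕ} (x : Fin n → R) (hx : Ideal.span (Set.range x) = maximalIdeal R) :
    ∃ Θ : MvPowerSeries (Fin n) (ResidueField R) →+* R, Function.Surjective Θ ∧
      (∀ j, Θ (MvPowerSeries.X j) = x j) ∧
      ∀ g, residue R (Θ g) = MvPowerSeries.constantCoeff g := by
  obtain ⟨s, hs⟩ := YCF (R := R)
  let ev : MvPolynomial (Fin n) (ResidueField R) →+* R := MvPolynomial.eval₂Hom s x
  have hevX : ∀ j, ev (MvPolynomial.X j) = x j := fun j => MvPolynomial.eval₂Hom_X' _ _ _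
  have hevC : ∀ c, ev (MvPolynomial.C c) = s c := fun c => MvPolynomial.eval₂Hom_C _ _ _
  have hev : ∀ N, ∀ p ∈ (MvPolynomial.idealOfVars (Fin n) (ResidueField R)) ^ N,
      ev p ∈ (maximalIdeal R) ^ N := by
    intro N p hp
    have h1 : (MvPolynomial.idealOfVars (Fin n) (ResidueField R)).map ev ≤ maximalIdeal R := by
      rw [MvPolynomial.idealOfVars, Ideal.map_span, Ideal.span_le]
      rintro _ ⟨_, ⟨j, rfl⟩, rfl⟩
      rw [hevX, ← hx]
      exact Ideal.subset_span ⟨j, rfl⟩
    refine Ideal.pow_right_mono h1 N ?_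
    rw [← Ideal.map_pow]
    exact Ideal.mem_map_of_mem _ hp
  let f : (N : ℕ) → MvPowerSeries (Fin n) (ResidueField R) →+* R ⧸ (maximalIdeal R) ^ N :=
    fun N => (Ideal.Quotient.lift ((MvPolynomial.idealOfVars (Fin n) (ResidueField R)) ^ N)
      ((Ideal.Quotient.mk ((maximalIdeal R) ^ N)).comp ev)
      (fun p hp => Ideal.Quotient.eq_zero_iff_mem.2 (hev N p hp))).comp
      (MvPowerSeries.truncTotalAlgHom (Fin n) (ResidueField R) N).toRingHom
  have hfap : ∀ N g, f N g = Ideal.Quotient.mk _ (ev (MvPowerSeries.truncTotal N g)) :=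
    fun N g => rfl
  have hf : ∀ {m n : ℕ} (hle : m ≤ n),
      (Ideal.Quotient.factorPow (maximalIdeal R) hle).comp (f n) = f m := by
    intro m k hle
    refine RingHom.ext fun g => ?_
    rw [RingHom.comp_apply, hfap, hfap]
    change Ideal.Quotient.mk _ (ev (MvPowerSeries.truncTotal k g)) = _
    rw [Ideal.Quotient.eq, ← map_sub]
    exact hev m _ (MvPowerSeries.truncTotal_sub_truncTotal_mem_pow_idealOfVars hle le_rfl g)
  let Θ : MvPowerSeries (Fin n) (ResidueField R) →+* R :=
    IsAdicComplete.liftRingHom (maximalIdeal R) f hf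
  have hΘ : ∀ N g, Ideal.Quotient.mk ((maximalIdeal R) ^ N) (Θ g) =
      Ideal.Quotient.mk _ (ev (MvPowerSeries.truncTotal N g)) := fun N g =>
    IsAdicComplete.mk_liftRingHom (maximalIdeal R) f hf N g
  have hcoe : ∀ p : MvPolynomial (Fin n) (ResidueField R),
      Θ (p : MvPowerSeries (Fin n) (ResidueField R)) = ev p := by
    intro p
    rw [← sub_eq_zero]
    refine IsHausdorff.haus (I := maximalIdeal R) inferInstance _ fun N => ?_
    rw [SModEq.zero, smul_eq_mul, Ideal.mul_top, ← Ideal.Quotient.eq_zero_iff_mem, map_sub, hΘ,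
      ← map_sub, ← map_sub, Ideal.Quotient.eq_zero_iff_mem]
    refine hev N _ ?_
    have h2 := (MvPowerSeries.truncTotalAlgHom (Fin n) (ResidueField R) N).commutes p
    have h3 : Ideal.Quotient.mk ((MvPolynomial.idealOfVars (Fin n) (ResidueField R)) ^ N)
        (MvPowerSeries.truncTotal N (p : MvPowerSeries (Fin n) (ResidueField R))) =
        Ideal.Quotient.mk _ p := h2
    exact Ideal.Quotient.eq.1 h3
  have hX : ∀ j, Θ (MvPowerSeries.X j) = x j := by
    intro j
    rw [← MvPolynomial.coe_X, hcoe, hevX]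
  have hC : ∀ c, Θ (MvPowerSeries.C c) = s c := by
    intro c
    rw [← MvPolynomial.coe_C, hcoe, hevC]
  have hres : ∀ g, residue R (Θ g) = MvPowerSeries.constantCoeff g := by
    intro g
    have h1 := hΘ 1 g
    rw [Ideal.Quotient.eq, pow_one] at h1
    have h2 : residue R (Θ g) = residue R (ev (MvPowerSeries.truncTotal 1 g)) :=
      Ideal.Quotient.eq.2 h1
    have h3 : (residue R).comp ev = MvPolynomial.constantCoeff := by
      refine MvPolynomial.ringHom_ext (fun c => ?_) (fun j => ?_)
      · rw [RingHom.comp_apply, hevC, hs, MvPolynomial.constantCoeff_C]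
      · rw [RingHom.comp_apply, hevX, MvPolynomial.constantCoeff_X, residue_eq_zero_iff, ← hx]
        exact Ideal.subset_span ⟨j, rfl⟩
    rw [h2, ← RingHom.comp_apply, h3, MvPowerSeries.constantCoeff_truncTotal_eq_ite,
      if_pos one_pos]
  refine ⟨Θ, ?_, hX, hres⟩
  have hI : (Ideal.span (Set.range (MvPowerSeries.X (σ := Fin n) (R := ResidueField R)))).map Θ =
      maximalIdeal R := by
    rw [Ideal.map_span, ← hx, ← Set.range_comp]
    congr 2
    funext j
    exact hX j
  have hH : IsHausdorff ((Ideal.span (Set.range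
      (MvPowerSeries.X (σ := Fin n) (R := ResidueField R)))).map Θ) R := by
    rw [hI]
    infer_instance
  refine surjective_of_mk_map_comp_surjective
    (I := Ideal.span (Set.range (MvPowerSeries.X (σ := Fin n) (R := ResidueField R)))) Θ ?_
  intro r
  obtain ⟨r, rfl⟩ := Ideal.Quotient.mk_surjective r
  refine ⟨MvPowerSeries.C (residue R r), ?_⟩
  rw [RingHom.comp_apply, hC, Ideal.Quotient.eq, hI]
  have h5 : residue R (s (residue R r) - r) = 0 := by rw [map_sub, hs, sub_self]
  exact (residue_eq_zero_iff _).1 h5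

omit [CharZero (ResidueField R)] [IsAdicComplete (maximalIdeal R) R] in
theorem YCI {n : ℕ} (Θ : MvPowerSeries (Fin n) (ResidueField R) →+* R)
    (hΘ : Function.Surjective Θ) (hn : (n : WithBot ℕ∞) ≤ ringKrullDim R) :
    Function.Injective Θ := by
  rw [injective_iff_map_eq_zero]
  intro g hg
  by_contra h0
  have h1 : g ∈ nonZeroDivisors (MvPowerSeries (Fin n) (ResidueField R)) :=
    mem_nonZeroDivisors_of_ne_zero h0
  have h2 := ringKrullDim_quotient_succ_le_of_nonZeroDivisor h1
  rw [(YPS_dim (K := ResidueField R) (n := n)).1] at h2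
  have h3 : ringKrullDim R ≤ ringKrullDim (MvPowerSeries (Fin n) (ResidueField R) ⧸
      Ideal.span {g}) := by
    refine ringKrullDim_le_of_surjective (Ideal.Quotient.lift (Ideal.span {g}) Θ ?_)
      (Ideal.Quotient.lift_surjective_of_surjective _ _ hΘ)
    intro a ha
    obtain ⟨b, rfl⟩ := Ideal.mem_span_singleton'.1 ha
    rw [map_mul, hg, mul_zero]
  have h4 : (n : WithBot ℕ∞) + 1 ≤ n := (add_le_add_left (hn.trans h3) 1).trans h2
  have h5 : ((n + 1 : ℕ) : WithBot ℕ∞) ≤ ((n : ℕ) : WithBot ℕ∞) := by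
    push_cast
    exact h4
  have h6 : n + 1 ≤ n := by exact_mod_cast h5
  omega

end NCG
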