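import Pool.Agent.NCG.Defs

/-!
# Cyclic Adams numbers over an arbitrary local ring: definitions

`A` is a local ring and `K` a field which is an `A`-algebra (in the main theorem `K` is the residue
field of `A`).  The trace `ltr A K σ ∈ K` of an `A`-linear endomorphism `σ` of an `A`-module `H` of
finite length is the sum of its traces on the `K`-vector spaces `𝔪^j H / 𝔪^{j+1} H = K ⊗ 𝔪^j H`.
`al K F M m` is the supertrace, in this sense, of the cyclic rotation on the homology of
`F^{⊗(m+1)} ⊗ M`; no field inside `A` is needed.
-/

open scoped BigOperators TensorProduct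
open IsLocalRing

namespace NCG

universe u

section ltr

variable (A K : Type u) [CommRing A] [IsLocalRing A] [Field K] [Algebra A K] {H : Type u}
  [AddCommGroup H] [Module A H]

/-- the restriction of `σ` to `𝔪^j H` -/
def rstr (σ : H →ₗ[A] H) (j : ℕ) :
    ((maximalIdeal A) ^ j • (⊤ : Submodule A H) : Submodule A H) →ₗ[A]
      ((maximalIdeal A) ^ j • (⊤ : Submodule A H) : Submodule A H) :=
  σ.restrict (fun _ hx => Submodule.smul_top_le_comap_smul_top _ σ hx)

/-- the trace of `σ` on `K ⊗ 𝔪^j H` (for `K` the residue field this is `𝔪^j H / 𝔪^{j+1} H`) -/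
noncomputable def gtr (σ : H →ₗ[A] H) (j : ℕ) : K :=
  LinearMap.trace K (K ⊗[A] ((maximalIdeal A) ^ j • (⊤ : Submodule A H) : Submodule A H))
    ((rstr A σ j).baseChange K)

/-- the trace of an endomorphism of a module of finite length, with values in `K` -/
noncomputable def ltr (σ : H →ₗ[A] H) : K := ∑ᶠ j : ℕ, gtr A K σ j

end ltr

/-- base change of a complex along an algebra -/
def Cx.bc {A : Type u} [CommRing A] (B : Type u) [CommRing B] [Algebra A B] (F : Cx A) : Cx B where
  ι := F.ι
  fin := F.fin
  dec := F.dec
  deg := F.deg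
  D := F.D.map (algebraMap A B)
  homog a b h := F.homog a b fun h0 => h (by rw [Matrix.map_apply, h0, map_zero])
  sq := by
    let := F.fin
    rw [← Matrix.map_mul, F.sq]
    exact Matrix.map_zero _ (map_zero _)

open Classical in
/-- the supertrace (in the sense of `ltr`) of the cyclic rotation on the homology of
`F^{⊗ (m + 1)} ⊗ M`.  (The condition `Pres` always holds.) -/
noncomputable def al {A : Type u} [CommRing A] [IsLocalRing A] (K : Type u) [Field K]
    [Algebra A K] (F : Cx A) (M : Type u) [AddCommGroup M] [Module A M] (m : ℕ) : K :=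
  if h : Pres (mv A (M := M) (F.del (m + 1)))
      (mv A (M := M) (gam F.deg A (m + 1) * cyc F.deg A m)) then
    ltr A K (hmap _ _ h)
  else 0

/-- the numbers `al` are given by a polynomial of degree `≤ i`, without term of degree `i` if `b` -/
def PPa {A : Type u} [CommRing A] [IsLocalRing A] (K : Type u) [Field K] [Algebra A K]
    (F : Cx A) (X : Type u) [AddCommGroup X] [Module A X] (i : ℕ) (b : Prop) : Prop :=
  ∃ p : Polynomial K, p.natDegree ≤ i ∧ (∀ m : ℕ, al K F X m = p.eval ((m : K) + 1)) ∧
    (b → p.coeff i = 0)

end NCG
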