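import Mathlib

/-!
# YE1: enlarging the ground field of a localized polynomial ring to its residue field

`k ⊆ K` fields of characteristic zero, `ev : k[X_0, ..., X_{n-1}] → K` a surjective `k`-algebra homomorphism with
kernel `P`, `P'` the kernel of the evaluation `K[X_0, ..., X_{n-1}] → K`, `X_j ↦ x_j = ev X_j`; `Q`, `Q'` the localizations at
`P`, `P'`.  There is a flat ring homomorphism `ι : Q → Q'` extending `k[X] → K[X]` with `𝔪_Q Q' = 𝔪_{Q'}`.

Proof.  For `p ∈ k[X]` the evaluation of `map p` at `x` is `ev p` (`MvPolynomial.aeval_map_algebraMap` or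
`MvPolynomial.algHom_ext`), so `p ∉ P` implies `map p ∉ P'`, which is then a unit in `Q'`: `ι` exists
(`IsLocalization.lift`).
Flatness: `K[X]` is a free `k[X]`-module (`K ⊗_k k[X] ≃ K[X]`, `MvPolynomial.algebraTensorAlgEquiv`; `Module.Flat.baseChange` of
`k → K`), `K[X] → Q'` is a localization, so `k[X] → Q'` is flat (`RingHom.Flat.comp` / `Module.Flat.trans`), and as `Q`
is a localization of `k[X]`, `Q → Q'` is flat (`Module.flat_iff_of_isLocalization`).
Maximal ideals: `𝔪_Q = P Q`, `𝔪_{Q'} = P' Q'` (`IsLocalization.AtPrime.map_eq_maximalIdeal`).  `P.map ⊆ P'` gives one inclusion.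
`P'` is generated by the `X_j - C x_j` (a polynomial `p` is congruent to `C (p(x))` modulo these elements;
`MvPolynomial.induction_on`).  `K` is algebraic over `k` (Zariski's lemma: `K` is a finite type `k`-algebra and a field,
`finite_of_finite_type_of_isJacobsonRing` gives `Module.Finite k K`).  Let `μ` be the minimal polynomial of `x_j` over `k`; it
is separable (characteristic zero, irreducible), and in `K[T]` we have `μ = (T - x_j) g` with `g (x_j) = μ' (x_j) ≠ 0`.
`μ(X_j) = Polynomial.aeval (X j) μ ∈ P`, and its image in `K[X]` is `(X_j - C x_j) g(X_j)` with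
`g(X_j) ∉ P'`, a unit of `Q'`.  So `X_j - C x_j ∈ P Q'`.
-/

open scoped BigOperators
open IsLocalRing

namespace NCG

universe u

section

attribute [local instance] MvPolynomial.algebraMvPolynomial

private theorem YE1_flat (k K : Type u) [Field k] [Field K] [Algebra k K] (n : ℕ) :
    (MvPolynomial.map (σ := Fin n) (algebraMap k K)).Flat := by
  have h : Module.Flat (MvPolynomial (Fin n) k) (MvPolynomial (Fin n) K) :=
    Module.Flat.isBaseChange k (MvPolynomial (Fin n) k) K (MvPolynomial (Fin n) K)
      (Algebra.IsPushout.out (R := k) (S := MvPolynomial (Fin n) k) (R' := K)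
        (S' := MvPolynomial (Fin n) K))
  exact RingHom.flat_algebraMap_iff.2 h

end

private theorem YE1_ev {k K : Type u} [Field k] [Field K] [Algebra k K] {n : ℕ}
    (ev : MvPolynomial (Fin n) k →ₐ[k] K) (p : MvPolynomial (Fin n) k) :
    MvPolynomial.eval (fun j => ev (MvPolynomial.X j)) (MvPolynomial.map (algebraMap k K) p) =
      ev p := by
  rw [MvPolynomial.eval_map]
  have h := MvPolynomial.aeval_unique ev
  conv_rhs => rw [h]
  rfl

private theorem YE1_lin {K : Type u} [Field K] {n : ℕ} (x : Fin n → K)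
    (J : Ideal (MvPolynomial (Fin n) K))
    (hJ : ∀ j, MvPolynomial.X j - MvPolynomial.C (x j) ∈ J) (p : MvPolynomial (Fin n) K) :
    p - MvPolynomial.C (MvPolynomial.eval x p) ∈ J := by
  induction p using MvPolynomial.induction_on with
  | C a => simp
  | add p q hp hq =>
    have e : p + q - MvPolynomial.C (MvPolynomial.eval x (p + q)) =
        (p - MvPolynomial.C (MvPolynomial.eval x p)) +
          (q - MvPolynomial.C (MvPolynomial.eval x q)) := by
      rw [map_add, map_add]
      ring
    rw [e]
    exact J.add_mem hp hq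
  | mul_X p j hp =>
    have e : p * MvPolynomial.X j - MvPolynomial.C (MvPolynomial.eval x (p * MvPolynomial.X j)) =
        MvPolynomial.X j * (p - MvPolynomial.C (MvPolynomial.eval x p)) +
          MvPolynomial.C (MvPolynomial.eval x p) *
            (MvPolynomial.X j - MvPolynomial.C (x j)) := by
      rw [map_mul, MvPolynomial.eval_X, map_mul]
      ring
    rw [e]
    exact J.add_mem (J.mul_mem_left _ hp) (J.mul_mem_left _ (hJ j))

private theorem YE1_poly {k K : Type u} [Field k] [CharZero k] [Field K] [Algebra k K] {n : ℕ}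
    (ev : MvPolynomial (Fin n) k →ₐ[k] K) (j : Fin n)
    (hint : IsIntegral k (ev (MvPolynomial.X j))) :
    ∃ (m : MvPolynomial (Fin n) k) (g : MvPolynomial (Fin n) K), ev m = 0 ∧
      MvPolynomial.eval (fun j => ev (MvPolynomial.X j)) g ≠ 0 ∧
      MvPolynomial.map (algebraMap k K) m =
        (MvPolynomial.X j - MvPolynomial.C (ev (MvPolynomial.X j))) * g := by
  obtain ⟨a, ha⟩ : ∃ a, a = ev (MvPolynomial.X j) := ⟨_, rfl⟩
  rw [← ha] at hint
  have hroot : ((minpoly k a).map (algebraMap k K)).IsRoot a := by
    rw [Polynomial.IsRoot.def, Polynomial.eval_map_algebraMap, minpoly.aeval]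
  have hfac := Polynomial.mul_divByMonic_eq_iff_isRoot.2 hroot
  obtain ⟨g, hg⟩ : ∃ g, g = (minpoly k a).map (algebraMap k K) /ₘ (Polynomial.X - Polynomial.C a) :=
    ⟨_, rfl⟩
  rw [← hg] at hfac
  have hsep : (minpoly k a).Separable := (minpoly.irreducible hint).separable
  have hd := hsep.aeval_derivative_ne_zero (minpoly.aeval k a)
  have hga : g.eval a ≠ 0 := by
    have h1 : ((minpoly k a).map (algebraMap k K)).derivative.eval a = g.eval a := by
      rw [← hfac, Polynomial.derivative_mul, Polynomial.derivative_sub, Polynomial.derivative_X,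
        Polynomial.derivative_C]
      simp
    rw [← h1, Polynomial.derivative_map, Polynomial.eval_map_algebraMap]
    exact hd
  refine ⟨Polynomial.aeval (MvPolynomial.X j) (minpoly k a),
    Polynomial.aeval (MvPolynomial.X j) g, ?_, ?_, ?_⟩
  · rw [← Polynomial.aeval_algHom_apply, ← ha, minpoly.aeval]
  · have h2 : MvPolynomial.eval (fun j => ev (MvPolynomial.X j))
        (Polynomial.aeval (MvPolynomial.X j) g) = g.eval a := by
      have h3 := Polynomial.aeval_algHom_apply (MvPolynomial.aeval (R := K)
        (fun j => ev (MvPolynomial.X j))) (MvPolynomial.X j) g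
      rw [MvPolynomial.aeval_X, ← ha] at h3
      rw [← Polynomial.coe_aeval_eq_eval, h3]
      rfl
    rw [h2]
    exact hga
  · have h4 : MvPolynomial.map (algebraMap k K)
        (Polynomial.aeval (MvPolynomial.X j : MvPolynomial (Fin n) k) (minpoly k a)) =
        Polynomial.aeval (MvPolynomial.X j : MvPolynomial (Fin n) K)
          ((minpoly k a).map (algebraMap k K)) := by
      rw [Polynomial.aeval_map_algebraMap]
      have h5 := Polynomial.aeval_algHom_apply (MvPolynomial.mapAlgHom (σ := Fin n)
        (Algebra.ofId k K)) (MvPolynomial.X j) (minpoly k a)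
      have h6 : MvPolynomial.mapAlgHom (σ := Fin n) (Algebra.ofId k K) (MvPolynomial.X j) =
          MvPolynomial.X j := MvPolynomial.map_X _ _
      rw [h6] at h5
      exact h5.symm
    rw [h4, ← hfac, map_mul, map_sub, Polynomial.aeval_X, Polynomial.aeval_C, ← ha]
    rfl

theorem YE1 {k K : Type u} [Field k] [CharZero k] [Field K] [Algebra k K] {n : ℕ}
    (ev : MvPolynomial (Fin n) k →ₐ[k] K) (hev : Function.Surjective ev)
    (P : Ideal (MvPolynomial (Fin n) k)) [P.IsPrime] (hP : ∀ p, p ∈ P ↔ ev p = 0)
    (P' : Ideal (MvPolynomial (Fin n) K)) [P'.IsPrime]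
    (hP' : ∀ p, p ∈ P' ↔ MvPolynomial.eval (fun j => ev (MvPolynomial.X j)) p = 0)
    (Q Q' : Type u) [CommRing Q] [IsLocalRing Q] [Algebra (MvPolynomial (Fin n) k) Q]
    [IsLocalization.AtPrime Q P] [CommRing Q'] [IsLocalRing Q']
    [Algebra (MvPolynomial (Fin n) K) Q'] [IsLocalization.AtPrime Q' P'] :
    ∃ ι : Q →+* Q',
      (∀ p, ι (algebraMap (MvPolynomial (Fin n) k) Q p) =
        algebraMap (MvPolynomial (Fin n) K) Q' (MvPolynomial.map (algebraMap k K) p)) ∧
      ι.Flat ∧ (maximalIdeal Q).map ι = maximalIdeal Q' := by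
  obtain ⟨φ, hφ⟩ : ∃ φ : MvPolynomial (Fin n) k →+* MvPolynomial (Fin n) K,
    φ = MvPolynomial.map (algebraMap k K) := ⟨_, rfl⟩
  obtain ⟨g, hg⟩ : ∃ g : MvPolynomial (Fin n) k →+* Q',
    g = (algebraMap (MvPolynomial (Fin n) K) Q').comp φ := ⟨_, rfl⟩
  have hunit : ∀ y : P.primeCompl, IsUnit (g y) := by
    intro y
    have h1 : φ y ∉ P' := by
      rw [hP', hφ, YE1_ev, ← hP]
      exact y.2
    rw [hg]
    exact IsLocalization.map_units Q' (⟨φ y, h1⟩ : P'.primeCompl)
  have hι : ∀ p, IsLocalization.lift (M := P.primeCompl) (S := Q) hunit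
      (algebraMap (MvPolynomial (Fin n) k) Q p) = g p := fun p =>
    IsLocalization.lift_eq hunit p
  refine ⟨IsLocalization.lift (M := P.primeCompl) (S := Q) hunit, ?_, ?_, ?_⟩
  · intro p
    rw [hι, hg, hφ]
    rfl
  · have hgf : g.Flat := by
      rw [hg, hφ]
      refine RingHom.Flat.comp (YE1_flat k K n) ?_
      rw [RingHom.flat_algebraMap_iff]
      exact IsLocalization.flat Q' P'.primeCompl
    let a1 : Algebra Q Q' := (IsLocalization.lift (M := P.primeCompl) (S := Q) hunit).toAlgebra
    let a2 : Algebra (MvPolynomial (Fin n) k) Q' := g.toAlgebra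
    have : IsScalarTower (MvPolynomial (Fin n) k) Q Q' :=
      IsScalarTower.of_algebraMap_eq fun p => (hι p).symm
    have h2 : Module.Flat (MvPolynomial (Fin n) k) Q' := hgf
    exact (Module.flat_iff_of_isLocalization Q P.primeCompl Q').2 h2
  · have e1 : (maximalIdeal Q).map (IsLocalization.lift (M := P.primeCompl) (S := Q) hunit) =
        P.map g := by
      rw [← IsLocalization.AtPrime.map_eq_maximalIdeal P Q, Ideal.map_map]
      congr 1
      exact RingHom.ext hι
    rw [e1]
    have e2 : maximalIdeal Q' = P'.map (algebraMap (MvPolynomial (Fin n) K) Q') :=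
      (IsLocalization.AtPrime.map_eq_maximalIdeal P' Q').symm
    rw [e2]
    have e3 : P.map g = (P.map φ).map (algebraMap (MvPolynomial (Fin n) K) Q') := by
      rw [Ideal.map_map, hg]
    refine le_antisymm ?_ ?_
    · rw [e3]
      refine Ideal.map_mono (Ideal.map_le_iff_le_comap.2 fun p hp => ?_)
      rw [Ideal.mem_comap, hP', hφ, YE1_ev, ← hP]
      exact hp
    · have : Algebra.FiniteType k K := Algebra.FiniteType.of_surjective ev hev
      have : Module.Finite k K := finite_of_finite_type_of_isJacobsonRing k K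
      rw [Ideal.map_le_iff_le_comap]
      have hJ : ∀ j, MvPolynomial.X j - MvPolynomial.C (ev (MvPolynomial.X j)) ∈
          (P.map g).comap (algebraMap (MvPolynomial (Fin n) K) Q') := by
        intro j
        obtain ⟨m, r, h1, h2, h3⟩ := YE1_poly ev j (Algebra.IsIntegral.isIntegral _)
        have h4 : g m ∈ P.map g := Ideal.mem_map_of_mem g ((hP m).2 h1)
        have h5 : g m = algebraMap (MvPolynomial (Fin n) K) Q'
            (MvPolynomial.X j - MvPolynomial.C (ev (MvPolynomial.X j))) *
              algebraMap (MvPolynomial (Fin n) K) Q' r := by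
          rw [← map_mul, ← h3, hg, hφ]
          rfl
        have h6 : r ∉ P' := by
          rw [hP']
          exact h2
        have h7 : IsUnit (algebraMap (MvPolynomial (Fin n) K) Q' r) :=
          IsLocalization.map_units Q' (⟨r, h6⟩ : P'.primeCompl)
        rw [h5, Ideal.mul_unit_mem_iff_mem _ h7] at h4
        exact h4
      intro p hp
      have h8 := YE1_lin (fun j => ev (MvPolynomial.X j)) _ hJ p
      rw [(hP' p).1 hp, map_zero, sub_zero] at h8
      exact h8

end NCG
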