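import Pool.Agent.NCG.FIN
import Pool.Agent.NCG.YGN
import Pool.Agent.NCG.YDM
import Pool.Agent.NCG.YE1

/-!
# YEF: the main theorem for isolated complete intersections essentially of finite type over a field

`YHL`: the condition on the Jacobian matrix is inherited by extensions: if `ψ : A → B` is a ring homomorphism,
`φ' l j = ψ (φ l j)`, `J` an ideal of `A` with `J ⊆ Hl φ l`, then `J.map ψ ⊆ Hl φ' l`.
Proof.  `Hl φ' l` is closed under addition and multiplication by elements of `B` (add, multiply the linear forms), so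
it suffices to show `ψ a ∈ Hl φ' l` for `a ∈ Hl φ l` (`Submodule.span_induction`): a linear form `h` on `A^n` with coefficients
`h e_j` is replaced by the linear form on `B^n` with coefficients `ψ (h e_j)`.

`YEF`.  `Q` = localization of `k[X]` at the maximal ideal `P`, `f` a regular sequence, `e : Q ⧸ (f) ≃ A`, `A` isolated.
Proof.  Instances: `Q` is local, Noetherian; `Q` is a `k`-algebra through `k[X]`
(`((algebraMap (MvPolynomial (Fin n) k) Q).comp MvPolynomial.C).toAlgebra`, local instance, with the scalar tower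
`IsScalarTower.of_algebraMap_eq`), essentially of finite type and formally smooth (see `FIN_loc`).
Let `K = ResidueField A`, a `k`-algebra through `k → Q → Q ⧸ (f) → A → K`; `ev : k[X] → K` the composition, surjective
(`P` is maximal: the image of `k[X]` in `K` is a field isomorphic to `k[X] ⧸ P`, and every element of `Q` is `p/s`, so `Q → K` and
`k[X] → K` have the same image; `Q → A → K` is surjective) with kernel `P`.  `K` has characteristic zero.
`P'` the kernel of the evaluation on `K[X]`, `Q' = Localization.AtPrime P'`; `P'` is maximal (quotient `K`).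
`YE1` gives `ι : Q → Q'`.  `f' = ι ∘ f`, `B = Q' ⧸ (f')`; `YDI` gives `ψ : Q ⧸ (f) → B`, flat, with `𝔪 B = 𝔪_B` (`CIA_max`).
`B` is local (`CIA_local`), Noetherian.  `A` acts on `B` through `ψ ∘ e.symm` (flat as composition with an isomorphism).
`K` acts on `Q'` and `B`; `B → K` is induced by the evaluation `Q' → K` (`IsLocalization.lift`; it kills `f'` since
`ι (f l) ∈ 𝔪_{Q'}`); the composition `A → B → K` is the residue map: both compositions `k[X] → A → K` agree on
polynomials, and extend uniquely to `Q`.  (An alternative is to take for `K → B → K` the isomorphism `K → ResidueField B`.)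
`LOC_exists`, `LOC_depth`, `LOC_res` for `Q` over `k` and for `Q'` over `K`: derivations `D`, `D'`.  The map
`x ↦ D' (ι x)` is a `k`-derivation of `Q` into `Q'^n` (a `Q`-module through `ι`), so by the chain rule for `D` it is
`∑_j D x j • D' (ι X_j) = ∑_j ι (D x j) e_j`, i.e. `D' (ι x) j = ι (D x j)`.
`A` is isolated, so `Q ⧸ (f)` is (transport along `e`: `IsRegularLocalRing.of_ringEquiv` and
`Localization.localRingEquiv`/`IsLocalization.ringEquivOfRingEquiv`).  `FIN_hl` with `JRP` gives the condition `Hl` for `phi D f`,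
`YHL` the condition for `phi D' f'` (`phi D' f' l j = ψ (phi D f l j)`), and `𝔪_B^N` is the image of `𝔪^N`.
`dim B = dim A = d` (`YDM`).  Now `FIN_core` for `Q'`, `K`, `f'` gives the hypothesis `H` of `YGN`.
-/

open scoped BigOperators
open IsLocalRing RingTheory.Sequence

namespace NCG

universe u

theorem YHL {A B : Type u} [CommRing A] [CommRing B] (ψ : A →+* B) {n : ℕ} (φ : ℕ → Fin n → A)
    (φ' : ℕ → Fin n → B) (hφ : ∀ l j, φ' l j = ψ (φ l j)) (l : ℕ) (J : Ideal A)
    (hJ : ∀ a ∈ J, a ∈ Hl φ l) : ∀ b ∈ J.map ψ, b ∈ Hl φ' l := by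
  classical
  -- linear forms over `A` and over `B`
  have hform : ∀ h : Module.Dual A (Fin n → A), ∃ h' : Module.Dual B (Fin n → B),
      ∀ m, h' (φ' m) = ψ (h (φ m)) := by
    intro h
    refine ⟨Fintype.linearCombination B (fun j => ψ (h (Pi.single j 1))), fun m => ?_⟩
    rw [Fintype.linearCombination_apply]
    have h1 : φ m = ∑ j, φ m j • (Pi.single j (1 : A) : Fin n → A) := by
      funext i
      simp [Finset.sum_apply, Pi.single_apply]
    conv_rhs => rw [h1, map_sum, map_sum]
    refine Finset.sum_congr rfl fun j _ => ?_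
    rw [map_smul, smul_eq_mul, smul_eq_mul, map_mul, hφ]
  intro b hb
  refine Submodule.span_induction (p := fun b _ => b ∈ Hl φ' l) ?_ ?_ ?_ ?_ hb
  · rintro _ ⟨a, ha, rfl⟩
    obtain ⟨h, h1, h2⟩ := hJ a ha
    obtain ⟨h', hh'⟩ := hform h
    refine ⟨h', ?_, fun l' hl' => ?_⟩
    · rw [hh', h1]
    · rw [hh', h2 l' hl', map_zero]
  · exact ⟨0, rfl, fun _ _ => rfl⟩
  · rintro x y _ _ ⟨h, h1, h2⟩ ⟨h', h1', h2'⟩
    refine ⟨h + h', ?_, fun l' hl' => ?_⟩
    · rw [LinearMap.add_apply, h1, h1']
    · rw [LinearMap.add_apply, h2 l' hl', h2' l' hl', add_zero]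
  · rintro c x _ ⟨h, h1, h2⟩
    refine ⟨c • h, ?_, fun l' hl' => ?_⟩
    · rw [LinearMap.smul_apply, h1]
    · rw [LinearMap.smul_apply, h2 l' hl', smul_zero]

/-- compatibility of the derivations -/
private theorem YEF_der {k K Q Q' : Type u} [Field k] [Field K] [Algebra k K] [CommRing Q]
    [CommRing Q'] [Algebra k Q] [Algebra K Q'] (ι : Q →+* Q')
    (hι : ∀ c : k, ι (algebraMap k Q c) = algebraMap K Q' (algebraMap k K c)) {n : ℕ}
    (X : Fin n → Q) (D : Derivation k Q (Fin n → Q))
    (hchain : ∀ (V : Type u) [AddCommGroup V] [Module k V] [Module Q V] [IsScalarTower k Q V]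
      (δ : Derivation k Q V) (x : Q), δ x = ∑ j, D x j • δ (X j))
    (D' : Derivation K Q' (Fin n → Q')) (hD' : ∀ j, D' (ι (X j)) = Pi.single j 1) (x : Q)
    (j : Fin n) : D' (ι x) j = ι (D x j) := by
  let _ : Algebra Q Q' := ι.toAlgebra
  let _ : Algebra k Q' := (ι.comp (algebraMap k Q)).toAlgebra
  have _ : IsScalarTower k Q Q' := IsScalarTower.of_algebraMap_eq fun _ => rfl
  have hsm : ∀ (q : Q) (v : Fin n → Q'), q • v = ι q • v := fun q v => by
    funext i
    rfl
  let δ : Derivation k Q (Fin n → Q') :=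
    { toFun := fun x => D' (ι x)
      map_add' := fun a b => by rw [map_add, map_add]
      map_smul' := fun c a => by
        rw [Algebra.smul_def, map_mul, hι, ← Algebra.smul_def, Derivation.map_smul]
        funext i
        show algebraMap k K c • (D' (ι a) i) = c • (D' (ι a) i)
        rw [Algebra.smul_def, Algebra.smul_def, ← hι]
        rfl
      map_one_eq_zero' := by
        show D' (ι 1) = 0
        rw [map_one, Derivation.map_one_eq_zero]
      leibniz' := fun a b => by
        show D' (ι (a * b)) = a • D' (ι b) + b • D' (ι a)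
        rw [map_mul, Derivation.leibniz, hsm, hsm] }
  have h1 : D' (ι x) = ∑ j, D x j • D' (ι (X j)) := hchain (Fin n → Q') δ x
  rw [h1, Finset.sum_apply, Finset.sum_eq_single j]
  · rw [hsm, hD', Pi.smul_apply, Pi.single_eq_same, smul_eq_mul, mul_one]
  · intro i _ hij
    rw [hsm, hD', Pi.smul_apply, Pi.single_eq_of_ne (Ne.symm hij), smul_zero]
  · intro h
    exact absurd (Finset.mem_univ j) h

/-- transport of the condition on the punctured spectrum -/
private theorem YEF_iso {A R : Type u} [CommRing A] [IsLocalRing A] [CommRing R] [IsLocalRing R]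
    (e : R ≃+* A)
    (hiso : ∀ (p : Ideal A) [p.IsPrime], p ≠ maximalIdeal A →
      IsRegularLocalRing (Localization.AtPrime p)) :
    ∀ (p : Ideal R) [p.IsPrime], p ≠ maximalIdeal R →
      IsRegularLocalRing (Localization.AtPrime p) := by
  intro p hp hpm
  have hJ : (p.comap e.symm.toRingHom).IsPrime := Ideal.comap_isPrime _ _
  have hIJ : p = (p.comap e.symm.toRingHom).comap e.toRingHom := by
    ext x
    simp
  have hne : p.comap e.symm.toRingHom ≠ maximalIdeal A := by
    intro h
    apply hpm
    rw [hIJ, h]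
    have : ((maximalIdeal A).comap e.toRingHom).IsMaximal :=
      Ideal.comap_isMaximal_of_surjective _ e.surjective
    exact IsLocalRing.eq_maximalIdeal this
  have h1 := hiso (p.comap e.symm.toRingHom) hne
  exact IsRegularLocalRing.of_ringEquiv
    (Localization.localRingEquiv p (p.comap e.symm.toRingHom) e hIJ).symm

/-- the theorem for an abstract presentation of the residue field -/
private theorem YEF_main {k K : Type u} [Field k] [CharZero k] [Field K] [Algebra k K] {n c : ℕ}
    (ev : MvPolynomial (Fin n) k →ₐ[k] K) (hev : Function.Surjective ev)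
    (P : Ideal (MvPolynomial (Fin n) k)) [P.IsMaximal] (hP : ∀ p, p ∈ P ↔ ev p = 0)
    (Q : Type u) [CommRing Q] [Algebra (MvPolynomial (Fin n) k) Q] [IsLocalization.AtPrime Q P]
    [IsLocalRing Q] [Algebra k Q] [IsScalarTower k (MvPolynomial (Fin n) k) Q]
    (P' : Ideal (MvPolynomial (Fin n) K)) [P'.IsMaximal]
    (hP' : ∀ p, p ∈ P' ↔ MvPolynomial.eval (fun j => ev (MvPolynomial.X j)) p = 0)
    (Q' : Type u) [CommRing Q'] [Algebra (MvPolynomial (Fin n) K) Q']
    [IsLocalization.AtPrime Q' P'] [IsLocalRing Q'] [Algebra K Q']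
    [IsScalarTower K (MvPolynomial (Fin n) K) Q']
    (f : Fin c → Q) (hf : IsRegular Q (List.ofFn f))
    {A : Type u} [CommRing A] [IsLocalRing A] [IsNoetherianRing A] [Algebra A K]
    (e : (Q ⧸ Ideal.span (Set.range f)) ≃+* A)
    (hθ : ∀ p : MvPolynomial (Fin n) k, algebraMap A K
      (e (Ideal.Quotient.mk _ (algebraMap (MvPolynomial (Fin n) k) Q p))) = ev p)
    (hiso : ∀ (p : Ideal A) [p.IsPrime], p ≠ maximalIdeal A →
      IsRegularLocalRing (Localization.AtPrime p))
    (d : ℕ) (hd : ringKrullDim A = d) (F : Cx A) (hF : F.FinLen) (i : ℕ)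
    (hi : i ≤ d)
    (M : Type u) [AddCommGroup M] [Module A M] [Module.Finite A M]
    (hM : Module.supportDim A M ≤ i) :
    PPa K F M i (i < d ∧ 2 * i ≠ d ∧ 2 * i ≠ d + 1) := by
  have hK0 : CharZero K := charZero_of_injective_algebraMap (algebraMap k K).injective
  have _ : IsNoetherianRing Q := IsLocalization.isNoetherianRing P.primeCompl Q inferInstance
  have _ : IsNoetherianRing Q' := IsLocalization.isNoetherianRing P'.primeCompl Q' inferInstance
  obtain ⟨ι, hι, hflat, hmax⟩ := YE1 ev hev P hP P' hP' Q Q'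
  obtain ⟨hf', ψ, hψ, hψf, hψm⟩ := YDI ι hflat hmax f hf
  -- the rings `R = Q ⧸ (f)` and `B = Q' ⧸ (f')`
  have _ : IsLocalRing (Q ⧸ Ideal.span (Set.range f)) := CIA_local f hf
  have _ : IsLocalRing (Q' ⧸ Ideal.span (Set.range fun l => ι (f l))) :=
    CIA_local (fun l => ι (f l)) hf'
  rw [CIA_max, CIA_max] at hψm
  -- the derivations
  have _ : Algebra.EssFiniteType (MvPolynomial (Fin n) k) Q :=
    Algebra.EssFiniteType.of_isLocalization Q P.primeCompl
  have _ : Algebra.EssFiniteType k Q := Algebra.EssFiniteType.comp k (MvPolynomial (Fin n) k) Q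
  have _ : Algebra.FormallySmooth (MvPolynomial (Fin n) k) Q :=
    Algebra.FormallySmooth.of_isLocalization P.primeCompl
  have _ : Algebra.FormallySmooth k Q :=
    Algebra.FormallySmooth.comp k (MvPolynomial (Fin n) k) _
  obtain ⟨D, hDX, hchain⟩ := LOC_exists P Q
  obtain ⟨D', hDX', hchain'⟩ := LOC_exists P' Q'
  have hres' := LOC_res P' Q'
  obtain ⟨hdim', hQ'⟩ := LOC_depth P' Q'
  have hC' : Chart (fun j => algebraMap (MvPolynomial (Fin n) K) Q'
      (MvPolynomial.X j)) D' (maximalIdeal Q') :=
    ⟨hDX', fun V _ _ _ _ _ δ x => hchain' V δ x⟩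
  have hder : ∀ x j, D' (ι x) j = ι (D x j) := by
    refine YEF_der ι ?_ _ D hchain D' ?_
    · intro a
      rw [IsScalarTower.algebraMap_apply k (MvPolynomial (Fin n) k) Q, hι,
        IsScalarTower.algebraMap_apply K (MvPolynomial (Fin n) K) Q']
      simp only [MvPolynomial.algebraMap_eq, MvPolynomial.map_C]
    · intro j
      rw [hι, MvPolynomial.map_X, hDX']
  -- the condition on the Jacobian matrix
  have hH := FIN_hl D (fun q _ => JRP _ D hDX hchain q) f hf (YEF_iso e hiso) (phi D f)
    (phi_spec D f)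
  have hphi : ∀ l j, phi D' (fun l => ι (f l)) l j = ψ (phi D f l j) := by
    intro l j
    unfold phi
    split_ifs with h
    · rw [hder, hψ]
    · rw [map_zero]
  have hH' : ∀ l < c, ∃ N, ∀ a ∈ maximalIdeal (Q' ⧸ Ideal.span (Set.range fun l => ι (f l))) ^ N,
      a ∈ Hl (phi D' (fun l => ι (f l))) l := by
    intro l hl
    obtain ⟨N, hN⟩ := hH l hl
    refine ⟨N, ?_⟩
    rw [← hψm, ← Ideal.map_pow]
    exact YHL ψ _ _ hphi l _ hN
  -- the evaluation
  have hunit : ∀ y : P'.primeCompl, IsUnit
      (MvPolynomial.eval (fun j => ev (MvPolynomial.X j)) (y : MvPolynomial (Fin n) K)) := by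
    intro y
    rw [isUnit_iff_ne_zero]
    intro h
    exact y.2 ((hP' _).2 h)
  let evQ : Q' →+* K := IsLocalization.lift (M := P'.primeCompl) (S := Q') hunit
  have hevQ : ∀ p, evQ (algebraMap (MvPolynomial (Fin n) K) Q' p) =
      MvPolynomial.eval (fun j => ev (MvPolynomial.X j)) p := fun p => IsLocalization.lift_eq hunit p
  have hevK : ∀ a : K, evQ (algebraMap K Q' a) = a := by
    intro a
    rw [IsScalarTower.algebraMap_apply K (MvPolynomial (Fin n) K) Q', hevQ,
      MvPolynomial.algebraMap_eq, MvPolynomial.eval_C]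
  have hker : RingHom.ker evQ = maximalIdeal Q' :=
    IsLocalRing.eq_maximalIdeal (RingHom.ker_isMaximal_of_surjective evQ
      fun a => ⟨algebraMap K Q' a, hevK a⟩)
  have hfm : ∀ l, f l ∈ maximalIdeal Q := by
    intro l
    have h1 : Ideal.span (Set.range f) ≠ ⊤ := Ideal.Quotient.nontrivial_iff.1 inferInstance
    exact IsLocalRing.le_maximalIdeal h1 (Ideal.subset_span ⟨l, rfl⟩)
  have hkill : ∀ a ∈ Ideal.span (Set.range fun l => ι (f l)), evQ a = 0 := by
    intro a ha
    rw [← RingHom.mem_ker, hker]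
    refine (Ideal.span_le.2 ?_) ha
    rintro _ ⟨l, rfl⟩
    rw [← hmax]
    exact Ideal.mem_map_of_mem ι (hfm l)
  -- the algebra structures
  let _ : Algebra A (Q' ⧸ Ideal.span (Set.range fun l => ι (f l))) :=
    (ψ.comp e.symm.toRingHom).toAlgebra
  let _ : Algebra (Q' ⧸ Ideal.span (Set.range fun l => ι (f l))) K :=
    (Ideal.Quotient.lift _ evQ hkill).toAlgebra
  have hAB : ∀ x : Q ⧸ Ideal.span (Set.range f),
      algebraMap A (Q' ⧸ Ideal.span (Set.range fun l => ι (f l))) (e x) = ψ x := by
    intro x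
    show ψ (e.symm (e x)) = ψ x
    rw [e.symm_apply_apply]
  have hBK : ∀ x : Q', algebraMap (Q' ⧸ Ideal.span (Set.range fun l => ι (f l))) K
      (Ideal.Quotient.mk _ x) = evQ x := fun x => rfl
  have _ : Module.Flat A (Q' ⧸ Ideal.span (Set.range fun l => ι (f l))) :=
    RingHom.Flat.comp (RingHom.Flat.of_bijective (f := e.symm.toRingHom) e.symm.bijective) hψf
  have hθ' : ∀ q : Q, algebraMap A K (e (Ideal.Quotient.mk _ q)) = evQ (ι q) := by
    have h1 : ((algebraMap A K).comp (e.toRingHom.comp (Ideal.Quotient.mk _))) = evQ.comp ι := by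
      apply IsLocalization.ringHom_ext P.primeCompl
      refine RingHom.ext fun p => ?_
      show algebraMap A K (e (Ideal.Quotient.mk _ (algebraMap (MvPolynomial (Fin n) k) Q p))) =
        evQ (ι (algebraMap (MvPolynomial (Fin n) k) Q p))
      rw [hθ, hι, hevQ, MvPolynomial.eval_map]
      exact congrArg (fun g : MvPolynomial (Fin n) k →ₐ[k] K => g p)
        (MvPolynomial.aeval_unique ev)
    intro q
    exact congrArg (fun g : Q →+* K => g q) h1
  have _ : IsScalarTower A (Q' ⧸ Ideal.span (Set.range fun l => ι (f l))) K := by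
    refine IsScalarTower.of_algebraMap_eq fun a => ?_
    obtain ⟨x, rfl⟩ := e.surjective a
    obtain ⟨q, rfl⟩ := Ideal.Quotient.mk_surjective x
    rw [hθ', hAB, hψ, hBK]
  have _ : IsScalarTower K (Q' ⧸ Ideal.span (Set.range fun l => ι (f l))) K := by
    refine IsScalarTower.of_algebraMap_eq fun a => ?_
    have h1 : algebraMap K (Q' ⧸ Ideal.span (Set.range fun l => ι (f l))) a =
      Ideal.Quotient.mk _ (algebraMap K Q' a) := rfl
    rw [h1, hBK, hevK]
    rfl
  have hm : (maximalIdeal A).map
      (algebraMap A (Q' ⧸ Ideal.span (Set.range fun l => ι (f l)))) =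
      maximalIdeal (Q' ⧸ Ideal.span (Set.range fun l => ι (f l))) := by
    have h1 : algebraMap A (Q' ⧸ Ideal.span (Set.range fun l => ι (f l))) =
      ψ.comp e.symm.toRingHom := rfl
    rw [h1, ← Ideal.map_map, ← hψm]
    congr 1
    exact IsLocalRing.map_ringEquiv_maximalIdeal e.symm
  have hdB : ringKrullDim (Q' ⧸ Ideal.span (Set.range fun l => ι (f l))) = d := by
    rw [YDM hm, hd]
  refine YGN hm _ i ?_ F hF M hM
  intro F' hF' M' _ _ _ _ _ hM'
  exact FIN_core hC' hdim' hQ' (fun l => ι (f l)) hf' (phi D' (fun l => ι (f l)))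
    (phi_spec D' (fun l => ι (f l))) hH' d hdB F' hF' i hi M' hM'

theorem YEF {k : Type u} [Field k] [CharZero k] {n c : ℕ}
    (P : Ideal (MvPolynomial (Fin n) k)) [P.IsMaximal]
    (Q : Type u) [CommRing Q] [Algebra (MvPolynomial (Fin n) k) Q] [IsLocalization.AtPrime Q P]
    (f : Fin c → Q) (hf : IsRegular Q (List.ofFn f))
    {A : Type u} [CommRing A] [IsLocalRing A] [IsNoetherianRing A]
    (e : (Q ⧸ Ideal.span (Set.range f)) ≃+* A)
    (hiso : ∀ (p : Ideal A) [p.IsPrime], p ≠ maximalIdeal A →
      IsRegularLocalRing (Localization.AtPrime p))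
    (d : ℕ) (hd : ringKrullDim A = d) (F : Cx A) (hF : F.FinLen) (i : ℕ) (hi : i ≤ d)
    (M : Type u) [AddCommGroup M] [Module A M] [Module.Finite A M]
    (hM : Module.supportDim A M ≤ i) :
    PPa (ResidueField A) F M i (i < d ∧ 2 * i ≠ d ∧ 2 * i ≠ d + 1) := by
  have hQl : IsLocalRing Q := IsLocalization.AtPrime.isLocalRing Q P
  -- the `k`-algebra structures
  let _ : Algebra k Q :=
    ((algebraMap (MvPolynomial (Fin n) k) Q).comp MvPolynomial.C).toAlgebra
  have hT : IsScalarTower k (MvPolynomial (Fin n) k) Q :=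
    IsScalarTower.of_algebraMap_eq fun _ => rfl
  let θ : MvPolynomial (Fin n) k →+* ResidueField A :=
    (residue A).comp (e.toRingHom.comp
      ((Ideal.Quotient.mk _).comp (algebraMap (MvPolynomial (Fin n) k) Q)))
  let _ : Algebra k (ResidueField A) := (θ.comp MvPolynomial.C).toAlgebra
  let ev : MvPolynomial (Fin n) k →ₐ[k] ResidueField A :=
    { θ with commutes' := fun _ => rfl }
  have hev : ∀ p, ev p = residue A (e (Ideal.Quotient.mk _
      (algebraMap (MvPolynomial (Fin n) k) Q p))) := fun _ => rfl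
  have hRl : IsLocalRing (Q ⧸ Ideal.span (Set.range f)) := CIA_local f hf
  have hker : RingHom.ker θ = P := by
    have hle : P ≤ RingHom.ker θ := by
      intro p hp
      rw [RingHom.mem_ker]
      show residue A (e (Ideal.Quotient.mk _ (algebraMap (MvPolynomial (Fin n) k) Q p))) = 0
      rw [residue_eq_zero_iff]
      have h1 : algebraMap (MvPolynomial (Fin n) k) Q p ∈ maximalIdeal Q :=
        (IsLocalization.AtPrime.to_map_mem_maximal_iff Q P p).2 hp
      have h2 : Ideal.Quotient.mk (Ideal.span (Set.range f))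
          (algebraMap (MvPolynomial (Fin n) k) Q p) ∈
          maximalIdeal (Q ⧸ Ideal.span (Set.range f)) := by
        rw [← CIA_max]
        exact Ideal.mem_map_of_mem _ h1
      have h3 := Ideal.mem_map_of_mem e.toRingHom h2
      have h4 : (maximalIdeal (Q ⧸ Ideal.span (Set.range f))).map e.toRingHom = maximalIdeal A :=
        IsLocalRing.map_ringEquiv_maximalIdeal e
      rw [h4] at h3
      exact h3
    exact (Ideal.IsMaximal.eq_of_le inferInstance (RingHom.ker_ne_top θ) hle).symm
  have hP : ∀ p, p ∈ P ↔ ev p = 0 := by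
    intro p
    rw [← hker, RingHom.mem_ker]
    exact Iff.rfl
  have hsurj : Function.Surjective ev := by
    intro z
    obtain ⟨a, rfl⟩ := IsLocalRing.residue_surjective z
    obtain ⟨x, rfl⟩ := e.surjective a
    obtain ⟨q, rfl⟩ := Ideal.Quotient.mk_surjective x
    obtain ⟨p, s, rfl⟩ := IsLocalization.exists_mk'_eq P.primeCompl q
    have h1 : IsLocalization.mk' Q p s * algebraMap (MvPolynomial (Fin n) k) Q s =
      algebraMap (MvPolynomial (Fin n) k) Q p := IsLocalization.mk'_spec Q p s
    have h2 : residue A (e (Ideal.Quotient.mk _ (IsLocalization.mk' Q p s))) * ev s = ev p := by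
      rw [hev, hev, ← map_mul, ← map_mul, ← map_mul, h1]
    have h3 : ev s ≠ 0 := fun h => s.2 ((hP _).2 h)
    obtain ⟨t, ht⟩ := Ideal.Quotient.exists_inv (I := P) (a := Ideal.Quotient.mk P (s : MvPolynomial (Fin n) k))
      (fun h => s.2 (Ideal.Quotient.eq_zero_iff_mem.1 h))
    obtain ⟨t, rfl⟩ := Ideal.Quotient.mk_surjective t
    have h4 : ev s * ev t = 1 := by
      have h5 : (s : MvPolynomial (Fin n) k) * t - 1 ∈ P := by
        rw [← Ideal.Quotient.eq_zero_iff_mem, map_sub, map_mul, map_one, ht, sub_self]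
      have h6 := (hP _).1 h5
      rw [map_sub, map_mul, map_one, sub_eq_zero] at h6
      exact h6
    refine ⟨p * t, ?_⟩
    rw [map_mul, ← h2, mul_assoc, h4, mul_one]
  -- the polynomial ring over the residue field
  let P' : Ideal (MvPolynomial (Fin n) (ResidueField A)) :=
    RingHom.ker (MvPolynomial.eval (fun j => ev (MvPolynomial.X j)))
  have hP'm : P'.IsMaximal := RingHom.ker_isMaximal_of_surjective _
    fun a => ⟨MvPolynomial.C a, MvPolynomial.eval_C a⟩
  exact YEF_main ev hsurj P hP Q P' (fun p => RingHom.mem_ker) (Localization.AtPrime P') f hf e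
    (fun p => rfl) hiso d hd F hF i hi M hM

end NCG
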