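import Pool.Agent.NCG.YPS
import Pool.Agent.NCG.KAE

/-!
# YPD: partial derivatives on power series rings; chain rules

`pdD n K`: the derivation `g ↦ (∂_j g)_j` of `Q = K[[X_0, ..., X_{n-1}]]` into `Q^n`.

`YPD`: it is a `Chart` with coordinates `X_j`.  `D X_j = e_j`: `MvPowerSeries.pderiv_X`.  Chain rule: let `𝔪^N V = 0`,
`δ : Q → V` a derivation.  Write `g = p + r` with a polynomial `p` and `r ∈ 𝔪^(N+1)` (`YPS_dec`).  `δ r = 0`: `r` is a sum
of products `x y`, `x ∈ 𝔪^N`, `y ∈ 𝔪`, and `δ (x y) = x δ y + y δ x`; here `x δ y = 0`, and more generally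
`δ (𝔪^(M+1)) ⊆ 𝔪^M V` by induction on `M` (as an additive subgroup statement: `𝔪^M • ⊤`).  `∂_j r ∈ 𝔪^N`
(`YPS_pd`), so `∂_j r • δ X_j = 0`.  For polynomials: `δ ∘ coe` is a derivation of `MvPolynomial (Fin n) K` into `V`
(a module through the coercion), determined by its values on `X_j`, and so is
`p ↦ ∑_j ∂_j p • δ X_j` (`MvPowerSeries.pderiv_coe`); or prove the identity with `MvPolynomial.induction_on`.

`YPC`: for `y_0, ..., y_{r-1} ∈ 𝔪` let `σ = MvPowerSeries.substAlgHom` (`MvPowerSeries.hasSubst_of_constantCoeff_zero`), the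
substitution `K[[Y_0, ..., Y_{r-1}]] → Q`, `Y_l ↦ y_l`.  Chain rule `∂_j (σ g) = ∑_l σ (∂_l g) ∂_j y_l`: both sides are
derivations of `K[[Y]]` into `Q` (module through `σ`), equal on polynomials (as before) and, modulo `𝔪^N`, zero on
`𝔪_Y^(N+1)` (`σ` maps `𝔪_Y^N` into `𝔪^N` as it is generated by the `Y_l`, `YPS_max`; then `YPS_pd`).  So the difference
is in `⋂ 𝔪^N = 0` (`YPS_hd`).
-/

open scoped BigOperators
open IsLocalRing

namespace NCG

universe u

/-- the partial derivatives of a power series -/
noncomputable def pdD (n : ℕ) (K : Type u) [Field K] :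
    Derivation K (MvPowerSeries (Fin n) K) (Fin n → MvPowerSeries (Fin n) K) where
  toFun g := fun j => MvPowerSeries.pderiv K j g
  map_add' x y := by
    funext j
    simp
  map_smul' c x := by
    funext j
    simp
  map_one_eq_zero' := by
    funext j
    simp
  leibniz' x y := by
    funext j
    simp

theorem pdD_apply (n : ℕ) (K : Type u) [Field K] (g : MvPowerSeries (Fin n) K) (j : Fin n) :
    pdD n K g j = MvPowerSeries.pderiv K j g := rfl

private theorem ypd_X {n : ℕ} {K : Type u} [Field K] (i j : Fin n) :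
    MvPowerSeries.pderiv K i (MvPowerSeries.X j : MvPowerSeries (Fin n) K) =
      if j = i then 1 else 0 := by
  split_ifs with h
  · subst h; exact MvPowerSeries.pderiv_X_self
  · exact MvPowerSeries.pderiv_X_of_ne h

/-- a derivation into a module is determined by its values on the variables, for polynomials. -/
private theorem ypd_poly {n : ℕ} {K : Type u} [Field K] {V : Type u} [AddCommGroup V] [Module K V]
    [Module (MvPowerSeries (Fin n) K) V] [IsScalarTower K (MvPowerSeries (Fin n) K) V]
    (δ : Derivation K (MvPowerSeries (Fin n) K) V) (p : MvPolynomial (Fin n) K) :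
    δ (p : MvPowerSeries (Fin n) K) =
      ∑ j, MvPowerSeries.pderiv K j (p : MvPowerSeries (Fin n) K) • δ (MvPowerSeries.X j) := by
  induction p using MvPolynomial.induction_on with
  | C c =>
    have h1 : ((MvPolynomial.C c : MvPolynomial (Fin n) K) : MvPowerSeries (Fin n) K) =
        algebraMap K (MvPowerSeries (Fin n) K) c := by
      rw [MvPolynomial.coe_C, MvPowerSeries.algebraMap_apply, Algebra.algebraMap_self,
        RingHom.id_apply]
    rw [h1, δ.map_algebraMap]
    refine (Finset.sum_eq_zero fun j _ => ?_).symm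
    rw [Derivation.map_algebraMap, zero_smul]
  | add p q hp hq =>
    have h1 : ((p + q : MvPolynomial (Fin n) K) : MvPowerSeries (Fin n) K) =
        (p : MvPowerSeries (Fin n) K) + (q : MvPowerSeries (Fin n) K) := MvPolynomial.coe_add p q
    rw [h1, map_add, hp, hq, ← Finset.sum_add_distrib]
    exact Finset.sum_congr rfl fun j _ => by rw [map_add, add_smul]
  | mul_X p i hp =>
    have h1 : ((p * MvPolynomial.X i : MvPolynomial (Fin n) K) : MvPowerSeries (Fin n) K) =
        (p : MvPowerSeries (Fin n) K) * MvPowerSeries.X i := by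
      rw [MvPolynomial.coe_mul, MvPolynomial.coe_X]
    rw [h1, Derivation.leibniz, hp, Finset.smul_sum]
    have h2 : ∀ j, MvPowerSeries.pderiv K j ((p : MvPowerSeries (Fin n) K) * MvPowerSeries.X i) •
        δ (MvPowerSeries.X j) = (if i = j then (p : MvPowerSeries (Fin n) K) •
          δ (MvPowerSeries.X j) else 0) + (MvPowerSeries.X i : MvPowerSeries (Fin n) K) •
          MvPowerSeries.pderiv K j (p : MvPowerSeries (Fin n) K) • δ (MvPowerSeries.X j) := by
      intro j
      rw [Derivation.leibniz, ypd_X, add_smul, smul_eq_mul, smul_eq_mul, mul_ite, mul_one,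
        mul_zero, ite_smul, zero_smul, mul_smul]
    simp only [h2]
    rw [Finset.sum_add_distrib, Finset.sum_ite_eq]
    simp

private theorem ypd_pow {n : ℕ} {K : Type u} [Field K] {V : Type u} [AddCommGroup V] [Module K V]
    [Module (MvPowerSeries (Fin n) K) V] [IsScalarTower K (MvPowerSeries (Fin n) K) V]
    (δ : Derivation K (MvPowerSeries (Fin n) K) V) (M : ℕ) (r : MvPowerSeries (Fin n) K)
    (hr : r ∈ maximalIdeal (MvPowerSeries (Fin n) K) ^ (M + 1)) :
    δ r ∈ (maximalIdeal (MvPowerSeries (Fin n) K) ^ M •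
      (⊤ : Submodule (MvPowerSeries (Fin n) K) V)) := by
  induction M generalizing r with
  | zero =>
    rw [pow_zero, Ideal.one_eq_top, Submodule.top_smul]
    trivial
  | succ M ih =>
    rw [pow_succ] at hr
    induction hr using Submodule.mul_induction_on' with
    | mem_mul_mem x hx y hy =>
      rw [Derivation.leibniz]
      refine Submodule.add_mem _ (Submodule.smul_mem_smul hx trivial) ?_
      have h1 := Submodule.smul_mem_smul hy (ih x hx)
      rw [← Submodule.mul_smul, ← pow_succ'] at h1
      exact h1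
    | add x _ y _ hx hy =>
      rw [map_add]
      exact Submodule.add_mem _ hx hy

theorem YPD (n : ℕ) (K : Type u) [Field K] :
    Chart (fun j : Fin n => (MvPowerSeries.X j : MvPowerSeries (Fin n) K)) (pdD n K)
      (maximalIdeal (MvPowerSeries (Fin n) K)) := by
  refine ⟨?_, ?_⟩
  · intro j
    funext i
    rw [pdD_apply, ypd_X, Pi.single_apply]
    by_cases h : i = j
    · rw [if_pos h.symm, if_pos h]
    · rw [if_neg (Ne.symm h), if_neg h]
  · intro V _ _ _ _ hV δ x
    obtain ⟨N, hN⟩ := hV
    obtain ⟨p, hp⟩ := YPS_dec (N + 1) x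
    set r := x - (p : MvPowerSeries (Fin n) K) with hr
    have hx : x = (p : MvPowerSeries (Fin n) K) + r := by rw [hr]; ring
    have h1 : δ r = 0 := by
      have h2 := ypd_pow δ N r hp
      have h3 : (maximalIdeal (MvPowerSeries (Fin n) K) ^ N •
          (⊤ : Submodule (MvPowerSeries (Fin n) K) V)) = ⊥ := by
        rw [eq_bot_iff, Submodule.smul_le]
        intro a ha v _
        rw [hN a ha v]
        exact Submodule.zero_mem _
      rw [h3] at h2
      exact h2
    have h4 : ∀ j, MvPowerSeries.pderiv K j r • δ (MvPowerSeries.X j) = 0 := fun j =>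
      hN _ (YPS_pd j N r hp) _
    rw [hx, map_add, h1, add_zero, ypd_poly δ p]
    refine Finset.sum_congr rfl fun j _ => ?_
    rw [map_add, Pi.add_apply, pdD_apply, pdD_apply, add_smul, h4, add_zero]

theorem YPC {n r : ℕ} {K : Type u} [Field K] (y : Fin r → MvPowerSeries (Fin n) K)
    (hy : ∀ l, y l ∈ maximalIdeal (MvPowerSeries (Fin n) K)) :
    ∃ σ : MvPowerSeries (Fin r) K →ₐ[K] MvPowerSeries (Fin n) K,
      (∀ l, σ (MvPowerSeries.X l) = y l) ∧
      ∀ g j, pdD n K (σ g) j = ∑ l, σ (pdD r K g l) * pdD n K (y l) j := by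
  have hy0 : ∀ l, MvPowerSeries.constantCoeff (y l) = 0 := by
    intro l
    have := hy l
    rwa [IsLocalRing.mem_maximalIdeal, mem_nonunits_iff, MvPowerSeries.isUnit_iff_constantCoeff,
      isUnit_iff_ne_zero, not_not] at this
  have hs : MvPowerSeries.HasSubst y := MvPowerSeries.hasSubst_of_constantCoeff_zero hy0
  let σ : MvPowerSeries (Fin r) K →ₐ[K] MvPowerSeries (Fin n) K :=
    MvPowerSeries.substAlgHom hs
  have hσX : ∀ l, σ (MvPowerSeries.X l) = y l := fun l => MvPowerSeries.substAlgHom_X hs l
  refine ⟨σ, hσX, ?_⟩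
  intro g j
  have hσm : ∀ (N : ℕ) (x : MvPowerSeries (Fin r) K),
      x ∈ maximalIdeal (MvPowerSeries (Fin r) K) ^ N →
      σ x ∈ maximalIdeal (MvPowerSeries (Fin n) K) ^ N := by
    intro N x hx
    have h1 : Ideal.map (σ : MvPowerSeries (Fin r) K →+* MvPowerSeries (Fin n) K)
        (maximalIdeal (MvPowerSeries (Fin r) K)) ≤ maximalIdeal (MvPowerSeries (Fin n) K) := by
      rw [YPS_max, Ideal.map_span, Ideal.span_le]
      rintro _ ⟨_, ⟨l, rfl⟩, rfl⟩
      change σ (MvPowerSeries.X l) ∈ _
      rw [hσX l]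
      exact hy l
    have h2 := Ideal.mem_map_of_mem (σ : MvPowerSeries (Fin r) K →+* MvPowerSeries (Fin n) K) hx
    rw [Ideal.map_pow] at h2
    exact Ideal.pow_right_mono h1 N h2
  -- polynomials
  have hpoly : ∀ p : MvPolynomial (Fin r) K,
      MvPowerSeries.pderiv K j (σ (p : MvPowerSeries (Fin r) K)) =
        ∑ l, σ (MvPowerSeries.pderiv K l (p : MvPowerSeries (Fin r) K)) *
          MvPowerSeries.pderiv K j (y l) := by
    intro p
    induction p using MvPolynomial.induction_on with
    | C c =>
      have h1 : ((MvPolynomial.C c : MvPolynomial (Fin r) K) : MvPowerSeries (Fin r) K) =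
          algebraMap K (MvPowerSeries (Fin r) K) c := by
        rw [MvPolynomial.coe_C, MvPowerSeries.algebraMap_apply, Algebra.algebraMap_self,
          RingHom.id_apply]
      rw [h1, AlgHom.commutes, Derivation.map_algebraMap]
      refine (Finset.sum_eq_zero fun l _ => ?_).symm
      rw [Derivation.map_algebraMap, map_zero, zero_mul]
    | add p q hp hq =>
      have h1 : ((p + q : MvPolynomial (Fin r) K) : MvPowerSeries (Fin r) K) =
          (p : MvPowerSeries (Fin r) K) + (q : MvPowerSeries (Fin r) K) := MvPolynomial.coe_add p q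
      rw [h1, map_add, map_add, hp, hq, ← Finset.sum_add_distrib]
      exact Finset.sum_congr rfl fun l _ => by rw [map_add, map_add, add_mul]
    | mul_X p i hp =>
      have h1 : ((p * MvPolynomial.X i : MvPolynomial (Fin r) K) : MvPowerSeries (Fin r) K) =
          (p : MvPowerSeries (Fin r) K) * MvPowerSeries.X i := by
        rw [MvPolynomial.coe_mul, MvPolynomial.coe_X]
      rw [h1, map_mul, Derivation.leibniz, hp, hσX, smul_eq_mul, smul_eq_mul, Finset.mul_sum]
      have h2 : ∀ l, σ (MvPowerSeries.pderiv K l ((p : MvPowerSeries (Fin r) K) *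
          MvPowerSeries.X i)) * MvPowerSeries.pderiv K j (y l) =
          (if i = l then σ (p : MvPowerSeries (Fin r) K) * MvPowerSeries.pderiv K j (y l) else 0) +
          y i * (σ (MvPowerSeries.pderiv K l (p : MvPowerSeries (Fin r) K)) *
            MvPowerSeries.pderiv K j (y l)) := by
        intro l
        rw [Derivation.leibniz, ypd_X, smul_eq_mul, smul_eq_mul, map_add, map_mul, map_mul, hσX]
        split_ifs
        · rw [map_one]; ring
        · rw [map_zero]; ring
      simp only [h2]
      rw [Finset.sum_add_distrib, Finset.sum_ite_eq]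
      simp
  rw [← sub_eq_zero]
  refine YPS_hd _ fun N => ?_
  obtain ⟨p, hp⟩ := YPS_dec (N + 1) g
  set s := g - (p : MvPowerSeries (Fin r) K) with hsdef
  have hg : g = (p : MvPowerSeries (Fin r) K) + s := by rw [hsdef]; ring
  have h1 : pdD n K (σ g) j - ∑ l, σ (pdD r K g l) * pdD n K (y l) j =
      MvPowerSeries.pderiv K j (σ s) -
        ∑ l, σ (MvPowerSeries.pderiv K l s) * MvPowerSeries.pderiv K j (y l) := by
    have h2 : pdD n K (σ g) j = MvPowerSeries.pderiv K j (σ (p : MvPowerSeries (Fin r) K)) +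
        MvPowerSeries.pderiv K j (σ s) := by
      rw [pdD_apply, hg, map_add, map_add]
    have h3 : ∑ l, σ (pdD r K g l) * pdD n K (y l) j =
        ∑ l, σ (MvPowerSeries.pderiv K l (p : MvPowerSeries (Fin r) K)) *
          MvPowerSeries.pderiv K j (y l) +
        ∑ l, σ (MvPowerSeries.pderiv K l s) * MvPowerSeries.pderiv K j (y l) := by
      rw [← Finset.sum_add_distrib]
      refine Finset.sum_congr rfl fun l _ => ?_
      rw [pdD_apply, pdD_apply, hg, map_add, map_add, add_mul]
    rw [h2, h3, hpoly p]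
    ring
  rw [h1]
  refine Ideal.sub_mem _ (YPS_pd j N _ (hσm (N + 1) s hp)) (Ideal.sum_mem _ fun l _ => ?_)
  exact Ideal.mul_mem_right _ _ (hσm N _ (YPS_pd l N s hp))

end NCG
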