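import Mathlib

/-!
# YPM: a localization of a polynomial ring at a prime is a localization at a maximal ideal over a larger field

`P` a prime ideal of `k[X_0, ..., X_{n-1}]`.  There are a field extension `k'` of `k` and a maximal ideal `P'` of
`k'[Y_0, ..., Y_{m-1}]` such that the localizations at `P` and `P'` are isomorphic rings.

Proof.  Let `L` be the residue field at `P`, `x_j ∈ L` the classes of the variables; `L` is generated by them as a field over
`k`.  Choose `T ⊆ Fin n` such that `(x_j)_{j ∈ T}` is a transcendence basis of `L` over `k` (a maximal algebraically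
independent subfamily: `exists_isTranscendenceBasis_subset`, `exists_isTranscendenceBasis_between`, ... ).
`k[X] ≃ MvPolynomial Tᶜ (MvPolynomial T k)` (`MvPolynomial.sumAlgEquiv` with `Equiv.Set.sumCompl`, `MvPolynomial.renameEquiv`);
let `R₀ = MvPolynomial T k`, `k' = FractionRing R₀`.  By algebraic independence the nonzero elements of `R₀` are not in `P`.
`MvPolynomial Tᶜ k'` is the localization of `MvPolynomial Tᶜ R₀` at the nonzero elements of `R₀`
(`MvPolynomial.isLocalization`), so `P' = P · MvPolynomial Tᶜ k'` is a prime ideal lying over `P`, and the localization at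
`P'` is a localization of `k[X]` at `P` (`IsLocalization.isLocalization_isLocalization_atPrime_isLocalization`,
`IsLocalization.algEquiv` or `ringEquivOfRingEquiv`).  `P'` is maximal: the quotient is a domain, generated over the field
`k'` by the classes of the `X_j`, `j ∉ T`, which are algebraic over `k'` (the quotient embeds into `L`, and `x_j` is
algebraic over `k(x_T)`), so it is integral over a field, hence a field (`isField_of_isIntegral_of_isField'`).
Finally rename `Tᶜ` to `Fin m`.
-/

namespace NCG

universe u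

open MvPolynomial

attribute [local instance] MvPolynomial.algebraMvPolynomial

/-- transport of the localization at a prime along a ring isomorphism -/
private theorem YPM_transport {R S : Type*} [CommRing R] [CommRing S] (e : R ≃+* S)
    (P : Ideal R) [P.IsPrime] (Q : Ideal S) [Q.IsPrime] (h : ∀ x, e x ∈ Q ↔ x ∈ P) :
    Nonempty (Localization.AtPrime P ≃+* Localization.AtPrime Q) := by
  refine ⟨IsLocalization.ringEquivOfRingEquiv (Localization.AtPrime P) (Localization.AtPrime Q)
    (M := P.primeCompl) (T := Q.primeCompl) e ?_⟩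
  ext y
  constructor
  · rintro ⟨x, hx, rfl⟩
    intro hy
    exact hx ((h x).1 hy)
  · intro hy
    refine ⟨e.symm y, ?_, ?_⟩
    · intro hx
      apply hy
      have := (h (e.symm y)).2 hx
      rw [RingEquiv.apply_symm_apply] at this
      exact this
    · exact RingEquiv.apply_symm_apply e y

private theorem YPM_field {K B : Type*} {σ : Type*} [Field K] [CommRing B] [IsDomain B]
    [Algebra K B] (g : MvPolynomial σ K →ₐ[K] B) (hg : Function.Surjective g)
    (h : ∀ j, IsAlgebraic K (g (X j))) : IsField B := by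
  have hall : ∀ p, IsIntegral K (g p) := by
    intro p
    induction p using MvPolynomial.induction_on with
    | C a =>
      have h1 : g (C a) = algebraMap K B a := g.commutes a
      rw [h1]
      exact isIntegral_algebraMap
    | add p q hp hq =>
      rw [map_add]
      exact hp.add hq
    | mul_X p j hp =>
      rw [map_mul]
      exact hp.mul (h j).isIntegral
  have : Algebra.IsIntegral K B := by
    constructor
    intro b
    obtain ⟨p, rfl⟩ := hg b
    exact hall p
  exact isField_of_isIntegral_of_isField' (R := K) (Field.toIsField K)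

private theorem YPM_aux {R₀ : Type u} [CommRing R₀] [IsDomain R₀] {σ : Type}
    (P : Ideal (MvPolynomial σ R₀)) [P.IsPrime] (h1 : ∀ r : R₀, C r ∈ P → r = 0)
    (h2 : ∀ j : σ, ∃ q : Polynomial R₀, q ≠ 0 ∧ q.eval₂ C (X j) ∈ P) :
    ∃ (P' : Ideal (MvPolynomial σ (FractionRing R₀))) (_ : P'.IsMaximal),
      Nonempty (Localization.AtPrime P ≃+* Localization.AtPrime P') := by
  let K := FractionRing R₀
  let S := MvPolynomial σ K
  let pc : Submonoid (MvPolynomial σ R₀) := (nonZeroDivisors R₀).map (C (σ := σ))
  have hloc : IsLocalization pc S := MvPolynomial.isLocalization (nonZeroDivisors R₀) K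
  let pS : Ideal S := P.map (algebraMap (MvPolynomial σ R₀) S)
  have disj : Disjoint (pc : Set (MvPolynomial σ R₀)) (P : Set (MvPolynomial σ R₀)) := by
    rw [Set.disjoint_left]
    rintro _ ⟨m, hm, rfl⟩ hmP
    exact nonZeroDivisors.ne_zero hm (h1 m hmP)
  have hp : pS.IsPrime := IsLocalization.isPrime_of_isPrime_disjoint pc _ _ ‹_› disj
  have hat : IsLocalization.AtPrime (Localization.AtPrime pS) P := by
    convert IsLocalization.isLocalization_isLocalization_atPrime_isLocalization pc
      (Localization.AtPrime pS) pS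
    exact (IsLocalization.under_map_of_isPrime_disjoint pc _ ‹_› disj).symm
  have hmax : pS.IsMaximal := by
    have hdom : IsDomain (S ⧸ pS) := Ideal.Quotient.isDomain pS
    suffices hF : IsField (S ⧸ pS) from Ideal.Quotient.maximal_of_isField pS hF
    refine YPM_field (K := K) (B := S ⧸ pS)
      (Ideal.Quotient.mkₐ K pS) (Ideal.Quotient.mkₐ_surjective K pS) ?_
    intro j
    obtain ⟨q, hq, hqP⟩ := h2 j
    refine ⟨q.map (algebraMap R₀ K), ?_, ?_⟩
    · rw [Ne, Polynomial.map_eq_zero_iff (IsFractionRing.injective R₀ K)]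
      exact hq
    · have h3 : algebraMap (MvPolynomial σ R₀) S (q.eval₂ C (X j)) ∈ pS :=
        Ideal.mem_map_of_mem _ hqP
      rw [← Ideal.Quotient.eq_zero_iff_mem, Polynomial.hom_eval₂, Polynomial.hom_eval₂] at h3
      rw [Polynomial.aeval_def, Polynomial.eval₂_map, ← h3]
      congr 1
      · refine RingHom.ext fun r => ?_
        simp only [RingHom.comp_apply]
        rw [MvPolynomial.algebraMap_def, MvPolynomial.map_C]
        rfl
      · rw [MvPolynomial.algebraMap_def, MvPolynomial.map_X]
        rfl
  refine ⟨pS, hmax, ⟨?_⟩⟩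
  exact (IsLocalization.algEquiv P.primeCompl (Localization.AtPrime P)
    (Localization.AtPrime pS)).toRingEquiv

theorem YPM {k : Type u} [Field k] {n : ℕ} (P : Ideal (MvPolynomial (Fin n) k)) [P.IsPrime] :
    ∃ (k' : Type u) (_ : Field k') (_ : Algebra k k') (m : ℕ)
      (P' : Ideal (MvPolynomial (Fin m) k')) (_ : P'.IsMaximal),
      Nonempty (Localization.AtPrime P ≃+* Localization.AtPrime P') := by
  classical
  let A := MvPolynomial (Fin n) k ⧸ P
  let x : Fin n → A := fun j => Ideal.Quotient.mk P (X j)
  -- a maximal algebraically independent subfamily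
  obtain ⟨T, hT, hTmax⟩ : ∃ T : Set (Fin n), AlgebraicIndepOn k x T ∧
      ∀ j ∉ T, ¬ Transcendental (Algebra.adjoin k (x '' T)) (x j) := by
    have hfin : {T : Set (Fin n) | AlgebraicIndepOn k x T}.Finite := Set.toFinite _
    have hne : {T : Set (Fin n) | AlgebraicIndepOn k x T}.Nonempty := by
      refine ⟨∅, ?_⟩
      exact algebraicIndependent_empty_type_iff.mpr (FaithfulSMul.algebraMap_injective k A)
    obtain ⟨T, hT⟩ := hfin.exists_maximal hne
    refine ⟨T, hT.prop, ?_⟩
    intro j hj htr
    have h1 : AlgebraicIndepOn k x (insert j T) := AlgebraicIndepOn.insert hT.prop htr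
    have h2 := hT.le_of_ge h1 (Set.subset_insert j T)
    exact hj (h2 (Set.mem_insert j T))
  let R₀ := MvPolynomial T k
  let φ : R₀ →ₐ[k] A := aeval (fun i : T => x i)
  have hφ : Function.Injective φ := hT
  let ψ : MvPolynomial (Tᶜ : Set (Fin n)) R₀ →+* A :=
    MvPolynomial.eval₂Hom φ.toRingHom (fun j => x j)
  let e₀ : Fin n ≃ ((Tᶜ : Set (Fin n)) ⊕ T) :=
    (Equiv.Set.sumCompl T).symm.trans (Equiv.sumComm _ _)
  let e : MvPolynomial (Fin n) k ≃ₐ[k] MvPolynomial (Tᶜ : Set (Fin n)) R₀ :=
    (renameEquiv k e₀).trans (sumAlgEquiv k _ _)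
  have hψe : ∀ p, ψ (e p) = Ideal.Quotient.mk P p := by
    have h3 : ψ.comp e.toAlgHom.toRingHom = Ideal.Quotient.mk P := by
      apply MvPolynomial.ringHom_ext
      · intro a
        show ψ (sumAlgEquiv k _ _ (renameEquiv k e₀ (C a))) = _
        rw [renameEquiv_apply, rename_C]
        have h4 : sumAlgEquiv k (Tᶜ : Set (Fin n)) T (C a) = C (C a) :=
          MvPolynomial.sumAlgEquiv_C_inl _ _ _ a
        rw [h4]
        have h5 : ψ (C (C a)) = φ (C a) := MvPolynomial.eval₂_C _ _ _
        rw [h5]
        exact φ.commutes a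
      · intro i
        show ψ (sumAlgEquiv k _ _ (renameEquiv k e₀ (X i))) = _
        rw [renameEquiv_apply, rename_X]
        by_cases hi : i ∈ T
        · have h4 : e₀ i = Sum.inr ⟨i, hi⟩ := by
            show Sum.swap ((Equiv.Set.sumCompl T).symm i) = _
            rw [Equiv.Set.sumCompl_symm_apply_of_mem hi]
            rfl
          rw [h4]
          have h5 : sumAlgEquiv k (Tᶜ : Set (Fin n)) T (X (Sum.inr ⟨i, hi⟩)) = C (X ⟨i, hi⟩) :=
            MvPolynomial.sumAlgEquiv_X_inr _ _ _ _
          rw [h5]
          have h6 : ψ (C (X ⟨i, hi⟩)) = φ (X ⟨i, hi⟩) := MvPolynomial.eval₂_C _ _ _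
          rw [h6]
          exact aeval_X _ _
        · have h4 : e₀ i = Sum.inl ⟨i, hi⟩ := by
            show Sum.swap ((Equiv.Set.sumCompl T).symm i) = _
            rw [Equiv.Set.sumCompl_symm_apply_of_notMem hi]
            rfl
          rw [h4]
          have h5 : sumAlgEquiv k (Tᶜ : Set (Fin n)) T (X (Sum.inl ⟨i, hi⟩)) = X ⟨i, hi⟩ :=
            MvPolynomial.sumAlgEquiv_X_inl _ _ _ _
          rw [h5]
          exact MvPolynomial.eval₂_X _ _ _
    intro p
    exact RingHom.congr_fun h3 p
  let P₁ : Ideal (MvPolynomial (Tᶜ : Set (Fin n)) R₀) := RingHom.ker ψ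
  have hP₁ : P₁.IsPrime := RingHom.ker_isPrime ψ
  obtain ⟨t1⟩ := YPM_transport e.toRingEquiv P P₁ (by
    intro p
    show ψ (e p) = 0 ↔ p ∈ P
    rw [hψe, Ideal.Quotient.eq_zero_iff_mem])
  obtain ⟨P₂, hP₂, ⟨t2⟩⟩ := YPM_aux P₁
    (by
      intro r hr
      have h3 : ψ (C r) = 0 := hr
      have h4 : ψ (C r) = φ r := MvPolynomial.eval₂_C _ _ _
      rw [h4] at h3
      exact (map_eq_zero_iff φ hφ).1 h3)
    (by
      intro j
      have h3 := hTmax j j.2
      rw [Transcendental, not_not] at h3
      obtain ⟨p, hp, hpx⟩ := h3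
      have hS : Algebra.adjoin k (x '' T) = φ.range := by
        rw [Set.image_eq_range]
        exact Algebra.adjoin_range_eq_range_aeval k (fun i : T => x i)
      let f : R₀ →+* Algebra.adjoin k (x '' T) :=
        (φ.codRestrict (Algebra.adjoin k (x '' T)) (fun r => by
          rw [hS]
          exact ⟨r, rfl⟩)).toRingHom
      have hf : Function.Surjective f := by
        rintro ⟨y, hy⟩
        have hy' := hy
        rw [hS] at hy'
        obtain ⟨r, hr⟩ := hy'
        exact ⟨r, Subtype.ext hr⟩
      obtain ⟨q, rfl⟩ := Polynomial.map_surjective f hf p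
      refine ⟨q, ?_, ?_⟩
      · rintro rfl
        exact hp (by simp)
      · show ψ (q.eval₂ C (X j)) = 0
        rw [Polynomial.hom_eval₂]
        rw [Polynomial.aeval_def, Polynomial.eval₂_map] at hpx
        rw [← hpx]
        congr 1
        · refine RingHom.ext fun r => ?_
          exact MvPolynomial.eval₂_C _ _ _
        · exact MvPolynomial.eval₂_X _ _ _)
  have hfin : Fintype (Tᶜ : Set (Fin n)) := Fintype.ofFinite _
  let e' : MvPolynomial (Tᶜ : Set (Fin n)) (FractionRing R₀) ≃+*
      MvPolynomial (Fin (Fintype.card (Tᶜ : Set (Fin n)))) (FractionRing R₀) :=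
    (renameEquiv (FractionRing R₀) (Fintype.equivFin (Tᶜ : Set (Fin n)))).toRingEquiv
  let P₃ := P₂.comap e'.symm
  have hP₃ : P₃.IsMaximal := Ideal.comap_isMaximal_of_equiv e'.symm
  obtain ⟨t3⟩ := YPM_transport e' P₂ P₃ (by
    intro y
    show e'.symm (e' y) ∈ P₂ ↔ y ∈ P₂
    rw [RingEquiv.symm_apply_apply])
  exact ⟨FractionRing R₀, inferInstance, inferInstance, _, P₃, hP₃, ⟨(t1.trans t2).trans t3⟩⟩

end NCG
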