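import Mathlib

/-!
# YPS: power series rings: maximal ideal, residue field, dimension, regular sequence

`K` a field, `Q = K[[X_0, ..., X_{n-1}]]`.

`YPS_max`: the maximal ideal is generated by the variables.  It is the kernel of `constantCoeff`
(`MvPowerSeries.isUnit_iff_constantCoeff`), and a power series without constant term is `∑_j X_j g_j`: group
the monomials by their first variable (or use `MvPowerSeries.finSuccEquiv` and induction, or the lemmas on
`idealOfVars` in `Mathlib/RingTheory/MvPowerSeries/Equiv.lean`, `Trunc.lean`, `Order.lean`).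
`YPS_dec`: every `g` is a polynomial plus an element of `𝔪^N`.  (The truncation; or by induction on `N` from
`YPS_max`: if every `g` is `p + r`, `r ∈ 𝔪^N`, then `g - C (constantCoeff g) = ∑ X_j g_j` and `g_j = p_j + r_j`.)
The induction is the simplest proof.
`YPS_res`: `K → Q / 𝔪` is surjective.
`YPS_dim`: `X_0, ..., X_{n-1}` is a regular sequence: induction on `n` with
`MvPowerSeries.finSuccEquiv : MvPowerSeries (Fin (n+1)) K ≃ₐ PowerSeries (MvPowerSeries (Fin n) K)`, `X_0 ↦ X`,
`X_{j+1} ↦ C (X_j)`: `X` is a nonzerodivisor and `PowerSeries B ⧸ (X) ≃ B`.  (Order of the regular sequence as you like: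
only the existence of the list is claimed.)  `Q ⧸ 𝔪` has dimension `0`, so
`dim Q = n` by `ringKrullDim_add_length_eq_ringKrullDim_of_isRegular`.
`YPS_hd`: `⋂ 𝔪^N = 0` (Krull's intersection theorem, `Ideal.iInf_pow_eq_bot_of_isLocalRing`; the ring is Noetherian).
`YPS_pd`: `∂_j` maps `𝔪^(N+1)` into `𝔪^N` (a derivation; `𝔪^(N+1)` is additively generated by products `x y`,
`x ∈ 𝔪^N`, `y ∈ 𝔪`; induction on `N`).
-/

open scoped BigOperators
open IsLocalRing RingTheory.Sequence

namespace NCG

universe u

variable {K : Type u} [Field K] {n : ℕ}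

private theorem yps_mem (J : Finset (Fin n)) (g : MvPowerSeries (Fin n) K) :
    g ∈ Ideal.span ((MvPowerSeries.X (R := K)) '' (J : Set (Fin n))) ↔
      ∀ m : Fin n →₀ ℕ, (∀ j ∈ J, m j = 0) → MvPowerSeries.coeff m g = 0 := by
  constructor
  · intro h
    induction h using Submodule.span_induction with
    | mem x hx =>
      obtain ⟨j, hj, rfl⟩ := hx
      intro m hm
      exact MvPowerSeries.X_dvd_iff.1 (dvd_refl _) m (hm j hj)
    | zero => intro m _; exact map_zero _
    | add x y _ _ hx hy => intro m hm; rw [map_add, hx m hm, hy m hm, add_zero]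
    | smul a x _ hx =>
      intro m hm
      rw [smul_eq_mul, MvPowerSeries.coeff_mul]
      refine Finset.sum_eq_zero fun p hp => ?_
      rw [hx p.2 fun j hj => ?_, mul_zero]
      have h1 : p.1 + p.2 = m := Finset.HasAntidiagonal.mem_antidiagonal.1 hp
      have h2 : p.1 j + p.2 j = m j := by rw [← h1]; rfl
      have := hm j hj
      omega
  · induction J using Finset.induction_on generalizing g with
    | empty =>
      intro h
      have : g = 0 := by
        ext m
        rw [h m (by simp)]
        simp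
      rw [this]
      exact Submodule.zero_mem _
    | insert a J ha ih =>
      intro h
      let g1 : MvPowerSeries (Fin n) K := fun m => if m a = 0 then 0 else MvPowerSeries.coeff m g
      have hg1 : ∀ m, MvPowerSeries.coeff m g1 = if m a = 0 then 0 else MvPowerSeries.coeff m g :=
        fun m => rfl
      have h1 : g1 ∈ Ideal.span ((MvPowerSeries.X (R := K)) '' ((insert a J : Finset (Fin n)) :
          Set (Fin n))) := by
        have h2 : (MvPowerSeries.X a : MvPowerSeries (Fin n) K) ∣ g1 :=
          MvPowerSeries.X_dvd_iff.2 fun m hm => by rw [hg1, if_pos hm]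
        obtain ⟨c, hc⟩ := h2
        rw [hc]
        exact Ideal.mul_mem_right _ _ (Ideal.subset_span ⟨a, by simp, rfl⟩)
      have h3 : g - g1 ∈ Ideal.span ((MvPowerSeries.X (R := K)) '' (J : Set (Fin n))) := by
        refine ih (g - g1) fun m hm => ?_
        rw [map_sub, hg1]
        split_ifs with h4
        · rw [h m fun j hj => ?_, sub_zero]
          rcases Finset.mem_insert.1 hj with rfl | hj
          · exact h4
          · exact hm j hj
        · exact sub_self _
      have h5 : Ideal.span ((MvPowerSeries.X (R := K)) '' (J : Set (Fin n))) ≤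
          Ideal.span ((MvPowerSeries.X (R := K)) '' ((insert a J : Finset (Fin n)) :
          Set (Fin n))) := Ideal.span_mono (Set.image_mono (by simp))
      have h6 := Ideal.add_mem _ (h5 h3) h1
      rwa [sub_add_cancel] at h6

theorem YPS_max : maximalIdeal (MvPowerSeries (Fin n) K) =
    Ideal.span (Set.range (MvPowerSeries.X (R := K))) := by
  have hr : Set.range (MvPowerSeries.X (R := K) (σ := Fin n)) =
      (MvPowerSeries.X (R := K)) '' ((Finset.univ : Finset (Fin n)) : Set (Fin n)) := by
    simp
  ext g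
  rw [IsLocalRing.mem_maximalIdeal, mem_nonunits_iff, MvPowerSeries.isUnit_iff_constantCoeff,
    isUnit_iff_ne_zero, not_not, hr, yps_mem]
  constructor
  · intro h m hm
    have : m = 0 := by
      ext j
      exact hm j (Finset.mem_univ j)
    rw [this]
    exact h
  · intro h
    exact h 0 fun j _ => rfl

private theorem yps_X (j : Fin n) : (MvPowerSeries.X j : MvPowerSeries (Fin n) K) ∈
    maximalIdeal (MvPowerSeries (Fin n) K) := by
  rw [YPS_max]
  exact Ideal.subset_span ⟨j, rfl⟩

private theorem yps_C (g : MvPowerSeries (Fin n) K) :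
    g - MvPowerSeries.C (MvPowerSeries.constantCoeff g) ∈
      maximalIdeal (MvPowerSeries (Fin n) K) := by
  rw [IsLocalRing.mem_maximalIdeal, mem_nonunits_iff, MvPowerSeries.isUnit_iff_constantCoeff,
    isUnit_iff_ne_zero, not_not, map_sub, MvPowerSeries.constantCoeff_C, sub_self]

theorem YPS_dec (N : ℕ) (g : MvPowerSeries (Fin n) K) :
    ∃ p : MvPolynomial (Fin n) K, g - (p : MvPowerSeries (Fin n) K) ∈
      maximalIdeal (MvPowerSeries (Fin n) K) ^ N := by
  induction N generalizing g with
  | zero => exact ⟨0, by simp⟩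
  | succ N ih =>
    have h1 := yps_C g
    rw [YPS_max, Ideal.mem_span_range_iff_exists_fun] at h1
    obtain ⟨c, hc⟩ := h1
    choose p hp using fun j => ih (c j)
    refine ⟨MvPolynomial.C (MvPowerSeries.constantCoeff g) + ∑ j, p j * MvPolynomial.X j, ?_⟩
    have h2 : g - ((MvPolynomial.C (MvPowerSeries.constantCoeff g) +
        ∑ j, p j * MvPolynomial.X j : MvPolynomial (Fin n) K) : MvPowerSeries (Fin n) K) =
        ∑ j, (c j - (p j : MvPowerSeries (Fin n) K)) * MvPowerSeries.X j := by
      have h3 : ((MvPolynomial.C (MvPowerSeries.constantCoeff g) +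
        ∑ j, p j * MvPolynomial.X j : MvPolynomial (Fin n) K) : MvPowerSeries (Fin n) K) =
          MvPowerSeries.C (MvPowerSeries.constantCoeff g) +
            ∑ j, (p j : MvPowerSeries (Fin n) K) * MvPowerSeries.X j := by
        rw [← MvPolynomial.coeToMvPowerSeries.ringHom_apply, map_add, map_sum]
        congr 1
        · exact MvPolynomial.coe_C _
        · refine Finset.sum_congr rfl fun j _ => ?_
          rw [map_mul, MvPolynomial.coeToMvPowerSeries.ringHom_apply,
            MvPolynomial.coeToMvPowerSeries.ringHom_apply, MvPolynomial.coe_X]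
      rw [h3, ← sub_sub, ← hc, ← Finset.sum_sub_distrib]
      exact Finset.sum_congr rfl fun j _ => by ring
    rw [h2, pow_succ]
    exact Ideal.sum_mem _ fun j _ => Ideal.mul_mem_mul (hp j) (yps_X j)

theorem YPS_res : Module.Finite K (ResidueField (MvPowerSeries (Fin n) K)) := by
  refine Module.Finite.of_surjective
    (Algebra.linearMap K (ResidueField (MvPowerSeries (Fin n) K))) fun x => ?_
  obtain ⟨g, rfl⟩ := IsLocalRing.residue_surjective x
  refine ⟨MvPowerSeries.constantCoeff g, ?_⟩
  rw [Algebra.linearMap_apply,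
    IsScalarTower.algebraMap_apply K (MvPowerSeries (Fin n) K)
      (ResidueField (MvPowerSeries (Fin n) K))]
  change IsLocalRing.residue _ (algebraMap K (MvPowerSeries (Fin n) K) _) = _
  rw [MvPowerSeries.algebraMap_apply, Algebra.algebraMap_self, RingHom.id_apply]
  have h1 := (IsLocalRing.residue_eq_zero_iff _).2 (yps_C g)
  rw [map_sub, sub_eq_zero] at h1
  exact h1.symm

private theorem yps_reg (J : Finset (Fin n)) (a : Fin n) (ha : a ∉ J)
    (g : MvPowerSeries (Fin n) K)
    (h : MvPowerSeries.X a * g ∈ Ideal.span ((MvPowerSeries.X (R := K)) '' (J : Set (Fin n)))) :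
    g ∈ Ideal.span ((MvPowerSeries.X (R := K)) '' (J : Set (Fin n))) := by
  rw [yps_mem] at h ⊢
  intro m hm
  have h1 := h (Finsupp.single a 1 + m) fun j hj => by
    rw [Finsupp.add_apply, hm j hj, Finsupp.single_apply, if_neg]
    rintro rfl
    exact ha hj
  rw [MvPowerSeries.X_def, MvPowerSeries.coeff_add_monomial_mul, one_mul] at h1
  exact h1

private noncomputable def ypsL (K : Type u) [Field K] (n : ℕ) : List (MvPowerSeries (Fin n) K) :=
  List.ofFn fun j : Fin n => (MvPowerSeries.X j : MvPowerSeries (Fin n) K)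

private theorem yps_take (i : ℕ) :
    Ideal.ofList ((ypsL K n).take i) = Ideal.span ((MvPowerSeries.X (R := K)) ''
      ((Finset.univ.filter fun j : Fin n => (j : ℕ) < i : Finset (Fin n)) : Set (Fin n))) := by
  change Ideal.span {r | r ∈ (ypsL K n).take i} = _
  refine congrArg _ (Set.ext fun r => ?_)
  simp only [Set.mem_setOf_eq, Finset.coe_filter, Finset.mem_univ, true_and, Set.mem_image]
  rw [List.mem_take_iff_getElem]
  constructor
  · rintro ⟨j, hj, rfl⟩
    rw [ypsL, List.length_ofFn, lt_min_iff] at hj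
    refine ⟨⟨j, hj.2⟩, hj.1, ?_⟩
    simp [ypsL]
  · rintro ⟨j, hj, rfl⟩
    refine ⟨j, ?_, ?_⟩
    · rw [ypsL, List.length_ofFn, lt_min_iff]
      exact ⟨hj, j.2⟩
    · simp [ypsL]

private theorem yps_isRegular : IsRegular (MvPowerSeries (Fin n) K) (ypsL K n) := by
  rw [IsLocalRing.isRegular_iff_isWeaklyRegular_of_subset_maximalIdeal (by
    intro r hr
    rw [ypsL, List.mem_ofFn] at hr
    obtain ⟨j, rfl⟩ := hr
    exact yps_X j), isWeaklyRegular_iff]
  intro i hi
  have hi' : i < n := by rwa [ypsL, List.length_ofFn] at hi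
  have hget : (ypsL K n)[i] = MvPowerSeries.X ⟨i, hi'⟩ := by simp [ypsL]
  rw [hget]
  have htop : (Ideal.ofList ((ypsL K n).take i) • ⊤ :
      Submodule (MvPowerSeries (Fin n) K) (MvPowerSeries (Fin n) K)) =
      Ideal.ofList ((ypsL K n).take i) := by
    rw [smul_eq_mul, Ideal.mul_top]
  rw [htop]
  intro x y hxy
  obtain ⟨x, rfl⟩ := Submodule.mkQ_surjective _ x
  obtain ⟨y, rfl⟩ := Submodule.mkQ_surjective _ y
  have h1 : (Submodule.mkQ (Ideal.ofList ((ypsL K n).take i)))
      (MvPowerSeries.X ⟨i, hi'⟩ * (x - y)) = 0 := by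
    have h2 : (Submodule.mkQ (Ideal.ofList ((ypsL K n).take i)))
        ((MvPowerSeries.X ⟨i, hi'⟩ : MvPowerSeries (Fin n) K) • x) =
        (Submodule.mkQ (Ideal.ofList ((ypsL K n).take i)))
        ((MvPowerSeries.X ⟨i, hi'⟩ : MvPowerSeries (Fin n) K) • y) := by
      rw [map_smul, map_smul]
      exact hxy
    rw [mul_sub, map_sub, sub_eq_zero]
    exact h2
  rw [Submodule.mkQ_apply, Submodule.Quotient.mk_eq_zero, yps_take] at h1
  have h3 := yps_reg _ _ (by simp) _ h1
  rw [← yps_take] at h3
  rw [← sub_eq_zero, ← map_sub, Submodule.mkQ_apply, Submodule.Quotient.mk_eq_zero]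
  exact h3

theorem YPS_dim : ringKrullDim (MvPowerSeries (Fin n) K) = n ∧
    ∃ rs : List (MvPowerSeries (Fin n) K), rs.length = n ∧
      (∀ r ∈ rs, r ∈ maximalIdeal (MvPowerSeries (Fin n) K)) ∧
      IsRegular (MvPowerSeries (Fin n) K) rs := by
  have hlen : (ypsL K n).length = n := by rw [ypsL, List.length_ofFn]
  refine ⟨?_, ypsL K n, hlen, ?_, yps_isRegular⟩
  · have h1 := ringKrullDim_add_length_eq_ringKrullDim_of_isRegular (ypsL K n) yps_isRegular
    rw [hlen] at h1
    have h2 : Ideal.ofList (ypsL K n) = maximalIdeal (MvPowerSeries (Fin n) K) := by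
      have h3 := yps_take (K := K) (n := n) n
      rw [List.take_of_length_le hlen.le] at h3
      rw [h3, YPS_max]
      congr 1
      ext r
      simp
    rw [h2] at h1
    have h4 : ringKrullDim (MvPowerSeries (Fin n) K ⧸ maximalIdeal (MvPowerSeries (Fin n) K)) =
        0 := ringKrullDim_eq_zero_of_isField
          ((Ideal.Quotient.maximal_ideal_iff_isField_quotient _).1 inferInstance)
    rw [h4, zero_add] at h1
    exact h1.symm
  · intro r hr
    rw [ypsL, List.mem_ofFn] at hr
    obtain ⟨j, rfl⟩ := hr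
    exact yps_X j

theorem YPS_hd (g : MvPowerSeries (Fin n) K)
    (h : ∀ N, g ∈ maximalIdeal (MvPowerSeries (Fin n) K) ^ N) : g = 0 := by
  have h1 := Ideal.iInf_pow_eq_bot_of_isLocalRing (maximalIdeal (MvPowerSeries (Fin n) K))
    (Ideal.IsPrime.ne_top inferInstance)
  have h2 : g ∈ ⨅ i : ℕ, maximalIdeal (MvPowerSeries (Fin n) K) ^ i := Ideal.mem_iInf.2 h
  rw [h1] at h2
  exact h2

theorem YPS_pd (j : Fin n) (N : ℕ) (g : MvPowerSeries (Fin n) K)
    (h : g ∈ maximalIdeal (MvPowerSeries (Fin n) K) ^ (N + 1)) :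
    MvPowerSeries.pderiv K j g ∈ maximalIdeal (MvPowerSeries (Fin n) K) ^ N := by
  induction N generalizing g with
  | zero => simp
  | succ N ih =>
    rw [pow_succ] at h
    induction h using Submodule.mul_induction_on' with
    | mem_mul_mem x hx y hy =>
      rw [Derivation.leibniz, smul_eq_mul, smul_eq_mul]
      refine Ideal.add_mem _ (Ideal.mul_mem_right _ _ hx) ?_
      rw [pow_succ, mul_comm y]
      exact Ideal.mul_mem_mul (ih x hx) hy
    | add x _ y _ hx hy =>
      rw [map_add]
      exact Ideal.add_mem _ hx hy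

end NCG
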