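import Mathlib

/-!
# YRF: flat extensions with regular fibres

`YRF`: `A → B` a flat homomorphism of Noetherian rings, `P` a prime of `B`, `p` its contraction, `A_p` and
`B_P ⧸ p B_P` regular local rings.  Then `B_P` is a regular local ring.
Proof.  `A_p → B_P` is flat and local.  `𝔪_{A_p}` is generated by `dim A_p` elements, the maximal ideal of
`B_P ⧸ p B_P` by `dim (B_P ⧸ p B_P)` elements; lifting the latter to `B_P` we get `dim A_p + dim (B_P ⧸ p B_P)` generators of the
maximal ideal of `B_P`; and this sum is `dim B_P` by `Ideal.height_eq_height_add_of_liesOver_of_hasGoingDown`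
(for `A → B` and `p`, `P`, or for the localizations).  `IsRegularLocalRing.of_spanFinrank_maximalIdeal_le`.
-/

open IsLocalRing

namespace NCG

universe u

private theorem YRF_span {R : Type u} [CommRing R] [IsLocalRing R] [IsNoetherianRing R] (I : Ideal R)
    [IsLocalRing (R ⧸ I)] : (maximalIdeal R).spanFinrank ≤
      I.spanFinrank + (maximalIdeal (R ⧸ I)).spanFinrank := by
  classical
  obtain ⟨s, hs, hsI⟩ := Submodule.FG.exists_span_finset_card_eq_spanFinrank (I.fg_of_isNoetherianRing)
  obtain ⟨t, ht, htI⟩ :=
    Submodule.FG.exists_span_finset_card_eq_spanFinrank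
      ((maximalIdeal (R ⧸ I)).fg_of_isNoetherianRing)
  have hI : I ≠ ⊤ := Ideal.Quotient.nontrivial_iff.1 inferInstance
  have hloc : IsLocalHom (Ideal.Quotient.mk I) :=
    IsLocalHom.of_surjective _ Ideal.Quotient.mk_surjective
  have hcomap : (maximalIdeal (R ⧸ I)).comap (Ideal.Quotient.mk I) = maximalIdeal R :=
    ((IsLocalRing.local_hom_TFAE (Ideal.Quotient.mk I)).out 0 4).1 hloc
  let g := Function.surjInv (Ideal.Quotient.mk_surjective (I := I))
  have hg : ∀ a, Ideal.Quotient.mk I (g a) = a :=
    Function.surjInv_eq (Ideal.Quotient.mk_surjective (I := I))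
  have hmap : (Ideal.span ((t.image g : Finset R) : Set R)).map (Ideal.Quotient.mk I) =
      maximalIdeal (R ⧸ I) := by
    rw [Ideal.map_span, Finset.coe_image, ← Set.image_comp]
    have : (Ideal.Quotient.mk I) ∘ g = id := by
      funext a
      exact hg a
    rw [this, Set.image_id]
    exact htI
  have hmax : maximalIdeal R = Ideal.span (((t.image g ∪ s : Finset R)) : Set R) := by
    rw [Finset.coe_union, Ideal.span_union]
    have h1 : Ideal.span (s : Set R) = I := hsI
    rw [h1, ← hcomap, ← hmap, Ideal.comap_map_of_surjective _ Ideal.Quotient.mk_surjective]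
    congr 1
    rw [← RingHom.ker_eq_comap_bot, Ideal.mk_ker]
  rw [hmax, ← hs, ← ht]
  refine (Submodule.spanFinrank_span_le_ncard_of_finite (Finset.finite_toSet _)).trans ?_
  rw [Set.ncard_coe_finset]
  refine (Finset.card_union_le _ _).trans ?_
  have := Finset.card_image_le (s := t) (f := g)
  omega

theorem YRF {A B : Type u} [CommRing A] [IsNoetherianRing A] [CommRing B] [IsNoetherianRing B]
    [Algebra A B] [Module.Flat A B] (P : Ideal B) [P.IsPrime] (p : Ideal A) [p.IsPrime]
    (hp : P.comap (algebraMap A B) = p) (h1 : IsRegularLocalRing (Localization.AtPrime p))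
    (h2 : IsRegularLocalRing (Localization.AtPrime P ⧸
      p.map (algebraMap A (Localization.AtPrime P)))) :
    IsRegularLocalRing (Localization.AtPrime P) := by
  apply IsRegularLocalRing.of_spanFinrank_maximalIdeal_le
  have : IsNoetherianRing (Localization.AtPrime P) :=
    IsLocalization.isNoetherianRing P.primeCompl _ inferInstance
  have : IsNoetherianRing (Localization.AtPrime p) :=
    IsLocalization.isNoetherianRing p.primeCompl _ inferInstance
  set I := p.map (algebraMap A (Localization.AtPrime P)) with hI
  -- the number of generators of `I`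
  have hspan : I.spanFinrank ≤ (maximalIdeal (Localization.AtPrime p)).spanFinrank := by
    have e1 : (maximalIdeal (Localization.AtPrime p)).map
        (Localization.localRingHom p P (algebraMap A B) hp.symm) = I := by
      rw [← Localization.AtPrime.map_eq_maximalIdeal, Ideal.map_map, hI]
      congr 1
      ext a
      rw [RingHom.comp_apply, Localization.localRingHom_to_map, ← IsScalarTower.algebraMap_apply]
    rw [← e1]
    exact Ideal.spanFinrank_map_le_of_fg _ (Ideal.fg_of_isNoetherianRing _)
  -- dimensions
  have hfl : Module.Flat A (Localization.AtPrime P) := by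
    have : Module.Flat B (Localization.AtPrime P) := IsLocalization.flat _ P.primeCompl
    exact Module.Flat.trans A B _
  have hunder : (maximalIdeal (Localization.AtPrime P)).comap
      (algebraMap A (Localization.AtPrime P)) = p := by
    have e2 : (maximalIdeal (Localization.AtPrime P)).comap
        (algebraMap B (Localization.AtPrime P)) = P := Localization.AtPrime.under_maximalIdeal
    rw [IsScalarTower.algebraMap_eq A B (Localization.AtPrime P), ← Ideal.comap_comap, e2, hp]
  have hlies : (maximalIdeal (Localization.AtPrime P)).LiesOver p := ⟨hunder.symm⟩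
  have hht := Ideal.height_eq_height_add_of_liesOver_of_hasGoingDown p
    (maximalIdeal (Localization.AtPrime P))
  have hmapmax : (maximalIdeal (Localization.AtPrime P)).map (Ideal.Quotient.mk I) =
      maximalIdeal (Localization.AtPrime P ⧸ I) := by
    have hloc : IsLocalHom (Ideal.Quotient.mk I) :=
      IsLocalHom.of_surjective _ Ideal.Quotient.mk_surjective
    have hcomap : (maximalIdeal (Localization.AtPrime P ⧸ I)).comap (Ideal.Quotient.mk I) =
        maximalIdeal (Localization.AtPrime P) :=
      ((IsLocalRing.local_hom_TFAE (Ideal.Quotient.mk I)).out 0 4).1 hloc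
    rw [← hcomap, Ideal.map_comap_of_surjective _ Ideal.Quotient.mk_surjective]
  rw [← hI, hmapmax] at hht
  have hdim : ringKrullDim (Localization.AtPrime P) =
      ringKrullDim (Localization.AtPrime p) + ringKrullDim (Localization.AtPrime P ⧸ I) := by
    rw [← maximalIdeal_height_eq_ringKrullDim, hht, WithBot.coe_add,
      maximalIdeal_height_eq_ringKrullDim,
      IsLocalization.AtPrime.ringKrullDim_eq_height p (Localization.AtPrime p)]
  rw [hdim, ← h1.spanFinrank_maximalIdeal, ← h2.spanFinrank_maximalIdeal]
  have h3 := YRF_span I
  have h4 : (maximalIdeal (Localization.AtPrime P)).spanFinrank ≤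
      (maximalIdeal (Localization.AtPrime p)).spanFinrank +
        (maximalIdeal (Localization.AtPrime P ⧸ I)).spanFinrank := by omega
  exact_mod_cast h4

end NCG
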